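import Mathlib

set_option autoImplicit false

/-! # Exactly-one-regular matroids: definitions

In the types below `A` is the set of the elements whose deletion is regular and `B` the set of
the elements whose contraction is regular. -/

namespace Pool.Agent.Helper43_EOR

open Set Matroid

variable {α : Type*}

/-- `M` is representable over the field `F`. -/
def RepOver (F : Type) [Field F] (M : Matroid α) : Prop :=
  ∃ (n : ℕ) (v : α → Fin n → F), ∀ I ⊆ M.E, (M.Indep I ↔ LinearIndepOn F v I)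

/-- `M` is regular: representable over every field. -/
def Regular (M : Matroid α) : Prop := ∀ (F : Type) [Field F], RepOver F M

/-- `M` is not regular, and for every element exactly one of deletion and contraction is
regular. -/
def ExactlyOneRegular (M : Matroid α) : Prop :=
  ¬ Regular M ∧ ∀ e ∈ M.E, (Regular (M ＼ {e}) ∧ ¬ Regular (M ／ {e})) ∨
    (Regular (M ／ {e}) ∧ ¬ Regular (M ＼ {e}))

/-- `N` is isomorphic to `U_{2,4}`. -/
def IsU24 (N : Matroid α) : Prop :=
  N.E.encard = 4 ∧ ∀ I ⊆ N.E, (N.Indep I ↔ I.encard ≤ 2)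

/-- `N` is isomorphic to the Fano matroid: its elements are the seven nonzero vectors of
`GF(2)^3`. -/
def IsFano (N : Matroid α) : Prop :=
  ∃ v : α → Fin 3 → ZMod 2, BijOn v N.E {x | x ≠ 0} ∧
    ∀ I ⊆ N.E, (N.Indep I ↔ LinearIndepOn (ZMod 2) v I)

/-- `N` is `U_{2,4}`, the Fano matroid or its dual. -/
def IsCore (N : Matroid α) : Prop := IsU24 N ∨ IsFano N ∨ IsFano N✶

/-- The vectors `(χ_{a}, 0)` for `a ∈ A` and `(χ_{Y b}, t b)` for the other elements. -/
noncomputable def bvec (A : Set α) (Y : α → Set α) {δ : ℕ} (t : α → Fin δ → ZMod 2) (e : α) :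
    (α → ZMod 2) × (Fin δ → ZMod 2) :=
  open Classical in
  if e ∈ A then (Pi.single e 1, 0) else ((Y e).indicator 1, t e)

/-- `M` is the binary matroid on `A ∪ B` of the vectors `(χ_{a}, 0)`, `a ∈ A`, and
`(χ_{Y b}, t b)`, `b ∈ B`, where `Y b ⊆ A`. -/
def BinaryForm (M : Matroid α) (A B : Set α) (Y : α → Set α) {δ : ℕ}
    (t : α → Fin δ → ZMod 2) : Prop :=
  (∀ b ∈ B, Y b ⊆ A) ∧
    ∀ I ⊆ A ∪ B, (M.Indep I ↔ LinearIndepOn (ZMod 2) (bvec A Y t) I)

/-- `Z` is a set of `|A|` columns of the matrix `[I_A | S]` which are linearly independent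
over the rationals. -/
def SignedBase (A B : Set α) (S : α → α → ℤ) (Z : Set α) : Prop :=
  open Classical in
  Z ⊆ A ∪ B ∧ Z.encard = A.encard ∧
    LinearIndepOn ℚ (fun e : α => if e ∈ A then (Pi.single e 1 : α → ℚ)
      else A.indicator (fun a => (S a e : ℚ))) Z

/-- `S` is a matrix of signs with rows `A` and columns `B` without a submatrix of order four
with determinant `16` or `-16` (a Hadamard matrix) and without a submatrix of order six with
determinant `64` or `-64`. -/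
def FlatSigns (A B : Set α) (S : α → α → ℤ) : Prop :=
  (∀ a ∈ A, ∀ b ∈ B, S a b = 1 ∨ S a b = -1) ∧
  (∀ f g : Fin 4 → α, f.Injective → g.Injective → (∀ i, f i ∈ A) → (∀ i, g i ∈ B) →
    (Matrix.of fun i j => S (f i) (g j)).det.natAbs ≠ 16) ∧
  (∀ f g : Fin 6 → α, f.Injective → g.Injective → (∀ i, f i ∈ A) → (∀ i, g i ∈ B) →
    (Matrix.of fun i j => S (f i) (g j)).det.natAbs ≠ 64)

/-- Type S: for some such matrix `S` of signs the bases of `M` are those of the rational
matroid of `[I_A | S]`, or all of these except `A`. -/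
def TypeS (M : Matroid α) (A B : Set α) : Prop :=
  ∃ S : α → α → ℤ, FlatSigns A B S ∧
    ((∀ Z, M.IsBase Z ↔ SignedBase A B S Z) ∨ (∀ Z, M.IsBase Z ↔ SignedBase A B S Z ∧ Z ≠ A))

/-- Type T: `A` is a base of a binary matroid and the sets `{b ∈ B | a ∉ Y b}`, `a ∈ A`, form
three chains, members of different chains being disjoint. -/
def TypeT (M : Matroid α) (A B : Set α) : Prop :=
  ∃ (Y : α → Set α) (t : α → Fin 0 → ZMod 2), BinaryForm M A B Y t ∧
    ∃ τ : α → Fin 3, ∀ a ∈ A, ∀ a' ∈ A,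
      (τ a = τ a' → (∀ b ∈ B, a ∈ Y b → a' ∈ Y b) ∨ (∀ b ∈ B, a' ∈ Y b → a ∈ Y b)) ∧
      (τ a ≠ τ a' → ∀ b ∈ B, a ∈ Y b ∨ a' ∈ Y b)

/-- Type W1: a binary matroid with one additional coordinate; the elements of `B` in the span of
`A` are the sum of `A`; the sets `Y b` of the other ones, some of them replaced by their
complements in `A`, form a chain. -/
def TypeW1 (M : Matroid α) (A B : Set α) : Prop :=
  ∃ (Y : α → Set α) (t : α → Fin 1 → ZMod 2), BinaryForm M A B Y t ∧
    (∀ b ∈ B, t b = 0 → Y b = A) ∧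
    ∃ W : α → Set α, (∀ b ∈ B, t b ≠ 0 → (W b = Y b ∨ W b = A \ Y b)) ∧
      (∀ b ∈ B, ∀ b' ∈ B, t b ≠ 0 → t b' ≠ 0 → (W b ⊆ W b' ∨ W b' ⊆ W b))

/-- Type W2: a binary matroid with two additional coordinates, which do not both vanish on any
element of `B`; the sets `Y b` are `∅` or `A` if they are `01` or `10`, and form a chain for
those `b` for which they are `11`. -/
def TypeW2 (M : Matroid α) (A B : Set α) : Prop :=
  ∃ (Y : α → Set α) (t : α → Fin 2 → ZMod 2), BinaryForm M A B Y t ∧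
    (∀ b ∈ B, t b ≠ 0) ∧
    (∀ b ∈ B, t b ≠ ![1, 1] → (Y b = ∅ ∨ Y b = A)) ∧
    (∀ b ∈ B, ∀ b' ∈ B, t b = ![1, 1] → t b' = ![1, 1] → (Y b ⊆ Y b' ∨ Y b' ⊆ Y b))

/-- Type X1: one additional coordinate, and `A` is the disjoint union of three sets (series
classes) of which each `Y b` is a union as stated. -/
def TypeX1 (M : Matroid α) (A B : Set α) : Prop :=
  ∃ (Y : α → Set α) (t : α → Fin 1 → ZMod 2), BinaryForm M A B Y t ∧
    ∃ A₁ A₂ A₃ : Set α, A₁ ∪ A₂ ∪ A₃ = A ∧ Disjoint A₁ A₂ ∧ Disjoint A₁ A₃ ∧ Disjoint A₂ A₃ ∧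
      (∀ b ∈ B, t b = 0 → Y b = A₁ ∪ A₂) ∧
      (∀ b ∈ B, t b ≠ 0 → (Y b = ∅ ∨ Y b = A₁ ∪ A₂ ∨ Y b = A₁ ∪ A₃ ∨ Y b = A₂ ∪ A₃))

/-- Type X3: three additional coordinates, `A` is one series class and `B` consists of at most
seven parallel classes. -/
def TypeX3 (M : Matroid α) (A B : Set α) : Prop :=
  ∃ (Y : α → Set α) (t : α → Fin 3 → ZMod 2), BinaryForm M A B Y t ∧
    (∀ b ∈ B, t b ≠ 0) ∧ (∀ b ∈ B, t b = ![1, 1, 1] → Y b = ∅) ∧
    (∀ b ∈ B, t b ≠ ![1, 1, 1] → Y b = A)

/-- Type X4: `A` is empty and `M` is, up to parallel elements, a restriction of the dual of the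
Fano matroid (the vectors of `GF(2)^4` of odd weight other than `0111`). -/
def TypeX4 (M : Matroid α) (A B : Set α) : Prop :=
  A = ∅ ∧ ∃ (Y : α → Set α) (t : α → Fin 4 → ZMod 2), BinaryForm M A B Y t ∧
    (∀ b ∈ B, ∑ i, t b i = 1 ∧ t b ≠ ![0, 1, 1, 1])

/-- Type U1: `U_{2,4}` with one element replaced by the series class `A` and the other
three by parallel classes; rational vectors `χ_{a}` and `(s b) χ_A + (last coordinate)`. -/
def TypeU1 (M : Matroid α) (A B : Set α) : Prop :=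
  open Classical in
  ∃ s : α → ℚ, (∀ b ∈ B, s b = 0 ∨ s b = 1 ∨ s b = -1) ∧
    ∀ I ⊆ A ∪ B, (M.Indep I ↔ LinearIndepOn ℚ (fun e : α => if e ∈ A then
      ((Pi.single e 1, 0) : (α → ℚ) × ℚ) else (A.indicator (fun _ => s e), 1)) I)

/-- Type U2: a matroid of rank two without loops. -/
def TypeU2 (M : Matroid α) (A : Set α) : Prop :=
  A = ∅ ∧ M.eRank = 2 ∧ M.Loopless

/-- One of the nine types. -/
def Typed (M : Matroid α) (A B : Set α) : Prop :=
  TypeS M A B ∨ TypeT M A B ∨ TypeW1 M A B ∨ TypeW2 M A B ∨ TypeX1 M A B ∨ TypeX3 M A B ∨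
    TypeX4 M A B ∨ TypeU1 M A B ∨ TypeU2 M A

end Pool.Agent.Helper43_EOR
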