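import Mathlib
import Pool.Agent.Helper43_EOR.Defs

set_option autoImplicit false

/-! # Exactly-one-regular matroids: total minimality -/

namespace Pool.Agent.Helper43_EOR

open Set Matroid

variable {α : Type*}

/-- The entries of `S` in `A × B` are `1` or `-1`, and every square submatrix of order `k + 1` has
determinant `0`, `2 ^ k` or `- 2 ^ k`. -/
def TotallyMinimal (A B : Set α) (S : α → α → ℤ) : Prop :=
  (∀ a ∈ A, ∀ b ∈ B, S a b = 1 ∨ S a b = -1) ∧
  ∀ (k : ℕ) (f g : Fin (k + 1) → α), f.Injective → g.Injective → (∀ i, f i ∈ A) →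
    (∀ i, g i ∈ B) →
    (Matrix.of fun i j => S (f i) (g j)).det = 0 ∨
    (Matrix.of fun i j => S (f i) (g j)).det = 2 ^ k ∨
    (Matrix.of fun i j => S (f i) (g j)).det = - 2 ^ k

/-- Type S with total minimality. -/
def TypeS0 (M : Matroid α) (A B : Set α) : Prop :=
  ∃ S : α → α → ℤ, TotallyMinimal A B S ∧
    ((∀ Z, M.IsBase Z ↔ SignedBase A B S Z) ∨ (∀ Z, M.IsBase Z ↔ SignedBase A B S Z ∧ Z ≠ A))

/-- One of the nine types. -/
def Typed0 (M : Matroid α) (A B : Set α) : Prop :=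
  TypeS0 M A B ∨ TypeT M A B ∨ TypeW1 M A B ∨ TypeW2 M A B ∨ TypeX1 M A B ∨ TypeX3 M A B ∨
    TypeX4 M A B ∨ TypeU1 M A B ∨ TypeU2 M A

end Pool.Agent.Helper43_EOR
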