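import Mathlib
import Pool.Agent.Helper43_EOR.Defs0

set_option autoImplicit false

/-! # Exactly-one-regular matroids: auxiliary definitions -/

namespace Pool.Agent.Helper43_EOR

open Set Matroid

variable {α : Type*}

/-- The family `w` represents `M` over `F`. -/
def RepBy (F : Type*) [Field F] {V : Type*} [AddCommGroup V] [Module F V] (M : Matroid α)
    (w : α → V) : Prop :=
  ∀ I ⊆ M.E, (M.Indep I ↔ LinearIndepOn F w I)

/-- The number `1` if `p` holds and `0` otherwise, modulo two. -/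
noncomputable def bit (p : Prop) : ZMod 2 :=
  open Classical in if p then 1 else 0

/-- A finite matroid on `A ∪ B` such that deleting an element of `A` and contracting an element
of `B` gives a regular matroid. -/
structure Lab (M : Matroid α) (A B : Set α) : Prop where
  fin : M.E.Finite
  cover : A ∪ B = M.E
  disj : Disjoint A B
  del : ∀ a ∈ A, Regular (M ＼ {a})
  con : ∀ b ∈ B, Regular (M ／ {b})

/-- Data from which type S is derived. -/
def SData (M : Matroid α) (A B : Set α) : Prop :=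
  (∀ Z, M.IsBase Z → Z.encard = A.encard) ∧
  (∀ a ∈ A, ∀ b ∈ B, M.IsBase (insert b (A \ {a}))) ∧
  ∃ S : α → α → ℤ, (∀ a ∈ A, ∀ b ∈ B, S a b = 1 ∨ S a b = -1) ∧
    ∀ a ∈ A, ∀ a' ∈ A, a ≠ a' → ∀ b ∈ B, ∀ b' ∈ B, b ≠ b' →
      (M.IsBase (insert b (insert b' (A \ {a, a'}))) ↔ S a b * S a' b' ≠ S a b' * S a' b)

/-- The coordinates of `x` after contracting the elements of `A₁` outside `range q`. -/
noncomputable def co (A₁ : Set α) (Y : α → Set α) {δ k : ℕ} (t : α → Fin δ → ZMod 2)
    (q : Fin k → α) (x : α) : (Fin k → ZMod 2) × (Fin δ → ZMod 2) :=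
  (fun i => (bvec A₁ Y t x).1 (q i), (bvec A₁ Y t x).2)

/-- Coordinates with respect to a Fano core: the elements outside `A₁` are the vectors
`(χ_{Y x}, t x)` with `t x` in `GF(2)^3`; the elements of `A \ A₁` have different nonzero `t x`,
and all nonzero points occur outside `A₁`. -/
structure C7 (M : Matroid α) (A B A₁ : Set α) (Y : α → Set α) (t : α → Fin 3 → ZMod 2) :
    Prop where
  sub : A₁ ⊆ A
  form : BinaryForm M A₁ (M.E \ A₁) Y t
  inj : InjOn t (A \ A₁)
  ne : ∀ x ∈ A \ A₁, t x ≠ 0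
  surj : ∀ s : Fin 3 → ZMod 2, s ≠ 0 → ∃ x ∈ M.E \ A₁, t x = s

/-- Coordinates with respect to a core which is the dual of the Fano matroid: the points `t x`,
`x ∈ A \ A₁`, are different vectors of odd weight other than `0111`; all these seven vectors
occur outside `A₁`; and `M` has no Fano minor. -/
structure C7d (M : Matroid α) (A B A₁ : Set α) (Y : α → Set α) (t : α → Fin 4 → ZMod 2) :
    Prop where
  sub : A₁ ⊆ A
  form : BinaryForm M A₁ (M.E \ A₁) Y t
  inj : InjOn t (A \ A₁)
  om : ∀ x ∈ A \ A₁, ∑ i, t x i = 1 ∧ t x ≠ ![0, 1, 1, 1]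
  surj : ∀ s : Fin 4 → ZMod 2, ∑ i, s i = 1 → s ≠ ![0, 1, 1, 1] → ∃ x ∈ M.E \ A₁, t x = s
  noF : ∀ C D : Set α, C ⊆ M.E → D ⊆ M.E → Disjoint C D → ¬ IsFano (M ／ C ＼ D)

end Pool.Agent.Helper43_EOR
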