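import Mathlib
import Pool.Agent.Helper43_EOR.Found
import Pool.Agent.Helper998.DualRep

set_option autoImplicit false

namespace Pool.Agent.Helper43_EOR

open Set Matroid

variable {α : Type*}


theorem RepBy.delete {F : Type*} [Field F] {V : Type*} [AddCommGroup V] [Module F V]
    {M : Matroid α} {w : α → V} (h : RepBy F M w) (D : Set α) : RepBy F (M ＼ D) w := by
  intro I hI
  rw [Matroid.delete_ground, subset_sdiff] at hI
  rw [Matroid.delete_indep_iff, h I hI.1]
  exact ⟨fun hh => hh.1, fun hh => ⟨hh, hI.2⟩⟩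

theorem F1_lc {F : Type*} [Field F] {V V' : Type*} [AddCommGroup V] [Module F V]
    [AddCommGroup V'] [Module F V'] {w : α → V} (T : V →ₗ[F] V') (l : α →₀ F) :
    Finsupp.linearCombination F (T ∘ w) l = T (Finsupp.linearCombination F w l) := by
  rw [Finsupp.apply_linearCombination]

theorem F1_indepOn_map {F : Type*} [Field F] {V V' : Type*} [AddCommGroup V] [Module F V]
    [AddCommGroup V'] [Module F V'] {w : α → V} (T : V →ₗ[F] V') {I : Set α}
    (hT : ∀ x ∈ Submodule.span F (w '' I), T x = 0 → x = 0) :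
    LinearIndepOn F w I ↔ LinearIndepOn F (T ∘ w) I := by
  rw [linearIndepOn_iff, linearIndepOn_iff]
  constructor
  · intro h l hl h0
    apply h l hl
    rw [F1_lc] at h0
    apply hT _ _ h0
    rw [Finsupp.mem_span_image_iff_linearCombination]
    exact ⟨l, hl, rfl⟩
  · intro h l hl h0
    apply h l hl
    rw [F1_lc, h0, map_zero]

theorem RepBy.map {F : Type*} [Field F] {V V' : Type*} [AddCommGroup V] [Module F V]
    [AddCommGroup V'] [Module F V'] {M : Matroid α} {w : α → V} (h : RepBy F M w)
    (T : V →ₗ[F] V') (hT : ∀ x ∈ Submodule.span F (w '' M.E), T x = 0 → x = 0) :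
    RepBy F M (T ∘ w) := by
  intro I hI
  rw [h I hI]
  exact F1_indepOn_map T (fun x hx => hT x (Submodule.span_mono (image_mono hI) hx))

theorem repOver_of_repBy {F : Type} [Field F] {V : Type*} [AddCommGroup V] [Module F V]
    {M : Matroid α} (hfin : M.E.Finite) {w : α → V} (h : RepBy F M w) : RepOver F M := by
  let S := Submodule.span F (w '' M.E)
  have : Module.Finite F S := by
    rw [Module.Finite.iff_fg]
    exact Submodule.fg_span (hfin.image w)
  let e : S ≃ₗ[F] (Fin (Module.finrank F S) → F) := (Module.finBasis F S).equivFun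
  obtain ⟨g, hg⟩ := LinearMap.exists_extend (e : S →ₗ[F] (Fin (Module.finrank F S) → F))
  refine ⟨Module.finrank F S, g ∘ w, ?_⟩
  apply h.map g
  intro x hx h0
  have h1 : g x = e ⟨x, hx⟩ := by
    have := LinearMap.congr_fun hg ⟨x, hx⟩
    simpa using this
  rw [h1] at h0
  have h2 : (⟨x, hx⟩ : S) = 0 := by
    apply e.injective
    rw [h0, map_zero]
  exact congrArg Subtype.val h2

theorem RepBy.contract_map {F : Type*} [Field F] {V V' : Type*} [AddCommGroup V] [Module F V]
    [AddCommGroup V'] [Module F V'] {M : Matroid α} {w : α → V} (h : RepBy F M w)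
    {C D : Set α} (hC : C ⊆ M.E) (hCD : Disjoint C D) (T : V →ₗ[F] V') (hT0 : ∀ c ∈ C, T (w c) = 0)
    (hT : ∀ x ∈ Submodule.span F (w '' (M.E \ D)), T x = 0 → x ∈ Submodule.span F (w '' C)) :
    RepBy F (M ／ C ＼ D) (T ∘ w) := by
  intro I hI
  rw [Matroid.delete_ground, Matroid.contract_ground, subset_sdiff, subset_sdiff] at hI
  obtain ⟨⟨hIE, hIC⟩, hID⟩ := hI
  obtain ⟨J, hJ⟩ := M.exists_isBasis C hC
  have hJC := hJ.subset
  have hJI : LinearIndepOn F w J := (h J (hJC.trans hC)).mp hJ.indep
  have hspan : Submodule.span F (w '' J) = Submodule.span F (w '' C) := by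
    apply le_antisymm (Submodule.span_mono (image_mono hJC))
    rw [Submodule.span_le]
    rintro _ ⟨c, hc, rfl⟩
    by_cases hcJ : c ∈ J
    · exact Submodule.subset_span ⟨c, hcJ, rfl⟩
    · by_contra hne
      have h1 : LinearIndepOn F w (insert c J) := hJI.insert hne
      have h2 : M.Indep (insert c J) := (h _ (insert_subset (hC hc) (hJC.trans hC))).mpr h1
      have h3 := hJ.mem_of_insert_indep hc h2
      exact hcJ h3
  have hTC : ∀ x ∈ Submodule.span F (w '' C), T x = 0 := by
    intro x hx
    have : Submodule.span F (w '' C) ≤ LinearMap.ker T := by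
      rw [Submodule.span_le]
      rintro _ ⟨c, hc, rfl⟩
      exact hT0 c hc
    exact this hx
  have hdisj : Disjoint J I := (hIC.mono_right hJC).symm
  rw [Matroid.delete_indep_iff, hJ.isBasis'.contract_indep_iff, h _ (union_subset hIE (hJC.trans hC)),
    union_comm, linearIndepOn_union_iff_quotient hdisj, hspan]
  constructor
  · rintro ⟨⟨⟨-, h1⟩, -⟩, -⟩
    rw [linearIndepOn_iff] at h1 ⊢
    intro l hl h0
    apply h1 l hl
    rw [F1_lc] at h0 ⊢
    rw [Submodule.mkQ_apply, Submodule.Quotient.mk_eq_zero]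
    apply hT _ _ h0
    rw [Finsupp.mem_span_image_iff_linearCombination]
    exact ⟨l, Finsupp.supported_mono (subset_sdiff.mpr ⟨hIE, hID⟩) hl, rfl⟩
  · intro h1
    refine ⟨⟨⟨hJI, ?_⟩, hIC.symm⟩, hID⟩
    rw [linearIndepOn_iff] at h1 ⊢
    intro l hl h0
    apply h1 l hl
    rw [F1_lc] at h0 ⊢
    rw [Submodule.mkQ_apply, Submodule.Quotient.mk_eq_zero] at h0
    exact hTC _ h0

theorem RepOver.delete {F : Type} [Field F] {M : Matroid α} (h : RepOver F M) (D : Set α) :
    RepOver F (M ＼ D) := by
  obtain ⟨n, v, hv⟩ := h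
  exact ⟨n, v, RepBy.delete (M := M) (w := v) hv D⟩

theorem RepOver.contract {F : Type} [Field F] {M : Matroid α} (hfin : M.E.Finite)
    (h : RepOver F M) (C : Set α) : RepOver F (M ／ C) := by
  obtain ⟨n, v, hv⟩ := h
  rw [← Matroid.contract_inter_ground_eq]
  have h1 : RepBy F (M ／ (C ∩ M.E) ＼ ∅) ((Submodule.span F (v '' (C ∩ M.E))).mkQ ∘ v) := by
    apply RepBy.contract_map (M := M) (w := v) hv inter_subset_right (disjoint_empty _)
    · intro c hc
      rw [Submodule.mkQ_apply, Submodule.Quotient.mk_eq_zero]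
      exact Submodule.subset_span ⟨c, hc, rfl⟩
    · intro x _ hx
      rwa [Submodule.mkQ_apply, Submodule.Quotient.mk_eq_zero] at hx
  rw [Matroid.delete_empty] at h1
  exact repOver_of_repBy (hfin.subset (by rw [Matroid.contract_ground]; exact sdiff_subset)) h1

theorem RepOver.dual {F : Type} [Field F] {M : Matroid α} (hfin : M.E.Finite)
    (h : RepOver F M) : RepOver F M✶ := by
  classical
  obtain ⟨n, v, hv⟩ := h
  have : Fintype ↥M.E := hfin.fintype
  let v' : ↥M.E → Fin n → F := fun e => v e
  let N := Pool.Agent.Helper998.VecMatroid.vecMatroid F v'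
  have hinj : InjOn (Subtype.val : ↥M.E → α) N.E := Subtype.val_injective.injOn
  have hM : M = N.map Subtype.val hinj := by
    apply Matroid.ext_indep
    · rw [Matroid.map_ground]
      simp [N]
    · intro I hI
      rw [hv I hI, Matroid.map_indep_iff]
      constructor
      · intro hI'
        refine ⟨Subtype.val ⁻¹' I, ?_, ?_⟩
        · rw [Pool.Agent.Helper998.VecMatroid.vecMatroid_indep]
          apply LinearIndepOn.comp_of_image (v := v) (f := Subtype.val)
          · rw [Subtype.image_preimage_coe, inter_eq_self_of_subset_right hI]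
            exact hI'
          · exact Subtype.val_injective.injOn
        · rw [Subtype.image_preimage_coe, inter_eq_self_of_subset_right hI]
      · rintro ⟨I₀, hI₀, rfl⟩
        rw [Pool.Agent.Helper998.VecMatroid.vecMatroid_indep] at hI₀
        exact LinearIndepOn.image_of_comp Subtype.val v hI₀
  obtain ⟨m, φ, hφ⟩ := Pool.Agent.Helper998.DualRep.dual_rep (F := F) v'
  let u : α → Fin m → F := fun e => if h : e ∈ M.E then φ ⟨e, h⟩ else 0
  have hu : u ∘ (Subtype.val : ↥M.E → α) = φ := by
    ext e i
    simp [u]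
  refine ⟨m, u, ?_⟩
  intro I hI
  rw [Matroid.dual_ground] at hI
  have hinj' : InjOn (Subtype.val : ↥M.E → α) N✶.E := Subtype.val_injective.injOn
  have hMd : M✶ = (N✶).map Subtype.val hinj' := by
    conv_lhs => rw [hM]
    rw [Matroid.map_dual]
  rw [hMd, Matroid.map_indep_iff]
  constructor
  · rintro ⟨I₀, hI₀, rfl⟩
    have h1 := (hφ I₀).mp hI₀
    apply LinearIndepOn.image_of_comp Subtype.val u
    rw [hu]
    exact h1
  · intro h1
    refine ⟨Subtype.val ⁻¹' I, ?_, ?_⟩
    · apply (hφ _).mpr
      have h2 : LinearIndepOn F (u ∘ (Subtype.val : ↥M.E → α)) (Subtype.val ⁻¹' I) := by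
        apply LinearIndepOn.comp_of_image (v := u) (f := Subtype.val)
        · rw [Subtype.image_preimage_coe, inter_eq_self_of_subset_right hI]
          exact h1
        · exact Subtype.val_injective.injOn
      rw [hu] at h2
      exact h2
    · rw [Subtype.image_preimage_coe, inter_eq_self_of_subset_right hI]

theorem Regular.delete {M : Matroid α} (h : Regular M) (D : Set α) : Regular (M ＼ D) :=
  fun F _ => (h F).delete D

theorem Regular.contract {M : Matroid α} (hfin : M.E.Finite) (h : Regular M) (C : Set α) :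
    Regular (M ／ C) := fun F _ => (h F).contract hfin C

theorem Regular.dual {M : Matroid α} (hfin : M.E.Finite) (h : Regular M) : Regular M✶ :=
  fun F _ => (h F).dual hfin

end Pool.Agent.Helper43_EOR
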