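import Mathlib
import Pool.Agent.Helper43_EOR.F1

set_option autoImplicit false

namespace Pool.Agent.Helper43_EOR

open Set Matroid

variable {α : Type*}


/-
JOB F2 (Fano obstructions and duality of binary forms).
-/

theorem F2_indep_pair {F : Type*} [Field F] {V : Type*} [AddCommGroup V] [Module F V]
    {u : α → V} {a b : α} (hab : a ≠ b) (h : LinearIndepOn F u {a, b}) {p q : F}
    (hr : p • u a + q • u b = 0) : p = 0 ∧ q = 0 := by
  rw [LinearIndepOn.pair_iff _ hab] at h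
  exact h p q hr

theorem F2_exists_mem {s t : Set α} (h : s.encard < t.encard) : ∃ e ∈ t, e ∉ s := by
  by_contra hn
  push Not at hn
  exact absurd (encard_le_encard (show t ⊆ s from hn)) (not_le.2 h)

theorem F2_zmod2 : ∀ p : ZMod 2, p = 0 ∨ p = 1 := by decide

theorem F2_add_self {W : Type*} [AddCommGroup W] [Module (ZMod 2) W] (x : W) : x + x = 0 := by
  have h : ((1 : ZMod 2) + 1) • x = 0 := by
    have : ((1 : ZMod 2) + 1) = 0 := by decide
    rw [this, zero_smul]
  rwa [add_smul, one_smul] at h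

theorem F2_pair_indep {W : Type*} [AddCommGroup W] [Module (ZMod 2) W] {v : α → W} {a b : α}
    (ha : v a ≠ 0) (hb : v b ≠ 0) (hab : v a ≠ v b) : LinearIndepOn (ZMod 2) v {a, b} := by
  have hne : a ≠ b := fun h => hab (by rw [h])
  rw [LinearIndepOn.pair_iff _ hne]
  intro p q h
  rcases F2_zmod2 p with hp | hp <;> rcases F2_zmod2 q with hq | hq <;> subst hp <;> subst hq
  · exact ⟨rfl, rfl⟩
  · simp at h; exact absurd h hb
  · simp at h; exact absurd h ha
  · exfalso
    simp only [one_smul] at h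
    apply hab
    have h2 := F2_add_self (v b)
    calc v a = v a + (v b + v b) := by rw [h2, add_zero]
      _ = (v a + v b) + v b := by abel
      _ = v b := by rw [h, zero_add]

/-- three distinct elements of sum zero over `ZMod 2` -/
theorem F2_tri {F : Type*} [Field F] {V : Type*} [AddCommGroup V] [Module F V]
    {W : Type*} [AddCommGroup W] [Module (ZMod 2) W]
    {E : Set α} {u : α → V} {v : α → W}
    (hu : ∀ I ⊆ E, (LinearIndepOn F u I ↔ LinearIndepOn (ZMod 2) v I))
    {a b c : α} (ha : a ∈ E) (hb : b ∈ E) (hc : c ∈ E) (ha0 : v a ≠ 0) (hb0 : v b ≠ 0)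
    (hab : v a ≠ v b) (h : v c = v a + v b) :
    ∃ p q : F, p ≠ 0 ∧ q ≠ 0 ∧ u c = p • u a + q • u b := by
  have hc0 : v c ≠ 0 := by
    rw [h]; intro h0
    apply hab
    have h2 := F2_add_self (v b)
    calc v a = v a + (v b + v b) := by rw [h2, add_zero]
      _ = (v a + v b) + v b := by abel
      _ = v b := by rw [h0, zero_add]
  have hca : v c ≠ v a := by rw [h]; simpa using hb0
  have hcb : v c ≠ v b := by rw [h]; simpa using ha0
  have nca : c ≠ a := fun e => hca (by rw [e])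
  have ncb : c ≠ b := fun e => hcb (by rw [e])
  have nab : a ≠ b := fun e => hab (by rw [e])
  have l1 : LinearIndepOn F u {a, b} :=
    (hu _ (by intro x; simp only [mem_insert_iff, mem_singleton_iff]; rintro (rfl | rfl) <;> assumption)).2
      (F2_pair_indep ha0 hb0 hab)
  have l2 : LinearIndepOn F u {c, a} :=
    (hu _ (by intro x; simp only [mem_insert_iff, mem_singleton_iff]; rintro (rfl | rfl) <;> assumption)).2
      (F2_pair_indep hc0 ha0 hca)
  have l3 : LinearIndepOn F u {c, b} :=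
    (hu _ (by intro x; simp only [mem_insert_iff, mem_singleton_iff]; rintro (rfl | rfl) <;> assumption)).2
      (F2_pair_indep hc0 hb0 hcb)
  have hcn : c ∉ ({a, b} : Set α) := by simp [nca, ncb]
  have l4 : ¬ LinearIndepOn F u (insert c {a, b}) := by
    rw [hu _ (by
      intro x; simp only [mem_insert_iff, mem_singleton_iff]
      rintro (rfl | rfl | rfl) <;> assumption), linearIndepOn_insert hcn]
    rintro ⟨_, h1⟩
    apply h1
    rw [image_pair, h]
    exact add_mem (Submodule.subset_span (by simp)) (Submodule.subset_span (by simp))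
  rw [linearIndepOn_insert hcn] at l4
  have l5 : u c ∈ Submodule.span F (u '' {a, b}) := by
    by_contra h1; exact l4 ⟨l1, h1⟩
  rw [image_pair, Submodule.mem_span_pair] at l5
  obtain ⟨p, q, hpq⟩ := l5
  refine ⟨p, q, ?_, ?_, hpq.symm⟩
  · rintro rfl
    have := (F2_indep_pair ncb l3 (p := 1) (q := -q) (by rw [← hpq]; simp)).1
    exact one_ne_zero this
  · rintro rfl
    have := (F2_indep_pair nca l2 (p := 1) (q := -p) (by rw [← hpq]; simp)).1
    exact one_ne_zero this

theorem F2_li3 {F : Type*} [Field F] {V : Type*} [AddCommGroup V] [Module F V]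
    {u : α → V} {a b c : α} (hab : a ≠ b) (hac : a ≠ c) (hbc : b ≠ c) :
    LinearIndepOn F u {a, b, c} ↔
      ∀ p q r : F, p • u a + q • u b + r • u c = 0 → p = 0 ∧ q = 0 ∧ r = 0 := by
  classical
  have e : ({a, b, c} : Set α) = (({a, b, c} : Finset α) : Set α) := by simp
  rw [e, linearIndepOn_finset_iff]
  have hsum : ∀ f : α → F, ∑ i ∈ ({a, b, c} : Finset α), f i • u i =
      f a • u a + f b • u b + f c • u c := by
    intro f
    rw [Finset.sum_insert (by simp [hab, hac]), Finset.sum_insert (by simp [hbc]),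
      Finset.sum_singleton, add_assoc]
  constructor
  · intro h p q r hr
    have := h (fun x => if x = a then p else if x = b then q else r) (by
      rw [hsum]; simpa [hab.symm, hac.symm, hbc.symm] using hr)
    refine ⟨?_, ?_, ?_⟩
    · simpa using this a (by simp)
    · simpa [hab.symm] using this b (by simp)
    · simpa [hac.symm, hbc.symm] using this c (by simp)
  · intro h f hf
    rw [hsum] at hf
    obtain ⟨h1, h2, h3⟩ := h _ _ _ hf
    intro i hi
    simp only [Finset.mem_insert, Finset.mem_singleton] at hi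
    rcases hi with rfl | rfl | rfl <;> assumption

/-- PLAIN WORDS: over ZMod 2 the seven vectors e1, e2, e3, sums. If N is also represented over ℚ (or
ZMod 3) by u: on each of the circuits {e1,e2,e1+e2}, {e1,e3,e1+e3}, {e2,e3,e2+e3},
{e1,e2+e3,e1+e2+e3}, {e2,e1+e3,e1+e2+e3}, {e3,e1+e2,e1+e2+e3} there is a relation with all
coefficients nonzero; after scaling u(e1)=x, u(e2)=y, u(e3)=z, u(e1+e2+e3) = x+y+z,
u(e1+e2) ∼ x+y, u(e1+e3) ∼ x+z, u(e2+e3) ∼ y+z, and these three are independent if 2 ≠ 0, while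
they are a circuit over ZMod 2. (The repository has `Pool.Agent.H211R2.MC.Rep`, lemmas seven_fano,
no_fano, which may help.) -/
theorem IsFano.not_repOver {F : Type} [Field F] (h2 : (2 : F) ≠ 0) {N : Matroid α}
    (h : IsFano N) : ¬ RepOver F N := by
  rintro ⟨n, u, hu⟩
  obtain ⟨v, hv, hN⟩ := h
  have huv : ∀ I ⊆ N.E, (LinearIndepOn F u I ↔ LinearIndepOn (ZMod 2) v I) := fun I hI =>
    (hu I hI).symm.trans (hN I hI)
  obtain ⟨e1, m1, v1⟩ := hv.surjOn (show ![1, 0, 0] ∈ {x : Fin 3 → ZMod 2 | x ≠ 0} by decide)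
  obtain ⟨e2, m2, v2⟩ := hv.surjOn (show ![0, 1, 0] ∈ {x : Fin 3 → ZMod 2 | x ≠ 0} by decide)
  obtain ⟨e3, m3, v3⟩ := hv.surjOn (show ![0, 0, 1] ∈ {x : Fin 3 → ZMod 2 | x ≠ 0} by decide)
  obtain ⟨e4, m4, v4⟩ := hv.surjOn (show ![1, 1, 0] ∈ {x : Fin 3 → ZMod 2 | x ≠ 0} by decide)
  obtain ⟨e5, m5, v5⟩ := hv.surjOn (show ![1, 0, 1] ∈ {x : Fin 3 → ZMod 2 | x ≠ 0} by decide)
  obtain ⟨e6, m6, v6⟩ := hv.surjOn (show ![0, 1, 1] ∈ {x : Fin 3 → ZMod 2 | x ≠ 0} by decide)
  obtain ⟨e7, m7, v7⟩ := hv.surjOn (show ![1, 1, 1] ∈ {x : Fin 3 → ZMod 2 | x ≠ 0} by decide)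
  obtain ⟨a, b, ha, hb, r4⟩ := F2_tri huv m1 m2 m4 (by rw [v1]; decide) (by rw [v2]; decide)
    (by rw [v1, v2]; decide) (by rw [v1, v2, v4]; decide)
  obtain ⟨c, d, hc, hd, r5⟩ := F2_tri huv m1 m3 m5 (by rw [v1]; decide) (by rw [v3]; decide)
    (by rw [v1, v3]; decide) (by rw [v1, v3, v5]; decide)
  obtain ⟨p, q, hp, hq, r6⟩ := F2_tri huv m4 m5 m6 (by rw [v4]; decide) (by rw [v5]; decide)
    (by rw [v4, v5]; decide) (by rw [v4, v5, v6]; decide)
  obtain ⟨p1, q1, hp1, hq1, s1⟩ := F2_tri huv m1 m6 m7 (by rw [v1]; decide) (by rw [v6]; decide)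
    (by rw [v1, v6]; decide) (by rw [v1, v6, v7]; decide)
  obtain ⟨p2, q2, hp2, hq2, s2⟩ := F2_tri huv m2 m5 m7 (by rw [v2]; decide) (by rw [v5]; decide)
    (by rw [v2, v5]; decide) (by rw [v2, v5, v7]; decide)
  obtain ⟨p3, q3, hp3, hq3, s3⟩ := F2_tri huv m3 m4 m7 (by rw [v3]; decide) (by rw [v4]; decide)
    (by rw [v3, v4]; decide) (by rw [v3, v4, v7]; decide)
  obtain ⟨p4, q4, hp4, hq4, r6'⟩ := F2_tri huv m2 m3 m6 (by rw [v2]; decide) (by rw [v3]; decide)
    (by rw [v2, v3]; decide) (by rw [v2, v3, v6]; decide)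
  have n12 : e1 ≠ e2 := by rintro rfl; rw [v1] at v2; revert v2; decide
  have n13 : e1 ≠ e3 := by rintro rfl; rw [v1] at v3; revert v3; decide
  have n23 : e2 ≠ e3 := by rintro rfl; rw [v2] at v3; revert v3; decide
  have hli : LinearIndepOn F u {e1, e2, e3} := by
    rw [huv _ (by
      intro x; simp only [mem_insert_iff, mem_singleton_iff]
      rintro (rfl | rfl | rfl) <;> assumption), F2_li3 n12 n13 n23, v1, v2, v3]
    decide
  rw [F2_li3 n12 n13 n23] at hli
  -- e6
  rw [r4, r5] at r6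
  rw [r6'] at r6
  have k1 := hli (p * a + q * c) (p * b - p4) (q * d - q4) (by
    have : (p * a + q * c) • u e1 + (p * b - p4) • u e2 + (q * d - q4) • u e3 =
      (p • (a • u e1 + b • u e2) + q • (c • u e1 + d • u e3)) - (p4 • u e2 + q4 • u e3) := by
      module
    rw [this, ← r6, sub_self])
  rw [r6'] at s1
  rw [r5] at s2
  rw [r4] at s3
  rw [s1] at s2 s3
  have k2 := hli (p1 - q2 * c) (q1 * p4 - p2) (q1 * q4 - q2 * d) (by
    have : (p1 - q2 * c) • u e1 + (q1 * p4 - p2) • u e2 + (q1 * q4 - q2 * d) • u e3 =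
      (p1 • u e1 + q1 • (p4 • u e2 + q4 • u e3)) - (p2 • u e2 + q2 • (c • u e1 + d • u e3)) := by
      module
    rw [this, s2, sub_self])
  have k3 := hli (p1 - q3 * a) (q1 * p4 - q3 * b) (q1 * q4 - p3) (by
    have : (p1 - q3 * a) • u e1 + (q1 * p4 - q3 * b) • u e2 + (q1 * q4 - p3) • u e3 =
      (p1 • u e1 + q1 • (p4 • u e2 + q4 • u e3)) - (p3 • u e3 + q3 • (a • u e1 + b • u e2)) := by
      module
    rw [this, s3, sub_self])
  obtain ⟨k11, k12, k13⟩ := k1
  obtain ⟨k21, -, k23⟩ := k2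
  obtain ⟨k31, k32, -⟩ := k3
  -- q1 * q = q2, q1 * p = q3
  have t1 : q1 * q = q2 := by
    have : d * (q1 * q - q2) = 0 := by linear_combination q1 * k13 + k23
    rcases mul_eq_zero.1 this with h | h
    · exact absurd h hd
    · exact sub_eq_zero.1 h
  have t2 : q1 * p = q3 := by
    have : b * (q1 * p - q3) = 0 := by linear_combination q1 * k12 + k32
    rcases mul_eq_zero.1 this with h | h
    · exact absurd h hb
    · exact sub_eq_zero.1 h
  have t3 : q1 * (p * a - q * c) = 0 := by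
    linear_combination k21 - k31 + c * t1 - a * t2 - 2 * (c * t1 - a * t2)
  rcases mul_eq_zero.1 t3 with h | h
  · exact hq1 h
  · have : 2 * (p * a) = 0 := by linear_combination k11 + h
    rcases mul_eq_zero.1 this with h' | h'
    · exact h2 h'
    · rcases mul_eq_zero.1 h' with h'' | h''
      · exact hp h''
      · exact ha h''

/-- PLAIN WORDS: in `U_{2,4}` over ZMod 2 four pairwise independent vectors in a space of dimension
two, but a plane over ZMod 2 has three nonzero vectors. -/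
theorem IsU24.not_repOver {N : Matroid α} (h : IsU24 N) : ¬ RepOver (ZMod 2) N := by
  rintro ⟨n, u, hu⟩
  obtain ⟨hE, hN⟩ := h
  have hpair : ∀ a b : α, ({a, b} : Set α).encard ≤ 2 := fun a b =>
    (encard_insert_le _ _).trans (by rw [encard_singleton]; norm_num)
  have htri : ∀ a b c : α, ({a, b, c} : Set α).encard ≤ 3 := fun a b c =>
    (encard_insert_le _ _).trans (by
      refine (add_le_add_left (hpair b c) 1).trans ?_
      norm_num)
  obtain ⟨a, ha, -⟩ := F2_exists_mem (s := (∅ : Set α)) (t := N.E)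
    (by rw [hE, encard_empty]; norm_num)
  obtain ⟨b, hb, hb'⟩ := F2_exists_mem (s := ({a} : Set α)) (t := N.E)
    (by rw [hE, encard_singleton]; norm_num)
  obtain ⟨c, hc, hc'⟩ := F2_exists_mem (s := ({a, b} : Set α)) (t := N.E)
    (by rw [hE]; exact (hpair a b).trans_lt (by norm_num))
  obtain ⟨d, hd, hd'⟩ := F2_exists_mem (s := ({a, b, c} : Set α))
    (t := N.E) (by rw [hE]; exact (htri a b c).trans_lt (by norm_num))
  simp only [mem_singleton_iff, mem_insert_iff, not_or] at hb' hc' hd'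
  obtain ⟨hca, hcb⟩ := hc'
  obtain ⟨hda, hdb, hdc⟩ := hd'
  have hLI : ∀ x ∈ N.E, ∀ y ∈ N.E, LinearIndepOn (ZMod 2) u {x, y} := by
    intro x hx y hy
    rw [← hu _ (by intro z; simp only [mem_insert_iff, mem_singleton_iff];
                   rintro (rfl | rfl) <;> assumption),
      hN _ (by intro z; simp only [mem_insert_iff, mem_singleton_iff];
               rintro (rfl | rfl) <;> assumption)]
    exact hpair x y
  have key : ∀ x ∈ N.E, x ≠ a → x ≠ b → u x = u a + u b := by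
    intro x hx hxa hxb
    have hxn : x ∉ ({a, b} : Set α) := by simp [hxa, hxb]
    have l4 : ¬ LinearIndepOn (ZMod 2) u (insert x {a, b}) := by
      have hsub : insert x {a, b} ⊆ N.E := by
        intro z; simp only [mem_insert_iff, mem_singleton_iff]
        rintro (rfl | rfl | rfl) <;> assumption
      rw [← hu _ hsub, hN _ hsub, not_le, encard_insert_of_notMem hxn,
        encard_pair (Ne.symm hb')]
      norm_num
    rw [linearIndepOn_insert hxn] at l4
    have l5 : u x ∈ Submodule.span (ZMod 2) (u '' {a, b}) := by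
      by_contra h1; exact l4 ⟨hLI a ha b hb, h1⟩
    rw [image_pair, Submodule.mem_span_pair] at l5
    obtain ⟨p, q, hpq⟩ := l5
    rcases F2_zmod2 p with rfl | rfl
    · have := (F2_indep_pair hxb (hLI x hx b hb) (p := 1) (q := -q) (by
        rw [← hpq]; simp [F2_add_self])).1
      exact absurd this one_ne_zero
    · rcases F2_zmod2 q with rfl | rfl
      · have := (F2_indep_pair hxa (hLI x hx a ha) (p := 1) (q := -1) (by
          rw [← hpq]; simp [F2_add_self])).1
        exact absurd this one_ne_zero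
      · rw [← hpq]; simp
  have := (F2_indep_pair (Ne.symm hdc) (hLI c hc d hd) (p := 1) (q := -1) (by
    rw [key c hc hca hcb, key d hd hda hdb]; simp [F2_add_self])).1
  exact one_ne_zero this

/-- PLAIN WORDS: `U_{2,4}` is self-dual. -/
theorem IsU24.dual {N : Matroid α} (h : IsU24 N) : IsU24 N✶ := by
  obtain ⟨hE, hN⟩ := h
  have hfin : N.E.Finite := by
    rw [← encard_lt_top_iff, hE]; exact ENat.natCast_lt_top 4
  have hbase : ∀ B ⊆ N.E, (N.IsBase B ↔ B.encard = 2) := by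
    intro B hB
    constructor
    · intro hb
      refine le_antisymm ((hN B hB).1 hb.indep) ?_
      by_contra hlt
      rw [not_le] at hlt
      obtain ⟨x, hx, hxB⟩ := F2_exists_mem (s := B) (t := N.E)
        (by rw [hE]; exact hlt.trans (by norm_num))
      have hsub : insert x B ⊆ N.E := insert_subset hx hB
      have : N.Indep (insert x B) := by
        rw [hN _ hsub, encard_insert_of_notMem hxB]
        exact Order.add_one_le_of_lt hlt
      exact hxB (hb.mem_of_insert_indep this)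
    · intro hb
      have hi : N.Indep B := (hN B hB).2 hb.le
      refine hi.isBase_of_maximal fun J hJ hBJ => ?_
      have hJ2 := (hN J hJ.subset_ground).1 hJ
      exact (hfin.subset hB).eq_of_subset_of_encard_le hBJ (by rw [hb]; exact hJ2)
  refine ⟨by rw [dual_ground]; exact hE, ?_⟩
  intro I hI
  rw [dual_ground] at hI
  rw [← coindep_def, coindep_iff_exists hI]
  have hsum : (N.E \ I).encard + I.encard = 4 := by
    rw [encard_sdiff_add_encard_of_subset hI, hE]
  constructor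
  · rintro ⟨B, hB, hBI⟩
    have hB2 := (hbase B hB.subset_ground).1 hB
    have h1 : (2 : ℕ∞) ≤ (N.E \ I).encard := by rw [← hB2]; exact encard_le_encard hBI
    by_contra hlt
    rw [not_le] at hlt
    have h3 : (3 : ℕ∞) ≤ I.encard := by
      have := Order.add_one_le_of_lt hlt
      exact this
    have : (2 : ℕ∞) + 3 ≤ 4 := by rw [← hsum]; exact add_le_add h1 h3
    exact absurd this (by norm_num)
  · intro hI2
    have h1 : (2 : ℕ∞) ≤ (N.E \ I).encard := by
      by_contra hlt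
      rw [not_le] at hlt
      have h3 : (N.E \ I).encard ≤ 1 := Order.le_of_lt_add_one hlt
      have : (4 : ℕ∞) ≤ 1 + 2 := by rw [← hsum]; exact add_le_add h3 hI2
      exact absurd this (by norm_num)
    obtain ⟨B, hBI, hB⟩ := exists_subset_encard_eq h1
    exact ⟨B, (hbase B (hBI.trans sdiff_subset)).2 hB, hBI⟩

/-- a dual pair of representations -/
theorem F2_dual_rep {F : Type*} [Field F] {V1 V2 : Type*} [AddCommGroup V1] [Module F V1]
    [AddCommGroup V2] [Module F V2] {M : Matroid α} (hfin : M.E.Finite) {v1 : α → V1} {v2 : α → V2}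
    (hsp : ∀ f : V2 →ₗ[F] F, (∀ x ∈ M.E, f (v2 x) = 0) → f = 0)
    (hrel : ∀ c : α → F, ∑ x ∈ hfin.toFinset, c x • v1 x = 0 ↔
      ∃ f : V2 →ₗ[F] F, ∀ x ∈ M.E, c x = f (v2 x))
    (h : RepBy F M v2) : RepBy F M✶ v1 := by
  classical
  have hspan : ∀ X : Set α, Submodule.span F (v2 '' X) = ⊤ ↔
      ∀ f : V2 →ₗ[F] F, (∀ x ∈ X, f (v2 x) = 0) → f = 0 := by
    intro X
    constructor
    · intro hX f hf
      have h1 : Submodule.span F (v2 '' X) ≤ LinearMap.ker f := by
        rw [Submodule.span_le]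
        rintro _ ⟨x, hx, rfl⟩
        exact hf x hx
      rw [hX, top_le_iff, LinearMap.ker_eq_top] at h1
      exact h1
    · intro hX
      by_contra hne
      obtain ⟨f, hf0, hf⟩ := Submodule.exists_le_ker_of_lt_top _ (lt_top_iff_ne_top.2 hne)
      exact hf0 (hX f fun x hx => hf (Submodule.subset_span ⟨x, hx, rfl⟩))
  intro I hI
  rw [dual_ground] at hI
  rw [← coindep_def, coindep_iff_exists hI]
  -- spanning
  have h1 : (∃ B, M.IsBase B ∧ B ⊆ M.E \ I) ↔ Submodule.span F (v2 '' (M.E \ I)) = ⊤ := by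
    constructor
    · rintro ⟨B, hB, hBI⟩
      rw [eq_top_iff, ← (hspan M.E).2 hsp, Submodule.span_le]
      rintro _ ⟨e, he, rfl⟩
      have hmono : Submodule.span F (v2 '' B) ≤ Submodule.span F (v2 '' (M.E \ I)) :=
        Submodule.span_mono (image_mono hBI)
      apply hmono
      by_cases heB : e ∈ B
      · exact Submodule.subset_span ⟨e, heB, rfl⟩
      · by_contra hn
        have hli : LinearIndepOn F v2 (insert e B) :=
          (linearIndepOn_insert heB).2 ⟨(h B hB.subset_ground).1 hB.indep, hn⟩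
        exact heB (hB.mem_of_insert_indep ((h _ (insert_subset he hB.subset_ground)).2 hli))
    · intro hX
      obtain ⟨B, hB⟩ := M.exists_isBasis (M.E \ I)
      refine ⟨B, ?_, hB.subset⟩
      have hBE : B ⊆ M.E := hB.left_subset_ground
      have hBli := (h B hBE).1 hB.indep
      have hBtop : Submodule.span F (v2 '' B) = ⊤ := by
        rw [eq_top_iff, ← hX, Submodule.span_le]
        rintro _ ⟨e, he, rfl⟩
        by_cases heB : e ∈ B
        · exact Submodule.subset_span ⟨e, heB, rfl⟩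
        · by_contra hn
          have hli : LinearIndepOn F v2 (insert e B) := (linearIndepOn_insert heB).2 ⟨hBli, hn⟩
          exact heB (hB.mem_of_insert_indep he ((h _ (insert_subset he.1 hBE)).2 hli))
      refine hB.indep.isBase_of_maximal fun J hJ hBJ => ?_
      refine hBJ.antisymm fun e he => ?_
      by_contra heB
      have h3 : M.Indep (insert e B) := hJ.subset (insert_subset he hBJ)
      have h4 := (h _ h3.subset_ground).1 h3
      rw [linearIndepOn_insert heB, hBtop] at h4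
      exact h4.2 Submodule.mem_top
  rw [h1, hspan]
  have hIfin : I.Finite := hfin.subset hI
  have hsub : hIfin.toFinset ⊆ hfin.toFinset := by
    intro x; simp only [Finite.mem_toFinset]; exact fun hx => hI hx
  have e2 : I = ((hIfin.toFinset : Finset α) : Set α) := by simp
  rw [e2, linearIndepOn_finset_iff, ← e2]
  constructor
  · intro hf c hc i hi
    rw [Finite.mem_toFinset] at hi
    -- extend by zero
    obtain ⟨f, hff⟩ := (hrel (fun x => if x ∈ I then c x else 0)).1 (by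
      rw [← hc]
      symm
      rw [← Finset.sum_subset hsub]
      · refine Finset.sum_congr rfl fun x hx => ?_
        rw [Finite.mem_toFinset] at hx
        rw [if_pos hx]
      · intro x _ hx
        rw [Finite.mem_toFinset] at hx
        rw [if_neg hx, zero_smul])
    have hf0 := hf f fun x hx => by
      rw [← hff x hx.1, if_neg hx.2]
    have := hff i (hI hi)
    rw [if_pos hi, hf0, LinearMap.zero_apply] at this
    exact this
  · intro hli f hf
    apply hsp f
    have hc : ∑ x ∈ hfin.toFinset, f (v2 x) • v1 x = 0 :=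
      (hrel (fun x => f (v2 x))).2 ⟨f, fun x _ => rfl⟩
    rw [← Finset.sum_subset hsub] at hc
    · have := hli (fun x => f (v2 x)) hc
      intro x hx
      by_cases hxI : x ∈ I
      · exact this x (by rw [Finite.mem_toFinset]; exact hxI)
      · exact hf x ⟨hx, hxI⟩
    · intro x hx hxI
      rw [Finite.mem_toFinset] at hx hxI
      rw [hf x ⟨hx, hxI⟩, zero_smul]

theorem F2_univ : (Finset.univ.filter fun p : Fin 3 → ZMod 2 => p ≠ 0) =
    {![1, 0, 0], ![0, 1, 0], ![0, 0, 1], ![1, 1, 0], ![1, 0, 1], ![0, 1, 1], ![1, 1, 1]} := by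
  decide

theorem F2_cases : ∀ p : Fin 3 → ZMod 2, p ≠ 0 → p = ![1, 0, 0] ∨ p = ![0, 1, 0] ∨
    p = ![0, 0, 1] ∨ p = ![1, 1, 0] ∨ p = ![1, 0, 1] ∨ p = ![0, 1, 1] ∨ p = ![1, 1, 1] := by
  decide

/-- sums over the Fano plane -/
theorem F2_sum {E : Set α} (hfin : E.Finite) {v : α → Fin 3 → ZMod 2} (hv : BijOn v E {x | x ≠ 0}) :
    ∃ g : (Fin 3 → ZMod 2) → α, (∀ p, p ≠ 0 → g p ∈ E ∧ v (g p) = p) ∧
      (∀ x ∈ E, g (v x) = x) ∧
      ∀ {V : Type} [AddCommMonoid V] (f : α → V), ∑ x ∈ hfin.toFinset, f x =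
        f (g ![1, 0, 0]) + (f (g ![0, 1, 0]) + (f (g ![0, 0, 1]) + (f (g ![1, 1, 0]) +
          (f (g ![1, 0, 1]) + (f (g ![0, 1, 1]) + f (g ![1, 1, 1])))))) := by
  classical
  have hE : ∀ p : Fin 3 → ZMod 2, ∃ x : α, p ≠ 0 → x ∈ E ∧ v x = p := by
    intro p
    by_cases hp : p ≠ 0
    · obtain ⟨x, hx, hxp⟩ := hv.surjOn hp
      exact ⟨x, fun _ => ⟨hx, hxp⟩⟩
    · obtain ⟨x, hx, hxp⟩ := hv.surjOn (show ![1, 0, 0] ∈ {x : Fin 3 → ZMod 2 | x ≠ 0} by decide)
      exact ⟨x, fun h => absurd h hp⟩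
  choose g hg using hE
  have hgv : ∀ x ∈ E, g (v x) = x := fun x hx =>
    hv.injOn (hg _ (hv.mapsTo hx)).1 hx (hg _ (hv.mapsTo hx)).2
  refine ⟨g, hg, hgv, ?_⟩
  intro V _ f
  have h1 : ∑ x ∈ hfin.toFinset, f x =
      ∑ p ∈ Finset.univ.filter (fun p : Fin 3 → ZMod 2 => p ≠ 0), f (g p) := by
    refine Finset.sum_nbij' v g ?_ ?_ ?_ ?_ ?_
    · intro x hx
      rw [Finite.mem_toFinset] at hx
      simpa using hv.mapsTo hx
    · intro p hp
      rw [Finset.mem_filter] at hp
      rw [Finite.mem_toFinset]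
      exact (hg p hp.2).1
    · intro x hx
      rw [Finite.mem_toFinset] at hx
      exact hgv x hx
    · intro p hp
      rw [Finset.mem_filter] at hp
      exact (hg p hp.2).2
    · intro x hx
      rw [Finite.mem_toFinset] at hx
      rw [hgv x hx]
  rw [h1, F2_univ, Finset.sum_insert (by decide), Finset.sum_insert (by decide),
    Finset.sum_insert (by decide), Finset.sum_insert (by decide), Finset.sum_insert (by decide),
    Finset.sum_insert (by decide), Finset.sum_singleton]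

theorem F2_dec1 : ∀ c1 c2 c3 c4 c5 c6 c7 : ZMod 2,
    c1 + (c4 + (c5 + c7)) = 0 → c2 + (c4 + (c6 + c7)) = 0 → c3 + (c5 + (c6 + c7)) = 0 →
    c1 + (c2 + (c3 + (c4 + (c5 + (c6 + c7))))) = 0 →
    c4 = c1 + c2 ∧ c5 = c1 + c3 ∧ c6 = c2 + c3 ∧ c7 = c1 + c2 + c3 := by
  decide

theorem F2_dec2 : ∀ c1 c2 c3 : ZMod 2,
    c1 + ((c1 + c2) + ((c1 + c3) + (c1 + c2 + c3))) = 0 ∧
    c2 + ((c1 + c2) + ((c2 + c3) + (c1 + c2 + c3))) = 0 ∧
    c3 + ((c1 + c3) + ((c2 + c3) + (c1 + c2 + c3))) = 0 ∧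
    c1 + (c2 + (c3 + ((c1 + c2) + ((c1 + c3) + ((c2 + c3) + (c1 + c2 + c3)))))) = 0 := by
  decide

theorem F2_dec3a : ∀ c1 c2 c3 c4 c5 c6 c7 : ZMod 2,
    c1 + (c4 + (c5 + c7)) = 0 → c2 + (c4 + (c6 + c7)) = 0 → c3 + (c5 + (c6 + c7)) = 0 →
    c5 = c1 + c3 + (c1 + c2 + c4) := by
  decide

theorem F2_dec3b : ∀ c1 c2 c3 c4 c5 c6 c7 : ZMod 2,
    c1 + (c4 + (c5 + c7)) = 0 → c2 + (c4 + (c6 + c7)) = 0 → c3 + (c5 + (c6 + c7)) = 0 →
    c6 = c2 + c3 + (c1 + c2 + c4) := by
  decide

theorem F2_dec3c : ∀ c1 c2 c3 c4 c5 c6 c7 : ZMod 2,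
    c1 + (c4 + (c5 + c7)) = 0 → c2 + (c4 + (c6 + c7)) = 0 → c3 + (c5 + (c6 + c7)) = 0 →
    c7 = c1 + c2 + c3 := by
  decide

theorem F2_dec4 : ∀ c1 c2 c3 t : ZMod 2,
    c1 + ((c1 + c2 + t) + ((c1 + c3 + t) + (c1 + c2 + c3))) = 0 ∧
    c2 + ((c1 + c2 + t) + ((c2 + c3 + t) + (c1 + c2 + c3))) = 0 ∧
    c3 + ((c1 + c3 + t) + ((c2 + c3 + t) + (c1 + c2 + c3))) = 0 := by
  decide

/-- the linear form with given values on the standard basis -/
def F2_form (a b c : ZMod 2) : (Fin 3 → ZMod 2) →ₗ[ZMod 2] ZMod 2 where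
  toFun x := a * x 0 + b * x 1 + c * x 2
  map_add' x y := by simp only [Pi.add_apply]; ring
  map_smul' t x := by simp only [Pi.smul_apply, smul_eq_mul, RingHom.id_apply]; ring

theorem F2_rel1 {E : Set α} (hfin : E.Finite) {v : α → Fin 3 → ZMod 2}
    (hv : BijOn v E {x | x ≠ 0}) (c : α → ZMod 2) :
    ∑ x ∈ hfin.toFinset, c x • ((v x, 1) : (Fin 3 → ZMod 2) × ZMod 2) = 0 ↔
      ∃ f : (Fin 3 → ZMod 2) →ₗ[ZMod 2] ZMod 2, ∀ x ∈ E, c x = f (v x) := by
  obtain ⟨g, hg, hgv, hsum⟩ := F2_sum hfin hv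
  have n1 : (![1, 0, 0] : Fin 3 → ZMod 2) ≠ 0 := by decide
  have n2 : (![0, 1, 0] : Fin 3 → ZMod 2) ≠ 0 := by decide
  have n3 : (![0, 0, 1] : Fin 3 → ZMod 2) ≠ 0 := by decide
  have n4 : (![1, 1, 0] : Fin 3 → ZMod 2) ≠ 0 := by decide
  have n5 : (![1, 0, 1] : Fin 3 → ZMod 2) ≠ 0 := by decide
  have n6 : (![0, 1, 1] : Fin 3 → ZMod 2) ≠ 0 := by decide
  have n7 : (![1, 1, 1] : Fin 3 → ZMod 2) ≠ 0 := by decide
  rw [hsum, (hg _ n1).2, (hg _ n2).2, (hg _ n3).2, (hg _ n4).2, (hg _ n5).2, (hg _ n6).2,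
    (hg _ n7).2]
  constructor
  · intro h
    have h0 := congrArg (fun z : (Fin 3 → ZMod 2) × ZMod 2 => z.1 0) h
    have h1 := congrArg (fun z : (Fin 3 → ZMod 2) × ZMod 2 => z.1 1) h
    have h2 := congrArg (fun z : (Fin 3 → ZMod 2) × ZMod 2 => z.1 2) h
    have h3 := congrArg (fun z : (Fin 3 → ZMod 2) × ZMod 2 => z.2) h
    simp at h0 h1 h2 h3
    obtain ⟨d4, d5, d6, d7⟩ := F2_dec1 _ _ _ _ _ _ _ h0 h1 h2 h3
    refine ⟨F2_form (c (g ![1, 0, 0])) (c (g ![0, 1, 0])) (c (g ![0, 0, 1])), fun x hx => ?_⟩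
    have hx' := hgv x hx
    rcases F2_cases (v x) (hv.mapsTo hx) with e | e | e | e | e | e | e <;>
      rw [e] at hx' <;> rw [← hx', (hg _ (by assumption)).2]
    · simp [F2_form]
    · simp [F2_form]
    · simp [F2_form]
    · rw [d4]; simp [F2_form]
    · rw [d5]; simp [F2_form]
    · rw [d6]; simp [F2_form]
    · rw [d7]; simp [F2_form]
  · rintro ⟨f, hf⟩
    have hfg : ∀ p : Fin 3 → ZMod 2, p ≠ 0 → c (g p) = f p := fun p hp => by
      rw [hf _ (hg p hp).1, (hg p hp).2]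
    have a4 : f ![1, 1, 0] = f ![1, 0, 0] + f ![0, 1, 0] := by
      rw [← map_add]; congr 1; decide
    have a5 : f ![1, 0, 1] = f ![1, 0, 0] + f ![0, 0, 1] := by
      rw [← map_add]; congr 1; decide
    have a6 : f ![0, 1, 1] = f ![0, 1, 0] + f ![0, 0, 1] := by
      rw [← map_add]; congr 1; decide
    have a7 : f ![1, 1, 1] = f ![1, 0, 0] + f ![0, 1, 0] + f ![0, 0, 1] := by
      rw [← map_add, ← map_add]; congr 1; decide
    rw [hfg _ n1, hfg _ n2, hfg _ n3, hfg _ n4, hfg _ n5, hfg _ n6, hfg _ n7, a4, a5, a6, a7]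
    obtain ⟨q1, q2, q3, q4⟩ := F2_dec2 (f ![1, 0, 0]) (f ![0, 1, 0]) (f ![0, 0, 1])
    refine Prod.ext (funext fun i => ?_) ?_
    · fin_cases i
      · simpa using q1
      · simpa using q2
      · simpa using q3
    · simpa using q4

theorem F2_rel2 {E : Set α} (hfin : E.Finite) {v : α → Fin 3 → ZMod 2}
    (hv : BijOn v E {x | x ≠ 0}) (c : α → ZMod 2) :
    ∑ x ∈ hfin.toFinset, c x • v x = 0 ↔
      ∃ f : (Fin 3 → ZMod 2) × ZMod 2 →ₗ[ZMod 2] ZMod 2, ∀ x ∈ E, c x = f (v x, 1) := by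
  obtain ⟨g, hg, hgv, hsum⟩ := F2_sum hfin hv
  have n1 : (![1, 0, 0] : Fin 3 → ZMod 2) ≠ 0 := by decide
  have n2 : (![0, 1, 0] : Fin 3 → ZMod 2) ≠ 0 := by decide
  have n3 : (![0, 0, 1] : Fin 3 → ZMod 2) ≠ 0 := by decide
  have n4 : (![1, 1, 0] : Fin 3 → ZMod 2) ≠ 0 := by decide
  have n5 : (![1, 0, 1] : Fin 3 → ZMod 2) ≠ 0 := by decide
  have n6 : (![0, 1, 1] : Fin 3 → ZMod 2) ≠ 0 := by decide
  have n7 : (![1, 1, 1] : Fin 3 → ZMod 2) ≠ 0 := by decide
  rw [hsum, (hg _ n1).2, (hg _ n2).2, (hg _ n3).2, (hg _ n4).2, (hg _ n5).2, (hg _ n6).2,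
    (hg _ n7).2]
  constructor
  · intro h
    have h0 := congrFun h 0
    have h1 := congrFun h 1
    have h2 := congrFun h 2
    simp at h0 h1 h2
    have d5 := F2_dec3a _ _ _ _ _ _ _ h0 h1 h2
    have d6 := F2_dec3b _ _ _ _ _ _ _ h0 h1 h2
    have d7 := F2_dec3c _ _ _ _ _ _ _ h0 h1 h2
    set c1 := c (g ![1, 0, 0])
    set c2 := c (g ![0, 1, 0])
    set c3 := c (g ![0, 0, 1])
    set c4 := c (g ![1, 1, 0])
    refine ⟨(F2_form (c1 + (c1 + c2 + c4)) (c2 + (c1 + c2 + c4)) (c3 + (c1 + c2 + c4))).coprod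
      (LinearMap.toSpanSingleton (ZMod 2) (ZMod 2) (c1 + c2 + c4)), fun x hx => ?_⟩
    have hx' := hgv x hx
    have key : ∀ c1 c2 c3 c4 : ZMod 2,
      c1 = c1 + (c1 + c2 + c4) + (c1 + c2 + c4) ∧
      c2 = c2 + (c1 + c2 + c4) + (c1 + c2 + c4) ∧
      c3 = c3 + (c1 + c2 + c4) + (c1 + c2 + c4) ∧
      c4 = (c1 + (c1 + c2 + c4)) + (c2 + (c1 + c2 + c4)) + (c1 + c2 + c4) := by decide
    have key2 : ∀ c1 c2 c3 c4 : ZMod 2,
      c1 + c3 + (c1 + c2 + c4) =
        (c1 + (c1 + c2 + c4)) + (c3 + (c1 + c2 + c4)) + (c1 + c2 + c4) ∧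
      c2 + c3 + (c1 + c2 + c4) =
        (c2 + (c1 + c2 + c4)) + (c3 + (c1 + c2 + c4)) + (c1 + c2 + c4) ∧
      c1 + c2 + c3 = (c1 + (c1 + c2 + c4)) + (c2 + (c1 + c2 + c4)) + (c3 + (c1 + c2 + c4)) +
        (c1 + c2 + c4) := by decide
    obtain ⟨k1, k2, k3, k4⟩ := key c1 c2 c3 c4
    obtain ⟨k5, k6, k7⟩ := key2 c1 c2 c3 c4
    rcases F2_cases (v x) (hv.mapsTo hx) with e | e | e | e | e | e | e <;>
      rw [e] at hx' <;> rw [← hx', (hg _ (by assumption)).2]
    · simpa [F2_form] using k1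
    · simpa [F2_form] using k2
    · simpa [F2_form] using k3
    · simpa [F2_form] using k4
    · rw [d5]; simpa [F2_form] using k5
    · rw [d6]; simpa [F2_form] using k6
    · rw [d7]; simpa [F2_form] using k7
  · rintro ⟨f, hf⟩
    have hfg : ∀ p : Fin 3 → ZMod 2, p ≠ 0 → c (g p) = f (p, 1) := fun p hp => by
      rw [hf _ (hg p hp).1, (hg p hp).2]
    have a4 : f (![1, 1, 0], 1) = f (![1, 0, 0], 1) + f (![0, 1, 0], 1) + f (0, 1) := by
      rw [← map_add, ← map_add]; congr 1; decide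
    have a5 : f (![1, 0, 1], 1) = f (![1, 0, 0], 1) + f (![0, 0, 1], 1) + f (0, 1) := by
      rw [← map_add, ← map_add]; congr 1; decide
    have a6 : f (![0, 1, 1], 1) = f (![0, 1, 0], 1) + f (![0, 0, 1], 1) + f (0, 1) := by
      rw [← map_add, ← map_add]; congr 1; decide
    have a7 : f (![1, 1, 1], 1) = f (![1, 0, 0], 1) + f (![0, 1, 0], 1) + f (![0, 0, 1], 1) := by
      rw [← map_add, ← map_add]; congr 1; decide
    rw [hfg _ n1, hfg _ n2, hfg _ n3, hfg _ n4, hfg _ n5, hfg _ n6, hfg _ n7, a4, a5, a6, a7]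
    obtain ⟨q1, q2, q3⟩ := F2_dec4 (f (![1, 0, 0], 1)) (f (![0, 1, 0], 1)) (f (![0, 0, 1], 1))
      (f (0, 1))
    refine funext fun i => ?_
    fin_cases i
    · simpa using q1
    · simpa using q2
    · simpa using q3

/-- PLAIN WORDS. The Fano dual is AG(3,2) minus a point: if v maps E bijectively onto the nonzero
vectors of GF(2)^3 then the matroid of the vectors (v x, 1) is the dual of the matroid of the
vectors v x. Indeed (v, 1) is dependent on I iff some nonempty J ⊆ I has even size and Σ_J v = 0;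
the size of J is then 4 (2 is impossible, and for 6 the sum is the missing vector), and such J are
the sets {x | λ (v x) = 1} for functionals λ ≠ 0 (four distinct nonzero vectors with sum zero are
the complement of a line). And v '' (E \ I) does not span GF(2)^3 iff some λ ≠ 0 vanishes on it,
iff {x | λ (v x) = 1} ⊆ I for some λ ≠ 0. Compare with N✶.Indep J ↔ complement spanning. -/
theorem isFano_dual_iff {N : Matroid α} : IsFano N✶ ↔
    ∃ v : α → Fin 3 → ZMod 2, BijOn v N.E {x | x ≠ 0} ∧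
      RepBy (ZMod 2) N (fun x => ((v x, 1) : (Fin 3 → ZMod 2) × ZMod 2)) := by
  have hfinE : ∀ v : α → Fin 3 → ZMod 2, BijOn v N.E {x | x ≠ 0} → N.E.Finite := fun v hv =>
    Set.Finite.of_finite_image (by rw [hv.image_eq]; exact Set.toFinite _) hv.injOn
  have hval : ∀ v : α → Fin 3 → ZMod 2, BijOn v N.E {x | x ≠ 0} →
      ∀ p : Fin 3 → ZMod 2, p ≠ 0 → ∃ x ∈ N.E, v x = p := fun v hv p hp => by
    obtain ⟨x, hx, hxp⟩ := hv.surjOn hp
    exact ⟨x, hx, hxp⟩
  constructor
  · rintro ⟨v, hv, h⟩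
    rw [dual_ground] at hv
    refine ⟨v, hv, ?_⟩
    have hfin := hfinE v hv
    have := F2_dual_rep (M := N✶) (v1 := fun x => ((v x, 1) : (Fin 3 → ZMod 2) × ZMod 2))
      (v2 := v) hfin ?_ (fun c => F2_rel1 hfin hv c) h
    · rwa [dual_dual] at this
    · intro f hf
      have hf' : ∀ p : Fin 3 → ZMod 2, p ≠ 0 → f p = 0 := fun p hp => by
        obtain ⟨x, hx, hxp⟩ := hval v hv p hp
        rw [← hxp]; exact hf x hx
      ext i
      fin_cases i
      · have := hf' (Pi.single 0 1) (by decide)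
        simpa using this
      · have := hf' (Pi.single 1 1) (by decide)
        simpa using this
      · have := hf' (Pi.single 2 1) (by decide)
        simpa using this
  · rintro ⟨v, hv, h⟩
    refine ⟨v, by rw [dual_ground]; exact hv, ?_⟩
    have hfin := hfinE v hv
    refine F2_dual_rep (M := N) (v1 := v)
      (v2 := fun x => ((v x, 1) : (Fin 3 → ZMod 2) × ZMod 2)) hfin ?_
      (fun c => F2_rel2 hfin hv c) h
    intro f hf
    have hf' : ∀ p : Fin 3 → ZMod 2, p ≠ 0 → f (p, 1) = 0 := fun p hp => by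
      obtain ⟨x, hx, hxp⟩ := hval v hv p hp
      rw [← hxp]; exact hf x hx
    have h01 : f (0, 1) = 0 := by
      have : ((0, 1) : (Fin 3 → ZMod 2) × ZMod 2) =
        (![1, 0, 0], 1) + (![0, 1, 0], 1) + (![1, 1, 0], 1) := by decide
      rw [this, map_add, map_add, hf' _ (by decide), hf' _ (by decide), hf' _ (by decide)]
      rfl
    have hp0 : ∀ p : Fin 3 → ZMod 2, p ≠ 0 → f (p, 0) = 0 := fun p hp => by
      have h1 : ((p, 0) : (Fin 3 → ZMod 2) × ZMod 2) = (p, 1) + (0, 1) := by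
        refine Prod.ext ?_ ?_
        · simp
        · change (0 : ZMod 2) = 1 + 1
          decide
      rw [h1, map_add, hf' p hp, h01]; rfl
    refine LinearMap.ext fun z => ?_
    obtain ⟨p, t⟩ := z
    have h1 : ((p, t) : (Fin 3 → ZMod 2) × ZMod 2) = (p, 0) + (0, t) := by simp
    rw [h1, map_add, LinearMap.zero_apply]
    have h2 : f (p, 0) = 0 := by
      by_cases hp : p = 0
      · rw [hp]; exact map_zero f
      · exact hp0 p hp
    have h3 : f (0, t) = 0 := by
      rcases F2_zmod2 t with rfl | rfl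
      · exact map_zero f
      · exact h01
    rw [h2, h3]; rfl

end Pool.Agent.Helper43_EOR
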