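import Mathlib

set_option autoImplicit false

namespace Pool.Agent.Helper43_EOR

/-! Job T2g: for a totally unimodular integer matrix `X` the matroid of the columns of `[1 | X]`
does not depend on the field. -/

/-- The columns of the matrix `[1 | X]` over the field `F`. -/
def colsF (F : Type) [Field F] {R C : Type*} [DecidableEq R] (X : Matrix R C ℤ) :
    R ⊕ C → (R → F) :=
  Sum.elim (fun r => Pi.single r 1) (fun c r => ((X r c : ℤ) : F))

/-
PLAIN WORDS. Every square submatrix of Y = [1 | X] has integer determinant 0, 1 or -1
(`Matrix.one_fromCols_isTotallyUnimodular_iff`). Let F, F' be fields. Over a field K the columns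
indexed by a finite set I of size k are linearly independent iff some k × k submatrix with columns
I has nonzero determinant in K: if they are independent, the k columns form a matrix of rank k, so
it has k linearly independent rows (row rank = column rank), giving an invertible square submatrix;
the converse is clear. The determinant over K is the image of the integer determinant, which is
0 or ±1, so it is nonzero in K iff it is nonzero in ℤ. This condition does not depend on K.
-/

/-- over a field `K` the columns indexed by `I` are independent iff some square submatrix of the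
integer matrix with these columns has nonzero determinant -/
theorem aux78_iff {R C : Type*} [Fintype R] [DecidableEq R] [Finite C] (X : Matrix R C ℤ)
    (hX : X.IsTotallyUnimodular) (K : Type) [Field K] (I : Set (R ⊕ C)) [Fintype I] [DecidableEq I] :
    LinearIndepOn K (colsF K X) I ↔
      ∃ g : I → R, ((Matrix.fromCols (1 : Matrix R R ℤ) X).submatrix g
        (Subtype.val : I → R ⊕ C)).det ≠ 0 := by
  classical
  have hTU : (Matrix.fromCols (1 : Matrix R R ℤ) X).IsTotallyUnimodular :=
    (Matrix.one_fromCols_isTotallyUnimodular_iff X).2 hX
  set Y := Matrix.fromCols (1 : Matrix R R ℤ) X with hY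
  have hcol : ∀ (e : R ⊕ C) (r : R), colsF K X e r = ((Y r e : ℤ) : K) := by
    rintro (r' | c) r
    · simp only [colsF, Sum.elim_inl, hY, Matrix.fromCols_apply_inl, Matrix.one_apply, Pi.single_apply]
      split_ifs <;> simp
    · simp only [colsF, Sum.elim_inr, hY, Matrix.fromCols_apply_inr]
  have hdet : ∀ g : I → R, (Y.submatrix g (Subtype.val : I → R ⊕ C)).det ≠ 0 ↔
      ((Y.submatrix g (Subtype.val : I → R ⊕ C)).map (Int.castRingHom K)).det ≠ 0 := by
    intro g
    have h1 : ((Y.submatrix g (Subtype.val : I → R ⊕ C)).map (Int.castRingHom K)).det
        = ((Y.submatrix g (Subtype.val : I → R ⊕ C)).det : K) := by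
      have := (Int.castRingHom K).map_det (Y.submatrix g (Subtype.val : I → R ⊕ C))
      rw [RingHom.mapMatrix_apply] at this
      rw [← this]
      rfl
    rw [h1]
    obtain ⟨s, hs⟩ := (Matrix.isTotallyUnimodular_iff_fintype Y).1 hTU I g Subtype.val
    rw [← hs]
    cases s <;> simp
  constructor
  · intro h
    set N : Matrix R I K := fun r e => colsF K X e r with hN
    have hNcol : LinearIndependent K N.col := h
    have hrank : N.rank = Fintype.card I := by
      have : LinearIndependent K N.transpose.row := by rw [Matrix.row_transpose]; exact hNcol
      have h2 := this.rank_matrix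
      rw [Matrix.rank_transpose] at h2
      exact h2
    rw [Matrix.rank_eq_finrank_span_row] at hrank
    obtain ⟨κ, a, ha, hspan, hlin⟩ := exists_linearIndependent' K N.row
    rw [← hspan] at hrank
    have : Finite κ := Finite.of_injective a ha
    have : Fintype κ := Fintype.ofFinite κ
    rw [finrank_span_eq_card hlin] at hrank
    have e : κ ≃ I := Fintype.equivOfCardEq hrank
    refine ⟨a ∘ e.symm, ?_⟩
    rw [hdet]
    have h3 : LinearIndependent K (((Y.submatrix (a ∘ e.symm) (Subtype.val : I → R ⊕ C)).map (Int.castRingHom K)).row) := by
      have h4 := hlin.comp e.symm e.symm.injective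
      have h5 : (((Y.submatrix (a ∘ e.symm) (Subtype.val : I → R ⊕ C)).map (Int.castRingHom K)).row)
          = (N.row ∘ a) ∘ e.symm := by
        funext i j
        simp only [Matrix.row_apply, Matrix.map_apply, Matrix.submatrix_apply, Function.comp_apply,
          hN, hcol]
        rfl
      rw [h5]
      exact h4
    rw [Matrix.linearIndependent_rows_iff_isUnit, Matrix.isUnit_iff_isUnit_det] at h3
    exact h3.ne_zero
  · rintro ⟨g, hg⟩
    rw [hdet] at hg
    have h3 : LinearIndependent K (((Y.submatrix g (Subtype.val : I → R ⊕ C)).map (Int.castRingHom K)).col) := by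
      rw [Matrix.linearIndependent_cols_iff_isUnit, Matrix.isUnit_iff_isUnit_det]
      exact isUnit_iff_ne_zero.2 hg
    have h4 : LinearIndependent K ((LinearMap.funLeft K K g) ∘ (fun x : I => colsF K X x)) := by
      convert h3 using 1
      funext i j
      simp only [Matrix.col_apply, Matrix.map_apply, Matrix.submatrix_apply, Function.comp_apply,
        LinearMap.funLeft_apply, hcol]
      rfl
    exact LinearIndependent.of_comp _ h4

theorem cols_indep_iff {R C : Type*} [Fintype R] [DecidableEq R] [Finite C] (X : Matrix R C ℤ)
    (hX : X.IsTotallyUnimodular) (F F' : Type) [Field F] [Field F'] (I : Set (R ⊕ C)) :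
    LinearIndepOn F (colsF F X) I ↔ LinearIndepOn F' (colsF F' X) I := by
  classical
  have : Fintype I := Fintype.ofFinite I
  rw [aux78_iff X hX F I, aux78_iff X hX F' I]

end Pool.Agent.Helper43_EOR
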