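import Mathlib

set_option autoImplicit false

namespace Pool.Agent.Helper43_EOR

/-! Job T2b: two leaves with the same colour. -/

/-
PLAIN WORDS. Let d z = G.dist w z. Every z ≠ w has a neighbour p z with d (p z) + 1 = d z (the
parent; BFS tree). Call z a descendant of z' if iterating p from z reaches z'. Every z ≠ w reaches,
by iterating p, exactly one neighbour of w, its branch (the last vertex before w), since vertices at
distance 1 have parent w. The branches of a, b, c contain a, b, c themselves. In each of these three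
branches choose a vertex l at the largest distance from w: no vertex has l as its parent (a child
would be in the same branch and farther away). The three vertices l1, l2, l3 are distinct, so two of
them, u and v, have the same colour. Every vertex other than u, v is joined to w by its chain of
parents, and this chain avoids u and v (they are not parents of anything). Hence the graph induced
on the complement of {u, v} is connected (it contains w: u, v ≠ w).
-/

theorem two_leaves_parent {V : Type*} (G : SimpleGraph V) (hG : G.Connected) (w z : V)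
    (hz : z ≠ w) : ∃ y, G.Adj z y ∧ G.dist w y + 1 = G.dist w z := by
  obtain ⟨q, hq⟩ := hG.exists_walk_length_eq_dist z w
  cases q with
  | nil => exact absurd rfl hz
  | @cons _ y _ h q' =>
    refine ⟨y, h, ?_⟩
    rw [SimpleGraph.Walk.length_cons] at hq
    have h2 : G.dist y w ≤ q'.length := SimpleGraph.dist_le q'
    have h3 : G.dist z w ≤ G.dist z y + G.dist y w := hG.dist_triangle
    have h4 : G.dist z y = 1 := SimpleGraph.dist_eq_one_iff_adj.2 h
    rw [G.dist_comm (u := w) (v := y), G.dist_comm (u := w) (v := z)]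
    omega

theorem two_leaves {V : Type*} [Fintype V] [DecidableEq V] (G : SimpleGraph V)
    (hG : G.Connected) (w a b c : V) (hab : a ≠ b) (hac : a ≠ c) (hbc : b ≠ c)
    (ha : G.Adj w a) (hb : G.Adj w b) (hc : G.Adj w c) (col : V → Bool) :
    ∃ u v : V, u ≠ v ∧ col u = col v ∧ (G.induce {z | z ≠ u ∧ z ≠ v}).Connected := by
  classical
  choose! p hp using fun z (hz : z ≠ w) => two_leaves_parent G hG w z hz
  have hd0 : ∀ z, z ≠ w → 1 ≤ G.dist w z := by
    intro z hz
    have := (hp z hz).2
    omega
  -- the branch of a vertex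
  set br : V → V := fun z => p^[G.dist w z - 1] z with hbr
  have hbrp : ∀ z, z ≠ w → p z ≠ w → br z = br (p z) := by
    intro z hz hpz
    have h1 := (hp z hz).2
    have h2 := hd0 _ hpz
    simp only [hbr]
    rw [← h1, Nat.add_sub_cancel]
    obtain ⟨n, hn⟩ : ∃ n, G.dist w (p z) = n + 1 := ⟨G.dist w (p z) - 1, by omega⟩
    rw [hn, Nat.add_sub_cancel, Function.iterate_succ_apply]
  have hbr1 : ∀ x, G.Adj w x → br x = x := by
    intro x hx
    simp only [hbr]
    rw [SimpleGraph.dist_eq_one_iff_adj.2 hx]
    rfl
  have hleaf : ∀ x, G.Adj w x → ∃ l, l ≠ w ∧ br l = x ∧ ∀ z, z ≠ w → p z ≠ l := by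
    intro x hx
    obtain ⟨l, hl, hmax⟩ := Finset.exists_max_image
      (Finset.univ.filter (fun z => z ≠ w ∧ br z = x)) (fun z => G.dist w z)
      ⟨x, by simp [hbr1 x hx, hx.ne']⟩
    simp only [Finset.mem_filter, Finset.mem_univ, true_and] at hl hmax
    refine ⟨l, hl.1, hl.2, ?_⟩
    intro z hz hpz
    have h1 := (hp z hz).2
    have h2 : br z = x := by
      rw [hbrp z hz (by rw [hpz]; exact hl.1), hpz]
      exact hl.2
    have h3 := hmax z ⟨hz, h2⟩
    rw [hpz] at h1
    omega
  have hconn : ∀ u v : V, u ≠ w → v ≠ w → (∀ z, z ≠ w → p z ≠ u) → (∀ z, z ≠ w → p z ≠ v) →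
      (G.induce {z | z ≠ u ∧ z ≠ v}).Connected := by
    intro u v hu hv hpu hpv
    rw [SimpleGraph.connected_iff_exists_forall_reachable]
    refine ⟨⟨w, ⟨hu.symm, hv.symm⟩⟩, ?_⟩
    have key : ∀ (n : ℕ) (z : V) (hz : z ≠ u ∧ z ≠ v), G.dist w z = n →
        (G.induce {z | z ≠ u ∧ z ≠ v}).Reachable ⟨w, ⟨hu.symm, hv.symm⟩⟩ ⟨z, hz⟩ := by
      intro n
      induction n with
      | zero =>
        intro z hz hzn
        have : z = w := by
          by_contra hzw
          have := hd0 z hzw
          omega
        subst this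
        exact SimpleGraph.Reachable.refl _
      | succ n ih =>
        intro z hz hzn
        have hzw : z ≠ w := by
          rintro rfl
          simp at hzn
        have h1 := hp z hzw
        have h2 := ih (p z) ⟨hpu z hzw, hpv z hzw⟩ (by omega)
        refine h2.trans (SimpleGraph.Adj.reachable ?_)
        simp only [SimpleGraph.comap_adj, Function.Embedding.subtype_apply]
        exact h1.1.symm
    rintro ⟨z, hz⟩
    exact key _ z hz rfl
  obtain ⟨la, hla1, hla2, hla3⟩ := hleaf a ha
  obtain ⟨lb, hlb1, hlb2, hlb3⟩ := hleaf b hb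
  obtain ⟨lc, hlc1, hlc2, hlc3⟩ := hleaf c hc
  have hlab : la ≠ lb := by
    rintro h; apply hab; rw [← hla2, h, hlb2]
  have hlac : la ≠ lc := by
    rintro h; apply hac; rw [← hla2, h, hlc2]
  have hlbc : lb ≠ lc := by
    rintro h; apply hbc; rw [← hlb2, h, hlc2]
  by_cases h1 : col la = col lb
  · exact ⟨la, lb, hlab, h1, hconn la lb hla1 hlb1 hla3 hlb3⟩
  by_cases h2 : col la = col lc
  · exact ⟨la, lc, hlac, h2, hconn la lc hla1 hlc1 hla3 hlc3⟩
  · refine ⟨lb, lc, hlbc, ?_, hconn lb lc hlb1 hlc1 hlb3 hlc3⟩
    revert h1 h2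
    cases col la <;> cases col lb <;> cases col lc <;> simp

end Pool.Agent.Helper43_EOR
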