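import Mathlib

set_option autoImplicit false

namespace Pool.Agent.Helper43_EOR

/-! Job T2c: a binary matrix with at most two ones in every column has a totally unimodular
signing. -/

/-
PLAIN WORDS. For each column with exactly two ones put +1 at one of them and -1 at the other; for
columns with one 1 put +1. The resulting integer matrix X has in each column at most one +1 and at
most one -1 and zeros elsewhere. Such a matrix is totally unimodular (Poincare): induction on the
order k of a square submatrix (rows f, columns g; wlog injective). If some column of the submatrix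
is zero, det = 0. If some column has exactly one nonzero entry, expand along it
(`Matrix.det_succ_column`). Otherwise every column of the submatrix has exactly one +1 and one -1,
so the sum of all rows is 0 and det = 0.
-/

theorem signing_det (k : ℕ) : ∀ M : Matrix (Fin k) (Fin k) ℤ,
    (∀ j, (∀ i, M i j = 0 ∨ M i j = 1 ∨ M i j = -1) ∧
      (∀ i i', M i j = 1 → M i' j = 1 → i = i') ∧
      (∀ i i', M i j = -1 → M i' j = -1 → i = i')) →
    M.det = 0 ∨ M.det = 1 ∨ M.det = -1 := by
  induction k with
  | zero =>
    intro M _
    right; left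
    exact Matrix.det_fin_zero
  | succ k ih =>
    intro M hM
    by_cases hcase : ∃ j i0, ∀ i, i ≠ i0 → M i j = 0
    · obtain ⟨j, i0, h0⟩ := hcase
      rw [Matrix.det_succ_column M j]
      rw [Finset.sum_eq_single i0 (fun i _ hi => by rw [h0 i hi]; ring) (by simp)]
      have hsub := ih (M.submatrix i0.succAbove j.succAbove) (by
        intro j'
        obtain ⟨h1, h2, h3⟩ := hM (j.succAbove j')
        refine ⟨fun i => h1 _, ?_, ?_⟩
        · intro i i' hi hi'
          exact Fin.succAbove_right_injective (h2 _ _ hi hi')
        · intro i i' hi hi'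
          exact Fin.succAbove_right_injective (h3 _ _ hi hi'))
      have hs : ((-1 : ℤ) ^ ((i0 : ℕ) + (j : ℕ)) = 1) ∨ ((-1 : ℤ) ^ ((i0 : ℕ) + (j : ℕ)) = -1) :=
        neg_one_pow_eq_or ℤ _
      have hm := (hM j).1 i0
      rcases hs with hs | hs <;> rcases hm with hm | hm | hm <;> rcases hsub with hd | hd | hd <;>
        rw [hs, hm, hd] <;> norm_num
    · push Not at hcase
      left
      apply Matrix.exists_vecMul_eq_zero_iff.1
      refine ⟨fun _ => 1, ?_, ?_⟩
      · intro h
        have := congrFun h 0
        simp at this
      · funext j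
        simp only [Matrix.vecMul, dotProduct, one_mul, Pi.zero_apply]
        obtain ⟨h1, h2, h3⟩ := hM j
        obtain ⟨i1, _, hi1⟩ := hcase j 0
        obtain ⟨i2, hi21, hi2⟩ := hcase j i1
        rw [Finset.sum_eq_add i1 i2 hi21.symm _ (by simp) (by simp)]
        · rcases h1 i1 with h | h | h
          · exact absurd h hi1
          · rcases h1 i2 with h' | h' | h'
            · exact absurd h' hi2
            · exact absurd (h2 _ _ h' h) hi21
            · rw [h, h']; norm_num
          · rcases h1 i2 with h' | h' | h'
            · exact absurd h' hi2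
            · rw [h, h']; norm_num
            · exact absurd (h3 _ _ h' h) hi21
        · rintro i _ ⟨hii1, hii2⟩
          rcases h1 i with hh | hh | hh
          · exact hh
          · exfalso
            rcases h1 i1 with h | h | h
            · exact hi1 h
            · exact hii1 (h2 _ _ hh h)
            · rcases h1 i2 with h' | h' | h'
              · exact hi2 h'
              · exact hii2 (h2 _ _ hh h')
              · exact hi21 (h3 _ _ h' h)
          · exfalso
            rcases h1 i1 with h | h | h
            · exact hi1 h
            · rcases h1 i2 with h' | h' | h'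
              · exact hi2 h'
              · exact hi21 (h2 _ _ h' h)
              · exact hii2 (h3 _ _ hh h')
            · exact hii1 (h3 _ _ hh h)

theorem signing_of_two {R C : Type*} [Fintype R] [DecidableEq R] [Fintype C] [DecidableEq C]
    (D : Matrix R C (ZMod 2))
    (h : ∀ c, (Finset.univ.filter fun r => D r c ≠ 0).card ≤ 2) :
    ∃ X : Matrix R C ℤ, X.IsTotallyUnimodular ∧ ∀ r c, ((X r c : ℤ) : ZMod 2) = D r c := by
  classical
  have hr1 : ∀ c, ∃ r1 : Option R, (∀ r, D r c ≠ 0 → ∃ r', r1 = some r' ∧ D r' c ≠ 0) := by
    intro c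
    by_cases hc : ∃ r, D r c ≠ 0
    · obtain ⟨r, hr⟩ := hc
      exact ⟨some r, fun _ _ => ⟨r, rfl, hr⟩⟩
    · push Not at hc
      exact ⟨none, fun r hr => absurd (hc r) hr⟩
  choose r1 hr1 using hr1
  have hz2 : ∀ x : ZMod 2, x ≠ 0 → x = 1 := by decide
  set X : Matrix R C ℤ := fun r c => if D r c = 0 then 0 else if r1 c = some r then 1 else -1
    with hX
  have hX0 : ∀ r c, X r c = 0 ∨ X r c = 1 ∨ X r c = -1 := by
    intro r c
    simp only [hX]
    split_ifs <;> simp
  have hXp : ∀ r c, X r c = 1 → r1 c = some r := by
    intro r c h1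
    by_contra h2
    simp only [hX, h2, if_false] at h1
    by_cases h3 : D r c = 0
    · simp [h3] at h1
    · simp [h3] at h1
  have hXm : ∀ r c, X r c = -1 → D r c ≠ 0 ∧ r1 c ≠ some r := by
    intro r c h1
    constructor
    · intro h2
      simp [hX, h2] at h1
    · intro h2
      by_cases h3 : D r c = 0
      · simp [hX, h3] at h1
      · simp [hX, h3, h2] at h1
  have hX1 : ∀ c r r', X r c = 1 → X r' c = 1 → r = r' := by
    intro c r r' h1 h2
    have h3 := hXp _ _ h1
    have h4 := hXp _ _ h2
    rw [h3] at h4
    exact Option.some.inj h4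
  have hX2 : ∀ c r r', X r c = -1 → X r' c = -1 → r = r' := by
    intro c r r' h1 h2
    by_contra hne
    obtain ⟨h3, h4⟩ := hXm _ _ h1
    obtain ⟨h5, h6⟩ := hXm _ _ h2
    obtain ⟨s, hs1, hs2⟩ := hr1 c r h3
    have hsr : s ≠ r := by rintro rfl; exact h4 hs1
    have hsr' : s ≠ r' := by rintro rfl; exact h6 hs1
    have h7 : ({s, r, r'} : Finset R) ⊆ Finset.univ.filter fun r => D r c ≠ 0 := by
      intro x hx
      simp only [Finset.mem_insert, Finset.mem_singleton] at hx
      simp only [Finset.mem_filter, Finset.mem_univ, true_and]
      rcases hx with rfl | rfl | rfl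
      · exact hs2
      · exact h3
      · exact h5
    have h8 := Finset.card_le_card h7
    rw [Finset.card_eq_three.2 ⟨s, r, r', hsr, hsr', hne, rfl⟩] at h8
    have := h c
    omega
  refine ⟨X, ?_, ?_⟩
  · intro k f g hf _
    have := signing_det k (X.submatrix f g) (by
      intro j
      refine ⟨fun i => hX0 _ _, ?_, ?_⟩
      · intro i i' hi hi'
        exact hf (hX1 _ _ _ hi hi')
      · intro i i' hi hi'
        exact hf (hX2 _ _ _ hi hi'))
    rcases this with h1 | h1 | h1
    · exact ⟨0, by rw [h1]; simp⟩
    · exact ⟨1, by rw [h1]; simp⟩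
    · exact ⟨-1, by rw [h1]; simp⟩
  · intro r c
    simp only [hX]
    split_ifs with h1 h2
    · rw [h1]; simp
    · rw [hz2 _ h1]; simp
    · rw [hz2 _ h1]; decide

end Pool.Agent.Helper43_EOR
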