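import Mathlib

set_option autoImplicit false

namespace Pool.Agent.Helper43_EOR

variable {R C : Type*} [DecidableEq R] [DecidableEq C]

/-- The pivot of an integer matrix at the entry `(r, c)` (up to signs of row `r`, column `c`). -/
def pivZ (X : Matrix R C ℤ) (r : R) (c : C) : Matrix R C ℤ := fun i j =>
  if i = r then (if j = c then - X r c else X r j)
  else if j = c then X i c else X i j - X r c * X i c * X r j

/-- The pivot of a matrix over `ZMod 2` at the entry `(r, c)`. -/
def piv2 (D : Matrix R C (ZMod 2)) (r : R) (c : C) : Matrix R C (ZMod 2) := fun i j =>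
  if i = r ∨ j = c then D i j else D i j + D i c * D r j

/-- `D'` is obtained from `D` by pivots at entries equal to one in columns of `T`. -/
inductive PivT (T : Set C) (D : Matrix R C (ZMod 2)) : Matrix R C (ZMod 2) → Prop
  | refl : PivT T D D
  | step (D' : Matrix R C (ZMod 2)) (r : R) (c : C) : PivT T D D' → c ∈ T → D' r c = 1 →
      PivT T D (piv2 D' r c)

/-- The reduction modulo two. -/
def red (X : Matrix R C ℤ) : Matrix R C (ZMod 2) := fun i j => ((X i j : ℤ) : ZMod 2)

/-- Rows `i` and `j` are linked through nonzero entries in columns of `T`. -/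
def Linked (D : Matrix R C (ZMod 2)) (T : Set C) : R → R → Prop :=
  Relation.ReflTransGen (fun i j => ∃ c ∈ T, D i c ≠ 0 ∧ D j c ≠ 0)

/-- `D` has a submatrix `0111 / 1011 / 1101` (with `[1 | _]` a Fano matroid). -/
def HasF (D : Matrix R C (ZMod 2)) : Prop :=
  ∃ (f : Fin 3 → R) (g : Fin 4 → C), ∀ i j,
    D (f i) (g j) = (!![0, 1, 1, 1; 1, 0, 1, 1; 1, 1, 0, 1] : Matrix (Fin 3) (Fin 4) (ZMod 2)) i j

/-- No matrix obtained by pivots from `D` has a Fano submatrix or a transposed one. -/
def Free (D : Matrix R C (ZMod 2)) : Prop :=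
  ∀ D', PivT Set.univ D D' → ¬ HasF D' ∧ ¬ HasF D'.transpose

/-- Deleting the column `x`. -/
def delCol {K : Type*} (X : Matrix R C K) (x : C) : Matrix R {c // c ≠ x} K :=
  X.submatrix id Subtype.val

end Pool.Agent.Helper43_EOR
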