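import Mathlib
import Pool.Agent.Helper43_EOR.MatDefs

set_option autoImplicit false

namespace Pool.Agent.Helper43_EOR

/-! Job T2a: pivoting preserves total unimodularity (integer matrices). -/

variable {R C : Type*} [DecidableEq R] [DecidableEq C]

/-
PLAIN WORDS. Let x = X r c = ±1 and P = pivZ X r c. Use `Matrix.isTotallyUnimodular_iff` (all
square submatrices given by arbitrary f : Fin k → R, g : Fin k → C; wlog both injective, otherwise
the determinant is 0). Four cases.
(1) r ∉ range f, c ∉ range g: bordering. The (k+1)×(k+1) submatrix of X with rows r, f and columns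
    c, g has determinant x * det(X i j - x⁻¹ X i c X r j) = x * det P(f,g)  (Schur complement,
    e.g. `Matrix.det_fromBlocks₁₁` / `Matrix.det_fromBlocks_one₁₁`, or adding multiples of the
    first row to the others), so det P(f,g) ∈ {0, ±1}.
(2) r = f i0, c ∉ range g: add x * X (f i) c times row i0 to row i (i ≠ i0) in P(f,g): this gives
    X(f,g); the determinant does not change.
(3) r ∉ range f, c = g j0: same with columns.
(4) r = f i0 and c = g j0: add multiples of row i0 of P(f,g) (whose entry in column j0 is -x) to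
    clear the rest of column j0: P i c + (x * X i c) * (-x) = 0 and
    P i j + (x * X i c) * X r j = X i j. So det P(f,g) = ± x * det X(f minus i0, g minus j0).
An alternative proof: TU of X is equivalent to all maximal minors of [1 | X] being 0, ±1, and a
pivot is a change of basis of determinant ±1.
-/

omit [DecidableEq R] [DecidableEq C] in
lemma sgn_mul {a b : ℤ} (ha : a ∈ Set.range (SignType.cast : SignType → ℤ))
    (hb : b ∈ Set.range (SignType.cast : SignType → ℤ)) :
    a * b ∈ Set.range (SignType.cast : SignType → ℤ) := by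
  obtain ⟨s, rfl⟩ := ha
  obtain ⟨t, rfl⟩ := hb
  exact ⟨s * t, by simp⟩

omit [DecidableEq R] [DecidableEq C] in
lemma sgn_unit {a : ℤ} (h : a = 1 ∨ a = -1) : a ∈ Set.range (SignType.cast : SignType → ℤ) := by
  rcases h with rfl | rfl
  · exact ⟨1, by simp⟩
  · exact ⟨-1, by simp⟩

/-- the pivot of the transpose -/
lemma pivZ_transpose (X : Matrix R C ℤ) (r : R) (c : C) :
    (pivZ X r c).transpose = pivZ X.transpose c r := by
  ext j i
  simp only [Matrix.transpose_apply, pivZ]
  by_cases hi : i = r <;> by_cases hj : j = c <;> simp [hi, hj]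
  ring

/-- the pivot row is not used -/
lemma pivZ_case1 (X : Matrix R C ℤ) (hX : X.IsTotallyUnimodular) (r : R) (c : C)
    (h : X r c = 1 ∨ X r c = -1) {k : ℕ} (f : Fin k → R) (g : Fin k → C)
    (hf : ∀ i, f i ≠ r) (hg : ∀ j, g j ≠ c) :
    ((pivZ X r c).submatrix f g).det ∈ Set.range (SignType.cast : SignType → ℤ) := by
  have hx2 : X r c * X r c = 1 := by rcases h with h | h <;> rw [h] <;> norm_num
  set B : Matrix (Unit ⊕ Fin k) (Unit ⊕ Fin k) ℤ :=
    X.submatrix (Sum.elim (fun _ => r) f) (Sum.elim (fun _ => c) g) with hB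
  set A : Matrix (Unit ⊕ Fin k) (Unit ⊕ Fin k) ℤ :=
    Matrix.fromBlocks (Matrix.of fun _ _ => X r c) (Matrix.of fun _ j => X r (g j)) 0
      ((pivZ X r c).submatrix f g) with hA
  have hdet : A.det = B.det := by
    refine Matrix.det_eq_of_forall_row_eq_smul_add_const
      (Sum.elim (fun _ => 0) (fun i => -(X r c * X (f i) c))) (Sum.inl ()) (by simp) ?_
    rintro (i | i) (j | j)
    · simp [hA, hB]
    · simp [hA, hB]
    · simp only [hA, hB, Matrix.fromBlocks_apply₂₁, Matrix.zero_apply, Matrix.submatrix_apply,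
        Sum.elim_inl, Sum.elim_inr]
      have : X (f i) c + -(X r c * X (f i) c) * X r c = X (f i) c * (1 - X r c * X r c) := by ring
      rw [this, hx2]; ring
    · simp only [hA, hB, Matrix.fromBlocks_apply₂₂, Matrix.submatrix_apply,
        Sum.elim_inl, Sum.elim_inr, pivZ, if_neg (hf i), if_neg (hg j)]
      ring
  have hdA : A.det = X r c * ((pivZ X r c).submatrix f g).det := by
    rw [hA, Matrix.det_fromBlocks_zero₂₁]
    simp
  have hBr : B.det ∈ Set.range (SignType.cast : SignType → ℤ) := by
    rw [hB]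
    exact (Matrix.isTotallyUnimodular_iff_fintype X).1 hX _ _ _
  have : ((pivZ X r c).submatrix f g).det = X r c * B.det := by
    rw [← hdet, hdA, ← mul_assoc, hx2, one_mul]
  rw [this]
  exact sgn_mul (sgn_unit h) hBr

/-- the pivot row is used, the pivot column is not -/
lemma pivZ_case2 (X : Matrix R C ℤ) (hX : X.IsTotallyUnimodular) (r : R) (c : C)
    {k : ℕ} (f : Fin k → R) (g : Fin k → C)
    (i0 : Fin k) (hf : f i0 = r) (hg : ∀ j, g j ≠ c) :
    ((pivZ X r c).submatrix f g).det ∈ Set.range (SignType.cast : SignType → ℤ) := by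
  have hdet : (X.submatrix f g).det = ((pivZ X r c).submatrix f g).det := by
    refine Matrix.det_eq_of_forall_row_eq_smul_add_const
      (fun i => if f i = r then 0 else X r c * X (f i) c) i0 (by simp [hf]) ?_
    intro i j
    simp only [Matrix.submatrix_apply, pivZ, hf, if_pos, if_neg (hg j)]
    by_cases hi : f i = r
    · simp [hi]
    · simp only [hi, if_false]
      ring
  rw [← hdet]
  exact (Matrix.isTotallyUnimodular_iff X).1 hX _ _ _

/-- both are used -/
lemma pivZ_case4 (X : Matrix R C ℤ) (hX : X.IsTotallyUnimodular) (r : R) (c : C)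
    (h : X r c = 1 ∨ X r c = -1) {k : ℕ} (f : Fin (k + 1) → R) (g : Fin (k + 1) → C)
    (hfi : f.Injective) (hgi : g.Injective)
    (i0 j0 : Fin (k + 1)) (hf : f i0 = r) (hg : g j0 = c) :
    ((pivZ X r c).submatrix f g).det ∈ Set.range (SignType.cast : SignType → ℤ) := by
  have hx2 : X r c * X r c = 1 := by rcases h with h | h <;> rw [h] <;> norm_num
  have hfr : ∀ i, i ≠ i0 → f i ≠ r := fun i hi h2 => hi (hfi (h2.trans hf.symm))
  have hgc : ∀ j, j ≠ j0 → g j ≠ c := fun j hj h2 => hj (hgi (h2.trans hg.symm))
  set A : Matrix (Fin (k + 1)) (Fin (k + 1)) ℤ := Matrix.of fun i j =>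
    (pivZ X r c) (f i) (g j) + (if i = i0 then 0 else X r c * X (f i) c) *
      (pivZ X r c) (f i0) (g j) with hA
  have hdet : A.det = ((pivZ X r c).submatrix f g).det :=
    Matrix.det_eq_of_forall_row_eq_smul_add_const
      (fun i => if i = i0 then 0 else X r c * X (f i) c) i0 (by simp) fun i j => by
        simp [hA]
  rw [← hdet, Matrix.det_succ_column A j0, Finset.sum_eq_single i0]
  · refine sgn_mul (sgn_mul ?_ ?_) ?_
    · rcases neg_one_pow_eq_or ℤ ((i0 : ℕ) + (j0 : ℕ)) with h1 | h1
      · exact sgn_unit (Or.inl h1)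
      · exact sgn_unit (Or.inr h1)
    · have : A i0 j0 = - X r c := by
        simp [hA, pivZ, hf, hg]
      rw [this]
      rcases h with h | h <;> rw [h]
      · exact sgn_unit (Or.inr rfl)
      · exact sgn_unit (Or.inl (by norm_num))
    · have : A.submatrix i0.succAbove j0.succAbove =
          X.submatrix (f ∘ i0.succAbove) (g ∘ j0.succAbove) := by
        ext i j
        have hi := Fin.succAbove_ne i0 i
        have hj := Fin.succAbove_ne j0 j
        simp only [Matrix.submatrix_apply, hA, Matrix.of_apply, pivZ, Function.comp_apply,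
          if_neg hi, if_neg (hfr _ hi), if_neg (hgc _ hj), hf, if_true]
        ring
      rw [this]
      exact (Matrix.isTotallyUnimodular_iff X).1 hX _ _ _
  · intro i _ hi
    have : A i j0 = 0 := by
      simp only [hA, Matrix.of_apply, pivZ, if_neg hi, if_neg (hfr _ hi), hf, hg, if_true]
      have : X (f i) c + X r c * X (f i) c * -X r c = X (f i) c * (1 - X r c * X r c) := by ring
      rw [this, hx2]; ring
    rw [this]; ring
  · intro h1
    exact absurd (Finset.mem_univ _) h1

theorem pivZ_tu (X : Matrix R C ℤ) (hX : X.IsTotallyUnimodular) (r : R) (c : C)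
    (h : X r c = 1 ∨ X r c = -1) : (pivZ X r c).IsTotallyUnimodular := by
  intro k f g hfi hgi
  by_cases hf : ∃ i0, f i0 = r
  · obtain ⟨i0, hf⟩ := hf
    by_cases hg : ∃ j0, g j0 = c
    · obtain ⟨j0, hg⟩ := hg
      cases k with
      | zero => exact i0.elim0
      | succ k => exact pivZ_case4 X hX r c h f g hfi hgi i0 j0 hf hg
    · exact pivZ_case2 X hX r c f g i0 hf fun j hj => hg ⟨j, hj⟩
  · by_cases hg : ∃ j0, g j0 = c
    · obtain ⟨j0, hg⟩ := hg
      have h2 := pivZ_case2 X.transpose hX.transpose c r g f j0 hg fun i hi => hf ⟨i, hi⟩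
      rwa [← pivZ_transpose, ← Matrix.transpose_submatrix, Matrix.det_transpose] at h2
    · exact pivZ_case1 X hX r c h f g (fun i hi => hf ⟨i, hi⟩) fun j hj => hg ⟨j, hj⟩

end Pool.Agent.Helper43_EOR
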