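import Mathlib
import Pool.Agent.Helper43_EOR.T2a

set_option autoImplicit false

namespace Pool.Agent.Helper43_EOR

variable {R C : Type*} [DecidableEq R] [DecidableEq C]

/-! ### auxiliary facts for `key` -/

theorem key_trans {T : Set C} {D D1 D2 : Matrix R C (ZMod 2)} (h : PivT T D D1)
    (h' : PivT T D1 D2) : PivT T D D2 := by
  induction h' with
  | refl => exact h
  | step D' r c _ hc h1 ih => exact PivT.step D' r c ih hc h1

omit [DecidableEq R] [DecidableEq C] in
theorem key_entry {X : Matrix R C ℤ} {x y : C} (hxy : x ≠ y)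
    (hx : (delCol X x).IsTotallyUnimodular) (hy : (delCol X y).IsTotallyUnimodular) (r : R)
    (c : C) : X r c = 0 ∨ X r c = 1 ∨ X r c = -1 := by
  by_cases hc : c = x
  · have h := hy.apply r ⟨c, fun h => hxy (hc.symm.trans h)⟩
    obtain ⟨s, hs⟩ := h
    have h1 : X r c = (s : ℤ) := hs.symm
    rw [h1]
    rcases s with _ | _ | _ <;> simp
  · have h := hx.apply r ⟨c, hc⟩
    obtain ⟨s, hs⟩ := h
    have h1 : X r c = (s : ℤ) := hs.symm
    rw [h1]
    rcases s with _ | _ | _ <;> simp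

omit [DecidableEq R] [DecidableEq C] in
theorem key_minor2 {X : Matrix R C ℤ} {w : C} (hw : (delCol X w).IsTotallyUnimodular) (a b : R)
    {c d : C} (hc : c ≠ w) (hd : d ≠ w) :
    X a c * X b d - X a d * X b c = 0 ∨ X a c * X b d - X a d * X b c = 1 ∨
      X a c * X b d - X a d * X b c = -1 := by
  rw [Matrix.isTotallyUnimodular_iff] at hw
  obtain ⟨s, hs⟩ := hw 2 ![a, b] ![⟨c, hc⟩, ⟨d, hd⟩]
  rw [Matrix.det_fin_two] at hs
  have h1 : X a c * X b d - X a d * X b c = (s : ℤ) := hs.symm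
  rw [h1]
  rcases s with _ | _ | _ <;> simp

omit [DecidableEq R] [DecidableEq C] in
theorem key_minor3 {X : Matrix R C ℤ} {w : C} (hw : (delCol X w).IsTotallyUnimodular)
    (a b r : R) {c d e : C} (hc : c ≠ w) (hd : d ≠ w) (he : e ≠ w) :
    ∃ s : ℤ, (s = 0 ∨ s = 1 ∨ s = -1) ∧
      X a c * X b d * X r e - X a c * X b e * X r d - X a d * X b c * X r e
        + X a d * X b e * X r c + X a e * X b c * X r d - X a e * X b d * X r c = s := by
  rw [Matrix.isTotallyUnimodular_iff] at hw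
  obtain ⟨s, hs⟩ := hw 3 ![a, b, r] ![⟨c, hc⟩, ⟨d, hd⟩, ⟨e, he⟩]
  rw [Matrix.det_fin_three] at hs
  refine ⟨(s : ℤ), by rcases s with _ | _ | _ <;> simp, hs.symm⟩

theorem key_delCol (X : Matrix R C ℤ) (r : R) (c w : C) (hc : c ≠ w) :
    delCol (pivZ X r c) w = pivZ (delCol X w) r ⟨c, hc⟩ := by
  ext i j
  simp only [delCol, pivZ, Matrix.submatrix_apply, id, Subtype.ext_iff]

theorem key_red {X : Matrix R C ℤ} {r : R} {c : C} (h : X r c = 1 ∨ X r c = -1) :
    red (pivZ X r c) = piv2 (red X) r c := by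
  have hneg : ∀ a : ZMod 2, -a = a := by decide
  ext i j
  simp only [red, pivZ, piv2]
  by_cases hi : i = r
  · subst hi
    by_cases hj : j = c
    · subst hj
      simp only [if_true, true_or, Int.cast_neg, hneg]
    · simp only [if_true, true_or, if_neg hj]
  · by_cases hj : j = c
    · subst hj
      simp only [if_neg hi, if_true, or_true]
    · have h1 : ¬ (i = r ∨ j = c) := by tauto
      simp only [if_neg hi, if_neg hj, if_neg h1]
      push_cast
      rcases h with h | h
      · rw [h]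
        have : ∀ a b d : ZMod 2, a - 1 * b * d = a + b * d := by decide
        push_cast
        exact this _ _ _
      · rw [h]
        have : ∀ a b d : ZMod 2, a - (-1) * b * d = a + b * d := by decide
        push_cast
        exact this _ _ _

/-- two rows share a column of `T` -/
def KSh (X : Matrix R C ℤ) (x y : C) (a b : R) : Prop :=
  ∃ c, c ≠ x ∧ c ≠ y ∧ X a c ≠ 0 ∧ X b c ≠ 0

/-- there is a path of length `n` to the row `j` -/
def KPth (X : Matrix R C ℤ) (x y : C) (j : R) : ℕ → R → Prop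
  | 0, a => a = j
  | n + 1, a => ∃ r, KSh X x y a r ∧ KPth X x y j n r

/-- the conclusion -/
def KCon (D : Matrix R C (ZMod 2)) (x y : C) (i j : R) : Prop :=
  ∃ D', PivT {c | c ≠ x ∧ c ≠ y} D D' ∧ ∃ (r : R) (c₁ c₂ : C),
      c₁ ≠ x ∧ c₁ ≠ y ∧ c₂ ≠ x ∧ c₂ ≠ y ∧
      D' i x = 1 ∧ D' j x = 1 ∧ D' i y = 1 ∧ D' j y = 1 ∧
      D' i c₁ = 1 ∧ D' j c₁ = 0 ∧ D' r c₁ = 1 ∧ D' i c₂ = 0 ∧ D' j c₂ = 1 ∧ D' r c₂ = 1 ∧
      D' r x ≠ D' r y

theorem key_path {X X' : Matrix R C ℤ} {x y : C} {i j r1 : R} {c2 : C} {m : ℕ}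
    (hX' : X' = pivZ X r1 c2) (h2 : X r1 c2 ≠ 0)
    (hsh : KSh X x y i r1) (hmin : ∀ l < m + 2, ¬ KPth X x y j l i) :
    ∀ m', m' ≤ m → ∀ a, KPth X x y j m' a → KPth X' x y j m' a := by
  intro m'
  induction m' with
  | zero => exact fun _ a h => h
  | succ m' ih =>
    rintro hm a ⟨r, ⟨d, hdx, hdy, had, hrd⟩, hp⟩
    have h0 : X r1 d = 0 := by
      by_contra hne
      exact hmin (m' + 2) (by omega) ⟨r1, hsh, r, ⟨d, hdx, hdy, hne, hrd⟩, hp⟩
    have hd2 : d ≠ c2 := fun h => h2 (by rw [← h]; exact h0)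
    have key : ∀ b, X b d ≠ 0 → X' b d ≠ 0 := by
      intro b hb
      have hb1 : b ≠ r1 := fun h => hb (by rw [h]; exact h0)
      rw [hX']
      simp only [pivZ, if_neg hb1, if_neg hd2, h0, mul_zero, sub_zero]
      exact hb
    exact ⟨r, ⟨d, hdx, hdy, key a had, key r hrd⟩, ih (by omega) r hp⟩

theorem key_main (x y : C) (hxy : x ≠ y) (i j : R) (n : ℕ) : ∀ X : Matrix R C ℤ,
    (delCol X x).IsTotallyUnimodular → (delCol X y).IsTotallyUnimodular →
    X i x ≠ 0 → X i y ≠ 0 → X j x ≠ 0 → X j y ≠ 0 →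
    X i x * X j y = - (X j x * X i y) → KPth X x y j n i → KCon (red X) x y i j := by
  induction n using Nat.strong_induction_on with
  | _ n ih =>
    intro X hx hy hi hi' hj hj' hbad hp
    have hent := key_entry hxy hx hy
    have hpm : ∀ r c, X r c ≠ 0 → X r c = 1 ∨ X r c = -1 := by
      intro r c h
      rcases hent r c with h' | h'
      · exact absurd h' h
      · exact h'
    by_cases hshort : ∃ l < n, KPth X x y j l i
    · obtain ⟨l, hl, hp'⟩ := hshort
      exact ih l hl X hx hy hi hi' hj hj' hbad hp'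
    have hmin : ∀ l < n, ¬ KPth X x y j l i := by
      intro l hl h
      exact hshort ⟨l, hl, h⟩
    have e1 := hpm _ _ hi
    have e2 := hpm _ _ hi'
    have e3 := hpm _ _ hj
    have e4 := hpm _ _ hj'
    match n, hp with
    | 0, hp =>
      exfalso
      have h : i = j := hp
      subst h
      rcases e1 with h1 | h1 <;> rcases e2 with h2 | h2 <;> rw [h1, h2] at hbad <;>
        norm_num at hbad
    | 1, hp =>
      exfalso
      obtain ⟨r, ⟨c, hcx, hcy, h1, h2⟩, h3⟩ := hp
      have h : r = j := h3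
      subst h
      have m1 := key_minor2 hy i r (c := x) (d := c) hxy hcy
      have m2 := key_minor2 hx i r (c := y) (d := c) hxy.symm hcx
      have e5 := hpm _ _ h1
      have e6 := hpm _ _ h2
      rcases e1 with h1 | h1 <;> rcases e2 with h2 | h2 <;> rcases e3 with h3 | h3 <;>
        rcases e4 with h4 | h4 <;> rcases e5 with h5 | h5 <;> rcases e6 with h6 | h6 <;>
        rw [h1, h3, h5, h6] at m1 <;> rw [h2, h4, h5, h6] at m2 <;>
        rw [h1, h2, h3, h4] at hbad <;> omega
    | 2, hp =>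
      obtain ⟨r, ⟨c1, hc1x, hc1y, h1, h2⟩, r', ⟨c2, hc2x, hc2y, h3, h4⟩, h5⟩ := hp
      have h : r' = j := h5
      subst h
      have z1 : X r' c1 = 0 := by
        by_contra hne
        exact hmin 1 (by omega) ⟨r', ⟨c1, hc1x, hc1y, h1, hne⟩, rfl⟩
      have z2 : X i c2 = 0 := by
        by_contra hne
        exact hmin 1 (by omega) ⟨r', ⟨c2, hc2x, hc2y, hne, h4⟩, rfl⟩
      have e5 := hpm _ _ h1
      have e6 := hpm _ _ h2
      have e7 := hpm _ _ h3
      have e8 := hpm _ _ h4
      have hone : ∀ a b, (X a b = 1 ∨ X a b = -1) → red X a b = 1 := by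
        intro a b h
        rcases h with h | h <;> simp only [red, h] <;> decide
      have hzero : ∀ a b, X a b = 0 → red X a b = 0 := by
        intro a b h
        simp only [red, h]
        decide
      refine ⟨red X, PivT.refl, r, c1, c2, hc1x, hc1y, hc2x, hc2y, hone _ _ e1, hone _ _ e3,
        hone _ _ e2, hone _ _ e4, hone _ _ e5, hzero _ _ z1, hone _ _ e6, hzero _ _ z2,
        hone _ _ e8, hone _ _ e7, ?_⟩
      -- products
      have prod : ∀ z w : C, z ≠ w → c1 ≠ w → c2 ≠ w → (delCol X w).IsTotallyUnimodular →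
          (X i z = 1 ∨ X i z = -1) → (X r' z = 1 ∨ X r' z = -1) →
          (X r z ≠ 0 → X i z * X r' z = X i c1 * X r c1 * (X r' c2 * X r c2)) ∧
          (X r z = 0 → X i z * X r' z = - (X i c1 * X r c1 * (X r' c2 * X r c2))) := by
        intro z w hzw h1w h2w hw f1 f2
        constructor
        · intro h0
          have f3 := hpm _ _ h0
          have m1 := key_minor2 hw i r (c := z) (d := c1) hzw h1w
          have m2 := key_minor2 hw r' r (c := z) (d := c2) hzw h2w
          have k1 : X i z = X i c1 * X r c1 * X r z := by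
            rcases f1 with g1 | g1 <;> rcases f3 with g3 | g3 <;> rcases e5 with g5 | g5 <;>
              rcases e6 with g6 | g6 <;> rw [g1, g3, g5, g6] at m1 <;>
              rw [g1, g3, g5, g6] <;> omega
          have k2 : X r' z = X r' c2 * X r c2 * X r z := by
            rcases f2 with g1 | g1 <;> rcases f3 with g3 | g3 <;> rcases e7 with g5 | g5 <;>
              rcases e8 with g6 | g6 <;> rw [g1, g3, g5, g6] at m2 <;>
              rw [g1, g3, g5, g6] <;> omega
          have k3 : X r z * X r z = 1 := by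
            rcases f3 with g3 | g3 <;> rw [g3] <;> norm_num
          rw [k1, k2]
          linear_combination (X i c1 * X r c1 * (X r' c2 * X r c2)) * k3
        · intro h0
          obtain ⟨s, hs, m1⟩ := key_minor3 hw i r' r (c := z) (d := c1) (e := c2) hzw h1w h2w
          rw [z1, z2, h0] at m1
          rcases f1 with g1 | g1 <;> rcases f2 with g2 | g2 <;> rcases e5 with g5 | g5 <;>
            rcases e6 with g6 | g6 <;> rcases e7 with g7 | g7 <;> rcases e8 with g8 | g8 <;>
            rw [g1, g2, g5, g6, g7, g8] at m1 <;> rw [g1, g2, g5, g6, g7, g8] <;> omega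
      have px := prod x y hxy hc1y hc2y hy e1 e3
      have py := prod y x hxy.symm hc1x hc2x hx e2 e4
      have hb2 : X i x * X r' x = - (X i y * X r' y) := by
        rcases e1 with g1 | g1 <;> rcases e2 with g2 | g2 <;> rcases e3 with g3 | g3 <;>
          rcases e4 with g4 | g4 <;> rw [g1, g2, g3, g4] at hbad ⊢ <;> omega
      have hQ : X i c1 * X r c1 * (X r' c2 * X r c2) ≠ 0 :=
        mul_ne_zero (mul_ne_zero h1 h2) (mul_ne_zero h4 h3)
      intro heq
      by_cases hx0 : X r x = 0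
      · by_cases hy0 : X r y = 0
        · have k1 := px.2 hx0
          have k2 := py.2 hy0
          rw [k1, k2] at hb2
          omega
        · rw [hzero _ _ hx0, hone _ _ (hpm _ _ hy0)] at heq
          exact absurd heq (by decide)
      · by_cases hy0 : X r y = 0
        · rw [hzero _ _ hy0, hone _ _ (hpm _ _ hx0)] at heq
          exact absurd heq (by decide)
        · have k1 := px.1 hx0
          have k2 := py.1 hy0
          rw [k1, k2] at hb2
          omega
    | m + 3, hp =>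
      obtain ⟨r1, ⟨c1, hc1x, hc1y, h1, h2⟩, r2, ⟨c2, hc2x, hc2y, h3, h4⟩, hp2⟩ := hp
      have z1 : X r2 c1 = 0 := by
        by_contra hne
        exact hmin (m + 2) (by omega) ⟨r2, ⟨c1, hc1x, hc1y, h1, hne⟩, hp2⟩
      have z2 : X i c2 = 0 := by
        by_contra hne
        exact hmin (m + 2) (by omega) ⟨r2, ⟨c2, hc2x, hc2y, hne, h4⟩, hp2⟩
      have z3 : X j c2 = 0 := by
        by_contra hne
        exact hmin 2 (by omega) ⟨r1, ⟨c1, hc1x, hc1y, h1, h2⟩, j, ⟨c2, hc2x, hc2y, h3, hne⟩, rfl⟩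
      have hpiv := hpm _ _ h3
      have hir : i ≠ r1 := fun h => h3 (by rw [← h]; exact z2)
      have hjr : j ≠ r1 := fun h => h3 (by rw [← h]; exact z3)
      have hrr : r2 ≠ r1 := fun h => h2 (by rw [← h]; exact z1)
      have h12 : c1 ≠ c2 := fun h => h1 (by rw [h]; exact z2)
      -- rows `i` and `j` are unchanged
      have row : ∀ a, a ≠ r1 → X a c2 = 0 → ∀ c, pivZ X r1 c2 a c = X a c := by
        intro a ha ha2 c
        simp only [pivZ, if_neg ha]
        by_cases hc : c = c2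
        · rw [if_pos hc, hc]
        · rw [if_neg hc, ha2]
          ring
      have ri := row i hir z2
      have rj := row j hjr z3
      have hsh' : KSh (pivZ X r1 c2) x y i r2 := by
        refine ⟨c1, hc1x, hc1y, by rw [ri]; exact h1, ?_⟩
        simp only [pivZ, if_neg hrr, if_neg h12, z1, zero_sub]
        exact neg_ne_zero.2 (mul_ne_zero (mul_ne_zero h3 h4) h2)
      have hp' : KPth (pivZ X r1 c2) x y j (m + 1) r2 :=
        key_path (m := m + 1) rfl h3 ⟨c1, hc1x, hc1y, h1, h2⟩ hmin (m + 1) le_rfl r2 hp2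
      have tu : ∀ w, c2 ≠ w → (delCol X w).IsTotallyUnimodular →
          (delCol (pivZ X r1 c2) w).IsTotallyUnimodular := by
        intro w hw h
        rw [key_delCol X r1 c2 w hw]
        exact pivZ_tu _ h r1 ⟨c2, hw⟩ hpiv
      obtain ⟨D', hD', hrest⟩ := ih (m + 2) (by omega) (pivZ X r1 c2) (tu x hc2x hx)
        (tu y hc2y hy) (by rw [ri]; exact hi) (by rw [ri]; exact hi') (by rw [rj]; exact hj)
        (by rw [rj]; exact hj') (by rw [ri, ri, rj, rj]; exact hbad) ⟨r2, hsh', hp'⟩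
      refine ⟨D', ?_, hrest⟩
      rw [key_red hpiv] at hD'
      refine key_trans (PivT.step _ r1 c2 PivT.refl ⟨hc2x, hc2y⟩ ?_) hD'
      rcases hpiv with h | h <;> simp only [red, h] <;> decide

theorem key [Finite R] (X : Matrix R C ℤ) (x y : C) (hxy : x ≠ y)
    (hx : (delCol X x).IsTotallyUnimodular) (hy : (delCol X y).IsTotallyUnimodular) (i j : R)
    (hi : X i x ≠ 0) (hi' : X i y ≠ 0) (hj : X j x ≠ 0) (hj' : X j y ≠ 0)
    (hbad : X i x * X j y = - (X j x * X i y))
    (hl : Linked (red X) {c | c ≠ x ∧ c ≠ y} i j) :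
    ∃ D', PivT {c | c ≠ x ∧ c ≠ y} (red X) D' ∧ ∃ (r : R) (c₁ c₂ : C),
      c₁ ≠ x ∧ c₁ ≠ y ∧ c₂ ≠ x ∧ c₂ ≠ y ∧
      D' i x = 1 ∧ D' j x = 1 ∧ D' i y = 1 ∧ D' j y = 1 ∧
      D' i c₁ = 1 ∧ D' j c₁ = 0 ∧ D' r c₁ = 1 ∧ D' i c₂ = 0 ∧ D' j c₂ = 1 ∧ D' r c₂ = 1 ∧
      D' r x ≠ D' r y := by
  have hn : ∃ n, KPth X x y j n i := by
    have hne : ∀ a c, red X a c ≠ 0 → X a c ≠ 0 := by
      intro a c h h'
      apply h
      simp only [red, h']
      decide
    unfold Linked at hl
    clear hi hi' hbad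
    induction hl using Relation.ReflTransGen.head_induction_on with
    | refl => exact ⟨0, rfl⟩
    | head h _ ih =>
      obtain ⟨c, hc, h1, h2⟩ := h
      obtain ⟨n, hn⟩ := ih
      exact ⟨n + 1, _, ⟨c, hc.1, hc.2, hne _ _ h1, hne _ _ h2⟩, hn⟩
  obtain ⟨n, hn⟩ := hn
  exact key_main x y hxy i j n X hx hy hi hi' hj hj' hbad hn

end Pool.Agent.Helper43_EOR
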