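import Mathlib
import Pool.Agent.Helper43_EOR.T2k

set_option autoImplicit false

namespace Pool.Agent.Helper43_EOR

variable {R C : Type*} [DecidableEq R] [DecidableEq C]

/-- a sign -/
def CamSgn (a : ℤ) : Prop := a = 1 ∨ a = -1

theorem CamSgn.mul {a b : ℤ} (ha : CamSgn a) (hb : CamSgn b) : CamSgn (a * b) := by
  rcases ha with rfl | rfl <;> rcases hb with rfl | rfl <;> simp [CamSgn]

theorem CamSgn.sq {a : ℤ} (ha : CamSgn a) : a * a = 1 := by
  rcases ha with rfl | rfl <;> norm_num

theorem CamSgn.red {a : ℤ} (ha : CamSgn a) : ((a : ℤ) : ZMod 2) = 1 := by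
  rcases ha with rfl | rfl <;> decide

theorem cam_prod {ι : Type*} (s : Finset ι) (f : ι → ℤ) (h : ∀ i, CamSgn (f i)) :
    CamSgn (∏ i ∈ s, f i) := by
  classical
  induction s using Finset.induction_on with
  | empty => left; simp
  | insert a s ha ih => rw [Finset.prod_insert ha]; exact (h a).mul ih

theorem cam_range {a b : ℤ} (ha : CamSgn a) (hb : b ∈ Set.range SignType.cast) :
    a * b ∈ Set.range (SignType.cast : SignType → ℤ) := by
  obtain ⟨s, rfl⟩ := hb
  rcases ha with rfl | rfl
  · exact ⟨s, by simp⟩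
  · refine ⟨-s, ?_⟩
    cases s <;> rfl

theorem cam_scale {R C : Type*} (X : Matrix R C ℤ) (hX : X.IsTotallyUnimodular)
    (ρ : R → ℤ) (κ : C → ℤ) (hρ : ∀ i, CamSgn (ρ i)) (hκ : ∀ j, CamSgn (κ j)) :
    (Matrix.of fun i j => ρ i * κ j * X i j : Matrix R C ℤ).IsTotallyUnimodular := by
  intro k f g hf hg
  have h1 : (Matrix.of fun i j => ρ i * κ j * X i j : Matrix R C ℤ).submatrix f g =
      Matrix.of (fun i j => ρ (f i) * (Matrix.of (fun i j => κ (g j) * (X.submatrix f g) i j)) i j)
      := by
    ext i j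
    simp only [Matrix.submatrix_apply, Matrix.of_apply]
    ring
  rw [h1, Matrix.det_mul_column (fun i => ρ (f i)), Matrix.det_mul_row (fun j => κ (g j))]
  exact cam_range (cam_prod _ _ (fun i => hρ (f i)))
    (cam_range (cam_prod _ _ (fun i => hκ (g i))) (hX k f g hf hg))

theorem cam_entry {a : ℤ} (ha : a ∈ Set.range (SignType.cast : SignType → ℤ)) (h0 : a ≠ 0) :
    CamSgn a := by
  obtain ⟨s, rfl⟩ := ha
  cases s
  · exact absurd rfl h0
  · right; rfl
  · left; rfl

theorem cam_entry_red {a b : ℤ} (ha : a ∈ Set.range (SignType.cast : SignType → ℤ))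
    (hb : b ∈ Set.range (SignType.cast : SignType → ℤ))
    (h : ((a : ℤ) : ZMod 2) = ((b : ℤ) : ZMod 2)) : a = 0 ↔ b = 0 := by
  obtain ⟨s, rfl⟩ := ha
  obtain ⟨t, rfl⟩ := hb
  revert h
  cases s <;> cases t <;> decide

/-- pivots in other columns keep two equal columns equal -/
theorem cam_pivT (D D' : Matrix R C (ZMod 2)) (x y : C)
    (h : ∀ i, D i x = D i y) (hD : PivT {c | c ≠ x ∧ c ≠ y} D D') : ∀ i, D' i x = D' i y := by
  induction hD with
  | refl => exact h
  | step D'' r c hD'' hc h1 ih =>
    intro i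
    have hcx : ¬ (x = c) := fun e => hc.1 e.symm
    have hcy : ¬ (y = c) := fun e => hc.2 e.symm
    simp only [piv2, hcx, hcy, or_false]
    rw [ih i, ih r]

/-- one column more -/
theorem cam_link [Finite R] (T : Finset C) (c : C) (X X' : Matrix R C ℤ)
    (hX : X.IsTotallyUnimodular) (hX' : X'.IsTotallyUnimodular) (h : red X = red X')
    (hT : ∀ i, ∀ j ∈ T, X' i j = X i j) (i k : R) (hi : X i c ≠ 0) (hk : X k c ≠ 0)
    (hl : Linked (red X) (T : Set C) i k) : X i c * X' i c = X k c * X' k c := by
  by_contra hne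
  have hred : ∀ i j, ((X i j : ℤ) : ZMod 2) = ((X' i j : ℤ) : ZMod 2) := fun i j =>
    congrFun (congrFun h i) j
  have hi' : X' i c ≠ 0 := fun e => hi ((cam_entry_red (hX.apply i c) (hX'.apply i c)
    (hred i c)).2 e)
  have hk' : X' k c ≠ 0 := fun e => hk ((cam_entry_red (hX.apply k c) (hX'.apply k c)
    (hred k c)).2 e)
  have s1 := cam_entry (hX.apply i c) hi
  have s2 := cam_entry (hX.apply k c) hk
  have s3 := cam_entry (hX'.apply i c) hi'
  have s4 := cam_entry (hX'.apply k c) hk'
  -- the matrix with the two columns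
  let W : Matrix R (Option (Option {j // j ∈ T})) ℤ := fun i o =>
    match o with
    | none => X' i c
    | some none => X i c
    | some (some j) => X i j.1
  let x : Option (Option {j // j ∈ T}) := some none
  let y : Option (Option {j // j ∈ T}) := none
  have hxy : x ≠ y := by simp [x, y]
  have hWx : (delCol W x).IsTotallyUnimodular := by
    have : delCol W x = X'.submatrix id (fun o : {o // o ≠ x} =>
        match o.1 with
        | none => c
        | some none => c
        | some (some j) => j.1) := by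
      ext i o
      obtain ⟨o, ho⟩ := o
      rcases o with _ | _ | j
      · rfl
      · exact absurd rfl ho
      · simp only [delCol, Matrix.submatrix_apply, W, id]
        exact (hT i j.1 j.2).symm
    rw [this]
    exact hX'.submatrix _ _
  have hWy : (delCol W y).IsTotallyUnimodular := by
    have : delCol W y = X.submatrix id (fun o : {o // o ≠ y} =>
        match o.1 with
        | none => c
        | some none => c
        | some (some j) => j.1) := by
      ext i o
      obtain ⟨o, ho⟩ := o
      rcases o with _ | _ | j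
      · exact absurd rfl ho
      · rfl
      · rfl
    rw [this]
    exact hX.submatrix _ _
  have hbad : W i x * W k y = - (W k x * W i y) := by
    change X i c * X' k c = - (X k c * X' i c)
    revert hne
    rcases s1 with e1 | e1 <;> rcases s2 with e2 | e2 <;> rcases s3 with e3 | e3 <;>
      rcases s4 with e4 | e4 <;> rw [e1, e2, e3, e4] <;> norm_num
  have hlW : Linked (red W) {c | c ≠ x ∧ c ≠ y} i k := by
    have hmono : (fun a b : R => ∃ c ∈ (T : Set C), red X a c ≠ 0 ∧ red X b c ≠ 0) ≤
        (fun a b : R => ∃ c ∈ {c | c ≠ x ∧ c ≠ y}, red W a c ≠ 0 ∧ red W b c ≠ 0) := by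
      rintro a b ⟨j, hj, h1, h2⟩
      exact ⟨some (some ⟨j, hj⟩), ⟨by simp [x], by simp [y]⟩, h1, h2⟩
    exact Relation.ReflTransGen.mono hmono _ _ hl
  obtain ⟨D', hD', r, _, _, -, -, -, -, -, -, -, -, -, -, -, -, -, -, hr⟩ :=
    key W x y hxy hWx hWy i k hi hi' hk hk' hbad hlW
  exact hr (cam_pivT (red W) D' x y (fun a => hred a c) hD' r)

theorem cam_linked_symm (D : Matrix R C (ZMod 2)) (T : Set C) {i k : R} (h : Linked D T i k) :
    Linked D T k i := by
  unfold Linked at h ⊢
  induction h with
  | refl => exact Relation.ReflTransGen.refl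
  | tail _ hbc ih =>
    obtain ⟨c, hc, h1, h2⟩ := hbc
    exact Relation.ReflTransGen.head ⟨c, hc, h2, h1⟩ ih

theorem cam_step [Finite R] (T : Finset C) (c : C) (hcT : c ∉ T) (X X' : Matrix R C ℤ)
    (hX : X.IsTotallyUnimodular) (hX' : X'.IsTotallyUnimodular) (h : red X = red X')
    (hT : ∀ i, ∀ j ∈ T, X' i j = X i j) :
    ∃ (ρ : R → ℤ) (κ : C → ℤ), (∀ i, CamSgn (ρ i)) ∧ (∀ j, CamSgn (κ j)) ∧
      ∀ i, ∀ j ∈ insert c T, X' i j = ρ i * κ j * X i j := by
  classical
  have hred : ∀ i j, ((X i j : ℤ) : ZMod 2) = ((X' i j : ℤ) : ZMod 2) := fun i j =>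
    congrFun (congrFun h i) j
  have hsX : ∀ i j, X i j ≠ 0 → CamSgn (X i j) := fun i j h0 => cam_entry (hX.apply i j) h0
  have hzero : ∀ i j, X i j = 0 ↔ X' i j = 0 := fun i j =>
    cam_entry_red (hX.apply i j) (hX'.apply i j) (hred i j)
  have hsX' : ∀ i j, X i j ≠ 0 → CamSgn (X' i j) := fun i j h0 =>
    cam_entry (hX'.apply i j) (fun e => h0 ((hzero i j).2 e))
  have hredne : ∀ i j, X i j ≠ 0 → red X i j ≠ 0 := by
    intro i j h0
    have : red X i j = 1 := (hsX i j h0).red
    rw [this]; decide
  let L : R → R → Prop := Linked (red X) (T : Set C)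
  have hLs : ∀ {a b}, L a b → L b a := fun hab => cam_linked_symm _ _ hab
  have hLt : ∀ {a b d}, L a b → L b d → L a d := fun hab hbd =>
    Relation.ReflTransGen.trans hab hbd
  let ρ : R → ℤ := fun i =>
    if hk : ∃ k, L i k ∧ X k c ≠ 0 then X hk.choose c * X' hk.choose c else 1
  have hρ1 : ∀ i k, L i k → X k c ≠ 0 → ρ i = X k c * X' k c := by
    intro i k h1 h2
    have hex : ∃ k, L i k ∧ X k c ≠ 0 := ⟨k, h1, h2⟩
    have h3 : ρ i = X hex.choose c * X' hex.choose c := dif_pos hex
    rw [h3]
    have h4 := hex.choose_spec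
    exact cam_link T c X X' hX hX' h hT _ _ h4.2 h2 (hLt (hLs h4.1) h1)
  have hρ2 : ∀ i i', L i i' → ρ i = ρ i' := by
    intro i i' h1
    by_cases hex : ∃ k, L i k ∧ X k c ≠ 0
    · obtain ⟨k, h2, h3⟩ := hex
      rw [hρ1 i k h2 h3, hρ1 i' k (hLt (hLs h1) h2) h3]
    · have hex' : ¬ ∃ k, L i' k ∧ X k c ≠ 0 := by
        rintro ⟨k, h2, h3⟩
        exact hex ⟨k, hLt h1 h2, h3⟩
      have h3 : ρ i = 1 := dif_neg hex
      have h4 : ρ i' = 1 := dif_neg hex'
      rw [h3, h4]
  have hρs : ∀ i, CamSgn (ρ i) := by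
    intro i
    by_cases hex : ∃ k, L i k ∧ X k c ≠ 0
    · obtain ⟨k, h2, h3⟩ := hex
      rw [hρ1 i k h2 h3]
      exact (hsX k c h3).mul (hsX' k c h3)
    · have h3 : ρ i = 1 := dif_neg hex
      rw [h3]; left; rfl
  let κ : C → ℤ := fun j =>
    if j = c then 1 else if hi : ∃ i, X i j ≠ 0 then ρ hi.choose else 1
  refine ⟨ρ, κ, hρs, ?_, ?_⟩
  · intro j
    by_cases hjc : j = c
    · have : κ j = 1 := if_pos hjc
      rw [this]; left; rfl
    · by_cases hi : ∃ i, X i j ≠ 0
      · have : κ j = ρ hi.choose := by simp only [κ, if_neg hjc, dif_pos hi]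
        rw [this]; exact hρs _
      · have : κ j = 1 := by simp only [κ, if_neg hjc, dif_neg hi]
        rw [this]; left; rfl
  · intro i j hj
    rw [Finset.mem_insert] at hj
    by_cases hjc : j = c
    · subst hjc
      have h1 : κ j = 1 := if_pos rfl
      rw [h1, mul_one]
      by_cases h0 : X i j = 0
      · rw [h0, mul_zero]; exact (hzero i j).1 h0
      · rw [hρ1 i i Relation.ReflTransGen.refl h0]
        have := (hsX i j h0).sq
        calc X' i j = (X i j * X i j) * X' i j := by rw [this, one_mul]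
          _ = _ := by ring
    · have hjT : j ∈ T := hj.resolve_left hjc
      by_cases h0 : X i j = 0
      · rw [h0, mul_zero]; exact (hzero i j).1 h0
      · have hi : ∃ i, X i j ≠ 0 := ⟨i, h0⟩
        have h1 : κ j = ρ hi.choose := by simp only [κ, if_neg hjc, dif_pos hi]
        have h2 : L i hi.choose := Relation.ReflTransGen.single
          ⟨j, hjT, hredne i j h0, hredne _ j hi.choose_spec⟩
        rw [h1, ← hρ2 _ _ h2, (hρs i).sq, one_mul]
        exact hT i j hjT

theorem cam_all [Finite R] (T : Finset C) (X X' : Matrix R C ℤ)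
    (hX : X.IsTotallyUnimodular) (hX' : X'.IsTotallyUnimodular) (h : red X = red X') :
    ∃ (ρ : R → ℤ) (κ : C → ℤ), (∀ i, CamSgn (ρ i)) ∧ (∀ j, CamSgn (κ j)) ∧
      ∀ i, ∀ j ∈ T, X' i j = ρ i * κ j * X i j := by
  induction T using Finset.induction_on with
  | empty => exact ⟨fun _ => 1, fun _ => 1, fun _ => Or.inl rfl, fun _ => Or.inl rfl, by simp⟩
  | insert c T hc ih =>
    obtain ⟨ρ, κ, hρ, hκ, hT⟩ := ih
    have hX1 := cam_scale X hX ρ κ hρ hκ
    have hred1 : red (Matrix.of fun i j => ρ i * κ j * X i j : Matrix R C ℤ) = red X' := by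
      rw [← h]
      funext i j
      simp only [red, Matrix.of_apply, Int.cast_mul, (hρ i).red, (hκ j).red, one_mul]
    obtain ⟨ρ', κ', hρ', hκ', hT'⟩ := cam_step T c hc _ X' hX1 hX' hred1 hT
    refine ⟨fun i => ρ' i * ρ i, fun j => κ' j * κ j, fun i => (hρ' i).mul (hρ i),
      fun j => (hκ' j).mul (hκ j), ?_⟩
    intro i j hj
    rw [hT' i j hj]
    simp only [Matrix.of_apply]
    ring

/-
TARGET `camion`: two totally unimodular signings of the same matrix differ by scaling rows and
columns by signs. PLAIN WORDS. Induction on the number of columns (for all X, X'). No columns: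
trivial. Otherwise remove a column c. By induction the matrices without column c differ by
signs; extending the scalings by κ c = 1 and rescaling X (scaling rows and columns by signs keeps
total unimodularity, and keeps red), we may assume X i j = X' i j for all j ≠ c.
Claim: if X i c ≠ 0, X k c ≠ 0 and i, k are linked through the columns ≠ c, then
X i c * X' i c = X k c * X' k c. Otherwise apply `key` to the matrix W with index type
`Option C` of columns (none = an extra column equal to the column c of X', x = some c, y = none,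
the others as in X = X'): the matrix W without x is X' up to reindexing and the one without y is X;
the 2 × 2 matrix of rows i, k, columns x, y satisfies hbad. In `key` the columns x and y of red W are
equal and pivots in other columns keep them equal (induction on PivT), contradicting
D' r x ≠ D' r y.
So the sign ε i = X i c * X' i c (for rows with X i c ≠ 0) is constant on linked classes (through
the columns ≠ c) of rows. Define ρ i = ε k if i is linked with some k with X k c ≠ 0, else 1, and for
a column j ≠ c with some nonzero entry at a row i: κ j = ρ i (well defined: all rows with a nonzero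
entry in column j are linked), κ j = 1 for zero columns, κ c = 1. Then X' i j = ρ i κ j X i j.
-/
theorem camion [Finite R] [Finite C] (X X' : Matrix R C ℤ) (hX : X.IsTotallyUnimodular)
    (hX' : X'.IsTotallyUnimodular) (h : red X = red X') :
    ∃ (ρ : R → ℤ) (κ : C → ℤ), (∀ i, ρ i = 1 ∨ ρ i = -1) ∧ (∀ j, κ j = 1 ∨ κ j = -1) ∧
      ∀ i j, X' i j = ρ i * κ j * X i j := by
  have : Fintype C := Fintype.ofFinite C
  obtain ⟨ρ, κ, hρ, hκ, hT⟩ := cam_all Finset.univ X X' hX hX' h
  exact ⟨ρ, κ, hρ, hκ, fun i j => hT i j (Finset.mem_univ j)⟩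

end Pool.Agent.Helper43_EOR
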