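import Mathlib
import Pool.Agent.Helper43_EOR.T2d

set_option autoImplicit false

namespace Pool.Agent.Helper43_EOR

variable {R C : Type*} [DecidableEq R] [DecidableEq C]

/-
TARGET `gerards`. PLAIN WORDS. Call (X, x, y) good if it satisfies hx, hy, hfree, hlink. Let
T = {c | c ≠ x ∧ c ≠ y}.
(a) If (X, x, y) is good, c ∈ T and X r c ≠ 0 then (pivZ X r c, x, y) is good: hx, hy by `pivZ_tu`
    (pivZ commutes with deleting a column other than c; entries are 0, ±1); red (pivZ X r c) =
    piv2 (red X) r c, so Free is inherited (PivT univ is transitive); hlink: let D = red X,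
    D' = piv2 D r c. If S is a set of rows closed under sharing a column of T in D', then S is
    closed under it in D: D = piv2 D' r c, and, say r ∈ S or r ∉ S; let S' be the one of S, Sᶜ that
    contains r. Every row k ∉ S' has D' k c = 0 (as D' r c = 1), hence row k of D equals row k of
    D'; and for k ∈ S', D k m = D' k m + D' k c * D' r m (m ≠ c): if D k m ≠ 0 then D' k m ≠ 0 or
    D' r m ≠ 0 with k, r ∈ S', so a row k' ∉ S' with D k' m = D' k' m ≠ 0 would share column m in D'
    with a row of S', impossible. So all rows linked in D implies all rows linked in D'.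
(b) Suppose some good (X, x, y) is not totally unimodular. Take a square submatrix of determinant
    not in {0, 1, -1} (f : Fin k → R, g : Fin k → C injective) of smallest order k over all good
    matrices with the same x, y. k ≥ 2 as the entries are 0, ±1. Both x and y are among the
    columns g (else the submatrix lies in a totally unimodular matrix). If k ≥ 3, some column g m0
    is in T; it has a nonzero entry X (f l0) (g m0) (determinant ≠ 0). Pivot at (f l0, g m0): the
    submatrix of pivZ X _ _ with rows f l, l ≠ l0 and columns g m, m ≠ m0 has determinant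
    ± the old one (Schur complement), contradicting minimality. So k = 2: rows i, j, columns x, y,
    all four entries nonzero and determinant ± 2 (entries are 0, ±1).
(c) Apply `key` (i, j are linked by hlink): D' is reached from red X by pivots, so by Free D' has no
    Fano submatrix. But rows i, j, r and columns x, y, c₁, c₂ of D' are: c₁ = (1,0,1),
    c₂ = (0,1,1), and x, y = (1,1,0), (1,1,1) in one of the two orders: after ordering the rows as
    (j, i, r) and columns as (c₁, c₂, the one of x, y with zero at r, the other), this is the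
    matrix 0111 / 1011 / 1101. Contradiction.
-/

theorem mem_range_sign (z : ℤ) :
    z ∈ Set.range (SignType.cast : SignType → ℤ) ↔ z = 0 ∨ z = 1 ∨ z = -1 := by
  constructor
  · rintro ⟨s, rfl⟩
    cases s <;> simp
  · rintro (rfl | rfl | rfl)
    · exact ⟨0, by simp⟩
    · exact ⟨1, by simp⟩
    · exact ⟨-1, by simp⟩

theorem det_pivot {n : ℕ} (X : Matrix R C ℤ) (f : Fin (n + 1) → R) (g : Fin (n + 1) → C)
    (hf : f.Injective) (hg : g.Injective) (l0 m0 : Fin (n + 1))
    (hε : X (f l0) (g m0) * X (f l0) (g m0) = 1) :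
    (X.submatrix f g).det = (-1) ^ ((l0 : ℕ) + (m0 : ℕ)) * X (f l0) (g m0) *
      ((pivZ X (f l0) (g m0)).submatrix (f ∘ l0.succAbove) (g ∘ m0.succAbove)).det := by
  let A : Matrix (Fin (n + 1)) (Fin (n + 1)) ℤ := X.submatrix f g
  let B : Matrix (Fin (n + 1)) (Fin (n + 1)) ℤ := fun i j =>
    if i = l0 then A l0 j else A i j - A l0 m0 * A i m0 * A l0 j
  have hAB : A.det = B.det := by
    refine Matrix.det_eq_of_forall_row_eq_smul_add_const
      (fun i => if i = l0 then 0 else A l0 m0 * A i m0) l0 (by simp) ?_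
    intro i j
    by_cases hi : i = l0
    · simp [B, hi]
    · simp [B, hi]
  have hcol : ∀ i, i ≠ l0 → B i m0 = 0 := by
    intro i hi
    have : A l0 m0 * A l0 m0 = 1 := hε
    simp only [B, if_neg hi]
    have e : A l0 m0 * A i m0 * A l0 m0 = A i m0 * (A l0 m0 * A l0 m0) := by ring
    rw [e, this, mul_one, sub_self]
  show A.det = _
  rw [hAB, Matrix.det_succ_column B m0, Finset.sum_eq_single l0]
  · have h1 : B l0 m0 = X (f l0) (g m0) := by simp [B, A]
    have h2 : B.submatrix l0.succAbove m0.succAbove =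
        (pivZ X (f l0) (g m0)).submatrix (f ∘ l0.succAbove) (g ∘ m0.succAbove) := by
      ext a b
      have ha : l0.succAbove a ≠ l0 := Fin.succAbove_ne l0 a
      have hb : m0.succAbove b ≠ m0 := Fin.succAbove_ne m0 b
      have ha' : f (l0.succAbove a) ≠ f l0 := fun h => ha (hf h)
      have hb' : g (m0.succAbove b) ≠ g m0 := fun h => hb (hg h)
      simp [B, A, pivZ, ha, ha', hb']
    rw [h1, h2]
  · intro i _ hi
    rw [hcol i hi]; ring
  · intro h; exact absurd (Finset.mem_univ _) h

/-- the hypotheses of the theorem -/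
structure Good (X : Matrix R C ℤ) (x y : C) : Prop where
  hx : (delCol X x).IsTotallyUnimodular
  hy : (delCol X y).IsTotallyUnimodular
  hfree : Free (red X)
  hlink : ∀ i j, Linked (red X) {c | c ≠ x ∧ c ≠ y} i j

theorem det_of_not_mem {X : Matrix R C ℤ} {x : C} (hx : (delCol X x).IsTotallyUnimodular)
    {k : ℕ} (f : Fin k → R) (g : Fin k → C) (hg : ∀ m, g m ≠ x) :
    (X.submatrix f g).det ∈ Set.range (SignType.cast : SignType → ℤ) := by
  rw [Matrix.isTotallyUnimodular_iff] at hx
  exact hx k f (fun m => ⟨g m, hg m⟩)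

theorem Good.entry {X : Matrix R C ℤ} {x y : C} (hxy : x ≠ y) (h : Good X x y) (r : R) (c : C) :
    X r c = 0 ∨ X r c = 1 ∨ X r c = -1 := by
  rw [← mem_range_sign]
  by_cases hc : c = x
  · have hc' : c ≠ y := hc ▸ hxy
    exact h.hy.apply r ⟨c, hc'⟩
  · exact h.hx.apply r ⟨c, hc⟩

theorem delCol_pivZ (X : Matrix R C ℤ) (x : C) (r : R) (c : C) (hc : c ≠ x) :
    delCol (pivZ X r c) x = pivZ (delCol X x) r ⟨c, hc⟩ := by
  ext i j
  simp only [delCol, Matrix.submatrix_apply, pivZ, id, Subtype.ext_iff]

theorem red_pivZ (X : Matrix R C ℤ) (r : R) (c : C) (h : X r c = 1 ∨ X r c = -1) :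
    red (pivZ X r c) = piv2 (red X) r c := by
  ext i j
  have neg1 : (-1 : ZMod 2) = 1 := by decide
  simp only [red, pivZ, piv2]
  by_cases hi : i = r
  · by_cases hj : j = c
    · rcases h with h | h
      · simp [hi, hj, h, neg1]
      · simp [hi, hj, h, neg1]
    · simp [hi, hj]
  · by_cases hj : j = c
    · simp [hi, hj]
    · rcases h with h | h
      · simp only [hi, hj, or_self, if_false, h]
        push_cast
        rw [sub_eq_add_neg, ← ZMod.neg_eq_self_mod_two (1 * (X i c : ZMod 2) * (X r j : ZMod 2)),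
          neg_neg]
        ring
      · simp only [hi, hj, or_self, if_false, h]
        push_cast
        ring

theorem red_one {X : Matrix R C ℤ} {r : R} {c : C} (h : X r c = 1 ∨ X r c = -1) :
    red X r c = 1 := by
  have neg1 : (-1 : ZMod 2) = 1 := by decide
  rcases h with h | h <;> simp [red, h, neg1]

theorem PivT.trans' {T : Set C} {D D' D'' : Matrix R C (ZMod 2)} (h : PivT T D D')
    (h' : PivT T D' D'') : PivT T D D'' := by
  induction h' with
  | refl => exact h
  | step E r c _ hc h1 ih => exact PivT.step E r c ih hc h1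

/-- closure of a set of rows under sharing a column of `T` -/
def Clo (D : Matrix R C (ZMod 2)) (T : Set C) (S : Set R) : Prop :=
  ∀ k k' m, m ∈ T → D k m ≠ 0 → D k' m ≠ 0 → k ∈ S → k' ∈ S

theorem clo_aux {D : Matrix R C (ZMod 2)} {T : Set C} {S : Set R} {r : R} {c : C} (hc : c ∈ T)
    (hrc : D r c = 1) (hS : Clo (piv2 D r c) T S) (hr : r ∈ S) {k k' : R} {m : C} (hm : m ∈ T)
    (h1 : D k m ≠ 0) (h2 : D k' m ≠ 0) (hk : k ∈ S) : k' ∈ S := by
  by_contra hk'
  have hk'r : k' ≠ r := fun h => hk' (h ▸ hr)
  have p0 : ∀ j, piv2 D r c r j = D r j := fun j => by simp [piv2]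
  have pc : ∀ i, piv2 D r c i c = D i c := fun i => by simp [piv2]
  have e1 : D k' c = 0 := by
    by_contra h0
    refine hk' (hS r k' c hc ?_ ?_ hr)
    · rw [p0, hrc]; exact one_ne_zero
    · rw [pc]; exact h0
  have e2 : piv2 D r c k' m = D k' m := by
    by_cases hmc : m = c
    · simp [piv2, hmc]
    · simp [piv2, hmc, hk'r, e1]
  have e2' : piv2 D r c k' m ≠ 0 := by rw [e2]; exact h2
  by_cases hkr : k = r
  · subst hkr
    exact hk' (hS k k' m hm (by rw [p0]; exact h1) e2' hr)
  · by_cases hmc : m = c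
    · subst hmc
      exact h2 e1
    · by_cases h3 : piv2 D r c k m = 0
      · have h4 : D r m ≠ 0 := by
          intro h5
          apply h1
          have : piv2 D r c k m = D k m := by simp [piv2, hkr, hmc, h5]
          rw [← this, h3]
        exact hk' (hS r k' m hm (by rw [p0]; exact h4) e2' hr)
      · exact hk' (hS k k' m hm h3 e2' hk)

theorem clo_pivot {D : Matrix R C (ZMod 2)} {T : Set C} {S : Set R} {r : R} {c : C} (hc : c ∈ T)
    (hrc : D r c = 1) (hS : Clo (piv2 D r c) T S) : Clo D T S := by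
  intro k k' m hm h1 h2 hk
  by_cases hr : r ∈ S
  · exact clo_aux hc hrc hS hr hm h1 h2 hk
  · by_contra hk'
    have hS' : Clo (piv2 D r c) T Sᶜ := by
      intro l l' m' hm' h3 h4 hl hl'
      exact hl (hS l' l m' hm' h4 h3 hl')
    exact clo_aux hc hrc hS' hr hm h2 h1 hk' hk

theorem link_pivot {D : Matrix R C (ZMod 2)} {T : Set C} {r : R} {c : C} (hc : c ∈ T)
    (hrc : D r c = 1) (h : ∀ i j, Linked D T i j) (i j : R) : Linked (piv2 D r c) T i j := by
  have hS : Clo (piv2 D r c) T {k | Linked (piv2 D r c) T i k} := by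
    intro k k' m hm h1 h2 hk
    exact Relation.ReflTransGen.tail hk ⟨m, hm, h1, h2⟩
  have hS' := clo_pivot hc hrc hS
  have key2 : ∀ k, Linked D T i k → k ∈ {k | Linked (piv2 D r c) T i k} := by
    intro k hk
    induction hk with
    | refl => exact Relation.ReflTransGen.refl
    | tail _ h2 ih =>
      obtain ⟨m, hm, h3, h4⟩ := h2
      exact hS' _ _ m hm h3 h4 ih
  exact key2 j (h i j)

theorem Good.pivot {X : Matrix R C ℤ} {x y : C} (hxy : x ≠ y) (h : Good X x y) (r : R) (c : C)
    (hcx : c ≠ x) (hcy : c ≠ y) (h0 : X r c ≠ 0) : Good (pivZ X r c) x y := by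
  have h1 : X r c = 1 ∨ X r c = -1 := by
    rcases h.entry hxy r c with h2 | h2
    · exact absurd h2 h0
    · exact h2
  refine ⟨?_, ?_, ?_, ?_⟩
  · rw [delCol_pivZ X x r c hcx]
    exact pivZ_tu _ h.hx _ _ h1
  · rw [delCol_pivZ X y r c hcy]
    exact pivZ_tu _ h.hy _ _ h1
  · rw [red_pivZ X r c h1]
    intro D' hD'
    exact h.hfree D' ((PivT.step (red X) r c PivT.refl (Set.mem_univ _) (red_one h1)).trans' hD')
  · rw [red_pivZ X r c h1]
    exact link_pivot ⟨hcx, hcy⟩ (red_one h1) h.hlink

theorem zmod2_cases (a : ZMod 2) : a = 0 ∨ a = 1 := by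
  revert a; decide

/-- the two by two case -/
theorem Good.two [Finite R] {X : Matrix R C ℤ} {x y : C} (hxy : x ≠ y) (h : Good X x y)
    (i j : R) (hi : X i x ≠ 0) (hi' : X i y ≠ 0) (hj : X j x ≠ 0) (hj' : X j y ≠ 0)
    (hbad : X i x * X j y = - (X j x * X i y)) : False := by
  obtain ⟨D', hD', r, c₁, c₂, -, -, -, -, a1, a2, a3, a4, b1, b2, b3, b4, b5, b6, hr⟩ :=
    key X x y hxy h.hx h.hy i j hi hi' hj hj' hbad (h.hlink i j)
  have hD'' : PivT Set.univ (red X) D' := by
    clear a1 a2 a3 a4 b1 b2 b3 b4 b5 b6 hr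
    induction hD' with
    | refl => exact PivT.refl
    | step E r c _ _ h1 ih => exact PivT.step E r c ih (Set.mem_univ _) h1
  apply (h.hfree D' hD'').1
  rcases zmod2_cases (D' r x) with h1 | h1
  · have h2 : D' r y = 1 := by
      rcases zmod2_cases (D' r y) with h2 | h2
      · exact absurd (h1.trans h2.symm) hr
      · exact h2
    refine ⟨![j, i, r], ![c₁, c₂, x, y], ?_⟩
    intro p q
    fin_cases p <;> fin_cases q <;> simp [*]
  · have h2 : D' r y = 0 := by
      rcases zmod2_cases (D' r y) with h2 | h2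
      · exact h2
      · exact absurd (h1.trans h2.symm) hr
    refine ⟨![j, i, r], ![c₁, c₂, y, x], ?_⟩
    intro p q
    fin_cases p <;> fin_cases q <;> simp [*]

theorem sign_two {a b c d : ℤ} (ha : a = 0 ∨ a = 1 ∨ a = -1) (hb : b = 0 ∨ b = 1 ∨ b = -1)
    (hc : c = 0 ∨ c = 1 ∨ c = -1) (hd : d = 0 ∨ d = 1 ∨ d = -1)
    (h : ¬ (a * d - b * c = 0 ∨ a * d - b * c = 1 ∨ a * d - b * c = -1)) :
    a ≠ 0 ∧ b ≠ 0 ∧ c ≠ 0 ∧ d ≠ 0 ∧ a * d = - (b * c) := by
  rcases ha with rfl | rfl | rfl <;> rcases hb with rfl | rfl | rfl <;>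
    rcases hc with rfl | rfl | rfl <;> rcases hd with rfl | rfl | rfl <;> simp_all

theorem good_det [Finite R] {x y : C} (hxy : x ≠ y) : ∀ (k : ℕ) (X : Matrix R C ℤ), Good X x y →
    ∀ (f : Fin k → R) (g : Fin k → C), f.Injective → g.Injective →
      (X.submatrix f g).det ∈ Set.range (SignType.cast : SignType → ℤ) := by
  intro k
  induction k with
  | zero =>
    intro X _ f g _ _
    rw [mem_range_sign]
    right; left
    exact Matrix.det_fin_zero
  | succ n ih =>
    intro X h f g hf hg
    by_cases hgx : ∀ m, g m ≠ x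
    · exact det_of_not_mem h.hx f g hgx
    by_cases hgy : ∀ m, g m ≠ y
    · exact det_of_not_mem h.hy f g hgy
    push Not at hgx hgy
    obtain ⟨mx, hmx⟩ := hgx
    obtain ⟨my, hmy⟩ := hgy
    have hmxy : mx ≠ my := by
      rintro rfl
      exact hxy (hmx.symm.trans hmy)
    by_cases hthird : ∃ m0, m0 ≠ mx ∧ m0 ≠ my
    · obtain ⟨m0, hm1, hm2⟩ := hthird
      have hcx : g m0 ≠ x := fun h1 => hm1 (hg (h1.trans hmx.symm))
      have hcy : g m0 ≠ y := fun h1 => hm2 (hg (h1.trans hmy.symm))
      by_cases hz : ∀ l, X (f l) (g m0) = 0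
      · have : (X.submatrix f g).det = 0 := by
          apply Matrix.det_eq_zero_of_column_eq_zero m0
          intro l
          exact hz l
        rw [this, mem_range_sign]
        exact Or.inl rfl
      · push Not at hz
        obtain ⟨l0, hl0⟩ := hz
        have h1 : X (f l0) (g m0) = 1 ∨ X (f l0) (g m0) = -1 := by
          rcases h.entry hxy (f l0) (g m0) with h2 | h2
          · exact absurd h2 hl0
          · exact h2
        have hsq : X (f l0) (g m0) * X (f l0) (g m0) = 1 := by
          rcases h1 with h1 | h1 <;> rw [h1] <;> norm_num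
        rw [det_pivot X f g hf hg l0 m0 hsq]
        have h3 := ih (pivZ X (f l0) (g m0)) (h.pivot hxy _ _ hcx hcy hl0)
          (f ∘ l0.succAbove) (g ∘ m0.succAbove)
          (hf.comp Fin.succAbove_right_injective) (hg.comp Fin.succAbove_right_injective)
        rw [mem_range_sign] at h3 ⊢
        rcases neg_one_pow_eq_or ℤ ((l0 : ℕ) + (m0 : ℕ)) with h4 | h4 <;>
          rcases h1 with h1 | h1 <;> rcases h3 with h3 | h3 | h3 <;> rw [h4, h1, h3] <;> norm_num
    · push Not at hthird
      -- now the order is two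
      have hn : n + 1 = 2 := by
        have hcard : (Finset.univ : Finset (Fin (n + 1))) = {mx, my} := by
          ext m
          simp only [Finset.mem_univ, Finset.mem_insert, Finset.mem_singleton, true_iff]
          by_cases hm : m = mx
          · exact Or.inl hm
          · exact Or.inr (hthird m hm)
        have := congrArg Finset.card hcard
        rw [Finset.card_univ, Fintype.card_fin, Finset.card_pair hmxy] at this
        exact this
      have hn1 : n = 1 := by omega
      subst hn1
      rw [mem_range_sign]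
      by_contra hcon
      rw [Matrix.det_fin_two] at hcon
      simp only [Matrix.submatrix_apply] at hcon
      obtain ⟨ha, hb, hc, hd, hbad⟩ := sign_two (h.entry hxy _ _) (h.entry hxy _ _)
        (h.entry hxy _ _) (h.entry hxy _ _) hcon
      have hcases : (g 0 = x ∧ g 1 = y) ∨ (g 0 = y ∧ g 1 = x) := by
        have hmm : (mx = 0 ∧ my = 1) ∨ (mx = 1 ∧ my = 0) := by
          revert hmxy
          clear hthird hmx hmy
          revert mx my
          decide
        rcases hmm with ⟨rfl, rfl⟩ | ⟨rfl, rfl⟩
        · exact Or.inl ⟨hmx, hmy⟩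
        · exact Or.inr ⟨hmy, hmx⟩
      rcases hcases with ⟨e0, e1⟩ | ⟨e0, e1⟩
      · rw [e0] at ha hc
        rw [e1] at hb hd
        rw [e0, e1] at hbad
        exact h.two hxy (f 0) (f 1) ha hb hc hd (by linarith)
      · rw [e0] at ha hc
        rw [e1] at hb hd
        rw [e0, e1] at hbad
        exact h.two hxy (f 0) (f 1) hb ha hd hc (by linarith)

theorem gerards [Finite R] [Finite C] (X : Matrix R C ℤ) (x y : C) (hxy : x ≠ y)
    (hx : (delCol X x).IsTotallyUnimodular) (hy : (delCol X y).IsTotallyUnimodular)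
    (hfree : Free (red X)) (hlink : ∀ i j, Linked (red X) {c | c ≠ x ∧ c ≠ y} i j) :
    X.IsTotallyUnimodular := by
  intro k f g hf hg
  exact good_det hxy k X ⟨hx, hy, hfree, hlink⟩ f g hf hg

end Pool.Agent.Helper43_EOR
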