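import Mathlib

set_option autoImplicit false

namespace Pool.Agent.Helper43_EOR

/-! Job T2f: direct sums of totally unimodular matrices. -/

/-
PLAIN WORDS. P is a set of rows, Q a set of columns; X vanishes on P × Qᶜ and on Pᶜ × Q. Take a
square submatrix, rows f, columns g (Fin k → _, wlog injective). Let p be the number of i with
f i ∈ P and q the number of j with g j ∈ Q. If p = q, after reordering (equivalences
Fin k ≃ {i | f i ∈ P} ⊕ {i | f i ∉ P} and the same for columns, then a bijection between the index
types of equal cardinality) the matrix is block diagonal and the determinant is, up to sign, the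
product of two minors, one of the first, one of the second kind. If p ≠ q, say p > q, the p rows
indexed by P vanish outside the q columns indexed by Q, so they are linearly dependent (over ℚ) and
the determinant is 0 (`Matrix.exists_vecMul_eq_zero_iff` or the dimension argument); the other case
is symmetric (transpose). One may also argue in Leibniz form: every permutation σ with nonzero term
maps {i | f i ∈ P} onto {j | g j ∈ Q}.
-/

theorem tu_direct_sum {R C : Type*} (X : Matrix R C ℤ) (P : Set R) (Q : Set C)
    (h1 : ∀ r ∈ P, ∀ c, c ∉ Q → X r c = 0) (h2 : ∀ r, r ∉ P → ∀ c ∈ Q, X r c = 0)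
    (hP : (X.submatrix (Subtype.val : P → R) (Subtype.val : Q → C)).IsTotallyUnimodular)
    (hQ : (X.submatrix (Subtype.val : ↥Pᶜ → R) (Subtype.val : ↥Qᶜ → C)).IsTotallyUnimodular) :
    X.IsTotallyUnimodular := by
  classical
  rw [Matrix.isTotallyUnimodular_iff]
  intro k f g
  by_cases h0 : (X.submatrix f g).det = 0
  · rw [h0]; exact ⟨0, by simp⟩
  obtain ⟨σ, hσ⟩ : ∃ σ : Equiv.Perm (Fin k), ∀ i, X (f (σ i)) (g i) ≠ 0 := by
    by_contra hcon
    push Not at hcon
    apply h0
    rw [Matrix.det_apply]
    apply Finset.sum_eq_zero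
    intro σ _
    obtain ⟨i, hi⟩ := hcon σ
    rw [Finset.prod_eq_zero (Finset.mem_univ i) (by simpa using hi), smul_zero]
  have hpq : ∀ i, f (σ i) ∈ P ↔ g i ∈ Q := by
    intro i
    constructor
    · intro h
      by_contra hc
      exact hσ i (h1 _ h _ hc)
    · intro h
      by_contra hc
      exact hσ i (h2 _ hc _ h)
  have hdet : ((X.submatrix f g).submatrix σ id).det
      = ((Equiv.Perm.sign σ : ℤˣ) : ℤ) * (X.submatrix f g).det := by
    have := Matrix.det_permute σ (X.submatrix f g)
    simpa using this
  have hS : ((X.submatrix f g).submatrix σ id).det ∈ Set.range (SignType.cast : SignType → ℤ) := by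
    rw [Matrix.twoBlockTriangular_det _ (fun i => g i ∈ Q)
      (fun i hi j hj => by
        simp only [Matrix.submatrix_apply, id_eq]
        exact h2 _ (fun h => hi ((hpq i).1 h)) _ hj)]
    have hA := (Matrix.isTotallyUnimodular_iff_fintype _).1 hP {i : Fin k // g i ∈ Q}
      (fun i => ⟨f (σ i.1), (hpq i.1).2 i.2⟩) (fun j => ⟨g j.1, j.2⟩)
    have hB := (Matrix.isTotallyUnimodular_iff_fintype _).1 hQ {i : Fin k // ¬ g i ∈ Q}
      (fun i => ⟨f (σ i.1), fun h => i.2 ((hpq i.1).1 h)⟩) (fun j => ⟨g j.1, j.2⟩)
    obtain ⟨a, ha⟩ := hA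
    obtain ⟨b, hb⟩ := hB
    refine ⟨a * b, ?_⟩
    rw [SignType.coe_mul]
    convert! congrArg₂ (· * ·) ha hb
  obtain ⟨s, hs⟩ := hS
  rw [hdet] at hs
  rcases Int.units_eq_one_or (Equiv.Perm.sign σ) with h | h
  · rw [h] at hs
    exact ⟨s, by simpa using hs⟩
  · rw [h] at hs
    refine ⟨-s, ?_⟩
    rw [SignType.coe_neg, hs]
    simp

end Pool.Agent.Helper43_EOR
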