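import Mathlib
import Pool.Agent.Helper43_EOR.T2b
import Pool.Agent.Helper43_EOR.T2c
import Pool.Agent.Helper43_EOR.T2f
import Pool.Agent.Helper43_EOR.T2d
import Pool.Agent.Helper43_EOR.T2e

set_option autoImplicit false

namespace Pool.Agent.Helper43_EOR

variable {R C : Type*} [DecidableEq R] [DecidableEq C]

/-! ### auxiliary lemmas -/

lemma t2h_pivT_submatrix {R C R' C' : Type*} [DecidableEq R] [DecidableEq C] [DecidableEq R']
    [DecidableEq C'] (D : Matrix R C (ZMod 2)) (f : R' → R) (g : C' → C)
    (hf : Function.Injective f) (hg : Function.Injective g) (D' : Matrix R' C' (ZMod 2))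
    (h : PivT Set.univ (D.submatrix f g) D') :
    ∃ D'', PivT Set.univ D D'' ∧ D''.submatrix f g = D' := by
  induction h with
  | refl => exact ⟨D, PivT.refl, rfl⟩
  | step D1 r c _ _ h1 ih =>
    obtain ⟨D2, h2, rfl⟩ := ih
    refine ⟨piv2 D2 (f r) (g c), PivT.step D2 _ _ h2 trivial h1, ?_⟩
    ext i j
    simp only [Matrix.submatrix_apply, piv2, hf.eq_iff, hg.eq_iff]

lemma t2h_hasF_submatrix {R C R' C' : Type*} (D : Matrix R C (ZMod 2)) (f : R' → R) (g : C' → C)
    (h : HasF (D.submatrix f g)) : HasF D := by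
  obtain ⟨a, b, hab⟩ := h
  exact ⟨f ∘ a, g ∘ b, hab⟩

lemma t2h_free_submatrix {R C R' C' : Type*} [DecidableEq R] [DecidableEq C] [DecidableEq R']
    [DecidableEq C'] {D : Matrix R C (ZMod 2)} (hD : Free D) (f : R' → R) (g : C' → C)
    (hf : Function.Injective f) (hg : Function.Injective g) : Free (D.submatrix f g) := by
  intro D' hD'
  obtain ⟨D'', h1, rfl⟩ := t2h_pivT_submatrix D f g hf hg D' hD'
  obtain ⟨h2, h3⟩ := hD D'' h1
  refine ⟨fun h => h2 (t2h_hasF_submatrix D'' f g h), fun h => h3 ?_⟩
  rw [Matrix.transpose_submatrix] at h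
  exact t2h_hasF_submatrix D''.transpose g f h

lemma t2h_pivT_transpose {R C : Type*} [DecidableEq R] [DecidableEq C]
    (D : Matrix R C (ZMod 2)) (D' : Matrix C R (ZMod 2)) (h : PivT Set.univ D.transpose D') :
    PivT Set.univ D D'.transpose := by
  induction h with
  | refl => exact PivT.refl
  | step D1 r c _ _ h1 ih =>
    have h2 := PivT.step (T := Set.univ) D1.transpose c r ih trivial h1
    have h3 : piv2 D1.transpose c r = (piv2 D1 r c).transpose := by
      ext i j
      simp only [piv2, Matrix.transpose_apply]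
      by_cases hi : i = c <;> by_cases hj : j = r <;> simp [hi, hj, mul_comm]
    rw [← h3]
    exact h2

lemma t2h_free_transpose {R C : Type*} [DecidableEq R] [DecidableEq C]
    {D : Matrix R C (ZMod 2)} (hD : Free D) : Free D.transpose := by
  intro D' hD'
  obtain ⟨h1, h2⟩ := hD _ (t2h_pivT_transpose D D' hD')
  refine ⟨fun h => h2 ?_, h1⟩
  rwa [Matrix.transpose_transpose]

lemma t2h_scale {R C : Type*} (A : Matrix R C ℤ) (hA : A.IsTotallyUnimodular) (ρ : R → ℤ)
    (κ : C → ℤ) (hρ : ∀ i, ρ i = 1 ∨ ρ i = -1) (hκ : ∀ j, κ j = 1 ∨ κ j = -1) :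
    Matrix.IsTotallyUnimodular (fun i j => ρ i * κ j * A i j : Matrix R C ℤ) := by
  rw [Matrix.isTotallyUnimodular_iff] at hA ⊢
  intro k f g
  obtain ⟨s, hs⟩ := hA k f g
  have h1 : (Matrix.submatrix (fun i j => ρ i * κ j * A i j : Matrix R C ℤ) f g) =
      Matrix.of fun i j => (ρ (f i)) * (Matrix.of fun i j => κ (g j) * A.submatrix f g i j) i j := by
    ext i j
    simp only [Matrix.submatrix_apply, Matrix.of_apply]
    ring
  rw [h1, Matrix.det_mul_column, Matrix.det_mul_row, ← hs]
  have hu : ∀ (n : ℕ) (v : Fin n → ℤ), (∀ i, v i = 1 ∨ v i = -1) →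
      (∏ i, v i = 1 ∨ ∏ i, v i = -1) := by
    intro n v hv
    induction n with
    | zero => simp
    | succ n ih =>
      rw [Fin.prod_univ_succ]
      rcases hv 0 with h | h <;> rcases ih (fun i => v i.succ) (fun i => hv _) with h' | h' <;>
        rw [h, h'] <;> simp
  rcases hu k (fun i => ρ (f i)) (fun i => hρ _) with h2 | h2 <;>
    rcases hu k (fun i => κ (g i)) (fun i => hκ _) with h3 | h3 <;> rw [h2, h3]
  · exact ⟨s, by simp⟩
  · exact ⟨-s, by simp⟩
  · exact ⟨-s, by simp⟩
  · exact ⟨s, by simp⟩

/-- two columns can be dropped -/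
lemma t2h_col {R C : Type*} [DecidableEq R] [DecidableEq C] [Finite R] [Finite C]
    (D : Matrix R C (ZMod 2)) (hfree : Free D) (x y : C) (hxy : x ≠ y)
    (hlink : ∀ i j, Linked D {c | c ≠ x ∧ c ≠ y} i j)
    (h1 : ∃ X1 : Matrix R {c // c ≠ x} ℤ, X1.IsTotallyUnimodular ∧ red X1 = delCol D x)
    (h2 : ∃ X2 : Matrix R {c // c ≠ y} ℤ, X2.IsTotallyUnimodular ∧ red X2 = delCol D y) :
    ∃ X : Matrix R C ℤ, X.IsTotallyUnimodular ∧ red X = D := by
  obtain ⟨X1, hX1, hr1⟩ := h1
  obtain ⟨X2, hX2, hr2⟩ := h2
  let T := {c : C // c ≠ x ∧ c ≠ y}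
  let a : T → {c // c ≠ x} := fun c => ⟨c.1, c.2.1⟩
  let b : T → {c // c ≠ y} := fun c => ⟨c.1, c.2.2⟩
  have e1 : ∀ i c, ((X1 i c : ℤ) : ZMod 2) = D i c.1 := fun i c => congrFun (congrFun hr1 i) c
  have e2 : ∀ i c, ((X2 i c : ℤ) : ZMod 2) = D i c.1 := fun i c => congrFun (congrFun hr2 i) c
  have hred : red (X2.submatrix id b) = red (X1.submatrix id a) := by
    ext i c
    change ((X2 i (b c) : ℤ) : ZMod 2) = ((X1 i (a c) : ℤ) : ZMod 2)
    rw [e1, e2]
  obtain ⟨ρ, κ, hρ, hκ, hrel⟩ := camion (X2.submatrix id b) (X1.submatrix id a)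
    (hX2.submatrix id b) (hX1.submatrix id a) hred
  let X : Matrix R C ℤ := fun i c => if h : c ≠ x then X1 i ⟨c, h⟩ else ρ i * X2 i ⟨x, hxy⟩
  have hXx : delCol X x = X1 := by
    ext i c
    change (if h : c.1 ≠ x then X1 i ⟨c.1, h⟩ else ρ i * X2 i ⟨x, hxy⟩) = X1 i c
    rw [dif_pos c.2]
  let κ' : {c // c ≠ y} → ℤ := fun c => if h : c.1 ≠ x then κ ⟨c.1, h, c.2⟩ else 1
  have hXy : delCol X y = (fun i c => ρ i * κ' c * X2 i c : Matrix R {c // c ≠ y} ℤ) := by
    ext i c
    change (if h : c.1 ≠ x then X1 i ⟨c.1, h⟩ else ρ i * X2 i ⟨x, hxy⟩) =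
      ρ i * (if h : c.1 ≠ x then κ ⟨c.1, h, c.2⟩ else 1) * X2 i c
    by_cases h : c.1 ≠ x
    · rw [dif_pos h, dif_pos h]
      exact hrel i ⟨c.1, h, c.2⟩
    · rw [dif_neg h, dif_neg h]
      push Not at h
      have : (⟨x, hxy⟩ : {c // c ≠ y}) = c := Subtype.ext h.symm
      rw [this]
      ring
  have hredX : red X = D := by
    ext i c
    change (((if h : c ≠ x then X1 i ⟨c, h⟩ else ρ i * X2 i ⟨x, hxy⟩ : ℤ)) : ZMod 2) = D i c
    by_cases h : c ≠ x
    · rw [dif_pos h]
      exact e1 i ⟨c, h⟩
    · rw [dif_neg h]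
      push Not at h
      subst h
      rw [Int.cast_mul, e2]
      rcases hρ i with h' | h' <;> rw [h']
      · simp
      · have : (((-1 : ℤ)) : ZMod 2) = 1 := by decide
        rw [this, one_mul]
  refine ⟨X, ?_, hredX⟩
  refine gerards X x y hxy ?_ ?_ (by rw [hredX]; exact hfree) (by rw [hredX]; exact hlink)
  · rw [hXx]; exact hX1
  · rw [hXy]
    refine t2h_scale X2 hX2 ρ κ' hρ fun c => ?_
    by_cases h : c.1 ≠ x
    · simp only [κ', dif_pos h]; exact hκ _
    · simp only [κ', dif_neg h]; exact Or.inl trivial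

/-- the bipartite graph of the nonzero entries -/
def t2h_G {R C : Type*} (D : Matrix R C (ZMod 2)) : SimpleGraph (R ⊕ C) where
  Adj a b := match a, b with
    | Sum.inl r, Sum.inr c => D r c ≠ 0
    | Sum.inr c, Sum.inl r => D r c ≠ 0
    | _, _ => False
  symm := ⟨fun a b h => by
    rcases a with a | a <;> rcases b with b | b <;> exact h⟩
  loopless := ⟨fun a h => by rcases a with a | a <;> exact h⟩

lemma t2h_link {R C : Type*} (D : Matrix R C (ZMod 2)) (x y : C)
    (h : ((t2h_G D).induce {z | z ≠ Sum.inr x ∧ z ≠ Sum.inr y}).Connected) (i j : R) :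
    Linked D {c | c ≠ x ∧ c ≠ y} i j := by
  have hr := h.preconnected ⟨Sum.inl i, by simp⟩ ⟨Sum.inl j, by simp⟩
  rw [SimpleGraph.reachable_iff_reflTransGen] at hr
  let φ : {z : R ⊕ C | z ≠ Sum.inr x ∧ z ≠ Sum.inr y} → Prop := fun w => match w.1 with
    | Sum.inl k => Linked D {c | c ≠ x ∧ c ≠ y} i k
    | Sum.inr c => ∃ k, Linked D {c | c ≠ x ∧ c ≠ y} i k ∧ D k c ≠ 0
  have key : ∀ w, Relation.ReflTransGen ((t2h_G D).induce
      {z | z ≠ Sum.inr x ∧ z ≠ Sum.inr y}).Adj ⟨Sum.inl i, by simp⟩ w → φ w := by
    intro w hw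
    induction hw with
    | refl => exact Relation.ReflTransGen.refl
    | @tail w w' _ hadj ih =>
      obtain ⟨w, hw⟩ := w
      obtain ⟨w', hw'⟩ := w'
      rcases w with k | c <;> rcases w' with k' | c'
      · exact hadj.elim
      · exact ⟨k, ih, hadj⟩
      · obtain ⟨k, hk, hkc⟩ := ih
        refine hk.tail ⟨c, ⟨?_, ?_⟩, hkc, hadj⟩
        · rintro rfl; exact hw.1 rfl
        · rintro rfl; exact hw.2 rfl
      · exact hadj.elim
  exact key _ hr

lemma t2h_G_transpose {R C : Type*} (D : Matrix R C (ZMod 2)) (x y : R)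
    (h : ((t2h_G D).induce {z | z ≠ Sum.inl x ∧ z ≠ Sum.inl y}).Connected) :
    ((t2h_G D.transpose).induce {z | z ≠ Sum.inr x ∧ z ≠ Sum.inr y}).Connected := by
  have e : ((t2h_G D).induce {z | z ≠ Sum.inl x ∧ z ≠ Sum.inl y}) ≃g
      ((t2h_G D.transpose).induce {z | z ≠ Sum.inr x ∧ z ≠ Sum.inr y}) := {
    toEquiv := (Equiv.sumComm R C).subtypeEquiv (by
      intro a
      rcases a with a | a <;> simp)
    map_rel_iff' := by
      intro a b
      obtain ⟨a, ha⟩ := a
      obtain ⟨b, hb⟩ := b
      rcases a with a | a <;> rcases b with b | b <;> exact Iff.rfl }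
  exact e.connected_iff.1 h

lemma t2h_main.{u, v} (n : ℕ) : ∀ (R : Type u) (C : Type v) [DecidableEq R] [DecidableEq C]
    [Finite R] [Finite C] (D : Matrix R C (ZMod 2)), Nat.card R + Nat.card C ≤ n → Free D →
    ∃ X : Matrix R C ℤ, X.IsTotallyUnimodular ∧ red X = D := by
  induction n using Nat.strong_induction_on with
  | _ n ih =>
  intro R C _ _ _ _ D hn hfree
  classical
  have := Fintype.ofFinite R
  have := Fintype.ofFinite C
  by_cases hconn : (t2h_G D).Connected
  · by_cases h2 : ∀ c, (Finset.univ.filter fun r => D r c ≠ 0).card ≤ 2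
    · obtain ⟨X, hX, hr⟩ := signing_of_two D h2
      exact ⟨X, hX, by ext i j; exact hr i j⟩
    · push Not at h2
      obtain ⟨c, hc⟩ := h2
      obtain ⟨r1, m1, r2, m2, r3, m3, h12, h13, h23⟩ := Finset.two_lt_card.1 hc
      simp only [Finset.mem_filter, Finset.mem_univ, true_and] at m1 m2 m3
      obtain ⟨u, v, huv, hcol, hrest⟩ := two_leaves (t2h_G D) hconn (Sum.inr c) (Sum.inl r1)
        (Sum.inl r2) (Sum.inl r3) (by simpa using h12) (by simpa using h13)
        (by simpa using h23) m1 m2 m3 Sum.isLeft
      rcases u with x | x <;> rcases v with y | y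
      · -- two rows
        have hxy : x ≠ y := fun h => huv (by rw [h])
        have hsub : ∀ z : R, ∃ X1 : Matrix C {r // r ≠ z} ℤ,
            X1.IsTotallyUnimodular ∧ red X1 = delCol D.transpose z := by
          intro z
          have hlt : Nat.card {r // r ≠ z} < Nat.card R := Finite.card_subtype_lt (x := z) (by simp)
          obtain ⟨X1, hX1, hr1⟩ := ih (Nat.card {r // r ≠ z} + Nat.card C) (by omega)
            {r // r ≠ z} C (D.submatrix Subtype.val id) le_rfl
            (t2h_free_submatrix hfree _ _ Subtype.val_injective Function.injective_id)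
          refine ⟨X1.transpose, hX1.transpose, ?_⟩
          ext i j
          exact congrFun (congrFun hr1 j) i
        obtain ⟨X, hX, hr⟩ := t2h_col D.transpose (t2h_free_transpose hfree) x y hxy
          (t2h_link D.transpose x y (t2h_G_transpose D x y hrest)) (hsub x) (hsub y)
        refine ⟨X.transpose, hX.transpose, ?_⟩
        ext i j
        exact congrFun (congrFun hr j) i
      · simp at hcol
      · simp at hcol
      · -- two columns
        have hxy : x ≠ y := fun h => huv (by rw [h])
        have hsub : ∀ z : C, ∃ X1 : Matrix R {c // c ≠ z} ℤ,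
            X1.IsTotallyUnimodular ∧ red X1 = delCol D z := by
          intro z
          have hlt : Nat.card {c // c ≠ z} < Nat.card C := Finite.card_subtype_lt (x := z) (by simp)
          exact ih (Nat.card R + Nat.card {c // c ≠ z}) (by omega)
            R {c // c ≠ z} (delCol D z) le_rfl
            (t2h_free_submatrix hfree _ _ Function.injective_id Subtype.val_injective)
        exact t2h_col D hfree x y hxy (t2h_link D x y hrest) (hsub x) (hsub y)
  · -- separation
    by_cases hemp : IsEmpty (R ⊕ C)
    · have h1 : IsEmpty R := ⟨fun r => hemp.false (Sum.inl r)⟩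
      refine ⟨0, Matrix.emptyRows_isTotallyUnimodular _, ?_⟩
      ext i
      exact (h1.false i).elim
    · rw [not_isEmpty_iff] at hemp
      have hpre : ¬ (t2h_G D).Preconnected := fun h => hconn ⟨h⟩
      unfold SimpleGraph.Preconnected at hpre
      push Not at hpre
      obtain ⟨u, v, huv⟩ := hpre
      let P : Set R := {r | (t2h_G D).Reachable u (Sum.inl r)}
      let Q : Set C := {c | (t2h_G D).Reachable u (Sum.inr c)}
      have hz1 : ∀ r ∈ P, ∀ c, c ∉ Q → D r c = 0 := by
        intro r hr c hc
        by_contra hne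
        apply hc
        have hadj : (t2h_G D).Adj (Sum.inl r) (Sum.inr c) := hne
        exact SimpleGraph.Reachable.trans hr hadj.reachable
      have hz2 : ∀ r, r ∉ P → ∀ c ∈ Q, D r c = 0 := by
        intro r hr c hc
        by_contra hne
        apply hr
        have hadj : (t2h_G D).Adj (Sum.inr c) (Sum.inl r) := hne
        exact SimpleGraph.Reachable.trans hc hadj.reachable
      have hcardP : Nat.card P ≤ Nat.card R := Finite.card_subtype_le _
      have hcardQ : Nat.card Q ≤ Nat.card C := Finite.card_subtype_le _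
      have hcardP' : Nat.card ↥Pᶜ ≤ Nat.card R := Finite.card_subtype_le _
      have hcardQ' : Nat.card ↥Qᶜ ≤ Nat.card C := Finite.card_subtype_le _
      have hlt1 : Nat.card P + Nat.card Q < Nat.card R + Nat.card C := by
        rcases v with r | c
        · have : Nat.card P < Nat.card R := Finite.card_subtype_lt (x := r) huv
          omega
        · have : Nat.card Q < Nat.card C := Finite.card_subtype_lt (x := c) huv
          omega
      have hlt2 : Nat.card ↥Pᶜ + Nat.card ↥Qᶜ < Nat.card R + Nat.card C := by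
        rcases u with r | c
        · have : Nat.card ↥Pᶜ < Nat.card R := Finite.card_subtype_lt (x := r) (by
            intro h
            exact h (SimpleGraph.Reachable.refl _))
          omega
        · have : Nat.card ↥Qᶜ < Nat.card C := Finite.card_subtype_lt (x := c) (by
            intro h
            exact h (SimpleGraph.Reachable.refl _))
          omega
      obtain ⟨X1, hX1, hr1⟩ := ih (Nat.card P + Nat.card Q) (by omega) P Q
        (D.submatrix Subtype.val Subtype.val) le_rfl
        (t2h_free_submatrix hfree _ _ Subtype.val_injective Subtype.val_injective)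
      obtain ⟨X2, hX2, hr2⟩ := ih (Nat.card ↥Pᶜ + Nat.card ↥Qᶜ) (by omega) ↥Pᶜ ↥Qᶜ
        (D.submatrix Subtype.val Subtype.val) le_rfl
        (t2h_free_submatrix hfree _ _ Subtype.val_injective Subtype.val_injective)
      let X : Matrix R C ℤ := fun r c =>
        if h : r ∈ P ∧ c ∈ Q then X1 ⟨r, h.1⟩ ⟨c, h.2⟩
        else if h' : r ∉ P ∧ c ∉ Q then X2 ⟨r, h'.1⟩ ⟨c, h'.2⟩ else 0
      have hXval : ∀ r c, X r c = if h : r ∈ P ∧ c ∈ Q then X1 ⟨r, h.1⟩ ⟨c, h.2⟩
        else if h' : r ∉ P ∧ c ∉ Q then X2 ⟨r, h'.1⟩ ⟨c, h'.2⟩ else 0 := fun r c => rfl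
      refine ⟨X, tu_direct_sum X P Q ?_ ?_ ?_ ?_, ?_⟩
      · intro r hr c hc
        rw [hXval, dif_neg (fun h => hc h.2), dif_neg (fun h => h.1 hr)]
      · intro r hr c hc
        rw [hXval, dif_neg (fun h => hr h.1), dif_neg (fun h => h.2 hc)]
      · have : X.submatrix (Subtype.val : P → R) (Subtype.val : Q → C) = X1 := by
          ext i j
          rw [Matrix.submatrix_apply, hXval, dif_pos ⟨i.2, j.2⟩]
        rw [this]
        exact hX1
      · have : X.submatrix (Subtype.val : ↥Pᶜ → R) (Subtype.val : ↥Qᶜ → C) = X2 := by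
          ext i j
          rw [Matrix.submatrix_apply, hXval, dif_neg (fun h => i.2 h.1), dif_pos ⟨i.2, j.2⟩]
        rw [this]
        exact hX2
      · ext r c
        change ((X r c : ℤ) : ZMod 2) = D r c
        rw [hXval]
        by_cases hr : r ∈ P <;> by_cases hc : c ∈ Q
        · rw [dif_pos ⟨hr, hc⟩]
          exact congrFun (congrFun hr1 ⟨r, hr⟩) ⟨c, hc⟩
        · rw [dif_neg (fun h => hc h.2), dif_neg (fun h => h.1 hr), hz1 r hr c hc]
          simp
        · rw [dif_neg (fun h => hr h.1), dif_neg (fun h => h.2 hc), hz2 r hr c hc]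
          simp
        · rw [dif_neg (fun h => hr h.1), dif_pos ⟨hr, hc⟩]
          exact congrFun (congrFun hr2 ⟨r, hr⟩) ⟨c, hc⟩

/-
TARGET `tutte_matrix`. PLAIN WORDS. Strong induction on card R + card C (all types in the given
universes).
(i)  Free passes to submatrices `D.submatrix f g` with f, g injective (a chain of pivots of the
     submatrix lifts to a chain of pivots of D whose restriction it is; a Fano submatrix of the
     submatrix is one of the big matrix).
(ii) Free passes to the transpose: (piv2 D r c)ᵀ = piv2 Dᵀ c r.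
(iii) Separation: if there are P : Set R, Q : Set C, not both empty and not both everything, with
     D r c = 0 for (r ∈ P, c ∉ Q) and for (r ∉ P, c ∈ Q), then sign the two diagonal blocks by the
     induction hypothesis, put zeros elsewhere, and use `tu_direct_sum` (if a block has the same
     size as D, e.g. P = univ and Q = a proper subset, the other columns are zero; both blocks
     are smaller in card R + card C because (P, Q) is neither (∅, ∅) nor (univ, univ)).
(iv) No separation. The bipartite graph on R ⊕ C with `inl r ~ inr c` iff D r c ≠ 0 is connected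
     (or R ⊕ C is empty, trivial). If every column has at most two nonzero entries use
     `signing_of_two`. Otherwise some inr c has three neighbours; `two_leaves` with the colour
     Sum.isLeft gives u ≠ v on the same side with the rest connected.
     - u = inr x, v = inr y: all rows are linked through the columns ≠ x, y (walks in the induced
       connected graph alternate between rows and columns). By induction delCol D x and delCol D y
       have totally unimodular signings X1, X2. On the common columns both are signings of the same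
       matrix, so by `camion` they differ by ρ, κ. Let X have the columns c ≠ x of X1 and the column
       x : i ↦ ρ i * X2 i x. Then delCol X x = X1, and delCol X y is obtained from X2 by scaling rows
       by ρ and columns by signs, so both are totally unimodular (scaling rows and columns by signs
       preserves it); red X = D; conclude by `gerards`.
     - u = inl, v = inl: the same for the transposed matrix (use (ii) and
       `Matrix.IsTotallyUnimodular.transpose`).
-/
theorem tutte_matrix {R C : Type*} [DecidableEq R] [DecidableEq C] [Finite R] [Finite C]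
    (D : Matrix R C (ZMod 2)) (hfree : Free D) :
    ∃ X : Matrix R C ℤ, X.IsTotallyUnimodular ∧ red X = D :=
  t2h_main _ R C D le_rfl hfree

end Pool.Agent.Helper43_EOR
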