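import Mathlib
import Pool.Agent.Helper43_EOR.F2
import Pool.Agent.Helper43_EOR.T2h
import Pool.Agent.Helper43_EOR.T2g

set_option autoImplicit false

namespace Pool.Agent.Helper43_EOR

open Set Matroid

variable {α : Type*}


/-- `M` is represented by the columns of `[1 | D]` through the labels `e`. -/
def f3Pres (M : Matroid α) {R C : Type*} [DecidableEq R] (D : Matrix R C (ZMod 2)) : Prop :=
  ∃ (e : R ⊕ C → α) (w : α → (R → ZMod 2)), Function.Injective e ∧ Set.range e = M.E ∧
    RepBy (ZMod 2) M w ∧ (∀ r, w (e (Sum.inl r)) = Pi.single r 1) ∧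
    (∀ c, w (e (Sum.inr c)) = fun r => D r c)

/-- the linear map of a pivot -/
def f3T {R C : Type*} [DecidableEq R] (D : Matrix R C (ZMod 2)) (r : R) (c : C) :
    (R → ZMod 2) →ₗ[ZMod 2] (R → ZMod 2) where
  toFun x := fun i => if i = r then x r else x i + x r * D i c
  map_add' x y := by
    ext i
    by_cases h : i = r
    · simp [h]
    · simp only [h, if_false, Pi.add_apply]; ring
  map_smul' a x := by
    ext i
    by_cases h : i = r
    · simp [h]
    · simp only [h, if_false, Pi.smul_apply, smul_eq_mul, RingHom.id_apply]; ring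

theorem f3T_invol {R C : Type*} [DecidableEq R] (D : Matrix R C (ZMod 2)) (r : R) (c : C)
    (x : R → ZMod 2) : f3T D r c (f3T D r c x) = x := by
  ext i
  by_cases h : i = r
  · subst h; simp [f3T]
  · simp only [f3T, LinearMap.coe_mk, AddHom.coe_mk, h, if_false, if_true]
    have : ∀ a b : ZMod 2, a + b + b = a := by decide
    exact this _ _

theorem f3Pres_step {M : Matroid α} {R C : Type*} [DecidableEq R] [DecidableEq C]
    {D : Matrix R C (ZMod 2)} (h : f3Pres M D) {r : R} {c : C} (h1 : D r c = 1) :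
    f3Pres M (piv2 D r c) := by
  obtain ⟨e, w, he, hr, hw, hl, hc⟩ := h
  have hself : ∀ a : ZMod 2, a + 1 * a = 0 := by decide
  refine ⟨e ∘ Equiv.swap (Sum.inl r) (Sum.inr c), f3T D r c ∘ w,
    he.comp (Equiv.injective _), ?_, ?_, ?_, ?_⟩
  · rw [Set.range_comp, Equiv.range_eq_univ, Set.image_univ, hr]
  · refine hw.map _ ?_
    intro x _ hx
    rw [← f3T_invol D r c x, hx, map_zero]
  · intro j
    by_cases hj : j = r
    · subst hj
      simp only [Function.comp_apply, Equiv.swap_apply_left, hc]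
      ext i
      by_cases hi : i = j
      · subst hi; simp [f3T, h1]
      · simp only [f3T, LinearMap.coe_mk, AddHom.coe_mk, hi, if_false, h1, hself]
        rw [Pi.single_eq_of_ne hi]
    · have : Equiv.swap (Sum.inl r : R ⊕ C) (Sum.inr c) (Sum.inl j) = Sum.inl j := by
        refine Equiv.swap_apply_of_ne_of_ne ?_ ?_
        · simpa using hj
        · simp
      simp only [Function.comp_apply, this, hl]
      ext i
      by_cases hi : i = r
      · subst hi
        simp [f3T, Pi.single_eq_of_ne (Ne.symm hj)]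
      · simp [f3T, hi, Pi.single_eq_of_ne (Ne.symm hj)]
  · intro j
    by_cases hj : j = c
    · subst hj
      simp only [Function.comp_apply, Equiv.swap_apply_right, hl]
      ext i
      by_cases hi : i = r
      · subst hi; simp [f3T, piv2, h1]
      · simp [f3T, hi, piv2]
    · have : Equiv.swap (Sum.inl r : R ⊕ C) (Sum.inr c) (Sum.inr j) = Sum.inr j := by
        refine Equiv.swap_apply_of_ne_of_ne ?_ ?_
        · simp
        · simpa using hj
      simp only [Function.comp_apply, this, hc]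
      ext i
      by_cases hi : i = r
      · subst hi; simp [f3T, piv2]
      · simp only [f3T, LinearMap.coe_mk, AddHom.coe_mk, hi, if_false, piv2, hj, or_self]
        ring

theorem f3Pres_pivT {M : Matroid α} {R C : Type*} [DecidableEq R] [DecidableEq C]
    {D D' : Matrix R C (ZMod 2)} (h : f3Pres M D) (hD : PivT Set.univ D D') : f3Pres M D' := by
  induction hD with
  | refl => exact h
  | step D1 r c _ _ h1 ih => exact f3Pres_step ih h1

/-- every binary matroid has a presentation -/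
theorem f3Pres_exists {M : Matroid α} (hfin : M.E.Finite) (hb : RepOver (ZMod 2) M) :
    ∃ Z : Set α, ∃ _ : Z ⊆ M.E, ∃ (_ : DecidableEq ↥Z) (D : Matrix ↥Z ↥(M.E \ Z) (ZMod 2)),
      f3Pres M D := by
  classical
  obtain ⟨n, v, hv⟩ := hb
  obtain ⟨Z, hZ⟩ := M.exists_isBase
  have hZE : Z ⊆ M.E := hZ.subset_ground
  have : Finite ↥Z := (hfin.subset hZE).to_subtype
  have : Fintype ↥Z := Fintype.ofFinite _
  have hli : LinearIndepOn (ZMod 2) v Z := (hv Z hZE).1 hZ.indep
  have hsp : ∀ x ∈ M.E, v x ∈ Submodule.span (ZMod 2) (v '' Z) := by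
    intro x hx
    by_cases hxZ : x ∈ Z
    · exact Submodule.subset_span ⟨x, hxZ, rfl⟩
    rw [hli.mem_span_iff]
    intro hcon
    exfalso
    have h1 : M.Indep (insert x Z) := (hv _ (Set.insert_subset hx hZE)).2 hcon
    have := hZ.eq_of_subset_indep h1 (Set.subset_insert _ _)
    exact hxZ (this ▸ Set.mem_insert _ _)
  have hli' : LinearIndependent (ZMod 2) (fun z : ↥Z => v z) := hli
  set b := Module.Basis.span hli' with hbdef
  have hrange : Set.range (fun z : ↥Z => v z) = v '' Z := by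
    ext y; simp
  obtain ⟨T, hT⟩ := LinearMap.exists_extend
    (b.equivFun : Submodule.span (ZMod 2) (Set.range fun z : ↥Z => v z) →ₗ[ZMod 2] (↥Z → ZMod 2))
  have hTb : ∀ z : ↥Z, T (v z) = Pi.single z 1 := by
    intro z
    have h1 := LinearMap.congr_fun hT (b z)
    simp only [LinearMap.comp_apply, Submodule.subtype_apply, LinearEquiv.coe_coe] at h1
    have h2 : ((b z : Submodule.span (ZMod 2) (Set.range fun z : ↥Z => v z)) : Fin n → ZMod 2)
        = v z := by
      rw [hbdef, Module.Basis.span_apply]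
    rw [h2] at h1
    rw [h1]
    ext j
    rw [Module.Basis.equivFun_self, Pi.single_apply]
    simp [eq_comm]
  have hTinj : ∀ x ∈ Submodule.span (ZMod 2) (v '' M.E), T x = 0 → x = 0 := by
    intro x hx hx0
    have hx' : x ∈ Submodule.span (ZMod 2) (Set.range fun z : ↥Z => v z) := by
      rw [hrange]
      refine (Submodule.span_le.2 ?_) hx
      rintro _ ⟨y, hy, rfl⟩
      exact hsp y hy
    have h1 := LinearMap.congr_fun hT ⟨x, hx'⟩
    simp only [LinearMap.comp_apply, Submodule.subtype_apply, LinearEquiv.coe_coe] at h1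
    rw [hx0] at h1
    have h2 : (⟨x, hx'⟩ : Submodule.span (ZMod 2) (Set.range fun z : ↥Z => v z)) = 0 :=
      (b.equivFun.map_eq_zero_iff).1 h1.symm
    exact congrArg Subtype.val h2
  refine ⟨Z, hZE, inferInstance, fun r c => T (v c) r, Sum.elim Subtype.val Subtype.val,
    T ∘ v, ?_, ?_, ?_, ?_, ?_⟩
  · rintro (x | x) (y | y) hxy
    · simp only [Sum.elim_inl] at hxy
      rw [Subtype.ext hxy]
    · simp only [Sum.elim_inl, Sum.elim_inr] at hxy
      exact absurd x.2 (hxy ▸ y.2.2)
    · simp only [Sum.elim_inl, Sum.elim_inr] at hxy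
      exact absurd y.2 (hxy ▸ x.2.2)
    · simp only [Sum.elim_inr] at hxy
      rw [Subtype.ext hxy]
  · rw [Set.Sum.elim_range, Subtype.range_coe, Subtype.range_coe, Set.union_sdiff_cancel hZE]
  · exact RepBy.map (w := v) hv T hTinj
  · intro r
    simp [hTb]
  · intro c
    rfl

/-- a free presentation gives a regular matroid -/
theorem f3_regular {M : Matroid α} (hfin : M.E.Finite) {R C : Type*} [DecidableEq R]
    [DecidableEq C] [Finite R] [Finite C] {D : Matrix R C (ZMod 2)} (h : f3Pres M D)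
    (hfree : Free D) : Regular M := by
  classical
  have : Fintype R := Fintype.ofFinite R
  obtain ⟨X, hX, hred⟩ := tutte_matrix D hfree
  obtain ⟨e, w, he, hr, hw, hl, hc⟩ := h
  have hcols : colsF (ZMod 2) X = w ∘ e := by
    funext s
    rcases s with r | c
    · simp [colsF, hl]
    · simp only [colsF, Sum.elim_inr, Function.comp_apply, hc, ← hred]
      rfl
  intro F _
  refine repOver_of_repBy hfin (w := Function.extend e (colsF F X) 0) ?_
  intro I hI
  obtain ⟨J, rfl⟩ : ∃ J : Set (R ⊕ C), I = e '' J := by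
    refine ⟨e ⁻¹' I, ?_⟩
    rw [Set.image_preimage_eq_inter_range, hr, Set.inter_eq_left.2 hI]
  have hcomp : Function.extend e (colsF F X) 0 ∘ e = colsF F X := by
    funext s
    simp [he.extend_apply]
  rw [hw _ hI]
  constructor
  · intro h1
    have h2 := h1.comp_of_image he.injOn
    rw [← hcols] at h2
    have h3 := (cols_indep_iff X hX (ZMod 2) F J).1 h2
    rw [← hcomp] at h3
    exact h3.image_of_comp
  · intro h1
    have h2 := h1.comp_of_image he.injOn
    rw [hcomp] at h2
    have h3 := (cols_indep_iff X hX F (ZMod 2) J).1 h2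
    rw [hcols] at h3
    exact h3.image_of_comp

/-- the minor of a submatrix -/
theorem f3_minor {M : Matroid α} {R C : Type*} [DecidableEq R] [Finite R]
    {D : Matrix R C (ZMod 2)} (h : f3Pres M D) {R' C' : Type*} [DecidableEq R'] (f : R' → R)
    (g : C' → C) (hf : Function.Injective f) (hg : Function.Injective g) :
    ∃ C₀ D₀ : Set α, C₀ ⊆ M.E ∧ D₀ ⊆ M.E ∧ Disjoint C₀ D₀ ∧
      ∃ (h : R' ⊕ C' → α) (u : α → (R' → ZMod 2)), Function.Injective h ∧
        Set.range h = (M ／ C₀ ＼ D₀).E ∧ RepBy (ZMod 2) (M ／ C₀ ＼ D₀) u ∧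
        (∀ r, u (h (Sum.inl r)) = Pi.single r 1) ∧
        (∀ c, u (h (Sum.inr c)) = fun r => D (f r) (g c)) := by
  classical
  have : Fintype R := Fintype.ofFinite R
  obtain ⟨e, w, he, hr, hw, hl, hc⟩ := h
  set T : (R → ZMod 2) →ₗ[ZMod 2] (R' → ZMod 2) := LinearMap.funLeft (ZMod 2) (ZMod 2) f with hT
  have hE : ∀ s, e s ∈ M.E := fun s => hr ▸ Set.mem_range_self s
  refine ⟨e '' (Sum.inl '' (Set.range f)ᶜ), e '' (Sum.inr '' (Set.range g)ᶜ), ?_, ?_, ?_,
    e ∘ Sum.map f g, T ∘ w, he.comp (hf.sumMap hg), ?_, ?_, ?_, ?_⟩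
  · rintro _ ⟨s, _, rfl⟩; exact hE s
  · rintro _ ⟨s, _, rfl⟩; exact hE s
  · rw [Set.disjoint_image_iff he]
    rw [Set.disjoint_left]
    rintro _ ⟨a, _, rfl⟩ ⟨b, _, hb⟩
    simp at hb
  · rw [Matroid.delete_ground, Matroid.contract_ground, ← hr]
    ext x
    constructor
    · rintro ⟨s, rfl⟩
      refine ⟨⟨Set.mem_range_self _, ?_⟩, ?_⟩
      · rintro ⟨t, ⟨a, ha, rfl⟩, hta⟩
        have := he hta
        rcases s with r | c
        · simp only [Sum.map_inl, Sum.inl.injEq] at this
          exact ha ⟨r, this.symm⟩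
        · simp at this
      · rintro ⟨t, ⟨a, ha, rfl⟩, hta⟩
        have := he hta
        rcases s with r | c
        · simp at this
        · simp only [Sum.map_inr, Sum.inr.injEq] at this
          exact ha ⟨c, this.symm⟩
    · rintro ⟨⟨⟨s, rfl⟩, h1⟩, h2⟩
      rcases s with r | c
      · have : r ∈ Set.range f := by
          by_contra hcon
          exact h1 ⟨_, ⟨r, hcon, rfl⟩, rfl⟩
        obtain ⟨r', rfl⟩ := this
        exact ⟨Sum.inl r', rfl⟩
      · have : c ∈ Set.range g := by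
          by_contra hcon
          exact h2 ⟨_, ⟨c, hcon, rfl⟩, rfl⟩
        obtain ⟨c', rfl⟩ := this
        exact ⟨Sum.inr c', rfl⟩
  · refine hw.contract_map ?_ ?_ T ?_ ?_
    · rintro _ ⟨s, _, rfl⟩; exact hE s
    · rw [Set.disjoint_image_iff he]
      rw [Set.disjoint_left]
      rintro _ ⟨a, _, rfl⟩ ⟨b, _, hb⟩
      simp at hb
    · rintro _ ⟨_, ⟨a, ha, rfl⟩, rfl⟩
      rw [hl]
      ext i
      rw [hT, LinearMap.funLeft_apply, Pi.single_eq_of_ne]
      · rfl
      · intro hcon
        exact ha ⟨i, hcon⟩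
    · intro x _ hx
      have hx1 : x = ∑ r, x r • (Pi.single r 1 : R → ZMod 2) := by
        ext i
        simp [Finset.sum_apply, Pi.single_apply]
      rw [hx1]
      refine Submodule.sum_mem _ ?_
      intro r _
      by_cases hrf : r ∈ Set.range f
      · obtain ⟨i, rfl⟩ := hrf
        have : x (f i) = 0 := congrFun hx i
        rw [this, zero_smul]
        exact Submodule.zero_mem _
      · refine Submodule.smul_mem _ _ (Submodule.subset_span ?_)
        exact ⟨_, ⟨_, ⟨r, hrf, rfl⟩, rfl⟩, hl r⟩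
  · intro r
    simp only [Function.comp_apply, Sum.map_inl, hl]
    ext i
    rw [hT, LinearMap.funLeft_apply, Pi.single_apply, Pi.single_apply]
    simp [hf.eq_iff]
  · intro c
    simp only [Function.comp_apply, Sum.map_inr, hc]
    rfl

theorem f3_row (i j : Fin 3) (h : ∀ k : Fin 4, (!![0, 1, 1, 1; 1, 0, 1, 1; 1, 1, 0, 1] :
    Matrix (Fin 3) (Fin 4) (ZMod 2)) i k = (!![0, 1, 1, 1; 1, 0, 1, 1; 1, 1, 0, 1] :
    Matrix (Fin 3) (Fin 4) (ZMod 2)) j k) : i = j := by
  have h0 := h 0
  have h1 := h 1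
  have h2 := h 2
  clear h
  revert i j
  decide

theorem f3_col : ∀ i j : Fin 4, (∀ k : Fin 3, (!![0, 1, 1, 1; 1, 0, 1, 1; 1, 1, 0, 1] :
    Matrix (Fin 3) (Fin 4) (ZMod 2)) k i = (!![0, 1, 1, 1; 1, 0, 1, 1; 1, 1, 0, 1] :
    Matrix (Fin 3) (Fin 4) (ZMod 2)) k j) → i = j := by
  decide

/-- the first case -/
theorem f3_fano {N : Matroid α} {h : Fin 3 ⊕ Fin 4 → α} {u : α → (Fin 3 → ZMod 2)}
    (hr : Set.range h = N.E) (hu : RepBy (ZMod 2) N u)
    (hl : ∀ r, u (h (Sum.inl r)) = Pi.single r 1)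
    (hc : ∀ c, u (h (Sum.inr c)) = fun r =>
      (!![0, 1, 1, 1; 1, 0, 1, 1; 1, 1, 0, 1] : Matrix (Fin 3) (Fin 4) (ZMod 2)) r c) :
    IsFano N := by
  set φ : Fin 3 ⊕ Fin 4 → (Fin 3 → ZMod 2) := Sum.elim (fun r => Pi.single r 1) (fun c r =>
      (!![0, 1, 1, 1; 1, 0, 1, 1; 1, 1, 0, 1] : Matrix (Fin 3) (Fin 4) (ZMod 2)) r c) with hφ
  have hφu : ∀ s, u (h s) = φ s := by
    rintro (r | c)
    · exact hl r
    · exact hc c
  have hinj : Function.Injective φ := by
    rw [hφ]; decide
  have hne : ∀ s, φ s ≠ 0 := by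
    rw [hφ]; decide
  have hsurj : ∀ x : Fin 3 → ZMod 2, x ≠ 0 → ∃ s, φ s = x := by
    rw [hφ]; decide
  refine ⟨u, ⟨?_, ?_, ?_⟩, hu⟩
  · rw [← hr]
    rintro _ ⟨s, rfl⟩
    rw [hφu]
    exact hne s
  · rw [← hr]
    rintro _ ⟨s, rfl⟩ _ ⟨t, rfl⟩ hst
    rw [hφu, hφu] at hst
    rw [hinj hst]
  · intro x hx
    obtain ⟨s, hs⟩ := hsurj x hx
    refine ⟨h s, ?_, ?_⟩
    · rw [← hr]; exact Set.mem_range_self s
    · rw [hφu, hs]

/-- the linear map of the second case -/
def f3L : (Fin 4 → ZMod 2) →ₗ[ZMod 2] (Fin 3 → ZMod 2) × ZMod 2 where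
  toFun x := (![x 0 + x 2, x 1 + x 2, x 3], x 0 + x 1 + x 2 + x 3)
  map_add' x y := by
    refine Prod.ext ?_ ?_
    · ext i
      fin_cases i
      · change x 0 + y 0 + (x 2 + y 2) = x 0 + x 2 + (y 0 + y 2); ring
      · change x 1 + y 1 + (x 2 + y 2) = x 1 + x 2 + (y 1 + y 2); ring
      · rfl
    · change x 0 + y 0 + (x 1 + y 1) + (x 2 + y 2) + (x 3 + y 3) =
        x 0 + x 1 + x 2 + x 3 + (y 0 + y 1 + y 2 + y 3)
      ring
  map_smul' a x := by
    refine Prod.ext ?_ ?_
    · ext i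
      fin_cases i
      · change a * x 0 + a * x 2 = a * (x 0 + x 2); ring
      · change a * x 1 + a * x 2 = a * (x 1 + x 2); ring
      · rfl
    · change a * x 0 + a * x 1 + a * x 2 + a * x 3 = a * (x 0 + x 1 + x 2 + x 3)
      ring

/-- the second case -/
theorem f3_fano_dual {N : Matroid α} {h : Fin 4 ⊕ Fin 3 → α} {u : α → (Fin 4 → ZMod 2)}
    (hr : Set.range h = N.E) (hu : RepBy (ZMod 2) N u)
    (hl : ∀ r, u (h (Sum.inl r)) = Pi.single r 1)
    (hc : ∀ c, u (h (Sum.inr c)) = fun r =>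
      (!![0, 1, 1, 1; 1, 0, 1, 1; 1, 1, 0, 1] : Matrix (Fin 3) (Fin 4) (ZMod 2)) c r) :
    IsFano N✶ := by
  set φ : Fin 4 ⊕ Fin 3 → (Fin 4 → ZMod 2) := Sum.elim (fun r => Pi.single r 1) (fun c r =>
      (!![0, 1, 1, 1; 1, 0, 1, 1; 1, 1, 0, 1] : Matrix (Fin 3) (Fin 4) (ZMod 2)) c r) with hφ
  have hφu : ∀ s, u (h s) = φ s := by
    rintro (r | c)
    · exact hl r
    · exact hc c
  set ψ : (Fin 4 → ZMod 2) → (Fin 3 → ZMod 2) × ZMod 2 := fun x =>
    (![x 0 + x 2, x 1 + x 2, x 3], x 0 + x 1 + x 2 + x 3) with hψ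
  have hLψ : ∀ x, f3L x = ψ x := fun x => rfl
  have hinj : Function.Injective (fun s => (ψ (φ s)).1) := by
    rw [hφ, hψ]; decide
  have hne : ∀ s, (ψ (φ s)).1 ≠ 0 := by
    rw [hφ, hψ]; decide
  have hsurj : ∀ x : Fin 3 → ZMod 2, x ≠ 0 → ∃ s, (ψ (φ s)).1 = x := by
    rw [hφ, hψ]; decide
  have hone : ∀ s, (ψ (φ s)).2 = 1 := by
    rw [hφ, hψ]; decide
  have hker : ∀ x : Fin 4 → ZMod 2, ψ x = 0 → x = 0 := by
    rw [hψ]; decide
  have hE : ∀ s, h s ∈ N.E := fun s => hr ▸ Set.mem_range_self s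
  rw [isFano_dual_iff]
  refine ⟨fun x => (f3L (u x)).1, ⟨?_, ?_, ?_⟩, ?_⟩
  · rw [← hr]
    rintro _ ⟨s, rfl⟩
    change (f3L (u (h s))).1 ≠ 0
    rw [hφu, hLψ]
    exact hne s
  · rw [← hr]
    rintro _ ⟨s, rfl⟩ _ ⟨t, rfl⟩ hst
    change (f3L (u (h s))).1 = (f3L (u (h t))).1 at hst
    rw [hφu, hφu, hLψ, hLψ] at hst
    rw [hinj hst]
  · intro x hx
    obtain ⟨s, hs⟩ := hsurj x hx
    refine ⟨h s, hE s, ?_⟩
    change (f3L (u (h s))).1 = x
    rw [hφu, hLψ, hs]
  · have h1 : RepBy (ZMod 2) N (f3L ∘ u) := by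
      refine hu.map f3L ?_
      intro x _ hx
      exact hker x hx
    intro I hI
    rw [h1 I hI]
    refine linearIndepOn_congr ?_
    intro x hx
    obtain ⟨s, rfl⟩ : ∃ s, h s = x := by
      have := hI hx
      rw [← hr] at this
      exact this
    refine Prod.ext rfl ?_
    change (f3L (u (h s))).2 = 1
    rw [hφu, hLψ]
    exact hone s

/-
JOB F3 (Tutte's excluded minors for matroids, binary part). Import the modules
  Pool.Agent.Helper43_EOR.T2h  (theorem `tutte_matrix`, defs pivZ, piv2, PivT, red, HasF, Free)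
  Pool.Agent.Helper43_EOR.T2g  (theorem `cols_indep_iff`, def colsF)
which are on origin/main of the shared repository (paths
Pool/Agent/Helper43_EOR/*.lean), or copy their statements below as given.
PLAIN WORDS. Fix a base Z of the binary matroid M, R = ↥Z, C = ↥(M.E \ Z), a representation v
over ZMod 2; write v c = Σ_{r ∈ Z} D r c • v r. Then M is represented by the columns of [1 | D]
(colsF (ZMod 2) of a lift of D). If `Free D` then `tutte_matrix` gives X totally unimodular with
red X = D, and `cols_indep_iff` shows that colsF F X represents M for every field F: M is regular.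
Otherwise there is D' with PivT univ D D' and HasF D' or HasF D'ᵀ. Claim by induction on PivT: there
is a bijection e : R ⊕ C ≃ ↥M.E such that M is represented through e by the columns of [1 | D'],
i.e. for all sets I of R ⊕ C: M.Indep (e '' I) ↔ LinearIndepOn (ZMod 2) (cols D') I (the pivot at
(r, c) exchanges the labels of inl r and inr c: apply the linear automorphism which fixes e_i + D i c ... and maps column c
to the unit vector r). If HasF D' with rows f and columns g: contract the elements of the other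
rows, delete those of the other columns: the seven elements are e_1, e_2, e_3 and the columns
011, 101, 110, 111, a Fano matroid. If HasF D'ᵀ (four rows f, three columns g): the minor is
represented by e_1, .., e_4 and three vectors of weight three of GF(2)^4; all seven vectors have
odd weight, i.e. it is AG(3,2) minus the fourth vector of weight three; a linear isomorphism
brings it to the form (v x, 1) with v a bijection onto the nonzero vectors of GF(2)^3 and the
given theorem `isFano_dual_iff` applies.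
-/
theorem fano_minor_of_not_regular {M : Matroid α} (hfin : M.E.Finite)
    (hb : RepOver (ZMod 2) M) (hN : ¬ Regular M) :
    ∃ C D : Set α, C ⊆ M.E ∧ D ⊆ M.E ∧ Disjoint C D ∧
      (IsFano (M ／ C ＼ D) ∨ IsFano (M ／ C ＼ D)✶) := by
  classical
  obtain ⟨Z, hZE, _, D, hD⟩ := f3Pres_exists hfin hb
  have : Finite ↥Z := (hfin.subset hZE).to_subtype
  have : Finite ↥(M.E \ Z) := (hfin.subset Set.sdiff_subset).to_subtype
  have hnf : ¬ Free D := fun hfree => hN (f3_regular hfin hD hfree)
  simp only [Free, not_forall] at hnf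
  obtain ⟨D', hD', hcon⟩ := hnf
  have hP := f3Pres_pivT hD hD'
  rw [not_and_or, not_not, not_not] at hcon
  rcases hcon with ⟨f, g, hfg⟩ | ⟨f, g, hfg⟩
  · have hf : Function.Injective f := by
      intro i j hij
      have h1 : ∀ k, (!![0, 1, 1, 1; 1, 0, 1, 1; 1, 1, 0, 1] :
          Matrix (Fin 3) (Fin 4) (ZMod 2)) i k = (!![0, 1, 1, 1; 1, 0, 1, 1; 1, 1, 0, 1] :
          Matrix (Fin 3) (Fin 4) (ZMod 2)) j k := by
        intro k
        rw [← hfg, ← hfg, hij]
      exact f3_row i j h1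
    have hg : Function.Injective g := by
      intro i j hij
      have h1 : ∀ k, (!![0, 1, 1, 1; 1, 0, 1, 1; 1, 1, 0, 1] :
          Matrix (Fin 3) (Fin 4) (ZMod 2)) k i = (!![0, 1, 1, 1; 1, 0, 1, 1; 1, 1, 0, 1] :
          Matrix (Fin 3) (Fin 4) (ZMod 2)) k j := by
        intro k
        rw [← hfg, ← hfg, hij]
      exact f3_col i j h1
    obtain ⟨C₀, D₀, h1, h2, h3, h, u, _, hr, hu, hl, hc⟩ := f3_minor hP f g hf hg
    refine ⟨C₀, D₀, h1, h2, h3, Or.inl ?_⟩
    refine f3_fano hr hu hl ?_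
    intro c
    rw [hc]
    funext r
    exact hfg r c
  · have hf : Function.Injective f := by
      intro i j hij
      have h1 : ∀ k, (!![0, 1, 1, 1; 1, 0, 1, 1; 1, 1, 0, 1] :
          Matrix (Fin 3) (Fin 4) (ZMod 2)) i k = (!![0, 1, 1, 1; 1, 0, 1, 1; 1, 1, 0, 1] :
          Matrix (Fin 3) (Fin 4) (ZMod 2)) j k := by
        intro k
        rw [← hfg, ← hfg, hij]
      exact f3_row i j h1
    have hg : Function.Injective g := by
      intro i j hij
      have h1 : ∀ k, (!![0, 1, 1, 1; 1, 0, 1, 1; 1, 1, 0, 1] :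
          Matrix (Fin 3) (Fin 4) (ZMod 2)) k i = (!![0, 1, 1, 1; 1, 0, 1, 1; 1, 1, 0, 1] :
          Matrix (Fin 3) (Fin 4) (ZMod 2)) k j := by
        intro k
        rw [← hfg, ← hfg, hij]
      exact f3_col i j h1
    obtain ⟨C₀, D₀, h1, h2, h3, h, u, _, hr, hu, hl, hc⟩ := f3_minor hP g f hg hf
    refine ⟨C₀, D₀, h1, h2, h3, Or.inr ?_⟩
    refine f3_fano_dual hr hu hl ?_
    intro c
    rw [hc]
    funext r
    exact hfg c r

end Pool.Agent.Helper43_EOR
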