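import Mathlib
import Pool.Agent.Helper43_EOR.F1

set_option autoImplicit false

namespace Pool.Agent.Helper43_EOR

open Set Matroid

variable {α : Type*}


/-
JOB F4 (Tutte: a finite matroid without U24 minor is binary).
PLAIN WORDS. Let M be finite without U24 minor (no C, D with IsU24 (M ／ C ＼ D)).
For a base Z of M and e ∈ M.E \ Z let C(e, Z) be the fundamental circuit
(`Matroid.fundCircuit`); put D_Z(z, e) = 1 if z ∈ C(e, Z), 0 otherwise, z ∈ Z. For z ∈ Z,
e ∉ Z: Z \ {z} ∪ {e} is a base iff D_Z(z, e) = 1. Let w_Z : α → (α → ZMod 2) be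
z ↦ single z 1 (z ∈ Z), e ↦ D_Z(·, e).
Claim: for every base Z and every Z' ⊆ M.E with |Z'| = |Z|: Z' is a base of M iff w_Z is linearly
independent on Z'. Then w_Z represents M (independent sets are the subsets of bases; a w_Z
independent set extends to a w_Z independent set of size |Z|).
Proof of the claim by induction on k = |Z' \ Z|, for all Z, Z'. k = 0, 1 clear.
k = 2: Z' = Z \ {z1, z2} ∪ {e1, e2}. Look at the 2 × 2 matrix d_ij = D_Z(z_i, e_j).
In the rank 2 minor N = M ／ (Z \ {z1,z2}) restricted to {z1, z2, e1, e2}: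
z1, z2 are independent; {z_i, e_j} independent iff d_{i'j} = 1 for the other index i'. If some e_j
has d_1j = d_2j = 0, it is a loop of N and Z' is no base; determinant 0. If e1 is parallel to z1
(d_11 = 1, d_21 = 0) then Z' is a base iff {z1, e2} is independent in N iff d_22 = 1; determinant
d_22. Similarly in the other cases with a zero entry. If all four entries are 1, determinant 0,
and if Z' were a base, N would be U24.
k ≥ 3. If the submatrix of D_Z on rows Z \ Z' and columns Z' \ Z has a zero column e: both sides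
fail: e ∈ cl(Z ∩ Z') as C(e, Z) ⊆ (Z ∩ Z') ∪ {e}, so Z' is dependent. Otherwise choose
e ∈ Z' \ Z, z ∈ Z \ Z' with D_Z(z, e) = 1 and put Z1 = Z \ {z} ∪ {e}, a base. By the case k ≤ 2
(applied to Z) the matrix D_{Z1} is the pivot of D_Z: Z1 \ {y} ∪ {f} differs from Z in at most two
elements, so it is a base of M iff it is w_Z independent; hence D_{Z1}(y, f) = 1 iff
w_Z is independent on Z1 \ {y} ∪ {f}, i.e. D_{Z1}(·, f) are the coordinates of w_Z f in the basis
w_Z '' Z1: the families w_Z and w_{Z1} have the same independent sets. Apply the induction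
hypothesis to Z1, Z' (|Z' \ Z1| = k - 1).
-/
/-- The matroid of a finite family of vectors. -/
noncomputable def EORF4_vec (F : Type*) {V : Type*} [Field F] [AddCommGroup V] [Module F V]
    (w : α → V) {E : Set α} (hE : E.Finite) : Matroid α :=
  (IndepMatroid.ofFinite hE (fun I => I ⊆ E ∧ LinearIndepOn F w I)
    ⟨Set.empty_subset _, linearIndepOn_empty F w⟩
    (fun _ _ hJ hIJ => ⟨hIJ.trans hJ.1, hJ.2.mono hIJ⟩)
    (by
      rintro I J ⟨hI, hI'⟩ ⟨hJ, hJ'⟩ hlt
      by_contra hcon
      push Not at hcon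
      have h1 : ∀ e ∈ J, w e ∈ Submodule.span F (w '' I) := by
        intro e he
        by_contra h2
        have he' : e ∉ I := fun h => h2 (Submodule.subset_span ⟨e, h, rfl⟩)
        exact hcon e he he' (Set.insert_subset (hJ he) hI) (hI'.insert h2)
      have h2 : Submodule.span F (w '' J) ≤ Submodule.span F (w '' I) := by
        rw [Submodule.span_le]
        rintro _ ⟨e, he, rfl⟩
        exact h1 e he
      have h3 := Cardinal.toENat.monotone' (Submodule.rank_mono h2)
      have h4 : J.encard ≤ I.encard := by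
        rw [← toENat_rank_span_set hI', ← toENat_rank_span_set hJ']
        exact h3
      rw [← (hE.subset hI).cast_ncard_eq, ← (hE.subset hJ).cast_ncard_eq] at h4
      have h5 : J.ncard ≤ I.ncard := by exact_mod_cast h4
      omega)
    (fun _ hI => hI.1)).matroid

theorem EORF4_vec_indep {F V : Type*} [Field F] [AddCommGroup V] [Module F V] {w : α → V}
    {E : Set α} {hE : E.Finite} {I : Set α} :
    (EORF4_vec F w hE).Indep I ↔ I ⊆ E ∧ LinearIndepOn F w I := Iff.rfl

theorem EORF4_vec_E {F V : Type*} [Field F] [AddCommGroup V] [Module F V] {w : α → V}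
    {E : Set α} {hE : E.Finite} : (EORF4_vec F w hE).E = E := rfl

/-- Exchange of one element. -/
theorem EORF4_one {M : Matroid α} {C : Set α} {z e : α} (hB : M.IsBase (insert z C))
    (hz : z ∉ C) (hez : e ≠ z) (he : e ∉ C) : M.IsBase (insert e C) ↔ M.Indep (insert e C) := by
  refine ⟨fun h => h.indep, fun h => ?_⟩
  have h1 : insert z C \ {z} = C := by
    ext x
    simp only [Set.mem_sdiff, Set.mem_insert_iff, Set.mem_singleton_iff]
    constructor
    · rintro ⟨h | h, h'⟩
      · exact absurd h h'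
      · exact h
    · intro h
      exact ⟨Or.inr h, fun h' => hz (h' ▸ h)⟩
  have h2 := hB.exchange_isBase_of_indep (e := z) (f := e)
    (by simp [hez, he]) (by rw [h1]; exact h)
  rwa [h1] at h2

/-- Exchange of two elements. -/
theorem EORF4_two {M : Matroid α} (hfin : M.E.Finite) {C : Set α} {z₁ z₂ e₁ e₂ : α}
    (hB : M.IsBase (insert z₁ (insert z₂ C))) (hz : z₁ ≠ z₂) (hz₁ : z₁ ∉ C) (hz₂ : z₂ ∉ C)
    (he : e₁ ≠ e₂) (he₁ : e₁ ∉ C) (he₂ : e₂ ∉ C) :
    M.IsBase (insert e₁ (insert e₂ C)) ↔ M.Indep (insert e₁ (insert e₂ C)) := by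
  refine ⟨fun h => h.indep, fun h => ?_⟩
  obtain ⟨B', hB', hsub⟩ := h.exists_isBase_superset
  have h1 := hB'.encard_eq_encard_of_isBase hB
  rw [Set.encard_insert_of_notMem (by simp [hz, hz₁]), Set.encard_insert_of_notMem hz₂] at h1
  have h2 : (insert e₁ (insert e₂ C)).encard = C.encard + 1 + 1 := by
    rw [Set.encard_insert_of_notMem (by simp [he, he₁]), Set.encard_insert_of_notMem he₂]
  have h3 := Set.Finite.eq_of_subset_of_encard_le (hfin.subset h.subset_ground) hsub
    (by rw [h1, h2])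
  rw [h3]
  exact hB'

/-- The case with a zero entry. -/
theorem EORF4_zero {M : Matroid α} {C : Set α} {z₁ z₂ e₁ e₂ : α}
    (hB : M.Indep (insert z₁ (insert z₂ C))) (hz : z₁ ≠ z₂) (hz₁ : z₁ ∉ C) (hz₂ : z₂ ∉ C)
    (he : e₁ ≠ e₂) (he₁ : e₁ ∉ C) (he₂ : e₂ ∉ C) (h₁₁ : e₁ ≠ z₁) (h₁₂ : e₁ ≠ z₂)
    (h₂₂ : e₂ ≠ z₂) (hE₁ : e₁ ∈ M.E) (hE₂ : e₂ ∈ M.E)
    (h0 : ¬ M.Indep (insert e₁ (insert z₂ C))) :
    M.Indep (insert e₁ (insert e₂ C)) ↔
      M.Indep (insert e₁ (insert z₁ C)) ∧ M.Indep (insert e₂ (insert z₂ C)) := by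
  have hC : M.Indep C := hB.subset (by
    intro x hx
    simp [hx])
  have hz₂C : M.Indep (insert z₂ C) := hB.subset (Set.subset_insert _ _)
  have h1 : e₁ ∈ M.closure (insert z₂ C) := by
    by_contra h
    exact h0 ((hz₂C.insert_indep_iff_of_notMem (by simp [h₁₂, he₁])).2 ⟨hE₁, h⟩)
  have h2 : z₁ ∈ M.E \ M.closure (insert z₂ C) :=
    (hz₂C.insert_indep_iff_of_notMem (by simp [hz, hz₁])).1 hB
  have key : M.Indep (insert e₁ C) → M.closure (insert e₁ C) = M.closure (insert z₂ C) := by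
    intro h
    have h3 : e₁ ∈ M.E \ M.closure C := (hC.insert_indep_iff_of_notMem he₁).1 h
    exact closure_insert_congr ⟨h1, h3.2⟩
  constructor
  · intro h
    have h3 : M.Indep (insert e₁ C) := h.subset (Set.insert_subset_insert (Set.subset_insert _ _))
    have h4 := key h3
    rw [Set.insert_comm e₁ z₁, Set.insert_comm e₁ e₂] at *
    refine ⟨(h3.insert_indep_iff_of_notMem (by simp [h₁₁.symm, hz₁])).2 (by rw [h4]; exact h2), ?_⟩
    refine (hz₂C.insert_indep_iff_of_notMem (by simp [h₂₂, he₂])).2 ?_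
    rw [← h4]
    exact (h3.insert_indep_iff_of_notMem (by simp [he.symm, he₂])).1 h
  · rintro ⟨h, h'⟩
    have h3 : M.Indep (insert e₁ C) := h.subset (Set.insert_subset_insert (Set.subset_insert _ _))
    have h4 := key h3
    rw [Set.insert_comm e₁ e₂]
    refine (h3.insert_indep_iff_of_notMem (by simp [he.symm, he₂])).2 ?_
    rw [h4]
    exact (hz₂C.insert_indep_iff_of_notMem (by simp [h₂₂, he₂])).1 h'

/-- No minor with four elements and rank two all of whose pairs are independent. -/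
def EORF4_good (M : Matroid α) : Prop :=
  ∀ (C : Set α) (z₁ z₂ e₁ e₂ : α), M.Indep (insert z₁ (insert z₂ C)) → z₁ ≠ z₂ → z₁ ∉ C →
    z₂ ∉ C → e₁ ≠ e₂ → e₁ ∉ C → e₂ ∉ C → e₁ ≠ z₁ → e₁ ≠ z₂ → e₂ ≠ z₁ → e₂ ≠ z₂ →
    M.IsBase (insert z₁ (insert z₂ C)) →
    M.Indep (insert e₁ (insert z₁ C)) → M.Indep (insert e₁ (insert z₂ C)) →
    M.Indep (insert e₂ (insert z₁ C)) → M.Indep (insert e₂ (insert z₂ C)) →
    ¬ M.Indep (insert e₁ (insert e₂ C))

/-- Two matroids that agree near a base agree at distance two. -/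
theorem EORF4_agree {M N : Matroid α} (hE : M.E = N.E) (hM : EORF4_good M) (hN : EORF4_good N)
    {C : Set α} {z₁ z₂ e₁ e₂ : α}
    (hB : M.IsBase (insert z₁ (insert z₂ C))) (hB' : N.IsBase (insert z₁ (insert z₂ C)))
    (hz : z₁ ≠ z₂) (hz₁ : z₁ ∉ C) (hz₂ : z₂ ∉ C)
    (he : e₁ ≠ e₂) (he₁ : e₁ ∉ C) (he₂ : e₂ ∉ C) (h₁₁ : e₁ ≠ z₁) (h₁₂ : e₁ ≠ z₂)
    (h₂₁ : e₂ ≠ z₁) (h₂₂ : e₂ ≠ z₂) (hE₁ : e₁ ∈ M.E) (hE₂ : e₂ ∈ M.E)
    (a₁₁ : M.Indep (insert e₁ (insert z₁ C)) ↔ N.Indep (insert e₁ (insert z₁ C)))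
    (a₁₂ : M.Indep (insert e₁ (insert z₂ C)) ↔ N.Indep (insert e₁ (insert z₂ C)))
    (a₂₁ : M.Indep (insert e₂ (insert z₁ C)) ↔ N.Indep (insert e₂ (insert z₁ C)))
    (a₂₂ : M.Indep (insert e₂ (insert z₂ C)) ↔ N.Indep (insert e₂ (insert z₂ C))) :
    M.Indep (insert e₁ (insert e₂ C)) ↔ N.Indep (insert e₁ (insert e₂ C)) := by
  have hBi := hB.indep
  have hBi' := hB'.indep
  have hBs : M.Indep (insert z₂ (insert z₁ C)) := by rw [Set.insert_comm]; exact hBi
  have hBs' : N.Indep (insert z₂ (insert z₁ C)) := by rw [Set.insert_comm]; exact hBi'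
  have hF₁ : e₁ ∈ N.E := hE ▸ hE₁
  have hF₂ : e₂ ∈ N.E := hE ▸ hE₂
  by_cases c₁₂ : M.Indep (insert e₁ (insert z₂ C))
  · by_cases c₁₁ : M.Indep (insert e₁ (insert z₁ C))
    · by_cases c₂₂ : M.Indep (insert e₂ (insert z₂ C))
      · by_cases c₂₁ : M.Indep (insert e₂ (insert z₁ C))
        · refine iff_of_false ?_ ?_
          · exact hM C z₁ z₂ e₁ e₂ hBi hz hz₁ hz₂ he he₁ he₂ h₁₁ h₁₂ h₂₁ h₂₂ hB c₁₁ c₁₂ c₂₁ c₂₂
          · exact hN C z₁ z₂ e₁ e₂ hBi' hz hz₁ hz₂ he he₁ he₂ h₁₁ h₁₂ h₂₁ h₂₂ hB' (a₁₁.1 c₁₁)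
              (a₁₂.1 c₁₂) (a₂₁.1 c₂₁) (a₂₂.1 c₂₂)
        · rw [Set.insert_comm e₁ e₂,
            EORF4_zero hBs hz.symm hz₂ hz₁ he.symm he₂ he₁ h₂₂ h₂₁ h₁₁ hE₂ hE₁ c₂₁,
            EORF4_zero hBs' hz.symm hz₂ hz₁ he.symm he₂ he₁ h₂₂ h₂₁ h₁₁ hF₂ hF₁
              (fun h => c₂₁ (a₂₁.2 h)), a₂₂, a₁₁]
      · rw [Set.insert_comm e₁ e₂,
          EORF4_zero hBi hz hz₁ hz₂ he.symm he₂ he₁ h₂₁ h₂₂ h₁₂ hE₂ hE₁ c₂₂,
          EORF4_zero hBi' hz hz₁ hz₂ he.symm he₂ he₁ h₂₁ h₂₂ h₁₂ hF₂ hF₁
            (fun h => c₂₂ (a₂₂.2 h)), a₂₁, a₁₂]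
    · rw [EORF4_zero hBs hz.symm hz₂ hz₁ he he₁ he₂ h₁₂ h₁₁ h₂₁ hE₁ hE₂ c₁₁,
        EORF4_zero hBs' hz.symm hz₂ hz₁ he he₁ he₂ h₁₂ h₁₁ h₂₁ hF₁ hF₂
          (fun h => c₁₁ (a₁₁.2 h)), a₁₂, a₂₁]
  · rw [EORF4_zero hBi hz hz₁ hz₂ he he₁ he₂ h₁₁ h₁₂ h₂₂ hE₁ hE₂ c₁₂,
      EORF4_zero hBi' hz hz₁ hz₂ he he₁ he₂ h₁₁ h₁₂ h₂₂ hF₁ hF₂
        (fun h => c₁₂ (a₁₂.2 h)), a₁₁, a₂₂]

/-- Two matroids agree near the common base `Z`. -/
def EORF4_near (M N : Matroid α) (Z : Set α) : Prop :=
  M.IsBase Z ∧ N.IsBase Z ∧ ∀ z ∈ Z, ∀ e ∈ M.E, e ∉ Z →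
    (M.IsBase (insert e (Z \ {z})) ↔ N.IsBase (insert e (Z \ {z})))

theorem EORF4_sdiff {C : Set α} {z : α} (hz : z ∉ C) : insert z C \ {z} = C := by
  ext x
  simp only [Set.mem_sdiff, Set.mem_insert_iff, Set.mem_singleton_iff]
  constructor
  · rintro ⟨h | h, h'⟩
    · exact absurd h h'
    · exact h
  · intro h
    exact ⟨Or.inr h, fun h' => hz (h' ▸ h)⟩

theorem EORF4_insert_sdiff {C : Set α} {z : α} (hz : z ∈ C) : insert z (C \ {z}) = C := by
  ext x
  simp only [Set.mem_sdiff, Set.mem_insert_iff, Set.mem_singleton_iff]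
  constructor
  · rintro (h | h)
    · rw [h]; exact hz
    · exact h.1
  · intro h
    by_cases h' : x = z
    · exact Or.inl h'
    · exact Or.inr ⟨h, h'⟩

/-- The pivot step. -/
theorem EORF4_pivot {M N : Matroid α} (hfin : M.E.Finite) (hE : M.E = N.E) (hM : EORF4_good M)
    (hN : EORF4_good N) {Z : Set α} (h : EORF4_near M N Z) {z e : α} (hz : z ∈ Z) (he : e ∈ M.E)
    (heZ : e ∉ Z) (hb : M.IsBase (insert e (Z \ {z}))) :
    EORF4_near M N (insert e (Z \ {z})) := by
  obtain ⟨h1, h2, h3⟩ := h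
  have hfin' : N.E.Finite := hE ▸ hfin
  have hb' := (h3 z hz e he heZ).1 hb
  have hez : e ≠ z := fun h => heZ (h ▸ hz)
  have heC : e ∉ Z \ {z} := fun h => heZ h.1
  refine ⟨hb, hb', ?_⟩
  intro y hy f hf hfZ
  have hfe : f ≠ e := fun h => hfZ (h ▸ Set.mem_insert _ _)
  by_cases hye : y = e
  · rw [hye, EORF4_sdiff heC]
    by_cases hfz : f = z
    · rw [hfz, EORF4_insert_sdiff hz]
      exact iff_of_true h1 h2
    · refine h3 z hz f hf fun h => hfZ ?_
      exact Set.mem_insert_of_mem _ ⟨h, hfz⟩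
  · have hyZ : y ∈ Z \ {z} := by
      rcases Set.mem_insert_iff.1 hy with h | h
      · exact absurd h hye
      · exact h
    have hyz : y ≠ z := hyZ.2
    set C := (Z \ {z}) \ {y} with hC
    have hyC : y ∉ C := fun h => h.2 rfl
    have hzC : z ∉ C := fun h => h.1.2 rfl
    have heC' : e ∉ C := fun h => heC h.1
    have e1 : Z \ {z} = insert y C := (EORF4_insert_sdiff hyZ).symm
    have e2 : Z = insert z (insert y C) := by rw [← e1]; exact (EORF4_insert_sdiff hz).symm
    have e3 : insert e (Z \ {z}) \ {y} = insert e C := by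
      rw [e1, Set.insert_comm]
      exact EORF4_sdiff (by simp [hye, hyC])
    have e4 : Z \ {y} = insert z C := by
      rw [e2, Set.insert_comm]
      exact EORF4_sdiff (by simp [hyz, hyC])
    rw [e3]
    by_cases hfz : f = z
    · rw [hfz, Set.insert_comm, ← e4]
      exact h3 y hyZ.1 e he heZ
    · have hfC : f ∉ C := fun h => hfZ (Set.mem_insert_of_mem _ h.1)
      have hfy : f ≠ y := by
        intro h
        apply hfZ
        rw [h]
        exact hy
      have hfZ' : f ∉ Z := by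
        rw [e2]
        simp [hfz, hfy, hfC]
      have hB : M.IsBase (insert z (insert y C)) := e2 ▸ h1
      have hB' : N.IsBase (insert z (insert y C)) := e2 ▸ h2
      rw [EORF4_two hfin hB hyz.symm hzC hyC hfe hfC heC',
        EORF4_two hfin' hB' hyz.symm hzC hyC hfe hfC heC']
      have key : ∀ g ∈ M.E, g ∉ Z →
          (M.Indep (insert g (insert z C)) ↔ N.Indep (insert g (insert z C))) ∧
          (M.Indep (insert g (insert y C)) ↔ N.Indep (insert g (insert y C))) := by
        intro g hg hgZ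
        have hgz : g ≠ z := fun h => hgZ (h ▸ hz)
        have hgy : g ≠ y := fun h => hgZ (h ▸ hyZ.1)
        have hgC : g ∉ C := fun h => hgZ h.1.1
        constructor
        · have h4 := h3 y hyZ.1 g hg hgZ
          rw [e4] at h4
          rw [← EORF4_one (C := insert z C) (z := y) (by rw [Set.insert_comm]; exact hB)
            (by simp [hyz, hyC]) hgy (by simp [hgz, hgC]),
            ← EORF4_one (C := insert z C) (z := y) (by rw [Set.insert_comm]; exact hB')
            (by simp [hyz, hyC]) hgy (by simp [hgz, hgC])]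
          exact h4
        · have h4 := h3 z hz g hg hgZ
          rw [e1] at h4
          rw [← EORF4_one (C := insert y C) (z := z) hB
            (by simp [hyz.symm, hzC]) hgz (by simp [hgy, hgC]),
            ← EORF4_one (C := insert y C) (z := z) hB'
            (by simp [hyz.symm, hzC]) hgz (by simp [hgy, hgC])]
          exact h4
      obtain ⟨k1, k2⟩ := key f hf hfZ'
      obtain ⟨k3, k4⟩ := key e he heZ
      have hye' : e ≠ y := fun h => hye h.symm
      exact EORF4_agree hE hM hN hB hB' hyz.symm hzC hyC hfe hfC heC' hfz hfy hez hye' hf he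
        k1 k2 k3 k4

theorem EORF4_ind {M N : Matroid α} (hfin : M.E.Finite) (hE : M.E = N.E) (hM : EORF4_good M)
    (hN : EORF4_good N) : ∀ (n : ℕ) (Z Z' : Set α), EORF4_near M N Z → M.IsBase Z' →
      (Z' \ Z).ncard = n → N.IsBase Z' := by
  intro n
  induction n with
  | zero =>
    intro Z Z' h hZ' h0
    have hf : (Z' \ Z).Finite := (hfin.subset hZ'.subset_ground).subset Set.sdiff_subset
    rw [Set.ncard_eq_zero hf, Set.sdiff_eq_empty] at h0
    have := hZ'.eq_of_subset_isBase h.1 h0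
    rw [this]
    exact h.2.1
  | succ n ih =>
    intro Z Z' h hZ' hn
    have hf : (Z' \ Z).Finite := (hfin.subset hZ'.subset_ground).subset Set.sdiff_subset
    by_cases hsub : Z ⊆ Z'
    · have := h.1.eq_of_subset_isBase hZ' hsub
      rw [this] at hn
      simp at hn
    · obtain ⟨z, hz, hz'⟩ := Set.not_subset.1 hsub
      obtain ⟨e, he, hb⟩ := h.1.exchange hZ' ⟨hz, hz'⟩
      have h1 := EORF4_pivot hfin hE hM hN h hz (hZ'.subset_ground he.1) he.2 hb
      refine ih _ Z' h1 hZ' ?_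
      have h2 : Z' \ insert e (Z \ {z}) = (Z' \ Z) \ {e} := by
        ext x
        simp only [Set.mem_sdiff, Set.mem_insert_iff, Set.mem_singleton_iff, not_or, not_and,
          not_not]
        constructor
        · rintro ⟨h3, h4, h5⟩
          refine ⟨⟨h3, fun h6 => ?_⟩, h4⟩
          exact hz' (h5 h6 ▸ h3)
        · rintro ⟨⟨h3, h4⟩, h5⟩
          exact ⟨h3, h5, fun h6 => absurd h6 h4⟩
      rw [h2, Set.ncard_sdiff_singleton_of_mem he, hn]
      rfl

theorem EORF4_near_symm {M N : Matroid α} (hE : M.E = N.E) {Z : Set α} (h : EORF4_near M N Z) :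
    EORF4_near N M Z :=
  ⟨h.2.1, h.1, fun z hz e he heZ => (h.2.2 z hz e (hE ▸ he) heZ).symm⟩

theorem EORF4_eq {M N : Matroid α} (hfin : M.E.Finite) (hE : M.E = N.E) (hM : EORF4_good M)
    (hN : EORF4_good N) {Z : Set α} (h : EORF4_near M N Z) : M = N := by
  refine Matroid.ext_isBase hE fun Z' _ => ⟨fun hZ' => ?_, fun hZ' => ?_⟩
  · exact EORF4_ind hfin hE hM hN _ Z Z' h hZ' rfl
  · exact EORF4_ind (hE ▸ hfin) hE.symm hN hM _ Z Z' (EORF4_near_symm hE h) hZ' rfl

/-- Binary matroids are good. -/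
theorem EORF4_good_vec {V : Type*} [AddCommGroup V] [Module (ZMod 2) V] (w : α → V)
    {E : Set α} (hE : E.Finite) : EORF4_good (EORF4_vec (ZMod 2) w hE) := by
  intro C z₁ z₂ e₁ e₂ hI hz hz₁ hz₂ he he₁ he₂ h₁₁ h₁₂ h₂₁ h₂₂ hB c₁₁ c₁₂ c₂₁ c₂₂ hcon
  have hcoef : ∀ g ∈ E, g ≠ z₁ → g ≠ z₂ → g ∉ C →
      (EORF4_vec (ZMod 2) w hE).Indep (insert g (insert z₁ C)) →
      (EORF4_vec (ZMod 2) w hE).Indep (insert g (insert z₂ C)) →
      ∃ c ∈ Submodule.span (ZMod 2) (w '' C), w g = w z₁ + w z₂ + c := by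
    intro g hg hg1 hg2 hgC k1 k2
    have h1 : w g ∈ Submodule.span (ZMod 2) (w '' (insert z₁ (insert z₂ C))) := by
      by_contra h
      have h2 : (EORF4_vec (ZMod 2) w hE).Indep (insert g (insert z₁ (insert z₂ C))) :=
        ⟨Set.insert_subset hg hI.1, hI.2.insert h⟩
      have h3 := hB.mem_of_insert_indep h2
      simp only [Set.mem_insert_iff] at h3
      rcases h3 with h3 | h3 | h3
      · exact hg1 h3
      · exact hg2 h3
      · exact hgC h3
    rw [Set.image_insert_eq, Set.image_insert_eq] at h1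
    obtain ⟨a, y, hy, h4⟩ := Submodule.mem_span_insert.1 h1
    obtain ⟨b, c, hc, h5⟩ := Submodule.mem_span_insert.1 hy
    have ha : a ≠ 0 := by
      rintro rfl
      rw [zero_smul, zero_add] at h4
      refine k2.2.notMem_span_of_insert (by simp [hg2, hgC]) ?_
      rw [Set.image_insert_eq, h4]
      exact hy
    have hb : b ≠ 0 := by
      rintro rfl
      rw [zero_smul, zero_add] at h5
      refine k1.2.notMem_span_of_insert (by simp [hg1, hgC]) ?_
      rw [Set.image_insert_eq, h4, h5]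
      exact Submodule.mem_span_insert.2 ⟨a, c, hc, rfl⟩
    have h01 : ∀ x : ZMod 2, x ≠ 0 → x = 1 := by decide
    rw [h01 a ha, one_smul] at h4
    rw [h01 b hb, one_smul] at h5
    exact ⟨c, hc, by rw [h4, h5, add_assoc]⟩
  obtain ⟨c, hc, h1⟩ := hcoef e₁ (hcon.1 (Set.mem_insert _ _)) h₁₁ h₁₂ he₁ c₁₁ c₁₂
  obtain ⟨d, hd, h2⟩ := hcoef e₂ (hcon.1 (Set.mem_insert_of_mem _ (Set.mem_insert _ _)))
    h₂₁ h₂₂ he₂ c₂₁ c₂₂
  refine hcon.2.notMem_span_of_insert (by simp [he, he₁]) ?_
  rw [Set.image_insert_eq]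
  refine Submodule.mem_span_insert.2 ⟨1, c - d, Submodule.sub_mem _ hc hd, ?_⟩
  rw [h1, one_smul, h2]
  abel

/-- Without a minor `U_{2,4}` a matroid is good. -/
theorem EORF4_good_of {M : Matroid α} (hfin : M.E.Finite)
    (h : ¬ ∃ C D : Set α, C ⊆ M.E ∧ D ⊆ M.E ∧ Disjoint C D ∧ IsU24 (M ／ C ＼ D)) :
    EORF4_good M := by
  intro C z₁ z₂ e₁ e₂ hI hz hz₁ hz₂ he he₁ he₂ h₁₁ h₁₂ h₂₁ h₂₂ hB c₁₁ c₁₂ c₂₁ c₂₂ hcon
  apply h
  have hC : M.Indep C := hI.subset (by intro x hx; simp [hx])
  have hCE := hC.subset_ground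
  have hz₁E : z₁ ∈ M.E := hI.subset_ground (by simp)
  have hz₂E : z₂ ∈ M.E := hI.subset_ground (by simp)
  have he₁E : e₁ ∈ M.E := hcon.subset_ground (by simp)
  have he₂E : e₂ ∈ M.E := hcon.subset_ground (by simp)
  set Q : Set α := {z₁, z₂, e₁, e₂} with hQ
  have hQE : Q ⊆ M.E := by
    intro x hx
    simp only [hQ, Set.mem_insert_iff, Set.mem_singleton_iff] at hx
    rcases hx with rfl | rfl | rfl | rfl <;> assumption
  have hQC : Disjoint Q C := by
    rw [Set.disjoint_left]
    intro x hx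
    simp only [hQ, Set.mem_insert_iff, Set.mem_singleton_iff] at hx
    rcases hx with rfl | rfl | rfl | rfl <;> assumption
  have hground : (M ／ C ＼ (M.E \ (C ∪ Q))).E = Q := by
    rw [delete_ground, contract_ground]
    ext x
    simp only [Set.mem_sdiff, Set.mem_union, not_and, not_not]
    constructor
    · rintro ⟨⟨k1, k2⟩, k3⟩
      rcases k3 k1 with k | k
      · exact absurd k k2
      · exact k
    · intro k
      exact ⟨⟨hQE k, Set.disjoint_left.1 hQC k⟩, fun _ => Or.inr k⟩
  refine ⟨C, M.E \ (C ∪ Q), hCE, Set.sdiff_subset, ?_, ?_, ?_⟩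
  · rw [Set.disjoint_left]
    intro x hx hx'
    exact hx'.2 (Or.inl hx)
  · rw [hground, hQ]
    rw [Set.encard_insert_of_notMem (by simp [hz, h₁₁.symm, h₂₁.symm]),
      Set.encard_insert_of_notMem (by simp [h₁₂.symm, h₂₂.symm]),
      Set.encard_insert_of_notMem (by simp [he]), Set.encard_singleton]
    norm_num
  · intro I hIQ
    rw [hground] at hIQ
    have hIC : Disjoint I C := Set.disjoint_of_subset_left hIQ hQC
    have hID : Disjoint I (M.E \ (C ∪ Q)) := by
      rw [Set.disjoint_left]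
      intro x hx hx'
      exact hx'.2 (Or.inr (hIQ hx))
    rw [delete_indep_iff, hC.contract_indep_iff]
    have hiff : ((Disjoint I C ∧ M.Indep (I ∪ C)) ∧ Disjoint I (M.E \ (C ∪ Q))) ↔
        M.Indep (I ∪ C) := by tauto
    rw [hiff]
    constructor
    · intro hIi
      obtain ⟨B', hB', hsub⟩ := hIi.exists_isBase_superset
      have h1 := Set.encard_le_encard hsub
      rw [hB'.encard_eq_encard_of_isBase hB, Set.encard_union_eq hIC,
        Set.encard_insert_of_notMem (by simp [hz, hz₁]), Set.encard_insert_of_notMem hz₂,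
        add_comm, add_assoc] at h1
      have hfC : C.encard ≠ ⊤ := (hfin.subset hCE).encard_lt_top.ne
      have h2 := (ENat.add_le_add_iff_left hfC).1 h1
      rw [one_add_one_eq_two] at h2
      exact h2
    · intro hI2
      -- all pairs are independent
      have hpair : ∀ a ∈ Q, ∀ b ∈ Q, a ≠ b → M.Indep (insert a (insert b C)) := by
        intro a ha b hb hab
        simp only [hQ, Set.mem_insert_iff, Set.mem_singleton_iff] at ha hb
        rcases ha with rfl | rfl | rfl | rfl <;> rcases hb with rfl | rfl | rfl | rfl <;>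
          first
          | exact absurd rfl hab
          | assumption
          | (rw [Set.insert_comm]; assumption)
      have hother : ∀ a ∈ Q, ∃ b ∈ Q, a ≠ b := by
        intro a ha
        by_cases hab : a = z₁
        · exact ⟨z₂, by simp [hQ], hab ▸ hz⟩
        · exact ⟨z₁, by simp [hQ], hab⟩
      rcases Set.eq_empty_or_nonempty I with hI0 | hI0
      · rw [hI0, Set.empty_union]
        exact hC
      · obtain ⟨a, ha⟩ := hI0
        by_cases hI1 : I = {a}
        · obtain ⟨b, hb, hab⟩ := hother a (hIQ ha)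
          refine (hpair a (hIQ ha) b hb hab).subset ?_
          rw [hI1]
          intro x hx
          rcases hx with hx | hx
          · rw [Set.mem_singleton_iff.1 hx]
            exact Set.mem_insert _ _
          · exact Set.mem_insert_of_mem _ (Set.mem_insert_of_mem _ hx)
        · obtain ⟨b, hb, hab⟩ : ∃ b ∈ I, b ≠ a := by
            by_contra hcon'
            push Not at hcon'
            exact hI1 (Set.eq_singleton_iff_unique_mem.2 ⟨ha, hcon'⟩)
          have h3 : ({a, b} : Set α) ⊆ I := by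
            intro x hx
            rcases hx with hx | hx
            · rw [hx]; exact ha
            · rw [Set.mem_singleton_iff.1 hx]; exact hb
          have h4 : ({a, b} : Set α) = I := by
            refine Set.Finite.eq_of_subset_of_encard_le (((hfin.subset hQE).subset hIQ).subset h3) h3 ?_
            rw [Set.encard_pair hab.symm]
            exact hI2
          refine (hpair a (hIQ ha) b (hIQ hb) hab.symm).subset ?_
          rw [← h4]
          intro x hx
          rcases hx with (hx | hx) | hx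
          · rw [hx]
            exact Set.mem_insert _ _
          · rw [Set.mem_singleton_iff.1 hx]
            exact Set.mem_insert_of_mem _ (Set.mem_insert _ _)
          · exact Set.mem_insert_of_mem _ (Set.mem_insert_of_mem _ hx)

theorem u24_minor_of_not_binary {M : Matroid α} (hfin : M.E.Finite)
    (hb : ¬ RepOver (ZMod 2) M) :
    ∃ C D : Set α, C ⊆ M.E ∧ D ⊆ M.E ∧ Disjoint C D ∧ IsU24 (M ／ C ＼ D) := by
  classical
  by_contra hcon
  apply hb
  have hM := EORF4_good_of hfin hcon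
  obtain ⟨Z, hZ⟩ := M.exists_isBase
  have hZf : Z.Finite := hfin.subset hZ.subset_ground
  set w : α → (α → ZMod 2) := fun e => if e ∈ Z then Pi.single e 1 else
    fun z => if z ∈ Z ∧ M.IsBase (insert e (Z \ {z})) then 1 else 0 with hw
  have hwZ : ∀ z ∈ Z, w z = Pi.single z 1 := fun z hz => by simp [hw, hz]
  have hwe : ∀ e, e ∉ Z → ∀ z, w e z = if z ∈ Z ∧ M.IsBase (insert e (Z \ {z})) then 1 else 0 :=
    fun e he z => by simp [hw, he]
  -- elements supported in a subset of Z
  have hspan : ∀ (S : Set α), S ⊆ Z → ∀ v : α → ZMod 2,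
      v ∈ Submodule.span (ZMod 2) (w '' S) ↔ ∀ x, x ∉ S → v x = 0 := by
    intro S hS v
    constructor
    · intro hv
      induction hv using Submodule.span_induction with
      | mem t ht =>
        obtain ⟨s, hs, rfl⟩ := ht
        intro x hx
        rw [hwZ s (hS hs), Pi.single_apply, if_neg]
        rintro rfl
        exact hx hs
      | zero => intro x _; rfl
      | add t t' _ _ h h' => intro x hx; rw [Pi.add_apply, h x hx, h' x hx, add_zero]
      | smul a t _ h => intro x hx; rw [Pi.smul_apply, h x hx, smul_zero]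
    · intro hv
      have hSf : S.Finite := hZf.subset hS
      have : v = ∑ s ∈ hSf.toFinset, v s • w s := by
        funext x
        rw [Finset.sum_apply]
        by_cases hx : x ∈ S
        · rw [Finset.sum_eq_single x]
          · rw [Pi.smul_apply, hwZ x (hS hx)]
            simp
          · intro s hs hsx
            rw [Pi.smul_apply, hwZ s (hS (hSf.mem_toFinset.1 hs)), Pi.single_apply,
              if_neg hsx.symm, smul_zero]
          · intro h
            exact absurd (hSf.mem_toFinset.2 hx) h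
        · rw [hv x hx, Finset.sum_eq_zero]
          intro s hs
          rw [Pi.smul_apply, hwZ s (hS (hSf.mem_toFinset.1 hs)), Pi.single_apply,
            if_neg, smul_zero]
          rintro rfl
          exact hx (hSf.mem_toFinset.1 hs)
      rw [this]
      exact Submodule.sum_mem _ fun s hs => Submodule.smul_mem _ _
        (Submodule.subset_span ⟨s, hSf.mem_toFinset.1 hs, rfl⟩)
  -- Z is independent
  have hLI : LinearIndepOn (ZMod 2) w Z := by
    have h1 : LinearIndependent (ZMod 2) (fun i : α => (Pi.single i 1 : α → ZMod 2)) := by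
      rw [linearIndependent_iff']
      intro s g hg i hi
      have := congrFun hg i
      rw [Finset.sum_apply, Finset.sum_eq_single i] at this
      · simpa using this
      · intro j _ hji
        simp [hji.symm]
      · intro h
        exact absurd hi h
    have h2 : LinearIndepOn (ZMod 2) (fun i : α => (Pi.single i 1 : α → ZMod 2)) Z :=
      h1.linearIndepOn Z
    exact h2.congr fun z hz => (hwZ z hz).symm
  set N := EORF4_vec (ZMod 2) w hfin with hN
  have hNE : M.E = N.E := rfl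
  have hNZ : N.IsBase Z := by
    refine Indep.isBase_of_forall_insert ⟨hZ.subset_ground, hLI⟩ ?_
    intro e he hi
    refine hi.2.notMem_span_of_insert he.2 ?_
    rw [hspan Z subset_rfl]
    intro x hx
    rw [hwe e he.2]
    simp [hx]
  have hnear : EORF4_near M N Z := by
    refine ⟨hZ, hNZ, ?_⟩
    intro z hz e he heZ
    have hze : e ≠ z := fun h => heZ (h ▸ hz)
    have hNi : N.IsBase (insert e (Z \ {z})) ↔ N.Indep (insert e (Z \ {z})) :=
      EORF4_one (z := z) (by rw [EORF4_insert_sdiff hz]; exact hNZ) (fun h => h.2 rfl) hze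
        (fun h => heZ h.1)
    rw [hNi, hN, EORF4_vec_indep]
    have hsub : insert e (Z \ {z}) ⊆ M.E :=
      Set.insert_subset he (Set.sdiff_subset.trans hZ.subset_ground)
    constructor
    · intro hbase
      refine ⟨hsub, (hLI.mono Set.sdiff_subset).insert ?_⟩
      rw [hspan _ Set.sdiff_subset]
      intro hx
      have := hx z (fun h => h.2 rfl)
      rw [hwe e heZ, if_pos ⟨hz, hbase⟩] at this
      exact one_ne_zero this
    · rintro ⟨_, hi⟩
      by_contra hnb
      refine hi.notMem_span_of_insert (fun h => heZ h.1) ?_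
      rw [hspan _ Set.sdiff_subset]
      intro x hx
      rw [hwe e heZ, if_neg]
      rintro ⟨hxZ, hxb⟩
      by_cases hxz : x = z
      · exact hnb (hxz ▸ hxb)
      · exact hx ⟨hxZ, hxz⟩
  have hMN : M = N := EORF4_eq hfin hNE hM (EORF4_good_vec w hfin) hnear
  refine repOver_of_repBy hfin (w := w) ?_
  intro I hI
  constructor
  · intro h
    rw [hMN] at h
    exact h.2
  · intro h
    rw [hMN]
    exact ⟨hI, h⟩

end Pool.Agent.Helper43_EOR
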