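import Mathlib
import Pool.Agent.Helper43_EOR.F3
import Pool.Agent.Helper43_EOR.F4

set_option autoImplicit false

namespace Pool.Agent.Helper43_EOR

open Set Matroid

variable {α : Type*}


/-
JOB F5 (labelled matroids, basic facts).
PLAIN WORDS.
* core_not_regular: by IsU24.not_repOver, IsFano.not_repOver (ℚ), Regular.dual.
* exists_core: by cases on RepOver (ZMod 2) M.
* Lab.dual: (M ＼ {a})✶ = M✶ ／ {a} etc., Regular.dual, the finite ground set M✶.E = M.E.
* Lab.of_minor: if c ∈ C ∩ B then M ／ C ＼ D is a minor of M ／ {c}, regular; if d ∈ D ∩ A then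
  M ／ C ＼ D is a minor of M ＼ {d}.
* Lab.core: exists_core gives C, D; put X = M.E \ (C ∪ D); then C = A \ X and D = B \ X.
* Lab.core_indep: if A \ X is dependent, some a ∈ A \ X is in the closure of the others (it is in a circuit),
  so a is a loop of M ／ ((A \ X) \ {a}) and contracting it is the same as deleting it: the minor
  is a minor of M ＼ {a}, regular. The second statement is the first one for M✶.
* Lab.isBase: A \ X is independent, B \ X is coindependent; for a base R of the minor the set
  (A \ X) ∪ R is a base of M (deleting the coindependent set B \ X from M ／ (A \ X) does not lower the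
  rank; (A \ X) ∪ R is independent; it is spanning).
-/
theorem core_not_regular {N : Matroid α} (hfin : N.E.Finite) (h : IsCore N) : ¬ Regular N := by
  intro hr
  rcases h with h | h | h
  · exact h.not_repOver (hr (ZMod 2))
  · exact h.not_repOver (F := ℚ) (by norm_num) (hr ℚ)
  · exact h.not_repOver (F := ℚ) (by norm_num) ((Regular.dual hfin hr) ℚ)

theorem exists_core {M : Matroid α} (hfin : M.E.Finite) (hN : ¬ Regular M) :
    ∃ C D : Set α, C ⊆ M.E ∧ D ⊆ M.E ∧ Disjoint C D ∧ IsCore (M ／ C ＼ D) := by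
  by_cases hb : RepOver (ZMod 2) M
  · obtain ⟨C, D, hC, hD, hCD, h⟩ := fano_minor_of_not_regular hfin hb hN
    exact ⟨C, D, hC, hD, hCD, Or.inr h⟩
  · obtain ⟨C, D, hC, hD, hCD, h⟩ := u24_minor_of_not_binary hfin hb
    exact ⟨C, D, hC, hD, hCD, Or.inl h⟩

theorem Lab.dual {M : Matroid α} {A B : Set α} (h : Lab M A B) : Lab M✶ B A := by
  refine ⟨h.fin, ?_, h.disj.symm, ?_, ?_⟩
  · rw [union_comm]; exact h.cover
  · intro b hb
    rw [← dual_contract]
    exact Regular.dual (h.fin.subset sdiff_subset) (h.con b hb)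
  · intro a ha
    rw [← dual_delete]
    exact Regular.dual (h.fin.subset sdiff_subset) (h.del a ha)

theorem Lab.of_minor {M : Matroid α} {A B : Set α} (h : Lab M A B) {C D : Set α}
    (hC : C ⊆ M.E) (hD : D ⊆ M.E) (hCD : Disjoint C D) (hN : ¬ Regular (M ／ C ＼ D)) :
    C ⊆ A ∧ D ⊆ B := by
  constructor
  · intro c hc
    by_contra hcA
    have hcB : c ∈ B := by
      have := hC hc
      rw [← h.cover] at this
      exact this.resolve_left hcA
    apply hN
    have e : M ／ C = M ／ {c} ／ C := by
      rw [contract_contract, union_eq_self_of_subset_left (singleton_subset_iff.2 hc)]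
    rw [e]
    exact ((h.con c hcB).contract (h.fin.subset sdiff_subset) C).delete D
  · intro d hd
    by_contra hdB
    have hdA : d ∈ A := by
      have := hD hd
      rw [← h.cover] at this
      exact this.resolve_right hdB
    apply hN
    have e : M ＼ D = M ＼ {d} ＼ D := by
      rw [delete_delete, union_eq_self_of_subset_left (singleton_subset_iff.2 hd)]
    rw [contract_delete_comm _ hCD, e]
    exact ((h.del d hdA).delete D).contract (h.fin.subset (sdiff_subset.trans sdiff_subset)) C

theorem Lab.core {M : Matroid α} {A B : Set α} (h : Lab M A B) (hN : ¬ Regular M) :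
    ∃ X ⊆ M.E, IsCore (M ／ (A \ X) ＼ (B \ X)) := by
  obtain ⟨C, D, hC, hD, hCD, hc⟩ := exists_core h.fin hN
  have hfin : (M ／ C ＼ D).E.Finite := h.fin.subset (sdiff_subset.trans sdiff_subset)
  obtain ⟨hCA, hDB⟩ := h.of_minor hC hD hCD (core_not_regular hfin hc)
  refine ⟨M.E \ (C ∪ D), sdiff_subset, ?_⟩
  have e1 : A \ (M.E \ (C ∪ D)) = C := by
    ext a
    constructor
    · rintro ⟨ha, ha2⟩
      have haE : a ∈ M.E := by rw [← h.cover]; exact Or.inl ha
      have : a ∈ C ∪ D := by
        by_contra hcon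
        exact ha2 ⟨haE, hcon⟩
      rcases this with h1 | h1
      · exact h1
      · exact absurd (hDB h1) (disjoint_left.1 h.disj ha)
    · intro ha
      exact ⟨hCA ha, fun h2 => h2.2 (Or.inl ha)⟩
  have e2 : B \ (M.E \ (C ∪ D)) = D := by
    ext b
    constructor
    · rintro ⟨hb, hb2⟩
      have hbE : b ∈ M.E := by rw [← h.cover]; exact Or.inr hb
      have : b ∈ C ∪ D := by
        by_contra hcon
        exact hb2 ⟨hbE, hcon⟩
      rcases this with h1 | h1
      · exact absurd hb (disjoint_left.1 h.disj (hCA h1))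
      · exact h1
    · intro hb
      exact ⟨hDB hb, fun h2 => h2.2 (Or.inr hb)⟩
  rw [e1, e2]
  exact hc

theorem F5_indep {M : Matroid α} {A B : Set α} (h : Lab M A B) {X : Set α}
    (hN : ¬ Regular (M ／ (A \ X) ＼ (B \ X))) : M.Indep (A \ X) := by
  have hAE : A \ X ⊆ M.E := sdiff_subset.trans (by rw [← h.cover]; exact subset_union_left)
  have hBE : B \ X ⊆ M.E := sdiff_subset.trans (by rw [← h.cover]; exact subset_union_right)
  rw [indep_iff_forall_notMem_closure_sdiff hAE]
  intro a ha hcl
  have hloop : (M ／ ((A \ X) \ {a})).IsLoop a := by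
    rw [contract_isLoop_iff_mem_closure]
    exact ⟨hcl, fun h2 => h2.2 rfl⟩
  have e : M ／ (A \ X) ＼ (B \ X) = M ／ ((A \ X) \ {a}) ＼ ({a} ∪ (B \ X)) := by
    have e1 : M ／ (A \ X) = M ／ ((A \ X) \ {a}) ／ {a} := by
      rw [contract_contract, sdiff_union_of_subset (singleton_subset_iff.2 ha)]
    rw [e1, contract_eq_delete_of_subset_loops (singleton_subset_iff.2 hloop), delete_delete]
  rw [e] at hN
  have haB : a ∉ B := disjoint_left.1 h.disj ha.1
  refine haB ((h.of_minor (sdiff_subset.trans hAE) ?_ ?_ hN).2 (Or.inl rfl))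
  · exact union_subset (singleton_subset_iff.2 (hAE ha)) hBE
  · rw [disjoint_union_right]
    refine ⟨disjoint_sdiff_left, ?_⟩
    exact h.disj.mono (sdiff_subset.trans sdiff_subset) sdiff_subset

theorem Lab.core_indep {M : Matroid α} {A B : Set α} (h : Lab M A B) {X : Set α} (hX : X ⊆ M.E)
    (hN : ¬ Regular (M ／ (A \ X) ＼ (B \ X))) : M.Indep (A \ X) ∧ M✶.Indep (B \ X) := by
  refine ⟨F5_indep h hN, F5_indep h.dual (X := X) ?_⟩
  intro hr
  apply hN
  have hd : Disjoint (A \ X) (B \ X) := h.disj.mono sdiff_subset sdiff_subset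
  rw [contract_delete_comm _ hd]
  rw [← dual_delete_contract] at hr
  have h2 := Regular.dual (M := (M ＼ (B \ X) ／ (A \ X))✶)
    (h.fin.subset (sdiff_subset.trans sdiff_subset)) hr
  rwa [dual_dual] at h2

theorem Lab.isBase {M : Matroid α} {A B : Set α} (h : Lab M A B) {X : Set α} (hX : X ⊆ M.E)
    (hN : ¬ Regular (M ／ (A \ X) ＼ (B \ X))) {R : Set α}
    (hR : (M ／ (A \ X) ＼ (B \ X)).IsBase R) : M.IsBase ((A \ X) ∪ R) := by
  obtain ⟨h1, h2⟩ := h.core_indep hX hN
  have hd : Disjoint (B \ X) (A \ X) := (h.disj.mono sdiff_subset sdiff_subset).symm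
  have h3 : (M ／ (A \ X)).Coindep (B \ X) :=
    Coindep.coindep_contract_of_disjoint (coindep_def.2 h2) hd
  rw [h3.delete_isBase_iff, h1.contract_isBase_iff] at hR
  rw [union_comm]
  exact hR.1.1

end Pool.Agent.Helper43_EOR
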