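import Mathlib
import Pool.Agent.Helper43_EOR.F5

set_option autoImplicit false

namespace Pool.Agent.Helper43_EOR

open Set Matroid

variable {α : Type*}


/-
JOB F6 (minors of binary forms, detection of Fano minors).
PLAIN WORDS.
* minor_form: `BinaryForm M A₁ (M.E \ A₁) Y t` says RepBy (ZMod 2) M (bvec A₁ Y t) (as
  A₁ ∪ (M.E \ A₁) = M.E). Let R : (α → ZMod 2) × (Fin δ → ZMod 2) → (Fin k → ZMod 2) × (Fin δ → ZMod 2)
  be the restriction of the first component to q; co = R ∘ bvec. The span of the vectors bvec x,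
  x ∈ M.E, consists of pairs whose first component is supported on A₁ (finite, or: finitely
  supported on A₁), so the kernel of R on it is the span of the bvec a, a ∈ A₁ \ range q. Now use
  `RepBy.contract_map` with the map T ∘ R, C = (A₁ \ range q) ∪ Zs and D = ∅.
* fano_minor / fanod_minor: use `minor_form`, delete the elements outside; the elements x s are
  different from each other and not in C because T (co (x s)) = s ≠ 0 (co and T ∘ co vanish on C).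
  For fanod_minor compose with the linear map (s, u) ↦ (s + u • z, u) to get z = 0 and use
  isFano_dual_iff.
* obs7, obs7d: combine with core_not_regular and Lab.of_minor.
-/
theorem F6_co_eq {A₁ : Set α} {Y : α → Set α} {δ k : ℕ} {t : α → Fin δ → ZMod 2}
    {q : Fin k → α} : co A₁ Y t q =
      ((LinearMap.funLeft (ZMod 2) (ZMod 2) q).prodMap
        (LinearMap.id : (Fin δ → ZMod 2) →ₗ[ZMod 2] (Fin δ → ZMod 2))) ∘ bvec A₁ Y t := rfl

theorem F6_supp {E A₁ : Set α} {Y : α → Set α} {δ : ℕ} {t : α → Fin δ → ZMod 2}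
    (hY : ∀ b ∈ E \ A₁, Y b ⊆ A₁) {u : (α → ZMod 2) × (Fin δ → ZMod 2)}
    (hu : u ∈ Submodule.span (ZMod 2) (bvec A₁ Y t '' E)) : ∀ a ∉ A₁, u.1 a = 0 := by
  classical
  induction hu using Submodule.span_induction with
  | mem u hu =>
    obtain ⟨x, hx, rfl⟩ := hu
    intro a ha
    by_cases hxA : x ∈ A₁
    · have hax : a ≠ x := by
        rintro rfl
        exact ha hxA
      simp [bvec, hxA, hax]
    · have h1 : a ∉ Y x := fun h => ha (hY x ⟨hx, hxA⟩ h)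
      simp [bvec, hxA, h1]
  | zero => intro a _; rfl
  | add u v _ _ hu hv =>
    intro a ha
    rw [Prod.fst_add, Pi.add_apply, hu a ha, hv a ha, add_zero]
  | smul c u _ hu =>
    intro a ha
    rw [Prod.smul_fst, Pi.smul_apply, hu a ha, smul_zero]

theorem F6_ker {A₁ : Set α} (hfin : A₁.Finite) {Y : α → Set α} {δ k : ℕ} {t : α → Fin δ → ZMod 2}
    {q : Fin k → α} {u : (α → ZMod 2) × (Fin δ → ZMod 2)} (hu : ∀ a ∉ A₁, u.1 a = 0)
    (h2 : u.2 = 0) (hq : ∀ i, u.1 (q i) = 0) :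
    u ∈ Submodule.span (ZMod 2) (bvec A₁ Y t '' (A₁ \ range q)) := by
  classical
  have hfin' : (A₁ \ range q).Finite := hfin.subset sdiff_subset
  have heq : u = ∑ a ∈ hfin'.toFinset, u.1 a • bvec A₁ Y t a := by
    have h3 : ∀ a ∈ hfin'.toFinset, u.1 a • bvec A₁ Y t a =
        ((Pi.single a (u.1 a) : α → ZMod 2), (0 : Fin δ → ZMod 2)) := by
      intro a ha
      have haA : a ∈ A₁ := ((Set.Finite.mem_toFinset hfin').1 ha).1
      refine Prod.ext ?_ ?_
      · simp only [bvec, if_pos haA, Prod.smul_fst]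
        funext b
        by_cases hb : b = a
        · subst hb
          simp
        · simp [hb]
      · simp [bvec, haA]
    rw [Finset.sum_congr rfl h3]
    refine Prod.ext ?_ ?_
    · rw [Prod.fst_sum]
      funext b
      rw [Finset.sum_apply]
      by_cases hb : b ∈ A₁ \ range q
      · rw [Finset.sum_eq_single b]
        · simp
        · intro a _ hab
          simp [hab.symm]
        · intro h
          exact absurd ((Set.Finite.mem_toFinset hfin').2 hb) h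
      · rw [Finset.sum_eq_zero]
        · by_cases hbA : b ∈ A₁
          · have hbq : b ∈ range q := by
              by_contra hcon
              exact hb ⟨hbA, hcon⟩
            obtain ⟨i, rfl⟩ := hbq
            exact hq i
          · exact hu b hbA
        · intro a ha
          have hab : b ≠ a := by
            rintro rfl
            exact hb ((Set.Finite.mem_toFinset hfin').1 ha)
          simp [hab]
    · rw [Prod.snd_sum, h2]
      simp
  rw [heq]
  exact Submodule.sum_mem _ fun a ha => Submodule.smul_mem _ _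
    (Submodule.subset_span ⟨a, (Set.Finite.mem_toFinset hfin').1 ha, rfl⟩)

theorem F6_congr {F : Type*} [Field F] {V : Type*} [AddCommGroup V] [Module F V]
    {M : Matroid α} {w w' : α → V} (h : RepBy F M w) (hw : ∀ x ∈ M.E, w x = w' x) :
    RepBy F M w' := by
  intro I hI
  rw [h I hI]
  exact linearIndepOn_congr fun x hx => hw x (hI hx)

/-- (finiteness of `M` is needed) -/
theorem minor_form {M : Matroid α} {A₁ : Set α} {Y : α → Set α} {δ : ℕ}
    {t : α → Fin δ → ZMod 2} (hA₁ : A₁ ⊆ M.E) (hfin : M.E.Finite)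
    (hB : BinaryForm M A₁ (M.E \ A₁) Y t)
    {k : ℕ} {q : Fin k → α} (hq : q.Injective) (hqA : ∀ i, q i ∈ A₁)
    {Zs : Set α} (hZ : Zs ⊆ M.E) {W : Type*} [AddCommGroup W] [Module (ZMod 2) W]
    (T : (Fin k → ZMod 2) × (Fin δ → ZMod 2) →ₗ[ZMod 2] W)
    (hT0 : ∀ z ∈ Zs, T (co A₁ Y t q z) = 0)
    (hker : ∀ y, T y = 0 → y ∈ Submodule.span (ZMod 2) (co A₁ Y t q '' Zs)) :
    RepBy (ZMod 2) (M ／ ((A₁ \ range q) ∪ Zs)) (T ∘ co A₁ Y t q) := by
  classical
  set R := ((LinearMap.funLeft (ZMod 2) (ZMod 2) q).prodMap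
        (LinearMap.id : (Fin δ → ZMod 2) →ₗ[ZMod 2] (Fin δ → ZMod 2))) with hR
  have hco : co A₁ Y t q = R ∘ bvec A₁ Y t := F6_co_eq
  have hrep : RepBy (ZMod 2) M (bvec A₁ Y t) := by
    intro I hI
    exact hB.2 I (by rwa [union_sdiff_cancel hA₁])
  have hRA : ∀ a ∈ A₁ \ range q, R (bvec A₁ Y t a) = 0 := by
    intro a ha
    refine Prod.ext ?_ ?_
    · funext i
      have h1 : q i ≠ a := fun h => ha.2 ⟨i, h⟩
      show (bvec A₁ Y t a).1 (q i) = 0
      simp [bvec, ha.1, h1]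
    · show (bvec A₁ Y t a).2 = 0
      simp [bvec, ha.1]
  have key := hrep.contract_map (C := (A₁ \ range q) ∪ Zs) (D := ∅)
    (union_subset (sdiff_subset.trans hA₁) hZ) (disjoint_empty _) (T ∘ₗ R)
    (by
      rintro c (hc | hc)
      · rw [LinearMap.comp_apply, hRA c hc, map_zero]
      · have := hT0 c hc
        rwa [hco] at this)
    (by
      intro x hx hTx
      rw [sdiff_empty] at hx
      have h1 := hker (R x) hTx
      rw [hco, image_comp, Submodule.span_image] at h1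
      obtain ⟨y, hy, hyx⟩ := h1
      have hyE : y ∈ Submodule.span (ZMod 2) (bvec A₁ Y t '' M.E) :=
        Submodule.span_mono (image_mono hZ) hy
      have hsub : x - y ∈ Submodule.span (ZMod 2) (bvec A₁ Y t '' M.E) :=
        Submodule.sub_mem _ hx hyE
      have hR0 : R (x - y) = 0 := by rw [map_sub, hyx, sub_self]
      have h3 : x - y ∈ Submodule.span (ZMod 2) (bvec A₁ Y t '' (A₁ \ range q)) := by
        apply F6_ker (hfin.subset hA₁) (F6_supp hB.1 hsub)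
        · exact congrArg Prod.snd hR0
        · intro i
          exact congrFun (congrArg Prod.fst hR0) i
      have h4 : x = (x - y) + y := by abel
      rw [h4, image_union, Submodule.span_union]
      exact Submodule.add_mem_sup h3 hy)
  rw [Matroid.delete_empty] at key
  rw [hco]
  exact key

theorem F6_ground {M : Matroid α} {C X : Set α} (hX : X ⊆ M.E) (hd : Disjoint X C) :
    (M ／ C ＼ (M.E \ (C ∪ X))).E = X := by
  rw [Matroid.delete_ground, Matroid.contract_ground]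
  ext y
  constructor
  · rintro ⟨⟨hyE, hyC⟩, hy⟩
    by_contra hcon
    exact hy ⟨hyE, fun h => h.elim hyC hcon⟩
  · intro hy
    exact ⟨⟨hX hy, fun h => (Set.disjoint_left.1 hd) hy h⟩, fun h => h.2 (Or.inr hy)⟩

theorem fano_minor {M : Matroid α} {A₁ : Set α} {Y : α → Set α} {δ : ℕ}
    {t : α → Fin δ → ZMod 2} (hA₁ : A₁ ⊆ M.E) (hfin : M.E.Finite)
    (hB : BinaryForm M A₁ (M.E \ A₁) Y t)
    {k : ℕ} {q : Fin k → α} (hq : q.Injective) (hqA : ∀ i, q i ∈ A₁)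
    {Zs : Set α} (hZ : Zs ⊆ M.E)
    (T : (Fin k → ZMod 2) × (Fin δ → ZMod 2) →ₗ[ZMod 2] (Fin 3 → ZMod 2))
    (hT0 : ∀ z ∈ Zs, T (co A₁ Y t q z) = 0)
    (hker : ∀ y, T y = 0 → y ∈ Submodule.span (ZMod 2) (co A₁ Y t q '' Zs))
    (x : (Fin 3 → ZMod 2) → α) (hx : ∀ s ≠ 0, x s ∈ M.E ∧ T (co A₁ Y t q (x s)) = s) :
    IsFano (M ／ ((A₁ \ range q) ∪ Zs) ＼
      (M.E \ (((A₁ \ range q) ∪ Zs) ∪ x '' {s | s ≠ 0}))) := by
  classical
  have h1 := minor_form hA₁ hfin hB hq hqA hZ T hT0 hker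
  have h2 := h1.delete (M.E \ (((A₁ \ range q) ∪ Zs) ∪ x '' {s | s ≠ 0}))
  have hC0 : ∀ c ∈ (A₁ \ range q) ∪ Zs, T (co A₁ Y t q c) = 0 := by
    rintro c (hc | hc)
    · have h3 : co A₁ Y t q c = 0 := by
        refine Prod.ext ?_ ?_
        · funext i
          have h1 : q i ≠ c := fun h => hc.2 ⟨i, h⟩
          show (bvec A₁ Y t c).1 (q i) = 0
          simp [bvec, hc.1, h1]
        · show (bvec A₁ Y t c).2 = 0
          simp [bvec, hc.1]
      rw [h3, map_zero]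
    · exact hT0 c hc
  have hE : (M ／ ((A₁ \ range q) ∪ Zs) ＼
      (M.E \ (((A₁ \ range q) ∪ Zs) ∪ x '' {s | s ≠ 0}))).E = x '' {s | s ≠ 0} := by
    apply F6_ground
    · rintro _ ⟨s, hs, rfl⟩
      exact (hx s hs).1
    · rw [Set.disjoint_left]
      rintro _ ⟨s, hs, rfl⟩ hc
      exact hs ((hx s hs).2.symm.trans (hC0 _ hc))
  refine ⟨T ∘ co A₁ Y t q, ?_, h2⟩
  rw [hE]
  refine ⟨?_, ?_, ?_⟩
  · rintro _ ⟨s, hs, rfl⟩
    show T (co A₁ Y t q (x s)) ≠ 0
    rw [(hx s hs).2]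
    exact hs
  · rintro _ ⟨s, hs, rfl⟩ _ ⟨s', hs', rfl⟩ h
    have h3 : T (co A₁ Y t q (x s)) = T (co A₁ Y t q (x s')) := h
    rw [(hx s hs).2, (hx s' hs').2] at h3
    rw [h3]
  · intro s hs
    exact ⟨x s, ⟨s, hs, rfl⟩, (hx s hs).2⟩

theorem fanod_minor {M : Matroid α} {A₁ : Set α} {Y : α → Set α} {δ : ℕ}
    {t : α → Fin δ → ZMod 2} (hA₁ : A₁ ⊆ M.E) (hfin : M.E.Finite)
    (hB : BinaryForm M A₁ (M.E \ A₁) Y t)
    {k : ℕ} {q : Fin k → α} (hq : q.Injective) (hqA : ∀ i, q i ∈ A₁)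
    {Zs : Set α} (hZ : Zs ⊆ M.E)
    (T : (Fin k → ZMod 2) × (Fin δ → ZMod 2) →ₗ[ZMod 2] (Fin 3 → ZMod 2) × ZMod 2)
    (hT0 : ∀ z ∈ Zs, T (co A₁ Y t q z) = 0)
    (hker : ∀ y, T y = 0 → y ∈ Submodule.span (ZMod 2) (co A₁ Y t q '' Zs))
    (z : Fin 3 → ZMod 2) (x : (Fin 3 → ZMod 2) → α)
    (hx : ∀ s ≠ z, x s ∈ M.E ∧ T (co A₁ Y t q (x s)) = (s, 1)) :
    IsFano (M ／ ((A₁ \ range q) ∪ Zs) ＼
      (M.E \ (((A₁ \ range q) ∪ Zs) ∪ x '' {s | s ≠ z})))✶ := by
  classical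
  have h1 := minor_form hA₁ hfin hB hq hqA hZ T hT0 hker
  have h2 := h1.delete (M.E \ (((A₁ \ range q) ∪ Zs) ∪ x '' {s | s ≠ z}))
  have hC0 : ∀ c ∈ (A₁ \ range q) ∪ Zs, T (co A₁ Y t q c) = 0 := by
    rintro c (hc | hc)
    · have h3 : co A₁ Y t q c = 0 := by
        refine Prod.ext ?_ ?_
        · funext i
          have h1 : q i ≠ c := fun h => hc.2 ⟨i, h⟩
          show (bvec A₁ Y t c).1 (q i) = 0
          simp [bvec, hc.1, h1]
        · show (bvec A₁ Y t c).2 = 0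
          simp [bvec, hc.1]
      rw [h3, map_zero]
    · exact hT0 c hc
  have hE : (M ／ ((A₁ \ range q) ∪ Zs) ＼
      (M.E \ (((A₁ \ range q) ∪ Zs) ∪ x '' {s | s ≠ z}))).E = x '' {s | s ≠ z} := by
    apply F6_ground
    · rintro _ ⟨s, hs, rfl⟩
      exact (hx s hs).1
    · rw [Set.disjoint_left]
      rintro _ ⟨s, hs, rfl⟩ hc
      have h3 := (hx s hs).2.symm.trans (hC0 _ hc)
      exact one_ne_zero (congrArg Prod.snd h3)
  -- the shear
  let Φ : (Fin 3 → ZMod 2) × ZMod 2 →ₗ[ZMod 2] (Fin 3 → ZMod 2) × ZMod 2 :=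
    (LinearMap.fst _ _ _ + (LinearMap.toSpanSingleton (ZMod 2) _ z) ∘ₗ LinearMap.snd _ _ _).prod
      (LinearMap.snd _ _ _)
  have hΦ : ∀ p, Φ p = (p.1 + p.2 • z, p.2) := fun p => rfl
  have h3 := h2.map Φ (by
    intro p _ hp
    rw [hΦ] at hp
    have e2 : p.2 = 0 := congrArg Prod.snd hp
    have e1 : p.1 + p.2 • z = 0 := congrArg Prod.fst hp
    rw [e2, zero_smul, add_zero] at e1
    exact Prod.ext e1 e2)
  rw [isFano_dual_iff]
  have hzz : z + z = 0 := by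
    funext i
    exact CharTwo.add_self_eq_zero (z i)
  have hval : ∀ s ≠ z, Φ (T (co A₁ Y t q (x s))) = (s + z, 1) := by
    intro s hs
    rw [(hx s hs).2, hΦ, one_smul]
  refine ⟨fun y => (Φ (T (co A₁ Y t q y))).1, ?_, ?_⟩
  · rw [hE]
    refine ⟨?_, ?_, ?_⟩
    · rintro _ ⟨s, hs, rfl⟩
      show (Φ (T (co A₁ Y t q (x s)))).1 ≠ 0
      rw [hval s hs]
      intro h
      have h' : s + z = 0 := h
      apply hs
      calc s = s + z + z := by rw [add_assoc, hzz, add_zero]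
        _ = z := by rw [h', zero_add]
    · rintro _ ⟨s, hs, rfl⟩ _ ⟨s', hs', rfl⟩ h
      have h4 : (Φ (T (co A₁ Y t q (x s)))).1 = (Φ (T (co A₁ Y t q (x s')))).1 := h
      rw [hval s hs, hval s' hs'] at h4
      have h5 : s + z = s' + z := h4
      rw [add_right_cancel h5]
    · intro s hs
      have hsz : s + z ≠ z := by
        intro h
        exact hs (by simpa using h)
      refine ⟨x (s + z), ⟨s + z, hsz, rfl⟩, ?_⟩
      show (Φ (T (co A₁ Y t q (x (s + z))))).1 = s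
      rw [hval _ hsz]
      show s + z + z = s
      rw [add_assoc, hzz, add_zero]
  · refine F6_congr h3 ?_
    intro y hy
    rw [hE] at hy
    obtain ⟨s, hs, rfl⟩ := hy
    show Φ (T (co A₁ Y t q (x s))) = ((Φ (T (co A₁ Y t q (x s)))).1, 1)
    rw [hval s hs]

theorem Lab.obs7 {M : Matroid α} {A B : Set α} (hL : Lab M A B) {A₁ : Set α} {Y : α → Set α}
    {δ : ℕ} {t : α → Fin δ → ZMod 2} (hA₁ : A₁ ⊆ A) (hB : BinaryForm M A₁ (M.E \ A₁) Y t)
    {k : ℕ} {q : Fin k → α} (hq : q.Injective) (hqA : ∀ i, q i ∈ A₁)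
    {Zs : Set α} (hZ : Zs ⊆ M.E)
    (T : (Fin k → ZMod 2) × (Fin δ → ZMod 2) →ₗ[ZMod 2] (Fin 3 → ZMod 2))
    (hT0 : ∀ z ∈ Zs, T (co A₁ Y t q z) = 0)
    (hker : ∀ y, T y = 0 → y ∈ Submodule.span (ZMod 2) (co A₁ Y t q '' Zs))
    (x : (Fin 3 → ZMod 2) → α) (hx : ∀ s ≠ 0, x s ∈ M.E ∧ T (co A₁ Y t q (x s)) = s) :
    Zs ⊆ A ∧ ∀ a ∈ A, a ∈ A₁ \ range q ∨ a ∈ Zs ∨ ∃ s ≠ 0, x s = a := by
  have hAE : A ⊆ M.E := by rw [← hL.cover]; exact subset_union_left
  have hA₁E : A₁ ⊆ M.E := hA₁.trans hAE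
  have hF := fano_minor hA₁E hL.fin hB hq hqA hZ T hT0 hker x hx
  have hN := core_not_regular (hL.fin.subset (by
    rw [Matroid.delete_ground, Matroid.contract_ground]
    exact sdiff_subset.trans sdiff_subset)) (Or.inr (Or.inl hF) : IsCore _)
  obtain ⟨h1, h2⟩ := hL.of_minor (union_subset (sdiff_subset.trans hA₁E) hZ) sdiff_subset
    (by
      rw [Set.disjoint_left]
      intro y hy hy'
      exact hy'.2 (Or.inl hy)) hN
  refine ⟨subset_union_right.trans h1, fun a ha => ?_⟩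
  have haD : a ∉ M.E \ (((A₁ \ range q) ∪ Zs) ∪ x '' {s | s ≠ 0}) := fun h =>
    (Set.disjoint_left.1 hL.disj) ha (h2 h)
  have h3 : a ∈ ((A₁ \ range q) ∪ Zs) ∪ x '' {s | s ≠ 0} := by
    by_contra hcon
    exact haD ⟨hAE ha, hcon⟩
  rcases h3 with (h3 | h3) | ⟨s, hs, hsa⟩
  · exact Or.inl h3
  · exact Or.inr (Or.inl h3)
  · exact Or.inr (Or.inr ⟨s, hs, hsa⟩)

theorem Lab.obs7d {M : Matroid α} {A B : Set α} (hL : Lab M A B) {A₁ : Set α} {Y : α → Set α}
    {δ : ℕ} {t : α → Fin δ → ZMod 2} (hA₁ : A₁ ⊆ A) (hB : BinaryForm M A₁ (M.E \ A₁) Y t)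
    {k : ℕ} {q : Fin k → α} (hq : q.Injective) (hqA : ∀ i, q i ∈ A₁)
    {Zs : Set α} (hZ : Zs ⊆ M.E)
    (T : (Fin k → ZMod 2) × (Fin δ → ZMod 2) →ₗ[ZMod 2] (Fin 3 → ZMod 2) × ZMod 2)
    (hT0 : ∀ z ∈ Zs, T (co A₁ Y t q z) = 0)
    (hker : ∀ y, T y = 0 → y ∈ Submodule.span (ZMod 2) (co A₁ Y t q '' Zs))
    (z : Fin 3 → ZMod 2) (x : (Fin 3 → ZMod 2) → α)
    (hx : ∀ s ≠ z, x s ∈ M.E ∧ T (co A₁ Y t q (x s)) = (s, 1)) :
    Zs ⊆ A ∧ ∀ a ∈ A, a ∈ A₁ \ range q ∨ a ∈ Zs ∨ ∃ s ≠ z, x s = a := by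
  have hAE : A ⊆ M.E := by rw [← hL.cover]; exact subset_union_left
  have hA₁E : A₁ ⊆ M.E := hA₁.trans hAE
  have hF := fanod_minor hA₁E hL.fin hB hq hqA hZ T hT0 hker z x hx
  have hN := core_not_regular (hL.fin.subset (by
    rw [Matroid.delete_ground, Matroid.contract_ground]
    exact sdiff_subset.trans sdiff_subset)) (Or.inr (Or.inr hF) : IsCore _)
  obtain ⟨h1, h2⟩ := hL.of_minor (union_subset (sdiff_subset.trans hA₁E) hZ) sdiff_subset
    (by
      rw [Set.disjoint_left]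
      intro y hy hy'
      exact hy'.2 (Or.inl hy)) hN
  refine ⟨subset_union_right.trans h1, fun a ha => ?_⟩
  have haD : a ∉ M.E \ (((A₁ \ range q) ∪ Zs) ∪ x '' {s | s ≠ z}) := fun h =>
    (Set.disjoint_left.1 hL.disj) ha (h2 h)
  have h3 : a ∈ ((A₁ \ range q) ∪ Zs) ∪ x '' {s | s ≠ z} := by
    by_contra hcon
    exact haD ⟨hAE ha, hcon⟩
  rcases h3 with (h3 | h3) | ⟨s, hs, hsa⟩
  · exact Or.inl h3
  · exact Or.inr (Or.inl h3)
  · exact Or.inr (Or.inr ⟨s, hs, hsa⟩)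

end Pool.Agent.Helper43_EOR
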