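import Mathlib
import Pool.Agent.Helper43_EOR.F6

set_option autoImplicit false

namespace Pool.Agent.Helper43_EOR

open Set Matroid

variable {α : Type*}
/- only the new part; compiles after the given part of job 511 -/
/- ======== JOB F7 (helper148) ======== -/

theorem f7_lin {V V' : Type*} [AddCommGroup V] [Module (ZMod 2) V] [AddCommGroup V']
    [Module (ZMod 2) V'] {u : α → V} {u' : α → V'} (T : V →ₗ[ZMod 2] V') {I : Set α}
    (P : Submodule (ZMod 2) V) (hP : ∀ e ∈ I, u e ∈ P) (hT : ∀ x ∈ P, T x = 0 → x = 0)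
    (hu : ∀ e ∈ I, u' e = T (u e)) :
    LinearIndepOn (ZMod 2) u I ↔ LinearIndepOn (ZMod 2) u' I := by
  have h1 : LinearIndepOn (ZMod 2) u' I ↔ LinearIndepOn (ZMod 2) (T ∘ u) I :=
    linearIndepOn_congr fun e he => hu e he
  rw [h1]
  refine (LinearMap.linearIndepOn_iff_of_injOn T ?_).symm
  have hle : Submodule.span (ZMod 2) (u '' I) ≤ P := by
    rw [Submodule.span_le]
    rintro _ ⟨e, he, rfl⟩
    exact hP e he
  intro x hx y hy hxy
  have h2 : x - y ∈ P := P.sub_mem (hle hx) (hle hy)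
  have h3 := hT _ h2 (by rw [map_sub, sub_eq_zero]; exact hxy)
  exact sub_eq_zero.1 h3

theorem f7_isBase {F : Type*} [Field F] {V : Type*} [AddCommGroup V] [Module F V]
    {N : Matroid α} {w : α → V} (h : RepBy F N w) {R : Set α} (hR : R ⊆ N.E)
    (hli : LinearIndepOn F w R) (hsp : ∀ x ∈ N.E, w x ∈ Submodule.span F (w '' R)) :
    N.IsBase R := by
  apply Matroid.Indep.isBase_of_forall_insert ((h R hR).2 hli)
  intro e he hi
  have h1 := (h _ (insert_subset he.1 hR)).1 hi
  rw [linearIndepOn_insert he.2] at h1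
  exact h1.2 (hsp e he.1)

theorem f7_span {δ : ℕ} {w : α → Fin δ → ZMod 2} (r : Fin δ → α)
    (hw : ∀ i, w (r i) = Pi.single i 1) (i : Fin δ) (y : Fin δ → ZMod 2) :
    y ∈ Submodule.span (ZMod 2) (w '' (r '' {j | j ≠ i})) ↔ y i = 0 := by
  constructor
  · intro hy
    have hle : Submodule.span (ZMod 2) (w '' (r '' {j | j ≠ i})) ≤
        LinearMap.ker (LinearMap.proj i : (Fin δ → ZMod 2) →ₗ[ZMod 2] ZMod 2) := by
      rw [Submodule.span_le]
      rintro _ ⟨_, ⟨j, hj, rfl⟩, rfl⟩
      simp only [SetLike.mem_coe, LinearMap.mem_ker, LinearMap.proj_apply]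
      rw [hw, Pi.single_eq_of_ne (Ne.symm hj)]
    exact hle hy
  · intro hy
    have h1 : y = ∑ j, y j • (Pi.single j (1 : ZMod 2) : Fin δ → ZMod 2) := by
      ext l
      simp [Finset.sum_apply, Pi.single_apply]
    rw [h1]
    refine Submodule.sum_mem _ fun j _ => ?_
    by_cases hj : j = i
    · rw [hj, hy, zero_smul]; exact Submodule.zero_mem _
    · refine Submodule.smul_mem _ _ (Submodule.subset_span ⟨r j, ⟨j, hj, rfl⟩, hw j⟩)

theorem f7_li {δ : ℕ} {w : α → Fin δ → ZMod 2} (r : Fin δ → α)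
    (hw : ∀ i, w (r i) = Pi.single i 1) : LinearIndepOn (ZMod 2) w (range r) := by
  have hinj : r.Injective := by
    intro i j hij
    by_contra hne
    have h1 := congrFun (((hw i).symm.trans (congrArg w hij)).trans (hw j)) i
    rw [Pi.single_eq_same, Pi.single_eq_of_ne hne] at h1
    exact one_ne_zero h1
  rw [linearIndepOn_range_iff hinj]
  have : w ∘ r = fun i => (Pi.single i (1 : ZMod 2) : Fin δ → ZMod 2) := by
    ext i; simp [hw]
  rw [this]
  have h2 := (Pi.basisFun (ZMod 2) (Fin δ)).linearIndependent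
  convert h2 using 1
  ext i
  simp

theorem f7_coord {N : Matroid α} {δ : ℕ} {w : α → Fin δ → ZMod 2} (h : RepBy (ZMod 2) N w)
    (r : Fin δ → α) (hr : ∀ i, r i ∈ N.E) (hw : ∀ i, w (r i) = Pi.single i 1) {x : α}
    (hx : x ∈ N.E) (hxr : x ∉ range r) (i : Fin δ) :
    N.Indep (insert x (r '' {j | j ≠ i})) ↔ w x i ≠ 0 := by
  have hsub : r '' {j | j ≠ i} ⊆ range r := image_subset_range _ _
  have hsubE : r '' {j | j ≠ i} ⊆ N.E := by
    rintro _ ⟨j, _, rfl⟩; exact hr j
  rw [h _ (insert_subset hx hsubE), linearIndepOn_insert (fun hh => hxr (hsub hh)),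
    f7_span r hw i]
  exact ⟨fun h => h.2, fun h => ⟨(f7_li r hw).mono hsub, h⟩⟩

theorem f7_unique {N : Matroid α} {δ : ℕ} {w w' : α → Fin δ → ZMod 2}
    (h : RepBy (ZMod 2) N w) (h' : RepBy (ZMod 2) N w') (r : Fin δ → α) (hr : ∀ i, r i ∈ N.E)
    (hw : ∀ i, w (r i) = Pi.single i 1) (hw' : ∀ i, w' (r i) = Pi.single i 1) {x : α}
    (hx : x ∈ N.E) : w x = w' x := by
  by_cases hxr : x ∈ range r
  · obtain ⟨i, rfl⟩ := hxr
    rw [hw, hw']
  · ext i
    have h1 := (f7_coord h r hr hw hx hxr i).symm.trans (f7_coord h' r hr hw' hx hxr i)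
    have h2 : ∀ a b : ZMod 2, (a ≠ 0 ↔ b ≠ 0) → a = b := by decide
    exact h2 _ _ h1

theorem BinaryForm.gl {M : Matroid α} {A B : Set α} {Y : α → Set α} {δ : ℕ}
    {t : α → Fin δ → ZMod 2} (h : BinaryForm M A B Y t)
    (g : (Fin δ → ZMod 2) ≃ₗ[ZMod 2] (Fin δ → ZMod 2)) :
    BinaryForm M A B Y (fun x => g (t x)) := by
  refine ⟨h.1, fun I hI => (h.2 I hI).trans ?_⟩
  refine f7_lin (LinearMap.prodMap LinearMap.id g.toLinearMap) ⊤ (fun _ _ => trivial) ?_ ?_
  · rintro ⟨x, y⟩ _ hxy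
    simp only [LinearMap.prodMap_apply, LinearMap.id_coe, id_eq, LinearEquiv.coe_coe,
      Prod.mk_eq_zero, EmbeddingLike.map_eq_zero_iff] at hxy
    rw [hxy.1, hxy.2]; rfl
  · intro e _
    unfold bvec
    split_ifs
    · simp
    · simp

theorem BinaryForm.shear {M : Matroid α} {A B : Set α} (hfin : A.Finite) {Y : α → Set α} {δ : ℕ}
    {t : α → Fin δ → ZMod 2} (h : BinaryForm M A B Y t)
    (l : α → ((Fin δ → ZMod 2) →ₗ[ZMod 2] ZMod 2)) :
    BinaryForm M A B (fun x => {a | a ∈ A ∧ bit (a ∈ Y x) + l a (t x) = 1}) t := by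
  classical
  refine ⟨fun b _ a ha => ha.1, fun I hI => (h.2 I hI).trans ?_⟩
  let T : ((α → ZMod 2) × (Fin δ → ZMod 2)) →ₗ[ZMod 2] ((α → ZMod 2) × (Fin δ → ZMod 2)) :=
    { toFun := fun p => (fun a => p.1 a + if a ∈ A then l a p.2 else 0, p.2)
      map_add' := by
        rintro ⟨x, y⟩ ⟨x', y'⟩
        ext a
        · simp only [Prod.mk_add_mk, Pi.add_apply, map_add]
          split_ifs
          · ring
          · ring
        · simp
      map_smul' := by
        rintro c ⟨x, y⟩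
        ext a
        · simp only [Prod.smul_mk, Pi.smul_apply, smul_eq_mul, map_smul, RingHom.id_apply]
          split_ifs
          · ring
          · ring
        · simp }
  have hT : ∀ p, T p = (fun a => p.1 a + if a ∈ A then l a p.2 else 0, p.2) := fun _ => rfl
  refine f7_lin T ⊤ (fun _ _ => trivial) ?_ ?_
  · rintro ⟨x, y⟩ _ hxy
    rw [hT] at hxy
    simp only [Prod.mk_eq_zero] at hxy
    obtain ⟨h1, h2⟩ := hxy
    subst h2
    have : x = 0 := by
      ext a
      have := congrFun h1 a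
      simpa using this
    rw [this]; rfl
  · intro e he
    rw [hT]
    unfold bvec
    by_cases heA : e ∈ A
    · simp [heA]
    · simp only [if_neg heA]
      have heB : e ∈ B := (hI he).resolve_left heA
      refine Prod.ext ?_ rfl
      ext a
      simp only [Set.indicator_apply, mem_setOf_eq, Pi.one_apply]
      by_cases haA : a ∈ A
      · simp only [haA, true_and, if_true, bit]
        generalize l a (t e) = c
        by_cases haY : a ∈ Y e
        · simp only [haY, if_true]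
          revert c; decide
        · simp only [haY, if_false]
          revert c; decide
      · have haY : a ∉ Y e := fun hh => haA (h.1 e heB hh)
        simp [haA, haY]

theorem BinaryForm.move {M : Matroid α} {A₁ : Set α} (hA₁ : A₁ ⊆ M.E) {Y : α → Set α} {δ : ℕ}
    {t : α → Fin (δ + 1) → ZMod 2} (h : BinaryForm M A₁ (M.E \ A₁) Y t) {a0 : α}
    (h0 : a0 ∈ M.E \ A₁) (ht : t a0 = Pi.single 0 1) (hY : Y a0 = ∅) :
    BinaryForm M (insert a0 A₁) (M.E \ insert a0 A₁)
      (fun x => Y x ∪ {z | z = a0 ∧ t x 0 = 1}) (fun x i => t x i.succ) := by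
  classical
  have hE1 : A₁ ∪ (M.E \ A₁) = M.E := union_diff_cancel hA₁
  have hE2 : insert a0 A₁ ∪ (M.E \ insert a0 A₁) = M.E :=
    union_diff_cancel (insert_subset h0.1 hA₁)
  refine ⟨?_, ?_⟩
  · intro b hb z hz
    rcases hz with hz | hz
    · exact mem_insert_of_mem _ (h.1 b ⟨hb.1, fun hh => hb.2 (mem_insert_of_mem _ hh)⟩ hz)
    · rw [hz.1]; exact mem_insert _ _
  · intro I hI
    rw [hE2] at hI
    rw [h.2 I (by rw [hE1]; exact hI)]
    let T : ((α → ZMod 2) × (Fin (δ + 1) → ZMod 2)) →ₗ[ZMod 2] ((α → ZMod 2) × (Fin δ → ZMod 2)) :=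
      { toFun := fun p => (fun a => p.1 a + if a = a0 then p.2 0 else 0, fun i => p.2 i.succ)
        map_add' := by
          rintro ⟨x, y⟩ ⟨x', y'⟩
          ext a
          · simp only [Prod.mk_add_mk, Pi.add_apply]
            split_ifs
            · ring
            · ring
          · simp
        map_smul' := by
          rintro c ⟨x, y⟩
          ext a
          · simp only [Prod.smul_mk, Pi.smul_apply, smul_eq_mul, RingHom.id_apply]
            split_ifs
            · ring
            · ring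
          · simp }
    have hT : ∀ p, T p =
      (fun a => p.1 a + if a = a0 then p.2 0 else 0, fun i => p.2 i.succ) := fun _ => rfl
    let P : Submodule (ZMod 2) ((α → ZMod 2) × (Fin (δ + 1) → ZMod 2)) :=
      LinearMap.ker ((LinearMap.proj a0).comp (LinearMap.fst (ZMod 2) (α → ZMod 2)
        (Fin (δ + 1) → ZMod 2)))
    have hPmem : ∀ p, p ∈ P ↔ p.1 a0 = 0 := fun p => by
      simp [P, LinearMap.mem_ker]
    refine f7_lin T P ?_ ?_ ?_
    · intro e he
      rw [hPmem]
      unfold bvec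
      split_ifs with heA
      · simp only
        rw [Pi.single_eq_of_ne]
        rintro rfl
        exact h0.2 heA
      · simp only [Set.indicator_apply, Pi.one_apply]
        rw [if_neg]
        intro hh
        exact h0.2 (h.1 e ⟨hI he, heA⟩ hh)
    · rintro ⟨x, y⟩ hx hxy
      rw [hPmem] at hx
      simp only at hx
      rw [hT] at hxy
      simp only [Prod.mk_eq_zero] at hxy
      obtain ⟨h1, h2⟩ := hxy
      have h3 := congrFun h1 a0
      simp only [hx, if_true, zero_add, Pi.zero_apply] at h3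
      have hy : y = 0 := by
        ext i
        refine Fin.cases ?_ (fun i => ?_) i
        · exact h3
        · exact congrFun h2 i
      have hx' : x = 0 := by
        ext a
        have h4 := congrFun h1 a
        simp only [h3, ite_self, add_zero] at h4
        exact h4
      rw [hx', hy]; rfl
    · intro e he
      rw [hT]
      unfold bvec
      by_cases heA : e ∈ A₁
      · rw [if_pos (mem_insert_of_mem _ heA), if_pos heA]
        simp only [Pi.zero_apply, ite_self, add_zero]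
        rfl
      · by_cases he0 : e = a0
        · subst he0
          rw [if_pos (mem_insert _ _), if_neg heA, hY, ht]
          refine Prod.ext ?_ ?_
          · ext a
            simp only [Set.indicator_empty, Pi.single_eq_same, Pi.single_apply, zero_add]
          · ext i
            simp
        · have heI : e ∉ insert a0 A₁ := by
            rintro (hh | hh)
            · exact he0 hh
            · exact heA hh
          rw [if_neg heI, if_neg heA]
          refine Prod.ext ?_ rfl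
          ext a
          simp only [Set.indicator_apply, mem_union, mem_setOf_eq, Pi.one_apply]
          by_cases haa : a = a0
          · subst haa
            have haY : a ∉ Y e := fun hh => h0.2 (h.1 e ⟨hI he, heA⟩ hh)
            simp only [haY, false_or, true_and, if_true, if_false, zero_add]
            generalize t e 0 = c
            revert c; decide
          · simp [haa]

theorem C7.norm {M : Matroid α} (hfin : M.E.Finite) {A B A₁ : Set α} (hAE : A ⊆ M.E)
    {Y : α → Set α} {t : α → Fin 3 → ZMod 2} (hc : C7 M A B A₁ Y t) (r : Fin 3 → α)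
    (hr : ∀ i, r i ∈ M.E \ A₁) (hli : LinearIndependent (ZMod 2) (fun i => t (r i))) :
    ∃ (Y' : α → Set α) (t' : α → Fin 3 → ZMod 2), C7 M A B A₁ Y' t' ∧
      (∃ g : (Fin 3 → ZMod 2) ≃ₗ[ZMod 2] (Fin 3 → ZMod 2), ∀ x, t' x = g (t x)) ∧
      ∀ i, t' (r i) = Pi.single i 1 ∧ Y' (r i) = ∅ := by
  classical
  let b : Module.Basis (Fin 3) (ZMod 2) (Fin 3 → ZMod 2) :=
    basisOfLinearIndependentOfCardEqFinrank hli (by simp)
  have hb : ∀ i, b i = t (r i) := fun i => by simp [b]
  let g : (Fin 3 → ZMod 2) ≃ₗ[ZMod 2] (Fin 3 → ZMod 2) := b.equivFun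
  have hg : ∀ i, g (t (r i)) = Pi.single i 1 := fun i => by
    rw [← hb i]
    ext j
    simp [g, Pi.single_apply, Finsupp.single_apply, eq_comm]
  let l : α → ((Fin 3 → ZMod 2) →ₗ[ZMod 2] ZMod 2) := fun a =>
    ∑ i, bit (a ∈ Y (r i)) • (LinearMap.proj i : (Fin 3 → ZMod 2) →ₗ[ZMod 2] ZMod 2)
  have hl : ∀ a i, l a (Pi.single i 1) = bit (a ∈ Y (r i)) := by
    intro a i
    simp [l, LinearMap.sum_apply, Pi.single_apply]
  refine ⟨fun x => {a | a ∈ A₁ ∧ bit (a ∈ Y x) + l a (g (t x)) = 1}, fun x => g (t x),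
    ⟨hc.sub, ?_, ?_, ?_, ?_⟩, ⟨g, fun _ => rfl⟩, ?_⟩
  · exact (hc.form.gl g).shear (hfin.subset (hc.sub.trans hAE)) l
  · intro x hx y hy hxy
    exact hc.inj hx hy (g.injective hxy)
  · intro x hx h0
    exact hc.ne x hx ((map_eq_zero_iff g g.injective).1 h0)
  · intro s hs
    obtain ⟨x, hx, hxs⟩ := hc.surj (g.symm s) (by
      intro h0
      apply hs
      rw [← g.apply_symm_apply s, h0, map_zero])
    exact ⟨x, hx, by simp only [hxs, LinearEquiv.apply_symm_apply]⟩
  · intro i
    refine ⟨hg i, ?_⟩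
    ext a
    simp only [hg, hl, mem_setOf_eq, mem_empty_iff_false, iff_false, not_and]
    intro _
    unfold bit
    split_ifs <;> decide

theorem f7_add_eq_zero {β : Type*} {a b : β → ZMod 2} (h : a + b = 0) : a = b := by
  ext i
  have h1 := congrFun h i
  simp only [Pi.add_apply, Pi.zero_apply] at h1
  revert h1
  generalize a i = x
  generalize b i = y
  revert x y; decide

theorem std_form {M : Matroid α} (hfin : M.E.Finite) (hb : RepOver (ZMod 2) M) {A₁ : Set α}
    {δ : ℕ} (r : Fin δ → α) (hr : r.Injective) (hrA : ∀ i, r i ∉ A₁)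
    (hbase : M.IsBase (A₁ ∪ range r)) :
    ∃ (Y : α → Set α) (t : α → Fin δ → ZMod 2), BinaryForm M A₁ (M.E \ A₁) Y t ∧
      ∀ i, t (r i) = Pi.single i 1 ∧ Y (r i) = ∅ := by
  classical
  obtain ⟨n, v, hv⟩ := hb
  have hAE : A₁ ⊆ M.E := subset_union_left.trans hbase.subset_ground
  have hrE : ∀ i, r i ∈ M.E := fun i => hbase.subset_ground (Or.inr ⟨i, rfl⟩)
  have hAfin : A₁.Finite := hfin.subset hAE
  have hZli : LinearIndepOn (ZMod 2) v (A₁ ∪ range r) :=
    (hv _ hbase.subset_ground).1 hbase.indep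
  let Afs : Finset α := hAfin.toFinset
  have hAfs : ∀ a, a ∈ Afs ↔ a ∈ A₁ := fun a => by simp [Afs]
  let Φ : ((α → ZMod 2) × (Fin δ → ZMod 2)) →ₗ[ZMod 2] (Fin n → ZMod 2) :=
    { toFun := fun p => ∑ a ∈ Afs, p.1 a • v a + ∑ i, p.2 i • v (r i)
      map_add' := by
        rintro ⟨x, y⟩ ⟨x', y'⟩
        simp only [Prod.mk_add_mk, Pi.add_apply, add_smul, Finset.sum_add_distrib]
        abel
      map_smul' := by
        rintro c ⟨x, y⟩
        simp only [Prod.smul_mk, Pi.smul_apply, smul_eq_mul, mul_smul, RingHom.id_apply,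
          smul_add, Finset.smul_sum] }
  have hΦ : ∀ p, Φ p = ∑ a ∈ Afs, p.1 a • v a + ∑ i, p.2 i • v (r i) := fun _ => rfl
  let P : Submodule (ZMod 2) ((α → ZMod 2) × (Fin δ → ZMod 2)) :=
    { carrier := {p | ∀ a, a ∉ A₁ → p.1 a = 0}
      add_mem' := by
        rintro ⟨x, y⟩ ⟨x', y'⟩ h h' a ha
        simp only [Prod.mk_add_mk, Pi.add_apply]
        rw [show x a = 0 from h a ha, show x' a = 0 from h' a ha, add_zero]
      zero_mem' := fun a _ => rfl
      smul_mem' := by
        rintro c ⟨x, y⟩ h a ha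
        simp only [Prod.smul_mk, Pi.smul_apply]
        rw [show x a = 0 from h a ha, smul_zero] }
  have hP : ∀ p, p ∈ P ↔ ∀ a, a ∉ A₁ → p.1 a = 0 := fun _ => Iff.rfl
  -- injectivity
  have hinj : ∀ p ∈ P, Φ p = 0 → p = 0 := by
    rintro ⟨x, y⟩ hp h0
    rw [hP] at hp
    rw [hΦ] at h0
    simp only at hp h0
    rw [linearIndepOn_iff'] at hZli
    have hdisj : Disjoint Afs (Finset.univ.image r) := by
      rw [Finset.disjoint_left]
      intro a ha hb
      obtain ⟨i, -, rfl⟩ := Finset.mem_image.1 hb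
      exact hrA i ((hAfs _).1 ha)
    have key := hZli (Afs ∪ Finset.univ.image r)
      (fun z => if z ∈ A₁ then x z else Function.extend r y 0 z) (by
        intro z hz
        rw [Finset.mem_coe, Finset.mem_union] at hz
        rcases hz with hz | hz
        · exact Or.inl ((hAfs _).1 hz)
        · obtain ⟨i, -, rfl⟩ := Finset.mem_image.1 hz
          exact Or.inr ⟨i, rfl⟩) (by
        rw [Finset.sum_union hdisj, Finset.sum_image (fun i _ j _ hij => hr hij)]
        rw [← h0]
        congr 1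
        · refine Finset.sum_congr rfl fun a ha => ?_
          rw [if_pos ((hAfs _).1 ha)]
        · refine Finset.sum_congr rfl fun i _ => ?_
          rw [if_neg (hrA i), hr.extend_apply])
    have hx : x = 0 := by
      ext a
      by_cases ha : a ∈ A₁
      · have h1 := key a (Finset.mem_union_left _ ((hAfs _).2 ha))
        rw [if_pos ha] at h1
        exact h1
      · exact hp a ha
    have hy : y = 0 := by
      ext i
      have h1 := key (r i) (Finset.mem_union_right _ (Finset.mem_image_of_mem _ (Finset.mem_univ i)))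
      rw [if_neg (hrA i), hr.extend_apply] at h1
      exact h1
    rw [hx, hy]; rfl
  have hΦA : ∀ a ∈ A₁, Φ (Pi.single a 1, 0) = v a := by
    intro a ha
    rw [hΦ]
    simp only [Pi.zero_apply, zero_smul, Finset.sum_const_zero, add_zero]
    rw [Finset.sum_eq_single a]
    · simp
    · intro b _ hba
      rw [Pi.single_eq_of_ne hba, zero_smul]
    · intro h; exact absurd ((hAfs _).2 ha) h
  have hΦr : ∀ i, Φ (0, Pi.single i 1) = v (r i) := by
    intro i
    rw [hΦ]
    simp only [Pi.zero_apply, zero_smul, Finset.sum_const_zero, zero_add]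
    rw [Finset.sum_eq_single i]
    · simp
    · intro b _ hba
      rw [Pi.single_eq_of_ne hba, zero_smul]
    · intro h; exact absurd (Finset.mem_univ _) h
  have hPA : ∀ a ∈ A₁, ((Pi.single a 1, 0) : (α → ZMod 2) × (Fin δ → ZMod 2)) ∈ P := by
    intro a ha
    rw [hP]
    intro b hb
    simp only
    rw [Pi.single_eq_of_ne]
    rintro rfl
    exact hb ha
  have hPr : ∀ i, ((0, Pi.single i 1) : (α → ZMod 2) × (Fin δ → ZMod 2)) ∈ P := by
    intro i
    rw [hP]
    intro b _
    rfl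
  have hex : ∀ e ∈ M.E, ∃ p, p ∈ P ∧ Φ p = v e := by
    intro e he
    have h1 : v e ∈ Submodule.span (ZMod 2) (v '' (A₁ ∪ range r)) := by
      by_contra hne
      have h2 := hZli.insert hne
      have h3 := (hv _ (insert_subset he hbase.subset_ground)).2 h2
      exact hne (Submodule.subset_span ⟨e, hbase.mem_of_insert_indep h3, rfl⟩)
    have h2 : Submodule.span (ZMod 2) (v '' (A₁ ∪ range r)) ≤ P.map Φ := by
      rw [Submodule.span_le]
      rintro _ ⟨z, hz | ⟨i, rfl⟩, rfl⟩
      · exact ⟨_, hPA z hz, hΦA z hz⟩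
      · exact ⟨_, hPr i, hΦr i⟩
    obtain ⟨p, hp, hpe⟩ := h2 h1
    exact ⟨p, hp, hpe⟩
  choose! p hpP hpe using hex
  refine ⟨fun e => {a | a ∈ A₁ ∧ (p e).1 a = 1}, fun e => (p e).2, ⟨fun b _ a ha => ha.1, ?_⟩, ?_⟩
  · intro I hI
    rw [union_diff_cancel hAE] at hI
    rw [hv I hI]
    have hbv : ∀ e ∈ M.E, e ∉ A₁ → bvec A₁ (fun e => {a | a ∈ A₁ ∧ (p e).1 a = 1})
        (fun e => (p e).2) e = p e := by
      intro e he heA
      unfold bvec
      rw [if_neg heA]
      refine Prod.ext ?_ rfl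
      ext a
      simp only [Set.indicator_apply, mem_setOf_eq, Pi.one_apply]
      by_cases ha : a ∈ A₁
      · simp only [ha, true_and]
        generalize (p e).1 a = c
        revert c; decide
      · simp only [ha, false_and, if_false]
        exact ((hP _).1 (hpP e he) a ha).symm
    refine (f7_lin Φ P ?_ hinj ?_).symm
    · intro e he
      by_cases heA : e ∈ A₁
      · unfold bvec
        rw [if_pos heA]
        exact hPA e heA
      · rw [hbv e (hI he) heA]
        exact hpP e (hI he)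
    · intro e he
      by_cases heA : e ∈ A₁
      · unfold bvec
        rw [if_pos heA, hΦA e heA]
      · rw [hbv e (hI he) heA, hpe e (hI he)]
  · intro i
    have h1 : p (r i) = (0, Pi.single i 1) := by
      have h2 := hinj _ (P.sub_mem (hpP (r i) (hrE i)) (hPr i)) (by
        rw [map_sub, hpe _ (hrE i), hΦr, sub_self])
      exact sub_eq_zero.1 h2
    refine ⟨by simp only [h1], ?_⟩
    ext a
    simp [h1]

theorem f7_repBy_congr {F : Type*} [Field F] {V : Type*} [AddCommGroup V] [Module F V]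
    {N : Matroid α} {w w' : α → V} (h : RepBy F N w) (hw : ∀ x ∈ N.E, w x = w' x) :
    RepBy F N w' := fun I hI =>
  (h I hI).trans (linearIndepOn_congr fun x hx => hw x (hI hx))

theorem f7_ground {M : Matroid α} {A B : Set α} (hL : Lab M A B) {X : Set α} (hX : X ⊆ M.E) :
    (M ／ (A \ X) ＼ (B \ X)).E = X := by
  rw [Matroid.delete_ground, Matroid.contract_ground, ← hL.cover]
  rw [← hL.cover] at hX
  ext x
  have := @hX x
  simp only [mem_diff, mem_union] at this ⊢
  tauto

theorem f7_rep_t {M : Matroid α} {A B : Set α} (hL : Lab M A B) {X : Set α} (hX : X ⊆ M.E)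
    {Y : α → Set α} {δ : ℕ} {t : α → Fin δ → ZMod 2}
    (hform : BinaryForm M (A \ X) (M.E \ (A \ X)) Y t) :
    RepBy (ZMod 2) (M ／ (A \ X) ＼ (B \ X)) t := by
  have hAE : A ⊆ M.E := by rw [← hL.cover]; exact subset_union_left
  have h1 := minor_form (diff_subset.trans hAE) hL.fin hform (k := 0) (q := Fin.elim0)
    (fun i => i.elim0) (fun i => i.elim0) (Zs := ∅) (empty_subset _)
    (LinearMap.snd (ZMod 2) (Fin 0 → ZMod 2) (Fin δ → ZMod 2)) (by simp) (by
      rintro ⟨x, y⟩ hxy
      simp only [LinearMap.snd_apply] at hxy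
      rw [hxy, Subsingleton.elim x 0]
      exact Submodule.zero_mem _)
  rw [range_eq_empty, diff_empty, union_empty] at h1
  refine f7_repBy_congr (h1.delete (B \ X)) ?_
  intro x hx
  rw [f7_ground hL hX] at hx
  simp only [Function.comp_apply, co, bvec, LinearMap.snd_apply]
  rw [if_neg (fun hh => hh.2 hx)]

theorem f7_top {δ : ℕ} {w : α → Fin δ → ZMod 2} (r : Fin δ → α)
    (hw : ∀ i, w (r i) = Pi.single i 1) (y : Fin δ → ZMod 2) :
    y ∈ Submodule.span (ZMod 2) (w '' range r) := by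
  have h1 : y = ∑ j, y j • (Pi.single j (1 : ZMod 2) : Fin δ → ZMod 2) := by
    ext l
    simp [Finset.sum_apply, Pi.single_apply]
  rw [h1]
  exact Submodule.sum_mem _ fun j _ =>
    Submodule.smul_mem _ _ (Submodule.subset_span ⟨r j, ⟨j, rfl⟩, hw j⟩)

theorem f7_inj {δ : ℕ} {w : α → Fin δ → ZMod 2} (r : Fin δ → α)
    (hw : ∀ i, w (r i) = Pi.single i 1) : r.Injective := by
  intro i j hij
  by_contra hne
  have h1 := congrFun (((hw i).symm.trans (congrArg w hij)).trans (hw j)) i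
  rw [Pi.single_eq_same, Pi.single_eq_of_ne hne] at h1
  exact one_ne_zero h1

theorem f7_core {M : Matroid α} {A B : Set α} (hL : Lab M A B) (hb : RepOver (ZMod 2) M)
    {X : Set α} (hX : X ⊆ M.E) (hN : ¬ Regular (M ／ (A \ X) ＼ (B \ X)))
    {δ : ℕ} {w : α → Fin δ → ZMod 2} (hw : RepBy (ZMod 2) (M ／ (A \ X) ＼ (B \ X)) w)
    (r : Fin δ → α) (hrX : ∀ i, r i ∈ X) (hwr : ∀ i, w (r i) = Pi.single i 1) :
    ∃ (Y : α → Set α) (t : α → Fin δ → ZMod 2), BinaryForm M (A \ X) (M.E \ (A \ X)) Y t ∧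
      (∀ i, t (r i) = Pi.single i 1 ∧ Y (r i) = ∅) ∧ ∀ x ∈ X, t x = w x := by
  have hE := f7_ground hL hX
  have hrN : ∀ i, r i ∈ (M ／ (A \ X) ＼ (B \ X)).E := fun i => by rw [hE]; exact hrX i
  have hbN : (M ／ (A \ X) ＼ (B \ X)).IsBase (range r) :=
    f7_isBase hw (range_subset_iff.2 hrN) (f7_li r hwr) (fun x _ => f7_top r hwr _)
  have hbM := hL.isBase hX hN hbN
  obtain ⟨Y, t, hform, hrt⟩ := std_form hL.fin hb r (f7_inj r hwr)
    (fun i hh => hh.2 (hrX i)) hbM
  refine ⟨Y, t, hform, hrt, fun x hx => ?_⟩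
  exact f7_unique (f7_rep_t hL hX hform) hw r hrN (fun i => (hrt i).1) hwr (by rw [hE]; exact hx)

theorem c7_of_core {M : Matroid α} {A B : Set α} (hL : Lab M A B) (hb : RepOver (ZMod 2) M)
    {X : Set α} (hX : X ⊆ M.E) (hF : IsFano (M ／ (A \ X) ＼ (B \ X))) :
    ∃ (Y : α → Set α) (t : α → Fin 3 → ZMod 2), C7 M A B (A \ X) Y t := by
  have hE := f7_ground hL hX
  have hNfin : (M ／ (A \ X) ＼ (B \ X)).E.Finite := by rw [hE]; exact hL.fin.subset hX
  have hN := core_not_regular hNfin (Or.inr (Or.inl hF))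
  obtain ⟨v, hbij, hind⟩ := hF
  rw [hE] at hbij
  have hex : ∀ i : Fin 3, ∃ x ∈ X, v x = Pi.single i 1 := by
    intro i
    obtain ⟨x, hx, hxi⟩ := hbij.surjOn (show (Pi.single i 1 : Fin 3 → ZMod 2) ∈ {x | x ≠ 0} from by
      intro h0
      have := congrFun h0 i
      simp at this)
    exact ⟨x, hx, hxi⟩
  choose r hrX hr using hex
  obtain ⟨Y, t, hform, hrt, htv⟩ := f7_core hL hb hX hN hind r hrX hr
  have hsub : A \ (A \ X) ⊆ X := by
    intro x hx
    by_contra hne
    exact hx.2 ⟨hx.1, hne⟩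
  refine ⟨Y, t, diff_subset, hform, ?_, ?_, ?_⟩
  · intro x hx y hy hxy
    rw [htv x (hsub hx), htv y (hsub hy)] at hxy
    exact hbij.injOn (hsub hx) (hsub hy) hxy
  · intro x hx
    rw [htv x (hsub hx)]
    exact hbij.mapsTo (hsub hx)
  · intro s hs
    obtain ⟨x, hx, hxs⟩ := hbij.surjOn (show s ∈ {x | x ≠ 0} from hs)
    exact ⟨x, ⟨hX hx, fun hh => hh.2 hx⟩, by rw [htv x hx]; exact hxs⟩

theorem c7d_of_core {M : Matroid α} {A B : Set α} (hL : Lab M A B) (hb : RepOver (ZMod 2) M)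
    (hnoF : ∀ C D : Set α, C ⊆ M.E → D ⊆ M.E → Disjoint C D → ¬ IsFano (M ／ C ＼ D))
    {X : Set α} (hX : X ⊆ M.E) (hF : IsFano (M ／ (A \ X) ＼ (B \ X))✶) :
    ∃ v : α → Fin 3 → ZMod 2, BijOn v X {x | x ≠ 0} ∧
      ∀ r : Fin 4 → α, (∀ i, r i ∈ X) → v (r 1) + v (r 2) + v (r 3) = 0 → v (r 1) ≠ v (r 2) →
        v (r 0) ≠ v (r 1) → v (r 0) ≠ v (r 2) → v (r 0) ≠ v (r 3) →
        ∃ (Y : α → Set α) (t : α → Fin 4 → ZMod 2), C7d M A B (A \ X) Y t ∧
          ∀ i, t (r i) = Pi.single i 1 ∧ Y (r i) = ∅ := by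
  have hE := f7_ground hL hX
  have hNfin : (M ／ (A \ X) ＼ (B \ X)).E.Finite := by rw [hE]; exact hL.fin.subset hX
  have hN := core_not_regular hNfin (Or.inr (Or.inr hF))
  obtain ⟨v, hbij, hrep⟩ := isFano_dual_iff.1 hF
  rw [hE] at hbij
  refine ⟨v, hbij, fun r hrX h123 h12 h01 h02 h03 => ?_⟩
  have hne : ∀ i, v (r i) ≠ 0 := fun i => hbij.mapsTo (hrX i)
  have hli : LinearIndependent (ZMod 2)
      (fun i : Fin 4 => ((v (r i), 1) : (Fin 3 → ZMod 2) × ZMod 2)) := by
    rw [Fintype.linearIndependent_iff]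
    intro c hc
    rw [Fin.sum_univ_four] at hc
    simp only [Prod.smul_mk, Prod.mk_add_mk, smul_eq_mul, mul_one, Prod.mk_eq_zero] at hc
    obtain ⟨hc1, hc2⟩ := hc
    have hz : ∀ a : ZMod 2, a = 0 ∨ a = 1 := by decide
    have e0 : ¬ (v (r 0) + v (r 1) + v (r 2) + v (r 3) = 0) := by
      intro hh
      have h5 : v (r 0) + v (r 1) + v (r 2) + v (r 3) =
        v (r 0) + (v (r 1) + v (r 2) + v (r 3)) := by abel
      rw [h5, h123, add_zero] at hh
      exact hne 0 hh
    have e13 : ¬ (v (r 1) + v (r 3) = 0) := by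
      intro hh
      have h5 : v (r 1) + v (r 2) + v (r 3) = v (r 2) + (v (r 1) + v (r 3)) := by abel
      rw [h5, hh, add_zero] at h123
      exact hne 2 h123
    have e23 : ¬ (v (r 2) + v (r 3) = 0) := by
      intro hh
      rw [add_assoc, hh, add_zero] at h123
      exact hne 1 h123
    have e12 : ¬ (v (r 1) + v (r 2) = 0) := fun hh => h12 (f7_add_eq_zero hh)
    have e01 : ¬ (v (r 0) + v (r 1) = 0) := fun hh => h01 (f7_add_eq_zero hh)
    have e02 : ¬ (v (r 0) + v (r 2) = 0) := fun hh => h02 (f7_add_eq_zero hh)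
    have e03 : ¬ (v (r 0) + v (r 3) = 0) := fun hh => h03 (f7_add_eq_zero hh)
    have hpar : ∀ a b c d : ZMod 2, a + b + c + d = 0 →
      (a = 0 ∧ b = 0 ∧ c = 0 ∧ d = 0) ∨ (a = 1 ∧ b = 1 ∧ c = 1 ∧ d = 1) ∨
      (a = 1 ∧ b = 1 ∧ c = 0 ∧ d = 0) ∨ (a = 1 ∧ b = 0 ∧ c = 1 ∧ d = 0) ∨
      (a = 1 ∧ b = 0 ∧ c = 0 ∧ d = 1) ∨ (a = 0 ∧ b = 1 ∧ c = 1 ∧ d = 0) ∨
      (a = 0 ∧ b = 1 ∧ c = 0 ∧ d = 1) ∨ (a = 0 ∧ b = 0 ∧ c = 1 ∧ d = 1) := by
      intro a b c d h
      rcases hz a with rfl | rfl <;> rcases hz b with rfl | rfl <;>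
        rcases hz c with rfl | rfl <;> rcases hz d with rfl | rfl <;> revert h <;> decide
    rcases hpar _ _ _ _ hc2 with ⟨h0, h1, h2, h3⟩ | ⟨h0, h1, h2, h3⟩ | ⟨h0, h1, h2, h3⟩ |
      ⟨h0, h1, h2, h3⟩ | ⟨h0, h1, h2, h3⟩ | ⟨h0, h1, h2, h3⟩ | ⟨h0, h1, h2, h3⟩ | ⟨h0, h1, h2, h3⟩
    · intro i
      fin_cases i
      · exact h0
      · exact h1
      · exact h2
      · exact h3
    all_goals
      exfalso
      rw [h0, h1, h2, h3] at hc1
      simp only [one_smul, zero_smul, add_zero, zero_add] at hc1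
      first
        | exact e0 hc1
        | exact e01 hc1
        | exact e02 hc1
        | exact e03 hc1
        | exact e12 hc1
        | exact e13 hc1
        | exact e23 hc1
  let b : Module.Basis (Fin 4) (ZMod 2) ((Fin 3 → ZMod 2) × ZMod 2) :=
    basisOfLinearIndependentOfCardEqFinrank hli (by simp)
  have hbi : ∀ i, b i = (v (r i), 1) := fun i => by simp [b]
  have hsum : ∀ s : Fin 4 → ZMod 2, b.equivFun.symm s = (∑ i, s i • v (r i), ∑ i, s i) := by
    intro s
    rw [Module.Basis.equivFun_symm_apply]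
    simp only [hbi]
    refine Prod.ext ?_ ?_
    · rw [Prod.fst_sum]; rfl
    · rw [Prod.snd_sum]; simp
  let w : α → Fin 4 → ZMod 2 := fun x => b.equivFun (v x, 1)
  have hw : ∀ x, w x = b.equivFun (v x, 1) := fun _ => rfl
  have hws : ∀ x, v x = ∑ i, w x i • v (r i) ∧ (1 : ZMod 2) = ∑ i, w x i := by
    intro x
    have h1 := hsum (w x)
    rw [hw, LinearEquiv.symm_apply_apply] at h1
    exact ⟨congrArg Prod.fst h1, congrArg Prod.snd h1⟩
  have hrepw : RepBy (ZMod 2) (M ／ (A \ X) ＼ (B \ X)) w := by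
    intro I hI
    refine (hrep I hI).trans (f7_lin b.equivFun.toLinearMap ⊤ (fun _ _ => trivial) ?_ ?_)
    · intro x _ hx
      exact (map_eq_zero_iff b.equivFun b.equivFun.injective).1 hx
    · intro e _; rfl
  have hwr : ∀ i, w (r i) = Pi.single i 1 := by
    intro i
    rw [hw, ← hbi i]
    ext j
    simp [Pi.single_apply, eq_comm]
  obtain ⟨Y, t, hform, hrt, htw⟩ := f7_core hL hb hX hN hrepw r hrX hwr
  have hsub : A \ (A \ X) ⊆ X := by
    intro x hx
    by_contra hne
    exact hx.2 ⟨hx.1, hne⟩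
  have hzero : (∑ i, (![0, 1, 1, 1] : Fin 4 → ZMod 2) i • v (r i)) = 0 := by
    rw [Fin.sum_univ_four]
    simpa using h123
  refine ⟨Y, t, ⟨diff_subset, hform, ?_, ?_, ?_, hnoF⟩, hrt⟩
  · intro x hx y hy hxy
    rw [htw x (hsub hx), htw y (hsub hy)] at hxy
    apply hbij.injOn (hsub hx) (hsub hy)
    rw [(hws x).1, (hws y).1, hxy]
  · intro x hx
    rw [htw x (hsub hx)]
    refine ⟨(hws x).2.symm, fun hh => ?_⟩
    apply hbij.mapsTo (hsub hx)
    rw [(hws x).1, hh]
    exact hzero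
  · intro s hs hs'
    have hy : (∑ i, s i • v (r i)) ≠ 0 := by
      intro h0
      apply hs'
      apply b.equivFun.symm.injective
      rw [hsum, hsum, h0, hs, hzero]
      refine Prod.ext rfl ?_
      simp only
      decide
    obtain ⟨x, hx, hxy⟩ := hbij.surjOn (show (∑ i, s i • v (r i)) ∈ {x | x ≠ 0} from hy)
    refine ⟨x, ⟨hX hx, fun hh => hh.2 hx⟩, ?_⟩
    rw [htw x hx, hw, hxy]
    apply b.equivFun.symm.injective
    rw [LinearEquiv.symm_apply_apply, hsum, hs]

end Pool.Agent.Helper43_EOR
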