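import Mathlib
import Pool.Agent.Helper43_EOR.F6

set_option autoImplicit false

namespace Pool.Agent.Helper43_EOR

open Set Matroid

variable {α : Type*}

/- ======== JOB L1 ======== -/

set_option maxRecDepth 100000 in
set_option synthInstance.maxHeartbeats 0 in
set_option synthInstance.maxSize 10000 in
set_option maxHeartbeats 0 in
theorem L1_cw0 : ∀ p1 p2 p3 p4 p5 p6 p7 : ZMod 2,
    (p1 + p4 + p5 + p7 = 0 ∧ p2 + p4 + p6 + p7 = 0 ∧ p3 + p5 + p6 + p7 = 0) →
    p1 = (p1 + p2 + p4) + (p2 + p4) ∧ p2 = (p1 + p2 + p4) + (p1 + p4) ∧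
    p3 = (p1 + p2 + p4) + (p1 + p2 + p3 + p4) ∧ p4 = (p1 + p2 + p4) + ((p2 + p4) + (p1 + p4)) ∧
    p5 = (p1 + p2 + p4) + ((p2 + p4) + (p1 + p2 + p3 + p4)) ∧
    p6 = (p1 + p2 + p4) + ((p1 + p4) + (p1 + p2 + p3 + p4)) ∧
    p7 = (p1 + p2 + p4) + ((p2 + p4) + (p1 + p4) + (p1 + p2 + p3 + p4)) := by
  decide

set_option maxRecDepth 100000 in
set_option synthInstance.maxHeartbeats 0 in
set_option synthInstance.maxSize 10000 in
set_option maxHeartbeats 0 in
theorem L1_key2 : ∀ p1 p2 p3 p4 p5 p6 p7 : ZMod 2, ∃ ε x y z : ZMod 2,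
    (x ≠ 0 ∨ y ≠ 0 ∨ z ≠ 0) ∧
    (p1 + ε * (x * (1 + y) * (1 + z))) + (p4 + ε * (x * y * (1 + z))) +
      (p5 + ε * (x * (1 + y) * z)) + (p7 + ε * (x * y * z)) = 0 ∧
    (p2 + ε * ((1 + x) * y * (1 + z))) + (p4 + ε * (x * y * (1 + z))) +
      (p6 + ε * ((1 + x) * y * z)) + (p7 + ε * (x * y * z)) = 0 ∧
    (p3 + ε * ((1 + x) * (1 + y) * z)) + (p5 + ε * (x * (1 + y) * z)) +
      (p6 + ε * ((1 + x) * y * z)) + (p7 + ε * (x * y * z)) = 0 := by
  decide

set_option maxRecDepth 100000 in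
set_option synthInstance.maxHeartbeats 0 in
set_option synthInstance.maxSize 10000 in
set_option maxHeartbeats 0 in
theorem L1_det : ∀ a b c a' b' c' x y z : ZMod 2, (a ≠ 0 ∨ b ≠ 0 ∨ c ≠ 0) →
    (a' ≠ 0 ∨ b' ≠ 0 ∨ c' ≠ 0) → ¬ (a = a' ∧ b = b' ∧ c = c') →
    ((b * c' + c * b') * x + (a * c' + c * a') * y + (a * b' + b * a') * z = 0 ↔
      (x = 0 ∧ y = 0 ∧ z = 0) ∨ (x = a ∧ y = b ∧ z = c) ∨ (x = a' ∧ y = b' ∧ z = c') ∨
      (x = a + a' ∧ y = b + b' ∧ z = c + c')) := by
  decide

/-- The linear functional with coefficients `a, b, c`. -/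
def L1_lin (a b c : ZMod 2) : (Fin 3 → ZMod 2) →ₗ[ZMod 2] ZMod 2 :=
  a • LinearMap.proj 0 + b • LinearMap.proj 1 + c • LinearMap.proj 2

theorem L1_lin_apply (a b c : ZMod 2) (s : Fin 3 → ZMod 2) :
    L1_lin a b c s = a * s 0 + b * s 1 + c * s 2 := rfl

theorem L1_zmod (x : ZMod 2) : x = 0 ∨ x = 1 := by
  fin_cases x
  · left; rfl
  · right; rfl

theorem L1_char (x : ZMod 2) : x + x = 0 := CharTwo.add_self_eq_zero x

theorem L1_ext (s : Fin 3 → ZMod 2) : s = ![s 0, s 1, s 2] := by
  funext i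
  fin_cases i <;> rfl

theorem L1_ne {s : Fin 3 → ZMod 2} (h : s ≠ 0) : s 0 ≠ 0 ∨ s 1 ≠ 0 ∨ s 2 ≠ 0 := by
  by_contra hc
  push Not at hc
  apply h
  funext i
  fin_cases i
  · exact hc.1
  · exact hc.2.1
  · exact hc.2.2

theorem L1_eq_iff {s s' : Fin 3 → ZMod 2} : s = s' ↔ s 0 = s' 0 ∧ s 1 = s' 1 ∧ s 2 = s' 2 := by
  constructor
  · rintro rfl; exact ⟨rfl, rfl, rfl⟩
  · rintro ⟨h0, h1, h2⟩
    funext i
    fin_cases i
    · exact h0
    · exact h1
    · exact h2

theorem L1_bit_true {p : Prop} (h : p) : bit p = 1 := by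
  classical
  unfold bit
  rw [if_pos h]

theorem L1_bit_false {p : Prop} (h : ¬ p) : bit p = 0 := by
  classical
  unfold bit
  rw [if_neg h]

set_option maxRecDepth 100000 in
set_option synthInstance.maxHeartbeats 0 in
set_option synthInstance.maxSize 10000 in
set_option maxHeartbeats 0 in
theorem L1_ind : ∀ x y z x' y' z' : ZMod 2, (1 + x + x') * (1 + y + y') * (1 + z + z') =
    if x = x' ∧ y = y' ∧ z = z' then 1 else 0 := by
  decide

/-- Every function on the nonzero vectors is affine up to one value. -/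
theorem L1_hamming (f : (Fin 3 → ZMod 2) → ZMod 2) :
    ∃ (e ε : ZMod 2) (s₀ : Fin 3 → ZMod 2) (l : (Fin 3 → ZMod 2) →ₗ[ZMod 2] ZMod 2),
      s₀ ≠ 0 ∧ ∀ s ≠ 0, f s = e + ε * bit (s = s₀) + l s := by
  obtain ⟨ε, x, y, z, h0, h1, h2, h3⟩ := L1_key2 (f ![1, 0, 0]) (f ![0, 1, 0]) (f ![0, 0, 1])
    (f ![1, 1, 0]) (f ![1, 0, 1]) (f ![0, 1, 1]) (f ![1, 1, 1])
  obtain ⟨g1, g2, g3, g4, g5, g6, g7⟩ := L1_cw0 _ _ _ _ _ _ _ ⟨h1, h2, h3⟩
  set p1 := f ![1, 0, 0] + ε * (x * (1 + y) * (1 + z)) with hp1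
  set p2 := f ![0, 1, 0] + ε * ((1 + x) * y * (1 + z)) with hp2
  set p3 := f ![0, 0, 1] + ε * ((1 + x) * (1 + y) * z) with hp3
  set p4 := f ![1, 1, 0] + ε * (x * y * (1 + z)) with hp4
  have h22 : (2 : ZMod 2) = 0 := rfl
  refine ⟨p1 + p2 + p4, ε, ![x, y, z], L1_lin (p2 + p4) (p1 + p4) (p1 + p2 + p3 + p4), ?_, ?_⟩
  · intro h
    have := congrFun h
    rcases h0 with h0 | h0 | h0
    · exact h0 (this 0)
    · exact h0 (this 1)
    · exact h0 (this 2)
  · intro s hs
    have hbit : bit (s = ![x, y, z]) = (1 + s 0 + x) * (1 + s 1 + y) * (1 + s 2 + z) := by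
      classical
      rw [L1_ind]
      unfold bit
      by_cases h : s = ![x, y, z]
      · have h' : s 0 = x ∧ s 1 = y ∧ s 2 = z := L1_eq_iff.1 h
        rw [if_pos h, if_pos h']
      · have h' : ¬ (s 0 = x ∧ s 1 = y ∧ s 2 = z) := fun h' => h (L1_eq_iff.2 h')
        rw [if_neg h, if_neg h']
    rw [hbit, L1_lin_apply]
    have hse := L1_ext s
    rcases L1_zmod (s 0) with a0 | a0 <;> rcases L1_zmod (s 1) with a1 | a1 <;>
      rcases L1_zmod (s 2) with a2 | a2 <;> rw [a0, a1, a2] at hse ⊢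
    · exact absurd (hse.trans (by funext i; fin_cases i <;> rfl)) hs
    · rw [hse]; linear_combination g3 + (-1) * hp3 - ε * (1 + x) * (1 + y) * (1 + z) * h22
    · rw [hse]; linear_combination g2 + (-1) * hp2 - ε * (1 + x) * (1 + y) * (1 + z) * h22
    · rw [hse]; linear_combination g6 - ε * (1 + x) * (y * z + y + z + 2) * h22
    · rw [hse]; linear_combination g1 + (-1) * hp1 - ε * (1 + x) * (1 + y) * (1 + z) * h22
    · rw [hse]; linear_combination g5 - ε * (1 + y) * (x * z + x + z + 2) * h22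
    · rw [hse]; linear_combination g4 + (-1) * hp4 - ε * (1 + z) * (x * y + x + y + 2) * h22
    · rw [hse]; linear_combination g7 -
        ε * (x * y * z + 4 + 2 * (x + y + z) + (x * y + y * z + z * x)) * h22

theorem L1_co_notMem {A₁ : Set α} {Y : α → Set α} {δ k : ℕ} {t : α → Fin δ → ZMod 2}
    {q : Fin k → α} {x : α} (hx : x ∉ A₁) :
    co A₁ Y t q x = (fun i => bit (q i ∈ Y x), t x) := by
  classical
  unfold co bvec
  rw [if_neg hx]
  refine Prod.ext (funext fun i => ?_) rfl
  simp only [Set.indicator, bit, Pi.one_apply]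

theorem L1_co_mem {A₁ : Set α} {Y : α → Set α} {δ k : ℕ} {t : α → Fin δ → ZMod 2}
    {q : Fin k → α} {x : α} (hx : x ∈ A₁) :
    co A₁ Y t q x = (fun i => bit (q i = x), 0) := by
  classical
  unfold co bvec
  rw [if_pos hx]
  refine Prod.ext (funext fun i => ?_) rfl
  simp only [bit, Pi.single_apply]

theorem L1_notB {M : Matroid α} {A B : Set α} (hL : Lab M A B) {x : α} (hA : x ∈ A)
    (hB : x ∈ B) : False :=
  Set.disjoint_left.1 hL.disj hA hB

theorem L1_E {M : Matroid α} {A B : Set α} (hL : Lab M A B) {x : α} (hx : x ∈ M.E) :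
    x ∈ A ∨ x ∈ B := by
  rw [← hL.cover] at hx; exact hx

theorem L1_subE {M : Matroid α} {A B : Set α} (hL : Lab M A B) : A ⊆ M.E ∧ B ⊆ M.E := by
  rw [← hL.cover]
  exact ⟨subset_union_left, subset_union_right⟩

theorem L1_transversal {M : Matroid α} {A B A₁ : Set α} {Y : α → Set α}
    {t : α → Fin 3 → ZMod 2} (hL : Lab M A B) (hc : C7 M A B A₁ Y t) :
    ∃ c0 : (Fin 3 → ZMod 2) → α, (∀ s ≠ 0, c0 s ∈ M.E \ A₁ ∧ t (c0 s) = s) ∧
      ∀ a ∈ A \ A₁, c0 (t a) = a := by
  classical
  have h : ∀ s : Fin 3 → ZMod 2, ∃ x, (s ≠ 0 → x ∈ M.E \ A₁ ∧ t x = s) ∧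
      ∀ a ∈ A \ A₁, t a = s → x = a := by
    intro s
    by_cases h1 : ∃ a ∈ A \ A₁, t a = s
    · obtain ⟨a, ha, rfl⟩ := h1
      exact ⟨a, fun _ => ⟨⟨(L1_subE hL).1 ha.1, ha.2⟩, rfl⟩,
        fun a' ha' he => hc.inj ha ha' he.symm⟩
    · push Not at h1
      by_cases hs : s = 0
      · obtain ⟨x, hx, hxt⟩ := hc.surj ![1, 0, 0] (by
          intro h
          exact one_ne_zero (congrFun h 0))
        exact ⟨x, fun h => absurd hs h, fun a ha he => absurd he (h1 a ha)⟩
      · obtain ⟨x, hx, hxt⟩ := hc.surj s hs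
        exact ⟨x, fun _ => ⟨hx, hxt⟩, fun a ha he => absurd he (h1 a ha)⟩
  choose c0 hc1 hc2 using h
  exact ⟨c0, hc1, fun a ha => hc2 (t a) a ha rfl⟩

theorem lf1 {M : Matroid α} {A B A₁ : Set α} {Y : α → Set α} {t : α → Fin 3 → ZMod 2}
    (hL : Lab M A B) (hc : C7 M A B A₁ Y t) :
    ∀ b ∈ B, t b ≠ 0 ∧ ∀ a ∈ A \ A₁, t b ≠ t a := by
  classical
  intro b hb
  obtain ⟨c0, hc0, hca⟩ := L1_transversal hL hc
  have hbA : b ∉ A := fun h => L1_notB hL h hb
  have hbA₁ : b ∉ A₁ := fun h => hbA (hc.sub h)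
  have hbE : b ∈ M.E := (L1_subE hL).2 hb
  set q : Fin 0 → α := fun i => i.elim0 with hq
  have hqi : q.Injective := fun i => i.elim0
  have hqA : ∀ i, q i ∈ A₁ := fun i => i.elim0
  set T : (Fin 0 → ZMod 2) × (Fin 3 → ZMod 2) →ₗ[ZMod 2] (Fin 3 → ZMod 2) :=
    LinearMap.snd _ _ _ with hT
  have hTx : ∀ x, x ∉ A₁ → T (co A₁ Y t q x) = t x := by
    intro x hx
    rw [L1_co_notMem hx]; rfl
  have hker : ∀ (Zs : Set α) (y), T y = 0 → y ∈ Submodule.span (ZMod 2) (co A₁ Y t q '' Zs) := by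
    intro Zs y hy
    have : y = 0 := by
      refine Prod.ext (funext fun i => i.elim0) ?_
      exact hy
    rw [this]
    exact Submodule.zero_mem _
  constructor
  · intro h0
    have := (hL.obs7 hc.sub hc.form hqi hqA (Zs := {b}) (singleton_subset_iff.2 hbE) T
      (by
        rintro z rfl
        rw [hTx z hbA₁, h0])
      (hker _) c0 (fun s hs => ⟨(hc0 s hs).1.1, by
        rw [hTx _ (hc0 s hs).1.2, (hc0 s hs).2]⟩)).1
    exact hbA (this rfl)
  · intro a ha hta
    have haE : a ∈ M.E := (L1_subE hL).1 ha.1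
    have := (hL.obs7 hc.sub hc.form hqi hqA (Zs := ∅) (empty_subset _) T
      (by intro z hz; exact absurd hz (notMem_empty _))
      (hker _) (Function.update c0 (t a) b) (by
        intro s hs
        by_cases h : s = t a
        · subst h
          rw [Function.update_self]
          exact ⟨hbE, by rw [hTx b hbA₁, hta]⟩
        · rw [Function.update_of_ne h]
          exact ⟨(hc0 s hs).1.1, by rw [hTx _ (hc0 s hs).1.2, (hc0 s hs).2]⟩)).2 a ha.1
    rcases this with h | h | ⟨s, hs, h⟩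
    · exact ha.2 h.1
    · exact notMem_empty _ h
    · by_cases h' : s = t a
      · subst h'
        rw [Function.update_self] at h
        exact hbA (h ▸ ha.1)
      · rw [Function.update_of_ne h'] at h
        apply h'
        rw [← (hc0 s hs).2, h]

/-- The functional `(u, s) ↦ u 0 + l s`. -/
def L1_P (l : (Fin 3 → ZMod 2) →ₗ[ZMod 2] ZMod 2) :
    (Fin 1 → ZMod 2) × (Fin 3 → ZMod 2) →ₗ[ZMod 2] ZMod 2 :=
  (LinearMap.proj (R := ZMod 2) (φ := fun _ : Fin 1 => ZMod 2) 0).comp
    (LinearMap.fst (ZMod 2) (Fin 1 → ZMod 2) (Fin 3 → ZMod 2)) +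
    l.comp (LinearMap.snd (ZMod 2) (Fin 1 → ZMod 2) (Fin 3 → ZMod 2))

theorem L1_P_apply (l : (Fin 3 → ZMod 2) →ₗ[ZMod 2] ZMod 2) (y) :
    L1_P l y = y.1 0 + l y.2 := rfl

theorem lf2 {M : Matroid α} {A B A₁ : Set α} {Y : α → Set α} {t : α → Fin 3 → ZMod 2}
    (hL : Lab M A B) (hc : C7 M A B A₁ Y t) {a : α} (ha : a ∈ A₁)
    {c : (Fin 3 → ZMod 2) → α} (hct : ∀ s ≠ 0, c s ∈ M.E \ A₁ ∧ t (c s) = s) :
    ∃ s : Fin 3 → ZMod 2, s ≠ 0 ∧ ∃ l : (Fin 3 → ZMod 2) →ₗ[ZMod 2] ZMod 2,
      ∀ s' ≠ 0, bit (a ∈ Y (c s')) = bit (s' = s) + bit (c s ∈ B) + l s' := by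
  classical
  obtain ⟨e, ε, s₀, l, hs₀, hf⟩ := L1_hamming (fun s => bit (a ∈ Y (c s)))
  have hA₁E : A₁ ⊆ M.E := hc.sub.trans (L1_subE hL).1
  have haA : a ∈ A := hc.sub ha
  set q : Fin 1 → α := fun _ => a with hq
  have hqi : q.Injective := fun i j _ => Subsingleton.elim i j
  have hqA : ∀ i, q i ∈ A₁ := fun _ => ha
  have hrange : range q = {a} := by
    ext x; constructor
    · rintro ⟨i, rfl⟩; rfl
    · rintro rfl; exact ⟨0, rfl⟩
  have hcoc : ∀ s ≠ 0, co A₁ Y t q (c s) = (fun _ => e + ε * bit (s = s₀) + l s, s) := by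
    intro s hs
    rw [L1_co_notMem (hct s hs).1.2, (hct s hs).2]
    refine Prod.ext (funext fun i => ?_) rfl
    exact hf s hs
  have hcoa : co A₁ Y t q a = (fun _ => 1, 0) := by
    rw [L1_co_mem ha]
    refine Prod.ext (funext fun i => ?_) rfl
    exact L1_bit_true rfl
  have hPc : ∀ s ≠ 0, L1_P l (co A₁ Y t q (c s)) = e + ε * bit (s = s₀) := by
    intro s hs
    rw [L1_P_apply, hcoc s hs]
    simp only
    rw [add_assoc, L1_char, add_zero]
  have hPa : L1_P l (co A₁ Y t q a) = 1 := by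
    rw [L1_P_apply, hcoa]
    simp
  -- the map of the dual Fano minors
  set Td : (Fin 1 → ZMod 2) × (Fin 3 → ZMod 2) →ₗ[ZMod 2] (Fin 3 → ZMod 2) × ZMod 2 :=
    (LinearMap.snd _ _ _).prod (L1_P l) with hTd
  have hTdc : ∀ s ≠ 0, Td (co A₁ Y t q (c s)) = (s, e + ε * bit (s = s₀)) := by
    intro s hs
    refine Prod.ext ?_ ?_
    · change (co A₁ Y t q (c s)).2 = s
      rw [hcoc s hs]
    · exact hPc s hs
  have hTda : Td (co A₁ Y t q a) = (0, 1) := by
    refine Prod.ext ?_ ?_
    · change (co A₁ Y t q a).2 = 0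
      rw [hcoa]
    · exact hPa
  have hTdker : ∀ y, Td y = 0 → y = 0 := by
    intro y hy
    have h1 : y.2 = 0 := congrArg Prod.fst hy
    have h2 : y.1 0 + l y.2 = 0 := congrArg Prod.snd hy
    rw [h1, map_zero, add_zero] at h2
    refine Prod.ext (funext fun i => ?_) h1
    rw [Subsingleton.elim i 0, h2]; rfl
  have hTdker' : ∀ (Zs : Set α) (y), Td y = 0 →
      y ∈ Submodule.span (ZMod 2) (co A₁ Y t q '' Zs) := by
    intro Zs y hy
    rw [hTdker y hy]; exact Submodule.zero_mem _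
  have hcs : ∀ s ≠ 0, c s ≠ a := fun s hs h => (hct s hs).1.2 (h ▸ ha)
  have hcinj : ∀ s ≠ 0, ∀ s' ≠ 0, c s = c s' → s = s' := by
    intro s hs s' hs' h
    rw [← (hct s hs).2, h, (hct s' hs').2]
  rcases L1_zmod e with he | he <;> rcases L1_zmod ε with hε | hε <;> subst he <;> subst hε
  · -- a Fano minor without `a`
    exfalso
    have hR := minor_form hA₁E hL.fin hc.form hqi hqA (Zs := ∅) (empty_subset _) Td
      (by intro z hz; exact absurd hz (notMem_empty _)) (hTdker' _)
    rw [union_empty, hrange] at hR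
    set N := M ／ (A₁ \ {a}) with hN
    set S : Set α := c '' {s | s ≠ 0} with hS
    have hNE : N.E = M.E \ (A₁ \ {a}) := rfl
    have hSN : S ⊆ N.E := by
      rintro _ ⟨s, hs, rfl⟩
      exact ⟨(hct s hs).1.1, fun h => (hct s hs).1.2 h.1⟩
    set D := N.E \ S with hD
    have hRD := hR.delete D
    have hE : (N ＼ D).E = S := by
      change N.E \ (N.E \ S) = S
      rw [diff_diff_cancel_left hSN]
    have hw : ∀ x ∈ S, (Td ∘ co A₁ Y t q) x = (t x, 0) := by
      rintro _ ⟨s, hs, rfl⟩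
      rw [Function.comp_apply, hTdc s hs, (hct s hs).2]
      simp
    have hspan : ∀ z ∈ Submodule.span (ZMod 2) ((Td ∘ co A₁ Y t q) '' (N ＼ D).E), z.2 = 0 := by
      intro z hz
      induction hz using Submodule.span_induction with
      | mem z hz =>
        rw [hE] at hz
        obtain ⟨x, hx, rfl⟩ := hz
        rw [hw x hx]
      | zero => rfl
      | add x y _ _ hx hy => rw [Prod.snd_add, hx, hy, add_zero]
      | smul c x _ hx => rw [Prod.smul_snd, hx, smul_zero]
    have hRm := hRD.map (LinearMap.fst (ZMod 2) (Fin 3 → ZMod 2) (ZMod 2)) (by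
      intro z hz h0
      exact Prod.ext h0 (hspan z hz))
    have hfano : IsFano (N ＼ D) := by
      refine ⟨LinearMap.fst (ZMod 2) (Fin 3 → ZMod 2) (ZMod 2) ∘ (Td ∘ co A₁ Y t q), ?_, hRm⟩
      rw [hE]
      have hv : ∀ x ∈ S, (LinearMap.fst (ZMod 2) (Fin 3 → ZMod 2) (ZMod 2) ∘
          (Td ∘ co A₁ Y t q)) x = t x := by
        intro x hx
        rw [Function.comp_apply, hw x hx]; rfl
      refine ⟨?_, ?_, ?_⟩
      · intro x hx
        rw [hv x hx]
        obtain ⟨s, hs, rfl⟩ := hx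
        rw [(hct s hs).2]; exact hs
      · intro x hx y hy hxy
        rw [hv x hx, hv y hy] at hxy
        obtain ⟨s, hs, rfl⟩ := hx
        obtain ⟨s', hs', rfl⟩ := hy
        rw [(hct s hs).2, (hct s' hs').2] at hxy
        rw [hxy]
      · intro s hs
        refine ⟨c s, ⟨s, hs, rfl⟩, ?_⟩
        rw [hv _ ⟨s, hs, rfl⟩, (hct s hs).2]
    have hreg : ¬ Regular (M ／ (A₁ \ {a}) ＼ D) := by
      refine core_not_regular ?_ (Or.inr (Or.inl hfano))
      rw [hE]
      exact hL.fin.subset (hSN.trans (by rw [hNE]; exact diff_subset))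
    have hsub := hL.of_minor (diff_subset.trans hA₁E) (D := D)
      (diff_subset.trans (by rw [hNE]; exact diff_subset))
      (by
        rw [Set.disjoint_left]
        intro x hx hx'
        exact hx'.1.2 hx) hreg
    have haD : a ∈ D := by
      refine ⟨⟨hA₁E ha, fun h => h.2 rfl⟩, ?_⟩
      rintro ⟨s, hs, h⟩
      exact hcs s hs h
    exact L1_notB hL haA (hsub.2 haD)
  · -- `e = 0`, `ε = 1`
    have hsE := (hct s₀ hs₀).1
    rcases L1_E hL hsE.1 with hA | hB
    · refine ⟨s₀, hs₀, l, fun s' hs' => ?_⟩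
      rw [hf s' hs', L1_bit_false (p := c s₀ ∈ B) (fun h => L1_notB hL hA h)]
      ring
    · exfalso
      set T : (Fin 1 → ZMod 2) × (Fin 3 → ZMod 2) →ₗ[ZMod 2] (Fin 3 → ZMod 2) :=
        LinearMap.snd _ _ _ + (L1_P l).smulRight s₀ with hT
      have hTy : ∀ y, T y = y.2 + (L1_P l y) • s₀ := fun y => rfl
      have hTc : ∀ s ≠ 0, s ≠ s₀ → T (co A₁ Y t q (c s)) = s := by
        intro s hs hne
        rw [hTy, hPc s hs, L1_bit_false hne, hcoc s hs]
        simp
      have hT0 : T (co A₁ Y t q (c s₀)) = 0 := by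
        rw [hTy, hPc s₀ hs₀, L1_bit_true rfl, hcoc s₀ hs₀]
        simp only [mul_one, zero_add, one_smul]
        funext i
        exact L1_char _
      have hTa : T (co A₁ Y t q a) = s₀ := by
        rw [hTy, hPa, hcoa]
        simp
      have := (hL.obs7 hc.sub hc.form hqi hqA (Zs := {c s₀}) (singleton_subset_iff.2 hsE.1) T
        (by rintro z rfl; exact hT0)
        (by
          intro y hy
          rw [image_singleton]
          rw [hTy] at hy
          rcases L1_zmod (L1_P l y) with hP | hP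
          · rw [hP, zero_smul, add_zero] at hy
            rw [L1_P_apply, hy, map_zero, add_zero] at hP
            have : y = 0 := by
              refine Prod.ext (funext fun i => ?_) hy
              rw [Subsingleton.elim i 0, hP]; rfl
            rw [this]; exact Submodule.zero_mem _
          · rw [hP, one_smul] at hy
            have hy2 : y.2 = s₀ := by
              funext i
              have := congrFun hy i
              simp only [Pi.add_apply, Pi.zero_apply] at this
              linear_combination this - L1_char (s₀ i)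
            have : y = co A₁ Y t q (c s₀) := by
              rw [hcoc s₀ hs₀]
              refine Prod.ext (funext fun i => ?_) hy2
              rw [L1_P_apply, hy2] at hP
              rw [Subsingleton.elim i 0, L1_bit_true rfl]
              linear_combination hP - L1_char (l s₀)
            rw [this]
            exact Submodule.mem_span_singleton_self _)
        (Function.update c s₀ a) (by
          intro s hs
          by_cases h : s = s₀
          · subst h
            rw [Function.update_self]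
            exact ⟨hA₁E ha, hTa⟩
          · rw [Function.update_of_ne h]
            exact ⟨(hct s hs).1.1, hTc s hs h⟩)).1
      exact L1_notB hL (this rfl) hB
  · -- `e = 1`, `ε = 0`
    exfalso
    have := (hL.obs7d hc.sub hc.form hqi hqA (Zs := ∅) (empty_subset _) Td
      (by intro z hz; exact absurd hz (notMem_empty _)) (hTdker' _) 0 c (by
        intro s hs
        refine ⟨(hct s hs).1.1, ?_⟩
        rw [hTdc s hs]
        simp)).2 a haA
    rcases this with h | h | ⟨s, hs, h⟩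
    · exact h.2 ⟨0, rfl⟩
    · exact notMem_empty _ h
    · exact hcs s hs h
  · -- `e = 1`, `ε = 1`
    have hsE := (hct s₀ hs₀).1
    rcases L1_E hL hsE.1 with hA | hB
    · exfalso
      have := (hL.obs7d hc.sub hc.form hqi hqA (Zs := ∅) (empty_subset _) Td
        (by intro z hz; exact absurd hz (notMem_empty _)) (hTdker' _) s₀
        (Function.update c 0 a) (by
          intro s hs
          by_cases h : s = 0
          · subst h
            rw [Function.update_self]
            exact ⟨hA₁E ha, hTda⟩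
          · rw [Function.update_of_ne h]
            refine ⟨(hct s h).1.1, ?_⟩
            rw [hTdc s h, L1_bit_false hs]
            simp)).2 (c s₀) hA
      rcases this with h | h | ⟨s, hs, h⟩
      · exact hsE.2 h.1
      · exact notMem_empty _ h
      · by_cases h' : s = 0
        · subst h'
          rw [Function.update_self] at h
          exact hcs s₀ hs₀ h.symm
        · rw [Function.update_of_ne h'] at h
          exact hs (hcinj s h' s₀ hs₀ h)
    · refine ⟨s₀, hs₀, l, fun s' hs' => ?_⟩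
      rw [hf s' hs', L1_bit_true hB]
      ring

/-- The functional `(u, s) ↦ u i + l s`. -/
def L1_Q (i : Fin 2) (l : (Fin 3 → ZMod 2) →ₗ[ZMod 2] ZMod 2) :
    (Fin 2 → ZMod 2) × (Fin 3 → ZMod 2) →ₗ[ZMod 2] ZMod 2 :=
  (LinearMap.proj (R := ZMod 2) (φ := fun _ : Fin 2 => ZMod 2) i).comp
    (LinearMap.fst (ZMod 2) (Fin 2 → ZMod 2) (Fin 3 → ZMod 2)) +
    l.comp (LinearMap.snd (ZMod 2) (Fin 2 → ZMod 2) (Fin 3 → ZMod 2))

theorem L1_Q_apply (i : Fin 2) (l : (Fin 3 → ZMod 2) →ₗ[ZMod 2] ZMod 2) (y) :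
    L1_Q i l y = y.1 i + l y.2 := rfl

theorem L1_psi {s s' : Fin 3 → ZMod 2} (hs : s ≠ 0) (hs' : s' ≠ 0) (hss : s ≠ s') :
    ∃ ψ : (Fin 3 → ZMod 2) →ₗ[ZMod 2] ZMod 2, ∀ r, ψ r = 0 ↔ r = 0 ∨ r = s ∨ r = s' ∨
      r = s + s' := by
  refine ⟨L1_lin (s 1 * s' 2 + s 2 * s' 1) (s 0 * s' 2 + s 2 * s' 0) (s 0 * s' 1 + s 1 * s' 0),
    fun r => ?_⟩
  rw [L1_lin_apply, L1_det (s 0) (s 1) (s 2) (s' 0) (s' 1) (s' 2) (r 0) (r 1) (r 2) (L1_ne hs)
    (L1_ne hs') (fun h => hss (L1_eq_iff.2 h)), L1_eq_iff, L1_eq_iff, L1_eq_iff, L1_eq_iff]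
  rfl

theorem lf3 {M : Matroid α} {A B A₁ : Set α} {Y : α → Set α} {t : α → Fin 3 → ZMod 2}
    (hL : Lab M A B) (hc : C7 M A B A₁ Y t) {a a' : α} (ha : a ∈ A₁) (ha' : a' ∈ A₁)
    (haa : a ≠ a') {c : (Fin 3 → ZMod 2) → α} (hct : ∀ s ≠ 0, c s ∈ M.E \ A₁ ∧ t (c s) = s)
    {s s' : Fin 3 → ZMod 2} (hs : s ≠ 0) (hs' : s' ≠ 0) (hss : s ≠ s')
    {l l' : (Fin 3 → ZMod 2) →ₗ[ZMod 2] ZMod 2}
    (h : ∀ r ≠ 0, bit (a ∈ Y (c r)) = bit (r = s) + 1 + l r)
    (h' : ∀ r ≠ 0, bit (a' ∈ Y (c r)) = bit (r = s') + 1 + l' r)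
    (hB : c s ∈ B) (hB' : c s' ∈ B) : c (s + s') ∈ A := by
  classical
  have hadd : ∀ x y : Fin 3 → ZMod 2, x + y + y = x := by
    intro x y
    funext i
    simp only [Pi.add_apply]
    linear_combination L1_char (y i)
  have hself : ∀ x : Fin 3 → ZMod 2, x + x = 0 := by
    intro x
    funext i
    exact L1_char (x i)
  set w := s + s' with hw
  have hws : w + s = s' := by rw [hw, add_comm s s', hadd]
  have hws' : w + s' = s := by rw [hw, hadd]
  have hw0 : w ≠ 0 := by
    intro h0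
    apply hss
    rw [← hws', h0, zero_add]
  have hwns : w ≠ s := by
    intro h0
    apply hs'
    rw [← hws, h0, hself]
  have hwns' : w ≠ s' := by
    intro h0
    apply hs
    rw [← hws', h0, hself]
  have hA₁E : A₁ ⊆ M.E := hc.sub.trans (L1_subE hL).1
  rcases L1_E hL (hct w hw0).1.1 with hwA | hwB
  · exact hwA
  exfalso
  obtain ⟨ψ, hψ⟩ := L1_psi hs hs' hss
  have hψ1 : ∀ r, ¬ (r = 0 ∨ r = s ∨ r = s' ∨ r = s + s') → ψ r = 1 := by
    intro r hr
    rcases L1_zmod (ψ r) with h0 | h0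
    · exact absurd ((hψ r).1 h0) hr
    · exact h0
  have hψw : ψ w = 0 := (hψ w).2 (Or.inr (Or.inr (Or.inr rfl)))
  have hψs' : ψ s' = 0 := (hψ s').2 (Or.inr (Or.inr (Or.inl rfl)))
  set q : Fin 2 → α := ![a, a'] with hq
  have hqi : q.Injective := by
    intro i j hij
    fin_cases i <;> fin_cases j
    · rfl
    · exact absurd hij haa
    · exact absurd hij.symm haa
    · rfl
  have hqA : ∀ i, q i ∈ A₁ := by
    intro i
    fin_cases i
    · exact ha
    · exact ha'
  set U0 := L1_Q 0 l with hU0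
  set U1 := L1_Q 1 l' with hU1
  -- coordinates
  have hc0 : ∀ r ≠ 0, U0 (co A₁ Y t q (c r)) = bit (r = s) + 1 := by
    intro r hr
    rw [hU0, L1_Q_apply, L1_co_notMem (hct r hr).1.2, (hct r hr).2]
    have : bit (q 0 ∈ Y (c r)) = bit (r = s) + 1 + l r := h r hr
    simp only
    rw [this, add_assoc, L1_char, add_zero]
  have hc1 : ∀ r ≠ 0, U1 (co A₁ Y t q (c r)) = bit (r = s') + 1 := by
    intro r hr
    rw [hU1, L1_Q_apply, L1_co_notMem (hct r hr).1.2, (hct r hr).2]
    have : bit (q 1 ∈ Y (c r)) = bit (r = s') + 1 + l' r := h' r hr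
    simp only
    rw [this, add_assoc, L1_char, add_zero]
  have hc2 : ∀ r ≠ 0, (co A₁ Y t q (c r)).2 = r := by
    intro r hr
    rw [L1_co_notMem (hct r hr).1.2]
    exact (hct r hr).2
  have ha0 : U0 (co A₁ Y t q a) = 1 := by
    rw [hU0, L1_Q_apply, L1_co_mem ha]
    simp only [map_zero, add_zero]
    exact L1_bit_true rfl
  have ha1 : U1 (co A₁ Y t q a) = 0 := by
    rw [hU1, L1_Q_apply, L1_co_mem ha]
    simp only [map_zero, add_zero]
    exact L1_bit_false (fun h => haa h.symm)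
  have ha2 : (co A₁ Y t q a).2 = 0 := by rw [L1_co_mem ha]
  have ha0' : U0 (co A₁ Y t q a') = 0 := by
    rw [hU0, L1_Q_apply, L1_co_mem ha']
    simp only [map_zero, add_zero]
    exact L1_bit_false haa
  have ha1' : U1 (co A₁ Y t q a') = 1 := by
    rw [hU1, L1_Q_apply, L1_co_mem ha']
    simp only [map_zero, add_zero]
    exact L1_bit_true rfl
  have ha2' : (co A₁ Y t q a').2 = 0 := by rw [L1_co_mem ha']
  set R : (Fin 2 → ZMod 2) × (Fin 3 → ZMod 2) →ₗ[ZMod 2] (Fin 3 → ZMod 2) :=
    LinearMap.snd _ _ _ + U1.smulRight w with hR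
  have hRy : ∀ y, R y = y.2 + (U1 y) • w := fun y => rfl
  set T : (Fin 2 → ZMod 2) × (Fin 3 → ZMod 2) →ₗ[ZMod 2] (Fin 3 → ZMod 2) × ZMod 2 :=
    R.prod (U0 + U1 + ψ.comp R) with hT
  have hTy : ∀ y, T y = (y.2 + (U1 y) • w, U0 y + U1 y + ψ (y.2 + (U1 y) • w)) := fun y => rfl
  set x : (Fin 3 → ZMod 2) → α := fun r => if r = 0 then a else if r = w then a' else
    if r = s' then c s else c (r + w) with hx
  have := (hL.obs7d hc.sub hc.form hqi hqA (Zs := {c w})
    (singleton_subset_iff.2 (hct w hw0).1.1) T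
    (by
      rintro z rfl
      rw [hTy, hc0 w hw0, hc1 w hw0, hc2 w hw0, L1_bit_false hwns, L1_bit_false hwns']
      simp only [zero_add, one_smul, hself, map_zero, add_zero]
      exact Prod.ext rfl (L1_char 1))
    (by
      intro y hy
      rw [hTy] at hy
      have e1 : y.2 + (U1 y) • w = 0 := congrArg Prod.fst hy
      have e2 : U0 y + U1 y + ψ (y.2 + (U1 y) • w) = 0 := congrArg Prod.snd hy
      rw [e1, map_zero, add_zero] at e2
      rw [image_singleton]
      rcases L1_zmod (U1 y) with hP | hP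
      · rw [hP, zero_smul, add_zero] at e1
        rw [hP, add_zero] at e2
        rw [hU0, L1_Q_apply, e1, map_zero, add_zero] at e2
        rw [hU1, L1_Q_apply, e1, map_zero, add_zero] at hP
        have : y = 0 := by
          refine Prod.ext (funext fun i => ?_) e1
          fin_cases i
          · exact e2
          · exact hP
        rw [this]; exact Submodule.zero_mem _
      · rw [hP, one_smul] at e1
        have hy2 : y.2 = w := by
          have := congrArg (fun z => z + w) e1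
          simp only [zero_add] at this
          rw [hadd] at this
          exact this
        have e3 : U0 y = 1 := by
          rw [hP] at e2
          linear_combination e2 - L1_char 1
        have : y = co A₁ Y t q (c w) := by
          refine Prod.ext (funext fun i => ?_) (by rw [hc2 w hw0, hy2])
          have f0 := hc0 w hw0
          have f1 := hc1 w hw0
          rw [hU0, L1_Q_apply, hc2 w hw0, L1_bit_false hwns, zero_add] at f0
          rw [hU1, L1_Q_apply, hc2 w hw0, L1_bit_false hwns', zero_add] at f1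
          rw [hU0, L1_Q_apply, hy2] at e3
          rw [hU1, L1_Q_apply, hy2] at hP
          fin_cases i
          · change y.1 0 = (co A₁ Y t q (c w)).1 0
            linear_combination e3 - f0
          · change y.1 1 = (co A₁ Y t q (c w)).1 1
            linear_combination hP - f1
        rw [this]
        exact Submodule.mem_span_singleton_self _)
    s x (by
      intro r hr
      by_cases r0 : r = 0
      · subst r0
        rw [hx]
        simp only [if_true]
        refine ⟨hA₁E ha, ?_⟩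
        rw [hTy, ha0, ha1, ha2]
        simp
      by_cases rw' : r = w
      · subst rw'
        rw [hx]
        simp only [if_neg r0, if_true]
        refine ⟨hA₁E ha', ?_⟩
        rw [hTy, ha0', ha1', ha2']
        simp only [zero_add, one_smul]
        rw [hψw, add_zero]
      by_cases rs' : r = s'
      · subst rs'
        rw [hx]
        simp only [if_neg r0, if_neg rw', if_true]
        refine ⟨(hct s hs).1.1, ?_⟩
        rw [hTy, hc0 s hs, hc1 s hs, hc2 s hs, L1_bit_true rfl, L1_bit_false hss]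
        have : s + (0 + 1 : ZMod 2) • w = r := by
          rw [zero_add, one_smul, add_comm, hws]
        rw [this, hψs']
        refine Prod.ext rfl ?_
        simp only
        linear_combination L1_char 1
      · have hrw0 : r + w ≠ 0 := by
          intro h0
          apply rw'
          have := congrArg (fun z => z + w) h0
          simp only [zero_add] at this
          rw [hadd] at this
          exact this
        have hrws : r + w ≠ s := by
          intro h0
          apply rs'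
          have : r + w + w = s + w := congrArg (fun z => z + w) h0
          rw [hadd, add_comm s w, hws] at this
          exact this
        have hrws' : r + w ≠ s' := by
          intro h0
          apply hr
          have : r + w + w = s' + w := congrArg (fun z => z + w) h0
          rw [hadd, add_comm s' w, hws'] at this
          exact this
        rw [hx]
        simp only [if_neg r0, if_neg rw', if_neg rs']
        refine ⟨(hct _ hrw0).1.1, ?_⟩
        rw [hTy, hc0 _ hrw0, hc1 _ hrw0, hc2 _ hrw0, L1_bit_false hrws, L1_bit_false hrws']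
        simp only [zero_add, one_smul]
        rw [hadd, hψ1 r (by
          rintro (h0 | h0 | h0 | h0)
          · exact r0 h0
          · exact hr h0
          · exact rs' h0
          · exact rw' h0)]
        refine Prod.ext rfl ?_
        simp only
        linear_combination L1_char 1)).1
  exact L1_notB hL (this rfl) hwB

end Pool.Agent.Helper43_EOR
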