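import Mathlib
import Pool.Agent.Helper43_EOR.F7
import Pool.Agent.Helper43_EOR.L1

set_option autoImplicit false

namespace Pool.Agent.Helper43_EOR

open Set Matroid

variable {α : Type*}


/-- The vector with a zero at `i` and ones elsewhere. -/
def c0_cmp (i : Fin 3) : Fin 3 → ZMod 2 := fun j => if j = i then 0 else 1

/-- The vector of ones. -/
def c0_one : Fin 3 → ZMod 2 := fun _ => 1

theorem c0_pts : ∀ s : Fin 3 → ZMod 2,
    s = 0 ∨ (∃ i, s = Pi.single i 1) ∨ (∃ i, s = c0_cmp i) ∨ s = c0_one := by decide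

theorem c0_single_inj : ∀ i j : Fin 3,
    (Pi.single i 1 : Fin 3 → ZMod 2) = Pi.single j 1 → i = j := by decide
theorem c0_single_ne : ∀ i : Fin 3, (Pi.single i 1 : Fin 3 → ZMod 2) ≠ 0 := by decide
theorem c0_cmp_ne : ∀ i : Fin 3, c0_cmp i ≠ 0 := by decide
theorem c0_one_ne : c0_one ≠ 0 := by decide
theorem c0_single_cmp : ∀ i j : Fin 3, (Pi.single i 1 : Fin 3 → ZMod 2) ≠ c0_cmp j := by decide
theorem c0_single_one : ∀ i : Fin 3, (Pi.single i 1 : Fin 3 → ZMod 2) ≠ c0_one := by decide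
theorem c0_cmp_one : ∀ i : Fin 3, c0_cmp i ≠ c0_one := by decide
theorem c0_cmp_inj : ∀ i j : Fin 3, c0_cmp i = c0_cmp j → i = j := by decide
theorem c0_cmp_add : ∀ i j : Fin 3, i ≠ j → ∃ k, c0_cmp i + c0_cmp j = c0_cmp k := by decide
theorem c0_third : ∀ i : Fin 3, ∃ j k : Fin 3, j ≠ i ∧ k ≠ i ∧ j ≠ k := by decide

theorem c0_bit_true {p : Prop} (h : p) : bit p = 1 := by
  classical
  unfold bit; exact if_pos h

theorem c0_bit_false {p : Prop} (h : ¬ p) : bit p = 0 := by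
  classical
  unfold bit; exact if_neg h

theorem c0_bit_one {p : Prop} (h : bit p = 1) : p := by
  by_contra hp
  rw [c0_bit_false hp] at h
  exact absurd h (by decide)

theorem c0_bit_zero {p : Prop} (h : bit p = 0) : ¬ p := by
  intro hp
  rw [c0_bit_true hp] at h
  exact absurd h (by decide)

theorem c0_lin (l : (Fin 3 → ZMod 2) →ₗ[ZMod 2] ZMod 2) (s : Fin 3 → ZMod 2) :
    l s = s 0 * l (Pi.single 0 1) + s 1 * l (Pi.single 1 1) + s 2 * l (Pi.single 2 1) := by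
  have h := LinearMap.pi_apply_eq_sum_univ l s
  rw [Fin.sum_univ_three] at h
  have e : ∀ i : Fin 3, (fun j : Fin 3 => if i = j then (1 : ZMod 2) else 0) = Pi.single i 1 := by
    decide
  simp only [smul_eq_mul] at h
  rw [e 0, e 1, e 2] at h
  exact h

/-- The rows of `lf2`. -/
def c0_g (s L : Fin 3 → ZMod 2) (β : ZMod 2) (s' : Fin 3 → ZMod 2) : ZMod 2 :=
  (if s' = s then 1 else 0) + β + (s' 0 * L 0 + s' 1 * L 1 + s' 2 * L 2)

theorem c0_dec1 : ∀ (i : Fin 3) (L : Fin 3 → ZMod 2),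
    (∀ j, c0_g (Pi.single i 1) L 0 (Pi.single j 1) = 0) →
    (∀ j, c0_g (Pi.single i 1) L 0 (c0_cmp j) = if j = i then 0 else 1) ∧
      c0_g (Pi.single i 1) L 0 c0_one = 1 := by
  decide

theorem c0_dec2 : ∀ (i : Fin 3) (L : Fin 3 → ZMod 2),
    (∀ j, c0_g (c0_cmp i) L 1 (Pi.single j 1) = 0) →
    (∀ j, c0_g (c0_cmp i) L 1 (c0_cmp j) = if j = i then 0 else 1) ∧
      c0_g (c0_cmp i) L 1 c0_one = 0 := by
  decide

theorem c0_dec3 : ∀ (L : Fin 3 → ZMod 2), (∀ j, c0_g c0_one L 1 (Pi.single j 1) = 0) →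
    (∀ j, c0_g c0_one L 1 (c0_cmp j) = 1) ∧ c0_g c0_one L 1 c0_one = 1 := by
  decide

/-- The transversal through given elements. -/
def c0_tr (r b : Fin 3 → α) (b0 : α) (s : Fin 3 → ZMod 2) : α :=
  if s 0 = 0 then (if s 1 = 0 then r 2 else if s 2 = 0 then r 1 else b 0)
  else (if s 1 = 0 then (if s 2 = 0 then r 0 else b 1) else (if s 2 = 0 then b 2 else b0))

theorem c0_tr_single (r b : Fin 3 → α) (b0 : α) (i : Fin 3) :
    c0_tr r b b0 (Pi.single i 1) = r i := by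
  fin_cases i <;> rfl

theorem c0_tr_cmp (r b : Fin 3 → α) (b0 : α) (i : Fin 3) :
    c0_tr r b b0 (c0_cmp i) = b i := by
  fin_cases i <;> rfl

theorem c0_tr_one (r b : Fin 3 → α) (b0 : α) : c0_tr r b b0 c0_one = b0 := rfl

/-- The normalized data. -/
structure C0D (M : Matroid α) (A B A₁ : Set α) (Y : α → Set α) (t : α → Fin 3 → ZMod 2)
    (r : Fin 3 → α) : Prop where
  hL : Lab M A B
  hc : C7 M A B A₁ Y t
  hr : ∀ x, x ∈ A \ A₁ ↔ ∃ i, r i = x
  ht : ∀ i, t (r i) = Pi.single i 1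
  hY : ∀ i, Y (r i) = ∅

namespace C0D

variable {M : Matroid α} {A B A₁ : Set α} {Y : α → Set α} {t : α → Fin 3 → ZMod 2}
    {r : Fin 3 → α}

theorem c0_inj (h : C0D M A B A₁ Y t r) : r.Injective := by
  intro i j hij
  have h1 := h.ht i
  rw [hij, h.ht j] at h1
  exact c0_single_inj _ _ h1.symm

theorem c0_notB (h : C0D M A B A₁ Y t r) {x : α} (hx : x ∈ A) : x ∉ B :=
  fun hb => (Set.disjoint_left.1 h.hL.disj) hx hb

theorem c0_EB (h : C0D M A B A₁ Y t r) {x : α} (hx : x ∈ B) : x ∈ M.E \ A₁ := by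
  refine ⟨?_, fun h1 => h.c0_notB (h.hc.sub h1) hx⟩
  rw [← h.hL.cover]
  exact Or.inr hx

theorem c0_typ (h : C0D M A B A₁ Y t r) {b : α} (hb : b ∈ B) :
    (∃ i, t b = c0_cmp i) ∨ t b = c0_one := by
  obtain ⟨h1, h2⟩ := lf1 h.hL h.hc b hb
  rcases c0_pts (t b) with h3 | ⟨i, h3⟩ | h3 | h3
  · exact absurd h3 h1
  · exact absurd (h3.trans (h.ht i).symm) (h2 (r i) ((h.hr _).2 ⟨i, rfl⟩))
  · exact Or.inl h3
  · exact Or.inr h3

theorem c0_surj (h : C0D M A B A₁ Y t r) {s : Fin 3 → ZMod 2} (hs : s ≠ 0)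
    (hs' : ∀ i, s ≠ Pi.single i 1) : ∃ b ∈ B, t b = s := by
  obtain ⟨x, hx, hxs⟩ := h.hc.surj s hs
  refine ⟨x, ?_, hxs⟩
  have h1 : x ∈ A ∪ B := by rw [h.hL.cover]; exact hx.1
  rcases h1 with h1 | h1
  · obtain ⟨i, rfl⟩ := (h.hr x).1 ⟨h1, hx.2⟩
    exact absurd (hxs.symm.trans (h.ht i)) (hs' i)
  · exact h1

theorem c0_surj_cmp (h : C0D M A B A₁ Y t r) (i : Fin 3) : ∃ b ∈ B, t b = c0_cmp i :=
  h.c0_surj (c0_cmp_ne i) fun j e => c0_single_cmp j i e.symm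

theorem c0_surj_one (h : C0D M A B A₁ Y t r) : ∃ b ∈ B, t b = c0_one :=
  h.c0_surj c0_one_ne fun j e => c0_single_one j e.symm

/-- The transversal is one. -/
theorem c0_ct (h : C0D M A B A₁ Y t r) {b : Fin 3 → α} (hb : ∀ i, b i ∈ B)
    (hbt : ∀ i, t (b i) = c0_cmp i) {b0 : α} (hb0 : b0 ∈ B) (hbt0 : t b0 = c0_one) :
    ∀ s ≠ 0, c0_tr r b b0 s ∈ M.E \ A₁ ∧ t (c0_tr r b b0 s) = s := by
  intro s hs
  rcases c0_pts s with h3 | ⟨i, rfl⟩ | ⟨i, rfl⟩ | rfl
  · exact absurd h3 hs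
  · rw [c0_tr_single]
    have h1 := (h.hr (r i)).2 ⟨i, rfl⟩
    refine ⟨⟨?_, h1.2⟩, h.ht i⟩
    rw [← h.hL.cover]
    exact Or.inl h1.1
  · rw [c0_tr_cmp]
    exact ⟨h.c0_EB (hb i), hbt i⟩
  · rw [c0_tr_one]
    exact ⟨h.c0_EB hb0, hbt0⟩

/-- The possible rows (E2). -/
theorem c0_vec (h : C0D M A B A₁ Y t r) {b : Fin 3 → α} (hb : ∀ i, b i ∈ B)
    (hbt : ∀ i, t (b i) = c0_cmp i) {b0 : α} (hb0 : b0 ∈ B) (hbt0 : t b0 = c0_one)
    {a : α} (ha : a ∈ A₁) :
    ((∀ i, a ∈ Y (b i)) ∧ a ∈ Y b0) ∨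
    (∃ i, (∀ j, a ∈ Y (b j) ↔ j ≠ i) ∧ a ∈ Y b0) ∨
    (∃ i, (∀ j, a ∈ Y (b j) ↔ j ≠ i) ∧ a ∉ Y b0 ∧
      ∃ l : (Fin 3 → ZMod 2) →ₗ[ZMod 2] ZMod 2, ∀ s ≠ 0,
        bit (a ∈ Y (c0_tr r b b0 s)) = bit (s = c0_cmp i) + 1 + l s) := by
  classical
  obtain ⟨s, hs0, l, hl⟩ := lf2 h.hL h.hc ha (h.c0_ct hb hbt hb0 hbt0)
  set β := bit (c0_tr r b b0 s ∈ B) with hβ
  have hg : ∀ s' ≠ 0, bit (a ∈ Y (c0_tr r b b0 s')) =
      c0_g s (fun i => l (Pi.single i 1)) β s' := by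
    intro s' hs'
    rw [hl s' hs', c0_lin l s']
    unfold c0_g
    congr 2
    unfold bit
    congr
  have h1 : ∀ j, c0_g s (fun i => l (Pi.single i 1)) β (Pi.single j 1) = 0 := by
    intro j
    rw [← hg _ (c0_single_ne j), c0_tr_single, h.hY j]
    exact c0_bit_false (Set.notMem_empty a)
  have h2 : ∀ j, bit (a ∈ Y (b j)) = c0_g s (fun i => l (Pi.single i 1)) β (c0_cmp j) := by
    intro j
    have := hg _ (c0_cmp_ne j)
    rwa [c0_tr_cmp] at this
  have h3 : bit (a ∈ Y b0) = c0_g s (fun i => l (Pi.single i 1)) β c0_one := by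
    have := hg _ c0_one_ne
    rwa [c0_tr_one] at this
  rcases c0_pts s with h4 | ⟨i, rfl⟩ | ⟨i, rfl⟩ | rfl
  · exact absurd h4 hs0
  · have h9 : β = 0 := by
      rw [hβ, c0_tr_single]
      exact c0_bit_false (h.c0_notB ((h.hr _).2 ⟨i, rfl⟩).1)
    rw [h9] at h1 h2 h3
    obtain ⟨h6, h7⟩ := c0_dec1 i _ h1
    right; left
    refine ⟨i, fun j => ?_, c0_bit_one (h3.trans h7)⟩
    have h8 := (h2 j).trans (h6 j)
    by_cases hj : j = i
    · rw [if_pos hj] at h8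
      exact ⟨fun h' => absurd h' (c0_bit_zero h8), fun h' => absurd hj h'⟩
    · rw [if_neg hj] at h8
      exact ⟨fun _ => hj, fun _ => c0_bit_one h8⟩
  · have h9 : β = 1 := by
      rw [hβ, c0_tr_cmp]
      exact c0_bit_true (hb i)
    rw [h9] at h1 h2 h3
    obtain ⟨h6, h7⟩ := c0_dec2 i _ h1
    right; right
    refine ⟨i, fun j => ?_, c0_bit_zero (h3.trans h7), l, ?_⟩
    · have h8 := (h2 j).trans (h6 j)
      by_cases hj : j = i
      · rw [if_pos hj] at h8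
        exact ⟨fun h' => absurd h' (c0_bit_zero h8), fun h' => absurd hj h'⟩
      · rw [if_neg hj] at h8
        exact ⟨fun _ => hj, fun _ => c0_bit_one h8⟩
    · intro s' hs'
      rw [hl s' hs', h9]
  · have h9 : β = 1 := by
      rw [hβ, c0_tr_one]
      exact c0_bit_true hb0
    rw [h9] at h1 h2 h3
    obtain ⟨h6, h7⟩ := c0_dec3 _ h1
    left
    exact ⟨fun i => c0_bit_one ((h2 i).trans (h6 i)), c0_bit_one (h3.trans h7)⟩

/-- (E2), first part. -/
theorem c0_E2a (h : C0D M A B A₁ Y t r) {a : α} (ha : a ∈ A₁) {b b' : α} (hb : b ∈ B)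
    (hb' : b' ∈ B) {i j : Fin 3} (hij : i ≠ j) (hbt : t b = c0_cmp i) (hbt' : t b' = c0_cmp j) :
    a ∈ Y b ∨ a ∈ Y b' := by
  classical
  choose e he using h.c0_surj_cmp
  obtain ⟨b0, hb0, hbt0⟩ := h.c0_surj_one
  have h1 : ∀ k, (if k = i then b else if k = j then b' else e k) ∈ B := by
    intro k
    split_ifs
    · exact hb
    · exact hb'
    · exact (he k).1
  have h2 : ∀ k, t (if k = i then b else if k = j then b' else e k) = c0_cmp k := by
    intro k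
    split_ifs with h3 h4
    · rw [h3]; exact hbt
    · rw [h4]; exact hbt'
    · exact (he k).2
  have h3 := h.c0_vec h1 h2 hb0 hbt0 ha
  by_contra hcon
  push Not at hcon
  obtain ⟨c1, c2⟩ := hcon
  have key : ∀ k0, (∀ k, a ∈ Y (if k = i then b else if k = j then b' else e k) ↔ k ≠ k0) →
      False := by
    intro k0 hk0
    have k1 := hk0 i
    rw [if_pos rfl] at k1
    have k2 := hk0 j
    rw [if_neg hij.symm, if_pos rfl] at k2
    have k3 : i = k0 := by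
      by_contra k3
      exact c1 (k1.2 k3)
    have k4 : j = k0 := by
      by_contra k4
      exact c2 (k2.2 k4)
    exact hij (k3.trans k4.symm)
  rcases h3 with ⟨h3, -⟩ | ⟨k0, h3, -⟩ | ⟨k0, h3, -⟩
  · have := h3 i
    rw [if_pos rfl] at this
    exact c1 this
  · exact key k0 h3
  · exact key k0 h3

/-- (E2), second part. -/
theorem c0_E2b (h : C0D M A B A₁ Y t r) {a : α} (ha : a ∈ A₁) {b : Fin 3 → α}
    (hb : ∀ i, b i ∈ B) (hbt : ∀ i, t (b i) = c0_cmp i) {b0 : α} (hb0 : b0 ∈ B)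
    (hbt0 : t b0 = c0_one) (h0 : a ∉ Y b0) : ∃ i, a ∉ Y (b i) := by
  rcases h.c0_vec hb hbt hb0 hbt0 ha with ⟨-, h3⟩ | ⟨i, -, h3⟩ | ⟨i, h3, -⟩
  · exact absurd h3 h0
  · exact absurd h3 h0
  · exact ⟨i, fun h' => ((h3 i).1 h') rfl⟩

/-- (E3). -/
theorem c0_E3 (h : C0D M A B A₁ Y t r) {a a' : α} (ha : a ∈ A₁) (ha' : a' ∈ A₁) (haa : a ≠ a')
    {b : Fin 3 → α} (hb : ∀ i, b i ∈ B) (hbt : ∀ i, t (b i) = c0_cmp i) {b0 : α} (hb0 : b0 ∈ B)
    (hbt0 : t b0 = c0_one) (h0 : a ∉ Y b0) (h0' : a' ∉ Y b0) {i j : Fin 3} (hi : a ∉ Y (b i))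
    (hj : a' ∉ Y (b j)) : i = j := by
  by_contra hij
  rcases h.c0_vec hb hbt hb0 hbt0 ha with ⟨-, h3⟩ | ⟨i', -, h3⟩ | ⟨i', h3, -, l, hl⟩
  · exact h0 h3
  · exact h0 h3
  rcases h.c0_vec hb hbt hb0 hbt0 ha' with ⟨-, h4⟩ | ⟨j', -, h4⟩ | ⟨j', h4, -, l', hl'⟩
  · exact h0' h4
  · exact h0' h4
  have e1 : i = i' := by
    by_contra hne
    exact hi ((h3 i).2 hne)
  have e2 : j = j' := by
    by_contra hne
    exact hj ((h4 j).2 hne)
  subst e1 e2
  have h5 := lf3 h.hL h.hc ha ha' haa (h.c0_ct hb hbt hb0 hbt0) (c0_cmp_ne i) (c0_cmp_ne j)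
    (fun e => hij (c0_cmp_inj _ _ e)) hl hl' (by rw [c0_tr_cmp]; exact hb i)
    (by rw [c0_tr_cmp]; exact hb j)
  obtain ⟨k, hk⟩ := c0_cmp_add i j hij
  rw [hk, c0_tr_cmp] at h5
  exact h.c0_notB h5 (hb k)

end C0D

/-- The sets after moving the three elements. -/
def c0_Y (Y : α → Set α) (t : α → Fin 3 → ZMod 2) (r : Fin 3 → α) (x : α) : Set α :=
  ((Y x ∪ {z | z = r 0 ∧ t x 0 = 1}) ∪ {z | z = r 1 ∧ t x 1 = 1}) ∪ {z | z = r 2 ∧ t x 2 = 1}

namespace C0D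

variable {M : Matroid α} {A B A₁ : Set α} {Y : α → Set α} {t : α → Fin 3 → ZMod 2}
    {r : Fin 3 → α}

theorem c0_sdiff (h : C0D M A B A₁ Y t r) : M.E \ A = B := by
  rw [← h.hL.cover]
  ext x
  constructor
  · rintro ⟨h1 | h1, h2⟩
    · exact absurd h1 h2
    · exact h1
  · intro h1
    exact ⟨Or.inr h1, fun h2 => h.c0_notB h2 h1⟩

theorem c0_rA (h : C0D M A B A₁ Y t r) (i : Fin 3) : r i ∈ A ∧ r i ∉ A₁ :=
  (h.hr (r i)).2 ⟨i, rfl⟩

theorem c0_rE (h : C0D M A B A₁ Y t r) (i : Fin 3) : r i ∈ M.E := by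
  rw [← h.hL.cover]
  exact Or.inl (h.c0_rA i).1

theorem c0_form (h : C0D M A B A₁ Y t r) :
    BinaryForm M A (M.E \ A) (c0_Y Y t r) (fun _ => (0 : Fin 0 → ZMod 2)) := by
  have hAE : A ⊆ M.E := by rw [← h.hL.cover]; exact subset_union_left
  have hA1E : A₁ ⊆ M.E := h.hc.sub.trans hAE
  have hne : ∀ i j, i ≠ j → r i ≠ r j := fun i j hij e => hij (h.c0_inj e)
  have f1 := h.hc.form.move hA1E (a0 := r 0) ⟨h.c0_rE 0, (h.c0_rA 0).2⟩ (h.ht 0) (h.hY 0)
  have hs1 : insert (r 0) A₁ ⊆ M.E := Set.insert_subset (h.c0_rE 0) hA1E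
  have f2 := f1.move hs1 (a0 := r 1)
    ⟨h.c0_rE 1, by
      rintro (e | e)
      · exact hne 1 0 (by decide) e
      · exact (h.c0_rA 1).2 e⟩
    (by rw [h.ht 1]; decide)
    (by
      rw [h.hY 1, h.ht 1]
      ext z
      simp)
  have hs2 : insert (r 1) (insert (r 0) A₁) ⊆ M.E := Set.insert_subset (h.c0_rE 1) hs1
  have f3 := f2.move hs2 (a0 := r 2)
    ⟨h.c0_rE 2, by
      rintro (e | e | e)
      · exact hne 2 1 (by decide) e
      · exact hne 2 0 (by decide) e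
      · exact (h.c0_rA 2).2 e⟩
    (by rw [h.ht 2]; decide)
    (by
      rw [h.hY 2, h.ht 2]
      ext z
      simp)
  have hA : insert (r 2) (insert (r 1) (insert (r 0) A₁)) = A := by
    ext z
    constructor
    · rintro (rfl | rfl | rfl | e)
      · exact (h.c0_rA 2).1
      · exact (h.c0_rA 1).1
      · exact (h.c0_rA 0).1
      · exact h.hc.sub e
    · intro hz
      by_cases hz1 : z ∈ A₁
      · exact Or.inr (Or.inr (Or.inr hz1))
      · obtain ⟨i, rfl⟩ := (h.hr z).1 ⟨hz, hz1⟩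
        fin_cases i
        · exact Or.inr (Or.inr (Or.inl rfl))
        · exact Or.inr (Or.inl rfl)
        · exact Or.inl rfl
  rw [hA] at f3
  have e : (fun _ => (0 : Fin 0 → ZMod 2)) =
      fun x i => (fun x i => (fun x i => t x i.succ : α → Fin 2 → ZMod 2) x i.succ :
        α → Fin 1 → ZMod 2) x (Fin.succ i : Fin 1) := by
    funext x i
    exact i.elim0
  rw [e]
  exact f3

theorem c0_mem1 (h : C0D M A B A₁ Y t r) {a : α} (ha : a ∈ A₁) (x : α) :
    a ∈ c0_Y Y t r x ↔ a ∈ Y x := by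
  have hn : ∀ i, a ≠ r i := fun i e => (h.c0_rA i).2 (e ▸ ha)
  constructor
  · rintro (((h1 | h1) | h1) | h1)
    · exact h1
    · exact absurd h1.1 (hn 0)
    · exact absurd h1.1 (hn 1)
    · exact absurd h1.1 (hn 2)
  · intro h1
    exact Or.inl (Or.inl (Or.inl h1))

theorem c0_mem2 (h : C0D M A B A₁ Y t r) (i : Fin 3) {x : α} (hx : x ∈ B) :
    r i ∈ c0_Y Y t r x ↔ t x i = 1 := by
  have hn : r i ∉ Y x := fun h1 => (h.c0_rA i).2 (h.hc.form.1 x (h.c0_EB hx) h1)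
  have hinj : ∀ j, r i = r j → i = j := fun j e => h.c0_inj e
  constructor
  · rintro (((h1 | h1) | h1) | h1)
    · exact absurd h1 hn
    · rw [hinj 0 h1.1]; exact h1.2
    · rw [hinj 1 h1.1]; exact h1.2
    · rw [hinj 2 h1.1]; exact h1.2
  · intro h1
    fin_cases i
    · exact Or.inl (Or.inl (Or.inr ⟨rfl, h1⟩))
    · exact Or.inl (Or.inr ⟨rfl, h1⟩)
    · exact Or.inr ⟨rfl, h1⟩

/-- The class `i` of `a`. -/
def c0_P (B : Set α) (Y : α → Set α) (t : α → Fin 3 → ZMod 2) (r : Fin 3 → α) (a : α)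
    (i : Fin 3) : Prop :=
  (∀ j ≠ i, ∀ b ∈ B, t b = c0_cmp j → a ∈ c0_Y Y t r b) ∧
  ((∃ b ∈ B, t b = c0_one ∧ a ∉ c0_Y Y t r b) → ∀ b ∈ B, t b = c0_cmp i → a ∉ c0_Y Y t r b)

theorem c0_exP (h : C0D M A B A₁ Y t r) {a : α} (ha : a ∈ A) : ∃ i, c0_P B Y t r a i := by
  classical
  by_cases ha1 : a ∈ A₁
  · by_cases hex : ∃ i, ∃ b ∈ B, t b = c0_cmp i ∧ a ∉ Y b
    · obtain ⟨i, b, hb, hbt, hab⟩ := hex
      have hj : ∀ j ≠ i, ∀ b' ∈ B, t b' = c0_cmp j → a ∈ c0_Y Y t r b' := by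
        intro j hj b' hb' hbt'
        rw [h.c0_mem1 ha1]
        exact (h.c0_E2a ha1 hb hb' hj.symm hbt hbt').resolve_left hab
      refine ⟨i, hj, ?_⟩
      rintro ⟨b0, hb0, hbt0, hab0⟩ b1 hb1 hbt1
      rw [h.c0_mem1 ha1] at hab0 ⊢
      choose e he using h.c0_surj_cmp
      obtain ⟨k, hk⟩ := h.c0_E2b ha1 (b := fun k => if k = i then b1 else e k)
        (fun k => by
          show (if k = i then b1 else e k) ∈ B
          split_ifs
          · exact hb1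
          · exact (he k).1)
        (fun k => by
          show t (if k = i then b1 else e k) = c0_cmp k
          split_ifs with h3
          · rw [h3]; exact hbt1
          · exact (he k).2) hb0 hbt0 hab0
      by_cases hki : k = i
      · rw [if_pos hki] at hk
        exact hk
      · rw [if_neg hki] at hk
        have := hj k hki (e k) (he k).1 (he k).2
        rw [h.c0_mem1 ha1] at this
        exact absurd this hk
    · push Not at hex
      refine ⟨0, fun j _ b hb hbt => ?_, ?_⟩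
      · rw [h.c0_mem1 ha1]; exact hex j b hb hbt
      · rintro ⟨b0, hb0, hbt0, hab0⟩
        rw [h.c0_mem1 ha1] at hab0
        choose e he using h.c0_surj_cmp
        obtain ⟨k, hk⟩ := h.c0_E2b ha1 (fun k => (he k).1) (fun k => (he k).2) hb0 hbt0 hab0
        exact absurd (hex k _ (he k).1 (he k).2) hk
  · obtain ⟨i, rfl⟩ := (h.hr a).1 ⟨ha, ha1⟩
    refine ⟨i, fun j hj b hb hbt => ?_, ?_⟩
    · rw [h.c0_mem2 i hb, hbt]
      unfold c0_cmp
      exact if_neg hj.symm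
    · rintro ⟨b0, hb0, hbt0, hab0⟩
      rw [h.c0_mem2 i hb0, hbt0] at hab0
      exact absurd rfl hab0

/-- Different classes. -/
theorem c0_diff (h : C0D M A B A₁ Y t r) {a a' : α} (ha : a ∈ A) (ha' : a' ∈ A) {i j : Fin 3}
    (hij : i ≠ j) (hi : c0_P B Y t r a i) (hj : c0_P B Y t r a' j) {b : α} (hb : b ∈ B) :
    a ∈ c0_Y Y t r b ∨ a' ∈ c0_Y Y t r b := by
  by_contra hcon
  push Not at hcon
  obtain ⟨c1, c2⟩ := hcon
  rcases h.c0_typ hb with ⟨k, hk⟩ | hk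
  · have k1 : k = i := by
      by_contra k1
      exact c1 (hi.1 k k1 b hb hk)
    have k2 : k = j := by
      by_contra k2
      exact c2 (hj.1 k k2 b hb hk)
    exact hij (k1.symm.trans k2)
  · have hA1 : ∀ x ∈ A, x ∉ c0_Y Y t r b → x ∈ A₁ := by
      intro x hx hxb
      by_contra hx1
      obtain ⟨k, rfl⟩ := (h.hr x).1 ⟨hx, hx1⟩
      rw [h.c0_mem2 k hb, hk] at hxb
      exact hxb rfl
    have ha1 := hA1 a ha c1
    have ha1' := hA1 a' ha' c2
    have p1 := hi.2 ⟨b, hb, hk, c1⟩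
    have p2 := hj.2 ⟨b, hb, hk, c2⟩
    choose e he using h.c0_surj_cmp
    have q1 := p1 (e i) (he i).1 (he i).2
    have q2 := p2 (e j) (he j).1 (he j).2
    rw [h.c0_mem1 ha1] at c1 q1
    rw [h.c0_mem1 ha1'] at c2 q2
    by_cases haa : a = a'
    · subst haa
      have q3 := hi.1 j hij.symm (e j) (he j).1 (he j).2
      rw [h.c0_mem1 ha1] at q3
      exact q2 q3
    · exact hij (h.c0_E3 ha1 ha1' haa (fun k => (he k).1) (fun k => (he k).2) hb hk c1 c2 q1 q2)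

/-- The map used for rows in one class. -/
def c0_T : (Fin 4 → ZMod 2) × (Fin 0 → ZMod 2) →ₗ[ZMod 2] (Fin 3 → ZMod 2) where
  toFun y := ![y.1 0, y.1 1 + y.1 2, y.1 1 + y.1 3]
  map_add' y z := by
    ext i
    fin_cases i
    · rfl
    · simp; ring
    · simp; ring
  map_smul' c y := by
    ext i
    fin_cases i
    · rfl
    · simp; ring
    · simp; ring

theorem c0_ker (y : (Fin 4 → ZMod 2) × (Fin 0 → ZMod 2)) (hy : c0_T y = 0) :
    y ∈ Submodule.span (ZMod 2) {((![0, 1, 1, 1], 0) : (Fin 4 → ZMod 2) × (Fin 0 → ZMod 2))} := by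
  rw [Submodule.mem_span_singleton]
  refine ⟨y.1 1, ?_⟩
  have h0 : y.1 0 = 0 := congrFun hy 0
  have h1 : y.1 1 + y.1 2 = 0 := congrFun hy 1
  have h2 : y.1 1 + y.1 3 = 0 := congrFun hy 2
  have key : ∀ a b : ZMod 2, a + b = 0 → a = b := by decide
  have h3 := key _ _ h1
  have h4 := key _ _ h2
  refine Prod.ext ?_ (Subsingleton.elim _ _)
  ext i
  fin_cases i
  · simp [h0]
  · simp
  · simp [h3]
  · simp [h4]

/-- Equal classes. -/
theorem c0_same (h : C0D M A B A₁ Y t r) {a a' : α} (ha : a ∈ A) (ha' : a' ∈ A) {i : Fin 3}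
    (hi : c0_P B Y t r a i) (hj : c0_P B Y t r a' i) :
    (∀ b ∈ B, a ∈ c0_Y Y t r b → a' ∈ c0_Y Y t r b) ∨
      (∀ b ∈ B, a' ∈ c0_Y Y t r b → a ∈ c0_Y Y t r b) := by
  classical
  by_contra hcon
  push Not at hcon
  obtain ⟨⟨b', hb', c1', c2'⟩, ⟨b, hb, c2, c1⟩⟩ := hcon
  -- `a ∉ Y b`, `a' ∈ Y b`, `a ∈ Y b'`, `a' ∉ Y b'`
  obtain ⟨j, k, hji, hki, hjk⟩ := c0_third i
  have hone : ∀ (x z : α), z ∈ B → x ∈ A → c0_P B Y t r x i → x ∉ c0_Y Y t r z →
      ∀ l ≠ i, t z l = 1 := by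
    intro x z hz hx hP hxz l hl
    rcases h.c0_typ hz with ⟨m, hm⟩ | hm
    · have : m = i := by
        by_contra hmi
        exact hxz (hP.1 m hmi z hz hm)
      rw [hm, this]
      exact if_neg hl
    · rw [hm]; rfl
  have hbj : r j ∈ c0_Y Y t r b := (h.c0_mem2 j hb).2 (hone a b hb ha hi c1 j hji)
  have hbk : r k ∈ c0_Y Y t r b := (h.c0_mem2 k hb).2 (hone a b hb ha hi c1 k hki)
  have hbj' : r j ∈ c0_Y Y t r b' := (h.c0_mem2 j hb').2 (hone a' b' hb' ha' hj c2' j hji)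
  have hbk' : r k ∈ c0_Y Y t r b' := (h.c0_mem2 k hb').2 (hone a' b' hb' ha' hj c2' k hki)
  obtain ⟨cj, hcj, hcjt⟩ := h.c0_surj_cmp j
  obtain ⟨ck, hck, hckt⟩ := h.c0_surj_cmp k
  have hj1 : a ∈ c0_Y Y t r cj := hi.1 j hji cj hcj hcjt
  have hj2 : a' ∈ c0_Y Y t r cj := hj.1 j hji cj hcj hcjt
  have hj3 : r j ∉ c0_Y Y t r cj := by
    rw [h.c0_mem2 j hcj, hcjt]
    unfold c0_cmp
    rw [if_pos rfl]
    decide
  have hj4 : r k ∈ c0_Y Y t r cj := by
    rw [h.c0_mem2 k hcj, hcjt]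
    exact if_neg hjk.symm
  have hk1 : a ∈ c0_Y Y t r ck := hi.1 k hki ck hck hckt
  have hk2 : a' ∈ c0_Y Y t r ck := hj.1 k hki ck hck hckt
  have hk3 : r j ∈ c0_Y Y t r ck := by
    rw [h.c0_mem2 j hck, hckt]
    exact if_neg hjk
  have hk4 : r k ∉ c0_Y Y t r ck := by
    rw [h.c0_mem2 k hck, hckt]
    unfold c0_cmp
    rw [if_pos rfl]
    decide
  -- the rows are different
  have n1 : a ≠ a' := fun e => c1 (e ▸ c2)
  have n2 : a ≠ r j := fun e => c1 (e ▸ hbj)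
  have n3 : a ≠ r k := fun e => c1 (e ▸ hbk)
  have n4 : a' ≠ r j := fun e => c2' (e ▸ hbj')
  have n5 : a' ≠ r k := fun e => c2' (e ▸ hbk')
  have n6 : r j ≠ r k := fun e => hjk (h.c0_inj e)
  have hq : Function.Injective (![a, a', r j, r k] : Fin 4 → α) := by
    intro x y hxy
    fin_cases x <;> fin_cases y <;> first | rfl | (exfalso; simp at hxy; tauto)
  have hqA : ∀ x, (![a, a', r j, r k] : Fin 4 → α) x ∈ A := by
    intro x
    fin_cases x
    · exact ha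
    · exact ha'
    · exact (h.c0_rA j).1
    · exact (h.c0_rA k).1
  have hBE : ∀ z ∈ B, z ∈ M.E := fun z hz => (h.c0_EB hz).1
  have hAE : ∀ z ∈ A, z ∈ M.E := fun z hz => by rw [← h.hL.cover]; exact Or.inl hz
  -- coordinates
  have coB : ∀ z ∈ B, co A (c0_Y Y t r) (fun _ => (0 : Fin 0 → ZMod 2)) ![a, a', r j, r k] z =
      (![if a ∈ c0_Y Y t r z then 1 else 0, if a' ∈ c0_Y Y t r z then 1 else 0,
        if r j ∈ c0_Y Y t r z then 1 else 0, if r k ∈ c0_Y Y t r z then 1 else 0], 0) := by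
    intro z hz
    have hzA : z ∉ A := fun hzA => h.c0_notB hzA hz
    unfold co bvec
    rw [if_neg hzA]
    refine Prod.ext ?_ (Subsingleton.elim _ _)
    ext x
    fin_cases x <;> simp [Set.indicator_apply]
  have coA : ∀ z ∈ A, co A (c0_Y Y t r) (fun _ => (0 : Fin 0 → ZMod 2)) ![a, a', r j, r k] z =
      (![if a = z then 1 else 0, if a' = z then 1 else 0, if r j = z then 1 else 0,
        if r k = z then 1 else 0], 0) := by
    intro z hz
    unfold co bvec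
    rw [if_pos hz]
    refine Prod.ext ?_ (Subsingleton.elim _ _)
    ext x
    fin_cases x <;> simp [Pi.single_apply]
  have hbA : b ∉ A := fun hbA => h.c0_notB hbA hb
  have cob : co A (c0_Y Y t r) (fun _ => (0 : Fin 0 → ZMod 2)) ![a, a', r j, r k] b =
      (![0, 1, 1, 1], 0) := by
    rw [coB b hb, if_neg c1, if_pos c2, if_pos hbj, if_pos hbk]
  have hobs := h.hL.obs7 (subset_refl A) h.c0_form hq hqA (Zs := {b})
    (Set.singleton_subset_iff.2 (hBE b hb)) c0_T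
    (by
      intro z hz
      rw [Set.mem_singleton_iff.1 hz, cob]
      decide)
    (by
      intro y hy
      rw [Set.image_singleton, cob]
      exact c0_ker y hy)
    (c0_tr ![a, r j, r k] ![a', ck, cj] b')
    (by
      intro s hs
      rcases c0_pts s with h3 | ⟨x, rfl⟩ | ⟨x, rfl⟩ | rfl
      · exact absurd h3 hs
      · rw [c0_tr_single]
        fin_cases x
        · refine ⟨hAE a ha, ?_⟩
          change c0_T (co A (c0_Y Y t r) (fun _ => (0 : Fin 0 → ZMod 2)) ![a, a', r j, r k] a) = _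
          rw [coA a ha, if_pos rfl, if_neg n1.symm, if_neg n2.symm, if_neg n3.symm]
          decide
        · refine ⟨h.c0_rE j, ?_⟩
          change c0_T (co A (c0_Y Y t r) (fun _ => (0 : Fin 0 → ZMod 2)) ![a, a', r j, r k]
            (r j)) = _
          rw [coA _ (h.c0_rA j).1, if_neg n2, if_neg n4, if_pos rfl, if_neg n6.symm]
          decide
        · refine ⟨h.c0_rE k, ?_⟩
          change c0_T (co A (c0_Y Y t r) (fun _ => (0 : Fin 0 → ZMod 2)) ![a, a', r j, r k]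
            (r k)) = _
          rw [coA _ (h.c0_rA k).1, if_neg n3, if_neg n5, if_neg n6, if_pos rfl]
          decide
      · rw [c0_tr_cmp]
        fin_cases x
        · refine ⟨hAE a' ha', ?_⟩
          change c0_T (co A (c0_Y Y t r) (fun _ => (0 : Fin 0 → ZMod 2)) ![a, a', r j, r k] a') = _
          rw [coA a' ha', if_neg n1, if_pos rfl, if_neg n4.symm, if_neg n5.symm]
          decide
        · refine ⟨hBE ck hck, ?_⟩
          change c0_T (co A (c0_Y Y t r) (fun _ => (0 : Fin 0 → ZMod 2)) ![a, a', r j, r k] ck) = _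
          rw [coB ck hck, if_pos hk1, if_pos hk2, if_pos hk3, if_neg hk4]
          decide
        · refine ⟨hBE cj hcj, ?_⟩
          change c0_T (co A (c0_Y Y t r) (fun _ => (0 : Fin 0 → ZMod 2)) ![a, a', r j, r k] cj) = _
          rw [coB cj hcj, if_pos hj1, if_pos hj2, if_neg hj3, if_pos hj4]
          decide
      · rw [c0_tr_one]
        refine ⟨hBE b' hb', ?_⟩
        rw [coB b' hb', if_pos c1', if_neg c2', if_pos hbj', if_pos hbk']
        decide)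
  exact hbA (hobs.1 (Set.mem_singleton b))

theorem c0_typeT (h : C0D M A B A₁ Y t r) : TypeT M A B := by
  classical
  refine ⟨c0_Y Y t r, fun _ => (0 : Fin 0 → ZMod 2), ?_, ?_⟩
  · have := h.c0_form
    rwa [h.c0_sdiff] at this
  · have h1 : ∀ a, ∃ i, a ∈ A → c0_P B Y t r a i := by
      intro a
      by_cases ha : a ∈ A
      · obtain ⟨i, hi⟩ := h.c0_exP ha
        exact ⟨i, fun _ => hi⟩
      · exact ⟨0, fun ha' => absurd ha' ha⟩
    choose τ hτ using h1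
    refine ⟨τ, fun a ha a' ha' => ⟨fun e => ?_, fun e b hb => ?_⟩⟩
    · exact h.c0_same ha ha' (hτ a ha) (e ▸ hτ a' ha')
    · exact h.c0_diff ha ha' e (hτ a ha) (hτ a' ha') hb

end C0D

/-
JOB C0 (three independent elements of A in the core: type T).
-/
theorem typeT_of_c7 {M : Matroid α} {A B A₁ : Set α} {Y : α → Set α} {t : α → Fin 3 → ZMod 2}
    (hL : Lab M A B) (hc : C7 M A B A₁ Y t) {a1 a2 a3 : α} (h : A \ A₁ = {a1, a2, a3})
    (hli : LinearIndependent (ZMod 2) ![t a1, t a2, t a3]) : TypeT M A B := by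
  have hAE : A ⊆ M.E := by rw [← hL.cover]; exact subset_union_left
  have hmem : ∀ x, x ∈ A \ A₁ ↔ ∃ i, (![a1, a2, a3] : Fin 3 → α) i = x := by
    intro x
    rw [h]
    constructor
    · rintro (rfl | rfl | rfl)
      · exact ⟨0, rfl⟩
      · exact ⟨1, rfl⟩
      · exact ⟨2, rfl⟩
    · rintro ⟨i, rfl⟩
      fin_cases i
      · exact Or.inl rfl
      · exact Or.inr (Or.inl rfl)
      · exact Or.inr (Or.inr rfl)
  obtain ⟨Y', t', hc', -, hn⟩ := hc.norm hL.fin hAE ![a1, a2, a3]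
    (fun i => by
      have h1 := (hmem _).2 ⟨i, rfl⟩
      exact ⟨hAE h1.1, h1.2⟩)
    (by
      have e : (fun i => t ((![a1, a2, a3] : Fin 3 → α) i)) = ![t a1, t a2, t a3] := by
        funext i
        fin_cases i <;> rfl
      rw [e]
      exact hli)
  exact C0D.c0_typeT ⟨hL, hc', hmem, fun i => (hn i).1, fun i => (hn i).2⟩

end Pool.Agent.Helper43_EOR
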