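import Mathlib
import Pool.Agent.Helper43_EOR.Found

set_option autoImplicit false

namespace Pool.Agent.Helper43_EOR

open Set Matroid

variable {α : Type*}



theorem Cc_four {A B₁ : Set α} (Y : α → Set α) (hsub : ∀ b ∈ B₁, Y b ⊆ A)
    (h1 : ∀ b ∈ B₁, ∀ b' ∈ B₁, ¬ ((Y b ∩ Y b').Nonempty ∧ (Y b \ Y b').Nonempty ∧
      (Y b' \ Y b).Nonempty ∧ (A \ (Y b ∪ Y b')).Nonempty)) {b b' : α} (hb : b ∈ B₁)
    (hb' : b' ∈ B₁) {V V' : Set α} (hV : V = Y b ∨ V = A \ Y b) (hV' : V' = Y b' ∨ V' = A \ Y b') :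
    Disjoint V V' ∨ V ⊆ V' ∨ V' ⊆ V ∨ A ⊆ V ∪ V' := by
  by_contra hcon
  push Not at hcon
  obtain ⟨c1, c2, c3, c4⟩ := hcon
  rw [Set.not_disjoint_iff] at c1
  rw [Set.not_subset] at c2 c3 c4
  obtain ⟨x, hx, hx'⟩ := c1
  obtain ⟨y, hy, hy'⟩ := c2
  obtain ⟨z, hz, hz'⟩ := c3
  obtain ⟨t, ht, ht'⟩ := c4
  rw [Set.mem_union, not_or] at ht'
  have sb := hsub b hb
  have sb' := hsub b' hb'
  apply h1 b hb b' hb'
  rcases hV with rfl | rfl <;> rcases hV' with rfl | rfl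
  · exact ⟨⟨x, hx, hx'⟩, ⟨y, hy, hy'⟩, ⟨z, hz, hz'⟩, ⟨t, ht, fun h => h.elim ht'.1 ht'.2⟩⟩
  · refine ⟨⟨y, hy, ?_⟩, ⟨x, hx, hx'.2⟩, ⟨t, ?_, ht'.1⟩, ⟨z, hz.1, fun h => h.elim hz' hz.2⟩⟩
    · by_contra h; exact hy' ⟨sb hy, h⟩
    · by_contra h; exact ht'.2 ⟨ht, h⟩
  · refine ⟨⟨z, ?_, hz⟩, ⟨t, ?_, ht'.2⟩, ⟨x, hx', hx.2⟩, ⟨y, hy.1, fun h => h.elim hy.2 hy'⟩⟩
    · by_contra h; exact hz' ⟨sb' hz, h⟩
    · by_contra h; exact ht'.1 ⟨ht, h⟩
  · refine ⟨⟨t, ?_, ?_⟩, ⟨z, ?_, hz.2⟩, ⟨y, ?_, hy.2⟩, ⟨x, hx.1, fun h => h.elim hx.2 hx'.2⟩⟩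
    · by_contra h; exact ht'.1 ⟨ht, h⟩
    · by_contra h; exact ht'.2 ⟨ht, h⟩
    · by_contra h; exact hz' ⟨hz.1, h⟩
    · by_contra h; exact hy' ⟨hy.1, h⟩

/-
JOB Cc (pure set theory: sides form a chain).
PLAIN WORDS. If all Y b ∈ {∅, A}, b ∈ B₁, put W b = Y b if Y b = ∅ and A \ Y b = ∅ otherwise. Otherwise
consider all nonempty proper sides: sets V ≠ ∅, V ≠ A with V = Y b or V = A \ Y b for some b ∈ B₁; let W* (a
side of b*) be one with the smallest number of elements. Every b ∈ B₁ has a side containing W*: by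
(i) for b, b* one of the four intersections of a side of b with a side of b* is empty; if a side V of b is contained in W* then V = ∅
(then the other side is A ⊇ W*) or V = W* by minimality; if a side of b is disjoint from W* the
other one contains W*; if a side V of b and the other side A \ W* are disjoint, V ⊆ W*; if they are
such that V contains W*, fine. Let W b be a side of b containing W*, and W b = A if Y b ∈ {∅, A}. For b, b':
W b ∩ W b' ⊇ W* is nonempty, so by (i) W b ⊆ W b', or W b' ⊆ W b, or W b ∪ W b' = A; in the last case, if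
not comparable, the sides A \ W b, A \ W b' and W* are nonempty and pairwise disjoint, which (ii)
excludes.
-/
theorem chain_of_sides {A B₁ : Set α} (hA : A.Finite) (Y : α → Set α) (hsub : ∀ b ∈ B₁, Y b ⊆ A)
    (h1 : ∀ b ∈ B₁, ∀ b' ∈ B₁, ¬ ((Y b ∩ Y b').Nonempty ∧ (Y b \ Y b').Nonempty ∧
      (Y b' \ Y b).Nonempty ∧ (A \ (Y b ∪ Y b')).Nonempty))
    (h2 : ∀ b ∈ B₁, ∀ b' ∈ B₁, ∀ b'' ∈ B₁, ∀ V V' V'' : Set α,
      (V = Y b ∨ V = A \ Y b) → (V' = Y b' ∨ V' = A \ Y b') → (V'' = Y b'' ∨ V'' = A \ Y b'') →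
      Disjoint V V' → Disjoint V V'' → Disjoint V' V'' → V = ∅ ∨ V' = ∅ ∨ V'' = ∅) :
    ∃ W : α → Set α, (∀ b ∈ B₁, (W b = Y b ∨ W b = A \ Y b)) ∧
      (∀ b ∈ B₁, ∀ b' ∈ B₁, (W b ⊆ W b' ∨ W b' ⊆ W b)) := by
  classical
  by_cases htriv : ∀ b ∈ B₁, Y b = ∅ ∨ Y b = A
  · refine ⟨fun b => if Y b = ∅ then Y b else A \ Y b, fun b _ => ?_, fun b hb b' hb' => ?_⟩
    · by_cases h : Y b = ∅
      · left; simp only [if_pos h]
      · right; simp only [if_neg h]
    · have key : ∀ b ∈ B₁, (if Y b = ∅ then Y b else A \ Y b) = ∅ := by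
        intro b hb
        by_cases h : Y b = ∅
        · rw [if_pos h, h]
        · rw [if_neg h, (htriv b hb).resolve_left h, Set.sdiff_self]
      left
      simp only [key b hb, key b' hb', Set.Subset.refl]
  push Not at htriv
  obtain ⟨b₀, hb₀, hb₀1, hb₀2⟩ := htriv
  -- the set of nonempty proper sides
  set S : Set (Set α) := {V | V ≠ ∅ ∧ V ≠ A ∧ ∃ b ∈ B₁, V = Y b ∨ V = A \ Y b} with hS
  have hSfin : S.Finite := by
    refine hA.finite_subsets.subset ?_
    rintro V ⟨_, _, b, hb, rfl | rfl⟩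
    · exact hsub b hb
    · exact Set.sdiff_subset
  have hSne : S.Nonempty := ⟨Y b₀, Set.nonempty_iff_ne_empty.1 (by
    rw [Set.nonempty_iff_ne_empty]
    exact fun h => (by simpa [h] using hb₀1 : False)), hb₀2, b₀, hb₀, Or.inl rfl⟩
  obtain ⟨V₀, hV₀min⟩ := hSfin.exists_minimal hSne
  obtain ⟨hV₀ne, hV₀A, bs, hbs, hV₀⟩ := hV₀min.1
  have hV₀sub : V₀ ⊆ A := by
    rcases hV₀ with h | h
    · rw [h]; exact hsub bs hbs
    · rw [h]; exact Set.sdiff_subset
  obtain ⟨x₀, hx₀⟩ := Set.nonempty_iff_ne_empty.2 hV₀ne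
  have small : ∀ b ∈ B₁, ∀ V : Set α, (V = Y b ∨ V = A \ Y b) → V ⊆ V₀ →
      V = ∅ ∨ V = A ∨ V = V₀ := by
    intro b hb V hV hVV
    by_cases h1 : V = ∅
    · exact Or.inl h1
    by_cases h2 : V = A
    · exact Or.inr (Or.inl h2)
    · have : V ∈ S := ⟨h1, h2, b, hb, hV⟩
      exact Or.inr (Or.inr (Set.Subset.antisymm hVV (hV₀min.2 this hVV)))
  have cont : ∀ b ∈ B₁, V₀ ⊆ Y b ∨ V₀ ⊆ A \ Y b := by
    intro b hb
    rcases Cc_four Y hsub h1 hb hbs (Or.inl rfl : Y b = Y b ∨ Y b = A \ Y b) hV₀ with h | h | h | h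
    · right
      intro x hx
      exact ⟨hV₀sub hx, fun hxb => Set.disjoint_left.1 h hxb hx⟩
    · rcases small b hb _ (Or.inl rfl) h with e | e | e
      · right
        intro x hx
        exact ⟨hV₀sub hx, fun hxb => by rw [e] at hxb; exact hxb⟩
      · left; rw [e]; exact hV₀sub
      · left; rw [e]
    · left; exact h
    · have h' : A \ Y b ⊆ V₀ := by
        intro x hx
        exact (h hx.1).resolve_left hx.2
      rcases small b hb _ (Or.inr rfl) h' with e | e | e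
      · left
        intro x hx
        by_contra hxb
        have : x ∈ A \ Y b := ⟨hV₀sub hx, hxb⟩
        rw [e] at this
        exact this
      · right; rw [e]; exact hV₀sub
      · right; rw [e]
  refine ⟨fun b => if V₀ ⊆ Y b then Y b else A \ Y b, fun b _ => ?_, fun b hb b' hb' => ?_⟩
  · by_cases h : V₀ ⊆ Y b
    · left; simp only [if_pos h]
    · right; simp only [if_neg h]
  · have side : ∀ b, ((if V₀ ⊆ Y b then Y b else A \ Y b) = Y b ∨
        (if V₀ ⊆ Y b then Y b else A \ Y b) = A \ Y b) := by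
      intro b
      by_cases h : V₀ ⊆ Y b
      · left; rw [if_pos h]
      · right; rw [if_neg h]
    have big : ∀ b ∈ B₁, V₀ ⊆ (if V₀ ⊆ Y b then Y b else A \ Y b) := by
      intro b hb
      by_cases h : V₀ ⊆ Y b
      · rw [if_pos h]; exact h
      · rw [if_neg h]; exact (cont b hb).resolve_left h
    have sub : ∀ b ∈ B₁, (if V₀ ⊆ Y b then Y b else A \ Y b) ⊆ A := by
      intro b hb
      rcases side b with h | h
      · rw [h]; exact hsub b hb
      · rw [h]; exact Set.sdiff_subset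
    have flip : ∀ b ∈ B₁, (A \ (if V₀ ⊆ Y b then Y b else A \ Y b) = Y b ∨
        A \ (if V₀ ⊆ Y b then Y b else A \ Y b) = A \ Y b) := by
      intro b hb
      rcases side b with h | h
      · right; rw [h]
      · left; rw [h, Set.sdiff_sdiff_cancel_left (hsub b hb)]
    simp only
    have s1 := side b
    have s2 := side b'
    have g1 := big b hb
    have g2 := big b' hb'
    have u1 := sub b hb
    have u2 := sub b' hb'
    have f1 := flip b hb
    have f2 := flip b' hb'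
    generalize (if V₀ ⊆ Y b then Y b else A \ Y b) = W at *
    generalize (if V₀ ⊆ Y b' then Y b' else A \ Y b') = W' at *
    rcases Cc_four Y hsub h1 hb hb' s1 s2 with h | h | h | h
    · exact absurd (g2 hx₀) (Set.disjoint_left.1 h (g1 hx₀))
    · exact Or.inl h
    · exact Or.inr h
    · have d1 : Disjoint (A \ W) (A \ W') := by
        rw [Set.disjoint_left]
        rintro x ⟨hx, hx1⟩ ⟨_, hx2⟩
        exact (h hx).elim hx1 hx2
      have d2 : Disjoint (A \ W) V₀ := by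
        rw [Set.disjoint_left]
        rintro x ⟨hx, hx1⟩ hx2
        exact hx1 (g1 hx2)
      have d3 : Disjoint (A \ W') V₀ := by
        rw [Set.disjoint_left]
        rintro x ⟨hx, hx1⟩ hx2
        exact hx1 (g2 hx2)
      rcases h2 b hb b' hb' bs hbs _ _ _ f1 f2 hV₀ d1 d2 d3 with e | e | e
      · right
        rw [Set.sdiff_eq_empty] at e
        exact u2.trans e
      · left
        rw [Set.sdiff_eq_empty] at e
        exact u1.trans e
      · exact absurd e hV₀ne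

end Pool.Agent.Helper43_EOR
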