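import Mathlib
import Pool.Agent.Helper43_EOR.F7
import Pool.Agent.Helper43_EOR.L1
import Pool.Agent.Helper43_EOR.Cc

set_option autoImplicit false

namespace Pool.Agent.Helper43_EOR

open Set Matroid

variable {α : Type*}


/-
JOB Cw (type W1 from one contracted element).
PLAIN WORDS. A ∪ B = M.E. Fix b00 ∈ B with t b00 = 0, so Y b00 = A; B₁ = {b ∈ B | t b ≠ 0} (t b = 1). If B₁ is
empty, W is arbitrary. Otherwise fix b* ∈ B₁ and shear (`BinaryForm.shear`) with
l a s = bit (a ∈ Y b*) * s 0: then Y b* = ∅ and still Y b = A for t b = 0. Keep the names.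
 (P1) for b, b', b'' ∈ B₁ and different rows r1, .., r4 ∈ A and constants ε', ε'' ∈ ZMod 2 it is
 impossible that bit (r_i ∈ Y b') + bit (r_i ∈ Y b) = ε' + p_i and
 bit (r_i ∈ Y b'') + bit (r_i ∈ Y b) = ε'' + q_i with (p_i, q_i) = (0,0), (1,1), (1,0), (0,1) for
 i = 1, .., 4. Proof: obs7d for the form M A B (A₁ = A, B = M.E \ A), k = 4, q = ![r1, .., r4],
 Zs = {b00} (co b00 = ((1,1,1,1), 0)), T (x, t) = ((x'1 + x'4, x'2 + x'4, x'3 + x'4), x'1 + x'2 + x'3 + x'4 + t)
 with x' = x + t • y, y_i = bit (r_i ∈ Y b). Kernel: span of ((1,1,1,1), 0). The images of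
 r1, r2, r3, r4 are (100;1), (010;1), (001;1), (111;1), of b: (000;1), of b': (x' = 0110 or complement)
 (011;1), of b'': (x' = 0101 or complement) (101;1). So z = 110. The conclusion says b00 ∈ A:
 contradiction.
 (P2) for b1, .., b4 ∈ B₁ and different rows r1, r2, r3 it is impossible that there are constants
 ε_j with bit (r_i ∈ Y b_j) + bit (r_i ∈ Y b_4) = ε_j + [i = j] for i, j = 1, 2, 3. Proof: obs7,
 k = 3, q = ![r1, r2, r3], Zs = {b00} (co = ((1,1,1),0)), T (x, t) = (x'1 + x'3, x'2 + x'3, t) with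
 x' = x + t • y, y_i = bit (r_i ∈ Y b_4): kernel span ((1,1,1),0); images: r1: 100, r2: 010,
 r3: 110, b_4: 001, b_1: 101, b_2: 011, b_3: 111.
 Now `chain_of_sides` for Y and B₁: (h1): rows in the four sets r1 ∈ A \ (Y b ∪ Y b'),
 r2 ∈ Y b ∩ Y b', r3 ∈ Y b \ Y b', r4 ∈ Y b' \ Y b contradict (P1) for b*, b, b' (Y b* = ∅).
 (h2): suppose V, V', V'' pairwise disjoint and nonempty, with rows v ∈ V, v' ∈ V', v'' ∈ V''. If
 there is a row w ∈ A outside the three sets: with respect to (b, b', b''), up to adding constants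
 to columns, the rows v, v', v'', w have patterns 100, 010, 001, 000, i.e. relative to b
 (b + b', b + b''): v: (1,1), v': (1,0), v'': (0,1), w: (0,0): (P1). If V ∪ V' ∪ V'' = A (no such
 w): columns b, b', b'', b* on the rows v, v', v'' have patterns 100, 010, 001, 000 up to constants: (P2).
-/

theorem Cw_zmod2 (a : ZMod 2) : a = 0 ∨ a = 1 := by
  revert a; decide

theorem Cw_two (a : ZMod 2) : a + a = 0 := by
  revert a; decide

theorem Cw_all1 (s : Fin 3 → ZMod 2) : s = ![1, 0, 0] ∨ s = ![0, 1, 0] ∨ s = ![0, 0, 1] ∨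
    s = ![1, 1, 1] ∨ s = ![0, 0, 0] ∨ s = ![0, 1, 1] ∨ s = ![1, 0, 1] ∨ s = ![1, 1, 0] := by
  revert s; decide

theorem Cw_all2 (s : Fin 3 → ZMod 2) : s = ![1, 0, 0] ∨ s = ![0, 1, 0] ∨ s = ![1, 1, 0] ∨
    s = ![0, 0, 1] ∨ s = ![1, 0, 1] ∨ s = ![0, 1, 1] ∨ s = ![1, 1, 1] ∨ s = 0 := by
  revert s; decide

theorem Cw_t_one {s : Fin 1 → ZMod 2} (hs : s ≠ 0) : s 0 = 1 := by
  rcases Cw_zmod2 (s 0) with h | h
  · exfalso
    apply hs
    funext i
    rw [Subsingleton.elim i 0, h]
    rfl
  · exact h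

theorem Cw_co_mem {A : Set α} {Y : α → Set α} {δ k : ℕ} {t : α → Fin δ → ZMod 2}
    {q : Fin k → α} (hq : q.Injective) (hqA : ∀ i, q i ∈ A) (j : Fin k) :
    co A Y t q (q j) = (Pi.single j 1, 0) := by
  classical
  unfold co bvec
  rw [if_pos (hqA j)]
  refine Prod.ext ?_ rfl
  funext i
  simp only
  by_cases hij : i = j
  · rw [hij, Pi.single_eq_same, Pi.single_eq_same]
  · rw [Pi.single_eq_of_ne hij, Pi.single_eq_of_ne]
    exact fun h => hij (hq h)

theorem Cw_co_not_mem {A : Set α} {Y : α → Set α} {δ k : ℕ} {t : α → Fin δ → ZMod 2}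
    {q : Fin k → α} {x : α} (hx : x ∉ A) :
    co A Y t q x = (fun i => bit (q i ∈ Y x), t x) := by
  classical
  unfold co bvec
  rw [if_neg hx]
  refine Prod.ext ?_ rfl
  funext i
  simp only [Set.indicator_apply, bit, Pi.one_apply]

theorem Cw_bit_true {p : Prop} (h : p) : bit p = 1 := by
  unfold bit; rw [if_pos h]

theorem Cw_bit_false {p : Prop} (h : ¬ p) : bit p = 0 := by
  unfold bit; rw [if_neg h]

/-- first map -/
def Cw_T1 (y : Fin 4 → ZMod 2) :
    (Fin 4 → ZMod 2) × (Fin 1 → ZMod 2) →ₗ[ZMod 2] (Fin 3 → ZMod 2) × ZMod 2 where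
  toFun p := (![(p.1 0 + p.2 0 * y 0) + (p.1 3 + p.2 0 * y 3),
      (p.1 1 + p.2 0 * y 1) + (p.1 3 + p.2 0 * y 3),
      (p.1 2 + p.2 0 * y 2) + (p.1 3 + p.2 0 * y 3)],
    (p.1 0 + p.2 0 * y 0) + (p.1 1 + p.2 0 * y 1) + (p.1 2 + p.2 0 * y 2) +
      (p.1 3 + p.2 0 * y 3) + p.2 0)
  map_add' p p' := by
    refine Prod.ext ?_ ?_
    · funext i
      fin_cases i <;> simp <;> ring
    · simp; ring
  map_smul' c p := by
    refine Prod.ext ?_ ?_
    · funext i
      fin_cases i <;> simp <;> ring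
    · simp; ring

theorem Cw_T1_apply (y : Fin 4 → ZMod 2) (p : (Fin 4 → ZMod 2) × (Fin 1 → ZMod 2)) :
    Cw_T1 y p = (![(p.1 0 + p.2 0 * y 0) + (p.1 3 + p.2 0 * y 3),
      (p.1 1 + p.2 0 * y 1) + (p.1 3 + p.2 0 * y 3),
      (p.1 2 + p.2 0 * y 2) + (p.1 3 + p.2 0 * y 3)],
    (p.1 0 + p.2 0 * y 0) + (p.1 1 + p.2 0 * y 1) + (p.1 2 + p.2 0 * y 2) +
      (p.1 3 + p.2 0 * y 3) + p.2 0) := rfl

/-- second map -/
def Cw_T2 (y : Fin 3 → ZMod 2) :
    (Fin 3 → ZMod 2) × (Fin 1 → ZMod 2) →ₗ[ZMod 2] (Fin 3 → ZMod 2) where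
  toFun p := ![(p.1 0 + p.2 0 * y 0) + (p.1 2 + p.2 0 * y 2),
      (p.1 1 + p.2 0 * y 1) + (p.1 2 + p.2 0 * y 2), p.2 0]
  map_add' p p' := by
    funext i
    fin_cases i <;> simp <;> ring
  map_smul' c p := by
    funext i
    fin_cases i <;> simp <;> ring

theorem Cw_T2_apply (y : Fin 3 → ZMod 2) (p : (Fin 3 → ZMod 2) × (Fin 1 → ZMod 2)) :
    Cw_T2 y p = ![(p.1 0 + p.2 0 * y 0) + (p.1 2 + p.2 0 * y 2),
      (p.1 1 + p.2 0 * y 1) + (p.1 2 + p.2 0 * y 2), p.2 0] := rfl

theorem Cw_P1 {M : Matroid α} {A B : Set α} (hL : Lab M A B) {Y : α → Set α}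
    {t : α → Fin 1 → ZMod 2} (h : BinaryForm M A B Y t) {b00 : α} (hb00 : b00 ∈ B)
    (ht00 : t b00 = 0) (hY00 : Y b00 = A) {b b' b'' : α} (hb : b ∈ B) (hb' : b' ∈ B)
    (hb'' : b'' ∈ B) (ht : t b ≠ 0) (ht' : t b' ≠ 0) (ht'' : t b'' ≠ 0) (q : Fin 4 → α)
    (hqA : ∀ i, q i ∈ A) (ε' ε'' : ZMod 2)
    (h1 : ∀ i, bit (q i ∈ Y b') = bit (q i ∈ Y b) + (ε' + (![0, 1, 1, 0] : Fin 4 → ZMod 2) i))
    (h2 : ∀ i, bit (q i ∈ Y b'') = bit (q i ∈ Y b) + (ε'' + (![0, 1, 0, 1] : Fin 4 → ZMod 2) i)) :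
    False := by
  classical
  have hBE : B = M.E \ A := by
    rw [← hL.cover, Set.union_sdiff_left, hL.disj.symm.sdiff_eq_left]
  have hAE : A ⊆ M.E := by rw [← hL.cover]; exact Set.subset_union_left
  have hBsub : B ⊆ M.E := by rw [← hL.cover]; exact Set.subset_union_right
  have hnA : ∀ x ∈ B, x ∉ A := fun x hx hxA => Set.disjoint_left.1 hL.disj hxA hx
  have hq : q.Injective := by
    intro i j hij
    have k1 : (![0, 1, 1, 0] : Fin 4 → ZMod 2) i = (![0, 1, 1, 0] : Fin 4 → ZMod 2) j := by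
      have e1 := h1 i
      have e2 := h1 j
      rw [hij, e2] at e1
      exact (add_left_cancel (add_left_cancel e1)).symm
    have k2 : (![0, 1, 0, 1] : Fin 4 → ZMod 2) i = (![0, 1, 0, 1] : Fin 4 → ZMod 2) j := by
      have e1 := h2 i
      have e2 := h2 j
      rw [hij, e2] at e1
      exact (add_left_cancel (add_left_cancel e1)).symm
    revert k1 k2
    clear h1 h2 hij
    revert i j
    decide
  have hB' := h
  rw [hBE] at hB'
  let y : Fin 4 → ZMod 2 := fun i => bit (q i ∈ Y b)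
  have c00 : co A Y t q b00 = (fun _ => 1, 0) := by
    rw [Cw_co_not_mem (hnA _ hb00), ht00, hY00]
    refine Prod.ext ?_ rfl
    funext i
    exact Cw_bit_true (hqA i)
  let x : (Fin 3 → ZMod 2) → α := fun s =>
    if s = ![1, 0, 0] then q 0 else if s = ![0, 1, 0] then q 1 else if s = ![0, 0, 1] then q 2
    else if s = ![1, 1, 1] then q 3 else if s = ![0, 0, 0] then b else if s = ![0, 1, 1] then b'
    else b''
  have hcon := hL.obs7d (Set.Subset.refl A) hB' hq hqA (Zs := {b00})
    (Set.singleton_subset_iff.2 (hBsub hb00)) (Cw_T1 y) ?_ ?_ ![1, 1, 0] x ?_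
  · exact hnA b00 hb00 (hcon.1 (Set.mem_singleton b00))
  · intro z hz
    rw [Set.mem_singleton_iff.1 hz, c00, Cw_T1_apply]
    refine Prod.ext ?_ ?_
    · funext i
      fin_cases i <;> simp [Cw_two]
    · simp only [Pi.zero_apply, zero_mul, add_zero]
      decide
  · intro p hp
    rw [Set.image_singleton, c00, Submodule.mem_span_singleton]
    rw [Cw_T1_apply] at hp
    have p1 := congrArg Prod.fst hp
    have p2 := congrArg Prod.snd hp
    have p10 := congrFun p1 0
    have p11 := congrFun p1 1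
    have p12 := congrFun p1 2
    simp at p10 p11 p12 p2
    have t0 : p.2 0 = 0 := by
      have e : (p.1 0 + p.2 0 * y 0) + (p.1 1 + p.2 0 * y 1) + (p.1 2 + p.2 0 * y 2) +
        (p.1 3 + p.2 0 * y 3) = 0 := by
        have e1 := Cw_two (p.1 3 + p.2 0 * y 3)
        linear_combination p10 + p11 + p12 - e1
      rw [e, zero_add] at p2
      exact p2
    rw [t0] at p10 p11 p12
    simp only [zero_mul, add_zero] at p10 p11 p12
    refine ⟨p.1 3, ?_⟩
    refine Prod.ext ?_ ?_
    · funext i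
      have key : ∀ u v : ZMod 2, u + v = 0 → v = u := by decide
      fin_cases i
      · simpa using key _ _ p10
      · simpa using key _ _ p11
      · simpa using key _ _ p12
      · simp
    · funext i
      rw [Subsingleton.elim i 0]
      simp [t0]
  · intro s hs
    have tb : t b 0 = 1 := Cw_t_one ht
    have tb' : t b' 0 = 1 := Cw_t_one ht'
    have tb'' : t b'' 0 = 1 := Cw_t_one ht''
    have hx : x s = (if s = ![1, 0, 0] then q 0 else if s = ![0, 1, 0] then q 1 else
      if s = ![0, 0, 1] then q 2 else if s = ![1, 1, 1] then q 3 else if s = ![0, 0, 0] then b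
      else if s = ![0, 1, 1] then b' else b'') := rfl
    have hall := Cw_all1 s
    rcases hall with rfl | rfl | rfl | rfl | rfl | rfl | rfl | rfl
    · rw [hx, if_pos rfl]
      refine ⟨hAE (hqA _), ?_⟩
      rw [Cw_co_mem hq hqA, Cw_T1_apply]
      refine Prod.ext ?_ ?_
      · funext i; fin_cases i <;> simp
      · simp
    · rw [hx, if_neg (by decide), if_pos rfl]
      refine ⟨hAE (hqA _), ?_⟩
      rw [Cw_co_mem hq hqA, Cw_T1_apply]
      refine Prod.ext ?_ ?_
      · funext i; fin_cases i <;> simp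
      · simp
    · rw [hx, if_neg (by decide), if_neg (by decide), if_pos rfl]
      refine ⟨hAE (hqA _), ?_⟩
      rw [Cw_co_mem hq hqA, Cw_T1_apply]
      refine Prod.ext ?_ ?_
      · funext i; fin_cases i <;> simp
      · simp
    · rw [hx, if_neg (by decide), if_neg (by decide), if_neg (by decide), if_pos rfl]
      refine ⟨hAE (hqA _), ?_⟩
      rw [Cw_co_mem hq hqA, Cw_T1_apply]
      refine Prod.ext ?_ ?_
      · funext i; fin_cases i <;> simp
      · simp
    · rw [hx, if_neg (by decide), if_neg (by decide), if_neg (by decide), if_neg (by decide),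
        if_pos rfl]
      refine ⟨hBsub hb, ?_⟩
      rw [Cw_co_not_mem (hnA _ hb), Cw_T1_apply]
      refine Prod.ext ?_ ?_
      · funext i
        fin_cases i <;> simp [y, tb, Cw_two]
      · simp [y, tb, Cw_two]
    · rw [hx, if_neg (by decide), if_neg (by decide), if_neg (by decide), if_neg (by decide),
        if_neg (by decide), if_pos rfl]
      refine ⟨hBsub hb', ?_⟩
      rw [Cw_co_not_mem (hnA _ hb'), Cw_T1_apply]
      have g0 := h1 0
      have g1 := h1 1
      have g2 := h1 2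
      have g3 := h1 3
      simp at g0 g1 g2 g3
      have a0 : ∀ u v : ZMod 2, u + v + u = v := by decide
      refine Prod.ext ?_ ?_
      · funext i
        fin_cases i
        · simp [y, tb', g0, g3, a0, Cw_two]
        · simp [y, tb', g1, g3, a0]
        · simp [y, tb', g2, g3, a0]
      · simp [y, tb', g0, g1, g2, g3, a0]
        rcases Cw_zmod2 ε' with e | e <;> rw [e] <;> decide
    · rw [hx, if_neg (by decide), if_neg (by decide), if_neg (by decide), if_neg (by decide),
        if_neg (by decide), if_neg (by decide)]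
      refine ⟨hBsub hb'', ?_⟩
      rw [Cw_co_not_mem (hnA _ hb''), Cw_T1_apply]
      have g0 := h2 0
      have g1 := h2 1
      have g2 := h2 2
      have g3 := h2 3
      simp at g0 g1 g2 g3
      have a0 : ∀ u v : ZMod 2, u + v + u = v := by decide
      refine Prod.ext ?_ ?_
      · funext i
        fin_cases i
        · simp [y, tb'', g0, g3, a0]
          rcases Cw_zmod2 ε'' with e | e <;> rw [e] <;> decide
        · simp [y, tb'', g1, g3, a0]
          rcases Cw_zmod2 ε'' with e | e <;> rw [e] <;> decide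
        · simp [y, tb'', g2, g3, a0]
          rcases Cw_zmod2 ε'' with e | e <;> rw [e] <;> decide
      · simp [y, tb'', g0, g1, g2, g3, a0]
        rcases Cw_zmod2 ε'' with e | e <;> rw [e] <;> decide
    · exact absurd rfl hs

theorem Cw_P2 {M : Matroid α} {A B : Set α} (hL : Lab M A B) {Y : α → Set α}
    {t : α → Fin 1 → ZMod 2} (h : BinaryForm M A B Y t) {b00 : α} (hb00 : b00 ∈ B)
    (ht00 : t b00 = 0) (hY00 : Y b00 = A) {b1 b2 b3 b4 : α} (hb1 : b1 ∈ B) (hb2 : b2 ∈ B)
    (hb3 : b3 ∈ B) (hb4 : b4 ∈ B) (ht1 : t b1 ≠ 0) (ht2 : t b2 ≠ 0) (ht3 : t b3 ≠ 0)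
    (ht4 : t b4 ≠ 0) (q : Fin 3 → α) (hqA : ∀ i, q i ∈ A) (ε1 ε2 ε3 : ZMod 2)
    (h1 : ∀ i, bit (q i ∈ Y b1) = bit (q i ∈ Y b4) + (ε1 + (![1, 0, 0] : Fin 3 → ZMod 2) i))
    (h2 : ∀ i, bit (q i ∈ Y b2) = bit (q i ∈ Y b4) + (ε2 + (![0, 1, 0] : Fin 3 → ZMod 2) i))
    (h3 : ∀ i, bit (q i ∈ Y b3) = bit (q i ∈ Y b4) + (ε3 + (![0, 0, 1] : Fin 3 → ZMod 2) i)) :
    False := by
  classical
  have hBE : B = M.E \ A := by
    rw [← hL.cover, Set.union_sdiff_left, hL.disj.symm.sdiff_eq_left]
  have hAE : A ⊆ M.E := by rw [← hL.cover]; exact Set.subset_union_left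
  have hBsub : B ⊆ M.E := by rw [← hL.cover]; exact Set.subset_union_right
  have hnA : ∀ x ∈ B, x ∉ A := fun x hx hxA => Set.disjoint_left.1 hL.disj hxA hx
  have hq : q.Injective := by
    intro i j hij
    have k1 : (![1, 0, 0] : Fin 3 → ZMod 2) i = (![1, 0, 0] : Fin 3 → ZMod 2) j := by
      have e1 := h1 i
      have e2 := h1 j
      rw [hij, e2] at e1
      exact (add_left_cancel (add_left_cancel e1)).symm
    have k2 : (![0, 1, 0] : Fin 3 → ZMod 2) i = (![0, 1, 0] : Fin 3 → ZMod 2) j := by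
      have e1 := h2 i
      have e2 := h2 j
      rw [hij, e2] at e1
      exact (add_left_cancel (add_left_cancel e1)).symm
    revert k1 k2
    clear h1 h2 h3 hij
    revert i j
    decide
  have hB' := h
  rw [hBE] at hB'
  let y : Fin 3 → ZMod 2 := fun i => bit (q i ∈ Y b4)
  have c00 : co A Y t q b00 = (fun _ => 1, 0) := by
    rw [Cw_co_not_mem (hnA _ hb00), ht00, hY00]
    refine Prod.ext ?_ rfl
    funext i
    exact Cw_bit_true (hqA i)
  let x : (Fin 3 → ZMod 2) → α := fun s =>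
    if s = ![1, 0, 0] then q 0 else if s = ![0, 1, 0] then q 1 else if s = ![1, 1, 0] then q 2
    else if s = ![0, 0, 1] then b4 else if s = ![1, 0, 1] then b1 else if s = ![0, 1, 1] then b2
    else b3
  have hcon := hL.obs7 (Set.Subset.refl A) hB' hq hqA (Zs := {b00})
    (Set.singleton_subset_iff.2 (hBsub hb00)) (Cw_T2 y) ?_ ?_ x ?_
  · exact hnA b00 hb00 (hcon.1 (Set.mem_singleton b00))
  · intro z hz
    rw [Set.mem_singleton_iff.1 hz, c00, Cw_T2_apply]
    funext i
    fin_cases i <;> simp [Cw_two]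
  · intro p hp
    rw [Set.image_singleton, c00, Submodule.mem_span_singleton]
    rw [Cw_T2_apply] at hp
    have p10 := congrFun hp 0
    have p11 := congrFun hp 1
    have p12 := congrFun hp 2
    simp at p10 p11 p12
    rw [p12] at p10 p11
    simp only [zero_mul, add_zero] at p10 p11
    refine ⟨p.1 2, ?_⟩
    refine Prod.ext ?_ ?_
    · funext i
      have key : ∀ u v : ZMod 2, u + v = 0 → v = u := by decide
      fin_cases i
      · simpa using key _ _ p10
      · simpa using key _ _ p11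
      · simp
    · funext i
      rw [Subsingleton.elim i 0]
      simp [p12]
  · intro s hs
    have tb1 : t b1 0 = 1 := Cw_t_one ht1
    have tb2 : t b2 0 = 1 := Cw_t_one ht2
    have tb3 : t b3 0 = 1 := Cw_t_one ht3
    have tb4 : t b4 0 = 1 := Cw_t_one ht4
    have hx : x s = (if s = ![1, 0, 0] then q 0 else if s = ![0, 1, 0] then q 1 else
      if s = ![1, 1, 0] then q 2 else if s = ![0, 0, 1] then b4 else if s = ![1, 0, 1] then b1
      else if s = ![0, 1, 1] then b2 else b3) := rfl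
    have hall := Cw_all2 s
    have a0 : ∀ u v : ZMod 2, u + v + u = v := by decide
    rcases hall with rfl | rfl | rfl | rfl | rfl | rfl | rfl | rfl
    · rw [hx, if_pos rfl]
      refine ⟨hAE (hqA _), ?_⟩
      rw [Cw_co_mem hq hqA, Cw_T2_apply]
      funext i; fin_cases i <;> simp
    · rw [hx, if_neg (by decide), if_pos rfl]
      refine ⟨hAE (hqA _), ?_⟩
      rw [Cw_co_mem hq hqA, Cw_T2_apply]
      funext i; fin_cases i <;> simp
    · rw [hx, if_neg (by decide), if_neg (by decide), if_pos rfl]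
      refine ⟨hAE (hqA _), ?_⟩
      rw [Cw_co_mem hq hqA, Cw_T2_apply]
      funext i; fin_cases i <;> simp
    · rw [hx, if_neg (by decide), if_neg (by decide), if_neg (by decide), if_pos rfl]
      refine ⟨hBsub hb4, ?_⟩
      rw [Cw_co_not_mem (hnA _ hb4), Cw_T2_apply]
      funext i
      fin_cases i <;> simp [y, tb4, Cw_two]
    · rw [hx, if_neg (by decide), if_neg (by decide), if_neg (by decide), if_neg (by decide),
        if_pos rfl]
      refine ⟨hBsub hb1, ?_⟩
      rw [Cw_co_not_mem (hnA _ hb1), Cw_T2_apply]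
      have g0 := h1 0
      have g1 := h1 1
      have g2 := h1 2
      simp at g0 g1 g2
      funext i
      fin_cases i
      · simp [y, tb1, g0, g2, a0]
      · simp [y, tb1, g1, g2, a0, Cw_two]
      · simp [tb1]
    · rw [hx, if_neg (by decide), if_neg (by decide), if_neg (by decide), if_neg (by decide),
        if_neg (by decide), if_pos rfl]
      refine ⟨hBsub hb2, ?_⟩
      rw [Cw_co_not_mem (hnA _ hb2), Cw_T2_apply]
      have g0 := h2 0
      have g1 := h2 1
      have g2 := h2 2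
      simp at g0 g1 g2
      funext i
      fin_cases i
      · simp [y, tb2, g0, g2, a0, Cw_two]
      · simp [y, tb2, g1, g2, a0]
      · simp [tb2]
    · rw [hx, if_neg (by decide), if_neg (by decide), if_neg (by decide), if_neg (by decide),
        if_neg (by decide), if_neg (by decide)]
      refine ⟨hBsub hb3, ?_⟩
      rw [Cw_co_not_mem (hnA _ hb3), Cw_T2_apply]
      have g0 := h3 0
      have g1 := h3 1
      have g2 := h3 2
      simp at g0 g1 g2
      funext i
      fin_cases i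
      · simp [y, tb3, g0, g2, a0]
        rcases Cw_zmod2 ε3 with e | e <;> rw [e] <;> decide
      · simp [y, tb3, g1, g2, a0]
        rcases Cw_zmod2 ε3 with e | e <;> rw [e] <;> decide
      · simp [tb3]
    · exact absurd rfl hs

theorem typeW1_of_form {M : Matroid α} {A B : Set α} (hL : Lab M A B) {Y : α → Set α}
    {t : α → Fin 1 → ZMod 2} (h : BinaryForm M A B Y t) (h0 : ∀ b ∈ B, t b = 0 → Y b = A)
    (hex : ∃ b ∈ B, t b = 0) : TypeW1 M A B := by
  classical
  obtain ⟨b00, hb00, ht00⟩ := hex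
  have hAE : A ⊆ M.E := by rw [← hL.cover]; exact Set.subset_union_left
  have hAfin : A.Finite := hL.fin.subset hAE
  by_cases hB1 : ∃ b ∈ B, t b ≠ 0
  · obtain ⟨bs, hbs, hts⟩ := hB1
    have hform := h.shear hAfin (fun a => bit (a ∈ Y bs) • LinearMap.proj (0 : Fin 1))
    set Y' : α → Set α := fun x => {a | a ∈ A ∧ bit (a ∈ Y x) +
      (bit (a ∈ Y bs) • (LinearMap.proj (0 : Fin 1) : (Fin 1 → ZMod 2) →ₗ[ZMod 2] ZMod 2)) (t x)
        = 1} with hY'
    have hY'0 : ∀ b ∈ B, t b = 0 → Y' b = A := by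
      intro b hb htb
      ext a
      simp only [hY', Set.mem_ofPred_eq, htb, map_zero, add_zero]
      constructor
      · exact fun h => h.1
      · intro ha
        refine ⟨ha, Cw_bit_true ?_⟩
        rw [h0 b hb htb]; exact ha
    have hY's : Y' bs = ∅ := by
      ext a
      simp only [hY', Set.mem_ofPred_eq, Set.mem_empty_iff_false, iff_false, not_and]
      intro _
      rw [LinearMap.smul_apply, LinearMap.proj_apply, Cw_t_one hts, smul_eq_mul, mul_one, Cw_two]
      exact zero_ne_one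
    have hs0 : ∀ r : α, bit (r ∈ Y' bs) = 0 := fun r => Cw_bit_false (by rw [hY's]; simp)
    obtain ⟨W, hW1, hW2⟩ := chain_of_sides (A := A) (B₁ := {b | b ∈ B ∧ t b ≠ 0}) hAfin Y'
      (fun b hb => hform.1 b hb.1)
      (by
        rintro b ⟨hb, htb⟩ b' ⟨hb', htb'⟩ ⟨⟨r2, hr2⟩, ⟨r3, hr3⟩, ⟨r4, hr4⟩, ⟨r1, hr1⟩⟩
        have s1 := hform.1 b hb
        have s2 := hform.1 b' hb'
        refine Cw_P1 hL hform hb00 ht00 (hY'0 b00 hb00 ht00) hbs hb hb' hts htb htb'
          ![r1, r2, r3, r4] ?_ 0 0 ?_ ?_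
        · intro i
          fin_cases i
          · exact hr1.1
          · exact s1 hr2.1
          · exact s1 hr3.1
          · exact s2 hr4.1
        · intro i
          rw [hs0]
          fin_cases i
          · simpa using Cw_bit_false fun h => hr1.2 (Or.inl h)
          · simpa using Cw_bit_true hr2.1
          · simpa using Cw_bit_true hr3.1
          · simpa using Cw_bit_false hr4.2
        · intro i
          rw [hs0]
          fin_cases i
          · simpa using Cw_bit_false fun h => hr1.2 (Or.inr h)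
          · simpa using Cw_bit_true hr2.2
          · simpa using Cw_bit_false hr3.2
          · simpa using Cw_bit_true hr4.1)
      (by
        rintro b ⟨hb, htb⟩ b' ⟨hb', htb'⟩ b'' ⟨hb'', htb''⟩ V V' V'' hV hV' hV'' d1 d2 d3
        by_contra hcon
        push Not at hcon
        obtain ⟨⟨v, hv⟩, ⟨v', hv'⟩, ⟨v'', hv''⟩⟩ := hcon
        have key : ∀ (b : α) (V : Set α), b ∈ B → (V = Y' b ∨ V = A \ Y' b) →
            V ⊆ A ∧ ∃ ε : ZMod 2, ∀ r ∈ A, bit (r ∈ Y' b) = ε + bit (r ∈ V) := by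
          intro b V hb hV
          rcases hV with rfl | rfl
          · exact ⟨hform.1 b hb, 0, fun r _ => by rw [zero_add]⟩
          · refine ⟨Set.sdiff_subset, 1, fun r hr => ?_⟩
            by_cases hrb : r ∈ Y' b
            · rw [Cw_bit_true hrb, Cw_bit_false fun h => h.2 hrb, add_zero]
            · rw [Cw_bit_false hrb, Cw_bit_true ⟨hr, hrb⟩]
              exact (Cw_two 1).symm
        obtain ⟨s1, ε1, e1⟩ := key b V hb hV
        obtain ⟨s2, ε2, e2⟩ := key b' V' hb' hV'
        obtain ⟨s3, ε3, e3⟩ := key b'' V'' hb'' hV''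
        have hqA : ∀ i : Fin 3, (![v, v', v''] : Fin 3 → α) i ∈ A := by
          intro i
          fin_cases i
          · exact s1 hv
          · exact s2 hv'
          · exact s3 hv''
        refine Cw_P2 hL hform hb00 ht00 (hY'0 b00 hb00 ht00) hb hb' hb'' hbs htb htb' htb'' hts
          ![v, v', v''] hqA ε1 ε2 ε3 ?_ ?_ ?_
        · intro i
          rw [hs0, zero_add, e1 _ (hqA i)]
          congr 1
          fin_cases i
          · simpa using Cw_bit_true hv
          · simpa using Cw_bit_false fun h => Set.disjoint_left.1 d1 h hv'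
          · simpa using Cw_bit_false fun h => Set.disjoint_left.1 d2 h hv''
        · intro i
          rw [hs0, zero_add, e2 _ (hqA i)]
          congr 1
          fin_cases i
          · simpa using Cw_bit_false fun h => Set.disjoint_left.1 d1 hv h
          · simpa using Cw_bit_true hv'
          · simpa using Cw_bit_false fun h => Set.disjoint_left.1 d3 h hv''
        · intro i
          rw [hs0, zero_add, e3 _ (hqA i)]
          congr 1
          fin_cases i
          · simpa using Cw_bit_false fun h => Set.disjoint_left.1 d2 hv h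
          · simpa using Cw_bit_false fun h => Set.disjoint_left.1 d3 hv' h
          · simpa using Cw_bit_true hv'')
    exact ⟨Y', t, hform, hY'0, W, fun b hb htb => hW1 b ⟨hb, htb⟩,
      fun b hb b' hb' htb htb' => hW2 b ⟨hb, htb⟩ b' ⟨hb', htb'⟩⟩
  · push Not at hB1
    exact ⟨Y, t, h, h0, Y, fun b hb htb => Or.inl rfl,
      fun b hb b' _ htb _ => absurd (hB1 b hb) htb⟩

end Pool.Agent.Helper43_EOR
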