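import Mathlib
import Pool.Agent.Helper43_EOR.F7
import Pool.Agent.Helper43_EOR.L1
import Pool.Agent.Helper43_EOR.Cw

set_option autoImplicit false

namespace Pool.Agent.Helper43_EOR

open Set Matroid

variable {α : Type*}


theorem c1_bit (p : Prop) [Decidable p] : bit p = if p then 1 else 0 := by
  unfold bit
  by_cases h : p <;> simp [h]

/-- the value of a linear form -/
def c1dot (n r : Fin 3 → ZMod 2) : ZMod 2 := n 0 * r 0 + n 1 * r 1 + n 2 * r 2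

/-- the possible points of elements of `B` -/
def c1ok (r : Fin 3 → ZMod 2) : Prop := r ≠ 0 ∧ r ≠ ![1, 0, 0] ∧ r ≠ ![0, 1, 0]

instance c1okDec (r : Fin 3 → ZMod 2) : Decidable (c1ok r) := by
  unfold c1ok
  infer_instance

/-- row values -/
def c1F (s l r : Fin 3 → ZMod 2) : ZMod 2 :=
  (if r = s then 1 else 0) + (if s = ![1, 0, 0] ∨ s = ![0, 1, 0] then 0 else 1) + c1dot l r

/-- a row which vanishes at the points of the two elements of `A` -/
def c1v (s l : Fin 3 → ZMod 2) : Prop :=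
  s ≠ 0 ∧ c1F s l ![1, 0, 0] = 0 ∧ c1F s l ![0, 1, 0] = 0

instance c1vDec (s l : Fin 3 → ZMod 2) : Decidable (c1v s l) := by
  unfold c1v
  infer_instance

theorem c1_factA : ∀ s l : Fin 3 → ZMod 2, c1v s l → c1F s l ![1, 1, 0] = 0 →
    (s = ![1, 1, 0] ∧ l 0 = 1 ∧ l 1 = 1) := by
  decide

/-- the four values of a row of even kind -/
def c1q (s l : Fin 3 → ZMod 2) (μ : ZMod 2) : Prop :=
  c1F s l ![0, 0, 1] = μ ∧ c1F s l ![1, 0, 1] = 1 + μ ∧ c1F s l ![0, 1, 1] = 1 + μ ∧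
    c1F s l ![1, 1, 1] = μ

instance c1qDec (s l : Fin 3 → ZMod 2) (μ : ZMod 2) : Decidable (c1q s l μ) := by
  unfold c1q
  infer_instance

theorem c1_factA' : ∀ s l : Fin 3 → ZMod 2, c1v s l → c1F s l ![1, 1, 0] = 0 →
    c1q s l (1 + l 2) := by
  decide

theorem c1_factB : ∀ s l : Fin 3 → ZMod 2, ∀ μ : ZMod 2, c1v s l → c1q s l μ →
    s = ![1, 1, 0] := by
  decide

theorem c1_factC : ∀ s l : Fin 3 → ZMod 2, c1v s l →
    (s = ![1, 0, 0] ∨ s = ![0, 1, 0] ∨ s = ![1, 1, 0]) →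
    ∃ m : Fin 3 → ZMod 2, (m 0 ≠ 0 ∨ m 1 ≠ 0) ∧ ∀ r : Fin 3 → ZMod 2, c1ok r →
      c1F s l r = c1dot m r := by
  decide

theorem c1_factD : ∀ n p : Fin 3 → ZMod 2, c1ok p →
    (∀ r : Fin 3 → ZMod 2, c1ok r → r ≠ p → c1dot n r = 0) → c1dot n p = 0 := by
  decide

theorem c1_factE : ∀ s : Fin 3 → ZMod 2, c1ok s → s ≠ ![1, 1, 0] → c1ok (![1, 1, 0] + s) := by
  decide

/-- a point outside the span -/
def c1out (u v s : Fin 3 → ZMod 2) : Prop :=
  s ≠ 0 ∧ ∀ x y z : ZMod 2, x • u + y • v + z • s = 0 → x = 0 ∧ y = 0 ∧ z = 0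

instance c1outDec (u v s : Fin 3 → ZMod 2) : Decidable (c1out u v s) := by
  unfold c1out
  infer_instance

theorem c1_factF : ∀ u v : Fin 3 → ZMod 2, u ≠ 0 → v ≠ 0 → u ≠ v → ∃ s : Fin 3 → ZMod 2,
    c1out u v s := by
  decide

theorem c1_factG : ∀ p : Fin 3 → ZMod 2, c1ok p → p 2 = 0 → p = ![1, 1, 0] := by
  decide

/-- the coefficients of a linear form -/
def c1coef (l : (Fin 3 → ZMod 2) →ₗ[ZMod 2] ZMod 2) : Fin 3 → ZMod 2 :=
  fun i => l (fun j => if i = j then 1 else 0)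

theorem c1_lin (l : (Fin 3 → ZMod 2) →ₗ[ZMod 2] ZMod 2) (r : Fin 3 → ZMod 2) :
    l r = c1dot (c1coef l) r := by
  rw [LinearMap.pi_apply_eq_sum_univ, Fin.sum_univ_three]
  simp only [c1dot, c1coef, smul_eq_mul]
  ring

/-- the normalized situation -/
structure c1S (M : Matroid α) (A B A₁ : Set α) (Y : α → Set α) (t : α → Fin 3 → ZMod 2)
    (a1 a2 : α) : Prop where
  hL : Lab M A B
  hc : C7 M A B A₁ Y t
  h12 : a1 ≠ a2
  hA : A \ A₁ = {a1, a2}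
  t1 : t a1 = ![1, 0, 0]
  t2 : t a2 = ![0, 1, 0]
  Y1 : Y a1 = ∅
  Y2 : Y a2 = ∅

/-- transversals -/
def c1T (M : Matroid α) (A₁ : Set α) (t : α → Fin 3 → ZMod 2) (c : (Fin 3 → ZMod 2) → α) : Prop :=
  ∀ s ≠ 0, c s ∈ M.E \ A₁ ∧ t (c s) = s

section c1sec

variable {M : Matroid α} {A B A₁ : Set α} {Y : α → Set α} {t : α → Fin 3 → ZMod 2} {a1 a2 : α}

theorem c1_a1 (h : c1S M A B A₁ Y t a1 a2) : a1 ∈ A \ A₁ := by
  rw [h.hA]; exact Or.inl rfl

theorem c1_a2 (h : c1S M A B A₁ Y t a1 a2) : a2 ∈ A \ A₁ := by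
  rw [h.hA]; exact Or.inr rfl

theorem c1_ok (h : c1S M A B A₁ Y t a1 a2) {b : α} (hb : b ∈ B) : c1ok (t b) := by
  have h1 := lf1 h.hL h.hc b hb
  refine ⟨h1.1, ?_, ?_⟩
  · rw [← h.t1]; exact h1.2 a1 (c1_a1 h)
  · rw [← h.t2]; exact h1.2 a2 (c1_a2 h)

theorem c1_mem (h : c1S M A B A₁ Y t a1 a2) {x : α} (hx : x ∈ M.E \ A₁) :
    x = a1 ∨ x = a2 ∨ x ∈ B := by
  have h1 : x ∈ A ∪ B := by rw [h.hL.cover]; exact hx.1
  rcases h1 with h1 | h1
  · have h2 : x ∈ A \ A₁ := ⟨h1, hx.2⟩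
    rw [h.hA] at h2
    rcases h2 with h2 | h2
    · exact Or.inl h2
    · exact Or.inr (Or.inl h2)
  · exact Or.inr (Or.inr h1)

theorem c1_BE (h : c1S M A B A₁ Y t a1 a2) {b : α} (hb : b ∈ B) : b ∈ M.E \ A₁ := by
  refine ⟨?_, ?_⟩
  · rw [← h.hL.cover]; exact Or.inr hb
  · intro hb1
    exact (Set.disjoint_left.1 h.hL.disj) (h.hc.sub hb1) hb

theorem c1_inB (h : c1S M A B A₁ Y t a1 a2) {x : α} (hx : x ∈ M.E \ A₁) (hok : c1ok (t x)) :
    x ∈ B := by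
  rcases c1_mem h hx with h1 | h1 | h1
  · subst h1; exact absurd h.t1 hok.2.1
  · subst h1; exact absurd h.t2 hok.2.2
  · exact h1

theorem c1_tB (h : c1S M A B A₁ Y t a1 a2) {c : (Fin 3 → ZMod 2) → α} (hT : c1T M A₁ t c)
    {s : Fin 3 → ZMod 2} (hs : c1ok s) : c s ∈ B := by
  refine c1_inB h (hT s hs.1).1 ?_
  rw [(hT s hs.1).2]; exact hs

theorem c1_tA1 (h : c1S M A B A₁ Y t a1 a2) {c : (Fin 3 → ZMod 2) → α} (hT : c1T M A₁ t c) :
    c ![1, 0, 0] = a1 := by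
  have h0 : (![1, 0, 0] : Fin 3 → ZMod 2) ≠ 0 := by decide
  obtain ⟨h1, h2⟩ := hT ![1, 0, 0] h0
  rcases c1_mem h h1 with h3 | h3 | h3
  · exact h3
  · rw [h3, h.t2] at h2
    exact absurd h2 (by decide)
  · have h4 := (c1_ok h h3).2.1
    exact absurd h2 h4

theorem c1_tA2 (h : c1S M A B A₁ Y t a1 a2) {c : (Fin 3 → ZMod 2) → α} (hT : c1T M A₁ t c) :
    c ![0, 1, 0] = a2 := by
  have h0 : (![0, 1, 0] : Fin 3 → ZMod 2) ≠ 0 := by decide
  obtain ⟨h1, h2⟩ := hT ![0, 1, 0] h0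
  rcases c1_mem h h1 with h3 | h3 | h3
  · rw [h3, h.t1] at h2
    exact absurd h2 (by decide)
  · exact h3
  · have h4 := (c1_ok h h3).2.2
    exact absurd h2 h4

theorem c1_row (h : c1S M A B A₁ Y t a1 a2) {c : (Fin 3 → ZMod 2) → α} (hT : c1T M A₁ t c)
    {a : α} (ha : a ∈ A₁) : ∃ s : Fin 3 → ZMod 2, ∃ l : (Fin 3 → ZMod 2) →ₗ[ZMod 2] ZMod 2,
      c1v s (c1coef l) ∧ ∀ r ≠ 0, bit (a ∈ Y (c r)) = c1F s (c1coef l) r := by
  obtain ⟨s, hs, l, hl⟩ := lf2 h.hL h.hc ha hT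
  have hbit : bit (c s ∈ B) = if s = ![1, 0, 0] ∨ s = ![0, 1, 0] then 0 else 1 := by
    by_cases h1 : s = ![1, 0, 0]
    · rw [if_pos (Or.inl h1), h1, c1_tA1 h hT]
      have : a1 ∉ B := fun hcon => (Set.disjoint_left.1 h.hL.disj) (c1_a1 h).1 hcon
      simp [bit, this]
    · by_cases h2 : s = ![0, 1, 0]
      · rw [if_pos (Or.inr h2), h2, c1_tA2 h hT]
        have : a2 ∉ B := fun hcon => (Set.disjoint_left.1 h.hL.disj) (c1_a2 h).1 hcon
        simp [bit, this]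
      · rw [if_neg (by tauto)]
        have : c s ∈ B := c1_tB h hT ⟨hs, h1, h2⟩
        simp [bit, this]
  have hF : ∀ r ≠ 0, bit (a ∈ Y (c r)) = c1F s (c1coef l) r := by
    intro r hr
    rw [hl r hr, hbit, c1_bit (r = s), c1_lin]
    rfl
  refine ⟨s, l, ⟨hs, ?_, ?_⟩, hF⟩
  · rw [← hF _ (by decide), c1_tA1 h hT, h.Y1]
    simp [bit]
  · rw [← hF _ (by decide), c1_tA2 h hT, h.Y2]
    simp [bit]

theorem c1_update (hE : ∀ b ∈ B, b ∈ M.E \ A₁) {c : (Fin 3 → ZMod 2) → α} (hT : c1T M A₁ t c)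
    {b : α} (hb : b ∈ B) : c1T M A₁ t (Function.update c (t b) b) := by
  intro s hs
  by_cases h1 : s = t b
  · rw [h1, Function.update_self]
    exact ⟨hE b hb, rfl⟩
  · rw [Function.update_of_ne h1]
    exact hT s hs

theorem c1_kindB (h : c1S M A B A₁ Y t a1 a2) {a3 b0 : α} (ha3 : a3 ∈ A₁) (hb0 : b0 ∈ B)
    (ht0 : t b0 = ![1, 1, 0]) (hY0 : a3 ∉ Y b0) {c : (Fin 3 → ZMod 2) → α} (hT : c1T M A₁ t c)
    {s l : Fin 3 → ZMod 2} (hv : c1v s l) (hF : ∀ r ≠ 0, bit (a3 ∈ Y (c r)) = c1F s l r) :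
    s = ![1, 1, 0] := by
  have hT' := c1_update (fun b hb => c1_BE h hb) hT hb0
  rw [ht0] at hT'
  obtain ⟨s2, l2, hv2, hF2⟩ := c1_row h hT' ha3
  have h1 : c1F s2 (c1coef l2) ![1, 1, 0] = 0 := by
    rw [← hF2 _ (by decide), Function.update_self]
    simp [bit, hY0]
  have h2 := c1_factA' s2 (c1coef l2) hv2 h1
  have h3 : ∀ r : Fin 3 → ZMod 2, r ≠ 0 → r ≠ ![1, 1, 0] → c1F s l r = c1F s2 (c1coef l2) r := by
    intro r hr hr1
    rw [← hF r hr, ← hF2 r hr, Function.update_of_ne hr1]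
  refine c1_factB s l (1 + c1coef l2 2) hv ⟨?_, ?_, ?_, ?_⟩
  · rw [h3 _ (by decide) (by decide)]; exact h2.1
  · rw [h3 _ (by decide) (by decide)]; exact h2.2.1
  · rw [h3 _ (by decide) (by decide)]; exact h2.2.2.1
  · rw [h3 _ (by decide) (by decide)]; exact h2.2.2.2

theorem c1_even (h : c1S M A B A₁ Y t a1 a2) {a3 b0 : α} (ha3 : a3 ∈ A₁) (hb0 : b0 ∈ B)
    (ht0 : t b0 = ![1, 1, 0]) (hY0 : a3 ∉ Y b0) {c : (Fin 3 → ZMod 2) → α} (hT : c1T M A₁ t c)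
    {a : α} (ha : a ∈ A₁) : ∃ m : Fin 3 → ZMod 2, (m 0 ≠ 0 ∨ m 1 ≠ 0) ∧
      ∀ r, c1ok r → bit (a ∈ Y (c r)) = c1dot m r := by
  obtain ⟨s, l, hv, hF⟩ := c1_row h hT ha
  have hs : s = ![1, 0, 0] ∨ s = ![0, 1, 0] ∨ s = ![1, 1, 0] := by
    by_contra hcon
    rw [not_or, not_or] at hcon
    have hok : c1ok s := ⟨hv.1, hcon.1, hcon.2.1⟩
    have haa : a3 ≠ a := by
      intro heq
      subst heq
      exact hcon.2.2 (c1_kindB h ha3 hb0 ht0 hY0 hT hv hF)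
    obtain ⟨s3, l3, hv3, hF3⟩ := c1_row h hT ha3
    have hs3 : s3 = ![1, 1, 0] := c1_kindB h ha3 hb0 ht0 hY0 hT hv3 hF3
    subst hs3
    have hok3 : c1ok ![1, 1, 0] := by decide
    have key : c (![1, 1, 0] + s) ∈ A := by
      refine lf3 h.hL h.hc ha3 ha haa hT hok3.1 hok.1 (Ne.symm hcon.2.2) (l := l3) (l' := l)
        ?_ ?_ (c1_tB h hT hok3) (c1_tB h hT hok)
      · intro r hr
        rw [hF3 r hr, c1_bit (r = _), c1_lin, c1F, if_neg (by decide : ¬ ((![1, 1, 0] :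
          Fin 3 → ZMod 2) = ![1, 0, 0] ∨ (![1, 1, 0] : Fin 3 → ZMod 2) = ![0, 1, 0]))]
      · intro r hr
        rw [hF r hr, c1_bit (r = _), c1_lin, c1F, if_neg (not_or.2 ⟨hcon.1, hcon.2.1⟩)]
    have h2 : c (![1, 1, 0] + s) ∈ B := c1_tB h hT (c1_factE s hok hcon.2.2)
    exact (Set.disjoint_left.1 h.hL.disj) key h2
  obtain ⟨m, hm, hmr⟩ := c1_factC s (c1coef l) hv hs
  exact ⟨m, hm, fun r hr => by rw [hF r hr.1]; exact hmr r hr⟩

theorem c1_global (h : c1S M A B A₁ Y t a1 a2) {a3 b0 : α} (ha3 : a3 ∈ A₁) (hb0 : b0 ∈ B)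
    (ht0 : t b0 = ![1, 1, 0]) (hY0 : a3 ∉ Y b0) {a : α} (ha : a ∈ A₁) :
    ∃ m : Fin 3 → ZMod 2, (m 0 ≠ 0 ∨ m 1 ≠ 0) ∧ ∀ b ∈ B, bit (a ∈ Y b) = c1dot m (t b) := by
  have hsurj : ∀ s : Fin 3 → ZMod 2, ∃ x : α, s ≠ 0 → x ∈ M.E \ A₁ ∧ t x = s := by
    intro s
    by_cases hs : s = 0
    · exact ⟨a1, fun h => absurd hs h⟩
    · obtain ⟨x, hx, hx'⟩ := h.hc.surj s hs
      exact ⟨x, fun _ => ⟨hx, hx'⟩⟩
  choose c hT using hsurj
  have hT' : c1T M A₁ t c := fun s hs => hT s hs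
  obtain ⟨m, hm, hmr⟩ := c1_even h ha3 hb0 ht0 hY0 hT' ha
  refine ⟨m, hm, ?_⟩
  intro b hb
  have hok := c1_ok h hb
  obtain ⟨m', _, hmr'⟩ := c1_even h ha3 hb0 ht0 hY0 (c1_update (fun b hb => c1_BE h hb) hT' hb) ha
  have h1 := hmr' (t b) hok
  rw [Function.update_self] at h1
  rw [h1]
  have h2 : c1dot (m' - m) (t b) = 0 := by
    refine c1_factD (m' - m) (t b) hok ?_
    intro r hr hrb
    have h3 := hmr' r hr
    rw [Function.update_of_ne hrb, hmr r hr] at h3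
    have : c1dot (m' - m) r = c1dot m' r - c1dot m r := by
      simp only [c1dot, Pi.sub_apply]; ring
    rw [this, h3, sub_self]
  have : c1dot (m' - m) (t b) = c1dot m' (t b) - c1dot m (t b) := by
    simp only [c1dot, Pi.sub_apply]; ring
  rw [this] at h2
  exact sub_eq_zero.1 h2

end c1sec

theorem c1_bit_eq_one {p : Prop} : bit p = 1 ↔ p := by
  unfold bit
  by_cases h : p <;> simp [h]

theorem c1_bit_true {p : Prop} (h : p) : bit p = 1 := c1_bit_eq_one.2 h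

theorem c1_bit_false {p : Prop} (h : ¬ p) : bit p = 0 := by
  unfold bit; simp [h]

/-- both elements moved to `A` -/
theorem c1_form {M : Matroid α} {A B A₁ : Set α} {Y : α → Set α} {t : α → Fin 3 → ZMod 2}
    {a1 a2 : α} (h : c1S M A B A₁ Y t a1 a2) :
    ∃ Y' : α → Set α, BinaryForm M A B Y' (fun x (_ : Fin 1) => t x 2) ∧
      (∀ b ∈ B, bit (a1 ∈ Y' b) = t b 0) ∧ (∀ b ∈ B, bit (a2 ∈ Y' b) = t b 1) ∧
      (∀ a ∈ A₁, ∀ b ∈ B, a ∈ Y' b ↔ a ∈ Y b) := by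
  have hAE : A ⊆ M.E := by rw [← h.hL.cover]; exact Set.subset_union_left
  have hA1E : A₁ ⊆ M.E := h.hc.sub.trans hAE
  have m1 := c1_a1 h
  have m2 := c1_a2 h
  have f1 := h.hc.form.move hA1E (a0 := a1) ⟨hAE m1.1, m1.2⟩
    (by rw [h.t1]; decide) h.Y1
  have f2 := f1.move (Set.insert_subset (hAE m1.1) hA1E) (a0 := a2)
    ⟨hAE m2.1, by
      rintro (hc | hc)
      · exact h.h12 hc.symm
      · exact m2.2 hc⟩
    (by
      have : (fun i : Fin 2 => t a2 i.succ) = ![1, 0] := by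
        rw [h.t2]; decide
      rw [this]; decide)
    (by
      rw [h.Y2, h.t2]
      ext z
      simp)
  have hins : insert a2 (insert a1 A₁) = A := by
    ext x
    constructor
    · rintro (hx | hx | hx)
      · rw [hx]; exact m2.1
      · rw [hx]; exact m1.1
      · exact h.hc.sub hx
    · intro hx
      by_cases hx1 : x ∈ A₁
      · exact Or.inr (Or.inr hx1)
      · have : x ∈ A \ A₁ := ⟨hx, hx1⟩
        rw [h.hA] at this
        rcases this with h3 | h3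
        · exact Or.inr (Or.inl h3)
        · exact Or.inl h3
  have hB : M.E \ A = B := by
    rw [← h.hL.cover]
    ext x
    constructor
    · rintro ⟨hx | hx, hx2⟩
      · exact absurd hx hx2
      · exact hx
    · intro hx
      exact ⟨Or.inr hx, fun hx2 => (Set.disjoint_left.1 h.hL.disj) hx2 hx⟩
  rw [hins, hB] at f2
  have hY1 : ∀ b ∈ B, a1 ∉ Y b := fun b hb hcon => m1.2 (h.hc.form.1 b (c1_BE h hb) hcon)
  have hY2 : ∀ b ∈ B, a2 ∉ Y b := fun b hb hcon => m2.2 (h.hc.form.1 b (c1_BE h hb) hcon)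
  have hz : ∀ x : ZMod 2, (x = 1 → (1 : ZMod 2) = x) ∧ (x ≠ 1 → (0 : ZMod 2) = x) := by decide
  have hte : (fun (x : α) (i : Fin 1) => (fun (x : α) (i : Fin 2) => t x i.succ) x i.succ) =
      (fun x (_ : Fin 1) => t x 2) := by
    funext x i
    fin_cases i
    rfl
  rw [hte] at f2
  refine ⟨_, f2, ?_, ?_, ?_⟩
  · intro b hb
    have h1 : (a1 ∈ (Y b ∪ {z | z = a1 ∧ t b 0 = 1}) ∪
        {z | z = a2 ∧ (fun (i : Fin 2) => t b i.succ) 0 = 1}) ↔ t b 0 = 1 := by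
      simp [hY1 b hb, h.h12]
    by_cases h2 : t b 0 = 1
    · rw [c1_bit_true (h1.2 h2)]; exact (hz _).1 h2
    · rw [c1_bit_false (fun hc => h2 (h1.1 hc))]; exact (hz _).2 h2
  · intro b hb
    have h1 : (a2 ∈ (Y b ∪ {z | z = a1 ∧ t b 0 = 1}) ∪
        {z | z = a2 ∧ (fun (i : Fin 2) => t b i.succ) 0 = 1}) ↔ t b 1 = 1 := by
      simp [hY2 b hb, h.h12.symm]
    by_cases h2 : t b 1 = 1
    · rw [c1_bit_true (h1.2 h2)]; exact (hz _).1 h2
    · rw [c1_bit_false (fun hc => h2 (h1.1 hc))]; exact (hz _).2 h2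
  · intro a ha b _
    have h1 : a ≠ a1 := fun hc => m1.2 (hc ▸ ha)
    have h2 : a ≠ a2 := fun hc => m2.2 (hc ▸ ha)
    change a ∈ (Y b ∪ {z | z = a1 ∧ t b 0 = 1}) ∪
        {z | z = a2 ∧ (fun (i : Fin 2) => t b i.succ) 0 = 1} ↔ a ∈ Y b
    simp [h1, h2]

theorem c1_X {M : Matroid α} {A B A₁ : Set α} {Y : α → Set α} {t : α → Fin 3 → ZMod 2}
    {a1 a2 : α} (h : c1S M A B A₁ Y t a1 a2) {a3 b0 : α} (ha3 : a3 ∈ A₁) (hb0 : b0 ∈ B)
    (ht0 : t b0 = ![1, 1, 0]) (hY0 : a3 ∉ Y b0) : TypeX1 M A B := by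
  classical
  obtain ⟨Y', hf, h1, h2, h3⟩ := c1_form h
  have hm : ∀ a : α, ∃ m : Fin 3 → ZMod 2, a ∈ A → (m 0 ≠ 0 ∨ m 1 ≠ 0) ∧
      ∀ b ∈ B, bit (a ∈ Y' b) = c1dot m (t b) := by
    intro a
    by_cases ha : a ∈ A₁
    · obtain ⟨m, hm, hmb⟩ := c1_global h ha3 hb0 ht0 hY0 ha
      refine ⟨m, fun _ => ⟨hm, fun b hb => ?_⟩⟩
      rw [← hmb b hb]
      exact congrArg bit (propext (h3 a ha b hb))
    · by_cases ha1 : a = a1
      · refine ⟨![1, 0, 0], fun _ => ⟨Or.inl (by decide), fun b hb => ?_⟩⟩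
        rw [ha1, h1 b hb]
        simp [c1dot]
      · refine ⟨![0, 1, 0], fun haA => ⟨Or.inr (by decide), fun b hb => ?_⟩⟩
        have : a ∈ A \ A₁ := ⟨haA, ha⟩
        rw [h.hA] at this
        rcases this with h4 | h4
        · exact absurd h4 ha1
        · rw [Set.mem_singleton_iff.1 h4, h2 b hb]
          simp [c1dot]
  choose m hm using hm
  have hAE : A ⊆ M.E := by rw [← h.hL.cover]; exact Set.subset_union_left
  have hf2 := hf.shear (h.hL.fin.subset hAE)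
    (fun a => (m a 2) • (LinearMap.proj (0 : Fin 1) : (Fin 1 → ZMod 2) →ₗ[ZMod 2] ZMod 2))
  have hmem : ∀ b ∈ B, {a | a ∈ A ∧ bit (a ∈ Y' b) + ((m a 2) •
      (LinearMap.proj (0 : Fin 1) : (Fin 1 → ZMod 2) →ₗ[ZMod 2] ZMod 2))
      ((fun (x : α) (_ : Fin 1) => t x 2) b) = 1} =
      {a | a ∈ A ∧ m a 0 * t b 0 + m a 1 * t b 1 = 1} := by
    intro b hb
    ext a
    refine and_congr_right fun ha => ?_
    rw [(hm a ha).2 b hb]
    have e1 : ((m a 2) • (LinearMap.proj (0 : Fin 1) : (Fin 1 → ZMod 2) →ₗ[ZMod 2] ZMod 2))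
      ((fun (x : α) (_ : Fin 1) => t x 2) b) = m a 2 * t b 2 := by
      simp
    rw [e1, c1dot]
    have e2 : ∀ x y : ZMod 2, x + y + y = x := by decide
    rw [e2]
  refine ⟨_, _, hf2, {a | a ∈ A ∧ m a 0 = 1 ∧ m a 1 = 0}, {a | a ∈ A ∧ m a 0 = 0 ∧ m a 1 = 1},
    {a | a ∈ A ∧ m a 0 = 1 ∧ m a 1 = 1}, ?_, ?_, ?_, ?_, ?_, ?_⟩
  · ext a
    have e3 : ∀ x y : ZMod 2, (x ≠ 0 ∨ y ≠ 0) → ((x = 1 ∧ y = 0) ∨ (x = 0 ∧ y = 1)) ∨
      (x = 1 ∧ y = 1) := by decide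
    constructor
    · rintro ((hx | hx) | hx) <;> exact hx.1
    · intro ha
      rcases e3 _ _ (hm a ha).1 with (hx | hx) | hx
      · exact Or.inl (Or.inl ⟨ha, hx⟩)
      · exact Or.inl (Or.inr ⟨ha, hx⟩)
      · exact Or.inr ⟨ha, hx⟩
  · rw [Set.disjoint_left]
    rintro a ⟨_, hx, _⟩ ⟨_, hy, _⟩
    rw [hx] at hy
    exact absurd hy (by decide)
  · rw [Set.disjoint_left]
    rintro a ⟨_, _, hx⟩ ⟨_, _, hy⟩
    rw [hx] at hy
    exact absurd hy (by decide)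
  · rw [Set.disjoint_left]
    rintro a ⟨_, hx, _⟩ ⟨_, hy, _⟩
    rw [hx] at hy
    exact absurd hy (by decide)
  · intro b hb hb2
    have hb2' : t b 2 = 0 := congrFun hb2 0
    have htb := c1_factG (t b) (c1_ok h hb) hb2'
    change {a | a ∈ A ∧ bit (a ∈ Y' b) + ((m a 2) •
      (LinearMap.proj (0 : Fin 1) : (Fin 1 → ZMod 2) →ₗ[ZMod 2] ZMod 2))
      ((fun (x : α) (_ : Fin 1) => t x 2) b) = 1} = _
    rw [hmem b hb, htb]
    ext a
    have e4 : ∀ x y : ZMod 2, x * 1 + y * 1 = 1 ↔ ((x = 1 ∧ y = 0) ∨ (x = 0 ∧ y = 1)) := by decide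
    change (a ∈ A ∧ m a 0 * 1 + m a 1 * 1 = 1) ↔
      ((a ∈ A ∧ m a 0 = 1 ∧ m a 1 = 0) ∨ (a ∈ A ∧ m a 0 = 0 ∧ m a 1 = 1))
    rw [e4, and_or_left]
  · intro b hb hb2
    change ({a | a ∈ A ∧ bit (a ∈ Y' b) + ((m a 2) •
      (LinearMap.proj (0 : Fin 1) : (Fin 1 → ZMod 2) →ₗ[ZMod 2] ZMod 2))
      ((fun (x : α) (_ : Fin 1) => t x 2) b) = 1} = _) ∨ _ = _ ∨ _ = _ ∨ _ = _
    rw [hmem b hb]
    have e5 : ∀ x : ZMod 2, x = 0 ∨ x = 1 := by decide
    rcases e5 (t b 0) with hx | hx <;> rcases e5 (t b 1) with hy | hy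
    · refine Or.inl ?_
      ext a
      change (a ∈ A ∧ m a 0 * t b 0 + m a 1 * t b 1 = 1) ↔ False
      rw [hx, hy]
      have e4 : ∀ x y : ZMod 2, x * 0 + y * 0 = 1 ↔ False := by decide
      rw [e4, and_false]
    · refine Or.inr (Or.inr (Or.inr ?_))
      ext a
      change (a ∈ A ∧ m a 0 * t b 0 + m a 1 * t b 1 = 1) ↔
        ((a ∈ A ∧ m a 0 = 0 ∧ m a 1 = 1) ∨ (a ∈ A ∧ m a 0 = 1 ∧ m a 1 = 1))
      rw [hx, hy]
      have e4 : ∀ x y : ZMod 2, x * 0 + y * 1 = 1 ↔ ((x = 0 ∧ y = 1) ∨ (x = 1 ∧ y = 1)) := by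
        decide
      rw [e4, and_or_left]
    · refine Or.inr (Or.inr (Or.inl ?_))
      ext a
      change (a ∈ A ∧ m a 0 * t b 0 + m a 1 * t b 1 = 1) ↔
        ((a ∈ A ∧ m a 0 = 1 ∧ m a 1 = 0) ∨ (a ∈ A ∧ m a 0 = 1 ∧ m a 1 = 1))
      rw [hx, hy]
      have e4 : ∀ x y : ZMod 2, x * 1 + y * 0 = 1 ↔ ((x = 1 ∧ y = 0) ∨ (x = 1 ∧ y = 1)) := by
        decide
      rw [e4, and_or_left]
    · refine Or.inr (Or.inl ?_)
      ext a
      change (a ∈ A ∧ m a 0 * t b 0 + m a 1 * t b 1 = 1) ↔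
        ((a ∈ A ∧ m a 0 = 1 ∧ m a 1 = 0) ∨ (a ∈ A ∧ m a 0 = 0 ∧ m a 1 = 1))
      rw [hx, hy]
      have e4 : ∀ x y : ZMod 2, x * 1 + y * 1 = 1 ↔ ((x = 1 ∧ y = 0) ∨ (x = 0 ∧ y = 1)) := by
        decide
      rw [e4, and_or_left]

theorem c1_W {M : Matroid α} {A B A₁ : Set α} {Y : α → Set α} {t : α → Fin 3 → ZMod 2}
    {a1 a2 : α} (h : c1S M A B A₁ Y t a1 a2)
    (hW : ∀ a ∈ A₁, ∀ b ∈ B, t b = ![1, 1, 0] → a ∈ Y b) : TypeW1 M A B := by
  obtain ⟨Y', hf, h1, h2, h3⟩ := c1_form h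
  refine typeW1_of_form h.hL hf ?_ ?_
  · intro b hb hb2
    have hb2' : t b 2 = 0 := congrFun hb2 0
    have htb := c1_factG (t b) (c1_ok h hb) hb2'
    refine Set.Subset.antisymm (hf.1 b hb) ?_
    intro a ha
    by_cases ha1 : a ∈ A₁
    · exact (h3 a ha1 b hb).2 (hW a ha1 b hb htb)
    · have : a ∈ A \ A₁ := ⟨ha, ha1⟩
      rw [h.hA] at this
      rcases this with h4 | h4
      · rw [h4]
        refine c1_bit_eq_one.1 ?_
        rw [h1 b hb, htb]; rfl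
      · rw [Set.mem_singleton_iff.1 h4]
        refine c1_bit_eq_one.1 ?_
        rw [h2 b hb, htb]; rfl
  · obtain ⟨x, hx, hx'⟩ := h.hc.surj ![1, 1, 0] (by decide)
    refine ⟨x, c1_inB h hx (by rw [hx']; decide), ?_⟩
    funext i
    change t x 2 = 0
    rw [hx']; rfl

/-
JOB C1 (two elements of A in the core: type W1 or X1).
PLAIN WORDS. Let A \ A₁ = {a1, a2}. By C7.norm (r 0 = a1, r 1 = a2, r 2 any independent) assume
t a1 = 100, t a2 = 010, Y a1 = Y a2 = ∅. By lf1 the points of elements of B are 110 and the four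
points (x, y, 1). Every transversal c has c 100 = a1, c 010 = a2. lf2 at the points 100, 010, where
the left side is 0, gives for a ∈ A₁ one of (λ a constant, l s' = ... + λ s'_2):
 (α1) s = 100: row on B is s'_0 + λ s'_2;   (α2) s = 010: row on B is s'_1 + λ s'_2;
 (β) s = 110: row is 0 at 110 and 1 + s'_0 + s'_1 + λ at (·,·,1), i.e. s'_0 + s'_1 + λ' there;
 (γ) s = (x, y, 1): row is 1 at 110 and [s' = s] + 1 + s'_0 + s'_1 + λ at (·,·,1): one of the four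
     values differs from the three others.
 Move a1, a2 to A (`BinaryForm.move` twice): BinaryForm M A B Y' t' with t' b = t b 2 ∈ GF(2)^1.
 B₀ = {b ∈ B | t' b = 0} consists of the b with t b = 110, B₁ of the others.
Case X: for some a3 ∈ A₁ and some transversal c the row a3 is of kind (β), i.e. a3 ∉ Y (c 110).
 (1) Row a3 is of kind (β) on every transversal and is the same function of t b on B (up to
 nothing: for b ∈ B replace c (t b) by b; the new row differs in at most one value; it must again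
 be one of the kinds; if the value at 110 changed, the kind would change from (β) to another while the
 four other values have even parity pattern s0 + s1 + λ', not of kind α1, α2 or γ: impossible; if a
 value at (·,·,1) changed, the parity of the number of ones at these four points changes,
 while the value at 110 remains 0, which only (β) allows, and (β) has even parity: impossible.)
 (2) Row a ∈ A₁ on a transversal c is not of kind (γ): by lf3 with a3, s = 110, s' = (x, y, 1):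
 c (s + s') ∈ A is false as s + s' has last coordinate 1. So it is of kind α1, α2 or β on every
 transversal; the four values at (·,·,1) have even parity, so replacing one element of c does not
 change any of these; replacing c 110 changes neither (kind β iff the four values are s0 + s1 + λ).
 So there is a fixed kind κ(a) ∈ {1, 2, 3} and λ_a such that for all b ∈ B
 bit (a ∈ Y b) = (t b 0, t b 1 or t b 0 + t b 1 according to κ(a)) + λ_a t b 2. Put κ(a1) = 1,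
 κ(a2) = 2. Shear by λ_a in the form M A B Y' t'. A_i = {a ∈ A | κ a = i}: Y' b = A₁ ∪ A₂ for
 t' b = 0 and for t' b = 1: ∅, A₁ ∪ A₃ (t b = 101), A₂ ∪ A₃ (t b = 011), A₁ ∪ A₂ (t b = 111).
 Type X1.
Case W: no such a3. Then Y' b = A for all b ∈ B₀ (every row in A₁ has kind α1, α2 or γ on every transversal
 through b, value 1 at 110; the rows a1, a2 too), and B₀ is nonempty (surj at 110): use the given theorem
 `typeW1_of_form`.
-/
theorem typeW1X1_of_c7 {M : Matroid α} {A B A₁ : Set α} {Y : α → Set α}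
    {t : α → Fin 3 → ZMod 2} (hL : Lab M A B) (hc : C7 M A B A₁ Y t) {a1 a2 : α} (h12 : a1 ≠ a2)
    (h : A \ A₁ = {a1, a2}) : TypeW1 M A B ∨ TypeX1 M A B := by
  have hAE : A ⊆ M.E := by rw [← hL.cover]; exact Set.subset_union_left
  have m1 : a1 ∈ A \ A₁ := by rw [h]; exact Or.inl rfl
  have m2 : a2 ∈ A \ A₁ := by rw [h]; exact Or.inr rfl
  obtain ⟨s, hs0, hs⟩ := c1_factF (t a1) (t a2) (hc.ne a1 m1) (hc.ne a2 m2)
    (fun heq => h12 (hc.inj m1 m2 heq))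
  obtain ⟨x, hx, hxs⟩ := hc.surj s hs0
  obtain ⟨Y', t', hc', _, hr⟩ := hc.norm hL.fin hAE ![a1, a2, x] (by
      intro i
      fin_cases i
      · exact ⟨hAE m1.1, m1.2⟩
      · exact ⟨hAE m2.1, m2.2⟩
      · exact hx) (by
      rw [Fintype.linearIndependent_iff]
      intro g hg
      rw [Fin.sum_univ_three] at hg
      have h1 := hs (g 0) (g 1) (g 2) (by
        rw [← hxs]
        exact hg)
      intro i
      fin_cases i
      · exact h1.1
      · exact h1.2.1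
      · exact h1.2.2)
  have hS : c1S M A B A₁ Y' t' a1 a2 := by
    refine ⟨hL, hc', h12, h, ?_, ?_, (hr 0).2, (hr 1).2⟩
    · refine (hr 0).1.trans ?_
      decide
    · refine (hr 1).1.trans ?_
      decide
  by_cases hX : ∃ a ∈ A₁, ∃ b ∈ B, t' b = ![1, 1, 0] ∧ a ∉ Y' b
  · obtain ⟨a3, ha3, b0, hb0, ht0, hY0⟩ := hX
    exact Or.inr (c1_X hS ha3 hb0 ht0 hY0)
  · refine Or.inl (c1_W hS ?_)
    intro a ha b hb htb
    by_contra hcon
    exact hX ⟨a, ha, b, hb, htb, hcon⟩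

end Pool.Agent.Helper43_EOR
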