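import Mathlib
import Pool.Agent.Helper43_EOR.F7
import Pool.Agent.Helper43_EOR.L1

set_option autoImplicit false

namespace Pool.Agent.Helper43_EOR

open Set Matroid

variable {α : Type*}

/- ======== JOB C2 (done by helper177) ======== -/

theorem C2_bit_of {p : Prop} (h : p) : bit p = 1 := by
  unfold bit
  rw [if_pos h]

theorem C2_bit_not {p : Prop} (h : ¬ p) : bit p = 0 := by
  unfold bit
  rw [if_neg h]

theorem C2_bit_iff {p : Prop} : bit p = 1 ↔ p := by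
  by_cases h : p
  · exact ⟨fun _ => h, fun _ => C2_bit_of h⟩
  · refine ⟨fun h1 => ?_, fun h1 => absurd h1 h⟩
    rw [C2_bit_not h] at h1
    exact absurd h1 (by decide)

/-- the projection forgetting the first coordinate -/
def C2_pr (s : Fin 3 → ZMod 2) : Fin 2 → ZMod 2 := fun i => s i.succ

theorem C2_pr_add (s s' : Fin 3 → ZMod 2) : C2_pr (s + s') = C2_pr s + C2_pr s' := rfl

/-- the first unit vector -/
def C2_e : Fin 3 → ZMod 2 := Pi.single 0 1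

theorem C2_pr_e : C2_pr C2_e = 0 := by
  funext i
  fin_cases i <;> rfl

theorem C2_pr_ne {s : Fin 3 → ZMod 2} (h0 : s ≠ 0) (h1 : s ≠ C2_e) : C2_pr s ≠ 0 := by
  revert s
  unfold C2_pr C2_e
  decide

theorem C2_ne_of_pr {s : Fin 3 → ZMod 2} (h : C2_pr s ≠ 0) : s ≠ 0 ∧ s ≠ C2_e := by
  revert s
  unfold C2_pr C2_e
  decide

theorem C2_pr_eq {s s' : Fin 3 → ZMod 2} (h : C2_pr s = C2_pr s') : s' = s ∨ s' = s + C2_e := by
  revert s s'
  unfold C2_pr C2_e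
  decide

theorem C2_add_e_ne (s : Fin 3 → ZMod 2) : s + C2_e ≠ s := by
  revert s
  unfold C2_e
  decide

theorem C2_add_e_e (s : Fin 3 → ZMod 2) : s + C2_e + C2_e = s := by
  revert s
  unfold C2_e
  decide

theorem C2_pr_add_e (s : Fin 3 → ZMod 2) : C2_pr (s + C2_e) = C2_pr s := by
  rw [C2_pr_add, C2_pr_e, add_zero]

/-- the embedding of the plane -/
def C2_em (z : Fin 2 → ZMod 2) : Fin 3 → ZMod 2 := ![0, z 0, z 1]

theorem C2_lin (l : (Fin 3 → ZMod 2) →ₗ[ZMod 2] ZMod 2) (hl : l C2_e = 1) :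
    ∃ l' : (Fin 2 → ZMod 2) →ₗ[ZMod 2] ZMod 2, ∀ s, l s = s 0 + l' (C2_pr s) := by
  let em : (Fin 2 → ZMod 2) →ₗ[ZMod 2] (Fin 3 → ZMod 2) :=
    { toFun := C2_em
      map_add' := by
        intro x y
        funext i
        fin_cases i <;> simp [C2_em]
      map_smul' := by
        intro c x
        funext i
        fin_cases i <;> simp [C2_em] }
  refine ⟨l.comp em, ?_⟩
  · intro s
    have h : s = s 0 • C2_e + C2_em (C2_pr s) := by
      revert s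
      unfold C2_e C2_em C2_pr
      decide
    conv_lhs => rw [h]
    rw [map_add, map_smul, hl, smul_eq_mul, mul_one]
    rfl

/-- the functional vanishing at `σ` -/
def C2_m (σ : Fin 2 → ZMod 2) : (Fin 2 → ZMod 2) →ₗ[ZMod 2] ZMod 2 where
  toFun z := σ 1 * z 0 + σ 0 * z 1
  map_add' x y := by simp only [Pi.add_apply]; ring
  map_smul' c x := by simp only [Pi.smul_apply, smul_eq_mul, RingHom.id_apply]; ring

theorem C2_m_eq {σ z : Fin 2 → ZMod 2} (hσ : σ ≠ 0) (hz : z ≠ 0) :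
    C2_m σ z = bit (z = σ) + 1 := by
  have h : (σ 1 * z 0 + σ 0 * z 1) = (if z = σ then 1 else 0) + 1 := by
    revert σ z
    decide
  show (σ 1 * z 0 + σ 0 * z 1) = _
  rw [h]
  by_cases h2 : z = σ
  · rw [if_pos h2, C2_bit_of h2]
  · rw [if_neg h2, C2_bit_not h2]

section main
variable {M : Matroid α} {A B A₁ : Set α} {Y : α → Set α} {t : α → Fin 3 → ZMod 2}

/-- row `a` at the element `x`, plus the first coordinate -/
noncomputable def C2_f (Y : α → Set α) (t : α → Fin 3 → ZMod 2) (a x : α) : ZMod 2 :=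
  bit (a ∈ Y x) + t x 0

theorem C2_sub (hL : Lab M A B) (hc : C7 M A B A₁ Y t) {b : α} (hb : b ∈ B) :
    b ∈ M.E \ A₁ := by
  refine ⟨?_, fun h => ?_⟩
  · rw [← hL.cover]; exact Or.inr hb
  · exact (Set.disjoint_left.1 hL.disj (hc.sub h)) hb

theorem C2_mem (hL : Lab M A B) {a0 : α} (h0 : A \ A₁ = {a0})
    (ht0 : t a0 = C2_e) {x : α} (hx : x ∈ M.E \ A₁) (hx' : t x ≠ C2_e) : x ∈ B := by
  have h1 : x ∈ A ∪ B := by rw [hL.cover]; exact hx.1
  rcases h1 with h1 | h1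
  · exfalso
    have h2 : x ∈ A \ A₁ := ⟨h1, hx.2⟩
    rw [h0, mem_singleton_iff] at h2
    exact hx' (by rw [h2, ht0])
  · exact h1

theorem C2_tB (hL : Lab M A B) (hc : C7 M A B A₁ Y t) {a0 : α} (h0 : A \ A₁ = {a0})
    (ht0 : t a0 = C2_e) {b : α} (hb : b ∈ B) : t b ≠ 0 ∧ t b ≠ C2_e := by
  obtain ⟨h1, h2⟩ := lf1 hL hc b hb
  refine ⟨h1, ?_⟩
  have := h2 a0 (by rw [h0]; rfl)
  rwa [ht0] at this

/-- the statement (*) -/
theorem C2_star (hL : Lab M A B) (hc : C7 M A B A₁ Y t) {a0 : α} (h0 : A \ A₁ = {a0})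
    (ht0 : t a0 = C2_e) (hY0 : Y a0 = ∅) {a : α} (ha : a ∈ A₁)
    {c : (Fin 3 → ZMod 2) → α} (hct : ∀ s ≠ 0, c s ∈ M.E \ A₁ ∧ t (c s) = s) :
    ∃ (l' : (Fin 2 → ZMod 2) →ₗ[ZMod 2] ZMod 2) (u : Fin 3 → ZMod 2),
      (∀ s ≠ 0, s ≠ C2_e → C2_f Y t a (c s) = l' (C2_pr s) + bit (s = u)) ∧
      (u ≠ 0 → u ≠ C2_e → ∃ l : (Fin 3 → ZMod 2) →ₗ[ZMod 2] ZMod 2,
        ∀ r ≠ 0, bit (a ∈ Y (c r)) = bit (r = u + C2_e) + 1 + l r) := by
  obtain ⟨s, hs, l, hl⟩ := lf2 hL hc ha hct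
  have he0 : C2_e ≠ 0 := by unfold C2_e; decide
  have hce : c C2_e = a0 := by
    by_contra hne
    have h1 := hct C2_e he0
    have h2 : c C2_e ∉ B := fun hB => (C2_tB hL hc h0 ht0 hB).2 h1.2
    have h3 : c C2_e ∈ A ∪ B := by rw [hL.cover]; exact h1.1.1
    rcases h3 with h3 | h3
    · have h4 : c C2_e ∈ A \ A₁ := ⟨h3, h1.1.2⟩
      rw [h0, mem_singleton_iff] at h4
      exact hne h4
    · exact h2 h3
  have h1 := hl C2_e he0
  rw [hce, hY0, C2_bit_not (notMem_empty a)] at h1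
  have ha0B : a0 ∉ B := by
    intro h
    have : a0 ∈ A \ A₁ := by rw [h0]; rfl
    exact Set.disjoint_left.1 hL.disj this.1 h
  by_cases hse : s = C2_e
  · -- `s = e`
    subst hse
    rw [C2_bit_of rfl, hce, C2_bit_not ha0B, add_zero] at h1
    have hl1 : l C2_e = 1 := by
      have : ∀ x : ZMod 2, 0 = 1 + x → x = 1 := by decide
      exact this _ h1
    obtain ⟨l', hl'⟩ := C2_lin l hl1
    refine ⟨l', 0, ?_, fun h => absurd rfl h⟩
    intro r hr0 hre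
    unfold C2_f
    rw [hl r hr0, (hct r hr0).2, C2_bit_not hre, hce, C2_bit_not ha0B, hl' r, C2_bit_not hr0]
    have : ∀ x y : ZMod 2, 0 + 0 + (x + y) + x = y + 0 := by decide
    exact this _ _
  · have hcsB : c s ∈ B := C2_mem hL h0 ht0 (hct s hs).1 (by rw [(hct s hs).2]; exact hse)
    rw [C2_bit_not (Ne.symm hse), C2_bit_of hcsB, zero_add] at h1
    have hl1 : l C2_e = 1 := by
      have : ∀ x : ZMod 2, 0 = 1 + x → x = 1 := by decide
      exact this _ h1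
    obtain ⟨l', hl'⟩ := C2_lin l hl1
    have hprs := C2_pr_ne hs hse
    refine ⟨l' + C2_m (C2_pr s), s + C2_e, ?_, fun _ _ => ⟨l, ?_⟩⟩
    · intro r hr0 hre
      unfold C2_f
      rw [hl r hr0, (hct r hr0).2, C2_bit_of hcsB, hl' r, LinearMap.add_apply,
        C2_m_eq hprs (C2_pr_ne hr0 hre)]
      have key : bit (r = s) + bit (r = s + C2_e) = bit (C2_pr r = C2_pr s) := by
        by_cases h2 : C2_pr r = C2_pr s
        · rw [C2_bit_of h2]
          rcases C2_pr_eq h2.symm with h3 | h3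
          · rw [C2_bit_of h3, C2_bit_not, add_zero]
            rw [h3]; exact (C2_add_e_ne s).symm
          · rw [C2_bit_of h3, C2_bit_not, zero_add]
            rw [h3]; exact (C2_add_e_ne s)
        · rw [C2_bit_not h2, C2_bit_not, C2_bit_not, add_zero]
          · intro h3; exact h2 (by rw [h3, C2_pr_add_e])
          · intro h3; exact h2 (by rw [h3])
      rw [← key]
      have : ∀ x y p q : ZMod 2, p + 1 + (x + y) + x = y + (p + q + 1) + q := by decide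
      exact this _ _ _ _
    · intro r hr0
      rw [C2_add_e_e, hl r hr0, C2_bit_of hcsB]

theorem C2_update [DecidableEq (Fin 3 → ZMod 2)] (hL : Lab M A B) (hc : C7 M A B A₁ Y t)
    {c : (Fin 3 → ZMod 2) → α} (hct : ∀ s ≠ 0, c s ∈ M.E \ A₁ ∧ t (c s) = s) {b : α}
    (hb : b ∈ B) : ∀ s ≠ 0, Function.update c (t b) b s ∈ M.E \ A₁ ∧
      t (Function.update c (t b) b s) = s := by
  intro s hs
  by_cases h : s = t b
  · subst h
    rw [Function.update_self]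
    exact ⟨C2_sub hL hc hb, rfl⟩
  · rw [Function.update_of_ne h]
    exact hct s hs

theorem C2_step1 (hL : Lab M A B) (hc : C7 M A B A₁ Y t) {a0 : α} (h0 : A \ A₁ = {a0})
    (ht0 : t a0 = C2_e) (hY0 : Y a0 = ∅) {a : α} (ha : a ∈ A₁) :
    ∃ (l : (Fin 2 → ZMod 2) →ₗ[ZMod 2] ZMod 2) (σ : Fin 2 → ZMod 2), σ ≠ 0 ∧
      ∀ b ∈ B, C2_pr (t b) ≠ σ → C2_f Y t a b = l (C2_pr (t b)) := by
  classical
  -- a transversal
  have hex : ∀ s : Fin 3 → ZMod 2, s ≠ 0 → ∃ x, x ∈ M.E \ A₁ ∧ t x = s := fun s hs => by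
    obtain ⟨x, h1, h2⟩ := hc.surj s hs
    exact ⟨x, h1, h2⟩
  have : Nonempty α := ⟨a⟩
  choose! c hct using hex
  obtain ⟨l', u, hu, -⟩ := C2_star hL hc h0 ht0 hY0 ha hct
  by_cases hdev : ∃ b1 ∈ B, C2_f Y t a b1 ≠ l' (C2_pr (t b1))
  swap
  · push Not at hdev
    exact ⟨l', ![1, 1], by decide, fun b hb _ => hdev b hb⟩
  -- a transversal with exactly one deviation
  obtain ⟨c1, b1, hb1, hc1t, hc1b, hc1⟩ : ∃ (c1 : (Fin 3 → ZMod 2) → α) (b1 : α), b1 ∈ B ∧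
      (∀ s ≠ 0, c1 s ∈ M.E \ A₁ ∧ t (c1 s) = s) ∧ c1 (t b1) = b1 ∧
      ∀ s ≠ 0, s ≠ C2_e → C2_f Y t a (c1 s) = l' (C2_pr s) + bit (s = t b1) := by
    by_cases hup : u ≠ 0 ∧ u ≠ C2_e
    · obtain ⟨hu0, hue⟩ := hup
      have h1 := hct u hu0
      refine ⟨c, c u, C2_mem hL h0 ht0 h1.1 (by rw [h1.2]; exact hue), hct, by rw [h1.2], ?_⟩
      intro s hs0 hse
      rw [h1.2]
      exact hu s hs0 hse
    · obtain ⟨b1, hb1, hd⟩ := hdev
      refine ⟨Function.update c (t b1) b1, b1, hb1, C2_update hL hc hct hb1,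
        Function.update_self _ _ _, ?_⟩
      intro s hs0 hse
      by_cases hs : s = t b1
      · subst hs
        rw [Function.update_self, C2_bit_of rfl]
        have : ∀ x y : ZMod 2, x ≠ y → x = y + 1 := by decide
        exact this _ _ hd
      · rw [Function.update_of_ne hs, C2_bit_not hs, hu s hs0 hse, C2_bit_not]
        rintro rfl
        exact hup ⟨hs0, hse⟩
  have hb1t := C2_tB hL hc h0 ht0 hb1
  have hpr1 := C2_pr_ne hb1t.1 hb1t.2
  refine ⟨l', C2_pr (t b1), hpr1, ?_⟩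
  intro b hb hne
  by_contra hdb
  have hbt := C2_tB hL hc h0 ht0 hb
  have hprb := C2_pr_ne hbt.1 hbt.2
  set c2 := Function.update c1 (t b) b with hc2
  obtain ⟨l'', u'', hu'', -⟩ := C2_star hL hc h0 ht0 hY0 ha (C2_update hL hc hc1t hb)
  have hz : ∀ x y z w : ZMod 2, x + 1 = y + z → x = y + w → 1 = z + w := by decide
  have hone : ∀ p q : Prop, 1 = bit p + bit q → p ∨ q := by
    intro p q h
    by_contra hcon
    push Not at hcon
    rw [C2_bit_not hcon.1, C2_bit_not hcon.2] at h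
    exact absurd h (by decide)
  -- at the points over `t b1`
  have hA : C2_pr u'' = C2_pr (t b1) := by
    have hn1 : t b1 ≠ t b := fun h => hne (by rw [h])
    have hn2 : t b1 + C2_e ≠ t b := fun h => hne (by rw [← h, C2_pr_add_e])
    have hp2 : C2_pr (t b1 + C2_e) ≠ 0 := by rw [C2_pr_add_e]; exact hpr1
    have e1 := hu'' (t b1) hb1t.1 hb1t.2
    have e2 := hu'' (t b1 + C2_e) (C2_ne_of_pr hp2).1 (C2_ne_of_pr hp2).2
    rw [Function.update_of_ne hn1, hc1 _ hb1t.1 hb1t.2, C2_bit_of rfl] at e1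
    rw [Function.update_of_ne hn2, hc1 _ (C2_ne_of_pr hp2).1 (C2_ne_of_pr hp2).2,
      C2_bit_not (C2_add_e_ne _), add_zero, C2_pr_add_e] at e2
    rcases hone _ _ (hz _ _ _ _ e1 e2) with h | h
    · rw [h]
    · rw [← h, C2_pr_add_e]
  have hB : C2_pr u'' = C2_pr (t b) := by
    have hn2 : t b + C2_e ≠ t b := C2_add_e_ne _
    have hn3 : t b + C2_e ≠ t b1 := fun h => hne (by rw [← h, C2_pr_add_e])
    have hp2 : C2_pr (t b + C2_e) ≠ 0 := by rw [C2_pr_add_e]; exact hprb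
    have e1 := hu'' (t b) hbt.1 hbt.2
    have e2 := hu'' (t b + C2_e) (C2_ne_of_pr hp2).1 (C2_ne_of_pr hp2).2
    rw [Function.update_self] at e1
    rw [Function.update_of_ne hn2, hc1 _ (C2_ne_of_pr hp2).1 (C2_ne_of_pr hp2).2,
      C2_bit_not hn3, add_zero, C2_pr_add_e] at e2
    have hd : C2_f Y t a b = l' (C2_pr (t b)) + 1 := by
      have : ∀ x y : ZMod 2, x ≠ y → x = y + 1 := by decide
      exact this _ _ hdb
    rw [hd] at e1
    rcases hone _ _ (hz _ _ _ _ e1 e2) with h | h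
    · rw [h]
    · rw [← h, C2_pr_add_e]
  exact hne (by rw [← hB, hA])

/-- the lf2 form for an essential row -/
theorem C2_ess (hL : Lab M A B) (hc : C7 M A B A₁ Y t) {a0 : α} (h0 : A \ A₁ = {a0})
    (ht0 : t a0 = C2_e) (hY0 : Y a0 = ∅) {a : α} (ha : a ∈ A₁)
    {l : (Fin 2 → ZMod 2) →ₗ[ZMod 2] ZMod 2}
    {σ : Fin 2 → ZMod 2} (hl : ∀ b ∈ B, C2_pr (t b) ≠ σ → C2_f Y t a b = l (C2_pr (t b)))
    {b : α} (hb : b ∈ B) (hbd : C2_f Y t a b ≠ l (C2_pr (t b)))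
    {c : (Fin 3 → ZMod 2) → α} (hct : ∀ s ≠ 0, c s ∈ M.E \ A₁ ∧ t (c s) = s) (hcb : c (t b) = b) :
    ∃ l : (Fin 3 → ZMod 2) →ₗ[ZMod 2] ZMod 2,
        ∀ r ≠ 0, bit (a ∈ Y (c r)) = bit (r = t b + C2_e) + 1 + l r := by
  have hbt := C2_tB hL hc h0 ht0 hb
  have hprb := C2_pr_ne hbt.1 hbt.2
  have hσ : C2_pr (t b) = σ := by
    by_contra h
    exact hbd (hl b hb h)
  obtain ⟨l'', u, hu, hform⟩ := C2_star hL hc h0 ht0 hY0 ha hct
  -- away from `σ`
  have haway : ∀ τ : Fin 2 → ZMod 2, τ ≠ 0 → τ ≠ σ → l'' τ = l τ := by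
    intro τ hτ0 hτσ
    obtain ⟨s, hs⟩ : ∃ s : Fin 3 → ZMod 2, C2_pr s = τ := ⟨![0, τ 0, τ 1], by
      funext i
      fin_cases i <;> rfl⟩
    have hs0 := C2_ne_of_pr (s := s) (by rw [hs]; exact hτ0)
    have hs1 := C2_ne_of_pr (s := s + C2_e) (by rw [C2_pr_add_e, hs]; exact hτ0)
    have g : ∀ s : Fin 3 → ZMod 2, C2_pr s = τ → s ≠ 0 → s ≠ C2_e →
        l τ = l'' τ + bit (s = u) := by
      intro s hs h1 h2
      have h3 := hct s h1
      have h4 : c s ∈ B := C2_mem hL h0 ht0 h3.1 (by rw [h3.2]; exact h2)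
      have h5 := hl (c s) h4 (by rw [h3.2, hs]; exact hτσ)
      rw [h3.2, hs] at h5
      rw [← h5, hu s h1 h2, hs]
    have g1 := g s hs hs0.1 hs0.2
    have g2 := g (s + C2_e) (by rw [C2_pr_add_e, hs]) hs1.1 hs1.2
    by_cases h : s = u
    · rw [C2_bit_not, add_zero] at g2
      · exact g2.symm
      · rw [← h]; exact C2_add_e_ne s
    · rw [C2_bit_not h, add_zero] at g1
      exact g1.symm
  have hσ0 : σ ≠ 0 := by rw [← hσ]; exact hprb
  have hat : l'' σ = l σ := by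
    obtain ⟨τ1, τ2, h1, h2, h3, h4, h5⟩ : ∃ τ1 τ2 : Fin 2 → ZMod 2, τ1 ≠ 0 ∧ τ1 ≠ σ ∧ τ2 ≠ 0 ∧
        τ2 ≠ σ ∧ τ1 + τ2 = σ := by
      revert hσ0
      generalize σ = σ'
      revert σ'
      decide
    rw [← h5, map_add, map_add, haway τ1 h1 h2, haway τ2 h3 h4]
  have e1 := hu (t b) hbt.1 hbt.2
  rw [hcb, hσ, hat] at e1
  have hub : t b = u := by
    by_contra h
    rw [C2_bit_not h, add_zero] at e1
    exact hbd (by rw [e1, hσ])
  rw [hub]
  exact hform (by rw [← hub]; exact hbt.1) (by rw [← hub]; exact hbt.2)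

theorem C2_step2 (hL : Lab M A B) (hc : C7 M A B A₁ Y t) {a0 : α} (h0 : A \ A₁ = {a0})
    (ht0 : t a0 = C2_e) (hY0 : Y a0 = ∅) {a a' : α} (ha : a ∈ A₁) (ha' : a' ∈ A₁)
    (haa : a ≠ a')
    {l l' : (Fin 2 → ZMod 2) →ₗ[ZMod 2] ZMod 2} {σ σ' : Fin 2 → ZMod 2}
    (hl : ∀ b ∈ B, C2_pr (t b) ≠ σ → C2_f Y t a b = l (C2_pr (t b)))
    (hl' : ∀ b ∈ B, C2_pr (t b) ≠ σ' → C2_f Y t a' b = l' (C2_pr (t b)))
    {b : α} (hb : b ∈ B) (hbd : C2_f Y t a b ≠ l (C2_pr (t b)))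
    {b' : α} (hb' : b' ∈ B) (hbd' : C2_f Y t a' b' ≠ l' (C2_pr (t b'))) : σ = σ' := by
  classical
  by_contra hne
  have hσ : C2_pr (t b) = σ := by
    by_contra h
    exact hbd (hl b hb h)
  have hσ' : C2_pr (t b') = σ' := by
    by_contra h
    exact hbd' (hl' b' hb' h)
  have hex : ∀ s : Fin 3 → ZMod 2, s ≠ 0 → ∃ x, x ∈ M.E \ A₁ ∧ t x = s := fun s hs => by
    obtain ⟨x, h1, h2⟩ := hc.surj s hs
    exact ⟨x, h1, h2⟩
  have : Nonempty α := ⟨a⟩
  choose! c0 hct0 using hex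
  have htt : t b ≠ t b' := fun h => hne (by rw [← hσ, ← hσ', h])
  have hct1 := C2_update hL hc hct0 hb
  have hct2 := C2_update hL hc hct1 hb'
  set c := Function.update (Function.update c0 (t b) b) (t b') b' with hcdef
  have hcb' : c (t b') = b' := Function.update_self _ _ _
  have hcb : c (t b) = b := by
    rw [hcdef, Function.update_of_ne htt, Function.update_self]
  obtain ⟨k, hk⟩ := C2_ess hL hc h0 ht0 hY0 ha hl hb hbd hct2 hcb
  obtain ⟨k', hk'⟩ := C2_ess hL hc h0 ht0 hY0 ha' hl' hb' hbd' hct2 hcb'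
  have hbt := C2_tB hL hc h0 ht0 hb
  have hbt' := C2_tB hL hc h0 ht0 hb'
  have hpr := C2_pr_ne hbt.1 hbt.2
  have hpr' := C2_pr_ne hbt'.1 hbt'.2
  have p1 := C2_ne_of_pr (s := t b + C2_e) (by rw [C2_pr_add_e]; exact hpr)
  have p2 := C2_ne_of_pr (s := t b' + C2_e) (by rw [C2_pr_add_e]; exact hpr')
  have hss : t b + C2_e ≠ t b' + C2_e := fun h => htt (add_right_cancel h)
  have q1 : c (t b + C2_e) ∈ B := C2_mem hL h0 ht0 (hct2 _ p1.1).1 (by
    rw [(hct2 _ p1.1).2]; exact p1.2)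
  have q2 : c (t b' + C2_e) ∈ B := C2_mem hL h0 ht0 (hct2 _ p2.1).1 (by
    rw [(hct2 _ p2.1).2]; exact p2.2)
  have hA := lf3 hL hc ha ha' haa hct2 p1.1 p2.1 hss hk hk' q1 q2
  have hsum : t b + C2_e + (t b' + C2_e) = t b + t b' := by
    have : ∀ x y z : Fin 3 → ZMod 2, x + z + (y + z) = x + y := by decide
    exact this _ _ _
  rw [hsum] at hA
  have hp3 : C2_pr (t b + t b') ≠ 0 := by
    rw [C2_pr_add, hσ, hσ']
    intro h
    apply hne
    have : ∀ x y : Fin 2 → ZMod 2, x + y = 0 → x = y := by decide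
    exact this _ _ h
  have p3 := C2_ne_of_pr hp3
  have q3 : c (t b + t b') ∈ B := C2_mem hL h0 ht0 (hct2 _ p3.1).1 (by
    rw [(hct2 _ p3.1).2]; exact p3.2)
  exact Set.disjoint_left.1 hL.disj hA q3

end main

theorem C2_gl {σ : Fin 2 → ZMod 2} (hσ : σ ≠ 0) :
    ∃ g : (Fin 2 → ZMod 2) ≃ₗ[ZMod 2] (Fin 2 → ZMod 2), g σ = ![1, 1] := by
  have hcases : σ = ![1, 0] ∨ σ = ![0, 1] ∨ σ = ![1, 1] := by
    revert σ
    decide
  rcases hcases with rfl | rfl | rfl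
  · let f : (Fin 2 → ZMod 2) →ₗ[ZMod 2] (Fin 2 → ZMod 2) :=
      { toFun := fun z => ![z 0, z 0 + z 1]
        map_add' := by decide
        map_smul' := by decide }
    refine ⟨LinearEquiv.ofInvolutive f ?_, ?_⟩
    · intro z
      show (![_, _] : Fin 2 → ZMod 2) = z
      revert z
      decide
    · show (![_, _] : Fin 2 → ZMod 2) = _
      decide
  · let f : (Fin 2 → ZMod 2) →ₗ[ZMod 2] (Fin 2 → ZMod 2) :=
      { toFun := fun z => ![z 0 + z 1, z 1]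
        map_add' := by decide
        map_smul' := by decide }
    refine ⟨LinearEquiv.ofInvolutive f ?_, ?_⟩
    · intro z
      show (![_, _] : Fin 2 → ZMod 2) = z
      revert z
      decide
    · show (![_, _] : Fin 2 → ZMod 2) = _
      decide
  · exact ⟨LinearEquiv.refl _ _, rfl⟩

/-- the linear map used for the Fano minor -/
def C2_T (m : (Fin 2 → ZMod 2) →ₗ[ZMod 2] ZMod 2) :
    (Fin 2 → ZMod 2) × (Fin 2 → ZMod 2) →ₗ[ZMod 2] (Fin 3 → ZMod 2) where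
  toFun y := ![y.1 0, y.1 1, m y.2]
  map_add' x y := by
    funext i
    fin_cases i <;> simp
  map_smul' c x := by
    funext i
    fin_cases i <;> simp

theorem C2_T_apply (m : (Fin 2 → ZMod 2) →ₗ[ZMod 2] ZMod 2)
    (y : (Fin 2 → ZMod 2) × (Fin 2 → ZMod 2)) : C2_T m y = ![y.1 0, y.1 1, m y.2] := rfl

theorem C2_pts : ∀ σ : Fin 2 → ZMod 2, σ ≠ 0 → ∃ τ1 τ2 : Fin 2 → ZMod 2, τ1 ≠ 0 ∧ τ1 ≠ σ ∧
    τ2 ≠ 0 ∧ τ2 ≠ σ ∧
    (τ1 1 * τ1 0 + τ1 0 * τ1 1 = 0) ∧ (τ1 1 * τ2 0 + τ1 0 * τ2 1 = 1) ∧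
    (τ1 1 * σ 0 + τ1 0 * σ 1 = 1) ∧
    ∀ z : Fin 2 → ZMod 2, (τ1 1 * z 0 + τ1 0 * z 1 = 0) → z = 0 ∨ z = τ1 := by
  intro σ hσ
  have g1 : ∀ σ : Fin 2 → ZMod 2, σ ≠ 0 → ∃ τ : Fin 2 → ZMod 2, τ ≠ 0 ∧ τ ≠ σ := by decide
  have g2 : ∀ σ τ : Fin 2 → ZMod 2, τ ≠ σ → σ + τ ≠ 0 := by decide
  have g2' : ∀ σ τ : Fin 2 → ZMod 2, τ ≠ 0 → σ + τ ≠ σ := by decide
  have g3 : ∀ τ : Fin 2 → ZMod 2, τ 1 * τ 0 + τ 0 * τ 1 = 0 := by decide
  have g4 : ∀ σ τ : Fin 2 → ZMod 2, σ ≠ 0 → τ ≠ 0 → τ ≠ σ →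
      τ 1 * (σ + τ) 0 + τ 0 * (σ + τ) 1 = 1 := by decide
  have g5 : ∀ σ τ : Fin 2 → ZMod 2, σ ≠ 0 → τ ≠ 0 → τ ≠ σ → τ 1 * σ 0 + τ 0 * σ 1 = 1 := by
    decide
  have g6 : ∀ τ z : Fin 2 → ZMod 2, τ ≠ 0 → (τ 1 * z 0 + τ 0 * z 1 = 0) → z = 0 ∨ z = τ := by
    decide
  obtain ⟨τ, h1, h2⟩ := g1 σ hσ
  exact ⟨τ, σ + τ, h1, h2, g2 σ τ h2, g2' σ τ h1, g3 τ, g4 σ τ hσ h1 h2,
    g5 σ τ hσ h1 h2, fun z => g6 τ z h1⟩

/-- nested sets -/
theorem C2_nested {M : Matroid α} {A B : Set α} (hL : Lab M A B)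
    {Y : α → Set α} {t : α → Fin 2 → ZMod 2} (hB : BinaryForm M A B Y t)
    {σ : Fin 2 → ZMod 2} (hσ : σ ≠ 0)
    (hocc : ∀ τ : Fin 2 → ZMod 2, τ ≠ 0 → τ ≠ σ → (∃ c ∈ B, t c = τ ∧ Y c = ∅) ∧
      (∃ c ∈ B, t c = τ ∧ Y c = A)) {b b' : α} (hb : b ∈ B) (hb' : b' ∈ B) (htb : t b = σ)
    (htb' : t b' = σ) : Y b ⊆ Y b' ∨ Y b' ⊆ Y b := by
  classical
  by_contra hcon
  push Not at hcon
  obtain ⟨h1, h2⟩ := hcon
  obtain ⟨a, ha1, ha2⟩ := Set.not_subset.1 h1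
  obtain ⟨a', ha1', ha2'⟩ := Set.not_subset.1 h2
  have haA : a ∈ A := hB.1 b hb ha1
  have haA' : a' ∈ A := hB.1 b' hb' ha1'
  have hne : a ≠ a' := fun h => ha2 (h ▸ ha1')
  have hAB : ∀ x ∈ B, x ∉ A := fun x hx hxA => Set.disjoint_left.1 hL.disj hxA hx
  have hEA : M.E \ A = B := by
    rw [← hL.cover]
    ext x
    constructor
    · rintro ⟨h | h, h'⟩
      · exact absurd h h'
      · exact h
    · intro h
      exact ⟨Or.inr h, hAB x h⟩
  have hBE : ∀ x ∈ B, x ∈ M.E := fun x hx => by rw [← hL.cover]; exact Or.inr hx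
  have hAE : ∀ x ∈ A, x ∈ M.E := fun x hx => by rw [← hL.cover]; exact Or.inl hx
  obtain ⟨τ1, τ2, k1, k2, k3, k4, m, m1, m2, m3, m4⟩ : ∃ τ1 τ2 : Fin 2 → ZMod 2, τ1 ≠ 0 ∧
      τ1 ≠ σ ∧ τ2 ≠ 0 ∧ τ2 ≠ σ ∧ ∃ m : (Fin 2 → ZMod 2) →ₗ[ZMod 2] ZMod 2, m τ1 = 0 ∧ m τ2 = 1 ∧
        m σ = 1 ∧ ∀ z, m z = 0 → z = 0 ∨ z = τ1 := by
    obtain ⟨τ1, τ2, k1, k2, k3, k4, h1, h2, h3, h4⟩ := C2_pts σ hσ
    exact ⟨τ1, τ2, k1, k2, k3, k4, C2_m τ1, h1, h2, h3, h4⟩
  obtain ⟨⟨c0, hc0, tc0, yc0⟩, ⟨c1, hc1, tc1, yc1⟩⟩ := hocc τ1 k1 k2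
  obtain ⟨⟨d0, hd0, td0, yd0⟩, ⟨d1, hd1, td1, yd1⟩⟩ := hocc τ2 k3 k4
  set q : Fin 2 → α := ![a, a'] with hq
  have hqi : q.Injective := by
    intro i j hij
    fin_cases i <;> fin_cases j
    · rfl
    · exact absurd hij hne
    · exact absurd hij.symm hne
    · rfl
  -- coordinates
  have hcoB : ∀ x ∈ B, co A Y t q x = (![bit (a ∈ Y x), bit (a' ∈ Y x)], t x) := by
    intro x hx
    unfold co bvec
    rw [if_neg (hAB x hx)]
    refine Prod.ext ?_ rfl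
    funext i
    fin_cases i
    · show (Y x).indicator 1 a = bit (a ∈ Y x)
      by_cases h : a ∈ Y x
      · rw [Set.indicator_of_mem h, C2_bit_of h]; rfl
      · rw [Set.indicator_of_notMem h, C2_bit_not h]
    · show (Y x).indicator 1 a' = bit (a' ∈ Y x)
      by_cases h : a' ∈ Y x
      · rw [Set.indicator_of_mem h, C2_bit_of h]; rfl
      · rw [Set.indicator_of_notMem h, C2_bit_not h]
  have hTB : ∀ x ∈ B, C2_T m (co A Y t q x) = ![bit (a ∈ Y x), bit (a' ∈ Y x), m (t x)] := by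
    intro x hx
    rw [hcoB x hx, C2_T_apply]
    rfl
  have hcoa : co A Y t q a = (![1, 0], 0) := by
    unfold co bvec
    rw [if_pos haA]
    refine Prod.ext ?_ rfl
    funext i
    fin_cases i
    · show (Pi.single a 1 : α → ZMod 2) a = 1
      rw [Pi.single_eq_same]
    · show (Pi.single a 1 : α → ZMod 2) a' = 0
      rw [Pi.single_eq_of_ne hne.symm]
  have hcoa' : co A Y t q a' = (![0, 1], 0) := by
    unfold co bvec
    rw [if_pos haA']
    refine Prod.ext ?_ rfl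
    funext i
    fin_cases i
    · show (Pi.single a' 1 : α → ZMod 2) a = 0
      rw [Pi.single_eq_of_ne hne]
    · show (Pi.single a' 1 : α → ZMod 2) a' = 1
      rw [Pi.single_eq_same]
  have hT0 : ∀ z ∈ ({c0} : Set α), C2_T m (co A Y t q z) = 0 := by
    intro z hz
    rw [mem_singleton_iff] at hz
    rw [hz, hTB c0 hc0, yc0, C2_bit_not (notMem_empty _), C2_bit_not (notMem_empty _), tc0, m1]
    decide
  have hker : ∀ y, C2_T m y = 0 → y ∈ Submodule.span (ZMod 2) (co A Y t q '' {c0}) := by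
    rintro ⟨y1, y2⟩ hy
    rw [C2_T_apply] at hy
    have e0 := congrFun hy 0
    have e1 := congrFun hy 1
    have e2 := congrFun hy 2
    simp only [Matrix.cons_val_zero, Matrix.cons_val_one, Matrix.cons_val, Pi.zero_apply] at e0 e1 e2
    have hy1 : y1 = 0 := by
      funext i
      fin_cases i
      · exact e0
      · exact e1
    rw [Set.image_singleton, hcoB c0 hc0, yc0, C2_bit_not (notMem_empty _),
      C2_bit_not (notMem_empty _), tc0]
    have hz2 : (![0, 0] : Fin 2 → ZMod 2) = 0 := by decide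
    rw [hz2, hy1]
    rcases m4 y2 e2 with h | h
    · rw [h]
      exact Submodule.zero_mem _
    · rw [h]
      exact Submodule.mem_span_singleton_self _
  set x : (Fin 3 → ZMod 2) → α := fun s =>
    if s = ![1, 0, 0] then a else if s = ![0, 1, 0] then a' else if s = ![1, 1, 0] then c1 else
    if s = ![0, 0, 1] then d0 else if s = ![1, 1, 1] then d1 else if s = ![1, 0, 1] then b else b'
    with hx
  have hTx : ∀ s ≠ 0, x s ∈ M.E ∧ C2_T m (co A Y t q (x s)) = s := by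
    intro s hs
    have hcs : s = ![1, 0, 0] ∨ s = ![0, 1, 0] ∨ s = ![1, 1, 0] ∨ s = ![0, 0, 1] ∨ s = ![1, 1, 1] ∨
        s = ![1, 0, 1] ∨ s = ![0, 1, 1] := by
      revert s
      decide
    rcases hcs with rfl | rfl | rfl | rfl | rfl | rfl | rfl
    · have hxs : x ![1, 0, 0] = a := rfl
      rw [hxs]
      refine ⟨hAE a haA, ?_⟩
      rw [hcoa, C2_T_apply]
      simp
    · have hxs : x ![0, 1, 0] = a' := rfl
      rw [hxs]
      refine ⟨hAE a' haA', ?_⟩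
      rw [hcoa', C2_T_apply]
      simp
    · have hxs : x ![1, 1, 0] = c1 := rfl
      rw [hxs]
      refine ⟨hBE c1 hc1, ?_⟩
      rw [hTB c1 hc1, yc1, C2_bit_of haA, C2_bit_of haA', tc1, m1]
    · have hxs : x ![0, 0, 1] = d0 := rfl
      rw [hxs]
      refine ⟨hBE d0 hd0, ?_⟩
      rw [hTB d0 hd0, yd0, C2_bit_not (notMem_empty _), C2_bit_not (notMem_empty _), td0, m2]
    · have hxs : x ![1, 1, 1] = d1 := rfl
      rw [hxs]
      refine ⟨hBE d1 hd1, ?_⟩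
      rw [hTB d1 hd1, yd1, C2_bit_of haA, C2_bit_of haA', td1, m2]
    · have hxs : x ![1, 0, 1] = b := rfl
      rw [hxs]
      refine ⟨hBE b hb, ?_⟩
      rw [hTB b hb, C2_bit_of ha1, C2_bit_not ha2', htb, m3]
    · have hxs : x ![0, 1, 1] = b' := rfl
      rw [hxs]
      refine ⟨hBE b' hb', ?_⟩
      rw [hTB b' hb', C2_bit_not ha2, C2_bit_of ha1', htb', m3]
  have hB' : BinaryForm M A (M.E \ A) Y t := by rw [hEA]; exact hB
  have hobs := Lab.obs7 hL (A₁ := A) subset_rfl hB' (q := q) hqi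
    (by intro i; fin_cases i; exacts [haA, haA'])
    (Zs := {c0}) (by intro z hz; rw [mem_singleton_iff] at hz; rw [hz]; exact hBE c0 hc0)
    (C2_T m) hT0 hker x hTx
  exact hAB c0 hc0 (hobs.1 rfl)

/-
JOB C2 (one element of A in the core: type W2).
-/
theorem typeW2_of_c7 {M : Matroid α} {A B A₁ : Set α} {Y : α → Set α} {t : α → Fin 3 → ZMod 2}
    (hL : Lab M A B) (hc : C7 M A B A₁ Y t) {a0 : α} (h0 : A \ A₁ = {a0}) : TypeW2 M A B := by
  classical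
  have hAE : A ⊆ M.E := by rw [← hL.cover]; exact subset_union_left
  have ha0 : a0 ∈ A \ A₁ := by rw [h0]; rfl
  -- normalisation
  obtain ⟨r1, r2, hr1, hr2, hli⟩ : ∃ r1 r2 : α, r1 ∈ M.E \ A₁ ∧ r2 ∈ M.E \ A₁ ∧
      LinearIndependent (ZMod 2) (fun i : Fin 3 => t ((![a0, r1, r2] : Fin 3 → α) i)) := by
    have hne := hc.ne a0 ha0
    obtain ⟨s1, s2, hs1, hs2, hs⟩ : ∃ s1 s2 : Fin 3 → ZMod 2, s1 ≠ 0 ∧ s2 ≠ 0 ∧
        ∀ x y z : ZMod 2, x • t a0 + y • s1 + z • s2 = 0 → x = 0 ∧ y = 0 ∧ z = 0 := by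
      revert hne
      generalize t a0 = v
      revert v
      decide
    obtain ⟨r1, hr1, ht1⟩ := hc.surj s1 hs1
    obtain ⟨r2, hr2, ht2⟩ := hc.surj s2 hs2
    refine ⟨r1, r2, hr1, hr2, ?_⟩
    rw [Fintype.linearIndependent_iff]
    intro g hg
    rw [Fin.sum_univ_three] at hg
    have hg' : g 0 • t a0 + g 1 • s1 + g 2 • s2 = 0 := by
      rw [← ht1, ← ht2]
      exact hg
    obtain ⟨e0, e1, e2⟩ := hs _ _ _ hg'
    intro i
    fin_cases i
    exacts [e0, e1, e2]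
  obtain ⟨Y', t', hc', -, hnorm⟩ := C7.norm hL.fin hAE hc ![a0, r1, r2]
    (by
      intro i
      fin_cases i
      · exact ⟨hAE ha0.1, ha0.2⟩
      · exact hr1
      · exact hr2) hli
  have ht0 : t' a0 = C2_e := (hnorm 0).1
  have hY0 : Y' a0 = ∅ := (hnorm 0).2
  clear hnorm hli hr1 hr2 hc
  -- step 1
  have hst1 : ∀ a : α, ∃ (l : (Fin 2 → ZMod 2) →ₗ[ZMod 2] ZMod 2) (σ : Fin 2 → ZMod 2), a ∈ A₁ →
      (σ ≠ 0 ∧ ∀ b ∈ B, C2_pr (t' b) ≠ σ → C2_f Y' t' a b = l (C2_pr (t' b))) := by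
    intro a
    by_cases ha : a ∈ A₁
    · obtain ⟨l, σ, h⟩ := C2_step1 hL hc' h0 ht0 hY0 ha
      exact ⟨l, σ, fun _ => h⟩
    · exact ⟨0, 0, fun h => absurd h ha⟩
  choose l σa hla using hst1
  -- step 2
  obtain ⟨σ, hσ, hσl⟩ : ∃ σ : Fin 2 → ZMod 2, σ ≠ 0 ∧ ∀ a ∈ A₁, ∀ b ∈ B, C2_pr (t' b) ≠ σ →
      C2_f Y' t' a b = l a (C2_pr (t' b)) := by
    by_cases hess : ∃ a ∈ A₁, ∃ b ∈ B, C2_f Y' t' a b ≠ l a (C2_pr (t' b))
    · obtain ⟨a, ha, b, hb, hbd⟩ := hess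
      refine ⟨σa a, (hla a ha).1, ?_⟩
      intro a' ha' b' hb' hne
      by_contra hbd'
      by_cases haa : a = a'
      · subst haa
        exact hbd' ((hla a ha).2 b' hb' hne)
      · have := C2_step2 hL hc' h0 ht0 hY0 ha ha' haa (hla a ha).2 (hla a' ha').2 hb hbd hb' hbd'
        rw [this] at hne
        exact hbd' ((hla a' ha').2 b' hb' hne)
    · push Not at hess
      exact ⟨![1, 1], by decide, fun a ha b hb _ => hess a ha b hb⟩
  -- step 3: move `a0`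
  have hins : insert a0 A₁ = A := by
    ext z
    constructor
    · rintro (h | h)
      · rw [h]; exact ha0.1
      · exact hc'.sub h
    · intro h
      by_cases hz : z ∈ A₁
      · exact Or.inr hz
      · left
        have : z ∈ A \ A₁ := ⟨h, hz⟩
        rw [h0] at this
        exact this
  have hAB : ∀ x ∈ B, x ∉ A := fun x hx hxA => Set.disjoint_left.1 hL.disj hxA hx
  have hEA : M.E \ A = B := by
    rw [← hL.cover]
    ext x
    constructor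
    · rintro ⟨h | h, h'⟩
      · exact absurd h h'
      · exact h
    · intro h
      exact ⟨Or.inr h, hAB x h⟩
  have hmove := BinaryForm.move (hc'.sub.trans hAE) hc'.form (a0 := a0) ⟨hAE ha0.1, ha0.2⟩ ht0 hY0
  rw [hins, hEA] at hmove
  have hAfin : A.Finite := hL.fin.subset hAE
  set l3 : α → ((Fin 2 → ZMod 2) →ₗ[ZMod 2] ZMod 2) := fun a => if a = a0 then 0 else l a with hl3
  have hshear := BinaryForm.shear hAfin hmove l3
  set Y3 : α → Set α := fun x => {a | a ∈ A ∧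
    bit (a ∈ Y' x ∪ {z | z = a0 ∧ t' x 0 = 1}) + l3 a (fun i => t' x i.succ) = 1} with hY3
  set t3 : α → Fin 2 → ZMod 2 := fun x i => t' x i.succ with ht3
  have hshear' : BinaryForm M A B Y3 t3 := hshear
  have ht3pr : ∀ x, t3 x = C2_pr (t' x) := fun _ => rfl
  -- membership in `Y3`
  have hm0 : ∀ b ∈ B, (a0 ∈ Y3 b ↔ t' b 0 = 1) := by
    intro b hb
    have h1 : a0 ∉ Y' b := fun h => ha0.2 (hc'.form.1 b (C2_sub hL hc' hb) h)
    have h2 : l3 a0 = 0 := if_pos rfl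
    show (a0 ∈ A ∧ bit (a0 ∈ Y' b ∪ {z | z = a0 ∧ t' b 0 = 1}) + l3 a0 _ = 1) ↔ _
    rw [h2, LinearMap.zero_apply, add_zero, C2_bit_iff]
    constructor
    · rintro ⟨-, h | h⟩
      · exact absurd h h1
      · exact h.2
    · intro h
      exact ⟨ha0.1, Or.inr ⟨rfl, h⟩⟩
  have hma : ∀ a ∈ A₁, ∀ b ∈ B, (a ∈ Y3 b ↔ C2_f Y' t' a b + l a (t3 b) + t' b 0 = 1) := by
    intro a ha b hb
    have hne : a ≠ a0 := fun h => ha0.2 (h ▸ ha)
    have h2 : l3 a = l a := if_neg hne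
    have h3 : bit (a ∈ Y' b ∪ {z | z = a0 ∧ t' b 0 = 1}) = bit (a ∈ Y' b) := by
      by_cases h : a ∈ Y' b
      · rw [C2_bit_of h, C2_bit_of (show a ∈ Y' b ∪ {z | z = a0 ∧ t' b 0 = 1} from Or.inl h)]
      · rw [C2_bit_not h, C2_bit_not]
        rintro (h' | h')
        · exact h h'
        · exact hne h'.1
    show (a ∈ A ∧ bit (a ∈ Y' b ∪ {z | z = a0 ∧ t' b 0 = 1}) + l3 a _ = 1) ↔ _
    rw [h2, h3]
    unfold C2_f
    have h4 : bit (a ∈ Y' b) + t' b 0 + l a (t3 b) + t' b 0 = bit (a ∈ Y' b) + l a (t3 b) := by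
      have : ∀ x y z : ZMod 2, x + y + z + y = x + z := by decide
      exact this _ _ _
    rw [h4]
    constructor
    · rintro ⟨-, h⟩
      exact h
    · intro h
      exact ⟨hc'.sub ha, h⟩
  -- rows agree away from `σ`
  have hrow : ∀ b ∈ B, t3 b ≠ σ → (t' b 0 = 1 → Y3 b = A) ∧ (t' b 0 = 0 → Y3 b = ∅) := by
    intro b hb hne
    have hmem : ∀ a ∈ A, (a ∈ Y3 b ↔ t' b 0 = 1) := by
      intro a ha
      rw [← hins] at ha
      rcases ha with h | h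
      · rw [h]; exact hm0 b hb
      · rw [hma a h b hb, hσl a h b hb hne]
        have : ∀ x y : ZMod 2, x + x + y = y := by decide
        rw [ht3pr, this]
    constructor
    · intro h
      apply Set.Subset.antisymm (hshear'.1 b hb)
      intro a ha
      exact (hmem a ha).2 h
    · intro h
      rw [Set.eq_empty_iff_forall_notMem]
      intro a ha
      have := (hmem a (hshear'.1 b hb ha)).1 ha
      rw [h] at this
      exact absurd this (by decide)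
  -- the points over `τ ≠ σ`
  have hocc : ∀ τ : Fin 2 → ZMod 2, τ ≠ 0 → τ ≠ σ → (∃ c ∈ B, t3 c = τ ∧ Y3 c = ∅) ∧
      (∃ c ∈ B, t3 c = τ ∧ Y3 c = A) := by
    intro τ hτ0 hτσ
    have hp : ∀ x : ZMod 2, ∃ c ∈ B, t' c = ![x, τ 0, τ 1] := by
      intro x
      have hpr : C2_pr ![x, τ 0, τ 1] = τ := by
        funext i
        fin_cases i <;> rfl
      have h1 := C2_ne_of_pr (s := ![x, τ 0, τ 1]) (by rw [hpr]; exact hτ0)
      obtain ⟨c, hc1, hc2⟩ := hc'.surj _ h1.1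
      exact ⟨c, C2_mem hL h0 ht0 hc1 (by rw [hc2]; exact h1.2), hc2⟩
    have hpr : ∀ x, C2_pr ![x, τ 0, τ 1] = τ := by
      intro x
      funext i
      fin_cases i <;> rfl
    constructor
    · obtain ⟨c, hcB, hct⟩ := hp 0
      have h3 : t3 c = τ := by rw [ht3pr, hct, hpr]
      exact ⟨c, hcB, h3, (hrow c hcB (by rw [h3]; exact hτσ)).2 (by rw [hct]; rfl)⟩
    · obtain ⟨c, hcB, hct⟩ := hp 1
      have h3 : t3 c = τ := by rw [ht3pr, hct, hpr]
      exact ⟨c, hcB, h3, (hrow c hcB (by rw [h3]; exact hτσ)).1 (by rw [hct]; rfl)⟩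
  obtain ⟨g, hg⟩ := C2_gl hσ
  have hgl := hshear'.gl g
  have hgσ : ∀ x, g (t3 x) = ![1, 1] ↔ t3 x = σ := by
    intro x
    rw [← hg]
    exact g.injective.eq_iff
  refine ⟨Y3, fun x => g (t3 x), hgl, ?_, ?_, ?_⟩
  · intro b hb h
    have h1 : t3 b = 0 := by
      have : g (t3 b) = g 0 := by rw [map_zero]; exact h
      exact g.injective this
    have h2 := C2_tB hL hc' h0 ht0 hb
    exact C2_pr_ne h2.1 h2.2 h1
  · intro b hb h
    have h1 : t3 b ≠ σ := fun h' => h ((hgσ b).2 h')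
    have h2 : ∀ x : ZMod 2, x = 0 ∨ x = 1 := by decide
    rcases h2 (t' b 0) with h3 | h3
    · exact Or.inl ((hrow b hb h1).2 h3)
    · exact Or.inr ((hrow b hb h1).1 h3)
  · intro b hb b' hb' h h'
    exact C2_nested hL hshear' hσ hocc hb hb' ((hgσ b).1 h) ((hgσ b').1 h')

end Pool.Agent.Helper43_EOR
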