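import Mathlib
import Pool.Agent.Helper43_EOR.F7
import Pool.Agent.Helper43_EOR.L1

set_option autoImplicit false

namespace Pool.Agent.Helper43_EOR

open Set Matroid

variable {α : Type*}
/-- the finite check -/
theorem C3_finite (s s' p w : Fin 3 → ZMod 2) (hs : s ≠ 0) (hs' : s' ≠ 0) (hp : p ≠ 0)
    (h : ∀ r : Fin 3 → ZMod 2, r ≠ 0 → r ≠ p →
      (if r = s then (1 : ZMod 2) else 0) + (if r = s' then 1 else 0) =
        w 0 * r 0 + w 1 * r 1 + w 2 * r 2) : s = s' ∧ w = 0 := by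
  revert s s' p w
  decide +kernel

theorem C3_lin (l : (Fin 3 → ZMod 2) →ₗ[ZMod 2] ZMod 2) (r : Fin 3 → ZMod 2) :
    l r = l (Pi.single 0 1) * r 0 + l (Pi.single 1 1) * r 1 + l (Pi.single 2 1) * r 2 := by
  have h : r = r 0 • (Pi.single 0 1 : Fin 3 → ZMod 2) + r 1 • (Pi.single 1 1 : Fin 3 → ZMod 2) +
      r 2 • (Pi.single 2 1 : Fin 3 → ZMod 2) := by
    ext i
    fin_cases i <;> simp [Pi.single_apply]
  conv_lhs => rw [h]
  rw [map_add, map_add, map_smul, map_smul, map_smul]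
  simp only [smul_eq_mul]
  ring

theorem C3_agree {s s' p : Fin 3 → ZMod 2} (hs : s ≠ 0) (hs' : s' ≠ 0) (hp : p ≠ 0)
    (l l' : (Fin 3 → ZMod 2) →ₗ[ZMod 2] ZMod 2)
    (h : ∀ r : Fin 3 → ZMod 2, r ≠ 0 → r ≠ p →
      bit (r = s) + 1 + l r = bit (r = s') + 1 + l' r) : s = s' ∧ l = l' := by
  have h2 : ∀ x : ZMod 2, x + x = 0 := by decide
  have key := C3_finite s s' p
    (fun i => l (Pi.single i 1) + l' (Pi.single i 1)) hs hs' hp (by
      intro r hr hrp
      have h1 := h r hr hrp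
      have e1 : (if r = s then (1 : ZMod 2) else 0) = bit (r = s) := by
        unfold bit; split_ifs <;> rfl
      have e2 : (if r = s' then (1 : ZMod 2) else 0) = bit (r = s') := by
        unfold bit; split_ifs <;> rfl
      rw [e1, e2]
      have e3 : (l (Pi.single 0 1) + l' (Pi.single 0 1)) * r 0 +
          (l (Pi.single 1 1) + l' (Pi.single 1 1)) * r 1 +
          (l (Pi.single 2 1) + l' (Pi.single 2 1)) * r 2 = l r + l' r := by
        rw [C3_lin l r, C3_lin l' r]; ring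
      show _ = (l (Pi.single 0 1) + l' (Pi.single 0 1)) * r 0 +
          (l (Pi.single 1 1) + l' (Pi.single 1 1)) * r 1 +
          (l (Pi.single 2 1) + l' (Pi.single 2 1)) * r 2
      rw [e3]
      generalize bit (r = s) = x at h1 ⊢
      generalize bit (r = s') = y at h1 ⊢
      generalize l r = z at h1 ⊢
      generalize l' r = u at h1 ⊢
      revert x y z u
      decide)
  refine ⟨key.1, ?_⟩
  apply LinearMap.ext
  intro r
  have h3 : ∀ i, l (Pi.single i 1) = l' (Pi.single i 1) := by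
    intro i
    have h4 : l (Pi.single i 1) + l' (Pi.single i 1) = 0 := congrFun key.2 i
    have h5 := h2 (l' (Pi.single i 1))
    exact add_right_cancel (h4.trans h5.symm)
  rw [C3_lin l r, C3_lin l' r, h3, h3, h3]

theorem C3_equiv (s : Fin 3 → ZMod 2) (hs : s ≠ 0) :
    ∃ g : (Fin 3 → ZMod 2) ≃ₗ[ZMod 2] (Fin 3 → ZMod 2), g s = ![1, 1, 1] := by
  obtain ⟨i, hi⟩ : ∃ i, s i ≠ 0 := by
    by_contra hcon
    push Not at hcon
    exact hs (funext hcon)
  have hi1 : s i = 1 := by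
    have h : ∀ x : ZMod 2, x ≠ 0 → x = 1 := by decide
    exact h _ hi
  have h2 : ∀ x : ZMod 2, x + x = 0 := by decide
  let d : Fin 3 → ZMod 2 := (fun _ => 1) - s
  have hd : d i = 0 := by
    show (1 : ZMod 2) - s i = 0
    rw [hi1]; rfl
  let f : (Fin 3 → ZMod 2) →ₗ[ZMod 2] (Fin 3 → ZMod 2) :=
    LinearMap.id + (LinearMap.proj i : (Fin 3 → ZMod 2) →ₗ[ZMod 2] ZMod 2).smulRight d
  have hf : ∀ v, f v = v + v i • d := fun v => rfl
  have hinv : Function.Involutive f := by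
    intro v
    rw [hf, hf]
    ext j
    simp only [Pi.add_apply, Pi.smul_apply, smul_eq_mul, hd, mul_zero, add_zero]
    rw [add_assoc, h2, add_zero]
  refine ⟨LinearEquiv.ofInvolutive f hinv, ?_⟩
  show f s = _
  rw [hf, hi1, one_smul]
  ext j
  show s j + (1 - s j) = _
  rw [add_sub_cancel]
  fin_cases j <;> rfl

theorem typeX3_of_c7 {M : Matroid α} {A B : Set α} {Y : α → Set α} {t : α → Fin 3 → ZMod 2}
    (hL : Lab M A B) (hc : C7 M A B A Y t) : TypeX3 M A B := by
  classical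
  have hAE : A ⊆ M.E := hL.cover ▸ Set.subset_union_left
  have hEB : M.E \ A = B := by
    rw [← hL.cover, Set.union_diff_left]
    exact sdiff_eq_left.2 hL.disj.symm
  have hform : BinaryForm M A B Y t := by
    have := hc.form
    rwa [hEB] at this
  have ht : ∀ b ∈ B, t b ≠ 0 := fun b hb => (lf1 hL hc b hb).1
  -- the transversal
  obtain ⟨c, hcB, hct⟩ : ∃ c : (Fin 3 → ZMod 2) → α, (∀ s ≠ 0, c s ∈ B) ∧ ∀ s ≠ 0, t (c s) = s := by
    have h1 := hc.surj
    rw [hEB] at h1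
    obtain ⟨x0, -, -⟩ := h1 (Pi.single 0 1) (by decide)
    refine ⟨fun s => if h : s ≠ 0 then (h1 s h).choose else x0, ?_, ?_⟩
    · intro s hs
      simp only [dif_pos hs]
      exact (h1 s hs).choose_spec.1
    · intro s hs
      simp only [dif_pos hs]
      exact (h1 s hs).choose_spec.2
  have hbit : ∀ p : Prop, p → bit p = 1 := by
    intro p hp
    unfold bit
    exact if_pos hp
  have hbit0 : ∀ p : Prop, ¬ p → bit p = 0 := by
    intro p hp
    unfold bit
    exact if_neg hp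
  -- lf2 for a transversal in `B`
  have hlf2 : ∀ a ∈ A, ∀ c : (Fin 3 → ZMod 2) → α, (∀ s ≠ 0, c s ∈ B) → (∀ s ≠ 0, t (c s) = s) →
      ∃ s : Fin 3 → ZMod 2, s ≠ 0 ∧ ∃ l : (Fin 3 → ZMod 2) →ₗ[ZMod 2] ZMod 2,
        ∀ r ≠ 0, bit (a ∈ Y (c r)) = bit (r = s) + 1 + l r := by
    intro a ha c hcB hct
    obtain ⟨s, hs, l, hl⟩ := lf2 hL hc ha (c := c) (fun s hs => ⟨by rw [hEB]; exact hcB s hs, hct s hs⟩)
    refine ⟨s, hs, l, fun r hr => ?_⟩
    rw [hl r hr, hbit _ (hcB s hs)]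
  have hmain : ∀ a ∈ A, ∃ s : Fin 3 → ZMod 2, s ≠ 0 ∧ ∃ l : (Fin 3 → ZMod 2) →ₗ[ZMod 2] ZMod 2,
      (∀ r ≠ 0, bit (a ∈ Y (c r)) = bit (r = s) + 1 + l r) ∧
      ∀ b ∈ B, bit (a ∈ Y b) = bit (t b = s) + 1 + l (t b) := by
    intro a ha
    obtain ⟨s, hs, l, hl⟩ := hlf2 a ha c hcB hct
    refine ⟨s, hs, l, hl, fun b hb => ?_⟩
    let c' : (Fin 3 → ZMod 2) → α := Function.update c (t b) b
    have hc'1 : c' (t b) = b := Function.update_self _ _ _
    have hc'2 : ∀ r, r ≠ t b → c' r = c r := fun r hr => Function.update_of_ne hr _ _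
    obtain ⟨s', hs', l', hl'⟩ := hlf2 a ha c' (by
      intro r hr
      by_cases h : r = t b
      · rw [h, hc'1]; exact hb
      · rw [hc'2 r h]; exact hcB r hr) (by
      intro r hr
      by_cases h : r = t b
      · rw [h, hc'1]
      · rw [hc'2 r h]; exact hct r hr)
    obtain ⟨e1, e2⟩ := C3_agree hs hs' (ht b hb) l l' (by
      intro r hr hrb
      rw [← hl r hr, ← hl' r hr, hc'2 r hrb])
    have h3 := hl' (t b) (ht b hb)
    rw [hc'1, ← e1, ← e2] at h3
    exact h3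
  choose! sf hsf lf hlf1 hlf2' using hmain
  have hsame : ∀ a ∈ A, ∀ a' ∈ A, sf a = sf a' := by
    intro a ha a' ha'
    by_contra hne
    have haa : a ≠ a' := fun h => hne (by rw [h])
    have h1 := lf3 hL hc ha ha' haa (c := c)
      (fun s hs => ⟨by rw [hEB]; exact hcB s hs, hct s hs⟩) (hsf a ha) (hsf a' ha') hne
      (hlf1 a ha) (hlf1 a' ha') (hcB _ (hsf a ha)) (hcB _ (hsf a' ha'))
    have h2 : sf a + sf a' ≠ 0 := by
      intro h0
      apply hne
      have h4 : ∀ x y : ZMod 2, x + y = 0 → x = y := by decide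
      ext i
      exact h4 _ _ (congrFun h0 i)
    exact Set.disjoint_left.1 hL.disj h1 (hcB _ h2)
  obtain ⟨s, hs, hsA⟩ : ∃ s : Fin 3 → ZMod 2, s ≠ 0 ∧ ∀ a ∈ A, sf a = s := by
    rcases A.eq_empty_or_nonempty with h | ⟨a, ha⟩
    · refine ⟨![1, 1, 1], by decide, ?_⟩
      intro a ha
      rw [h] at ha
      exact absurd ha (Set.notMem_empty a)
    · exact ⟨sf a, hsf a ha, fun a' ha' => hsame a' ha' a ha⟩
  obtain ⟨g, hg⟩ := C3_equiv s hs
  have hform2 := (hform.shear (hL.fin.subset hAE) lf).gl g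
  have hY : ∀ b ∈ B, ∀ a ∈ A, bit (a ∈ Y b) + lf a (t b) = bit (t b = s) + 1 := by
    intro b hb a ha
    rw [hlf2' a ha b hb, hsA a ha]
    generalize bit (t b = s) = x
    generalize lf a (t b) = y
    revert x y
    decide
  refine ⟨_, _, hform2, ?_, ?_, ?_⟩
  · intro b hb h0
    exact ht b hb (by simpa using h0)
  · intro b hb h1
    have h2 : t b = s := g.injective (by rw [hg]; exact h1)
    ext a
    simp only [Set.mem_setOf_eq, Set.mem_empty_iff_false, iff_false, not_and]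
    intro ha
    rw [hY b hb a ha, hbit _ h2]
    decide
  · intro b hb h1
    have h2 : t b ≠ s := by
      intro h
      apply h1
      show g (t b) = _
      rw [h, hg]
    ext a
    simp only [Set.mem_setOf_eq]
    constructor
    · exact fun h => h.1
    · intro ha
      refine ⟨ha, ?_⟩
      rw [hY b hb a ha, hbit0 _ h2]
      rfl

end Pool.Agent.Helper43_EOR
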