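import Mathlib
import Pool.Agent.Helper43_EOR.F7
import Pool.Agent.Helper43_EOR.L1

set_option autoImplicit false

namespace Pool.Agent.Helper43_EOR

open Set Matroid

variable {α : Type*}




/- ======== JOB CS ======== -/

section CSabs

variable {V : Type*} [AddCommGroup V] [Module (ZMod 2) V]

theorem CS_add_self (x : V) : x + x = 0 := by
  have h : ((2 : ℕ) : ZMod 2) = 0 := by decide
  have h1 : (2 : ZMod 2) • x = 0 := by
    rw [show (2 : ZMod 2) = 0 from by decide, zero_smul]
  rw [← h1, two_smul]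

theorem CS_uniq {v : α → V} {Af : Finset α} (h1 : ∑ x ∈ Af, v x = 0) {a3 : α} (ha3 : a3 ∈ Af)
    (h2 : LinearIndepOn (ZMod 2) v ((Af : Set α) \ {a3})) {g : α → ZMod 2}
    (hg : ∑ x ∈ Af, g x • v x = 0) : ∀ x ∈ Af, g x = g a3 := by
  classical
  have e1 : ∑ x ∈ Af, (g x - g a3) • v x = 0 := by
    simp only [sub_smul, Finset.sum_sub_distrib, hg, ← Finset.smul_sum, h1, smul_zero, sub_zero]
  rw [← Finset.add_sum_erase _ _ ha3, sub_self, zero_smul, zero_add] at e1
  rw [← Finset.coe_erase, linearIndepOn_finset_iff] at h2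
  intro x hx
  by_cases hxa : x = a3
  · rw [hxa]
  · exact sub_eq_zero.1 (h2 _ e1 x (Finset.mem_erase.2 ⟨hxa, hx⟩))

theorem CS_indep {v : α → V} {Af : Finset α} (h1 : ∑ x ∈ Af, v x = 0) {a3 : α} (ha3 : a3 ∈ Af)
    (h2 : LinearIndepOn (ZMod 2) v ((Af : Set α) \ {a3})) {a : α} (ha : a ∈ Af) :
    LinearIndepOn (ZMod 2) v ((Af : Set α) \ {a}) := by
  classical
  rw [← Finset.coe_erase, linearIndepOn_finset_iff]
  intro f hf x hx
  have hx' := Finset.mem_erase.1 hx
  have e1 : ∑ x ∈ Af, (Function.update f a 0) x • v x = 0 := by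
    rw [← Finset.add_sum_erase _ _ ha, Function.update_self, zero_smul, zero_add, ← hf]
    refine Finset.sum_congr rfl fun y hy => ?_
    rw [Function.update_of_ne (Finset.mem_erase.1 hy).1]
  have h3 := CS_uniq h1 ha3 h2 e1
  have h4 := h3 x hx'.2
  have h5 := h3 a ha
  rw [Function.update_of_ne hx'.1] at h4
  rw [Function.update_self] at h5
  rw [h4, ← h5]

theorem CS_span {v : α → V} {Af : Finset α} (h1 : ∑ x ∈ Af, v x = 0) {a : α} (ha : a ∈ Af) :
    Submodule.span (ZMod 2) (v '' ((Af : Set α) \ {a})) = Submodule.span (ZMod 2) (v '' Af) := by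
  classical
  apply le_antisymm (Submodule.span_mono (image_mono sdiff_subset))
  rw [Submodule.span_le]
  rintro _ ⟨x, hx, rfl⟩
  by_cases hxa : x = a
  · subst hxa
    rw [← Finset.add_sum_erase _ _ ha] at h1
    have h2 : v x = -∑ y ∈ Af.erase x, v y := eq_neg_of_add_eq_zero_left h1
    rw [h2]
    apply Submodule.neg_mem
    apply Submodule.sum_mem
    intro y hy
    apply Submodule.subset_span
    exact ⟨y, by simpa [and_comm] using hy, rfl⟩
  · exact Submodule.subset_span ⟨x, ⟨hx, hxa⟩, rfl⟩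

/-- the abstract form of the job -/
theorem CS_abs {M : Matroid α} {A B : Set α} (hfin : M.E.Finite) (hcov : A ∪ B = M.E)
    (hdis : Disjoint A B) {v : α → V} (hv : ∀ I ⊆ M.E, (M.Indep I ↔ LinearIndepOn (ZMod 2) v I))
    {Af : Finset α} (hAf : (Af : Set α) = A) (h1 : ∑ x ∈ Af, v x = 0) {a3 : α} (ha3 : a3 ∈ Af)
    (h2 : LinearIndepOn (ZMod 2) v ((Af : Set α) \ {a3}))
    (h3 : ∀ b ∈ B, v b ∉ Submodule.span (ZMod 2) (v '' A))
    (h4 : ∀ b ∈ B, ∀ b' ∈ B, v b + v b' ∈ Submodule.span (ZMod 2) (v '' A))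
    (h5 : B.Nonempty) : SData M A B := by
  classical
  subst hAf
  obtain ⟨b0, hb0⟩ := h5
  have hBA : ∀ b ∈ B, b ∉ (Af : Set α) := fun b hb hbA => disjoint_left.1 hdis hbA hb
  have hAE : (Af : Set α) ⊆ M.E := by rw [← hcov]; exact subset_union_left
  have hBE : B ⊆ M.E := by rw [← hcov]; exact subset_union_right
  have hins : ∀ a ∈ (Af : Set α), ∀ b ∈ B, LinearIndepOn (ZMod 2) v (insert b ((Af : Set α) \ {a})) := by
    intro a ha b hb
    rw [linearIndepOn_insert (fun h => hBA b hb h.1)]
    refine ⟨CS_indep h1 ha3 h2 ha, ?_⟩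
    rw [CS_span h1 ha]
    exact h3 b hb
  have hinsE : ∀ a ∈ (Af : Set α), ∀ b ∈ B, insert b ((Af : Set α) \ {a}) ⊆ M.E := by
    intro a ha b hb
    exact insert_subset (hBE hb) (sdiff_subset.trans hAE)
  have hbase : ∀ a ∈ (Af : Set α), ∀ b ∈ B, M.IsBase (insert b ((Af : Set α) \ {a})) := by
    intro a ha b hb
    apply Indep.isBase_of_forall_insert ((hv _ (hinsE a ha b hb)).2 (hins a ha b hb))
    intro e he hcon
    have he1 : insert e (insert b ((Af : Set α) \ {a})) ⊆ M.E := insert_subset he.1 (hinsE a ha b hb)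
    rw [hv _ he1, linearIndepOn_insert he.2] at hcon
    apply hcon.2
    have hsub : Submodule.span (ZMod 2) (v '' (Af : Set α)) ≤
        Submodule.span (ZMod 2) (v '' (insert b ((Af : Set α) \ {a}))) := by
      rw [← CS_span h1 ha]
      exact Submodule.span_mono (image_mono (subset_insert _ _))
    have heE : e ∈ (Af : Set α) ∪ B := by rw [hcov]; exact he.1
    rcases heE with heA | heB
    · exact hsub (Submodule.subset_span ⟨e, heA, rfl⟩)
    · have e1 : v e = v b + (v b + v e) := by
        rw [← add_assoc, CS_add_self, zero_add]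
      rw [e1]
      apply Submodule.add_mem
      · exact Submodule.subset_span ⟨b, mem_insert _ _, rfl⟩
      · exact hsub (h4 b hb e heB)
  have hcard : ∀ Z, M.IsBase Z → Z.encard = (Af : Set α).encard := by
    intro Z hZ
    rw [hZ.encard_eq_encard_of_isBase (hbase a3 ha3 b0 hb0),
      encard_insert_of_notMem (fun h => hBA b0 hb0 h.1), encard_sdiff_singleton_add_one (by exact ha3)]
  refine ⟨hcard, hbase, ?_⟩
  have hm : ∀ b : α, ∃ m : α → ZMod 2, b ∈ B → ∑ x ∈ Af, m x • v x = v b + v b0 := by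
    intro b
    by_cases hb : b ∈ B
    · obtain ⟨m, hm⟩ := Submodule.mem_span_image_finset_iff_exists_fun' (R := ZMod 2) |>.1 (h4 b hb b0 hb0)
      exact ⟨m, fun _ => hm⟩
    · exact ⟨0, fun h => absurd h hb⟩
  choose m hm using hm
  refine ⟨fun a b => if m b a = 0 then 1 else -1, ?_, ?_⟩
  · intro a _ b _
    show (if m b a = 0 then (1 : ℤ) else -1) = 1 ∨ (if m b a = 0 then (1 : ℤ) else -1) = -1
    split_ifs <;> simp
  intro a ha a' ha' haa b hb b' hb' hbb
  have key : M.IsBase (insert b (insert b' ((Af : Set α) \ {a, a'}))) ↔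
      m b a + m b' a ≠ m b a' + m b' a' := by
    set T : Set α := (Af : Set α) \ {a, a'} with hT
    have hTA : T ⊆ (Af : Set α) \ {a} := by
      intro x hx
      exact ⟨hx.1, fun h => hx.2 (Or.inl h)⟩
    have hbT : b' ∉ T := fun h => hBA b' hb' h.1
    have hbT' : b ∉ insert b' T := by
      rintro (h | h)
      · exact hbb h
      · exact hBA b hb h.1
    have hRE : insert b (insert b' T) ⊆ M.E :=
      insert_subset (hBE hb) (insert_subset (hBE hb') (sdiff_subset.trans hAE))
    have haT : a' ∉ T := fun h => h.2 (Or.inr rfl)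
    have haT' : a ∉ insert a' T := by
      rintro (h | h)
      · exact haa h
      · exact h.2 (Or.inl rfl)
    have hAT : (Af : Set α) = insert a (insert a' T) := by
      ext x
      simp only [hT, mem_insert_iff, mem_sdiff, mem_singleton_iff]
      constructor
      · intro hx; tauto
      · rintro (h | h | h)
        · rw [h]; exact ha
        · rw [h]; exact ha'
        · exact h.1
    have hRcard : (insert b (insert b' T)).encard = (Af : Set α).encard := by
      rw [encard_insert_of_notMem hbT', encard_insert_of_notMem hbT, hAT,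
        encard_insert_of_notMem haT', encard_insert_of_notMem haT]
    have step1 : M.IsBase (insert b (insert b' T)) ↔ M.Indep (insert b (insert b' T)) := by
      constructor
      · exact fun h => h.indep
      · intro h
        obtain ⟨Z, hZ, hsub⟩ := h.exists_isBase_superset
        have hRf : (insert b (insert b' T)).Finite := hfin.subset hRE
        have hle : Z.encard ≤ (insert b (insert b' T)).encard := by rw [hRcard, hcard Z hZ]
        have := hRf.eq_of_subset_of_encard_le hsub hle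
        rw [this]; exact hZ
    have hins' : LinearIndepOn (ZMod 2) v (insert b' T) :=
      (hins a ha b' hb').mono (insert_subset_insert hTA)
    have step2 : M.Indep (insert b (insert b' T)) ↔
        v b ∉ Submodule.span (ZMod 2) (v '' (insert b' T)) := by
      rw [hv _ hRE, linearIndepOn_insert hbT']
      exact ⟨fun h => h.2, fun h => ⟨hins', h⟩⟩
    have hTspan : Submodule.span (ZMod 2) (v '' T) ≤ Submodule.span (ZMod 2) (v '' (Af : Set α)) :=
      Submodule.span_mono (image_mono sdiff_subset)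
    have step3 : v b ∈ Submodule.span (ZMod 2) (v '' (insert b' T)) ↔
        v b + v b' ∈ Submodule.span (ZMod 2) (v '' T) := by
      rw [image_insert_eq, Submodule.mem_span_insert]
      constructor
      · rintro ⟨c, z, hz, hcz⟩
        have hc : c = 0 ∨ c = 1 := (by decide : ∀ c : ZMod 2, c = 0 ∨ c = 1) c
        rcases hc with rfl | rfl
        · exfalso
          apply h3 b hb
          rw [hcz, zero_smul, zero_add]
          exact hTspan hz
        · rw [hcz, one_smul, add_comm (v b') z, add_assoc, CS_add_self, add_zero]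
          exact hz
      · intro hz
        refine ⟨1, v b + v b', hz, ?_⟩
        rw [one_smul, add_comm (v b) (v b'), ← add_assoc, CS_add_self, zero_add]
    have hsum : v b + v b' = ∑ x ∈ Af, (m b x + m b' x) • v x := by
      simp only [add_smul, Finset.sum_add_distrib, hm b hb, hm b' hb']
      have : v b + v b0 + (v b' + v b0) = v b + v b' + (v b0 + v b0) := by abel
      rw [this, CS_add_self, add_zero]
    set nn : α → ZMod 2 := fun x => m b x + m b' x with hnn
    have step4 : v b + v b' ∈ Submodule.span (ZMod 2) (v '' T) ↔ nn a = nn a' := by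
      have hTf : T = ((Af.erase a).erase a' : Finset α) := by
        ext x
        simp only [hT, mem_sdiff, Finset.mem_coe, mem_insert_iff, mem_singleton_iff,
          Finset.mem_erase]
        tauto
      have haf : a' ∈ Af.erase a := Finset.mem_erase.2 ⟨haa.symm, ha'⟩
      rw [hsum, hTf, Submodule.mem_span_image_finset_iff_exists_fun']
      constructor
      · rintro ⟨c, hc⟩
        set c' : α → ZMod 2 := fun x => if x = a ∨ x = a' then 0 else c x with hc'
        have e1 : ∑ x ∈ Af, c' x • v x = ∑ x ∈ (Af.erase a).erase a', c x • v x := by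
          rw [← Finset.add_sum_erase _ _ ha, ← Finset.add_sum_erase _ _ haf]
          have z1 : c' a = 0 := by simp [hc']
          have z2 : c' a' = 0 := by simp [hc']
          rw [z1, z2, zero_smul, zero_smul, zero_add, zero_add]
          refine Finset.sum_congr rfl fun x hx => ?_
          have hx' := Finset.mem_erase.1 hx
          have hx'' := Finset.mem_erase.1 hx'.2
          have : c' x = c x := by simp [hc', hx'.1, hx''.1]
          rw [this]
        have e2 : ∑ x ∈ Af, (nn x - c' x) • v x = 0 := by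
          simp only [sub_smul, Finset.sum_sub_distrib]
          rw [e1, hc, sub_self]
        have e3 := CS_uniq h1 ha3 h2 e2
        have e4 := (e3 a ha).trans (e3 a' ha').symm
        simpa [hc'] using e4
      · intro hn
        refine ⟨fun x => nn x - nn a, ?_⟩
        have e1 : ∑ x ∈ Af, (nn x - nn a) • v x = ∑ x ∈ Af, nn x • v x := by
          simp only [sub_smul, Finset.sum_sub_distrib, ← Finset.smul_sum, h1, smul_zero, sub_zero]
        rw [← e1, ← Finset.add_sum_erase _ _ ha, ← Finset.add_sum_erase _ _ haf, sub_self,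
          zero_smul, zero_add, ← hn, sub_self, zero_smul, zero_add]
    rw [step1, step2, step3, step4]
  rw [key]
  show _ ↔ (if m b a = 0 then (1 : ℤ) else -1) * (if m b' a' = 0 then (1 : ℤ) else -1) ≠
    (if m b' a = 0 then (1 : ℤ) else -1) * (if m b a' = 0 then (1 : ℤ) else -1)
  generalize m b a = p
  generalize m b' a = q
  generalize m b a' = r
  generalize m b' a' = s
  revert p q r s
  decide

end CSabs

/-! ### The concrete form -/

open Classical in
theorem CS_bvec_mem {A : Set α} {Y : α → Set α} {δ : ℕ} {t : α → Fin δ → ZMod 2} {x : α}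
    (hx : x ∈ A) : bvec A Y t x = (Pi.single x 1, 0) := by
  unfold bvec
  rw [if_pos hx]

theorem CS_bvec_notMem {A : Set α} {Y : α → Set α} {δ : ℕ} {t : α → Fin δ → ZMod 2} {x : α}
    (hx : x ∉ A) : bvec A Y t x = ((Y x).indicator 1, t x) := by
  unfold bvec
  rw [if_neg hx]

theorem CS_snd_mem {A : Set α} {Y : α → Set α} {δ : ℕ} {t : α → Fin δ → ZMod 2} {x : α}
    (hx : x ∈ A) : (bvec A Y t x).2 = 0 := by
  rw [CS_bvec_mem hx]

theorem CS_snd_notMem {A : Set α} {Y : α → Set α} {δ : ℕ} {t : α → Fin δ → ZMod 2} {x : α}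
    (hx : x ∉ A) : (bvec A Y t x).2 = t x := by
  rw [CS_bvec_notMem hx]

theorem CS_fst_mem {A : Set α} {Y : α → Set α} {δ : ℕ} {t : α → Fin δ → ZMod 2} {x : α}
    (hx : x ∈ A) (a : α) : (bvec A Y t x).1 a = bit (a = x) := by
  classical
  rw [CS_bvec_mem hx]
  unfold bit
  show (Pi.single x 1 : α → ZMod 2) a = _
  rw [Pi.single_apply]

theorem CS_fst_notMem {A : Set α} {Y : α → Set α} {δ : ℕ} {t : α → Fin δ → ZMod 2} {x : α}
    (hx : x ∉ A) (a : α) : (bvec A Y t x).1 a = bit (a ∈ Y x) := by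
  classical
  rw [CS_bvec_notMem hx]
  unfold bit
  show (Y x).indicator 1 a = _
  rw [indicator_apply]
  rfl

open Classical in
theorem CS_sum_fst {A : Finset α} {Y : α → Set α} {δ : ℕ} {t : α → Fin δ → ZMod 2}
    (c : α → ZMod 2) (a : α) :
    (∑ x ∈ A, c x • bvec (A : Set α) Y t x).1 a = if a ∈ A then c a else 0 := by
  classical
  rw [Prod.fst_sum, Finset.sum_apply]
  have : ∀ x ∈ A, (c x • bvec (A : Set α) Y t x).1 a = if a = x then c x else 0 := by
    intro x hx
    rw [Prod.smul_fst, Pi.smul_apply, CS_fst_mem (Finset.mem_coe.2 hx)]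
    unfold bit
    split_ifs <;> simp
  rw [Finset.sum_congr rfl this, Finset.sum_ite_eq]

theorem CS_sum_snd {A : Finset α} {Y : α → Set α} {δ : ℕ} {t : α → Fin δ → ZMod 2}
    (c : α → ZMod 2) : (∑ x ∈ A, c x • bvec (A : Set α) Y t x).2 = 0 := by
  rw [Prod.snd_sum]
  refine Finset.sum_eq_zero fun x hx => ?_
  rw [Prod.smul_snd, CS_snd_mem (Finset.mem_coe.2 hx), smul_zero]

theorem CS_indepA {A : Finset α} {Y : α → Set α} {δ : ℕ} {t : α → Fin δ → ZMod 2} :
    LinearIndepOn (ZMod 2) (bvec (A : Set α) Y t) (A : Set α) := by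
  rw [linearIndepOn_finset_iff]
  intro f hf x hx
  have h1 := CS_sum_fst (A := A) (Y := Y) (t := t) f x
  rw [hf, if_pos hx] at h1
  exact h1.symm

theorem CS_mem_span {A : Finset α} {Y : α → Set α} {δ : ℕ} {t : α → Fin δ → ZMod 2}
    {p : (α → ZMod 2) × (Fin δ → ZMod 2)} (h2 : p.2 = 0) (h1 : ∀ a, a ∉ A → p.1 a = 0) :
    p ∈ Submodule.span (ZMod 2) (bvec (A : Set α) Y t '' (A : Set α)) := by
  rw [Submodule.mem_span_image_finset_iff_exists_fun']
  refine ⟨p.1, ?_⟩
  apply Prod.ext
  · funext a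
    rw [CS_sum_fst]
    split_ifs with h
    · rfl
    · exact (h1 a h).symm
  · rw [CS_sum_snd, h2]

/-- the span of two vectors over the field with two elements -/
theorem CS_pair {δ : ℕ} {x y z : Fin δ → ZMod 2} (h : z ∈ Submodule.span (ZMod 2) {x, y}) :
    z = 0 ∨ z = x ∨ z = y ∨ z = x + y := by
  rw [Submodule.mem_span_pair] at h
  obtain ⟨a, b, rfl⟩ := h
  have h01 : ∀ c : ZMod 2, c = 0 ∨ c = 1 := by decide
  rcases h01 a with rfl | rfl <;> rcases h01 b with rfl | rfl <;> simp

theorem CS_full {x y z w : Fin 3 → ZMod 2} (hx : x ≠ 0) (hy : y ≠ 0) (hxy : x ≠ y)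
    (hz : z ∉ Submodule.span (ZMod 2) {x, y}) (hw : w ∉ Submodule.span (ZMod 2) {x, y}) :
    z + w ∈ Submodule.span (ZMod 2) {x, y} := by
  have h01 : ∀ c : ZMod 2, c = 0 ∨ c = 1 := by decide
  have hli2 : LinearIndependent (ZMod 2) ![x, y] := by
    rw [LinearIndependent.pair_iff]
    intro a b hab
    rcases h01 a with rfl | rfl <;> rcases h01 b with rfl | rfl
    · exact ⟨rfl, rfl⟩
    · simp at hab; exact absurd hab hy
    · simp at hab; exact absurd hab hx
    · exfalso
      rw [one_smul, one_smul] at hab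
      apply hxy
      have : x = x + (x + y) := by rw [hab, add_zero]
      rw [this, ← add_assoc, CS_add_self, zero_add]
  have hli3 : LinearIndependent (ZMod 2) ![z, x, y] := by
    show LinearIndependent (ZMod 2) (Fin.cons z ![x, y] : Fin 3 → Fin 3 → ZMod 2)
    rw [linearIndependent_finCons]
    refine ⟨hli2, ?_⟩
    rw [Matrix.range_cons, Matrix.range_cons, Matrix.range_empty, union_empty]
    exact hz
  have htop := hli3.span_eq_top_of_card_eq_finrank (by simp)
  have hw' : w ∈ Submodule.span (ZMod 2) (range ![z, x, y]) := by rw [htop]; trivial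
  rw [Matrix.range_cons, Matrix.range_cons, Matrix.range_cons, Matrix.range_empty, union_empty,
    singleton_union, Submodule.mem_span_insert] at hw'
  obtain ⟨c, u, hu, rfl⟩ := hw'
  rcases h01 c with rfl | rfl
  · exfalso; apply hw; rw [zero_smul, zero_add]; exact hu
  · rw [one_smul, ← add_assoc, CS_add_self, zero_add]; exact hu

theorem sdata_of_c7 {M : Matroid α} {A B A₁ : Set α} {Y : α → Set α} {t : α → Fin 3 → ZMod 2}
    (hL : Lab M A B) (hc : C7 M A B A₁ Y t) {a1 a2 a3 : α} (h12 : a1 ≠ a2) (h13 : a1 ≠ a3)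
    (h23 : a2 ≠ a3) (h : A \ A₁ = {a1, a2, a3}) (hsum : t a1 + t a2 + t a3 = 0) :
    SData M A B := by
  classical
  have : Nonempty α := ⟨a1⟩
  have hAE : A ⊆ M.E := by rw [← hL.cover]; exact subset_union_left
  have hBE : B ⊆ M.E := by rw [← hL.cover]; exact subset_union_right
  have hA1E : A₁ ⊆ M.E := hc.sub.trans hAE
  have hE : A₁ ∪ (M.E \ A₁) = M.E := union_sdiff_cancel hA1E
  obtain ⟨A₁f, rfl⟩ : ∃ s : Finset α, (s : Set α) = A₁ :=
    ⟨(hL.fin.subset hA1E).toFinset, by simp⟩
  have m1 : a1 ∈ A \ (A₁f : Set α) := by rw [h]; simp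
  have m2 : a2 ∈ A \ (A₁f : Set α) := by rw [h]; simp
  have m3 : a3 ∈ A \ (A₁f : Set α) := by rw [h]; simp
  have n1 : a1 ∉ (A₁f : Set α) := m1.2
  have n2 : a2 ∉ (A₁f : Set α) := m2.2
  have n3 : a3 ∉ (A₁f : Set α) := m3.2
  have ht3 : t a3 = t a1 + t a2 := by
    have : t a3 = (t a1 + t a2) + (t a1 + t a2 + t a3) := by
      rw [← add_assoc, CS_add_self, zero_add]
    rw [this, hsum, add_zero]
  have hBA : ∀ b ∈ B, b ∉ A := fun b hb hbA => disjoint_left.1 hL.disj hbA hb
  have hBA1 : ∀ b ∈ B, b ∉ (A₁f : Set α) := fun b hb hb' => hBA b hb (hc.sub hb')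
  have hlf1 := lf1 hL hc
  set L : Submodule (ZMod 2) (Fin 3 → ZMod 2) := Submodule.span (ZMod 2) {t a1, t a2} with hLdef
  have hBL : ∀ b ∈ B, t b ∉ L := by
    intro b hb hcon
    rcases CS_pair hcon with h' | h' | h' | h'
    · exact (hlf1 b hb).1 h'
    · exact (hlf1 b hb).2 a1 m1 h'
    · exact (hlf1 b hb).2 a2 m2 h'
    · exact (hlf1 b hb).2 a3 m3 (h'.trans ht3.symm)
  have hAL : ∀ x ∈ A \ (A₁f : Set α), t x ∈ L := by
    intro x hx
    have hx' : x ∈ ({a1, a2, a3} : Set α) := by rw [← h]; exact hx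
    rcases hx' with rfl | rfl | rfl
    · exact Submodule.subset_span (by simp)
    · exact Submodule.subset_span (by simp)
    · rw [ht3]
      exact Submodule.add_mem _ (Submodule.subset_span (by simp)) (Submodule.subset_span (by simp))
  -- the transversal
  have hsurj := hc.surj
  choose! c hcc using hsurj
  have hcB : ∀ s, s ∉ L → c s ∈ B := by
    intro s hs
    have hs0 : s ≠ 0 := fun h0 => hs (by rw [h0]; exact Submodule.zero_mem _)
    have h1 := hcc s hs0
    have h2 : c s ∈ A ∪ B := by rw [hL.cover]; exact h1.1.1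
    rcases h2 with h2 | h2
    · exact absurd (hAL (c s) ⟨h2, h1.1.2⟩) (by rw [h1.2]; exact hs)
    · exact h2
  have hcA : ∀ x ∈ A \ (A₁f : Set α), c (t x) = x := by
    intro x hx
    have h1 := hcc (t x) (hc.ne x hx)
    have h2 : c (t x) ∈ A ∪ B := by rw [hL.cover]; exact h1.1.1
    rcases h2 with h2 | h2
    · exact hc.inj ⟨h2, h1.1.2⟩ hx h1.2
    · exact absurd h1.2 ((hlf1 _ h2).2 x hx)
  -- the claim
  have hclaim : ∀ a ∈ (A₁f : Set α), bit (a ∈ Y a1) + bit (a ∈ Y a2) + bit (a ∈ Y a3) = 1 := by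
    intro a ha
    obtain ⟨s, hs, l, hl⟩ := lf2 hL hc ha (c := c) hcc
    have e1 := hl (t a1) (hc.ne a1 m1)
    have e2 := hl (t a2) (hc.ne a2 m2)
    have e3 := hl (t a3) (hc.ne a3 m3)
    rw [hcA a1 m1] at e1
    rw [hcA a2 m2] at e2
    rw [hcA a3 m3] at e3
    have el : l (t a1) + l (t a2) + l (t a3) = 0 := by
      rw [← map_add, ← map_add, hsum, map_zero]
    have hne12 : t a1 ≠ t a2 := fun h' => h12 (hc.inj m1 m2 h')
    have hne13 : t a1 ≠ t a3 := fun h' => h13 (hc.inj m1 m3 h')
    have hne23 : t a2 ≠ t a3 := fun h' => h23 (hc.inj m2 m3 h')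
    have htot : bit (a ∈ Y a1) + bit (a ∈ Y a2) + bit (a ∈ Y a3) =
        (bit (t a1 = s) + bit (t a2 = s) + bit (t a3 = s)) + bit (c s ∈ B) := by
      rw [e1, e2, e3]
      have h3 : bit (c s ∈ B) + bit (c s ∈ B) = 0 := CS_add_self _
      have : bit (t a1 = s) + bit (c s ∈ B) + l (t a1) + (bit (t a2 = s) + bit (c s ∈ B) + l (t a2)) +
          (bit (t a3 = s) + bit (c s ∈ B) + l (t a3)) =
          (bit (t a1 = s) + bit (t a2 = s) + bit (t a3 = s)) + bit (c s ∈ B) +
          (bit (c s ∈ B) + bit (c s ∈ B)) + (l (t a1) + l (t a2) + l (t a3)) := by ring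
      rw [this, h3, el, add_zero, add_zero]
    rw [htot]
    by_cases hsL : s ∈ L
    · have hsA : ∃ x ∈ A \ (A₁f : Set α), t x = s := by
        rcases CS_pair hsL with h' | h' | h' | h'
        · exact absurd h' hs
        · exact ⟨a1, m1, h'.symm⟩
        · exact ⟨a2, m2, h'.symm⟩
        · exact ⟨a3, m3, by rw [h', ht3]⟩
      obtain ⟨x, hx, hxs⟩ := hsA
      have hcs : c s ∉ B := by
        rw [← hxs, hcA x hx]
        exact fun hxB => hBA x hxB hx.1
      have hx' : x ∈ ({a1, a2, a3} : Set α) := by rw [← h]; exact hx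
      subst hxs
      unfold bit
      rcases hx' with rfl | rfl | rfl
      · simp [hcs, hne12.symm, hne13.symm]
      · simp [hcs, hne12, hne23.symm]
      · simp [hcs, hne13, hne23]
    · have k1 : t a1 ≠ s := fun h' => hsL (h' ▸ hAL a1 m1)
      have k2 : t a2 ≠ s := fun h' => hsL (h' ▸ hAL a2 m2)
      have k3 : t a3 ≠ s := fun h' => hsL (h' ▸ hAL a3 m3)
      have k4 : c s ∈ B := hcB s hsL
      unfold bit
      simp [k1, k2, k3, k4]
  set v := bvec (A₁f : Set α) Y t with hv
  have hYsub : ∀ x ∈ M.E \ (A₁f : Set α), Y x ⊆ (A₁f : Set α) := hc.form.1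
  -- the finite set A
  set Af : Finset α := insert a1 (insert a2 (insert a3 A₁f)) with hAf
  have hAfA : (Af : Set α) = A := by
    rw [hAf]
    push_cast
    have : A = (A \ (A₁f : Set α)) ∪ (A₁f : Set α) := (sdiff_union_of_subset hc.sub).symm
    rw [this, h]
    ext x
    simp
    tauto
  have nf1 : a1 ∉ insert a2 (insert a3 A₁f) := by
    simp only [Finset.mem_insert, not_or]
    exact ⟨h12, h13, n1⟩
  have nf2 : a2 ∉ insert a3 A₁f := by
    simp only [Finset.mem_insert, not_or]
    exact ⟨h23, n2⟩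
  have nf3 : a3 ∉ A₁f := n3
  have hs0 : ∑ x ∈ Af, v x = 0 := by
    rw [hAf, Finset.sum_insert nf1, Finset.sum_insert nf2, Finset.sum_insert nf3]
    have hone : ∑ x ∈ A₁f, v x = ∑ x ∈ A₁f, (1 : ZMod 2) • v x := by simp
    apply Prod.ext
    · funext a
      simp only [Prod.fst_add, Pi.add_apply, Prod.fst_zero, Pi.zero_apply]
      rw [hone, hv, CS_sum_fst (fun _ => 1) a, CS_fst_notMem n1, CS_fst_notMem n2, CS_fst_notMem n3]
      by_cases ha : a ∈ A₁f
      · rw [if_pos ha]
        have := hclaim a ha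
        have e : bit (a ∈ Y a1) + (bit (a ∈ Y a2) + (bit (a ∈ Y a3) + 1)) =
          (bit (a ∈ Y a1) + bit (a ∈ Y a2) + bit (a ∈ Y a3)) + 1 := by ring
        rw [e, this]; decide
      · rw [if_neg ha]
        have y1 : a ∉ Y a1 := fun h' => ha (hYsub a1 ⟨hAE m1.1, n1⟩ h')
        have y2 : a ∉ Y a2 := fun h' => ha (hYsub a2 ⟨hAE m2.1, n2⟩ h')
        have y3 : a ∉ Y a3 := fun h' => ha (hYsub a3 ⟨hAE m3.1, n3⟩ h')
        unfold bit
        simp [y1, y2, y3]
    · simp only [Prod.snd_add, Prod.snd_zero]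
      rw [hone, hv, CS_sum_snd, CS_snd_notMem n1, CS_snd_notMem n2, CS_snd_notMem n3, add_zero,
        ← add_assoc, hsum]
  have hvL : ∀ x ∈ A, (v x).2 ∈ L := by
    intro x hx
    by_cases hx1 : x ∈ (A₁f : Set α)
    · rw [hv, CS_snd_mem hx1]; exact Submodule.zero_mem _
    · rw [hv, CS_snd_notMem hx1]; exact hAL x ⟨hx, hx1⟩
  have hspan2 : ∀ (p : (α → ZMod 2) × (Fin 3 → ZMod 2)) (S : Set α)
      (N : Submodule (ZMod 2) (Fin 3 → ZMod 2)), (∀ x ∈ S, (v x).2 ∈ N) →
      p ∈ Submodule.span (ZMod 2) (v '' S) → p.2 ∈ N := by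
    intro p S N hN hp
    have hle : Submodule.span (ZMod 2) (v '' S) ≤ N.comap (LinearMap.snd (ZMod 2) _ _) := by
      rw [Submodule.span_le]
      rintro _ ⟨x, hx, rfl⟩
      exact hN x hx
    exact hle hp
  refine CS_abs (v := v) hL.fin hL.cover hL.disj ?_ hAfA hs0 (a3 := a3) (by simp [hAf]) ?_ ?_ ?_ ?_
  · intro I hI
    exact hc.form.2 I (by rw [hE]; exact hI)
  · -- independence
    have e : (Af : Set α) \ {a3} = insert a1 (insert a2 (A₁f : Set α)) := by
      ext x
      simp only [hAf, Finset.coe_insert, mem_sdiff, mem_insert_iff, Finset.mem_coe, mem_singleton_iff]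
      constructor
      · rintro ⟨h1, h2⟩; tauto
      · rintro (h1 | h1 | h1)
        · subst h1; exact ⟨Or.inl rfl, h13⟩
        · subst h1; exact ⟨Or.inr (Or.inl rfl), h23⟩
        · exact ⟨Or.inr (Or.inr (Or.inr h1)), fun h' => nf3 (h' ▸ h1)⟩
    rw [e, linearIndepOn_insert, linearIndepOn_insert n2]
    · refine ⟨⟨CS_indepA, ?_⟩, ?_⟩
      · intro hp
        have := hspan2 _ _ ⊥ (fun x hx => by rw [hv, CS_snd_mem hx]; exact Submodule.zero_mem _) hp
        rw [hv, CS_snd_notMem n2, Submodule.mem_bot] at this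
        exact hc.ne a2 m2 this
      · intro hp
        have := hspan2 _ _ (Submodule.span (ZMod 2) {t a2, t a2}) (fun x hx => by
          rcases hx with rfl | hx
          · rw [hv, CS_snd_notMem n2]; exact Submodule.subset_span (by simp)
          · rw [hv, CS_snd_mem hx]; exact Submodule.zero_mem _) hp
        rw [hv, CS_snd_notMem n1] at this
        have hne12 : t a1 ≠ t a2 := fun h' => h12 (hc.inj m1 m2 h')
        rcases CS_pair this with h' | h' | h' | h'
        · exact hc.ne a1 m1 h'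
        · exact hne12 h'
        · exact hne12 h'
        · rw [CS_add_self] at h'; exact hc.ne a1 m1 h'
    · rintro (h' | h')
      · exact h12 h'
      · exact n1 h'
  · intro b hb hp
    have := hspan2 _ _ L hvL hp
    rw [hv, CS_snd_notMem (hBA1 b hb)] at this
    exact hBL b hb this
  · intro b hb b' hb'
    have hLL := CS_full (hc.ne a1 m1) (hc.ne a2 m2) (fun h' => h12 (hc.inj m1 m2 h'))
      (hBL b hb) (hBL b' hb')
    rw [Submodule.mem_span_pair] at hLL
    obtain ⟨p, q, hpq⟩ := hLL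
    have hsub : Submodule.span (ZMod 2) (v '' (A₁f : Set α)) ≤ Submodule.span (ZMod 2) (v '' A) :=
      Submodule.span_mono (image_mono hc.sub)
    have hmem : v b + v b' + (p • v a1 + q • v a2) ∈ Submodule.span (ZMod 2) (v '' (A₁f : Set α)) := by
      apply CS_mem_span
      · simp only [Prod.snd_add, Prod.smul_snd]
        rw [hv, CS_snd_notMem (hBA1 b hb), CS_snd_notMem (hBA1 b' hb'), CS_snd_notMem n1,
          CS_snd_notMem n2, hpq, CS_add_self]
      · intro a ha
        simp only [Prod.fst_add, Prod.smul_fst, Pi.add_apply, Pi.smul_apply]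
        rw [hv, CS_fst_notMem (hBA1 b hb), CS_fst_notMem (hBA1 b' hb'), CS_fst_notMem n1,
          CS_fst_notMem n2]
        have y1 : a ∉ Y a1 := fun h' => ha (hYsub a1 ⟨hAE m1.1, n1⟩ h')
        have y2 : a ∉ Y a2 := fun h' => ha (hYsub a2 ⟨hAE m2.1, n2⟩ h')
        have y3 : a ∉ Y b := fun h' => ha (hYsub b ⟨hBE hb, hBA1 b hb⟩ h')
        have y4 : a ∉ Y b' := fun h' => ha (hYsub b' ⟨hBE hb', hBA1 b' hb'⟩ h')
        unfold bit
        simp [y1, y2, y3, y4]
    have hcomb : p • v a1 + q • v a2 ∈ Submodule.span (ZMod 2) (v '' A) := by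
      apply Submodule.add_mem
      · exact Submodule.smul_mem _ _ (Submodule.subset_span ⟨a1, m1.1, rfl⟩)
      · exact Submodule.smul_mem _ _ (Submodule.subset_span ⟨a2, m2.1, rfl⟩)
    have e : v b + v b' = (v b + v b' + (p • v a1 + q • v a2)) + (p • v a1 + q • v a2) := by
      rw [add_assoc, CS_add_self, add_zero]
    rw [e]
    exact Submodule.add_mem _ (hsub hmem) hcomb
  · -- B is nonempty
    have hex : ∃ s : Fin 3 → ZMod 2, s ∉ ({0, t a1, t a2, t a3} : Finset (Fin 3 → ZMod 2)) := by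
      by_contra hcon
      push Not at hcon
      have h1 : (Finset.univ : Finset (Fin 3 → ZMod 2)) ⊆ {0, t a1, t a2, t a3} :=
        fun s _ => hcon s
      have h2 := Finset.card_le_card h1
      have h3 : ({0, t a1, t a2, t a3} : Finset (Fin 3 → ZMod 2)).card ≤ 4 := Finset.card_le_four
      have h4 : (Finset.univ : Finset (Fin 3 → ZMod 2)).card = 8 := by
        rw [Finset.card_univ]; simp [ZMod.card]
      omega
    obtain ⟨s, hs⟩ := hex
    simp only [Finset.mem_insert, Finset.mem_singleton, not_or] at hs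
    refine ⟨c s, hcB s ?_⟩
    intro hsL
    rcases CS_pair hsL with h' | h' | h' | h'
    · exact hs.1 h'
    · exact hs.2.1 h'
    · exact hs.2.2.1 h'
    · exact hs.2.2.2 (by rw [h', ht3])

end Pool.Agent.Helper43_EOR
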