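import Mathlib
import Pool.Agent.Helper43_EOR.F7

set_option autoImplicit false

namespace Pool.Agent.Helper43_EOR

open Set Matroid

variable {α : Type*}

/-- first component -/
def D1_sf (s : Fin 4 → ZMod 2) : Fin 3 → ZMod 2 := ![s 0, s 1 + s 3, s 2 + s 3]

/-- parity -/
def D1_pf (s : Fin 4 → ZMod 2) : ZMod 2 := s 0 + s 1 + s 2 + s 3

/-- the inverse on vectors of odd weight -/
def D1_w (v : Fin 3 → ZMod 2) : Fin 4 → ZMod 2 :=
  ![v 0, 1 + v 0 + v 2, 1 + v 0 + v 1, 1 + v 0 + v 1 + v 2]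

def D1_sig : (Fin 4 → ZMod 2) →ₗ[ZMod 2] (Fin 3 → ZMod 2) where
  toFun := D1_sf
  map_add' x y := by
    ext i; fin_cases i <;> simp [D1_sf] <;> ring
  map_smul' c x := by
    ext i; fin_cases i <;> simp [D1_sf] <;> ring

def D1_par : (Fin 4 → ZMod 2) →ₗ[ZMod 2] ZMod 2 where
  toFun := D1_pf
  map_add' x y := by simp [D1_pf]; ring
  map_smul' c x := by simp [D1_pf]; ring

theorem D1_sum (s : Fin 4 → ZMod 2) : ∑ i, s i = D1_par s := by
  rw [Fin.sum_univ_four]; rfl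

theorem D1_sig_w (v : Fin 3 → ZMod 2) : D1_sig (D1_w v) = v := by
  revert v; change ∀ v, D1_sf (D1_w v) = v; decide

theorem D1_par_w (v : Fin 3 → ZMod 2) : D1_par (D1_w v) = 1 := by
  revert v; change ∀ v, D1_pf (D1_w v) = 1; decide

theorem D1_w_eq (v : Fin 3 → ZMod 2) (h : D1_w v = ![0, 1, 1, 1]) : v = 0 := by
  revert v; decide

theorem D1_w_sig (s : Fin 4 → ZMod 2) (h : D1_par s = 1) : D1_w (D1_sig s) = s := by
  revert s; change ∀ s, D1_pf s = 1 → D1_w (D1_sf s) = s; decide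

theorem D1_w_inj {v v' : Fin 3 → ZMod 2} (h : D1_w v = D1_w v') : v = v' := by
  rw [← D1_sig_w v, h, D1_sig_w]

theorem D1_sig_ne {s : Fin 4 → ZMod 2} (h : D1_par s = 1) (h' : s ≠ ![0, 1, 1, 1]) :
    D1_sig s ≠ 0 := by
  revert s; change ∀ s, D1_pf s = 1 → s ≠ ![0, 1, 1, 1] → D1_sf s ≠ 0; decide

theorem D1_sig_m : D1_sig ![0, 1, 1, 1] = 0 := by
  change D1_sf _ = 0; decide

theorem D1_par_m : D1_par ![0, 1, 1, 1] = 1 := by
  change D1_pf _ = 1; decide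

theorem D1_ker {s : Fin 4 → ZMod 2} (h : D1_sig s = 0) (h' : D1_par s = 0) : s = 0 := by
  revert s; change ∀ s, D1_sf s = 0 → D1_pf s = 0 → s = 0; decide

theorem D1_add_self {n : ℕ} (s : Fin n → ZMod 2) : s + s = 0 := by
  ext i; exact CharTwo.add_self_eq_zero _

theorem D1_add_self' (s : ZMod 2) : s + s = 0 := CharTwo.add_self_eq_zero _

theorem D1_zo (c : ZMod 2) : c = 0 ∨ c = 1 := by
  revert c; decide

theorem D1_eq_of_add {n : ℕ} {s s' : Fin n → ZMod 2} (h : s + s' = 0) : s = s' := by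
  have := D1_add_self s'
  calc s = s + (s' + s') := by rw [this, add_zero]
    _ = (s + s') + s' := by rw [add_assoc]
    _ = s' := by rw [h, zero_add]

/-- The map with kernel `{0, y}` for `y` of odd weight. -/
def D1_R (y : Fin 4 → ZMod 2) : (Fin 4 → ZMod 2) →ₗ[ZMod 2] (Fin 3 → ZMod 2) :=
  D1_sig + D1_par.smulRight (D1_sig y)

theorem D1_R_apply (y s : Fin 4 → ZMod 2) : D1_R y s = D1_sig s + D1_par s • D1_sig y := rfl

theorem D1_R_odd {y s : Fin 4 → ZMod 2} (h : D1_par s = 1) : D1_R y s = D1_sig s + D1_sig y := by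
  rw [D1_R_apply, h, one_smul]

theorem D1_R_even {y s : Fin 4 → ZMod 2} (h : D1_par s = 0) : D1_R y s = D1_sig s := by
  rw [D1_R_apply, h, zero_smul, add_zero]

theorem D1_R_ker {y s : Fin 4 → ZMod 2} (hy : D1_par y = 1) (h : D1_R y s = 0) :
    s = 0 ∨ s = y := by
  rcases D1_zo (D1_par s) with h1 | h1
  · rw [D1_R_even h1] at h
    exact Or.inl (D1_ker h h1)
  · rw [D1_R_odd h1] at h
    have h2 := D1_eq_of_add h
    right
    rw [← D1_w_sig s h1, h2, D1_w_sig y hy]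

/-- The map `Θ`. -/
def D1_th : (Fin 4 → ZMod 2) →ₗ[ZMod 2] (Fin 3 → ZMod 2) × ZMod 2 :=
  D1_sig.prod D1_par

theorem D1_th_apply (s : Fin 4 → ZMod 2) : D1_th s = (D1_sig s, D1_par s) := rfl

theorem D1_th_ker {s : Fin 4 → ZMod 2} (h : D1_th s = 0) : s = 0 := by
  rw [D1_th_apply, Prod.mk_eq_zero] at h
  exact D1_ker h.1 h.2

theorem D1_bit_true {p : Prop} (h : p) : bit p = 1 := by
  unfold bit; rw [if_pos h]

theorem D1_bit_false {p : Prop} (h : ¬ p) : bit p = 0 := by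
  unfold bit; rw [if_neg h]

theorem D1_co_notMem {A₁ : Set α} {Y : α → Set α} {δ k : ℕ} {t : α → Fin δ → ZMod 2}
    (q : Fin k → α) {x : α} (h : x ∉ A₁) :
    co A₁ Y t q x = (fun i => bit (q i ∈ Y x), t x) := by
  classical
  unfold co bvec
  rw [if_neg h]
  refine Prod.ext ?_ rfl
  funext i
  simp only [Set.indicator, bit, Pi.one_apply]

theorem D1_co_mem {A₁ : Set α} {Y : α → Set α} {δ k : ℕ} {t : α → Fin δ → ZMod 2}
    (q : Fin k → α) {x : α} (h : x ∈ A₁) :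
    co A₁ Y t q x = (fun i => bit (q i = x), 0) := by
  classical
  unfold co bvec
  rw [if_pos h]
  refine Prod.ext ?_ rfl
  funext i
  simp only [bit, Pi.single_apply]

theorem D1_noF {M : Matroid α} {A B A₁ : Set α} {Y : α → Set α} {t : α → Fin 4 → ZMod 2}
    (hL : Lab M A B) (hc : C7d M A B A₁ Y t)
    {k : ℕ} {q : Fin k → α} (hq : q.Injective) (hqA : ∀ i, q i ∈ A₁)
    {Zs : Set α} (hZ : Zs ⊆ M.E)
    (T : (Fin k → ZMod 2) × (Fin 4 → ZMod 2) →ₗ[ZMod 2] (Fin 3 → ZMod 2))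
    (hT0 : ∀ z ∈ Zs, T (co A₁ Y t q z) = 0)
    (hker : ∀ y, T y = 0 → y ∈ Submodule.span (ZMod 2) (co A₁ Y t q '' Zs))
    (x : (Fin 3 → ZMod 2) → α) (hx : ∀ s ≠ 0, x s ∈ M.E ∧ T (co A₁ Y t q (x s)) = s) :
    False := by
  have hAE : A ⊆ M.E := by rw [← hL.cover]; exact subset_union_left
  have hA₁E : A₁ ⊆ M.E := hc.sub.trans hAE
  have h := fano_minor hA₁E hL.fin hc.form hq hqA hZ T hT0 hker x hx
  refine hc.noF _ _ ?_ ?_ ?_ h
  · exact union_subset (diff_subset.trans hA₁E) hZ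
  · exact diff_subset
  · exact disjoint_sdiff_right.mono_left subset_union_left

/-- a transversal extending `A \ A₁` -/
theorem D1_trans {M : Matroid α} {A B A₁ : Set α} {Y : α → Set α} {t : α → Fin 4 → ZMod 2}
    (hL : Lab M A B) (hc : C7d M A B A₁ Y t) :
    ∃ c : (Fin 4 → ZMod 2) → α, (∀ s, D1_par s = 1 → s ≠ ![0, 1, 1, 1] →
      c s ∈ M.E \ A₁ ∧ t (c s) = s) ∧ ∀ a ∈ A \ A₁, c (t a) = a := by
  classical
  have hAE : A ⊆ M.E := by rw [← hL.cover]; exact subset_union_left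
  have h : ∀ s : Fin 4 → ZMod 2, ∃ x : α, (D1_par s = 1 → s ≠ ![0, 1, 1, 1] →
      x ∈ M.E \ A₁ ∧ t x = s) ∧ ∀ a ∈ A \ A₁, t a = s → x = a := by
    intro s
    by_cases h1 : ∃ a ∈ A \ A₁, t a = s
    · obtain ⟨a, ha, hs⟩ := h1
      refine ⟨a, fun _ _ => ⟨⟨hAE ha.1, ha.2⟩, hs⟩, fun a' ha' hs' => ?_⟩
      exact hc.inj ha ha' (hs.trans hs'.symm)
    · by_cases h2 : D1_par s = 1 ∧ s ≠ ![0, 1, 1, 1]
      · obtain ⟨x, hx, hs⟩ := hc.surj s (by rw [D1_sum]; exact h2.1) h2.2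
        exact ⟨x, fun _ _ => ⟨hx, hs⟩, fun a ha hs' => absurd ⟨a, ha, hs'⟩ h1⟩
      · obtain ⟨x, -, -⟩ := hc.surj (D1_w 1) (by rw [D1_sum]; exact D1_par_w _)
          (fun h => by
            have := D1_w_eq _ h
            exact absurd this (by decide))
        exact ⟨x, fun a b => absurd ⟨a, b⟩ h2, fun a ha hs' => absurd ⟨a, ha, hs'⟩ h1⟩
  choose c hc1 hc2 using h
  exact ⟨c, hc1, fun a ha => hc2 _ a ha rfl⟩

theorem D1_w_ok {v : Fin 3 → ZMod 2} (hv : v ≠ 0) :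
    D1_par (D1_w v) = 1 ∧ D1_w v ≠ ![0, 1, 1, 1] :=
  ⟨D1_par_w v, fun h => hv (D1_w_eq v h)⟩

/-- part (1) -/
theorem D1_one {M : Matroid α} {A B A₁ : Set α} {Y : α → Set α} {t : α → Fin 4 → ZMod 2}
    (hL : Lab M A B) (hc : C7d M A B A₁ Y t) {b : α} (hb : b ∈ B) :
    ∑ i, t b i = 1 ∧ t b ≠ ![0, 1, 1, 1] ∧ ∀ a ∈ A \ A₁, t b ≠ t a := by
  classical
  obtain ⟨c, hc1, hc2⟩ := D1_trans hL hc
  have hbE : b ∈ M.E := by rw [← hL.cover]; exact Or.inr hb
  have hbA : b ∉ A := fun h => hL.disj.le_bot ⟨h, hb⟩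
  have hb1 : b ∉ A₁ := fun h => hbA (hc.sub h)
  have hq : Function.Injective (Fin.elim0 : Fin 0 → α) := fun i => i.elim0
  have hqA : ∀ i, (Fin.elim0 : Fin 0 → α) i ∈ A₁ := fun i => i.elim0
  have hcon : ∀ x, x ∉ A₁ → co A₁ Y t (Fin.elim0 : Fin 0 → α) x = (0, t x) := by
    intro x hx
    rw [D1_co_notMem _ hx]
    exact Prod.ext (Subsingleton.elim _ _) rfl
  -- `t b ≠ m`
  have h2 : t b ≠ ![0, 1, 1, 1] := by
    intro hm
    refine D1_noF hL hc hq hqA (Zs := {b}) (by simpa using hbE)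
      (D1_sig ∘ₗ LinearMap.snd (ZMod 2) _ _) ?_ ?_ (fun v => c (D1_w v)) ?_
    · intro z hz
      rw [mem_singleton_iff] at hz
      subst hz
      rw [hcon _ hb1, LinearMap.comp_apply, LinearMap.snd_apply, hm, D1_sig_m]
    · rintro ⟨u, s⟩ hy
      rw [LinearMap.comp_apply, LinearMap.snd_apply] at hy
      rw [image_singleton, hcon _ hb1, Submodule.mem_span_singleton, hm]
      have h3 : D1_R ![0, 1, 1, 1] s = 0 := by
        rw [D1_R_apply, hy, D1_sig_m, smul_zero, add_zero]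
      rcases D1_R_ker D1_par_m h3 with h4 | h4
      · exact ⟨0, by rw [zero_smul]; exact Prod.ext (Subsingleton.elim _ _) h4.symm⟩
      · exact ⟨1, by rw [one_smul]; exact Prod.ext (Subsingleton.elim _ _) h4.symm⟩
    · intro v hv
      obtain ⟨h3, h4⟩ := D1_w_ok hv
      obtain ⟨h5, h6⟩ := hc1 _ h3 h4
      refine ⟨h5.1, ?_⟩
      rw [hcon _ h5.2, LinearMap.comp_apply, LinearMap.snd_apply, h6, D1_sig_w]
  -- odd weight
  have h1 : D1_par (t b) = 1 := by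
    rcases D1_zo (D1_par (t b)) with h0 | h0
    swap
    · exact h0
    exfalso
    by_cases hz : t b = 0
    · have := (Lab.obs7d hL hc.sub hc.form hq hqA (Zs := {b}) (by simpa using hbE)
        (D1_th ∘ₗ LinearMap.snd (ZMod 2) _ _) ?_ ?_ 0 (fun v => c (D1_w v)) ?_).1
      · exact hbA (this rfl)
      · intro z hz'
        rw [mem_singleton_iff] at hz'
        subst hz'
        rw [hcon _ hb1, LinearMap.comp_apply, LinearMap.snd_apply, hz, map_zero]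
      · rintro ⟨u, s⟩ hy
        rw [LinearMap.comp_apply, LinearMap.snd_apply] at hy
        have h4 := D1_th_ker hy
        have : ((u, s) : (Fin 0 → ZMod 2) × (Fin 4 → ZMod 2)) = 0 :=
          Prod.ext (Subsingleton.elim _ _) h4
        rw [this]
        exact Submodule.zero_mem _
      · intro v hv
        obtain ⟨h3, h4⟩ := D1_w_ok hv
        obtain ⟨h5, h6⟩ := hc1 _ h3 h4
        refine ⟨h5.1, ?_⟩
        rw [hcon _ h5.2, LinearMap.comp_apply, LinearMap.snd_apply, h6, D1_th_apply, D1_sig_w,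
          D1_par_w]
    · -- even nonzero
      set y : Fin 4 → ZMod 2 := ![0, 1, 1, 1] + t b with hy
      have hyp : D1_par y = 1 := by rw [hy, map_add, h0, D1_par_m, add_zero]
      have hym : y ≠ ![0, 1, 1, 1] := by
        intro h
        apply hz
        have : ![0, 1, 1, 1] + t b = ![0, 1, 1, 1] + 0 := by rw [← hy, h, add_zero]
        exact add_left_cancel this
      have hsy : D1_sig (t b) = D1_sig y := by rw [hy, map_add, D1_sig_m, zero_add]
      obtain ⟨h5, h6⟩ := hc1 y hyp hym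
      refine D1_noF hL hc hq hqA (Zs := {c y}) (by simpa using h5.1)
        (D1_R y ∘ₗ LinearMap.snd (ZMod 2) _ _) ?_ ?_
        (fun v => if v = D1_sig y then b else c (D1_w (v + D1_sig y))) ?_
      · intro z hz
        rw [mem_singleton_iff] at hz
        subst hz
        rw [hcon _ h5.2, LinearMap.comp_apply, LinearMap.snd_apply, h6, D1_R_odd hyp,
          D1_add_self]
      · rintro ⟨u, s⟩ hs
        rw [LinearMap.comp_apply, LinearMap.snd_apply] at hs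
        rw [image_singleton, hcon _ h5.2, Submodule.mem_span_singleton, h6]
        rcases D1_R_ker hyp hs with h4 | h4
        · exact ⟨0, by rw [zero_smul]; exact Prod.ext (Subsingleton.elim _ _) h4.symm⟩
        · exact ⟨1, by rw [one_smul]; exact Prod.ext (Subsingleton.elim _ _) h4.symm⟩
      · intro v hv
        by_cases hvy : v = D1_sig y
        · rw [if_pos hvy]
          refine ⟨hbE, ?_⟩
          rw [hcon _ hb1, LinearMap.comp_apply, LinearMap.snd_apply, D1_R_even h0, hsy, hvy]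
        · rw [if_neg hvy]
          have hne : v + D1_sig y ≠ 0 := fun h => hvy (D1_eq_of_add h)
          obtain ⟨h3, h4⟩ := D1_w_ok hne
          obtain ⟨h7, h8⟩ := hc1 _ h3 h4
          refine ⟨h7.1, ?_⟩
          rw [hcon _ h7.2, LinearMap.comp_apply, LinearMap.snd_apply, h8, D1_R_odd h3, D1_sig_w,
            add_assoc, D1_add_self, add_zero]
  refine ⟨by rw [D1_sum]; exact h1, h2, ?_⟩
  intro a ha hab
  have hE := (Lab.obs7d hL hc.sub hc.form hq hqA (Zs := ∅) (empty_subset _)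
        (D1_th ∘ₗ LinearMap.snd (ZMod 2) _ _) ?_ ?_ 0
        (fun v => if D1_w v = t a then b else c (D1_w v)) ?_).2 a ha.1
  · rcases hE with h | h | ⟨v, hv, h⟩
    · exact ha.2 h.1
    · exact h
    · by_cases h3 : D1_w v = t a
      · rw [if_pos h3] at h
        exact hbA (h ▸ ha.1)
      · rw [if_neg h3] at h
        obtain ⟨h4, h5⟩ := D1_w_ok hv
        have h6 := (hc1 _ h4 h5).2
        rw [h] at h6
        exact h3 h6.symm
  · intro z hz
    exact absurd hz (notMem_empty z)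
  · rintro ⟨u, s⟩ hy
    rw [LinearMap.comp_apply, LinearMap.snd_apply] at hy
    have h4 := D1_th_ker hy
    have : ((u, s) : (Fin 0 → ZMod 2) × (Fin 4 → ZMod 2)) = 0 :=
      Prod.ext (Subsingleton.elim _ _) h4
    rw [this]
    exact Submodule.zero_mem _
  · intro v hv
    by_cases h3 : D1_w v = t a
    · rw [if_pos h3]
      refine ⟨hbE, ?_⟩
      rw [hcon _ hb1, LinearMap.comp_apply, LinearMap.snd_apply, hab, ← h3, D1_th_apply,
        D1_sig_w, D1_par_w]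
    · rw [if_neg h3]
      obtain ⟨h4, h5⟩ := D1_w_ok hv
      obtain ⟨h6, h7⟩ := hc1 _ h4 h5
      refine ⟨h6.1, ?_⟩
      rw [hcon _ h6.2, LinearMap.comp_apply, LinearMap.snd_apply, h7, D1_th_apply, D1_sig_w,
        D1_par_w]


theorem D1_congr {F : Type*} [Field F] {V : Type*} [AddCommGroup V] [Module F V]
    {M : Matroid α} {w w' : α → V} (h : RepBy F M w) (hw : ∀ x ∈ M.E, w x = w' x) :
    RepBy F M w' := by
  intro I hI
  rw [h I hI]
  exact linearIndepOn_congr fun x hx => hw x (hI hx)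

theorem D1_cases : ∀ v : Fin 3 → ZMod 2, v ≠ 0 → v = ![1, 0, 0] ∨ v = ![0, 1, 0] ∨ v = ![0, 0, 1] ∨
    v = ![1, 1, 0] ∨ v = ![1, 0, 1] ∨ v = ![0, 1, 1] ∨ v = ![1, 1, 1] := by
  decide

theorem D1_ham7 : ∀ f1 f2 f3 f12 f13 f23 f123 : ZMod 2, ∃ v0 : Fin 3 → ZMod 2,
    ∃ l0 l1 l2 c : ZMod 2,
    f1 = (if (![1, 0, 0] : Fin 3 → ZMod 2) = v0 then 1 else 0) + (l0 + c) ∧
    f2 = (if (![0, 1, 0] : Fin 3 → ZMod 2) = v0 then 1 else 0) + (l1 + c) ∧
    f3 = (if (![0, 0, 1] : Fin 3 → ZMod 2) = v0 then 1 else 0) + (l2 + c) ∧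
    f12 = (if (![1, 1, 0] : Fin 3 → ZMod 2) = v0 then 1 else 0) + (l0 + l1 + c) ∧
    f13 = (if (![1, 0, 1] : Fin 3 → ZMod 2) = v0 then 1 else 0) + (l0 + l2 + c) ∧
    f23 = (if (![0, 1, 1] : Fin 3 → ZMod 2) = v0 then 1 else 0) + (l1 + l2 + c) ∧
    f123 = (if (![1, 1, 1] : Fin 3 → ZMod 2) = v0 then 1 else 0) + (l0 + l1 + l2 + c) := by
  have key : ∀ f1 f2 f3 f12 f13 f23 f123 : ZMod 2,
    let v0 : Fin 3 → ZMod 2 := ![f1 + f12 + f13 + f123, f2 + f12 + f23 + f123,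
      f3 + f13 + f23 + f123]
    let g1 := f1 + (if (![1, 0, 0] : Fin 3 → ZMod 2) = v0 then 1 else 0)
    let g2 := f2 + (if (![0, 1, 0] : Fin 3 → ZMod 2) = v0 then 1 else 0)
    let g3 := f3 + (if (![0, 0, 1] : Fin 3 → ZMod 2) = v0 then 1 else 0)
    let g12 := f12 + (if (![1, 1, 0] : Fin 3 → ZMod 2) = v0 then 1 else 0)
    let c := g1 + g2 + g12
    let l0 := g1 + c
    let l1 := g2 + c
    let l2 := g3 + c
    f1 = (if (![1, 0, 0] : Fin 3 → ZMod 2) = v0 then 1 else 0) + (l0 + c) ∧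
    f2 = (if (![0, 1, 0] : Fin 3 → ZMod 2) = v0 then 1 else 0) + (l1 + c) ∧
    f3 = (if (![0, 0, 1] : Fin 3 → ZMod 2) = v0 then 1 else 0) + (l2 + c) ∧
    f12 = (if (![1, 1, 0] : Fin 3 → ZMod 2) = v0 then 1 else 0) + (l0 + l1 + c) ∧
    f13 = (if (![1, 0, 1] : Fin 3 → ZMod 2) = v0 then 1 else 0) + (l0 + l2 + c) ∧
    f23 = (if (![0, 1, 1] : Fin 3 → ZMod 2) = v0 then 1 else 0) + (l1 + l2 + c) ∧
    f123 = (if (![1, 1, 1] : Fin 3 → ZMod 2) = v0 then 1 else 0) + (l0 + l1 + l2 + c) := by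
    decide
  intro f1 f2 f3 f12 f13 f23 f123
  exact ⟨_, _, _, _, _, key f1 f2 f3 f12 f13 f23 f123⟩

/-- the Hamming code is perfect -/
theorem D1_ham (f : (Fin 3 → ZMod 2) → ZMod 2) : ∃ (v0 : Fin 3 → ZMod 2)
    (l : (Fin 4 → ZMod 2) →ₗ[ZMod 2] ZMod 2), ∀ v ≠ 0, f v = bit (v = v0) + l (D1_w v) := by
  obtain ⟨v0, l0, l1, l2, c, h1, h2, h3, h4, h5, h6, h7⟩ := D1_ham7 (f ![1, 0, 0]) (f ![0, 1, 0])
    (f ![0, 0, 1]) (f ![1, 1, 0]) (f ![1, 0, 1]) (f ![0, 1, 1]) (f ![1, 1, 1])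
  let l3 : (Fin 3 → ZMod 2) →ₗ[ZMod 2] ZMod 2 :=
    l0 • LinearMap.proj 0 + l1 • LinearMap.proj 1 + l2 • LinearMap.proj 2
  refine ⟨v0, l3 ∘ₗ D1_sig + c • D1_par, ?_⟩
  intro v hv
  have hl : (l3 ∘ₗ D1_sig + c • D1_par) (D1_w v) = l0 * v 0 + l1 * v 1 + l2 * v 2 + c := by
    rw [LinearMap.add_apply, LinearMap.comp_apply, D1_sig_w, LinearMap.smul_apply, D1_par_w,
      smul_eq_mul, mul_one]
    rfl
  have hb : ∀ p : Prop, [Decidable p] → bit p = if p then 1 else 0 := by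
    intro p _
    unfold bit
    congr
  rw [hl, hb]
  rcases D1_cases v hv with h | h | h | h | h | h | h
  · rw [h, h1]; simp
  · rw [h, h2]; simp
  · rw [h, h3]; simp
  · rw [h, h4]; simp
  · rw [h, h5]; simp
  · rw [h, h6]; simp
  · rw [h, h7]; simp

/-- no coloops: the row of `a` is not linear on a transversal -/
theorem D1_coloop {M : Matroid α} {A B A₁ : Set α} {Y : α → Set α} {t : α → Fin 4 → ZMod 2}
    (hL : Lab M A B) (hc : C7d M A B A₁ Y t) {c : (Fin 4 → ZMod 2) → α}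
    (hc1 : ∀ s, D1_par s = 1 → s ≠ ![0, 1, 1, 1] → c s ∈ M.E \ A₁ ∧ t (c s) = s) {a : α}
    (ha : a ∈ A₁) (l : (Fin 4 → ZMod 2) →ₗ[ZMod 2] ZMod 2)
    (hl : ∀ v ≠ 0, bit (a ∈ Y (c (D1_w v))) = l (D1_w v)) : False := by
  classical
  have hAE : A ⊆ M.E := by rw [← hL.cover]; exact subset_union_left
  have hA₁E : A₁ ⊆ M.E := hc.sub.trans hAE
  have haA : a ∈ A := hc.sub ha
  have hq : Function.Injective (![a] : Fin 1 → α) := fun i j _ => Subsingleton.elim i j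
  have hqA : ∀ i, (![a] : Fin 1 → α) i ∈ A₁ := by
    intro i; fin_cases i; exact ha
  have h0 := minor_form hA₁E hL.fin hc.form hq hqA (Zs := ∅) (empty_subset _)
    (LinearMap.id : (Fin 1 → ZMod 2) × (Fin 4 → ZMod 2) →ₗ[ZMod 2] _)
    (by intro z hz; exact absurd hz (notMem_empty z))
    (by
      intro y hy
      rw [LinearMap.id_apply] at hy
      rw [hy]
      exact Submodule.zero_mem _)
  set C : Set α := (A₁ \ range (![a] : Fin 1 → α)) ∪ ∅ with hC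
  set D : Set α := M.E \ (C ∪ (fun v => c (D1_w v)) '' {v | v ≠ 0}) with hD
  have hCE : C ⊆ M.E := union_subset (diff_subset.trans hA₁E) (empty_subset _)
  have hDE : D ⊆ M.E := diff_subset
  have hCD : Disjoint C D := disjoint_sdiff_right.mono_left subset_union_left
  have h1 := h0.delete D
  have hNE : (M ／ C ＼ D).E = (fun v => c (D1_w v)) '' {v | v ≠ 0} := by
    rw [delete_ground, contract_ground, hD]
    ext x
    constructor
    · rintro ⟨⟨h2, h3⟩, h4⟩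
      by_contra hcon
      exact h4 ⟨h2, fun h5 => h5.elim h3 hcon⟩
    · rintro ⟨v, hv, rfl⟩
      obtain ⟨h3, h4⟩ := D1_w_ok hv
      obtain ⟨h5, h6⟩ := hc1 _ h3 h4
      refine ⟨⟨h5.1, ?_⟩, fun h7 => h7.2 (Or.inr ⟨v, hv, rfl⟩)⟩
      rintro (h7 | h7)
      · exact h5.2 h7.1
      · exact h7
  have haN : a ∉ (fun v => c (D1_w v)) '' {v | v ≠ 0} := by
    rintro ⟨v, hv, h⟩
    obtain ⟨h3, h4⟩ := D1_w_ok hv
    exact (hc1 _ h3 h4).1.2 (by rw [show c (D1_w v) = a from h]; exact ha)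
  have haC : a ∉ C := by
    rintro (h | h)
    · exact h.2 ⟨0, rfl⟩
    · exact h
  have haD : a ∈ D := ⟨hA₁E ha, fun h => h.elim haC haN⟩
  have hco : ∀ v ≠ 0, co A₁ Y t (![a] : Fin 1 → α) (c (D1_w v)) =
      (fun _ => l (D1_w v), D1_w v) := by
    intro v hv
    obtain ⟨h3, h4⟩ := D1_w_ok hv
    obtain ⟨h5, h6⟩ := hc1 _ h3 h4
    rw [D1_co_notMem _ h5.2, h6]
    refine Prod.ext ?_ rfl
    funext i
    fin_cases i
    exact hl v hv
  -- apply the map forgetting the first coordinate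
  have h2 := h1.map (D1_th ∘ₗ LinearMap.snd (ZMod 2) (Fin 1 → ZMod 2) (Fin 4 → ZMod 2)) (by
    intro x hx hx0
    rw [hNE] at hx
    have hsub : Submodule.span (ZMod 2) (((LinearMap.id : (Fin 1 → ZMod 2) × (Fin 4 → ZMod 2) →ₗ[ZMod 2] _) ∘
        co A₁ Y t (![a] : Fin 1 → α)) ''
        ((fun v => c (D1_w v)) '' {v | v ≠ 0})) ≤
        LinearMap.range ((LinearMap.pi fun _ : Fin 1 => l).prod LinearMap.id) := by
      rw [Submodule.span_le]
      rintro _ ⟨_, ⟨v, hv, rfl⟩, rfl⟩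
      refine ⟨D1_w v, ?_⟩
      rw [Function.comp_apply, LinearMap.id_apply, hco v hv]
      rfl
    obtain ⟨s, rfl⟩ := hsub hx
    rw [LinearMap.comp_apply, LinearMap.snd_apply] at hx0
    have hs : s = 0 := D1_th_ker hx0
    rw [hs, map_zero])
  have h3 : IsFano (M ／ C ＼ D)✶ := by
    rw [isFano_dual_iff]
    refine ⟨fun x => D1_sig (t x), ?_, ?_⟩
    · rw [hNE]
      refine ⟨?_, ?_, ?_⟩
      · rintro _ ⟨v, hv, rfl⟩
        obtain ⟨h3, h4⟩ := D1_w_ok hv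
        change D1_sig (t (c (D1_w v))) ≠ 0
        rw [(hc1 _ h3 h4).2, D1_sig_w]
        exact hv
      · rintro _ ⟨v, hv, rfl⟩ _ ⟨v', hv', rfl⟩ h
        obtain ⟨h3, h4⟩ := D1_w_ok hv
        obtain ⟨h5, h6⟩ := D1_w_ok hv'
        change D1_sig (t (c (D1_w v))) = D1_sig (t (c (D1_w v'))) at h
        rw [(hc1 _ h3 h4).2, (hc1 _ h5 h6).2, D1_sig_w, D1_sig_w] at h
        rw [h]
      · intro v hv
        obtain ⟨h3, h4⟩ := D1_w_ok hv
        refine ⟨_, ⟨v, hv, rfl⟩, ?_⟩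
        change D1_sig (t (c (D1_w v))) = v
        rw [(hc1 _ h3 h4).2, D1_sig_w]
    · refine D1_congr h2 ?_
      intro x hx
      rw [hNE] at hx
      obtain ⟨v, hv, rfl⟩ := hx
      obtain ⟨h3, h4⟩ := D1_w_ok hv
      change D1_th ((co A₁ Y t (![a] : Fin 1 → α) (c (D1_w v))).2) = (D1_sig (t (c (D1_w v))), 1)
      rw [hco v hv, (hc1 _ h3 h4).2, D1_th_apply, D1_par_w]
  have hNfin : (M ／ C ＼ D).E.Finite := by
    rw [hNE]
    exact (toFinite {v : Fin 3 → ZMod 2 | v ≠ 0}).image _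
  have h4 := core_not_regular hNfin (Or.inr (Or.inr h3))
  have h5 := (hL.of_minor hCE hDE hCD h4).2 haD
  exact hL.disj.le_bot ⟨haA, h5⟩

/-- part (2) -/
theorem D1_two {M : Matroid α} {A B A₁ : Set α} {Y : α → Set α} {t : α → Fin 4 → ZMod 2}
    (hL : Lab M A B) (hc : C7d M A B A₁ Y t) {c : (Fin 4 → ZMod 2) → α}
    (hc1 : ∀ s, D1_par s = 1 → s ≠ ![0, 1, 1, 1] → c s ∈ M.E \ A₁ ∧ t (c s) = s) {a : α}
    (ha : a ∈ A₁) : ∃ (v0 : Fin 3 → ZMod 2) (l : (Fin 4 → ZMod 2) →ₗ[ZMod 2] ZMod 2),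
      v0 ≠ 0 ∧ c (D1_w v0) ∈ A \ A₁ ∧
      ∀ v ≠ 0, bit (a ∈ Y (c (D1_w v))) = bit (v = v0) + l (D1_w v) := by
  classical
  have hAE : A ⊆ M.E := by rw [← hL.cover]; exact subset_union_left
  have hA₁E : A₁ ⊆ M.E := hc.sub.trans hAE
  obtain ⟨v0, l, h⟩ := D1_ham fun v => bit (a ∈ Y (c (D1_w v)))
  have hv0 : v0 ≠ 0 := by
    intro h0
    refine D1_coloop hL hc hc1 ha l ?_
    intro v hv
    rw [h v hv, h0, D1_bit_false hv, zero_add]
  refine ⟨v0, l, hv0, ?_, h⟩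
  obtain ⟨h3, h4⟩ := D1_w_ok hv0
  obtain ⟨h5, h6⟩ := hc1 _ h3 h4
  have hcB : c (D1_w v0) ∈ A ∨ c (D1_w v0) ∈ B := by
    have := h5.1
    rw [← hL.cover] at this
    exact this
  rcases hcB with hcA | hcB
  · exact ⟨hcA, h5.2⟩
  exfalso
  have hq : Function.Injective (![a] : Fin 1 → α) := fun i j _ => Subsingleton.elim i j
  have hqA : ∀ i, (![a] : Fin 1 → α) i ∈ A₁ := by
    intro i; fin_cases i; exact ha
  have hco : ∀ x, x ∉ A₁ → co A₁ Y t (![a] : Fin 1 → α) x = (fun _ => bit (a ∈ Y x), t x) := by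
    intro x hx
    rw [D1_co_notMem _ hx]
    refine Prod.ext ?_ rfl
    funext i
    fin_cases i
    rfl
  have hcoa : co A₁ Y t (![a] : Fin 1 → α) a = (fun _ => 1, 0) := by
    rw [D1_co_mem _ ha]
    refine Prod.ext ?_ rfl
    funext i
    fin_cases i
    exact D1_bit_true rfl
  -- the map
  let U : (Fin 1 → ZMod 2) × (Fin 4 → ZMod 2) →ₗ[ZMod 2] ZMod 2 :=
    (LinearMap.proj (R := ZMod 2) (φ := fun _ : Fin 1 => ZMod 2) 0) ∘ₗ LinearMap.fst (ZMod 2) _ _ +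
      l ∘ₗ LinearMap.snd (ZMod 2) _ _
  have hU : ∀ u s, U (u, s) = u 0 + l s := fun u s => rfl
  let T : (Fin 1 → ZMod 2) × (Fin 4 → ZMod 2) →ₗ[ZMod 2] (Fin 3 → ZMod 2) × ZMod 2 :=
    D1_th ∘ₗ (LinearMap.snd (ZMod 2) _ _ + U.smulRight (D1_w v0))
  have hT : ∀ u s, T (u, s) = D1_th (s + (u 0 + l s) • D1_w v0) := fun u s => rfl
  have hcv : ∀ v ≠ 0, co A₁ Y t (![a] : Fin 1 → α) (c (D1_w v)) =
      (fun _ => bit (v = v0) + l (D1_w v), D1_w v) := by
    intro v hv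
    obtain ⟨h3, h4⟩ := D1_w_ok hv
    obtain ⟨h5, h6⟩ := hc1 _ h3 h4
    rw [hco _ h5.2, h6, h v hv]
  have := (Lab.obs7d hL hc.sub hc.form hq hqA (Zs := {c (D1_w v0)}) (by simpa using h5.1)
    T ?_ ?_ 0 (fun v => if v = v0 then a else c (D1_w v)) ?_).1 rfl
  · exact hL.disj.le_bot ⟨this, hcB⟩
  · intro z hz
    rw [mem_singleton_iff] at hz
    rw [hz, hcv v0 hv0, hT]
    rw [D1_bit_true rfl, add_assoc, D1_add_self', add_zero, one_smul, D1_add_self, map_zero]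
  · rintro ⟨u, s⟩ hy
    rw [hT] at hy
    have h7 := D1_eq_of_add (D1_th_ker hy)
    rw [image_singleton, hcv v0 hv0, Submodule.mem_span_singleton]
    refine ⟨u 0 + l s, ?_⟩
    refine Prod.ext ?_ h7.symm
    funext i
    fin_cases i
    change (u 0 + l s) * (bit (v0 = v0) + l (D1_w v0)) = u 0
    rw [D1_bit_true rfl]
    have h8 : l s = (u 0 + l s) * l (D1_w v0) := by
      conv_lhs => rw [h7, map_smul, smul_eq_mul]
    rw [mul_add, ← h8, mul_one, add_assoc, D1_add_self', add_zero]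
  · intro v hv
    by_cases hvv : v = v0
    · rw [if_pos hvv]
      refine ⟨hA₁E ha, ?_⟩
      rw [hcoa, hT]
      rw [map_zero, add_zero, one_smul, zero_add, D1_th_apply, D1_sig_w, D1_par_w, hvv]
    · rw [if_neg hvv]
      obtain ⟨h3, h4⟩ := D1_w_ok hv
      obtain ⟨h5, h6⟩ := hc1 _ h3 h4
      refine ⟨h5.1, ?_⟩
      rw [hcv v hv, hT]
      rw [D1_bit_false hvv, zero_add, D1_add_self', zero_smul, add_zero, D1_th_apply, D1_sig_w,
        D1_par_w]

/-- part (3) -/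
theorem D1_three {M : Matroid α} {A B A₁ : Set α} {Y : α → Set α} {t : α → Fin 4 → ZMod 2}
    (hL : Lab M A B) (hc : C7d M A B A₁ Y t) {c : (Fin 4 → ZMod 2) → α}
    (hc1 : ∀ s, D1_par s = 1 → s ≠ ![0, 1, 1, 1] → c s ∈ M.E \ A₁ ∧ t (c s) = s) {a : α}
    (ha : a ∈ A₁) {v0 : Fin 3 → ZMod 2} {l : (Fin 4 → ZMod 2) →ₗ[ZMod 2] ZMod 2}
    (hv0 : v0 ≠ 0) (hA : c (D1_w v0) ∈ A \ A₁)
    (h : ∀ v ≠ 0, bit (a ∈ Y (c (D1_w v))) = bit (v = v0) + l (D1_w v)) {b : α} (hb : b ∈ B) :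
    bit (a ∈ Y b) = l (t b) := by
  classical
  have hAE : A ⊆ M.E := by rw [← hL.cover]; exact subset_union_left
  have hA₁E : A₁ ⊆ M.E := hc.sub.trans hAE
  have hbE : b ∈ M.E := by rw [← hL.cover]; exact Or.inr hb
  have hbA : b ∉ A := fun h => hL.disj.le_bot ⟨h, hb⟩
  have hb1 : b ∉ A₁ := fun h => hbA (hc.sub h)
  obtain ⟨h1, h2, h3⟩ := D1_one hL hc hb
  rw [D1_sum] at h1
  obtain ⟨h4, h5⟩ := D1_w_ok hv0
  obtain ⟨h6, h7⟩ := hc1 _ h4 h5
  have h8 : t b ≠ D1_w v0 := by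
    have := h3 _ hA
    rwa [h7] at this
  by_contra hne
  have hne' : bit (a ∈ Y b) = l (t b) + 1 := by
    revert hne
    generalize bit (a ∈ Y b) = p
    generalize l (t b) = r
    revert p r
    decide
  -- the vector y
  set y : Fin 4 → ZMod 2 := ![0, 1, 1, 1] + (D1_w v0 + t b) with hy
  have hyp : D1_par y = 1 := by
    rw [hy, map_add, map_add, D1_par_m, h4, h1]; decide
  have hym : y ≠ ![0, 1, 1, 1] := by
    intro h
    apply h8
    have : ![0, 1, 1, 1] + (D1_w v0 + t b) = ![0, 1, 1, 1] + 0 := by rw [← hy, h, add_zero]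
    exact (D1_eq_of_add (add_left_cancel this)).symm
  have hsy : D1_sig y = v0 + D1_sig (t b) := by
    rw [hy, map_add, map_add, D1_sig_m, zero_add, D1_sig_w]
  have hsy0 : D1_sig y ≠ 0 := D1_sig_ne hyp hym
  have hwy : D1_w (D1_sig y) = y := D1_w_sig y hyp
  have hyv0 : D1_sig y ≠ v0 := by
    intro h9
    rw [hsy] at h9
    have : v0 + D1_sig (t b) = v0 + 0 := by rw [h9, add_zero]
    exact D1_sig_ne h1 h2 (add_left_cancel this)
  have hq : Function.Injective (![a] : Fin 1 → α) := fun i j _ => Subsingleton.elim i j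
  have hqA : ∀ i, (![a] : Fin 1 → α) i ∈ A₁ := by
    intro i; fin_cases i; exact ha
  have hco : ∀ x, x ∉ A₁ → co A₁ Y t (![a] : Fin 1 → α) x = (fun _ => bit (a ∈ Y x), t x) := by
    intro x hx
    rw [D1_co_notMem _ hx]
    refine Prod.ext ?_ rfl
    funext i
    fin_cases i
    rfl
  have hcoa : co A₁ Y t (![a] : Fin 1 → α) a = (fun _ => 1, 0) := by
    rw [D1_co_mem _ ha]
    refine Prod.ext ?_ rfl
    funext i
    fin_cases i
    exact D1_bit_true rfl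
  let U : (Fin 1 → ZMod 2) × (Fin 4 → ZMod 2) →ₗ[ZMod 2] ZMod 2 :=
    (LinearMap.proj (R := ZMod 2) (φ := fun _ : Fin 1 => ZMod 2) 0) ∘ₗ LinearMap.fst (ZMod 2) _ _ +
      l ∘ₗ LinearMap.snd (ZMod 2) _ _
  let T : (Fin 1 → ZMod 2) × (Fin 4 → ZMod 2) →ₗ[ZMod 2] (Fin 3 → ZMod 2) :=
    D1_R y ∘ₗ (LinearMap.snd (ZMod 2) _ _ + U.smulRight (D1_w v0))
  have hT : ∀ u s, T (u, s) = D1_R y (s + (u 0 + l s) • D1_w v0) := fun u s => rfl
  have hcv : ∀ v ≠ 0, co A₁ Y t (![a] : Fin 1 → α) (c (D1_w v)) =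
      (fun _ => bit (v = v0) + l (D1_w v), D1_w v) := by
    intro v hv
    obtain ⟨h3, h4⟩ := D1_w_ok hv
    obtain ⟨h5, h6⟩ := hc1 _ h3 h4
    rw [hco _ h5.2, h6, h v hv]
  have hcy := hcv _ hsy0
  rw [hwy] at hcy
  obtain ⟨hcyE, hcyt⟩ := hc1 y hyp hym
  refine D1_noF hL hc hq hqA (Zs := {c (D1_w v0), c y}) ?_ T ?_ ?_
    (fun v => if v = D1_sig y then b else if v + D1_sig y = v0 then a
      else c (D1_w (v + D1_sig y))) ?_
  · intro z hz
    rcases hz with rfl | hz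
    · exact h6.1
    · rw [mem_singleton_iff] at hz
      rw [hz]
      exact hcyE.1
  · intro z hz
    rcases hz with rfl | hz
    · rw [hcv v0 hv0, hT]
      rw [D1_bit_true rfl, add_assoc, D1_add_self', add_zero, one_smul, D1_add_self, map_zero]
    · rw [mem_singleton_iff] at hz
      rw [hz, hcy, hT]
      rw [D1_bit_false hyv0, zero_add, D1_add_self', zero_smul, add_zero, D1_R_odd hyp,
        D1_add_self]
  · rintro ⟨u, s⟩ hs
    rw [hT] at hs
    have h9 : ∃ r : ZMod 2, s + (u 0 + l s) • D1_w v0 = r • y := by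
      rcases D1_R_ker hyp hs with h10 | h10
      · exact ⟨0, by rw [h10, zero_smul]⟩
      · exact ⟨1, by rw [h10, one_smul]⟩
    obtain ⟨r, hr⟩ := h9
    set u' : ZMod 2 := u 0 + l s with hu'
    have h10 : s = r • y + u' • D1_w v0 := by
      rw [← hr, add_assoc, ← add_smul, D1_add_self', zero_smul, add_zero]
    rw [image_pair, hcv v0 hv0, hcy, Submodule.mem_span_pair]
    refine ⟨u', r, ?_⟩
    refine Prod.ext ?_ ?_
    · funext i
      fin_cases i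
      change u' * (bit (v0 = v0) + l (D1_w v0)) + r * (bit (D1_sig y = v0) + l y) = u 0
      rw [D1_bit_true rfl, D1_bit_false hyv0]
      have h11 : l s = r * l y + u' * l (D1_w v0) := by
        rw [h10, map_add, map_smul, map_smul, smul_eq_mul, smul_eq_mul]
      have h12 : u 0 = u' + l s := by rw [hu', add_assoc, D1_add_self', add_zero]
      rw [h12, h11]
      ring
    · change u' • D1_w v0 + r • y = s
      rw [add_comm]
      exact h10.symm
  · intro v hv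
    by_cases hvy : v = D1_sig y
    · rw [if_pos hvy]
      refine ⟨hbE, ?_⟩
      rw [hco _ hb1, hT]
      rw [hne', add_comm (l (t b)) 1, add_assoc, D1_add_self', add_zero, one_smul,
        D1_R_even (by rw [map_add, h1, h4]; decide), map_add, D1_sig_w, hvy, hsy, add_comm]
    · rw [if_neg hvy]
      by_cases hv2 : v + D1_sig y = v0
      · rw [if_pos hv2]
        refine ⟨hA₁E ha, ?_⟩
        rw [hcoa, hT]
        rw [map_zero, add_zero, one_smul, zero_add, D1_R_odd h4, D1_sig_w, ← hv2, add_assoc,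
          D1_add_self, add_zero]
      · rw [if_neg hv2]
        have hne2 : v + D1_sig y ≠ 0 := fun h => hvy (D1_eq_of_add h)
        obtain ⟨h13, h14⟩ := D1_w_ok hne2
        obtain ⟨h15, h16⟩ := hc1 _ h13 h14
        refine ⟨h15.1, ?_⟩
        rw [hcv _ hne2, hT]
        rw [D1_bit_false hv2, zero_add, D1_add_self', zero_smul, add_zero, D1_R_odd h13, D1_sig_w,
          add_assoc, D1_add_self, add_zero]

theorem fat_of_c7d {M : Matroid α} {A B A₁ : Set α} {Y : α → Set α} {t : α → Fin 4 → ZMod 2}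
    (hL : Lab M A B) (hc : C7d M A B A₁ Y t) :
    (∀ b ∈ B, ∑ i, t b i = 1 ∧ t b ≠ ![0, 1, 1, 1] ∧ ∀ a ∈ A \ A₁, t b ≠ t a) ∧
    ∀ a ∈ A₁, ∃ a' ∈ A \ A₁, ∃ l : (Fin 4 → ZMod 2) →ₗ[ZMod 2] ZMod 2,
      ∀ x ∈ M.E \ A₁, bit (a ∈ Y x) = bit (x = a') + l (t x) := by
  classical
  refine ⟨fun b hb => D1_one hL hc hb, ?_⟩
  intro a ha
  obtain ⟨c, hc1, hc2⟩ := D1_trans hL hc
  obtain ⟨v0, l, hv0, hA, h⟩ := D1_two hL hc hc1 ha
  refine ⟨c (D1_w v0), hA, l, ?_⟩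
  intro x hx
  have hx1 : x ∈ A ∨ x ∈ B := by
    have := hx.1
    rw [← hL.cover] at this
    exact this
  rcases hx1 with hxA | hxB
  · have h1 := hc2 x ⟨hxA, hx.2⟩
    obtain ⟨h2, h3⟩ := hc.om x ⟨hxA, hx.2⟩
    rw [D1_sum] at h2
    have h4 := h _ (D1_sig_ne h2 h3)
    rw [D1_w_sig _ h2, h1] at h4
    rw [h4]
    congr 1
    obtain ⟨h5, h6⟩ := D1_w_ok hv0
    have h7 : (D1_sig (t x) = v0) ↔ (x = c (D1_w v0)) := by
      constructor
      · intro h8
        rw [← h8, D1_w_sig _ h2, h1]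
      · intro h8
        rw [h8, (hc1 _ h5 h6).2, D1_sig_w]
    simp only [h7]
  · have hne : x ≠ c (D1_w v0) := by
      intro h1
      exact hL.disj.le_bot ⟨h1 ▸ hA.1, hxB⟩
    rw [D1_three hL hc hc1 ha hv0 hA h hxB, D1_bit_false hne, zero_add]

end Pool.Agent.Helper43_EOR
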