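import Mathlib
import Pool.Agent.Helper43_EOR.D1

set_option autoImplicit false

namespace Pool.Agent.Helper43_EOR

open Set Matroid

variable {α : Type*}


theorem D2_sdiff {M : Matroid α} {A B : Set α} (hL : Lab M A B) : M.E \ A = B := by
  rw [← hL.cover, union_sdiff_left]
  exact hL.disj.symm.sdiff_eq_left

theorem D2_bit_eq_one {p : Prop} : bit p = 1 ↔ p := by
  unfold bit
  by_cases h : p
  · simp [h]
  · simp [h]

theorem D2_kappa {M : Matroid α} {A B A₁ : Set α} {Y : α → Set α}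
    {t : α → Fin 4 → ZMod 2} (hL : Lab M A B) (hc : C7d M A B A₁ Y t) (r : Fin 4 → α)
    (hr : ∀ i, r i ∈ M.E \ A₁) (hrt : ∀ i, t (r i) = Pi.single i 1 ∧ Y (r i) = ∅)
    (I : Set (Fin 4)) (h : A \ A₁ = r '' I) :
    (∃ κ : α → Fin 4, (∀ a ∈ A, κ a ∈ I) ∧
      (∀ a ∈ A, ∀ b ∈ B, ((a ∈ Y b ∨ ∃ i ∈ I, a = r i ∧ t b i = 1) ↔ t b (κ a) = 1))) ∧
    ∀ b ∈ B, ∑ i, t b i = 1 ∧ t b ≠ ![0, 1, 1, 1] ∧ ∀ i ∈ I, t b ≠ Pi.single i 1 := by
  classical
  have hinj : Function.Injective r := by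
    intro i j hij
    have h1 := (hrt i).1
    rw [hij, (hrt j).1] at h1
    by_contra hne
    have h2 := congrFun h1 i
    rw [Pi.single_eq_same, Pi.single_eq_of_ne hne] at h2
    exact zero_ne_one h2
  have hYB : ∀ b ∈ B, Y b ⊆ A₁ := by
    intro b hb
    apply hc.form.1 b
    refine ⟨?_, fun hbA => ?_⟩
    · rw [← hL.cover]; exact Or.inr hb
    · exact (disjoint_left.1 hL.disj) (hc.sub hbA) hb
  have hBE : ∀ b ∈ B, b ∈ M.E \ A₁ := by
    intro b hb
    refine ⟨?_, fun hbA => ?_⟩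
    · rw [← hL.cover]; exact Or.inr hb
    · exact (disjoint_left.1 hL.disj) (hc.sub hbA) hb
  have key : ∀ a ∈ A₁, ∃ j ∈ I, ∀ b ∈ B, (a ∈ Y b ↔ t b j = 1) := by
    intro a ha
    obtain ⟨a', ha', l, hl⟩ := (fat_of_c7d hL hc).2 a ha
    rw [h] at ha'
    obtain ⟨j, hj, rfl⟩ := ha'
    refine ⟨j, hj, fun b hb => ?_⟩
    have hls : ∀ i, l (Pi.single i 1) = if i = j then 1 else 0 := by
      intro i
      have h1 := hl (r i) (hr i)
      rw [(hrt i).1, (hrt i).2] at h1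
      have h0 : bit (a ∈ (∅ : Set α)) = 0 := by simp [bit]
      rw [h0] at h1
      by_cases hij : i = j
      · subst hij
        have h2 : bit (r i = r i) = 1 := by simp [bit]
        rw [h2] at h1
        rw [if_pos rfl]
        have h3 : ∀ x : ZMod 2, 0 = 1 + x → x = 1 := by decide
        exact h3 _ h1
      · have h2 : bit (r i = r j) = 0 := by
          simp [bit, hinj.ne hij]
        rw [h2, zero_add] at h1
        rw [if_neg hij]
        exact h1.symm
    have hlt : l (t b) = t b j := by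
      rw [LinearMap.pi_apply_eq_sum_univ l (t b)]
      have : ∀ i : Fin 4, (fun k => if i = k then (1 : ZMod 2) else 0) = Pi.single i 1 := by
        intro i
        funext k
        rw [Pi.single_apply]
        by_cases hik : i = k
        · rw [if_pos hik, if_pos hik.symm]
        · rw [if_neg hik, if_neg (Ne.symm hik)]
      simp only [this, hls]
      simp
    have hbr : b ≠ r j := by
      rintro rfl
      have : r j ∈ A := by
        have : r j ∈ A \ A₁ := by rw [h]; exact ⟨j, hj, rfl⟩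
        exact this.1
      exact (disjoint_left.1 hL.disj) this hb
    have h4 := hl b (hBE b hb)
    have h5 : bit (b = r j) = 0 := by simp [bit, hbr]
    rw [h5, zero_add, hlt] at h4
    rw [← h4, D2_bit_eq_one]
  have hA : ∀ a ∈ A, a ∉ A₁ → ∃ i ∈ I, r i = a := by
    intro a ha ha1
    have : a ∈ A \ A₁ := ⟨ha, ha1⟩
    rw [h] at this
    exact this
  refine ⟨?_, ?_⟩
  · have hex : ∀ a : α, ∃ j : Fin 4, a ∈ A → (j ∈ I ∧
        ∀ b ∈ B, ((a ∈ Y b ∨ ∃ i ∈ I, a = r i ∧ t b i = 1) ↔ t b j = 1)) := by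
      intro a
      by_cases haA : a ∈ A
      · by_cases ha1 : a ∈ A₁
        · obtain ⟨j, hj, hjb⟩ := key a ha1
          refine ⟨j, fun _ => ⟨hj, fun b hb => ?_⟩⟩
          rw [← hjb b hb]
          constructor
          · rintro (h1 | ⟨i, _, h1, _⟩)
            · exact h1
            · rw [h1] at ha1
              exact absurd ha1 (hr i).2
          · exact Or.inl
        · obtain ⟨j, hj, rfl⟩ := hA a haA ha1
          refine ⟨j, fun _ => ⟨hj, fun b hb => ?_⟩⟩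
          constructor
          · rintro (h1 | ⟨i, _, h1, h2⟩)
            · exact absurd (hYB b hb h1) ha1
            · rw [hinj h1]; exact h2
          · intro h1
            exact Or.inr ⟨j, hj, rfl, h1⟩
      · exact ⟨0, fun h' => absurd h' haA⟩
    choose κ hκ using hex
    exact ⟨κ, fun a ha => (hκ a ha).1, fun a ha => (hκ a ha).2⟩
  · intro b hb
    obtain ⟨h1, h2, h3⟩ := (fat_of_c7d hL hc).1 b hb
    refine ⟨h1, h2, fun i hi => ?_⟩
    rw [← (hrt i).1]
    apply h3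
    rw [h]
    exact ⟨i, hi, rfl⟩

theorem typeX4_of_c7d {M : Matroid α} {A B A₁ : Set α} {Y : α → Set α}
    {t : α → Fin 4 → ZMod 2} (hL : Lab M A B) (hc : C7d M A B A₁ Y t) (h : A \ A₁ = ∅) :
    TypeX4 M A B := by
  have h1 : A₁ = ∅ := by
    by_contra hne
    obtain ⟨a, ha⟩ := nonempty_iff_ne_empty.2 hne
    obtain ⟨a', ha', _⟩ := (fat_of_c7d hL hc).2 a ha
    rw [h] at ha'
    exact ha'
  have h2 : A = ∅ := by
    rw [h1, sdiff_empty] at h
    exact h
  subst h1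
  subst h2
  have h3 := hc.form
  rw [D2_sdiff hL] at h3
  exact ⟨rfl, Y, t, h3, fun b hb => ⟨((fat_of_c7d hL hc).1 b hb).1,
    ((fat_of_c7d hL hc).1 b hb).2.1⟩⟩

/-- Moving one element with its label. -/
theorem D2_move {M : Matroid α} {A₁ : Set α} (hA₁ : A₁ ⊆ M.E) {Y : α → Set α} {δ : ℕ}
    {t : α → Fin (δ + 1) → ZMod 2} (h : BinaryForm M A₁ (M.E \ A₁) Y t) {a0 : α}
    (h0 : a0 ∈ M.E \ A₁) (ht : t a0 = Pi.single 0 1) (hY : Y a0 = ∅) :
    ∃ (Y' : α → Set α), BinaryForm M (insert a0 A₁) (M.E \ insert a0 A₁) Y'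
      (fun x i => t x i.succ) ∧ ∀ x a, a ∈ Y' x ↔ a ∈ Y x ∨ (a = a0 ∧ t x 0 = 1) :=
  ⟨_, BinaryForm.move hA₁ h h0 ht hY, fun _ _ => Iff.rfl⟩

theorem D2_pts (s : Fin 4 → ZMod 2) (h : ∑ i, s i = 1) (h' : s ≠ ![0, 1, 1, 1]) :
    (s 0 = 1 ∧ s 1 = 0 ∧ s 2 = 0 ∧ s 3 = 0) ∨
    (s 0 = 0 ∧ s 1 = 1 ∧ s 2 = 0 ∧ s 3 = 0) ∨
    (s 0 = 0 ∧ s 1 = 0 ∧ s 2 = 1 ∧ s 3 = 0) ∨
    (s 0 = 0 ∧ s 1 = 0 ∧ s 2 = 0 ∧ s 3 = 1) ∨
    (s 0 = 1 ∧ s 1 = 1 ∧ s 2 = 1 ∧ s 3 = 0) ∨
    (s 0 = 1 ∧ s 1 = 1 ∧ s 2 = 0 ∧ s 3 = 1) ∨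
    (s 0 = 1 ∧ s 1 = 0 ∧ s 2 = 1 ∧ s 3 = 1) := by
  rw [Fin.sum_univ_four] at h
  have h2 : ¬ (s 0 = 0 ∧ s 1 = 1 ∧ s 2 = 1 ∧ s 3 = 1) := by
    rintro ⟨h0, h1, h2, h3⟩
    apply h'
    funext i
    fin_cases i
    · exact h0
    · exact h1
    · exact h2
    · exact h3
  have hz : ∀ x : ZMod 2, x = 0 ∨ x = 1 := by decide
  rcases hz (s 0) with h00 | h00 <;> rcases hz (s 1) with h01 | h01 <;>
    rcases hz (s 2) with h02 | h02 <;> rcases hz (s 3) with h03 | h03 <;>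
    (simp only [h00, h01, h02, h03] at h h2 ⊢; revert h h2; decide)

theorem D2_ne_single (s : Fin 4 → ZMod 2) (i : Fin 4) (h : s ≠ Pi.single i 1) :
    ¬ (s i = 1 ∧ ∀ j, j ≠ i → s j = 0) := by
  rintro ⟨h1, h2⟩
  apply h
  funext j
  by_cases hj : j = i
  · subst hj
    rw [Pi.single_eq_same, h1]
  · rw [Pi.single_eq_of_ne hj, h2 j hj]

theorem typeX3_of_c7d {M : Matroid α} {A B A₁ : Set α} {Y : α → Set α}
    {t : α → Fin 4 → ZMod 2} (hL : Lab M A B) (hc : C7d M A B A₁ Y t) (r : Fin 4 → α)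
    (hr : ∀ i, r i ∈ M.E \ A₁) (hrt : ∀ i, t (r i) = Pi.single i 1 ∧ Y (r i) = ∅)
    (h : A \ A₁ = {r 0}) : TypeX3 M A B := by
  classical
  obtain ⟨⟨κ, hκI, hκ⟩, hpt⟩ := D2_kappa hL hc r hr hrt {0} (by rw [h, image_singleton])
  have hAE : A ⊆ M.E := by rw [← hL.cover]; exact subset_union_left
  have hA : insert (r 0) A₁ = A := by
    rw [← sdiff_union_of_subset hc.sub, h]
    rfl
  obtain ⟨Y', hY', hmem⟩ := D2_move (hc.sub.trans hAE) hc.form (hr 0) (hrt 0).1 (hrt 0).2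
  rw [hA, D2_sdiff hL] at hY'
  have hsh := BinaryForm.shear (hL.fin.subset hAE) hY'
    (fun _ => LinearMap.proj (R := ZMod 2) (φ := fun _ : Fin 3 => ZMod 2) 0 +
      LinearMap.proj (R := ZMod 2) (φ := fun _ : Fin 3 => ZMod 2) 1 +
      LinearMap.proj (R := ZMod 2) (φ := fun _ : Fin 3 => ZMod 2) 2)
  have hmemA : ∀ a ∈ A, ∀ b ∈ B, (a ∈ Y' b ↔ t b 0 = 1) := by
    intro a ha b hb
    rw [hmem]
    have h1 := hκ a ha b hb
    have h2 : κ a = 0 := hκI a ha
    rw [h2] at h1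
    refine Iff.trans ?_ h1
    simp
  refine ⟨_, _, hsh, ?_, ?_, ?_⟩
  · intro b hb h0
    obtain ⟨h1, h2, h3⟩ := hpt b hb
    have h4 := D2_ne_single (t b) 0 (h3 0 rfl)
    have e1 : t b 1 = 0 := congrFun h0 0
    have e2 : t b 2 = 0 := congrFun h0 1
    have e3 : t b 3 = 0 := congrFun h0 2
    rw [Fin.sum_univ_four, e1, e2, e3] at h1
    apply h4
    refine ⟨by simpa using h1, ?_⟩
    intro j hj
    fin_cases j
    · exact absurd rfl hj
    · exact e1
    · exact e2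
    · exact e3
  · intro b hb h0
    exfalso
    obtain ⟨h1, h2, h3⟩ := hpt b hb
    have e1 : t b 1 = 1 := congrFun h0 0
    have e2 : t b 2 = 1 := congrFun h0 1
    have e3 : t b 3 = 1 := congrFun h0 2
    rcases D2_pts (t b) h1 h2 with h | h | h | h | h | h | h <;>
      · obtain ⟨_, k1, k2, k3⟩ := h
        simp_all
  · intro b hb _
    obtain ⟨h1, h2, h3⟩ := hpt b hb
    ext a
    constructor
    · exact fun h' => h'.1
    · intro ha
      refine ⟨ha, ?_⟩
      have h4 : bit (a ∈ Y' b) = t b 0 := by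
        have hz : ∀ x : ZMod 2, x = 0 ∨ x = 1 := by decide
        rcases hz (t b 0) with h0 | h0
        · rw [h0]
          have : a ∉ Y' b := by
            rw [hmemA a ha b hb, h0]
            exact zero_ne_one
          simp [bit, this]
        · rw [h0]
          have : a ∈ Y' b := by
            rw [hmemA a ha b hb, h0]
          simp [bit, this]
      rw [h4]
      rw [Fin.sum_univ_four] at h1
      show t b 0 + (t b 1 + t b 2 + t b 3) = 1
      rw [← h1]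
      ring

theorem typeW2_of_c7d {M : Matroid α} {A B A₁ : Set α} {Y : α → Set α}
    {t : α → Fin 4 → ZMod 2} (hL : Lab M A B) (hc : C7d M A B A₁ Y t) (r : Fin 4 → α)
    (hr : ∀ i, r i ∈ M.E \ A₁) (hrt : ∀ i, t (r i) = Pi.single i 1 ∧ Y (r i) = ∅)
    (h : A \ A₁ = {r 0, r 1}) : TypeW2 M A B := by
  classical
  obtain ⟨⟨κ, hκI, hκ⟩, hpt⟩ := D2_kappa hL hc r hr hrt {0, 1} (by rw [h, image_pair])
  have hAE : A ⊆ M.E := by rw [← hL.cover]; exact subset_union_left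
  have hA : insert (r 1) (insert (r 0) A₁) = A := by
    rw [← sdiff_union_of_subset hc.sub, h]
    ext a; simp only [mem_insert_iff, mem_union, mem_singleton_iff]; tauto
  have hne : ∀ i j : Fin 4, i ≠ j → r i ≠ r j := by
    intro i j hij hr'
    have h1 := (hrt i).1
    rw [hr', (hrt j).1] at h1
    have h2 := congrFun h1 i
    rw [Pi.single_eq_same, Pi.single_eq_of_ne hij] at h2
    exact zero_ne_one h2
  obtain ⟨Y', hY', hmem⟩ := D2_move (hc.sub.trans hAE) hc.form (hr 0) (hrt 0).1 (hrt 0).2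
  obtain ⟨Y2, hY2, hmem2⟩ := D2_move (a0 := r 1)
    (insert_subset (hr 0).1 (hc.sub.trans hAE)) hY'
    ⟨(hr 1).1, by
      rintro (h1 | h1)
      · exact hne 1 0 (by decide) h1
      · exact (hr 1).2 h1⟩
    (by rw [(hrt 1).1]; decide)
    (by
      ext a
      rw [hmem, (hrt 1).2, (hrt 1).1]
      simp)
  rw [hA, D2_sdiff hL] at hY2
  have hmemA : ∀ b ∈ B, Y2 b = {a | a ∈ A ∧ t b (κ a) = 1} := by
    intro b hb
    ext a
    have key : a ∈ A → (a ∈ Y2 b ↔ t b (κ a) = 1) := by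
      intro ha
      rw [hmem2, hmem, ← hκ a ha b hb]
      simp [or_assoc]
    constructor
    · intro h'
      have ha := hY2.1 b hb h'
      exact ⟨ha, (key ha).1 h'⟩
    · rintro ⟨ha, h'⟩
      exact (key ha).2 h'
  refine ⟨_, _, hY2, ?_, ?_, ?_⟩
  · intro b hb h0
    obtain ⟨h1, h2, h3⟩ := hpt b hb
    have h4 := D2_ne_single (t b) 0 (h3 0 (Or.inl rfl))
    have h5 := D2_ne_single (t b) 1 (h3 1 (Or.inr rfl))
    have e2 : t b 2 = 0 := congrFun h0 0
    have e3 : t b 3 = 0 := congrFun h0 1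
    rcases D2_pts (t b) h1 h2 with h | h | h | h | h | h | h <;>
      obtain ⟨k0, k1, k2, k3⟩ := h
    · exact h4 ⟨k0, fun j hj => by fin_cases j <;> first | exact absurd rfl hj | assumption⟩
    · exact h5 ⟨k1, fun j hj => by fin_cases j <;> first | exact absurd rfl hj | assumption⟩
    · rw [k2] at e2; exact one_ne_zero e2
    · rw [k3] at e3; exact one_ne_zero e3
    · rw [k2] at e2; exact one_ne_zero e2
    · rw [k3] at e3; exact one_ne_zero e3
    · rw [k3] at e3; exact one_ne_zero e3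
  · intro b hb h0
    obtain ⟨h1, h2, h3⟩ := hpt b hb
    have hne : ¬ (t b 2 = 1 ∧ t b 3 = 1) := by
      rintro ⟨k2, k3⟩
      apply h0
      funext i
      fin_cases i
      · exact k2
      · exact k3
    rw [hmemA b hb]
    have hκ' : ∀ a ∈ A, κ a = 0 ∨ κ a = 1 := hκI
    have hz : t b 0 = t b 1 → ({a | a ∈ A ∧ t b (κ a) = 1} = ∅ ∨
        {a | a ∈ A ∧ t b (κ a) = 1} = A) := by
      intro heq
      have hz : ∀ x : ZMod 2, x = 0 ∨ x = 1 := by decide
      rcases hz (t b 0) with h00 | h00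
      · left
        ext a
        simp only [mem_ofPred_eq, mem_empty_iff_false, iff_false, not_and]
        intro ha
        rcases hκ' a ha with h | h
        · rw [h, h00]; exact zero_ne_one
        · rw [h, ← heq, h00]; exact zero_ne_one
      · right
        ext a
        simp only [mem_ofPred_eq, and_iff_left_iff_imp]
        intro ha
        rcases hκ' a ha with h | h
        · rw [h, h00]
        · rw [h, ← heq, h00]
    have h4 := D2_ne_single (t b) 0 (h3 0 (Or.inl rfl))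
    have h5 := D2_ne_single (t b) 1 (h3 1 (Or.inr rfl))
    apply hz
    rcases D2_pts (t b) h1 h2 with h | h | h | h | h | h | h <;>
      obtain ⟨k0, k1, k2, k3⟩ := h
    · exact absurd ⟨k0, fun j hj => by
        fin_cases j <;> first | exact absurd rfl hj | assumption⟩ h4
    · exact absurd ⟨k1, fun j hj => by
        fin_cases j <;> first | exact absurd rfl hj | assumption⟩ h5
    · rw [k0, k1]
    · rw [k0, k1]
    · rw [k0, k1]
    · rw [k0, k1]
    · exact absurd ⟨k2, k3⟩ hne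
  · intro b hb b' hb' h0 h0'
    left
    have hval : ∀ c ∈ B, (fun i : Fin 2 => t c i.succ.succ) = ![1, 1] → t c 0 = 1 ∧ t c 1 = 0 := by
      intro c hcB hc0
      obtain ⟨h1, h2, h3⟩ := hpt c hcB
      have e2 : t c 2 = 1 := congrFun hc0 0
      have e3 : t c 3 = 1 := congrFun hc0 1
      rcases D2_pts (t c) h1 h2 with h | h | h | h | h | h | h <;>
        obtain ⟨k0, k1, k2, k3⟩ := h
      · rw [k2] at e2; exact absurd e2 zero_ne_one
      · rw [k2] at e2; exact absurd e2 zero_ne_one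
      · rw [k3] at e3; exact absurd e3 zero_ne_one
      · rw [k2] at e2; exact absurd e2 zero_ne_one
      · rw [k3] at e3; exact absurd e3 zero_ne_one
      · rw [k2] at e2; exact absurd e2 zero_ne_one
      · exact ⟨k0, k1⟩
    rw [hmemA b hb, hmemA b' hb']
    obtain ⟨u0, u1⟩ := hval b hb h0
    obtain ⟨v0, v1⟩ := hval b' hb' h0'
    rintro a ⟨ha, ha'⟩
    refine ⟨ha, ?_⟩
    rcases hκI a ha with h | h
    · rw [h, v0]
    · have h' : κ a = 1 := h
      rw [h', u1] at ha'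
      exact absurd ha' zero_ne_one

theorem D2_move3 {M : Matroid α} {A A₁ : Set α} (hAE : A ⊆ M.E) (hsub : A₁ ⊆ A)
    {Y : α → Set α} {t : α → Fin 4 → ZMod 2} (hB : BinaryForm M A₁ (M.E \ A₁) Y t)
    {c0 c1 c2 : α} (h01 : c1 ≠ c0) (h02 : c2 ≠ c0) (h12 : c2 ≠ c1)
    (hc0 : c0 ∈ M.E \ A₁) (hc1 : c1 ∈ M.E \ A₁) (hc2 : c2 ∈ M.E \ A₁)
    (ht0 : t c0 = Pi.single 0 1) (ht1 : t c1 = Pi.single 1 1) (ht2 : t c2 = Pi.single 2 1)
    (hY0 : Y c0 = ∅) (hY1 : Y c1 = ∅) (hY2 : Y c2 = ∅) (hA : A \ A₁ = {c0, c1, c2}) :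
    ∃ Y' : α → Set α, BinaryForm M A (M.E \ A) Y' (fun x (_ : Fin 1) => t x 3) ∧
      ∀ x a, a ∈ Y' x ↔ a ∈ Y x ∨ (a = c0 ∧ t x 0 = 1) ∨ (a = c1 ∧ t x 1 = 1) ∨
        (a = c2 ∧ t x 2 = 1) := by
  classical
  have hA' : insert c2 (insert c1 (insert c0 A₁)) = A := by
    rw [← sdiff_union_of_subset hsub, hA]
    ext a; simp only [mem_insert_iff, mem_union, mem_singleton_iff]; tauto
  obtain ⟨Ya, hYa, hmema⟩ := D2_move (hsub.trans hAE) hB hc0 ht0 hY0
  obtain ⟨Yb, hYb, hmemb⟩ := D2_move (a0 := c1)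
    (insert_subset hc0.1 (hsub.trans hAE)) hYa
    ⟨hc1.1, by
      rintro (h1 | h1)
      · exact h01 h1
      · exact hc1.2 h1⟩
    (by rw [ht1]; decide)
    (by
      ext a
      rw [hmema, hY1, ht1]
      simp)
  obtain ⟨Yc, hYc, hmemc⟩ := D2_move (a0 := c2)
    (insert_subset hc1.1 (insert_subset hc0.1 (hsub.trans hAE))) hYb
    ⟨hc2.1, by
      rintro (h1 | h1 | h1)
      · exact h12 h1
      · exact h02 h1
      · exact hc2.2 h1⟩
    (by rw [ht2]; decide)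
    (by
      ext a
      rw [hmemb, hmema, hY2, ht2]
      simp)
  rw [hA'] at hYc
  refine ⟨Yc, ?_, ?_⟩
  · have : (fun x (_ : Fin 1) => t x 3) = (fun x (i : Fin 1) => t x i.succ.succ.succ) := by
      funext x i
      have : i = 0 := Subsingleton.elim _ _
      subst this
      rfl
    rw [this]
    exact hYc
  · intro x a
    rw [hmemc, hmemb, hmema]
    simp only [or_assoc]
    rfl

theorem typeX1_of_c7d {M : Matroid α} {A B A₁ : Set α} {Y : α → Set α}
    {t : α → Fin 4 → ZMod 2} (hL : Lab M A B) (hc : C7d M A B A₁ Y t) (r : Fin 4 → α)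
    (hr : ∀ i, r i ∈ M.E \ A₁) (hrt : ∀ i, t (r i) = Pi.single i 1 ∧ Y (r i) = ∅)
    (h : A \ A₁ = {r 1, r 2, r 3}) : TypeX1 M A B := by
  classical
  obtain ⟨⟨κ, hκI, hκ⟩, hpt⟩ := D2_kappa hL hc r hr hrt {1, 2, 3}
    (by rw [h, image_insert_eq, image_pair])
  have hAE : A ⊆ M.E := by rw [← hL.cover]; exact subset_union_left
  have hne : ∀ i j : Fin 4, i ≠ j → r i ≠ r j := by
    intro i j hij hr'
    have h1 := (hrt i).1
    rw [hr', (hrt j).1] at h1
    have h2 := congrFun h1 i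
    rw [Pi.single_eq_same, Pi.single_eq_of_ne hij] at h2
    exact zero_ne_one h2
  have hgl := BinaryForm.gl hc.form (LinearEquiv.funCongrLeft (ZMod 2) (ZMod 2) (finRotate 4))
  obtain ⟨Y2, hY2, hmem2⟩ := D2_move3 hAE hc.sub hgl (c0 := r 1) (c1 := r 2) (c2 := r 3)
    (hne _ _ (by decide)) (hne _ _ (by decide)) (hne _ _ (by decide)) (hr 1) (hr 2) (hr 3)
    (by
      show (t (r 1)) ∘ (finRotate 4) = _
      rw [(hrt 1).1]; decide)
    (by
      show (t (r 2)) ∘ (finRotate 4) = _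
      rw [(hrt 2).1]; decide)
    (by
      show (t (r 3)) ∘ (finRotate 4) = _
      rw [(hrt 3).1]; decide)
    (hrt 1).2 (hrt 2).2 (hrt 3).2 h
  have hmem3 : ∀ x a, a ∈ Y2 x ↔ a ∈ Y x ∨ (a = r 1 ∧ t x 1 = 1) ∨ (a = r 2 ∧ t x 2 = 1) ∨
        (a = r 3 ∧ t x 3 = 1) := hmem2
  have hY3 : BinaryForm M A B Y2 (fun x (_ : Fin 1) => t x 0) := by
    rw [D2_sdiff hL] at hY2
    exact hY2
  have hmemA : ∀ b ∈ B, Y2 b = {a | a ∈ A ∧ t b (κ a) = 1} := by
    intro b hb
    ext a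
    have key : a ∈ A → (a ∈ Y2 b ↔ t b (κ a) = 1) := by
      intro ha
      rw [hmem3, ← hκ a ha b hb]
      simp
    constructor
    · intro h'
      have ha := hY3.1 b hb h'
      exact ⟨ha, (key ha).1 h'⟩
    · rintro ⟨ha, h'⟩
      exact (key ha).2 h'
  have hκ' : ∀ a ∈ A, κ a = 1 ∨ κ a = 2 ∨ κ a = 3 := hκI
  have hd : ∀ i j : Fin 4, i ≠ j →
      Disjoint {a | a ∈ A ∧ κ a = i} {a | a ∈ A ∧ κ a = j} := by
    intro i j hij
    rw [disjoint_left]
    rintro a ⟨_, h1⟩ ⟨_, h2⟩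
    exact hij (h1.symm.trans h2)
  have hb1 : ∀ b ∈ B, t b 0 = 1 ∧ ((t b 1 = 0 ∧ t b 2 = 0 ∧ t b 3 = 0) ∨
      (t b 1 = 1 ∧ t b 2 = 1 ∧ t b 3 = 0) ∨ (t b 1 = 1 ∧ t b 2 = 0 ∧ t b 3 = 1) ∨
      (t b 1 = 0 ∧ t b 2 = 1 ∧ t b 3 = 1)) := by
    intro b hb
    obtain ⟨h1, h2, h3⟩ := hpt b hb
    have g1 := D2_ne_single (t b) 1 (h3 1 (Or.inl rfl))
    have g2 := D2_ne_single (t b) 2 (h3 2 (Or.inr (Or.inl rfl)))
    have g3 := D2_ne_single (t b) 3 (h3 3 (Or.inr (Or.inr rfl)))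
    rcases D2_pts (t b) h1 h2 with h | h | h | h | h | h | h <;>
      obtain ⟨k0, k1, k2, k3⟩ := h
    · exact ⟨k0, Or.inl ⟨k1, k2, k3⟩⟩
    · exact absurd ⟨k1, fun j hj => by
        fin_cases j <;> first | exact absurd rfl hj | assumption⟩ g1
    · exact absurd ⟨k2, fun j hj => by
        fin_cases j <;> first | exact absurd rfl hj | assumption⟩ g2
    · exact absurd ⟨k3, fun j hj => by
        fin_cases j <;> first | exact absurd rfl hj | assumption⟩ g3
    · exact ⟨k0, Or.inr (Or.inl ⟨k1, k2, k3⟩)⟩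
    · exact ⟨k0, Or.inr (Or.inr (Or.inl ⟨k1, k2, k3⟩))⟩
    · exact ⟨k0, Or.inr (Or.inr (Or.inr ⟨k1, k2, k3⟩))⟩
  refine ⟨Y2, _, hY3, {a | a ∈ A ∧ κ a = 1}, {a | a ∈ A ∧ κ a = 2}, {a | a ∈ A ∧ κ a = 3},
    ?_, hd _ _ (by decide), hd _ _ (by decide), hd _ _ (by decide), ?_, ?_⟩
  · ext a
    simp only [mem_union, mem_ofPred_eq]
    constructor
    · rintro ((h | h) | h) <;> exact h.1
    · intro ha
      rcases hκ' a ha with h | h | h
      · exact Or.inl (Or.inl ⟨ha, h⟩)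
      · exact Or.inl (Or.inr ⟨ha, h⟩)
      · exact Or.inr ⟨ha, h⟩
  · intro b hb h0
    exfalso
    have h1 : t b 0 = 0 := congrFun h0 0
    rw [(hb1 b hb).1] at h1
    exact one_ne_zero h1
  · intro b hb _
    rw [hmemA b hb]
    rcases (hb1 b hb).2 with ⟨k1, k2, k3⟩ | ⟨k1, k2, k3⟩ | ⟨k1, k2, k3⟩ | ⟨k1, k2, k3⟩
    · left
      ext a
      simp only [mem_ofPred_eq, mem_empty_iff_false, iff_false, not_and]
      intro ha
      rcases hκ' a ha with h | h | h <;> rw [h]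
      · rw [k1]; exact zero_ne_one
      · rw [k2]; exact zero_ne_one
      · rw [k3]; exact zero_ne_one
    · right; left
      ext a
      simp only [mem_ofPred_eq, mem_union]
      constructor
      · rintro ⟨ha, h'⟩
        rcases hκ' a ha with h | h | h
        · exact Or.inl ⟨ha, h⟩
        · exact Or.inr ⟨ha, h⟩
        · rw [h, k3] at h'; exact absurd h' zero_ne_one
      · rintro (⟨ha, h⟩ | ⟨ha, h⟩)
        · rw [h]; exact ⟨ha, k1⟩
        · rw [h]; exact ⟨ha, k2⟩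
    · right; right; left
      ext a
      simp only [mem_ofPred_eq, mem_union]
      constructor
      · rintro ⟨ha, h'⟩
        rcases hκ' a ha with h | h | h
        · exact Or.inl ⟨ha, h⟩
        · rw [h, k2] at h'; exact absurd h' zero_ne_one
        · exact Or.inr ⟨ha, h⟩
      · rintro (⟨ha, h⟩ | ⟨ha, h⟩)
        · rw [h]; exact ⟨ha, k1⟩
        · rw [h]; exact ⟨ha, k3⟩
    · right; right; right
      ext a
      simp only [mem_ofPred_eq, mem_union]
      constructor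
      · rintro ⟨ha, h'⟩
        rcases hκ' a ha with h | h | h
        · rw [h, k1] at h'; exact absurd h' zero_ne_one
        · exact Or.inl ⟨ha, h⟩
        · exact Or.inr ⟨ha, h⟩
      · rintro (⟨ha, h⟩ | ⟨ha, h⟩)
        · rw [h]; exact ⟨ha, k2⟩
        · rw [h]; exact ⟨ha, k3⟩

theorem typeW1_of_c7d {M : Matroid α} {A B A₁ : Set α} {Y : α → Set α}
    {t : α → Fin 4 → ZMod 2} (hL : Lab M A B) (hc : C7d M A B A₁ Y t) (r : Fin 4 → α)
    (hr : ∀ i, r i ∈ M.E \ A₁) (hrt : ∀ i, t (r i) = Pi.single i 1 ∧ Y (r i) = ∅)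
    (h : A \ A₁ = {r 0, r 1, r 2}) : TypeW1 M A B := by
  classical
  obtain ⟨⟨κ, hκI, hκ⟩, hpt⟩ := D2_kappa hL hc r hr hrt {0, 1, 2}
    (by rw [h, image_insert_eq, image_pair])
  have hAE : A ⊆ M.E := by rw [← hL.cover]; exact subset_union_left
  have hne : ∀ i j : Fin 4, i ≠ j → r i ≠ r j := by
    intro i j hij hr'
    have h1 := (hrt i).1
    rw [hr', (hrt j).1] at h1
    have h2 := congrFun h1 i
    rw [Pi.single_eq_same, Pi.single_eq_of_ne hij] at h2
    exact zero_ne_one h2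
  obtain ⟨Y2, hY2, hmem2⟩ := D2_move3 hAE hc.sub hc.form (c0 := r 0) (c1 := r 1) (c2 := r 2)
    (hne _ _ (by decide)) (hne _ _ (by decide)) (hne _ _ (by decide)) (hr 0) (hr 1) (hr 2)
    (hrt 0).1 (hrt 1).1 (hrt 2).1 (hrt 0).2 (hrt 1).2 (hrt 2).2 h
  rw [D2_sdiff hL] at hY2
  have hmemA : ∀ b ∈ B, Y2 b = {a | a ∈ A ∧ t b (κ a) = 1} := by
    intro b hb
    ext a
    have key : a ∈ A → (a ∈ Y2 b ↔ t b (κ a) = 1) := by
      intro ha
      rw [hmem2, ← hκ a ha b hb]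
      simp
    constructor
    · intro h'
      have ha := hY2.1 b hb h'
      exact ⟨ha, (key ha).1 h'⟩
    · rintro ⟨ha, h'⟩
      exact (key ha).2 h'
  have hκ' : ∀ a ∈ A, κ a = 0 ∨ κ a = 1 ∨ κ a = 2 := hκI
  have hb1 : ∀ b ∈ B, (t b 3 = 0 ∧ t b 0 = 1 ∧ t b 1 = 1 ∧ t b 2 = 1) ∨
      (t b 3 = 1 ∧ t b 0 = 0 ∧ t b 1 = 0 ∧ t b 2 = 0) ∨
      (t b 3 = 1 ∧ t b 0 = 1 ∧ t b 1 = 1 ∧ t b 2 = 0) ∨
      (t b 3 = 1 ∧ t b 0 = 1 ∧ t b 1 = 0 ∧ t b 2 = 1) := by
    intro b hb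
    obtain ⟨h1, h2, h3⟩ := hpt b hb
    have g1 := D2_ne_single (t b) 0 (h3 0 (Or.inl rfl))
    have g2 := D2_ne_single (t b) 1 (h3 1 (Or.inr (Or.inl rfl)))
    have g3 := D2_ne_single (t b) 2 (h3 2 (Or.inr (Or.inr rfl)))
    rcases D2_pts (t b) h1 h2 with h | h | h | h | h | h | h <;>
      obtain ⟨k0, k1, k2, k3⟩ := h
    · exact absurd ⟨k0, fun j hj => by
        fin_cases j <;> first | exact absurd rfl hj | assumption⟩ g1
    · exact absurd ⟨k1, fun j hj => by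
        fin_cases j <;> first | exact absurd rfl hj | assumption⟩ g2
    · exact absurd ⟨k2, fun j hj => by
        fin_cases j <;> first | exact absurd rfl hj | assumption⟩ g3
    · exact Or.inr (Or.inl ⟨k3, k0, k1, k2⟩)
    · exact Or.inl ⟨k3, k0, k1, k2⟩
    · exact Or.inr (Or.inr (Or.inl ⟨k3, k0, k1, k2⟩))
    · exact Or.inr (Or.inr (Or.inr ⟨k3, k0, k1, k2⟩))
  refine ⟨Y2, _, hY2, ?_, fun b => if t b 0 = 1 ∧ t b 1 = 0 then A \ Y2 b else Y2 b, ?_, ?_⟩
  · intro b hb h0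
    have h1 : t b 3 = 0 := congrFun h0 0
    rw [hmemA b hb]
    rcases hb1 b hb with ⟨k3, k0, k1, k2⟩ | ⟨k3, k0, k1, k2⟩ | ⟨k3, k0, k1, k2⟩ | ⟨k3, k0, k1, k2⟩
    · ext a
      simp only [mem_ofPred_eq, and_iff_left_iff_imp]
      intro ha
      rcases hκ' a ha with h | h | h <;> rw [h]
      · exact k0
      · exact k1
      · exact k2
    · rw [k3] at h1; exact absurd h1 one_ne_zero
    · rw [k3] at h1; exact absurd h1 one_ne_zero
    · rw [k3] at h1; exact absurd h1 one_ne_zero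
  · intro b _ _
    by_cases hcase : t b 0 = 1 ∧ t b 1 = 0
    · right
      simp only [if_pos hcase]
    · left
      simp only [if_neg hcase]
  · have hW : ∀ b ∈ B, (fun (_ : Fin 1) => t b 3) ≠ 0 →
        ((if t b 0 = 1 ∧ t b 1 = 0 then A \ Y2 b else Y2 b) = ∅ ∨
        (if t b 0 = 1 ∧ t b 1 = 0 then A \ Y2 b else Y2 b) = {a | a ∈ A ∧ κ a = 1} ∨
        (if t b 0 = 1 ∧ t b 1 = 0 then A \ Y2 b else Y2 b) =
          {a | a ∈ A ∧ (κ a = 0 ∨ κ a = 1)}) := by
      intro b hb h0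
      rcases hb1 b hb with ⟨k3, k0, k1, k2⟩ | ⟨k3, k0, k1, k2⟩ | ⟨k3, k0, k1, k2⟩ |
        ⟨k3, k0, k1, k2⟩
      · exfalso
        apply h0
        funext _
        exact k3
      · left
        rw [if_neg (by rw [k0]; simp), hmemA b hb]
        ext a
        simp only [mem_ofPred_eq, mem_empty_iff_false, iff_false, not_and]
        intro ha
        rcases hκ' a ha with h | h | h <;> rw [h]
        · rw [k0]; exact zero_ne_one
        · rw [k1]; exact zero_ne_one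
        · rw [k2]; exact zero_ne_one
      · right; right
        rw [if_neg (by rw [k1]; simp), hmemA b hb]
        ext a
        simp only [mem_ofPred_eq]
        constructor
        · rintro ⟨ha, h'⟩
          refine ⟨ha, ?_⟩
          rcases hκ' a ha with h | h | h
          · exact Or.inl h
          · exact Or.inr h
          · rw [h, k2] at h'; exact absurd h' zero_ne_one
        · rintro ⟨ha, (h | h)⟩
          · rw [h]; exact ⟨ha, k0⟩
          · rw [h]; exact ⟨ha, k1⟩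
      · right; left
        rw [if_pos ⟨k0, k1⟩, hmemA b hb]
        ext a
        simp only [mem_ofPred_eq, mem_sdiff, not_and]
        constructor
        · rintro ⟨ha, h'⟩
          refine ⟨ha, ?_⟩
          rcases hκ' a ha with h | h | h
          · exact absurd (by rw [h]; exact k0) (h' ha)
          · exact h
          · exact absurd (by rw [h]; exact k2) (h' ha)
        · rintro ⟨ha, h⟩
          refine ⟨ha, fun _ => ?_⟩
          rw [h, k1]
          exact zero_ne_one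
    intro b hb b' hb' h0 h0'
    show (if t b 0 = 1 ∧ t b 1 = 0 then A \ Y2 b else Y2 b) ⊆
        (if t b' 0 = 1 ∧ t b' 1 = 0 then A \ Y2 b' else Y2 b') ∨
      (if t b' 0 = 1 ∧ t b' 1 = 0 then A \ Y2 b' else Y2 b') ⊆
        (if t b 0 = 1 ∧ t b 1 = 0 then A \ Y2 b else Y2 b)
    rcases hW b hb h0 with h1 | h1 | h1 <;> rcases hW b' hb' h0' with h2 | h2 | h2 <;>
      rw [h1, h2]
    · left; exact empty_subset _
    · left; exact empty_subset _
    · left; exact empty_subset _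
    · right; exact empty_subset _
    · left; exact subset_rfl
    · left; rintro a ⟨ha, h⟩; exact ⟨ha, Or.inr h⟩
    · right; exact empty_subset _
    · right; rintro a ⟨ha, h⟩; exact ⟨ha, Or.inr h⟩
    · left; exact subset_rfl

end Pool.Agent.Helper43_EOR
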