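import Mathlib
import Pool.Agent.Helper43_EOR.F5

set_option autoImplicit false

namespace Pool.Agent.Helper43_EOR

open Set Matroid

variable {α : Type*}


/-
JOB N1 (nonbinary case with at most one element of A in the core U24).
PLAIN WORDS. Tool (U'): if C ⊆ M.E and x1, .., x4 ∈ M.E \ C are different, all six pairs {x_i, x_j} are independent
in M ／ C and {x1, .., x4} has rank 2 in M ／ C, then C ⊆ A and A ⊆ C ∪ {x1, .., x4} (delete the
other elements: IsU24, core_not_regular, Lab.of_minor).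
Part U2 (A ∩ X = ∅, X = {b1, .., b4}): Claim A = ∅. M✶ has labels exchanged and core X, all of whose
 elements are contracted-regular... In M✶ ／ (B \ X), of rank 2, an element a ∈ A \ X would be neither a loop
 (else (U') for M✶ with C = (B \ X) ∪ {a}, C ⊆ B, contradiction) nor parallel to some b_i (exchange a for b_i:
 a U24 in M✶ ／ (B \ X) avoiding b_i which is a deletion element (label B plays the role of A in M✶),
 contradiction) nor parallel to none (then {a, b1, b2, b3} is U24 avoiding b4, same contradiction). So A = ∅,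
 M ＼ (B \ X) = U24 and B \ X is coindependent, so M has rank 2; a loop b would be in B \ X and M ／ {b} would
 have the minor U24. Hence TypeU2.
Part U1 (A ∩ X = {a0}, X = {a0, b1, b2, b3}, A₁ = A \ {a0}): A = A₁ ∪ {a0}, r(M) = |A₁| + 2.
 (1) in N = M ／ A₁ (rank 2) every b ∈ B is parallel to exactly one of b1, b2, b3 (or equal): not a loop, not
 parallel to a0 (exchange: U24 avoiding a0), and if parallel to none then {b, b1, b2, b3} is U24 avoiding a0.
 (2) every a ∈ A₁ is in series with a0 in M ＼ (B \ X): by (1) for M✶ (core X, M✶-deletion elements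
 b1, b2, b3): a is not a loop of M✶ ／ (B \ X), not parallel to b_i, and if not parallel to a0 then
 {a, a0, b1, b2} is U24 avoiding b3, contradiction. So a is parallel to a0 in M✶ ／ (B \ X).
 Consequently for every a ∈ A the minor M ／ (A \ {a}) restricted to {a, b1, b2, b3} is U24, and (1) holds
 with a instead of a0: in M ／ (A \ {a}) every b ∈ B is parallel to exactly one of b1, b2, b3.
 (3) the index does not depend on a, and b is parallel to b_i in M: Let a ∈ A₁, and in
 N2 = M ／ (A \ {a, a0}), of rank 3, suppose b ∉ {b1,b2,b3}, {a, b, b_i} has rank 2 (b parallel to b_i in M ／ (A \ {a0}))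
 and {a0, b, b_j} has rank 2. {b1, b2, b3} has rank 2 in N2 (a circuit of U24 and its series extension).
 If i = j and b is not parallel to b_i in N2 then a, b_i, b are on a line and a0, b_i, b are on a line,
 so a0 is on the line of a, b_i: but {a, a0, b_i} is independent in N2 (a0, b_i not parallel in N2 ／ a).
 If i ≠ j let k be the third index. Contract b_k: in N2 ／ b_k, of rank 2, a, a0, b, b_i are pairwise not
 parallel (check: {b_k,a,a0}, {b_k,a,b}, {b_k,a0,b}, {b_k,a,b_i}, {b_k,a0,b_i}, {b_k,b,b_i} are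
 independent in N2), so (U') with C = (A \ {a, a0}) ∪ {b_k} gives b_k ∈ A: contradiction.
 So b is parallel to b_i in N2 for every a ∈ A₁, with i = i(b) fixed; conclude that b is parallel to b_i
 in M: the fundamental circuit of b in the base A ∪ {b_i} (|A| + 1 = |A₁| + 2 elements) does not
 contain a0 and contains no a ∈ A₁ (b would be independent from b_i in N2 for that a otherwise: in the base {a, a0, b_i}
 of N2 the fundamental circuit of b is C(b) ∩ ...). If A₁ = ∅, (1) says it directly.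
 (4) M restricted to A ∪ {b1, b2, b3}: independent sets: A ∪ {b_i} is a base; {b1, b2, b3} is a circuit;
 A ∪ {b_i, b_j} has rank |A| + 1 and is a circuit (by (2), all a ∈ A are in series, the fundamental
 circuit of b_j in A ∪ {b_i} is everything). Represent over ℚ: s b = 0, 1, -1 for b parallel to b1, b2, b3: the vectors
 χ_a, (0, 1), (χ_A, 1), (-χ_A, 1): I ⊆ A ∪ B is dependent iff it contains two b of the same class, or
 three of different classes, or A and two b; the same for the vectors. So TypeU1.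
-/

lemma N1_base_of_card {M : Matroid α} (hfin : M.E.Finite) {Z W : Set α} (hZ : M.IsBase Z)
    (hW : M.Indep W) (h : Z.ncard ≤ W.ncard) : M.IsBase W := by
  obtain ⟨Z', hZ', hWZ⟩ := hW.exists_isBase_superset
  have h1 : Z'.ncard = Z.ncard := hZ'.ncard_eq_ncard_of_isBase hZ
  have h2 : W = Z' := Set.eq_of_subset_of_ncard_le hWZ (by omega)
    (hfin.subset hZ'.subset_ground)
  rw [h2]; exact hZ'

lemma N1_exchange {M : Matroid α} (hfin : M.E.Finite) {Z W : Set α} (hZ : M.IsBase Z)
    (hW : M.Indep W) (h : W.ncard < Z.ncard) : ∃ e ∈ Z \ W, M.Indep (insert e W) := by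
  have h1 : ¬ M.IsBase W := fun hB => by
    have := hB.ncard_eq_ncard_of_isBase hZ
    omega
  exact hW.exists_insert_of_not_isBase h1 hZ

lemma N1_card2 {u v : α} {I : Set α} (hI : I.Finite) (hu : u ∉ I) (hv : v ∉ I) (huv : u ≠ v) :
    (insert u (insert v I)).ncard = I.ncard + 2 := by
  rw [Set.ncard_insert_of_notMem (by simp [huv, hu]) (hI.insert v),
    Set.ncard_insert_of_notMem hv hI]

lemma N1_four {X : Set α} (hX : X.encard = 4) (u : α) : ∃ v ∈ X, v ≠ u := by
  have : X.Nontrivial := by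
    rw [← Set.one_lt_encard_iff_nontrivial, hX]; norm_num
  exact this.exists_ne u

/-- The tool. -/
lemma N1_tool {M : Matroid α} {A B : Set α} (hL : Lab M A B) {I C X : Set α}
    (hC : M.IsBasis I C) (hX : X.encard = 4) (hXC : Disjoint C X)
    (hb : ∀ u ∈ X, ∀ v ∈ X, u ≠ v → M.IsBase (insert u (insert v I))) :
    C ⊆ A ∧ ∀ a ∈ A, a ∈ C ∨ a ∈ X := by
  have hCE : C ⊆ M.E := hC.subset_ground
  have hIC : I ⊆ C := hC.subset
  have hIfin : I.Finite := hL.fin.subset (hIC.trans hCE)
  have hXE : X ⊆ M.E := by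
    intro u hu
    obtain ⟨v, hv, hvu⟩ := N1_four hX u
    exact (hb u hu v hv hvu.symm).subset_ground (Set.mem_insert _ _)
  have hXI : ∀ u ∈ X, u ∉ I := fun u hu h => Set.disjoint_left.1 hXC (hIC h) hu
  have hD : M.E \ (C ∪ X) ⊆ M.E := Set.sdiff_subset
  have hdis : Disjoint C (M.E \ (C ∪ X)) := by
    rw [Set.disjoint_left]; rintro z hz ⟨_, h⟩; exact h (Or.inl hz)
  have hE : (M ／ C ＼ (M.E \ (C ∪ X))).E = X := by
    rw [delete_ground, contract_ground]
    ext z
    simp only [Set.mem_sdiff, Set.mem_union]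
    constructor
    · rintro ⟨⟨h1, h2⟩, h3⟩
      by_contra h4
      exact h3 ⟨h1, by tauto⟩
    · intro h
      exact ⟨⟨hXE h, fun h' => Set.disjoint_left.1 hXC h' h⟩, fun h' => h'.2 (Or.inr h)⟩
  have hU : IsU24 (M ／ C ＼ (M.E \ (C ∪ X))) := by
    refine ⟨by rw [hE, hX], fun I' hI' => ?_⟩
    rw [hE] at hI'
    rw [delete_indep_iff, hC.contract_indep_iff]
    constructor
    · rintro ⟨⟨h1, _⟩, _⟩
      obtain ⟨u, hu, _⟩ := N1_four hX (Classical.choice (by
        obtain ⟨w, hw⟩ : X.Nonempty := by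
          rw [← Set.encard_ne_zero, hX]; norm_num
        exact ⟨w⟩))
      obtain ⟨v, hv, hvu⟩ := N1_four hX u
      have hI'fin : I'.Finite := hL.fin.subset (hI'.trans hXE)
      have hbase := hb u hu v hv hvu.symm
      obtain ⟨Z', hZ', hWZ⟩ := h1.exists_isBase_superset
      have e1 : (I' ∪ I).ncard ≤ Z'.ncard :=
        Set.ncard_le_ncard hWZ (hL.fin.subset hZ'.subset_ground)
      have e2 := hZ'.ncard_eq_ncard_of_isBase hbase
      rw [N1_card2 hIfin (hXI u hu) (hXI v hv) hvu.symm] at e2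
      have hdj : Disjoint I' I := by
        rw [Set.disjoint_left]; intro z hz hz'
        exact hXI z (hI' hz) hz'
      rw [Set.ncard_union_eq hdj hI'fin hIfin] at e1
      rw [← hI'fin.cast_ncard_eq]
      have : I'.ncard ≤ 2 := by omega
      exact_mod_cast this
    · intro h
      obtain ⟨r, hr1, hr2, hr3⟩ := Set.exists_superset_subset_encard_eq hI' h
        (by rw [hX]; norm_num)
      obtain ⟨u, v, huv, rfl⟩ := Set.encard_eq_two.1 hr3
      have hu : u ∈ X := hr2 (by simp)
      have hv : v ∈ X := hr2 (by simp)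
      refine ⟨⟨(hb u hu v hv huv).indep.subset ?_, ?_⟩, ?_⟩
      · rintro z (hz | hz)
        · have := hr1 hz
          simp only [Set.mem_insert_iff, Set.mem_singleton_iff] at this
          rcases this with rfl | rfl <;> simp
        · exact Set.mem_insert_of_mem _ (Set.mem_insert_of_mem _ hz)
      · exact Disjoint.mono_right hI' hXC
      · rw [Set.disjoint_left]; rintro z hz ⟨_, h'⟩
        exact h' (Or.inr (hI' hz))
  have hNfin : (M ／ C ＼ (M.E \ (C ∪ X))).E.Finite := by
    rw [hE]; exact hL.fin.subset hXE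
  have hN := core_not_regular hNfin (Or.inl hU)
  obtain ⟨h1, h2⟩ := hL.of_minor hCE hD hdis hN
  refine ⟨h1, fun a ha => ?_⟩
  by_contra h
  have haE : a ∈ M.E := hL.cover ▸ Or.inl ha
  have haB : a ∈ B := h2 ⟨haE, by simpa using h⟩
  exact Set.disjoint_left.1 hL.disj ha haB

lemma N1_par {M : Matroid α} {A B : Set α} (hL : Lab M A B) {I X : Set α}
    (hX : X.encard = 4) (hXI : Disjoint I X)
    (hb : ∀ u ∈ X, ∀ v ∈ X, u ≠ v → M.IsBase (insert u (insert v I)))
    {b : α} (hbB : b ∈ B) (hbI : b ∉ I) (hbX : b ∉ X) {u0 : α} (hu0 : u0 ∈ X) (hu0A : u0 ∈ A) :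
    ∃ v ∈ X, v ≠ u0 ∧ ¬ M.IsBase (insert b (insert v I)) ∧
      ∀ w ∈ X, w ≠ v → M.IsBase (insert b (insert w I)) := by
  have hXI' : ∀ u ∈ X, u ∉ I := fun u hu h => Set.disjoint_left.1 hXI h hu
  obtain ⟨u1, hu1, hu1'⟩ := N1_four hX u0
  have hI : M.Indep I := (hb u0 hu0 u1 hu1 hu1'.symm).indep.subset
    (fun z hz => Set.mem_insert_of_mem _ (Set.mem_insert_of_mem _ hz))
  have hIE : I ⊆ M.E := hI.subset_ground
  have hIfin : I.Finite := hL.fin.subset hIE
  have hbE : b ∈ M.E := hL.cover ▸ Or.inr hbB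
  have hbA : b ∉ A := fun h => Set.disjoint_left.1 hL.disj h hbB
  -- b is not a loop
  have h1 : M.Indep (insert b I) := by
    by_contra h
    have hbas : M.IsBasis I (insert b I) := by
      refine hI.isBasis_of_forall_insert (Set.subset_insert _ _) ?_
      rintro e ⟨he1, he2⟩
      rcases he1 with rfl | he1
      · exact (M.not_indep_iff (Set.insert_subset hbE hIE)).1 h
      · exact absurd he1 he2
    have := (N1_tool hL hbas hX (by
      rw [Set.disjoint_left]; rintro z (rfl | hz) hz'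
      · exact hbX hz'
      · exact hXI' z hz' hz) hb).1 (Set.mem_insert _ _)
    exact hbA this
  -- two indices
  have h2 : ∀ u ∈ X, ∀ v ∈ X, u ≠ v → M.IsBase (insert b (insert u I)) ∨
      M.IsBase (insert b (insert v I)) := by
    intro u hu v hv huv
    have hc := N1_card2 hIfin (hXI' u hu) (hXI' v hv) huv
    obtain ⟨e, ⟨he1, he2⟩, he3⟩ := N1_exchange hL.fin (hb u hu v hv huv) h1 (by
      rw [Set.ncard_insert_of_notMem hbI hIfin, hc]; omega)
    have aux : ∀ w ∈ X, M.Indep (insert w (insert b I)) → M.IsBase (insert b (insert w I)) := by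
      intro w hw h
      rw [Set.insert_comm] at h
      refine N1_base_of_card hL.fin (hb u hu v hv huv) h ?_
      rw [hc, N1_card2 hIfin hbI (hXI' w hw) (fun h => hbX (h ▸ hw))]
    rcases he1 with rfl | rfl | he1
    · exact Or.inl (aux _ hu he3)
    · exact Or.inr (aux _ hv he3)
    · exact absurd (Set.mem_insert_of_mem _ he1) he2
  -- some element is bad
  have h3 : ∃ v ∈ X, v ≠ u0 ∧ ¬ M.IsBase (insert b (insert v I)) := by
    by_contra hcon
    push Not at hcon
    have hX' : (insert b (X \ {u0})).encard = 4 := by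
      rw [Set.encard_insert_of_notMem (fun h => hbX h.1)]
      have := Set.encard_sdiff_singleton_add_one hu0
      rw [this, hX]
    have := (N1_tool hL hI.isBasis_self hX' (by
      rw [Set.disjoint_left]; rintro z hz hz'
      rcases hz' with rfl | hz'
      · exact hbI hz
      · exact hXI' z hz'.1 hz) (by
      rintro u hu v hv huv
      rcases hu with rfl | hu <;> rcases hv with rfl | hv
      · exact absurd rfl huv
      · exact hcon v hv.1 (by simpa using hv.2)
      · rw [Set.insert_comm]; exact hcon u hu.1 (by simpa using hu.2)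
      · exact hb u hu.1 v hv.1 huv)).2 u0 hu0A
    rcases this with h | h | h
    · exact hXI' u0 hu0 h
    · exact hbX (h ▸ hu0)
    · exact h.2 rfl
  obtain ⟨v, hv, hvu, hnb⟩ := h3
  refine ⟨v, hv, hvu, hnb, fun w hw hwv => ?_⟩
  rcases h2 w hw v hv hwv with h | h
  · exact h
  · exact absurd h hnb

/-- Pairs of elements of the core give bases. -/
lemma N1_core {M : Matroid α} {A B : Set α} (hL : Lab M A B) {X : Set α} (hX : X ⊆ M.E)
    (hU : IsU24 (M ／ (A \ X) ＼ (B \ X))) :
    X.encard = 4 ∧ ∀ u ∈ X, ∀ v ∈ X, u ≠ v → M.IsBase (insert u (insert v (A \ X))) := by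
  have hE : (M ／ (A \ X) ＼ (B \ X)).E = X := by
    rw [delete_ground, contract_ground]
    ext z
    simp only [Set.mem_sdiff]
    constructor
    · rintro ⟨⟨h1, h2⟩, h3⟩
      rw [← hL.cover] at h1
      rcases h1 with h1 | h1
      · by_contra h; exact h2 ⟨h1, h⟩
      · by_contra h; exact h3 ⟨h1, h⟩
    · intro h
      exact ⟨⟨hX h, fun h' => h'.2 h⟩, fun h' => h'.2 h⟩
  have hX4 : X.encard = 4 := by rw [← hE]; exact hU.1
  refine ⟨hX4, fun u hu v hv huv => ?_⟩
  have hN : ¬ Regular (M ／ (A \ X) ＼ (B \ X)) := by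
    refine core_not_regular ?_ (Or.inl hU)
    rw [hE]; exact hL.fin.subset hX
  have h2 : ({u, v} : Set α).encard = 2 := Set.encard_pair huv
  have hsub : ({u, v} : Set α) ⊆ X := by
    rintro z (rfl | rfl)
    · exact hu
    · exact hv
  have hR : (M ／ (A \ X) ＼ (B \ X)).IsBase {u, v} := by
    have hI : (M ／ (A \ X) ＼ (B \ X)).Indep {u, v} := by
      rw [hU.2 _ (by rw [hE]; exact hsub), h2]
    refine hI.isBase_of_maximal fun J hJ hIJ => ?_
    have hJE := hJ.subset_ground
    have := (hU.2 J hJE).1 hJ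
    exact (Set.toFinite ({u, v} : Set α)).eq_of_subset_of_encard_le hIJ (by rw [h2]; exact this)
  have := hL.isBase hX hN hR
  convert this using 1
  ext z
  simp only [Set.mem_insert_iff, Set.mem_union, Set.mem_sdiff, Set.mem_singleton_iff]
  tauto

lemma N1_dual_core {M : Matroid α} {A B : Set α} (hL : Lab M A B) {X : Set α}
    (hU : IsU24 (M ／ (A \ X) ＼ (B \ X))) : IsU24 (M✶ ／ (B \ X) ＼ (A \ X)) := by
  have h := hU.dual
  have hdis : Disjoint (A \ X) (B \ X) := hL.disj.mono Set.sdiff_subset Set.sdiff_subset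
  rw [contract_delete_comm _ hdis, dual_delete_contract] at h
  exact h

theorem typeU2_of_u24 {M : Matroid α} {A B : Set α} (hL : Lab M A B) {X : Set α} (hX : X ⊆ M.E)
    (hU : IsU24 (M ／ (A \ X) ＼ (B \ X))) (hc : A ∩ X = ∅) : TypeU2 M A := by
  obtain ⟨hX4, hb⟩ := N1_core hL hX hU
  have hXA : ∀ u ∈ X, u ∉ A := fun u hu h => by
    have : u ∈ A ∩ X := ⟨h, hu⟩
    rw [hc] at this; exact this
  have hXB : ∀ u ∈ X, u ∈ B := fun u hu => by
    have h1 : u ∈ A ∪ B := hL.cover ▸ hX hu
    rcases h1 with h | h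
    · exact absurd h (hXA u hu)
    · exact h
  have hA : A = ∅ := by
    by_contra hne
    obtain ⟨a, ha⟩ := Set.nonempty_iff_ne_empty.2 hne
    have hL' := hL.dual
    have hXE' : X ⊆ M✶.E := hX
    obtain ⟨_, hb'⟩ := N1_core hL' hXE' (N1_dual_core hL hU)
    have hdj : Disjoint (B \ X) X := Set.disjoint_sdiff_left
    have haB : a ∉ B := fun h => Set.disjoint_left.1 hL.disj ha h
    obtain ⟨w, hw⟩ : X.Nonempty := by
      rw [← Set.encard_ne_zero, hX4]; norm_num
    obtain ⟨v, hv, _, hnb, _⟩ := N1_par hL' hX4 hdj hb' ha (fun h => haB h.1)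
      (fun h => hXA a h ha) hw (hXB w hw)
    obtain ⟨v', hv', hvv, _, hall⟩ := N1_par hL' hX4 hdj hb' ha (fun h => haB h.1)
      (fun h => hXA a h ha) hv (hXB v hv)
    exact hnb (hall v hv hvv.symm)
  subst hA
  have hb0 : ∀ u ∈ X, ∀ v ∈ X, u ≠ v → M.IsBase (insert u (insert v (∅ : Set α))) := by
    intro u hu v hv huv
    have := hb u hu v hv huv
    rwa [Set.empty_sdiff] at this
  refine ⟨rfl, ?_, ?_⟩
  · obtain ⟨w, hw⟩ : X.Nonempty := by
      rw [← Set.encard_ne_zero, hX4]; norm_num
    obtain ⟨v, hv, hvw⟩ := N1_four hX4 w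
    have h := hb0 w hw v hv hvw.symm
    rw [← h.encard_eq_eRank, insert_empty_eq, Set.encard_pair hvw.symm]
  · rw [loopless_iff_forall_not_isLoop]
    intro e he hloop
    have heX : e ∉ X := by
      intro heX
      obtain ⟨v, hv, hve⟩ := N1_four hX4 e
      have h := (hb0 e heX v hv hve.symm).indep
      exact hloop.notMem_of_indep h (Set.mem_insert _ _)
    have hbas : M.IsBasis ∅ {e} := by
      refine M.empty_indep.isBasis_of_forall_insert (Set.empty_subset _) ?_
      rintro f ⟨hf1, _⟩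
      rw [Set.mem_singleton_iff] at hf1
      subst hf1
      rw [insert_empty_eq]
      exact hloop.dep
    have := (N1_tool hL hbas hX4 (by simpa using heX) hb0).1 (Set.mem_singleton e)
    exact this

/-- Data in the case of one element of `A` in the core. -/
structure N1_Dat (M : Matroid α) (A B Y : Set α) (a0 : α) : Prop where
  a0A : a0 ∈ A
  YB : Y ⊆ B
  Y3 : Y.encard = 3
  F0 : ∀ y ∈ Y, M.IsBase (insert y A)
  F1 : ∀ a ∈ A, ∀ y ∈ Y, ∀ y' ∈ Y, y ≠ y' → M.IsBase (insert y (insert y' (A \ {a})))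
  F2 : ∀ a ∈ A, a ≠ a0 → ¬ M.IsBase (Y ∪ (A \ {a, a0}))

lemma N1_third {Y : Set α} (h : Y.encard = 3) {y y' : α} (hy : y ∈ Y) (hy' : y' ∈ Y)
    (hne : y ≠ y') : ∃ w ∈ Y, w ≠ y ∧ w ≠ y' ∧ ∀ z ∈ Y, z = y ∨ z = y' ∨ z = w := by
  obtain ⟨p, q, r, hpq, hpr, hqr, rfl⟩ := Set.encard_eq_three.1 h
  simp only [Set.mem_insert_iff, Set.mem_singleton_iff] at hy hy' ⊢
  rcases hy with rfl | rfl | rfl <;> rcases hy' with rfl | rfl | rfl
  · exact absurd rfl hne
  · exact ⟨r, by tauto, hpr.symm, hqr.symm, by tauto⟩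
  · exact ⟨q, by tauto, hpq.symm, hqr, by tauto⟩
  · exact ⟨r, by tauto, hqr.symm, hpr.symm, by tauto⟩
  · exact absurd rfl hne
  · exact ⟨p, by tauto, hpq, hpr, by tauto⟩
  · exact ⟨q, by tauto, hqr, hpq.symm, by tauto⟩
  · exact ⟨p, by tauto, hpr, hpq, by tauto⟩
  · exact absurd rfl hne

lemma N1_dat {M : Matroid α} {A B : Set α} (hL : Lab M A B) {X : Set α} (hX : X ⊆ M.E)
    (hU : IsU24 (M ／ (A \ X) ＼ (B \ X))) (hc : (A ∩ X).encard = 1) :
    ∃ (Y : Set α) (a0 : α), N1_Dat M A B Y a0 := by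
  obtain ⟨hX4, hb⟩ := N1_core hL hX hU
  obtain ⟨a0, ha0⟩ := Set.encard_eq_one.1 hc
  have ha0' : a0 ∈ A ∩ X := by rw [ha0]; rfl
  obtain ⟨ha0A, ha0X⟩ := ha0'
  have hXa : ∀ z ∈ X, z ∈ A → z = a0 := fun z hz hzA => by
    have : z ∈ A ∩ X := ⟨hzA, hz⟩
    rw [ha0] at this; exact this
  have hAX : A \ X = A \ {a0} := by
    ext z
    simp only [Set.mem_sdiff, Set.mem_singleton_iff]
    constructor
    · rintro ⟨h1, h2⟩
      exact ⟨h1, fun h => h2 (h ▸ ha0X)⟩
    · rintro ⟨h1, h2⟩
      exact ⟨h1, fun h => h2 (hXa z h h1)⟩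
  have hdAB : ∀ z ∈ A, z ∉ B := fun z hz h => Set.disjoint_left.1 hL.disj hz h
  have hYB : ∀ z ∈ X, z ≠ a0 → z ∈ B := fun z hz hne => by
    have h1 : z ∈ A ∪ B := hL.cover ▸ hX hz
    rcases h1 with h | h
    · exact absurd (hXa z hz h) hne
    · exact h
  have hY3 : (X \ {a0}).encard = 3 := by
    have := Set.encard_sdiff_singleton_add_one ha0X
    rw [hX4] at this
    have h3 : (4 : ℕ∞) = 3 + 1 := by norm_num
    rw [h3] at this
    exact (ENat.addLECancellable_of_ne_top ENat.one_ne_top).inj_left.1 this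
  have hL' := hL.dual
  obtain ⟨_, hb'⟩ := N1_core hL' (show X ⊆ M✶.E from hX) (N1_dual_core hL hU)
  have hdj : Disjoint (B \ X) X := Set.disjoint_sdiff_left
  -- information from the dual
  have key : ∀ a ∈ A, a ≠ a0 → ¬ M✶.IsBase (insert a (insert a0 (B \ X))) ∧
      ∀ w ∈ X, w ≠ a0 → M✶.IsBase (insert a (insert w (B \ X))) := by
    intro a ha hne
    have haX : a ∉ X := fun h => hne (hXa a h ha)
    have haB : a ∉ B \ X := fun h => hdAB a ha h.1
    obtain ⟨y, hy, hya⟩ := N1_four hX4 a0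
    obtain ⟨v, hv, hvy, hnb, hall⟩ := N1_par hL' hX4 hdj hb' ha haB haX hy (hYB y hy hya)
    by_cases hva : v = a0
    · subst hva
      exact ⟨hnb, hall⟩
    · obtain ⟨v', hv', hvv, _, hall'⟩ := N1_par hL' hX4 hdj hb' ha haB haX hv (hYB v hv hva)
      exact absurd (hall' v hv hvv.symm) hnb
  refine ⟨X \ {a0}, a0, ha0A, fun z hz => hYB z hz.1 hz.2, hY3, ?_, ?_, ?_⟩
  · rintro y ⟨hy, hya⟩
    have := hb y hy a0 ha0X hya
    rwa [hAX, Set.insert_sdiff_singleton, Set.insert_eq_of_mem ha0A] at this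
  · rintro a ha y ⟨hy, hya⟩ y' ⟨hy', hya'⟩ hyy
    by_cases haa : a = a0
    · subst haa
      have := hb y hy y' hy' hyy
      rwa [hAX] at this
    · obtain ⟨w, ⟨hw, hwa⟩, hwy, hwy', hall⟩ := N1_third hY3 ⟨hy, hya⟩ ⟨hy', hya'⟩ hyy
      have h := (key a ha haa).2 w hw hwa
      rw [dual_isBase_iff'] at h
      convert h.1 using 1
      ext z
      have hyB := hYB y hy hya
      have hyB' := hYB y' hy' hya'
      have hyA : y ∉ A := fun h => hdAB y h hyB
      have hyA' : y' ∉ A := fun h => hdAB y' h hyB'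
      have hwB := hYB w hw hwa
      rw [← hL.cover]
      simp only [Set.mem_insert_iff, Set.mem_sdiff, Set.mem_singleton_iff, Set.mem_union]
      constructor
      · rintro (rfl | rfl | ⟨h1, h2⟩)
        · refine ⟨Or.inr hyB, ?_⟩
          rintro (h | h | h)
          · exact hyA (h ▸ ha)
          · exact hwy h.symm
          · exact h.2 hy
        · refine ⟨Or.inr hyB', ?_⟩
          rintro (h | h | h)
          · exact hyA' (h ▸ ha)
          · exact hwy' h.symm
          · exact h.2 hy'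
        · refine ⟨Or.inl h1, ?_⟩
          rintro (h | h | h)
          · exact h2 h
          · exact hdAB z h1 (h ▸ hwB)
          · exact hdAB z h1 h.1
      · rintro ⟨h1 | h1, h2⟩
        · exact Or.inr (Or.inr ⟨h1, fun h => h2 (Or.inl h)⟩)
        · have hzX : z ∈ X := by
            by_contra h; exact h2 (Or.inr (Or.inr ⟨h1, h⟩))
          have hza : z ≠ a0 := fun h => hdAB a0 ha0A (h ▸ h1)
          rcases hall z ⟨hzX, hza⟩ with h | h | h
          · exact Or.inl h
          · exact Or.inr (Or.inl h)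
          · exact absurd (Or.inr (Or.inl h)) h2
  · intro a ha hne h
    apply (key a ha hne).1
    rw [dual_isBase_iff']
    refine ⟨?_, ?_⟩
    · convert h using 1
      ext z
      rw [← hL.cover]
      simp only [Set.mem_insert_iff, Set.mem_sdiff, Set.mem_singleton_iff, Set.mem_union]
      constructor
      · rintro ⟨h1 | h1, h2⟩
        · exact Or.inr ⟨h1, fun h => h2 (by tauto)⟩
        · have hzX : z ∈ X := by
            by_contra h; exact h2 (Or.inr (Or.inr ⟨h1, h⟩))
          exact Or.inl ⟨hzX, fun h => hdAB a0 ha0A (h ▸ h1)⟩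
      · rintro (⟨h1, h2⟩ | ⟨h1, h2⟩)
        · have hzB := hYB z h1 h2
          refine ⟨Or.inr hzB, ?_⟩
          rintro (h | h | h)
          · exact hdAB a ha (h ▸ hzB)
          · exact h2 h
          · exact h.2 h1
        · refine ⟨Or.inl h1, ?_⟩
          rintro (h | h | h)
          · exact h2 (Or.inl h)
          · exact h2 (Or.inr h)
          · exact hdAB z h1 h.1
    · rintro z (rfl | rfl | hz)
      · exact hL.cover ▸ Or.inl ha
      · exact hL.cover ▸ Or.inl ha0A
      · exact hL.cover ▸ Or.inr hz.1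

lemma N1_idx {M : Matroid α} {A B : Set α} (hL : Lab M A B) {Y : Set α} {a0 : α}
    (hD : N1_Dat M A B Y a0) {b : α} (hb : b ∈ B) (hbY : b ∉ Y) {a : α} (ha : a ∈ A) :
    M.IsBase (insert b A) ∧ ∃ v ∈ Y, ¬ M.IsBase (insert b (insert v (A \ {a}))) ∧
      ∀ w ∈ Y, w ≠ v → M.IsBase (insert b (insert w (A \ {a}))) := by
  have hdAB : ∀ z ∈ A, z ∉ B := fun z hz h => Set.disjoint_left.1 hL.disj hz h
  have haY : a ∉ Y := fun h => hdAB a ha (hD.YB h)
  have h4 : (insert a Y).encard = 4 := by
    rw [Set.encard_insert_of_notMem haY, hD.Y3]; norm_num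
  have hins : insert a (A \ {a}) = A := by
    rw [Set.insert_sdiff_singleton, Set.insert_eq_of_mem ha]
  obtain ⟨v, hv, hva, hnb, hall⟩ := N1_par hL (I := A \ {a}) (X := insert a Y) h4 (by
      rw [Set.disjoint_left]
      rintro z ⟨hz, hza⟩ (h | h)
      · exact hza h
      · exact hdAB z hz (hD.YB h)) (by
      rintro u (rfl | hu) v (rfl | hv) huv
      · exact absurd rfl huv
      · rw [Set.insert_comm, hins]; exact hD.F0 v hv
      · rw [hins]; exact hD.F0 u hu
      · exact hD.F1 a ha u hu v hv huv) hb (fun h => hdAB b h.1 hb) (by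
      rintro (h | h)
      · exact hdAB a ha (h ▸ hb)
      · exact hbY h) (Set.mem_insert a Y) ha
  rcases hv with rfl | hv
  · exact absurd rfl hva
  refine ⟨?_, v, hv, hnb, fun w hw hwv => hall w (Or.inr hw) hwv⟩
  have := hall a (Or.inl rfl) hva.symm
  rwa [hins] at this

lemma N1_card_sdiff {A : Set α} (hA : A.Finite) {a : α} (ha : a ∈ A) :
    (A \ {a}).ncard + 1 = A.ncard := Set.ncard_sdiff_singleton_add_one ha hA

lemma N1_same {M : Matroid α} {A B : Set α} (hL : Lab M A B) {Y : Set α} {a0 : α}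
    (hD : N1_Dat M A B Y a0) {b : α} (hb : b ∈ B) (hbY : b ∉ Y) {a a' : α} (ha : a ∈ A)
    (ha' : a' ∈ A) (haa : a ≠ a') {v v' : α} (hv : v ∈ Y) (hv' : v' ∈ Y)
    (h1 : ¬ M.IsBase (insert b (insert v (A \ {a}))))
    (h2 : ∀ w ∈ Y, w ≠ v → M.IsBase (insert b (insert w (A \ {a}))))
    (h2' : ∀ w ∈ Y, w ≠ v' → M.IsBase (insert b (insert w (A \ {a'})))) : v = v' := by
  by_contra hvv
  have hdAB : ∀ z ∈ A, z ∉ B := fun z hz h => Set.disjoint_left.1 hL.disj hz h
  have hYA : ∀ z ∈ Y, z ∉ A := fun z hz h => hdAB z h (hD.YB hz)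
  have hbA : b ∉ A := fun h => hdAB b h hb
  have hAfin : A.Finite := hL.fin.subset (hL.cover ▸ Set.subset_union_left)
  obtain ⟨k, hk, hkv, hkv', _⟩ := N1_third hD.Y3 hv hv' hvv
  have hins : insert a (A \ {a, a'}) = A \ {a'} := by
    ext z
    simp only [Set.mem_insert_iff, Set.mem_sdiff, Set.mem_singleton_iff]
    constructor
    · rintro (rfl | h)
      · exact ⟨ha, haa⟩
      · tauto
    · rintro ⟨h1, h2⟩
      by_cases h3 : z = a
      · exact Or.inl h3
      · exact Or.inr ⟨h1, by tauto⟩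
  have hins' : insert a' (A \ {a, a'}) = A \ {a} := by
    ext z
    simp only [Set.mem_insert_iff, Set.mem_sdiff, Set.mem_singleton_iff]
    constructor
    · rintro (rfl | h)
      · exact ⟨ha', haa.symm⟩
      · tauto
    · rintro ⟨h1, h2⟩
      by_cases h3 : z = a'
      · exact Or.inl h3
      · exact Or.inr ⟨h1, by tauto⟩
  have hinsA : insert a (A \ {a}) = A := by
    rw [Set.insert_sdiff_singleton, Set.insert_eq_of_mem ha]
  have hI2fin : (A \ {a, a'}).Finite := hAfin.subset Set.sdiff_subset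
  have hcI2 : (A \ {a, a'}).ncard + 2 = A.ncard := by
    have e1 := N1_card_sdiff hAfin ha
    have e2 : (insert a' (A \ {a, a'})).ncard = (A \ {a, a'}).ncard + 1 :=
      Set.ncard_insert_of_notMem (by simp) hI2fin
    rw [hins'] at e2
    omega
  have hk0 : k ∉ A \ {a, a'} := fun h => hYA k hk h.1
  have hv0 : v ∉ A \ {a, a'} := fun h => hYA v hv h.1
  have hb0 : b ∉ A \ {a, a'} := fun h => hbA h.1
  have ha0 : a ∉ A \ {a, a'} := by simp
  have ha0' : a' ∉ A \ {a, a'} := by simp
  -- the six bases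
  have B1 : M.IsBase (insert a (insert a' (insert k (A \ {a, a'})))) := by
    have := hD.F0 k hk
    rwa [Set.insert_comm a' k, hins', Set.insert_comm a k, hinsA]
  have B2 : M.IsBase (insert a (insert b (insert k (A \ {a, a'})))) := by
    rw [Set.insert_comm a b, Set.insert_comm a k, hins]
    exact h2' k hk hkv'
  have B3 : M.IsBase (insert a (insert v (insert k (A \ {a, a'})))) := by
    rw [Set.insert_comm a v, Set.insert_comm a k, hins]
    exact hD.F1 a' ha' v hv k hk hkv.symm
  have B4 : M.IsBase (insert a' (insert b (insert k (A \ {a, a'})))) := by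
    rw [Set.insert_comm a' b, Set.insert_comm a' k, hins']
    exact h2 k hk hkv
  have B5 : M.IsBase (insert a' (insert v (insert k (A \ {a, a'})))) := by
    rw [Set.insert_comm a' v, Set.insert_comm a' k, hins']
    exact hD.F1 a ha v hv k hk hkv.symm
  have hbv : b ≠ v := fun h => hbY (h ▸ hv)
  have hbk : b ≠ k := fun h => hbY (h ▸ hk)
  have hcB5 : (insert a' (insert v (insert k (A \ {a, a'})))).ncard = A.ncard + 1 := by
    rw [Set.insert_comm a' v, Set.insert_comm a' k, hins',
      N1_card2 (hAfin.subset Set.sdiff_subset) (fun h => hYA v hv h.1) (fun h => hYA k hk h.1)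
        hkv.symm]
    have := N1_card_sdiff hAfin ha
    omega
  have B6 : M.IsBase (insert b (insert v (insert k (A \ {a, a'})))) := by
    have hJ : M.Indep (insert b (insert v (A \ {a, a'}))) := by
      refine (h2' v hv hvv).indep.subset ?_
      rw [← hins]
      exact Set.insert_subset_insert (Set.insert_subset_insert (Set.subset_insert _ _))
    have hcJ : (insert b (insert v (A \ {a, a'}))).ncard = A.ncard := by
      rw [N1_card2 hI2fin hb0 hv0 hbv]; omega
    obtain ⟨e, ⟨he1, he2⟩, he3⟩ := N1_exchange hL.fin B5 hJ (by rw [hcJ, hcB5]; omega)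
    have hce : (insert e (insert b (insert v (A \ {a, a'})))).ncard = A.ncard + 1 := by
      rw [Set.ncard_insert_of_notMem he2 ((hI2fin.insert v).insert b), hcJ]
    have hbase := N1_base_of_card hL.fin B5 he3 (by rw [hcB5, hce])
    rcases he1 with rfl | rfl | rfl | he1
    · exfalso
      apply h1
      rw [← hins', Set.insert_comm v, Set.insert_comm b]
      exact hbase
    · exact absurd (by simp) he2
    · rw [Set.insert_comm v, Set.insert_comm b]
      exact hbase
    · exact absurd (Set.mem_insert_of_mem _ (Set.mem_insert_of_mem _ he1)) he2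
  -- the tool
  have hIk : M.Indep (insert k (A \ {a, a'})) := B6.indep.subset
    (fun z hz => Set.mem_insert_of_mem _ (Set.mem_insert_of_mem _ hz))
  have h4 : ({a, a', b, v} : Set α).encard = 4 := by
    rw [Set.encard_insert_of_notMem, Set.encard_insert_of_notMem, Set.encard_pair hbv]
    · norm_num
    · rintro (h | h)
      · exact hbA (h ▸ ha')
      · exact hYA v hv (by rw [← Set.mem_singleton_iff.1 h]; exact ha')
    · rintro (h | h | h)
      · exact haa h
      · exact hbA (h ▸ ha)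
      · exact hYA v hv (by rw [← Set.mem_singleton_iff.1 h]; exact ha)
  have hfinal := (N1_tool hL hIk.isBasis_self h4 (by
      rw [Set.disjoint_left]
      rintro z (rfl | hz) hz'
      · rcases hz' with h | h | h | h
        · exact hYA z hk (h ▸ ha)
        · exact hYA z hk (h ▸ ha')
        · exact hbk h.symm
        · exact hkv h
      · rcases hz' with h | h | h | h
        · exact ha0 (h ▸ hz)
        · exact ha0' (h ▸ hz)
        · exact hb0 (h ▸ hz)
        · exact hv0 (by rw [← Set.mem_singleton_iff.1 h]; exact hz)) (by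
      rintro x (rfl | rfl | rfl | rfl) y (rfl | rfl | rfl | rfl) hxy
      · exact absurd rfl hxy
      · exact B1
      · exact B2
      · exact B3
      · rw [Set.insert_comm]; exact B1
      · exact absurd rfl hxy
      · exact B4
      · exact B5
      · rw [Set.insert_comm]; exact B2
      · rw [Set.insert_comm]; exact B4
      · exact absurd rfl hxy
      · exact B6
      · rw [Set.insert_comm]; exact B3
      · rw [Set.insert_comm]; exact B5
      · rw [Set.insert_comm]; exact B6
      · exact absurd rfl hxy)).1 (Set.mem_insert _ _)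
  exact hYA k hk hfinal

/-- The class function. -/
lemma N1_cls {M : Matroid α} {A B : Set α} (hL : Lab M A B) {Y : Set α} {a0 : α}
    (hD : N1_Dat M A B Y a0) : ∃ c : α → α, (∀ b ∈ B, c b ∈ Y) ∧ (∀ y ∈ Y, c y = y) ∧
      (∀ b ∈ B, M.IsBase (insert b A)) ∧
      (∀ b ∈ B, b ∉ Y → ∀ a ∈ A, ¬ M.IsBase (insert b (insert (c b) (A \ {a})))) ∧
      (∀ b ∈ B, ∀ a ∈ A, ∀ w ∈ Y, w ≠ c b → M.IsBase (insert b (insert w (A \ {a})))) := by
  classical
  have hex : ∀ b : α, ∃ v : α, (b ∈ B → v ∈ Y) ∧ (b ∈ Y → v = b) ∧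
      (b ∈ B → b ∉ Y → ∀ a ∈ A, ¬ M.IsBase (insert b (insert v (A \ {a})))) ∧
      (b ∈ B → ∀ a ∈ A, ∀ w ∈ Y, w ≠ v → M.IsBase (insert b (insert w (A \ {a})))) := by
    intro b
    by_cases hbY : b ∈ Y
    · exact ⟨b, fun _ => hbY, fun _ => rfl, fun _ h => absurd hbY h,
        fun _ a ha w hw hwb => hD.F1 a ha b hbY w hw hwb.symm⟩
    by_cases hb : b ∈ B
    · obtain ⟨_, v, hv, hnb, hall⟩ := N1_idx hL hD hb hbY hD.a0A
      have hgen : ∀ a ∈ A, ¬ M.IsBase (insert b (insert v (A \ {a}))) ∧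
          ∀ w ∈ Y, w ≠ v → M.IsBase (insert b (insert w (A \ {a}))) := by
        intro a ha
        obtain ⟨_, v', hv', hnb', hall'⟩ := N1_idx hL hD hb hbY ha
        by_cases haa : a0 = a
        · subst haa; exact ⟨hnb, hall⟩
        · have : v = v' := N1_same hL hD hb hbY hD.a0A ha haa hv hv' hnb hall hall'
          subst this
          exact ⟨hnb', hall'⟩
      exact ⟨v, fun _ => hv, fun h => absurd h hbY, fun _ _ a ha => (hgen a ha).1,
        fun _ a ha w hw hwv => (hgen a ha).2 w hw hwv⟩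
    · exact ⟨b, fun h => absurd h hb, fun h => absurd h hbY, fun h => absurd h hb,
        fun h => absurd h hb⟩
  choose c hc using hex
  refine ⟨c, fun b hb => (hc b).1 hb, fun y hy => (hc y).2.1 hy, ?_,
    fun b hb hbY => (hc b).2.2.1 hb hbY, fun b hb => (hc b).2.2.2 hb⟩
  intro b hb
  by_cases hbY : b ∈ Y
  · exact hD.F0 b hbY
  · exact (N1_idx hL hD hb hbY hD.a0A).1

/-- The triangle is dependent. -/
lemma N1_tri {M : Matroid α} {A B : Set α} (hL : Lab M A B) {Y : Set α} {a0 : α}
    (hD : N1_Dat M A B Y a0) : ¬ M.Indep Y := by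
  intro hY
  have hdAB : ∀ z ∈ A, z ∉ B := fun z hz h => Set.disjoint_left.1 hL.disj hz h
  have hYA : ∀ z ∈ Y, z ∉ A := fun z hz h => hdAB z h (hD.YB hz)
  have hAfin : A.Finite := hL.fin.subset (hL.cover ▸ Set.subset_union_left)
  have hYfin : Y.Finite := hL.fin.subset hY.subset_ground
  have hY3 : Y.ncard = 3 := by
    have := hD.Y3
    rw [← hYfin.cast_ncard_eq] at this
    exact_mod_cast this
  obtain ⟨y, hy⟩ : Y.Nonempty := by
    rw [← Set.encard_ne_zero, hD.Y3]; norm_num
  obtain ⟨y', hy', hyy⟩ : ∃ y' ∈ Y, y' ≠ y := by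
    have : Y.Nontrivial := by
      rw [← Set.one_lt_encard_iff_nontrivial, hD.Y3]; norm_num
    exact this.exists_ne y
  have hbase := hD.F1 a0 hD.a0A y hy y' hy' hyy.symm
  obtain ⟨Z, hZ, hYZ, hZs⟩ := hY.exists_isBase_subset_union_isBase hbase
  have hcZ := hZ.ncard_eq_ncard_of_isBase hbase
  have hA0fin : (A \ {a0}).Finite := hAfin.subset Set.sdiff_subset
  rw [N1_card2 hA0fin (fun h => hYA y hy h.1) (fun h => hYA y' hy' h.1) hyy.symm] at hcZ
  have hZfin : Z.Finite := hL.fin.subset hZ.subset_ground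
  -- some element of A is missing
  have hmiss : ∃ a ∈ A \ {a0}, a ∉ Z := by
    by_contra hcon
    push Not at hcon
    have hsub : Y ∪ (A \ {a0}) ⊆ Z := Set.union_subset hYZ hcon
    have hdj : Disjoint Y (A \ {a0}) := by
      rw [Set.disjoint_left]; intro z hz hz'; exact hYA z hz hz'.1
    have := Set.ncard_le_ncard hsub hZfin
    rw [Set.ncard_union_eq hdj hYfin hA0fin] at this
    omega
  obtain ⟨a, ⟨haA, haa⟩, haZ⟩ := hmiss
  apply hD.F2 a haA haa
  have hsub : Z ⊆ Y ∪ (A \ {a, a0}) := by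
    intro z hz
    rcases hZs hz with h | h | h | h
    · exact Or.inl h
    · exact Or.inl (h ▸ hy)
    · exact Or.inl (h ▸ hy')
    · refine Or.inr ⟨h.1, ?_⟩
      rintro (h' | h')
      · exact haZ (h' ▸ hz)
      · exact h.2 h'
  have hA2 : (A \ {a, a0}).ncard + 1 = (A \ {a0}).ncard := by
    have h1 : A \ {a, a0} = (A \ {a0}) \ {a} := by
      ext z; simp only [Set.mem_sdiff, Set.mem_insert_iff, Set.mem_singleton_iff]; tauto
    rw [h1]
    exact Set.ncard_sdiff_singleton_add_one ⟨haA, haa⟩ hA0fin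
  have hA2fin : (A \ {a, a0}).Finite := hAfin.subset Set.sdiff_subset
  have hle : (Y ∪ (A \ {a, a0})).ncard ≤ Z.ncard := by
    have := Set.ncard_union_le Y (A \ {a, a0})
    omega
  have := Set.eq_of_subset_of_ncard_le hsub hle (hYfin.union hA2fin)
  rw [← this]; exact hZ

lemma N1_parallel {M : Matroid α} {A B : Set α} (hL : Lab M A B) {Y : Set α} {a0 : α}
    (hD : N1_Dat M A B Y a0) {b v : α} (hb : b ∈ B) (hbv : b ≠ v) (hv : v ∈ Y)
    (hn : ∀ a ∈ A, ¬ M.IsBase (insert b (insert v (A \ {a})))) : ¬ M.Indep {b, v} := by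
  intro hI
  have hdAB : ∀ z ∈ A, z ∉ B := fun z hz h => Set.disjoint_left.1 hL.disj hz h
  have hbA : b ∉ A := fun h => hdAB b h hb
  have hvA : v ∉ A := fun h => hdAB v h (hD.YB hv)
  have hAfin : A.Finite := hL.fin.subset (hL.cover ▸ Set.subset_union_left)
  have hbase := hD.F0 v hv
  obtain ⟨Z, hZ, hYZ, hZs⟩ := hI.exists_isBase_subset_union_isBase hbase
  have hcZ := hZ.ncard_eq_ncard_of_isBase hbase
  rw [Set.ncard_insert_of_notMem hvA hAfin] at hcZ
  have hZfin : Z.Finite := hL.fin.subset hZ.subset_ground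
  have hbZ : b ∈ Z := hYZ (by simp)
  have hvZ : v ∈ Z := hYZ (by simp)
  have hmiss : ∃ a ∈ A, a ∉ Z := by
    by_contra hcon
    push Not at hcon
    have hsub : insert b (insert v A) ⊆ Z := by
      rintro z (rfl | rfl | hz)
      · exact hbZ
      · exact hvZ
      · exact hcon z hz
    have := Set.ncard_le_ncard hsub hZfin
    rw [N1_card2 hAfin hbA hvA hbv] at this
    omega
  obtain ⟨a, haA, haZ⟩ := hmiss
  apply hn a haA
  have hsub : Z ⊆ insert b (insert v (A \ {a})) := by
    intro z hz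
    rcases hZs hz with (h | h) | h | h
    · exact Or.inl h
    · exact Or.inr (Or.inl h)
    · exact Or.inr (Or.inl h)
    · exact Or.inr (Or.inr ⟨h, fun h' => haZ (h' ▸ hz)⟩)
  have hAa := N1_card_sdiff hAfin haA
  have hAafin : (A \ {a}).Finite := hAfin.subset Set.sdiff_subset
  have hle : (insert b (insert v (A \ {a}))).ncard ≤ Z.ncard := by
    rw [N1_card2 hAafin (fun h => hbA h.1) (fun h => hvA h.1) hbv]
    omega
  have := Set.eq_of_subset_of_ncard_le hsub hle ((hAafin.insert v).insert b)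
  rw [← this]; exact hZ

/-- Replacing an element by a parallel one. -/
lemma N1_sub {M : Matroid α} {b v : α} {S : Set α} (h : M.Indep (insert b S)) (hbS : b ∉ S)
    (hbv : b ∈ M.closure {v}) (hv : v ∈ M.E) : M.Indep (insert v S) := by
  have hS : M.Indep S := h.subset (Set.subset_insert _ _)
  by_cases hvS : v ∈ S
  · rwa [Set.insert_eq_of_mem hvS]
  rw [hS.insert_indep_iff_of_notMem hvS]
  refine ⟨hv, fun hc => ?_⟩
  have h1 : M.closure {v} ⊆ M.closure S :=
    M.closure_subset_closure_of_subset_closure (Set.singleton_subset_iff.2 hc)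
  exact ((hS.insert_indep_iff_of_notMem hbS).1 h).2 (h1 hbv)

/-- The condition describing the independent sets. -/
def N1_cond {β : Type*} (A B : Set α) (s : α → β) (I : Set α) : Prop :=
  (∀ b ∈ I, b ∈ B → ∀ b' ∈ I, b' ∈ B → b ≠ b' → s b ≠ s b' ∧ ¬ A ⊆ I) ∧
  (∀ b ∈ I, b ∈ B → ∀ b' ∈ I, b' ∈ B → ∀ b'' ∈ I, b'' ∈ B → b ≠ b' → b ≠ b'' → b' ≠ b'' → False)

lemma N1_indep_iff {M : Matroid α} {A B : Set α} (hL : Lab M A B) {Y : Set α} {a0 : α}
    (hD : N1_Dat M A B Y a0) : ∃ c : α → α, (∀ b ∈ B, c b ∈ Y) ∧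
      ∀ I ⊆ A ∪ B, (M.Indep I ↔ N1_cond A B c I) := by
  obtain ⟨c, hcY, hcy, hbase, hnb, hall⟩ := N1_cls hL hD
  refine ⟨c, hcY, ?_⟩
  have hdAB : ∀ z ∈ A, z ∉ B := fun z hz h => Set.disjoint_left.1 hL.disj hz h
  have hYA : ∀ z ∈ Y, z ∉ A := fun z hz h => hdAB z h (hD.YB hz)
  have hAfin : A.Finite := hL.fin.subset (hL.cover ▸ Set.subset_union_left)
  have hYE : ∀ z ∈ Y, z ∈ M.E := fun z hz => hL.cover ▸ Or.inr (hD.YB hz)
  have hBE : ∀ z ∈ B, z ∈ M.E := fun z hz => hL.cover ▸ Or.inr hz
  -- b is in the closure of its class representative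
  have hcl : ∀ b ∈ B, b ∈ M.closure {c b} := by
    intro b hb
    by_cases hbY : b ∈ Y
    · rw [hcy b hbY]
      exact M.mem_closure_of_mem (Set.mem_singleton b) (Set.singleton_subset_iff.2 (hBE b hb))
    · have hne : b ≠ c b := fun h => hbY (h ▸ hcY b hb)
      have h1 := N1_parallel hL hD hb hne (hcY b hb) (hnb b hb hbY)
      have h2 : M.Indep {c b} := (hD.F0 _ (hcY b hb)).indep.subset (by simp)
      rw [h2.mem_closure_iff']
      exact ⟨hBE b hb, fun h => absurd h h1⟩
  -- elements of one class are parallel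
  have hpar : ∀ b ∈ B, ∀ b' ∈ B, b ≠ b' → c b = c b' → ¬ M.Indep {b, b'} := by
    intro b hb b' hb' hne hcc hI
    have h1 : M.Indep (insert (c b) {b'}) :=
      N1_sub (b := b) hI (by simpa using hne) (hcl b hb) (hYE _ (hcY b hb))
    by_cases hb'Y : b' ∈ Y
    · have h2 : c b = b' := by rw [hcc, hcy b' hb'Y]
      have hbY : b ∉ Y := fun h => hne (by rw [← hcy b h, h2])
      exact N1_parallel hL hD hb hne hb'Y (by rw [← h2]; exact hnb b hb hbY) hI
    · have hne' : b' ≠ c b' := fun h => hb'Y (h ▸ hcY b' hb')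
      refine N1_parallel hL hD hb' hne' (hcY b' hb') (hnb b' hb' hb'Y) ?_
      rw [hcc] at h1
      rwa [Set.pair_comm] at h1
  -- two elements of different classes
  have htwo : ∀ b ∈ B, ∀ b' ∈ B, c b ≠ c b' → ∀ a ∈ A,
      M.IsBase (insert b (insert b' (A \ {a}))) := by
    intro b hb b' hb' hcc a ha
    have hne : b ≠ b' := fun h => hcc (by rw [h])
    have hbA : b ∉ A := fun h => hdAB b h hb
    have hbA' : b' ∉ A := fun h => hdAB b' h hb'
    by_cases hb'Y : b' ∈ Y
    · exact hall b hb a ha b' hb'Y (by rw [← hcy b' hb'Y]; exact hcc.symm)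
    by_cases hbY : b ∈ Y
    · rw [Set.insert_comm]
      exact hall b' hb' a ha b hbY (by rw [← hcy b hbY]; exact hcc)
    have hZ := hall b' hb' a ha (c b) (hcY b hb) hcc
    have hAafin : (A \ {a}).Finite := hAfin.subset Set.sdiff_subset
    have hJ : M.Indep (insert b (A \ {a})) := (hbase b hb).indep.subset
      (Set.insert_subset_insert Set.sdiff_subset)
    have hcb : c b ∉ A := hYA _ (hcY b hb)
    have hb'c : b' ≠ c b := fun h => hb'Y (h ▸ hcY b hb)
    have hbc : b ≠ c b := fun h => hbY (h ▸ hcY b hb)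
    have e1 := N1_card2 hAafin (fun h => hbA' h.1) (fun h => hcb h.1) hb'c
    have e2 : (insert b (A \ {a})).ncard = (A \ {a}).ncard + 1 :=
      Set.ncard_insert_of_notMem (fun h => hbA h.1) hAafin
    obtain ⟨e, ⟨he1, he2⟩, he3⟩ := N1_exchange hL.fin hZ hJ (by rw [e1, e2]; omega)
    have hbase' := N1_base_of_card hL.fin hZ he3 (by
      rw [e1, Set.ncard_insert_of_notMem he2 (hAafin.insert b), e2])
    rcases he1 with rfl | rfl | he1
    · rw [Set.insert_comm]; exact hbase'
    · rw [Set.insert_comm] at hbase'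
      exact absurd hbase' (hnb b hb hbY a ha)
    · exact absurd (Set.mem_insert_of_mem _ he1) he2
  -- three elements
  have hthree : ∀ b ∈ B, ∀ b' ∈ B, ∀ b'' ∈ B, c b ≠ c b' → c b ≠ c b'' → c b' ≠ c b'' →
      ¬ M.Indep {b, b', b''} := by
    intro b hb b' hb' b'' hb'' h1 h2 h3 hI
    have hn1 : b ≠ b' := fun h => h1 (by rw [h])
    have hn2 : b ≠ b'' := fun h => h2 (by rw [h])
    have hn3 : b' ≠ b'' := fun h => h3 (by rw [h])
    have hcc : ∀ x ∈ B, c (c x) = c x := fun x hx => hcy _ (hcY x hx)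
    have s1 : M.Indep (insert (c b) {b', b''}) :=
      N1_sub (b := b) hI (by simp [hn1, hn2]) (hcl b hb) (hYE _ (hcY b hb))
    have s1' : M.Indep (insert b' {c b, b''}) := by
      convert s1 using 1
      ext z; simp only [Set.mem_insert_iff, Set.mem_singleton_iff]; tauto
    have s2 : M.Indep (insert (c b') {c b, b''}) :=
      N1_sub (b := b') s1' (by
        rintro (h | h)
        · exact h1 (by rw [h, hcc b hb])
        · exact hn3 h) (hcl b' hb') (hYE _ (hcY b' hb'))
    have s2' : M.Indep (insert b'' {c b, c b'}) := by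
      convert s2 using 1
      ext z; simp only [Set.mem_insert_iff, Set.mem_singleton_iff]; tauto
    have s3 : M.Indep (insert (c b'') {c b, c b'}) :=
      N1_sub (b := b'') s2' (by
        rintro (h | h)
        · exact h2 (by rw [h, hcc b hb])
        · exact h3 (by rw [h, hcc b' hb'])) (hcl b'' hb'') (hYE _ (hcY b'' hb''))
    apply N1_tri hL hD
    refine s3.subset ?_
    obtain ⟨w, hw, hw1, hw2, hw3⟩ := N1_third hD.Y3 (hcY b hb) (hcY b' hb') h1
    have hw' : c b'' = w := by
      rcases hw3 _ (hcY b'' hb'') with h | h | h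
      · exact absurd h.symm h2
      · exact absurd h.symm h3
      · exact h
    intro z hz
    rcases hw3 z hz with h | h | h
    · simp [h]
    · simp [h]
    · simp [h, hw']
  intro I hI
  constructor
  · intro hInd
    have hc1 : ∀ b ∈ I, b ∈ B → ∀ b' ∈ I, b' ∈ B → b ≠ b' → c b ≠ c b' := by
      intro b hbI hb b' hbI' hb' hne hcc
      apply hpar b hb b' hb' hne hcc
      refine hInd.subset ?_
      rintro z (rfl | rfl)
      · exact hbI
      · exact hbI'
    refine ⟨fun b hbI hb b' hbI' hb' hne => ⟨hc1 b hbI hb b' hbI' hb' hne, fun hA => ?_⟩, ?_⟩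
    · have h1 : M.Indep (insert b (insert b' A)) := by
        refine hInd.subset ?_
        rintro z (rfl | rfl | hz)
        · exact hbI
        · exact hbI'
        · exact hA hz
      have h2 := (hbase b' hb').mem_of_insert_indep h1
      rcases h2 with h | h
      · exact hne h
      · exact hdAB b h hb
    · intro b hbI hb b' hbI' hb' b'' hbI'' hb'' h1 h2 h3
      apply hthree b hb b' hb' b'' hb'' (hc1 b hbI hb b' hbI' hb' h1)
        (hc1 b hbI hb b'' hbI'' hb'' h2) (hc1 b' hbI' hb' b'' hbI'' hb'' h3)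
      refine hInd.subset ?_
      rintro z (rfl | rfl | rfl)
      · exact hbI
      · exact hbI'
      · exact hbI''
  · rintro ⟨hc1, hc2⟩
    by_cases h0 : ∃ b ∈ I, b ∈ B
    · obtain ⟨b, hbI, hb⟩ := h0
      by_cases h1 : ∃ b' ∈ I, b' ∈ B ∧ b ≠ b'
      · obtain ⟨b', hbI', hb', hne⟩ := h1
        obtain ⟨hcc, hA⟩ := hc1 b hbI hb b' hbI' hb' hne
        obtain ⟨a, ha, haI⟩ := Set.not_subset.1 hA
        refine (htwo b hb b' hb' hcc a ha).indep.subset ?_
        intro z hz
        rcases hI hz with h | h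
        · exact Or.inr (Or.inr ⟨h, fun h' => haI (h' ▸ hz)⟩)
        · by_contra hcon
          simp only [Set.mem_insert_iff, not_or] at hcon
          exact hc2 b hbI hb b' hbI' hb' z hz h hne (fun h' => hcon.1 h'.symm)
            (fun h' => hcon.2.1 h'.symm)
      · push Not at h1
        refine (hbase b hb).indep.subset ?_
        intro z hz
        rcases hI hz with h | h
        · exact Or.inr h
        · exact Or.inl (h1 z hz h).symm
    · push Not at h0
      obtain ⟨y, hy⟩ : Y.Nonempty := by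
        rw [← Set.encard_ne_zero, hD.Y3]; norm_num
      refine (hbase y (hD.YB hy)).indep.subset ?_
      intro z hz
      rcases hI hz with h | h
      · exact Or.inr h
      · exact absurd h (h0 z hz)

/-- The vectors of type U1. -/
noncomputable def N1_vec (A : Set α) (s : α → ℚ) (e : α) : (α → ℚ) × ℚ :=
  open Classical in
  if e ∈ A then ((Pi.single e 1, 0) : (α → ℚ) × ℚ) else (A.indicator (fun _ => s e), 1)

lemma N1_vec_A {A : Set α} {s : α → ℚ} {e : α} (h : e ∈ A) :
    (N1_vec A s e).2 = 0 ∧ (∀ z, z ≠ e → (N1_vec A s e).1 z = 0) ∧ (N1_vec A s e).1 e = 1 := by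
  classical
  unfold N1_vec
  rw [if_pos h]
  refine ⟨rfl, fun z hz => ?_, ?_⟩
  · show (Pi.single e (1 : ℚ) : α → ℚ) z = 0
    exact Pi.single_eq_of_ne hz _
  · show (Pi.single e (1 : ℚ) : α → ℚ) e = 1
    exact Pi.single_eq_same _ _

lemma N1_vec_B {A : Set α} {s : α → ℚ} {e : α} (h : e ∉ A) :
    (N1_vec A s e).2 = 1 ∧ (∀ z ∈ A, (N1_vec A s e).1 z = s e) ∧
      (∀ z, z ∉ A → (N1_vec A s e).1 z = 0) := by
  classical
  unfold N1_vec
  rw [if_neg h]
  exact ⟨rfl, fun z hz => Set.indicator_of_mem hz (fun _ => s e),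
    fun z hz => Set.indicator_of_notMem hz (fun _ => s e)⟩

lemma N1_ins {ι V : Type*} [AddCommGroup V] [Module ℚ V] {v : ι → V} {S : Set ι} {i : ι}
    (hS : LinearIndepOn ℚ v S) (φ : V →ₗ[ℚ] ℚ) (h0 : ∀ x ∈ S, φ (v x) = 0) (h1 : φ (v i) ≠ 0) :
    LinearIndepOn ℚ v (insert i S) := by
  refine hS.insert fun hmem => h1 ?_
  have hle : Submodule.span ℚ (v '' S) ≤ LinearMap.ker φ := by
    rw [Submodule.span_le]
    rintro _ ⟨x, hx, rfl⟩
    exact h0 x hx
  exact hle hmem

lemma N1_lin {A B : Set α} (hA : A.Finite) (hdj : Disjoint A B) (s : α → ℚ) {I : Set α}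
    (hI : I ⊆ A ∪ B) : N1_cond A B s I ↔ LinearIndepOn ℚ (N1_vec A s) I := by
  classical
  have hdAB : ∀ z ∈ B, z ∉ A := fun z hz h => Set.disjoint_left.1 hdj h hz
  -- coordinate functionals
  let e2 : ((α → ℚ) × ℚ) →ₗ[ℚ] ℚ := LinearMap.snd ℚ (α → ℚ) ℚ
  let e1 : α → ((α → ℚ) × ℚ) →ₗ[ℚ] ℚ := fun a => (LinearMap.proj a).comp (LinearMap.fst ℚ (α → ℚ) ℚ)
  have he2 : ∀ x, e2 x = x.2 := fun _ => rfl
  have he1 : ∀ a x, e1 a x = x.1 a := fun _ _ => rfl
  have L1 : LinearIndepOn ℚ (N1_vec A s) A := by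
    have : ∀ S : Set α, S.Finite → S ⊆ A → LinearIndepOn ℚ (N1_vec A s) S := by
      intro S hS
      induction S, hS using Set.Finite.induction_on with
      | empty => intro _; exact linearIndepOn_empty ℚ _
      | @insert a S ha hS ih =>
        intro hsub
        refine N1_ins (ih (fun z hz => hsub (Or.inr hz))) (e1 a) ?_ ?_
        · intro x hx
          rw [he1]
          exact (N1_vec_A (hsub (Or.inr hx))).2.1 a (fun h => ha (h ▸ hx))
        · rw [he1, (N1_vec_A (hsub (Or.inl rfl))).2.2]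
          exact one_ne_zero
    exact this A hA le_rfl
  have L2 : ∀ b ∈ B, LinearIndepOn ℚ (N1_vec A s) (insert b A) := by
    intro b hb
    refine N1_ins L1 e2 ?_ ?_
    · intro x hx
      rw [he2, (N1_vec_A hx).1]
    · rw [he2, (N1_vec_B (hdAB b hb)).1]
      exact one_ne_zero
  have L3 : ∀ b ∈ B, ∀ b' ∈ B, s b ≠ s b' → ∀ a ∈ A,
      LinearIndepOn ℚ (N1_vec A s) (insert b (insert b' (A \ {a}))) := by
    intro b hb b' hb' hs a ha
    refine N1_ins ((L2 b' hb').mono (Set.insert_subset_insert Set.sdiff_subset))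
      (e1 a - s b' • e2) ?_ ?_
    · rintro x (rfl | ⟨hx, hxa⟩)
      · rw [LinearMap.sub_apply, LinearMap.smul_apply, he1, he2, (N1_vec_B (hdAB x hb')).1,
          (N1_vec_B (hdAB x hb')).2.1 a ha]
        simp
      · rw [LinearMap.sub_apply, LinearMap.smul_apply, he1, he2, (N1_vec_A hx).1,
          (N1_vec_A hx).2.1 a (fun h => hxa h.symm)]
        simp
    · rw [LinearMap.sub_apply, LinearMap.smul_apply, he1, he2, (N1_vec_B (hdAB b hb)).1,
          (N1_vec_B (hdAB b hb)).2.1 a ha]
      simpa using sub_ne_zero.2 hs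
  constructor
  · rintro ⟨hc1, hc2⟩
    by_cases h0 : ∃ b ∈ I, b ∈ B
    · obtain ⟨b, hbI, hb⟩ := h0
      by_cases h1 : ∃ b' ∈ I, b' ∈ B ∧ b ≠ b'
      · obtain ⟨b', hbI', hb', hne⟩ := h1
        obtain ⟨hcc, hA'⟩ := hc1 b hbI hb b' hbI' hb' hne
        obtain ⟨a, ha, haI⟩ := Set.not_subset.1 hA'
        refine (L3 b hb b' hb' hcc a ha).mono ?_
        intro z hz
        rcases hI hz with h | h
        · exact Or.inr (Or.inr ⟨h, fun h' => haI (h' ▸ hz)⟩)
        · by_contra hcon
          simp only [Set.mem_insert_iff, not_or] at hcon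
          exact hc2 b hbI hb b' hbI' hb' z hz h hne (fun h' => hcon.1 h'.symm)
            (fun h' => hcon.2.1 h'.symm)
      · push Not at h1
        refine (L2 b hb).mono ?_
        intro z hz
        rcases hI hz with h | h
        · exact Or.inr h
        · exact Or.inl (h1 z hz h).symm
    · push Not at h0
      refine L1.mono ?_
      intro z hz
      rcases hI hz with h | h
      · exact h
      · exact absurd h (h0 z hz)
  · intro hlin
    have D1 : ∀ b ∈ I, b ∈ B → ∀ b' ∈ I, b' ∈ B → b ≠ b' → s b ≠ s b' := by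
      intro b hbI hb b' hbI' hb' hne hs
      apply hne
      apply hlin.injOn hbI hbI'
      refine Prod.ext ?_ ?_
      · funext z
        by_cases hz : z ∈ A
        · rw [(N1_vec_B (hdAB b hb)).2.1 z hz, (N1_vec_B (hdAB b' hb')).2.1 z hz, hs]
        · rw [(N1_vec_B (hdAB b hb)).2.2 z hz, (N1_vec_B (hdAB b' hb')).2.2 z hz]
      · rw [(N1_vec_B (hdAB b hb)).1, (N1_vec_B (hdAB b' hb')).1]
    refine ⟨fun b hbI hb b' hbI' hb' hne => ⟨D1 b hbI hb b' hbI' hb' hne, fun hAI => ?_⟩, ?_⟩
    · have hsub : insert b (insert b' A) ⊆ I := by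
        rintro z (rfl | rfl | hz)
        · exact hbI
        · exact hbI'
        · exact hAI hz
      have hnot := (hlin.mono hsub).notMem_span_of_insert (by
        rintro (h | h)
        · exact hne h
        · exact hdAB b hb h)
      apply hnot
      have hsum : N1_vec A s b = N1_vec A s b' +
          ∑ a ∈ hA.toFinset, (s b - s b') • N1_vec A s a := by
        refine Prod.ext ?_ ?_
        · funext z
          rw [Prod.fst_add, Pi.add_apply, Prod.fst_sum, Finset.sum_apply]
          by_cases hz : z ∈ A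
          · rw [(N1_vec_B (hdAB b hb)).2.1 z hz, (N1_vec_B (hdAB b' hb')).2.1 z hz,
              Finset.sum_eq_single z]
            · rw [Prod.smul_fst, Pi.smul_apply, (N1_vec_A hz).2.2]; simp
            · intro x hx hxz
              rw [Prod.smul_fst, Pi.smul_apply, (N1_vec_A (hA.mem_toFinset.1 hx)).2.1 z hxz.symm]
              simp
            · intro h; exact absurd (hA.mem_toFinset.2 hz) h
          · rw [(N1_vec_B (hdAB b hb)).2.2 z hz, (N1_vec_B (hdAB b' hb')).2.2 z hz,
              Finset.sum_eq_zero, add_zero]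
            intro x hx
            have hxA := hA.mem_toFinset.1 hx
            rw [Prod.smul_fst, Pi.smul_apply, (N1_vec_A hxA).2.1 z (fun h => hz (h ▸ hxA))]
            simp
        · rw [Prod.snd_add, Prod.snd_sum, (N1_vec_B (hdAB b hb)).1, (N1_vec_B (hdAB b' hb')).1,
            Finset.sum_eq_zero, add_zero]
          intro x hx
          rw [Prod.smul_snd, (N1_vec_A (hA.mem_toFinset.1 hx)).1]
          simp
      rw [hsum]
      refine Submodule.add_mem _ (Submodule.subset_span ⟨b', Or.inl rfl, rfl⟩)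
        (Submodule.sum_mem _ fun a ha => Submodule.smul_mem _ _
          (Submodule.subset_span ⟨a, Or.inr (hA.mem_toFinset.1 ha), rfl⟩))
    · intro b hbI hb b' hbI' hb' b'' hbI'' hb'' h1 h2 h3
      have hsub : insert b {b', b''} ⊆ I := by
        rintro z (rfl | rfl | rfl)
        · exact hbI
        · exact hbI'
        · exact hbI''
      have hnot := (hlin.mono hsub).notMem_span_of_insert (by
        rintro (h | h)
        · exact h1 h
        · exact h2 h)
      apply hnot
      have hs3 : s b' - s b'' ≠ 0 := sub_ne_zero.2 (D1 b' hbI' hb' b'' hbI'' hb'' h3)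
      have hsum : N1_vec A s b = ((s b - s b'') / (s b' - s b'')) • N1_vec A s b' +
          ((s b' - s b) / (s b' - s b'')) • N1_vec A s b'' := by
        refine Prod.ext ?_ ?_
        · funext z
          rw [Prod.fst_add, Pi.add_apply, Prod.smul_fst, Pi.smul_apply, Prod.smul_fst,
            Pi.smul_apply, smul_eq_mul, smul_eq_mul]
          by_cases hz : z ∈ A
          · rw [(N1_vec_B (hdAB b hb)).2.1 z hz, (N1_vec_B (hdAB b' hb')).2.1 z hz,
              (N1_vec_B (hdAB b'' hb'')).2.1 z hz]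
            field_simp
            ring
          · rw [(N1_vec_B (hdAB b hb)).2.2 z hz, (N1_vec_B (hdAB b' hb')).2.2 z hz,
              (N1_vec_B (hdAB b'' hb'')).2.2 z hz]
            ring
        · rw [Prod.snd_add, Prod.smul_snd, Prod.smul_snd, (N1_vec_B (hdAB b hb)).1,
            (N1_vec_B (hdAB b' hb')).1, (N1_vec_B (hdAB b'' hb'')).1, smul_eq_mul, smul_eq_mul]
          field_simp
          ring
      rw [hsum]
      exact Submodule.add_mem _
        (Submodule.smul_mem _ _ (Submodule.subset_span ⟨b', Or.inl rfl, rfl⟩))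
        (Submodule.smul_mem _ _ (Submodule.subset_span ⟨b'', Or.inr rfl, rfl⟩))

theorem typeU1_of_u24 {M : Matroid α} {A B : Set α} (hL : Lab M A B) {X : Set α} (hX : X ⊆ M.E)
    (hU : IsU24 (M ／ (A \ X) ＼ (B \ X))) (hc : (A ∩ X).encard = 1) : TypeU1 M A B := by
  classical
  obtain ⟨Y, a0, hD⟩ := N1_dat hL hX hU hc
  obtain ⟨c, hcY, hiff⟩ := N1_indep_iff hL hD
  obtain ⟨y1, y2, y3, h12, h13, h23, hY⟩ := Set.encard_eq_three.1 hD.Y3
  have hAfin : A.Finite := hL.fin.subset (hL.cover ▸ Set.subset_union_left)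
  let s : α → ℚ := fun e => if c e = y1 then 0 else if c e = y2 then 1 else -1
  have hs : ∀ b ∈ B, ∀ b' ∈ B, (c b ≠ c b' ↔ s b ≠ s b') := by
    intro b hb b' hb'
    have k1 := hcY b hb
    have k2 := hcY b' hb'
    rw [hY] at k1 k2
    have e1 : ∀ e, c e = y1 → s e = 0 := fun e he => if_pos he
    have e2 : ∀ e, c e = y2 → s e = 1 := fun e he => by
      show (if c e = y1 then (0 : ℚ) else if c e = y2 then 1 else -1) = 1
      rw [if_neg (by rw [he]; exact h12.symm), if_pos he]
    have e3 : ∀ e, c e = y3 → s e = -1 := fun e he => by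
      show (if c e = y1 then (0 : ℚ) else if c e = y2 then 1 else -1) = -1
      rw [if_neg (by rw [he]; exact h13.symm), if_neg (by rw [he]; exact h23.symm)]
    rcases k1 with h | h | h <;> rcases k2 with h' | h' | h'
    all_goals
      try rw [Set.mem_singleton_iff] at h
      try rw [Set.mem_singleton_iff] at h'
      first
        | rw [e1 b h] | rw [e2 b h] | rw [e3 b h]
      first
        | rw [e1 b' h'] | rw [e2 b' h'] | rw [e3 b' h']
      rw [h, h']
    · simp
    · simpa using h12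
    · simpa using h13
    · simpa using h12.symm
    · simp
    · constructor
      · intro _; norm_num
      · intro _; exact h23
    · simpa using h13.symm
    · constructor
      · intro _; norm_num
      · intro _; exact h23.symm
    · simp
  refine ⟨s, ?_, ?_⟩
  · intro b _
    show (if c b = y1 then (0 : ℚ) else if c b = y2 then 1 else -1) = 0 ∨
      (if c b = y1 then (0 : ℚ) else if c b = y2 then 1 else -1) = 1 ∨
      (if c b = y1 then (0 : ℚ) else if c b = y2 then 1 else -1) = -1
    split_ifs <;> simp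
  · intro I hI
    have h1 : N1_cond A B c I ↔ N1_cond A B s I := by
      unfold N1_cond
      constructor
      · rintro ⟨h1, h2⟩
        exact ⟨fun b hbI hb b' hbI' hb' hne => ⟨(hs b hb b' hb').1 (h1 b hbI hb b' hbI' hb' hne).1,
          (h1 b hbI hb b' hbI' hb' hne).2⟩, h2⟩
      · rintro ⟨h1, h2⟩
        exact ⟨fun b hbI hb b' hbI' hb' hne => ⟨(hs b hb b' hb').2 (h1 b hbI hb b' hbI' hb' hne).1,
          (h1 b hbI hb b' hbI' hb' hne).2⟩, h2⟩
    rw [hiff I hI, h1, N1_lin hAfin hL.disj s hI]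
    rfl

end Pool.Agent.Helper43_EOR
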