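import Mathlib
import Pool.Agent.Helper43_EOR.F5

set_option autoImplicit false

namespace Pool.Agent.Helper43_EOR

open Set Matroid

variable {α : Type*}


/-
JOB N2 (nonbinary case with two elements of A in the core U24: data for type S).
PLAIN WORDS. General tool (U): if Z is a base of M, z1 ≠ z2 in Z, e1 ≠ e2 in M.E \ Z, the four sets
Z \ {z_i} ∪ {e_j} are bases and Z \ {z1, z2} ∪ {e1, e2} is a base then M ／ (Z \ {z1, z2}) restricted to
{z1, z2, e1, e2} is U24, not regular, so by Lab.of_minor Z \ {z1, z2} ⊆ A and every a ∈ A is in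
Z ∪ {e1, e2}. The same for minors: a rank 2 minor M ／ C with four pairwise independent elements
x1, .., x4 (each pair independent in M ／ C) and C independent, r(M ／ C) ≥ 2: then restricted to the four elements... (U' ):
if all six pairs {x_i, x_j} are independent in M ／ C and {x1, .., x4} has rank 2 in M ／ C, then
C ⊆ A and A ⊆ C ∪ {x1, .., x4} (delete the other elements, Lab.of_minor, core_not_regular).
Let X = {a1, a2, b1, b2} with A ∩ X = {a1, a2}, A₁ = A \ X. By Lab.isBase A = A₁ ∪ {a1, a2} is a base. For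
subsets I of A, J of B of the same size let β(I, J) mean that A \ I ∪ J is a base.
(1) Let b ∈ B. In N = M ／ A₁ (rank 2) b is not a loop (else contracting b does not change X: (U') with
 C = A₁ ∪ {b}, b ∈ A, contradiction), b is not parallel to a1 (else {b, a2, b1, b2} is U24 avoiding a1), not
 parallel to a2. So β({a1},{b}), β({a2},{b}). For some i ∈ {1, 2} b and b_i are not parallel in N or b = ...:
 if b ≠ b1, b2: b is nonparallel to b1 or to b2 (b1, b2 are not parallel). So for every b ∈ B there is b' ∈ {b1, b2} with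
 b' ≠ b and {a1, a2, b, b'} is U24 in N: a core X' = {a1, a2, b, b'} containing b.
(2) Every a ∈ A₁ has β({a}, {b}) for b ∈ X ∩ B, for any core X with A ∩ X = {a1, a2}: this is (1) for the
 dual matroid M✶, labels exchanged (Lab.dual), whose core X has B ∩ X = {b1, b2}: the statement for the
 element a of A: B \ {b_i} ∪ {a} is a base of M✶, i.e. A \ {a} ∪ {b_i} is a base of M. With (1):
 β({a}, {b}) for all a ∈ A, b ∈ B. So the fundamental circuit of b is A ∪ {b}.
(3) For a ≠ a' in A and b ≠ b' in B: β({a,a'}, {b,b'}) iff b, b' are not parallel in the rank 2 matroid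
 N_{a,a'} = M ／ (A \ {a, a'}), in which by (2) a, a', b (b ∈ B) are nonloops, a, a' not parallel and no b
 parallel to a or a'. Parallelism is an equivalence relation on B with at most two classes:
 if b, b', b'' were pairwise not parallel, {a, b, b', b''} would be U24 in N_{a,a'} avoiding
 a': contradiction by (U').
 Dually: for fixed b ≠ b', the relation a ~ a' iff a = a' or not β({a,a'},{b,b'}) is an equivalence
 relation on A with at most two classes (apply the previous sentence to M✶).
(4) Definition of S: if B is empty or ... choose b0 ∈ B (b0 = b1), a0 ∈ A. Put S a b = 1 if a = a0 or b = b0 or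
 not β({a0, a}, {b0, b}), and -1 otherwise. To show for a ≠ a', b ≠ b':
 β({a,a'},{b,b'}) iff S a b * S a' b' ≠ S a b' * S a' b.
 Put e(a,a';b,b') ∈ {0,1} (1 iff a ≠ a', b ≠ b' and β). Two classes at most means
 e(a,a';b,b') + e(a,a';b',b'') + e(a,a';b,b'') is even for all b, b', b'' (an equivalence relation with at
 most two classes: e is the coboundary of a 0/1 function), and the same in the other variable. So
 e(a,a';b,b') = e(a0,a;b,b') + e(a0,a';b,b') mod 2 and e(a0,a;b,b') = e(a0,a;b0,b) + e(a0,a;b0,b'), hence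
 e(a,a';b,b') = s(a,b) + s(a,b') + s(a',b) + s(a',b'), s(a,b) = e(a0,a;b0,b), S = (-1)^s.
-/
theorem N2_isBase {M : Matroid α} {A Z : Set α} (hA : M.IsBase A) (hfin : M.E.Finite)
    (hZ : M.Indep Z) (hc : A.encard ≤ Z.encard) : M.IsBase Z := by
  obtain ⟨Z', hZ', hs⟩ := hZ.exists_isBase_superset
  have h1 := hZ'.encard_eq_encard_of_isBase hA
  have h2 : Z = Z' := by
    refine Set.Finite.eq_of_subset_of_encard_le (hfin.subset hZ.subset_ground) hs ?_
    rw [h1]
    exact hc
  rw [h2]
  exact hZ'

theorem N2_tool {M : Matroid α} {A B : Set α} (hL : Lab M A B) {C Y : Set α} {z z' : α}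
    (hC : C ⊆ M.E) (hY : Y ⊆ M.E) (hd : Disjoint C Y) (hY4 : Y.encard = 4) (hz : z ≠ z')
    (hzC : z ∉ C) (hzC' : z' ∉ C) (hbase : M.IsBase (insert z (insert z' C)))
    (hp : ∀ x ∈ Y, ∀ y ∈ Y, x ≠ y → M.Indep (insert x (insert y C))) :
    IsU24 (M ／ C ＼ (M.E \ (C ∪ Y))) ∧ C ⊆ A ∧ M.E \ (C ∪ Y) ⊆ B := by
  have hCfin : C.Finite := hL.fin.subset hC
  have hCi : M.Indep C := hbase.indep.subset fun x hx => Or.inr (Or.inr hx)
  have hE : (M ／ C ＼ (M.E \ (C ∪ Y))).E = Y := by
    rw [delete_ground, contract_ground]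
    ext x
    have h1 : x ∈ C → x ∉ Y := fun h => Set.disjoint_left.1 hd h
    have h2 : x ∈ Y → x ∈ M.E := fun h => hY h
    simp only [mem_sdiff, mem_union]
    tauto
  have hU : IsU24 (M ／ C ＼ (M.E \ (C ∪ Y))) := by
    refine ⟨by rw [hE]; exact hY4, fun I hI => ?_⟩
    rw [hE] at hI
    have hdI : Disjoint I C := (hd.mono_right hI).symm
    rw [delete_indep_iff, hCi.contract_indep_iff]
    constructor
    · rintro ⟨⟨-, h⟩, -⟩
      obtain ⟨Z', hZ', hs⟩ := h.exists_isBase_superset
      have h1 := encard_le_encard hs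
      rw [hZ'.encard_eq_encard_of_isBase hbase, encard_union_eq hdI,
        encard_insert_of_notMem (by simp [hz, hzC]), encard_insert_of_notMem hzC'] at h1
      have h2 : I.encard + C.encard ≤ 2 + C.encard := by
        refine h1.trans (le_of_eq ?_)
        rw [add_assoc, add_comm]
        norm_num
      exact (ENat.add_le_add_iff_right hCfin.encard_lt_top.ne).1 h2
    · intro h
      obtain ⟨r, hIr, hrY, hr2⟩ := exists_superset_subset_encard_eq hI h
        (by rw [hY4]; norm_num)
      obtain ⟨x, y, hxy, rfl⟩ := encard_eq_two.1 hr2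
      have hxY : x ∈ Y := hrY (by simp)
      have hyY : y ∈ Y := hrY (by simp)
      refine ⟨⟨hdI, (hp x hxY y hyY hxy).subset ?_⟩, ?_⟩
      · rintro w (hw | hw)
        · rcases hIr hw with rfl | hw
          · exact Or.inl rfl
          · exact Or.inr (Or.inl hw)
        · exact Or.inr (Or.inr hw)
      · rw [Set.disjoint_left]
        intro w hw hw'
        exact hw'.2 (Or.inr (hI hw))
  have hfin : (M ／ C ＼ (M.E \ (C ∪ Y))).E.Finite := by
    rw [hE]
    exact hL.fin.subset hY
  have hnr := core_not_regular hfin (Or.inl hU)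
  have h := hL.of_minor hC (D := M.E \ (C ∪ Y)) sdiff_subset
    (Set.disjoint_left.2 fun x hx hx' => hx'.2 (Or.inl hx)) hnr
  exact ⟨hU, h.1, h.2⟩

theorem N2_par {M : Matroid α} {C : Set α} {b x y : α} (hb : M.Indep (insert b C))
    (hx : x ∈ M.E) (hbx : ¬ M.Indep (insert x (insert b C))) (hxC : x ∉ insert y C)
    (hxy : M.Indep (insert x (insert y C))) : M.Indep (insert b (insert y C)) := by
  by_contra hcon
  have hyC : M.Indep (insert y C) := hxy.subset (subset_insert _ _)
  have hbE : b ∈ M.E := hb.subset_ground (mem_insert _ _)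
  have h1 : b ∈ M.closure (insert y C) := by
    rw [hyC.mem_closure_iff]
    left
    rw [dep_iff]
    exact ⟨hcon, insert_subset hbE hyC.subset_ground⟩
  have h2 : x ∈ M.closure (insert b C) := by
    rw [hb.mem_closure_iff]
    left
    rw [dep_iff]
    exact ⟨hbx, insert_subset hx hb.subset_ground⟩
  have h3 : M.closure (insert b C) ⊆ M.closure (insert y C) := by
    apply closure_subset_closure_of_subset_closure
    refine insert_subset h1 ?_
    exact (subset_insert y C).trans (M.subset_closure _ hyC.subset_ground)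
  have h4 := h3 h2
  rw [hyC.mem_closure_iff] at h4
  rcases h4 with h4 | h4
  · exact h4.not_indep hxy
  · exact hxC h4

/-- the elements of a core with two elements in `A` -/
theorem N2_core {M : Matroid α} {A B : Set α} (hL : Lab M A B) {X : Set α} (hX : X ⊆ M.E)
    (hU : IsU24 (M ／ (A \ X) ＼ (B \ X))) (hc : (A ∩ X).encard = 2) :
    (B ∩ X).encard = 2 ∧ M.IsBase A ∧
    (∀ x ∈ X, ∀ y ∈ X, x ≠ y → M.Indep (insert x (insert y (A \ X)))) := by
  have hE : (M ／ (A \ X) ＼ (B \ X)).E = X := by
    rw [delete_ground, contract_ground]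
    ext x
    have h1 : x ∈ X → x ∈ M.E := fun h => hX h
    have h2 : x ∈ M.E ↔ x ∈ A ∨ x ∈ B := by rw [← hL.cover]; rfl
    simp only [mem_sdiff]
    tauto
  have hfin : (M ／ (A \ X) ＼ (B \ X)).E.Finite := by
    rw [hE]; exact hL.fin.subset hX
  have hnr := core_not_regular hfin (Or.inl hU)
  have hX4 : X.encard = 4 := by
    have := hU.1
    rwa [hE] at this
  have hXu : X = (A ∩ X) ∪ (B ∩ X) := by
    ext x
    have h1 : x ∈ X → x ∈ M.E := fun h => hX h
    have h2 : x ∈ M.E ↔ x ∈ A ∨ x ∈ B := by rw [← hL.cover]; rfl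
    simp only [mem_union, mem_inter_iff]
    tauto
  have hdis : Disjoint (A ∩ X) (B ∩ X) :=
    hL.disj.mono inter_subset_left inter_subset_left
  have hB2 : (B ∩ X).encard = 2 := by
    have h1 : X.encard = (A ∩ X).encard + (B ∩ X).encard := by
      rw [← encard_union_eq hdis, ← hXu]
    rw [hX4, hc] at h1
    have h2 : (2 : ℕ∞) + (B ∩ X).encard = 2 + 2 := by rw [← h1]; norm_num
    refine le_antisymm ?_ ?_
    · exact (ENat.add_le_add_iff_left (by norm_num : (2 : ℕ∞) ≠ ⊤)).1 h2.le
    · exact (ENat.add_le_add_iff_left (by norm_num : (2 : ℕ∞) ≠ ⊤)).1 h2.ge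
  have hAi := (hL.core_indep hX hnr).1
  have hpairs : ∀ x ∈ X, ∀ y ∈ X, x ≠ y → M.Indep (insert x (insert y (A \ X))) := by
    intro x hx y hy hxy
    have h1 := (hU.2 {x, y} (by rw [hE]; exact insert_subset hx (singleton_subset_iff.2 hy))).2
      (encard_pair hxy).le
    rw [delete_indep_iff, hAi.contract_indep_iff] at h1
    have h2 := h1.1.2
    rwa [insert_union, singleton_union] at h2
  have hA : M.IsBase A := by
    have h1 : (M ／ (A \ X) ＼ (B \ X)).IsBase (A ∩ X) := by
      rw [isBase_iff_maximal_indep]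
      refine ⟨(hU.2 _ (by rw [hE]; exact inter_subset_right)).2 hc.le, ?_⟩
      intro J hJ hs
      have h2 := (hU.2 J hJ.subset_ground).1 hJ
      have h3 : A ∩ X = J := Set.Finite.eq_of_subset_of_encard_le
        (hfin.subset (by rw [hE]; exact inter_subset_right)) hs (by rw [hc]; exact h2)
      exact h3.symm.subset
    have h2 := hL.isBase hX hnr h1
    have h3 : A \ X ∪ A ∩ X = A := sdiff_union_inter A X
    rwa [h3] at h2
  exact ⟨hB2, hA, hpairs⟩

theorem N2_P {M : Matroid α} {A B : Set α} (hL : Lab M A B) {X : Set α} (hX : X ⊆ M.E)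
    (hU : IsU24 (M ／ (A \ X) ＼ (B \ X))) (hc : (A ∩ X).encard = 2) :
    (∀ b ∈ B, ∀ a ∈ A ∩ X, M.IsBase (insert b (A \ {a}))) ∧
    (∀ b ∈ B, ∃ X' ⊆ M.E, b ∈ X' ∧ A ∩ X' = A ∩ X ∧ IsU24 (M ／ (A \ X') ＼ (B \ X'))) := by
  obtain ⟨hB2, hA, hpairs⟩ := N2_core hL hX hU hc
  obtain ⟨a1, a2, ha12, hAX⟩ := encard_eq_two.1 hc
  obtain ⟨b1, b2, hb12, hBX⟩ := encard_eq_two.1 hB2
  have ha1 : a1 ∈ A ∩ X := by rw [hAX]; simp
  have ha2 : a2 ∈ A ∩ X := by rw [hAX]; simp
  have hb1 : b1 ∈ B ∩ X := by rw [hBX]; simp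
  have hb2 : b2 ∈ B ∩ X := by rw [hBX]; simp
  have hAE : A ⊆ M.E := by rw [← hL.cover]; exact subset_union_left
  have hBE : B ⊆ M.E := by rw [← hL.cover]; exact subset_union_right
  have hdis : ∀ x, x ∈ A → x ∉ B := fun x h h' => Set.disjoint_left.1 hL.disj h h'
  have hcov : ∀ x, x ∈ M.E ↔ x ∈ A ∨ x ∈ B := fun x => by rw [← hL.cover]; rfl
  have hAXi : ∀ x, x ∈ A → x ∈ X → x = a1 ∨ x = a2 := by
    intro x h h'
    have : x ∈ A ∩ X := ⟨h, h'⟩
    rw [hAX] at this
    simpa using this
  have hBXi : ∀ x, x ∈ B → x ∈ X → x = b1 ∨ x = b2 := by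
    intro x h h'
    have : x ∈ B ∩ X := ⟨h, h'⟩
    rw [hBX] at this
    simpa using this
  have hAdel1 : A \ {a1} = insert a2 (A \ X) := by
    ext x
    have h1 := hAXi x
    have h2 := ha2.1
    have h3 := ha1.2
    have h4 := ha2.2
    simp only [mem_sdiff, mem_singleton_iff, mem_insert_iff]
    constructor
    · rintro ⟨h5, h6⟩
      by_cases hx : x ∈ X
      · left
        rcases h1 h5 hx with h | h
        · exact absurd h h6
        · exact h
      · exact Or.inr ⟨h5, hx⟩
    · rintro (rfl | ⟨h5, h6⟩)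
      · exact ⟨h2, ha12.symm⟩
      · exact ⟨h5, fun h => h6 (h ▸ h3)⟩
  have hAdel2 : A \ {a2} = insert a1 (A \ X) := by
    ext x
    have h1 := hAXi x
    have h2 := ha1.1
    have h3 := ha1.2
    have h4 := ha2.2
    simp only [mem_sdiff, mem_singleton_iff, mem_insert_iff]
    constructor
    · rintro ⟨h5, h6⟩
      by_cases hx : x ∈ X
      · left
        rcases h1 h5 hx with h | h
        · exact h
        · exact absurd h h6
      · exact Or.inr ⟨h5, hx⟩
    · rintro (rfl | ⟨h5, h6⟩)
      · exact ⟨h2, ha12⟩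
      · exact ⟨h5, fun h => h6 (h ▸ h4)⟩
  have hbaseA : M.IsBase (insert a1 (insert a2 (A \ X))) := by
    rw [← hAdel1, insert_sdiff_singleton, insert_eq_of_mem ha1.1]
    exact hA
  have hAXE : A \ X ⊆ M.E := sdiff_subset.trans hAE
  have hAXindep : M.Indep (A \ X) := hA.indep.subset sdiff_subset
  -- elements outside X
  have hnl : ∀ b ∈ B, b ∉ X → M.Indep (insert b (A \ X)) := by
    intro b hb hbX
    by_contra hcon
    have h1 : b ∈ M.closure (A \ X) := by
      rw [hAXindep.mem_closure_iff]
      left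
      rw [dep_iff]
      exact ⟨hcon, insert_subset (hBE hb) hAXE⟩
    have h2 : M.IsBasis' (A \ X) (insert b (A \ X)) := by
      rw [isBasis'_iff_isBasis (insert_subset (hBE hb) hAXE)]
      exact hAXindep.isBasis_of_subset_of_subset_closure (subset_insert _ _)
        (insert_subset h1 (M.subset_closure _ hAXE))
    have h3 := h2.contract_eq_contract_delete
    have h4 : insert b (A \ X) \ (A \ X) = {b} := by
      ext x
      simp only [mem_sdiff, mem_insert_iff, mem_singleton_iff]
      constructor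
      · rintro ⟨rfl | h, h'⟩
        · rfl
        · exact absurd h h'
      · rintro rfl
        exact ⟨Or.inl rfl, fun h => hdis x h.1 hb⟩
    have h5 : M ／ (insert b (A \ X)) ＼ ((B \ X) \ {b}) = M ／ (A \ X) ＼ (B \ X) := by
      rw [h3, h4, delete_delete]
      congr 1
      ext x
      simp only [mem_union, mem_sdiff, mem_singleton_iff]
      constructor
      · rintro (rfl | h)
        · exact ⟨hb, hbX⟩
        · exact h.1
      · intro h
        by_cases hx : x = b
        · exact Or.inl hx
        · exact Or.inr ⟨h, hx⟩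
    have hfin : (M ／ (A \ X) ＼ (B \ X)).E.Finite :=
      hL.fin.subset (by rw [delete_ground, contract_ground]; exact sdiff_subset.trans sdiff_subset)
    have hnr := core_not_regular hfin (Or.inl hU)
    rw [← h5] at hnr
    have h6 := hL.of_minor (insert_subset (hBE hb) hAXE) ((sdiff_subset.trans sdiff_subset).trans hBE)
      (by
        rw [Set.disjoint_left]
        rintro x (rfl | hx) hx'
        · exact hx'.2 rfl
        · exact hdis x hx.1 hx'.1.1) hnr
    exact hdis b (h6.1 (mem_insert _ _)) hb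
  -- not parallel to `a`
  have hcard4 : ∀ a b c d : α, a ≠ b → a ≠ c → a ≠ d → b ≠ c → b ≠ d → c ≠ d →
      ({a, b, c, d} : Set α).encard = 4 := by
    intro a b c d h1 h2 h3 h4 h5 h6
    rw [encard_insert_of_notMem (by simp [h1, h2, h3]), encard_insert_of_notMem (by simp [h4, h5]),
      encard_pair h6]
    norm_num
  have hnp : ∀ b ∈ B, b ∉ X → ∀ a ∈ A ∩ X, ∀ a' ∈ A ∩ X, a ≠ a' →
      M.Indep (insert b (insert a (A \ X))) := by
    intro b hb hbX a ha a' ha' haa
    by_contra hcon
    have hcon' : ¬ M.Indep (insert a (insert b (A \ X))) := by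
      rwa [insert_comm]
    have hin := hnl b hb hbX
    have hk : ∀ y ∈ X, y ≠ a → M.Indep (insert b (insert y (A \ X))) := by
      intro y hy hya
      refine N2_par hin (hAE ha.1) hcon' ?_ (hpairs a ha.2 y hy hya.symm)
      rintro (h | h)
      · exact hya h.symm
      · exact h.2 ha.2
    have hba' : b ≠ a' := fun h => hbX (h ▸ ha'.2)
    have hbb1 : b ≠ b1 := fun h => hbX (h ▸ hb1.2)
    have hbb2 : b ≠ b2 := fun h => hbX (h ▸ hb2.2)
    have hab1 : a ≠ b1 := fun h => hdis a ha.1 (h ▸ hb1.1)
    have hab2 : a ≠ b2 := fun h => hdis a ha.1 (h ▸ hb2.1)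
    have ha'b1 : a' ≠ b1 := fun h => hdis a' ha'.1 (h ▸ hb1.1)
    have ha'b2 : a' ≠ b2 := fun h => hdis a' ha'.1 (h ▸ hb2.1)
    have ht := N2_tool hL (C := A \ X) (Y := {b, a', b1, b2}) hAXE
      (by
        intro x hx
        rcases hx with rfl | rfl | rfl | rfl
        · exact hBE hb
        · exact hAE ha'.1
        · exact hBE hb1.1
        · exact hBE hb2.1)
      (by
        rw [Set.disjoint_left]
        intro x hx hx'
        rcases hx' with rfl | rfl | rfl | rfl
        · exact hdis _ hx.1 hb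
        · exact hx.2 ha'.2
        · exact hx.2 hb1.2
        · exact hx.2 hb2.2)
      (hcard4 _ _ _ _ hba' hbb1 hbb2 ha'b1 ha'b2 hb12) ha12 (fun h => h.2 ha1.2)
      (fun h => h.2 ha2.2) hbaseA
      (by
        have hX' : ∀ x ∈ ({a', b1, b2} : Set α), x ∈ X ∧ x ≠ a := by
          rintro x (rfl | rfl | rfl)
          · exact ⟨ha'.2, haa.symm⟩
          · exact ⟨hb1.2, hab1.symm⟩
          · exact ⟨hb2.2, hab2.symm⟩
        rintro x (rfl | hx) y (rfl | hy) hxy
        · exact absurd rfl hxy
        · exact hk y (hX' y hy).1 (hX' y hy).2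
        · rw [insert_comm]
          exact hk x (hX' x hx).1 (hX' x hx).2
        · exact hpairs x (hX' x hx).1 y (hX' y hy).1 hxy)
    refine hdis a ha.1 (ht.2.2 ⟨hAE ha.1, ?_⟩)
    rintro (h | h | h | h | h)
    · exact h.2 ha.2
    · exact hbX (h ▸ ha.2)
    · exact haa h
    · exact hab1 h
    · exact hab2 h
  have hcardA : ∀ b ∈ B, ∀ a ∈ A, A.encard ≤ (insert b (A \ {a})).encard := by
    intro b hb a ha
    rw [encard_insert_of_notMem (fun h => hdis b h.1 hb), encard_sdiff_singleton_add_one ha]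
  constructor
  · intro b hb a ha
    refine N2_isBase hA hL.fin ?_ (hcardA b hb a ha.1)
    have ha' := ha
    rw [hAX] at ha'
    rcases ha' with rfl | rfl
    · rw [hAdel1]
      by_cases hbX : b ∈ X
      · exact hpairs b hbX a2 ha2.2 (fun h => hdis a2 ha2.1 (h ▸ hb))
      · exact hnp b hb hbX a2 ha2 a ha1 ha12.symm
    · rw [hAdel2]
      by_cases hbX : b ∈ X
      · exact hpairs b hbX a1 ha1.2 (fun h => hdis a1 ha1.1 (h ▸ hb))
      · exact hnp b hb hbX a1 ha1 _ ha2 ha12
  · intro b hb
    by_cases hbX : b ∈ X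
    · exact ⟨X, hX, hbX, rfl, hU⟩
    · have hin := hnl b hb hbX
      have hex : ∃ b' ∈ B ∩ X, M.Indep (insert b (insert b' (A \ X))) := by
        by_cases h1 : M.Indep (insert b (insert b1 (A \ X)))
        · exact ⟨b1, hb1, h1⟩
        · refine ⟨b2, hb2, ?_⟩
          refine N2_par hin (hBE hb1.1) (by rwa [insert_comm]) ?_
            (hpairs b1 hb1.2 b2 hb2.2 hb12)
          rintro (h | h)
          · exact hb12 h
          · exact h.2 hb1.2
      obtain ⟨b', hb', hbb'⟩ := hex
      have hbb : b ≠ b' := fun h => hbX (h ▸ hb'.2)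
      have h1b : a1 ≠ b := fun h => hdis a1 ha1.1 (h ▸ hb)
      have h2b : a2 ≠ b := fun h => hdis a2 ha2.1 (h ▸ hb)
      have h1b' : a1 ≠ b' := fun h => hdis a1 ha1.1 (h ▸ hb'.1)
      have h2b' : a2 ≠ b' := fun h => hdis a2 ha2.1 (h ▸ hb'.1)
      have hpa1 := hnp b hb hbX a1 ha1 a2 ha2 ha12
      have hpa2 := hnp b hb hbX a2 ha2 a1 ha1 ha12.symm
      have hYE : ({b, a1, a2, b'} : Set α) ⊆ M.E := by
        intro x hx
        rcases hx with rfl | rfl | rfl | rfl
        · exact hBE hb
        · exact hAE ha1.1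
        · exact hAE ha2.1
        · exact hBE hb'.1
      have ht := N2_tool hL (C := A \ X) (Y := {b, a1, a2, b'}) hAXE hYE
        (by
          rw [Set.disjoint_left]
          intro x hx hx'
          rcases hx' with rfl | rfl | rfl | rfl
          · exact hdis _ hx.1 hb
          · exact hx.2 ha1.2
          · exact hx.2 ha2.2
          · exact hx.2 hb'.2)
        (hcard4 _ _ _ _ h1b.symm h2b.symm hbb ha12 h1b' h2b') ha12 (fun h => h.2 ha1.2)
        (fun h => h.2 ha2.2) hbaseA
        (by
          have hX' : ∀ x ∈ ({a1, a2, b'} : Set α), x ∈ X ∧ M.Indep (insert b (insert x (A \ X))) := by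
            rintro x (rfl | rfl | rfl)
            · exact ⟨ha1.2, hpa1⟩
            · exact ⟨ha2.2, hpa2⟩
            · exact ⟨hb'.2, hbb'⟩
          rintro x (rfl | hx) y (rfl | hy) hxy
          · exact absurd rfl hxy
          · exact (hX' y hy).2
          · rw [insert_comm]
            exact (hX' x hx).2
          · exact hpairs x (hX' x hx).1 y (hX' y hy).1 hxy)
      refine ⟨{b, a1, a2, b'}, hYE, Or.inl rfl, ?_, ?_⟩
      · rw [hAX]
        ext x
        simp only [mem_inter_iff, mem_insert_iff, mem_singleton_iff]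
        constructor
        · rintro ⟨h, rfl | rfl | rfl | rfl⟩
          · exact absurd hb (hdis _ h)
          · exact Or.inl rfl
          · exact Or.inr rfl
          · exact absurd hb'.1 (hdis _ h)
        · rintro (rfl | rfl)
          · exact ⟨ha1.1, by simp⟩
          · exact ⟨ha2.1, by simp⟩
      · have e1 : A \ {b, a1, a2, b'} = A \ X := by
          ext x
          simp only [mem_sdiff, mem_insert_iff, mem_singleton_iff, not_or]
          constructor
          · rintro ⟨h, -, h1, h2, -⟩
            refine ⟨h, fun hx => ?_⟩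
            rcases hAXi x h hx with h' | h'
            · exact h1 h'
            · exact h2 h'
          · rintro ⟨h, hx⟩
            exact ⟨h, fun h' => hdis x h (h' ▸ hb), fun h' => hx (h' ▸ ha1.2),
              fun h' => hx (h' ▸ ha2.2), fun h' => hx (h' ▸ hb'.2)⟩
        have e2 : B \ {b, a1, a2, b'} = M.E \ (A \ X ∪ {b, a1, a2, b'}) := by
          ext x
          simp only [mem_sdiff, mem_insert_iff, mem_singleton_iff, not_or, mem_union]
          constructor
          · rintro ⟨h, h1⟩
            exact ⟨hBE h, fun h' => hdis x h'.1 h, h1⟩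
          · rintro ⟨h, h1, h2⟩
            refine ⟨?_, h2⟩
            rcases (hcov x).1 h with h' | h'
            · exfalso
              apply h1
              refine ⟨h', fun hx => ?_⟩
              rcases hAXi x h' hx with h3 | h3
              · exact h2.2.1 h3
              · exact h2.2.2.1 h3
            · exact h'
        rw [e1, e2]
        exact ht.1

/-- the bit of a pair of pairs -/
noncomputable def N2_e (M : Matroid α) (A : Set α) (a a' b b' : α) : ZMod 2 :=
  open Classical in
  if a ≠ a' ∧ b ≠ b' ∧ M.IsBase (insert b (insert b' (A \ {a, a'}))) then 1 else 0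

theorem N2_e_symm (M : Matroid α) (A : Set α) (a a' b b' : α) :
    N2_e M A a a' b b' = N2_e M A a a' b' b := by
  classical
  unfold N2_e
  have h : (a ≠ a' ∧ b ≠ b' ∧ M.IsBase (insert b (insert b' (A \ {a, a'})))) ↔
      (a ≠ a' ∧ b' ≠ b ∧ M.IsBase (insert b' (insert b (A \ {a, a'})))) := by
    rw [insert_comm, ne_comm (a := b)]
  exact if_congr h rfl rfl

theorem N2_e_symm' (M : Matroid α) (A : Set α) (a a' b b' : α) :
    N2_e M A a a' b b' = N2_e M A a' a b b' := by
  classical
  unfold N2_e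
  have h : (a ≠ a' ∧ b ≠ b' ∧ M.IsBase (insert b (insert b' (A \ {a, a'})))) ↔
      (a' ≠ a ∧ b ≠ b' ∧ M.IsBase (insert b (insert b' (A \ {a', a})))) := by
    rw [pair_comm, ne_comm (a := a)]
  exact if_congr h rfl rfl

theorem N2_parity {M : Matroid α} {A B : Set α} (hL : Lab M A B) (hA : M.IsBase A)
    (h2 : ∀ a ∈ A, ∀ b ∈ B, M.IsBase (insert b (A \ {a}))) {a a' b b' b'' : α} (ha : a ∈ A)
    (ha' : a' ∈ A) (hb : b ∈ B) (hb' : b' ∈ B) (hb'' : b'' ∈ B) :
    N2_e M A a a' b b' + N2_e M A a a' b' b'' = N2_e M A a a' b b'' := by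
  have hAE : A ⊆ M.E := by rw [← hL.cover]; exact subset_union_left
  have hBE : B ⊆ M.E := by rw [← hL.cover]; exact subset_union_right
  have hdis : ∀ x, x ∈ A → x ∉ B := fun x h h' => Set.disjoint_left.1 hL.disj h h'
  by_cases haa : a = a'
  · simp [N2_e, haa]
  by_cases hbb : b = b'
  · subst hbb
    have : N2_e M A a a' b b = 0 := by simp [N2_e]
    rw [this, zero_add]
  by_cases hbb' : b' = b''
  · subst hbb'
    have : N2_e M A a a' b' b' = 0 := by simp [N2_e]
    rw [this, add_zero]
  by_cases hbb'' : b = b''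
  · subst hbb''
    have : N2_e M A a a' b b = 0 := by simp [N2_e]
    rw [this, N2_e_symm M A a a' b' b]
    exact CharTwo.add_self_eq_zero _
  set C := A \ {a, a'} with hC
  have hCE : C ⊆ M.E := sdiff_subset.trans hAE
  have haC : a ∉ C := fun h => h.2 (Or.inl rfl)
  have haC' : a' ∉ C := fun h => h.2 (Or.inr rfl)
  have hCa : insert a C = A \ {a'} := by
    ext x
    simp only [hC, mem_insert_iff, mem_sdiff, mem_singleton_iff, not_or]
    constructor
    · rintro (rfl | h)
      · exact ⟨ha, haa⟩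
      · exact ⟨h.1, h.2.2⟩
    · rintro ⟨h, h'⟩
      by_cases hx : x = a
      · exact Or.inl hx
      · exact Or.inr ⟨h, hx, h'⟩
  have hCaa : insert a' (insert a C) = A := by
    rw [hCa, insert_sdiff_singleton, insert_eq_of_mem ha']
  have hbi : ∀ x ∈ B, M.Indep (insert x (insert a C)) := by
    intro x hx
    rw [hCa]
    exact (h2 a' ha' x hx).indep
  have hbC : ∀ x ∈ B, M.Indep (insert x C) := fun x hx =>
    (hbi x hx).subset (insert_subset_insert (subset_insert _ _))
  have hnC : ∀ x ∈ B, x ∉ C := fun x hx h => hdis x h.1 hx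
  have hcard : ∀ x ∈ B, ∀ y ∈ B, x ≠ y → A.encard ≤ (insert x (insert y C)).encard := by
    intro x hx y hy hxy
    have h3 : A.encard = (insert a' (insert a C)).encard := by rw [hCaa]
    rw [h3, encard_insert_of_notMem (by
      rintro (h | h)
      · exact haa h.symm
      · exact haC' h), encard_insert_of_notMem haC, encard_insert_of_notMem (by
      rintro (h | h)
      · exact hxy h
      · exact hnC x hx h), encard_insert_of_notMem (hnC y hy)]
  have hiff : ∀ x ∈ B, ∀ y ∈ B, x ≠ y → (M.IsBase (insert x (insert y C)) ↔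
      M.Indep (insert x (insert y C))) := fun x hx y hy hxy =>
    ⟨fun h => h.indep, fun h => N2_isBase hA hL.fin h (hcard x hx y hy hxy)⟩
  have hstep : ∀ x ∈ B, ∀ y ∈ B, ∀ w ∈ B, x ≠ y → x ≠ w → y ≠ w →
      M.Indep (insert x (insert w C)) → ¬ M.Indep (insert x (insert y C)) →
      M.Indep (insert y (insert w C)) := by
    intro x hx y hy w hw hxy hxw hyw h3 h4
    refine N2_par (hbC y hy) (hBE hx) h4 ?_ h3
    rintro (h | h)
    · exact hxw h
    · exact hnC x hx h
  have hnot3 : ¬ (M.Indep (insert b (insert b' C)) ∧ M.Indep (insert b' (insert b'' C)) ∧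
      M.Indep (insert b (insert b'' C))) := by
    rintro ⟨h3, h4, h5⟩
    have hab : a ≠ b := fun h => hdis a ha (h ▸ hb)
    have hab' : a ≠ b' := fun h => hdis a ha (h ▸ hb')
    have hab'' : a ≠ b'' := fun h => hdis a ha (h ▸ hb'')
    have ht := N2_tool hL (C := C) (Y := {a, b, b', b''}) hCE
      (by
        intro x hx
        rcases hx with rfl | rfl | rfl | rfl
        · exact hAE ha
        · exact hBE hb
        · exact hBE hb'
        · exact hBE hb'')
      (by
        rw [Set.disjoint_left]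
        intro x hx hx'
        rcases hx' with rfl | rfl | rfl | rfl
        · exact haC hx
        · exact hnC _ hb hx
        · exact hnC _ hb' hx
        · exact hnC _ hb'' hx)
      (by
        rw [encard_insert_of_notMem (by simp [hab, hab', hab'']),
          encard_insert_of_notMem (by simp [hbb, hbb'']), encard_pair hbb']
        norm_num)
      (Ne.symm haa) haC' haC (by rw [hCaa]; exact hA)
      (by
        have hBB : ∀ x ∈ ({b, b', b''} : Set α), ∀ y ∈ ({b, b', b''} : Set α), x ≠ y →
            M.Indep (insert x (insert y C)) := by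
          rintro x (rfl | rfl | rfl) y (rfl | rfl | rfl) hxy
          · exact absurd rfl hxy
          · exact h3
          · exact h5
          · rw [insert_comm]; exact h3
          · exact absurd rfl hxy
          · exact h4
          · rw [insert_comm]; exact h5
          · rw [insert_comm]; exact h4
          · exact absurd rfl hxy
        have hinB : ∀ x ∈ ({b, b', b''} : Set α), x ∈ B := by
          rintro x (rfl | rfl | rfl)
          · exact hb
          · exact hb'
          · exact hb''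
        rintro x (rfl | hx) y (rfl | hy) hxy
        · exact absurd rfl hxy
        · rw [insert_comm]
          exact hbi y (hinB y hy)
        · exact hbi x (hinB x hx)
        · exact hBB x hx y hy hxy)
    refine hdis a' ha' (ht.2.2 ⟨hAE ha', ?_⟩)
    rintro (h | h | h | h | h)
    · exact haC' h
    · exact haa h.symm
    · exact hdis a' ha' (h ▸ hb)
    · exact hdis a' ha' (h ▸ hb')
    · exact hdis a' ha' (h ▸ hb'')
  have key1 := hstep b hb b' hb' b'' hb'' hbb hbb'' hbb'
  have key2 := hstep b'' hb'' b' hb' b hb (Ne.symm hbb') (Ne.symm hbb'') (Ne.symm hbb)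
  have key3 := hstep b' hb' b hb b'' hb'' (Ne.symm hbb) hbb' hbb''
  have key4 := hstep b' hb' b'' hb'' b hb hbb' (Ne.symm hbb) (Ne.symm hbb'')
  have key5 := hstep b hb b'' hb'' b' hb' hbb'' hbb (Ne.symm hbb')
  rw [insert_comm b'' b', insert_comm b'' b, insert_comm b' b] at key2
  rw [insert_comm b' b] at key3
  rw [insert_comm b' b, insert_comm b'' b] at key4
  rw [insert_comm b'' b'] at key5
  unfold N2_e
  rw [hiff b hb b' hb' hbb, hiff b' hb' b'' hb'' hbb', hiff b hb b'' hb'' hbb'']
  by_cases p1 : M.Indep (insert b (insert b' C)) <;>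
    by_cases p2 : M.Indep (insert b' (insert b'' C)) <;>
    by_cases p3 : M.Indep (insert b (insert b'' C)) <;>
    simp [p1, p2, p3, haa, hbb, hbb', hbb''] at key1 key2 key3 key4 key5 hnot3 ⊢
  exact CharTwo.add_self_eq_zero _

theorem sdata_of_u24 {M : Matroid α} {A B : Set α} (hL : Lab M A B) {X : Set α} (hX : X ⊆ M.E)
    (hU : IsU24 (M ／ (A \ X) ＼ (B \ X))) (hc : (A ∩ X).encard = 2) : SData M A B := by
  classical
  obtain ⟨hB2, hA, hpairs⟩ := N2_core hL hX hU hc
  have hAE : A ⊆ M.E := by rw [← hL.cover]; exact subset_union_left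
  have hBE : B ⊆ M.E := by rw [← hL.cover]; exact subset_union_right
  have hdis : ∀ x, x ∈ A → x ∉ B := fun x h h' => Set.disjoint_left.1 hL.disj h h'
  have hcov : ∀ x, x ∈ M.E ↔ x ∈ A ∨ x ∈ B := fun x => by rw [← hL.cover]; rfl
  have hLd := hL.dual
  -- complements
  have hcompl1 : ∀ a ∈ A, ∀ b ∈ B, M.E \ insert a (B \ {b}) = insert b (A \ {a}) := by
    intro a ha b hb
    ext x
    have h1 := hcov x
    have h2 := hdis x
    have h3 : x = b → x ∈ B := fun h => h ▸ hb
    have h4 : x = a → x ∈ A := fun h => h ▸ ha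
    simp only [mem_sdiff, mem_insert_iff, mem_singleton_iff]
    tauto
  have hcompl2 : ∀ a ∈ A, ∀ a' ∈ A, ∀ b ∈ B, ∀ b' ∈ B,
      M.E \ insert a (insert a' (B \ {b, b'})) = insert b (insert b' (A \ {a, a'})) := by
    intro a ha a' ha' b hb b' hb'
    ext x
    have h1 := hcov x
    have h2 := hdis x
    have h3 : x = b → x ∈ B := fun h => h ▸ hb
    have h4 : x = a → x ∈ A := fun h => h ▸ ha
    have h5 : x = b' → x ∈ B := fun h => h ▸ hb'
    have h6 : x = a' → x ∈ A := fun h => h ▸ ha'
    simp only [mem_sdiff, mem_insert_iff, mem_singleton_iff]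
    tauto
  have hdual1 : ∀ a ∈ A, ∀ b ∈ B,
      (M✶.IsBase (insert a (B \ {b})) ↔ M.IsBase (insert b (A \ {a}))) := by
    intro a ha b hb
    rw [dual_isBase_iff (insert_subset (hAE ha) (sdiff_subset.trans hBE)), hcompl1 a ha b hb]
  -- (2)
  have h2 : ∀ a ∈ A, ∀ b ∈ B, M.IsBase (insert b (A \ {a})) := by
    intro a ha b hb
    obtain ⟨X', hX', hbX', hAX', hU'⟩ := (N2_P hL hX hU hc).2 b hb
    have hc' : (A ∩ X').encard = 2 := by rw [hAX']; exact hc
    have hB2' := (N2_core hL hX' hU' hc').1
    have hUd : IsU24 (M✶ ／ (B \ X') ＼ (A \ X')) := by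
      have h3 := hU'.dual
      rw [dual_contract_delete] at h3
      have hdj : Disjoint (B \ X') (A \ X') :=
        (hL.disj.mono sdiff_subset sdiff_subset).symm
      rw [contract_delete_comm _ hdj]
      exact h3
    have h4 := (N2_P hLd (by rw [dual_ground]; exact hX') hUd hB2').1 a ha b ⟨hb, hbX'⟩
    exact (hdual1 a ha b hb).1 h4
  have hdE : ∀ a ∈ A, ∀ a' ∈ A, ∀ b ∈ B, ∀ b' ∈ B,
      N2_e M A a a' b b' = N2_e M✶ B b b' a a' := by
    intro a ha a' ha' b hb b' hb'
    unfold N2_e
    refine if_congr ?_ rfl rfl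
    rw [dual_isBase_iff (insert_subset (hAE ha) (insert_subset (hAE ha')
      (sdiff_subset.trans hBE))), hcompl2 a ha a' ha' b hb b' hb']
    tauto
  have hBd : M✶.IsBase B := by
    rw [dual_isBase_iff hBE]
    have : M.E \ B = A := by
      ext x
      have h1 := hcov x
      have h2 := hdis x
      simp only [mem_sdiff]
      tauto
    rw [this]
    exact hA
  have hpar : ∀ a ∈ A, ∀ a' ∈ A, ∀ b ∈ B, ∀ b' ∈ B, ∀ b'' ∈ B,
      N2_e M A a a' b b' + N2_e M A a a' b' b'' = N2_e M A a a' b b'' :=
    fun a ha a' ha' b hb b' hb' b'' hb'' => N2_parity hL hA h2 ha ha' hb hb' hb''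
  have hpar' : ∀ a ∈ A, ∀ a' ∈ A, ∀ a'' ∈ A, ∀ b ∈ B, ∀ b' ∈ B,
      N2_e M A a a' b b' + N2_e M A a' a'' b b' = N2_e M A a a'' b b' := by
    intro a ha a' ha' a'' ha'' b hb b' hb'
    rw [hdE a ha a' ha' b hb b' hb', hdE a' ha' a'' ha'' b hb b' hb',
      hdE a ha a'' ha'' b hb b' hb']
    exact N2_parity hLd hBd (fun b hb a ha => (hdual1 a ha b hb).2 (h2 a ha b hb)) hb hb' ha ha' ha''
  refine ⟨fun Z hZ => hZ.encard_eq_encard_of_isBase hA, h2, ?_⟩
  obtain ⟨a0, a0', -, hA0⟩ := encard_eq_two.1 hc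
  have ha0 : a0 ∈ A := by
    have : a0 ∈ A ∩ X := by rw [hA0]; simp
    exact this.1
  obtain ⟨b0, b0', -, hB0⟩ := encard_eq_two.1 hB2
  have hb0 : b0 ∈ B := by
    have : b0 ∈ B ∩ X := by rw [hB0]; simp
    exact this.1
  refine ⟨fun a b => if N2_e M A a0 a b0 b = 0 then 1 else -1, ?_, ?_⟩
  · intro a ha b hb
    dsimp only
    split_ifs
    · exact Or.inl rfl
    · exact Or.inr rfl
  · intro a ha a' ha' haa b hb b' hb' hbb
    have h3 : N2_e M A a a' b b' = N2_e M A a0 a b0 b + N2_e M A a0 a b0 b' +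
        (N2_e M A a0 a' b0 b + N2_e M A a0 a' b0 b') := by
      rw [← hpar' a ha a0 ha0 a' ha' b hb b' hb', N2_e_symm' M A a a0, ← hpar a0 ha0 a ha b hb b0 hb0
        b' hb', ← hpar a0 ha0 a' ha' b hb b0 hb0 b' hb', N2_e_symm M A a0 a b b0,
        N2_e_symm M A a0 a' b b0]
    have h4 : M.IsBase (insert b (insert b' (A \ {a, a'}))) ↔ N2_e M A a a' b b' = 1 := by
      unfold N2_e
      rw [if_congr (show (a ≠ a' ∧ b ≠ b' ∧ M.IsBase (insert b (insert b' (A \ {a, a'})))) ↔
        M.IsBase (insert b (insert b' (A \ {a, a'}))) by simp [haa, hbb]) rfl rfl]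
      split_ifs with h
      · simp [h]
      · simp [h]
    rw [h4, h3]
    dsimp only
    generalize N2_e M A a0 a b0 b = x
    generalize N2_e M A a0 a b0 b' = y
    generalize N2_e M A a0 a' b0 b = z
    generalize N2_e M A a0 a' b0 b' = w
    revert x y z w
    decide

end Pool.Agent.Helper43_EOR
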