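import Mathlib
import Pool.Agent.Helper43_EOR.F5

set_option autoImplicit false

namespace Pool.Agent.Helper43_EOR

open Set Matroid

variable {α : Type*}
-- JOB S1 complete: everything below replaces the JOB part (goes after the GIVEN blocks); uses only defs + Mathlib, none of the given sorries. Axioms: propext, Classical.choice, Quot.sound.
/-- The family used in `SignedBase`, over any field. -/
theorem S1_fam_linearIndepOn_iff {F : Type*} [Field F] {A : Set α} (hA : A.Finite)
    (P : α → α → F) {m : ℕ} {f g : Fin m → α} (hg : g.Injective)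
    (hfA : ∀ i, f i ∈ A) (hgA : ∀ i, g i ∉ A) (w : α → α → F)
    (hw1 : ∀ a ∈ A, w a a = 1) (hw1' : ∀ a ∈ A, ∀ y, y ≠ a → w a y = 0)
    (hw2 : ∀ b, b ∉ A → ∀ y, y ∈ A → w b y = P y b)
    (hw3 : ∀ b, b ∉ A → ∀ y, y ∉ A → w b y = 0) :
    LinearIndepOn F w ((A \ Set.range f) ∪ Set.range g) ↔
      (Matrix.of fun i j => P (f i) (g j)).det ≠ 0 := by
  classical
  have hs : (((hA.toFinset \ Finset.univ.image f) ∪ Finset.univ.image g : Finset α) : Set α) =
      (A \ Set.range f) ∪ Set.range g := by
    ext x; simp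
  rw [← hs, linearIndepOn_finset_iff]
  have hdisj : Disjoint (hA.toFinset \ Finset.univ.image f) (Finset.univ.image g) := by
    rw [Finset.disjoint_left]
    intro x hx hx'
    simp only [Finset.mem_sdiff, Set.Finite.mem_toFinset] at hx
    simp only [Finset.mem_image, Finset.mem_univ, true_and] at hx'
    obtain ⟨j, rfl⟩ := hx'
    exact hgA j hx.1
  have hsum : ∀ (c : α → F) (y : α),
      (∑ x ∈ (hA.toFinset \ Finset.univ.image f) ∪ Finset.univ.image g, c x • w x) y =
        if y ∈ A then (if y ∈ Set.range f then 0 else c y) + ∑ j, c (g j) * P y (g j) else 0 := by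
    intro c y
    rw [Finset.sum_union hdisj, Finset.sum_image (fun i _ j _ h => hg h), Pi.add_apply,
      Finset.sum_apply, Finset.sum_apply]
    simp only [Pi.smul_apply, smul_eq_mul]
    have h1 : ∑ x ∈ hA.toFinset \ Finset.univ.image f, c x * w x y =
        if y ∈ A then (if y ∈ Set.range f then 0 else c y) else 0 := by
      have : ∀ x ∈ hA.toFinset \ Finset.univ.image f, c x * w x y =
          if y = x then c x else 0 := by
        intro x hx
        simp only [Finset.mem_sdiff, Set.Finite.mem_toFinset] at hx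
        by_cases hyx : y = x
        · subst hyx; rw [hw1 y hx.1, if_pos rfl, mul_one]
        · rw [hw1' x hx.1 y hyx, if_neg hyx, mul_zero]
      rw [Finset.sum_congr rfl this, Finset.sum_ite_eq]
      by_cases hy : y ∈ A
      · by_cases hy' : y ∈ Set.range f
        · obtain ⟨i, rfl⟩ := hy'
          simp
        · have : ∀ i, f i ≠ y := fun i hi => hy' ⟨i, hi⟩
          simp [hy, hy', this]
      · simp [hy]
    rw [h1]
    by_cases hy : y ∈ A
    · simp only [hy, if_true]
      congr 1
      exact Finset.sum_congr rfl fun j _ => by rw [hw2 _ (hgA j) y hy]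
    · simp only [hy, if_false, zero_add]
      exact Finset.sum_eq_zero fun j _ => by rw [hw3 _ (hgA j) y hy, mul_zero]
  constructor
  · intro h hdet
    obtain ⟨e, he0, he⟩ := Matrix.exists_mulVec_eq_zero_iff.2 hdet
    apply he0
    let c : α → F := fun x => if x ∈ A then -∑ j, e j * P x (g j) else
      Function.extend g e 0 x
    have hcg : ∀ j, c (g j) = e j := fun j => by
      simp only [c, hgA j, if_false]
      exact hg.extend_apply _ _ _
    have hz : ∑ x ∈ (hA.toFinset \ Finset.univ.image f) ∪ Finset.univ.image g, c x • w x = 0 := by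
      funext y
      rw [hsum c y]
      by_cases hy : y ∈ A
      · simp only [hy, if_true, hcg]
        by_cases hy' : y ∈ Set.range f
        · obtain ⟨i, rfl⟩ := hy'
          have := congrFun he i
          simp only [Matrix.mulVec, dotProduct, Matrix.of_apply, Pi.zero_apply] at this
          simp only [Set.mem_range, exists_apply_eq_apply, if_true, zero_add, Pi.zero_apply]
          rw [← this]
          exact Finset.sum_congr rfl fun j _ => mul_comm _ _
        · simp [hy', c, hy]
      · simp [hy]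
    funext j
    rw [← hcg j]
    exact h c hz (g j) (by simp)
  · intro hdet c hc
    have hg0 : (fun j => c (g j)) = 0 := by
      apply Matrix.eq_zero_of_mulVec_eq_zero hdet
      funext i
      have := congrFun hc (f i)
      rw [hsum c (f i)] at this
      simp only [hfA i, if_true, Set.mem_range, exists_apply_eq_apply, zero_add,
        Pi.zero_apply] at this
      simp only [Matrix.mulVec, dotProduct, Matrix.of_apply, Pi.zero_apply]
      rw [← this]
      exact Finset.sum_congr rfl fun j _ => mul_comm _ _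
    intro x hx
    simp only [Finset.mem_union, Finset.mem_sdiff, Set.Finite.mem_toFinset, Finset.mem_image,
      Finset.mem_univ, true_and, not_exists] at hx
    rcases hx with ⟨hxA, hxf⟩ | ⟨j, rfl⟩
    · have := congrFun hc x
      rw [hsum c x] at this
      have hxf' : x ∉ Set.range f := fun ⟨i, hi⟩ => hxf i hi
      have h0 : ∀ j, c (g j) = 0 := fun j => congrFun hg0 j
      simpa [hxA, hxf', h0] using this
    · exact congrFun hg0 j

/-- Contracting one vector. -/
theorem S1_linearIndepOn_quotient {F : Type*} [Field F] {V V' : Type*} [AddCommGroup V]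
    [Module F V] [AddCommGroup V'] [Module F V'] {w : α → V} (L : V →ₗ[F] V') {b : α}
    {X : Set α} (hX : X.Finite) (hb : b ∉ X) (hb0 : w b ≠ 0) (hLb : L (w b) = 0)
    (hL : ∀ x ∈ Submodule.span F (w '' X), L x = 0 → x ∈ Submodule.span F {w b}) :
    LinearIndepOn F (L ∘ w) X ↔ LinearIndepOn F w (insert b X) := by
  classical
  obtain ⟨X, rfl⟩ := hX.exists_finset_coe
  have hb' : b ∉ X := by simpa using hb
  rw [← Finset.coe_insert, linearIndepOn_finset_iff, linearIndepOn_finset_iff]
  constructor
  · intro h c hc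
    rw [Finset.sum_insert hb'] at hc
    have h1 : ∑ x ∈ X, c x • (L ∘ w) x = 0 := by
      have := congrArg L hc
      simpa [map_sum, hLb] using this
    have h2 := h c h1
    have h3 : ∑ x ∈ X, c x • w x = 0 := Finset.sum_eq_zero fun x hx => by rw [h2 x hx, zero_smul]
    rw [h3, add_zero] at hc
    intro x hx
    rcases Finset.mem_insert.1 hx with rfl | hx
    · exact (smul_eq_zero.1 hc).resolve_right hb0
    · exact h2 x hx
  · intro h c hc
    have h1 : L (∑ x ∈ X, c x • w x) = 0 := by simpa [map_sum] using hc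
    have h2 := hL _ (Submodule.sum_mem _ fun x hx => Submodule.smul_mem _ _
      (Submodule.subset_span ⟨x, by simpa using hx, rfl⟩)) h1
    obtain ⟨t, ht⟩ := Submodule.mem_span_singleton.1 h2
    have hne : ∀ x ∈ X, x ≠ b := fun x hx h => hb' (by rw [← h]; exact hx)
    have h3 : ∑ x ∈ insert b X, (Function.update c b (-t)) x • w x = 0 := by
      rw [Finset.sum_insert hb']
      simp only [Function.update_self]
      have : ∑ x ∈ X, Function.update c b (-t) x • w x = ∑ x ∈ X, c x • w x :=
        Finset.sum_congr rfl fun x hx => by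
          rw [Function.update_of_ne (hne x hx)]
      rw [this, ← ht]
      simp
    intro x hx
    have := h _ h3 x (Finset.mem_insert_of_mem hx)
    rwa [Function.update_of_ne (hne x hx)] at this

/-- Scaling. -/
theorem S1_linearIndepOn_smul {F : Type*} [Field F] {V : Type*} [AddCommGroup V]
    [Module F V] {v : α → V} {s : α → F} {X : Set α} (hX : X.Finite) (hs : ∀ x ∈ X, s x ≠ 0) :
    LinearIndepOn F (fun x => s x • v x) X ↔ LinearIndepOn F v X := by
  classical
  obtain ⟨X, rfl⟩ := hX.exists_finset_coe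
  have hs' : ∀ x ∈ X, s x ≠ 0 := fun x hx => hs x (by simpa using hx)
  rw [linearIndepOn_finset_iff, linearIndepOn_finset_iff]
  constructor
  · intro h c hc x hx
    have := h (fun x => c x / s x) (by
      rw [← hc]
      refine Finset.sum_congr rfl fun x hx => ?_
      rw [smul_smul, div_mul_cancel₀ _ (hs' x hx)]) x hx
    simpa [hs' x hx] using this
  · intro h c hc x hx
    have := h (fun x => c x * s x) (by
      rw [← hc]
      refine Finset.sum_congr rfl fun x hx => ?_
      rw [smul_smul]) x hx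
    simpa [hs' x hx] using this

theorem S1_isBase_iff_indep {M : Matroid α} {A : Set α} (hA : A.Finite)
    (h1 : ∀ Z, M.IsBase Z → Z.encard = A.encard) {Z : Set α} (hZ : Z.encard = A.encard) :
    M.IsBase Z ↔ M.Indep Z := by
  constructor
  · exact fun h => h.indep
  · intro h
    obtain ⟨B', hB', hZB⟩ := h.exists_isBase_superset
    have hfin : B'.Finite := by
      rw [← Set.encard_lt_top_iff, h1 B' hB']
      exact hA.encard_lt_top
    have : Z = B' := (hfin.subset hZB).eq_of_subset_of_encard_le hZB (by rw [h1 _ hB', hZ])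
    rwa [this]

theorem S1_encard_le {M : Matroid α} {A : Set α}
    (h1 : ∀ Z, M.IsBase Z → Z.encard = A.encard) {Z : Set α} (hZ : M.Indep Z) :
    Z.encard ≤ A.encard := by
  obtain ⟨B', hB', hZB⟩ := hZ.exists_isBase_superset
  rw [← h1 B' hB']
  exact Set.encard_le_encard hZB

/-- Linear algebra of a circuit `A` and of elements `b` of its span. -/
theorem S1_mu {F : Type*} [Field F] {V : Type*} [AddCommGroup V] [Module F V] {v : α → V}
    (Af : Finset α) (hdep : ¬ LinearIndepOn F v (Af : Set α))
    (hind : ∀ a ∈ Af, LinearIndepOn F v ((Af : Set α) \ {a})) :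
    ∃ μ : α → F, (∀ a ∈ Af, μ a ≠ 0) ∧ ∑ a ∈ Af, μ a • v a = 0 ∧
      ∀ c : α → F, ∑ a ∈ Af, c a • μ a • v a = 0 → ∀ a ∈ Af, ∀ a' ∈ Af, c a = c a' := by
  classical
  rw [linearIndepOn_finset_iff] at hdep
  push Not at hdep
  obtain ⟨μ, hμ, a1, ha1, hμ1⟩ := hdep
  have hind' : ∀ a ∈ Af, ∀ c : α → F, c a = 0 → ∑ x ∈ Af, c x • v x = 0 →
      ∀ x ∈ Af, c x = 0 := by
    intro a ha c hca hc x hx
    have h1 := hind a ha
    rw [← Finset.coe_erase, linearIndepOn_finset_iff] at h1
    by_cases hxa : x = a
    · rw [hxa, hca]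
    · refine h1 c ?_ x (Finset.mem_erase.2 ⟨hxa, hx⟩)
      rw [← hc, ← Finset.add_sum_erase _ _ ha, hca, zero_smul, zero_add]
  have hμ0 : ∀ a ∈ Af, μ a ≠ 0 := fun a ha h0 => hμ1 (hind' a ha μ h0 hμ a1 ha1)
  refine ⟨μ, hμ0, hμ, ?_⟩
  intro c hc a ha a' ha'
  have h2 : ∑ x ∈ Af, ((c x - c a') * μ x) • v x = 0 := by
    have : ∀ x ∈ Af, ((c x - c a') * μ x) • v x = c x • μ x • v x - c a' • μ x • v x := by
      intro x _
      rw [sub_mul, sub_smul, mul_smul, mul_smul]
    rw [Finset.sum_congr rfl this, Finset.sum_sub_distrib, hc, ← Finset.smul_sum, hμ]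
    simp
  have h3 := hind' a' ha' (fun x => (c x - c a') * μ x) (by simp) h2 a ha
  rcases mul_eq_zero.1 h3 with h | h
  · exact sub_eq_zero.1 h
  · exact absurd h (hμ0 a ha)

theorem S1_lambda {F : Type*} [Field F] {V : Type*} [AddCommGroup V] [Module F V] {v : α → V}
    (Af : Finset α) {μ : α → F} (hμ0 : ∀ a ∈ Af, μ a ≠ 0) (hμ : ∑ a ∈ Af, μ a • v a = 0)
    (hker : ∀ c : α → F, ∑ a ∈ Af, c a • μ a • v a = 0 → ∀ a ∈ Af, ∀ a' ∈ Af, c a = c a')
    {b : α} (hb : v b ∈ Submodule.span F (v '' (Af : Set α))) (P : α → F)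
    (hP : ∀ a ∈ Af, P a = 0 ∨ P a = 1)
    (hPd : ∀ a ∈ Af, ∀ a' ∈ Af, a ≠ a' →
      (v b ∉ Submodule.span F (v '' ((Af : Set α) \ {a, a'})) ↔ P a ≠ P a')) :
    ∃ l : F, l ≠ 0 ∧ l • v b = ∑ a ∈ Af, P a • μ a • v a := by
  classical
  obtain ⟨d0, hd0⟩ := (Submodule.mem_span_image_finset_iff_exists_fun' (R := F)).1 hb
  -- coefficients with respect to `μ a • v a`
  obtain ⟨d, hd⟩ : ∃ d : α → F, v b = ∑ a ∈ Af, d a • μ a • v a := by
    refine ⟨fun a => d0 a / μ a, ?_⟩
    rw [← hd0]
    refine Finset.sum_congr rfl fun a ha => ?_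
    rw [smul_smul, div_mul_cancel₀ _ (hμ0 a ha)]
  have hshift : ∀ t : F, v b = ∑ a ∈ Af, (d a - t) • μ a • v a := by
    intro t
    have : ∀ a ∈ Af, (d a - t) • μ a • v a = d a • μ a • v a - t • μ a • v a :=
      fun a _ => sub_smul _ _ _
    rw [Finset.sum_congr rfl this, Finset.sum_sub_distrib, ← Finset.smul_sum, hμ, smul_zero,
      sub_zero, ← hd]
  have hdd : ∀ a ∈ Af, ∀ a' ∈ Af, (d a = d a' ↔ P a = P a') := by
    intro a ha a' ha'
    by_cases haa : a = a'
    · subst haa; simp
    have key := hPd a ha a' ha' haa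
    rw [← not_iff_not, ← ne_eq (P a), ← key]
    constructor
    · intro hne hmem
      apply hne
      have hset : ((Af : Set α) \ {a, a'}) = (((Af.erase a).erase a' : Finset α) : Set α) := by
        ext x
        simp only [Set.mem_sdiff, Finset.mem_coe, Set.mem_insert_iff, Set.mem_singleton_iff,
          Finset.coe_erase, not_or]
        tauto
      rw [hset] at hmem
      obtain ⟨c, hc⟩ := (Submodule.mem_span_image_finset_iff_exists_fun' (R := F)).1 hmem
      let c' : α → F := fun x => if x ∈ (Af.erase a).erase a' then c x / μ x else 0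
      have hc' : v b = ∑ x ∈ Af, c' x • μ x • v x := by
        rw [← hc]
        have hsub : (Af.erase a).erase a' ⊆ Af :=
          (Finset.erase_subset _ _).trans (Finset.erase_subset _ _)
        rw [← Finset.sum_subset hsub]
        · refine Finset.sum_congr rfl fun x hx => ?_
          simp only [c', hx, if_true]
          rw [smul_smul, div_mul_cancel₀ _ (hμ0 x (hsub hx))]
        · intro x _ hx
          simp only [c', hx, if_false, zero_smul]
      have h0 : ∑ x ∈ Af, (d x - c' x) • μ x • v x = 0 := by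
        have : ∀ x ∈ Af, (d x - c' x) • μ x • v x = d x • μ x • v x - c' x • μ x • v x :=
          fun x _ => sub_smul _ _ _
        rw [Finset.sum_congr rfl this, Finset.sum_sub_distrib, ← hd, ← hc', sub_self]
      have h1 := hker _ h0 a ha a' ha'
      have h2 : c' a = 0 := by simp [c']
      have h3 : c' a' = 0 := by simp [c']
      simpa [h2, h3] using h1
    · intro hnm heq
      apply hnm
      rw [hshift (d a)]
      refine Submodule.sum_mem _ fun x hx => ?_
      by_cases hxa : x = a
      · subst hxa; simp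
      by_cases hxa' : x = a'
      · subst hxa'; simp [heq]
      · exact Submodule.smul_mem _ _ (Submodule.smul_mem _ _ (Submodule.subset_span
          ⟨x, ⟨hx, by simp [hxa, hxa']⟩, rfl⟩))
  -- an affine relation between `d` and `P`
  obtain ⟨t, l, hl, hdl⟩ : ∃ t l : F, l ≠ 0 ∧ ∀ a ∈ Af, d a = t + l * P a := by
    by_cases hc : ∃ a1 ∈ Af, ∃ a2 ∈ Af, P a1 = 0 ∧ P a2 = 1
    · obtain ⟨a1, ha1, a2, ha2, h1, h2⟩ := hc
      refine ⟨d a1, d a2 - d a1, ?_, ?_⟩
      · intro h
        have := (hdd a2 ha2 a1 ha1).1 (sub_eq_zero.1 h)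
        rw [h1, h2] at this
        exact one_ne_zero this
      · intro a ha
        rcases hP a ha with h | h
        · rw [h, (hdd a ha a1 ha1).2 (by rw [h, h1])]; ring
        · rw [h, (hdd a ha a2 ha2).2 (by rw [h, h2])]; ring
    · rcases Af.eq_empty_or_nonempty with he | ⟨a0, ha0⟩
      · exact ⟨0, 1, one_ne_zero, by simp [he]⟩
      · refine ⟨d a0 - P a0, 1, one_ne_zero, ?_⟩
        intro a ha
        have hPP : P a = P a0 := by
          rcases hP a ha with h | h <;> rcases hP a0 ha0 with h' | h'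
          · rw [h, h']
          · exact absurd ⟨a, ha, a0, ha0, h, h'⟩ hc
          · exact absurd ⟨a0, ha0, a, ha, h', h⟩ hc
          · rw [h, h']
        rw [(hdd a ha a0 ha0).2 hPP, hPP]; ring
  refine ⟨l⁻¹, inv_ne_zero hl, ?_⟩
  rw [hshift t, Finset.smul_sum]
  refine Finset.sum_congr rfl fun a ha => ?_
  rw [hdl a ha, add_sub_cancel_left, mul_smul, smul_smul, inv_mul_cancel₀ hl, one_smul]

/-- The determinant criterion over a field `F` for the bases `A \ I ∪ J`. -/
theorem S1_key {F : Type} [Field F] {M : Matroid α} {A B : Set α} (hfin : M.E.Finite)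
    (hAB : A ∪ B = M.E) (hd : Disjoint A B)
    (h1 : ∀ Z, M.IsBase Z → Z.encard = A.encard)
    (h2 : ∀ a ∈ A, ∀ b ∈ B, M.IsBase (insert b (A \ {a})))
    {b0 : α} (hb0 : b0 ∈ B) (hrep : RepOver F (M ／ {b0})) (P : α → α → F)
    (hP0 : ∀ a ∈ A, P a b0 = 1)
    (hP01 : ∀ a ∈ A, ∀ b ∈ B, P a b = 0 ∨ P a b = 1)
    (hP : ∀ a ∈ A, ∀ a' ∈ A, a ≠ a' → ∀ b ∈ B, b ≠ b0 →
      (M.IsBase (insert b (insert b0 (A \ {a, a'}))) ↔ P a b ≠ P a' b))
    {k : ℕ} {f g : Fin (k + 1) → α} (hf : f.Injective) (hg : g.Injective)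
    (hfA : ∀ i, f i ∈ A) (hgB : ∀ i, g i ∈ B) (hg0 : g 0 = b0) :
    M.IsBase ((A \ Set.range f) ∪ Set.range g) ↔
      (Matrix.of fun i j => P (f i) (g j)).det ≠ 0 := by
  classical
  have hA : A.Finite := hfin.subset (hAB ▸ Set.subset_union_left)
  have hAE : A ⊆ M.E := hAB ▸ Set.subset_union_left
  have hBE : B ⊆ M.E := hAB ▸ Set.subset_union_right
  have hBA : ∀ b ∈ B, b ∉ A := fun b hb ha => Set.disjoint_left.1 hd ha hb
  obtain ⟨n, v, hv⟩ := hrep
  -- independence in the contraction
  have hb0i : M.Indep {b0} :=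
    (h2 (f 0) (hfA 0) b0 hb0).indep.subset (by simp)
  have hind : ∀ X ⊆ M.E, b0 ∉ X → (LinearIndepOn F v X ↔ M.Indep (insert b0 X)) := by
    intro X hX hbX
    rw [← hv X (by
      rw [Matroid.contract_ground]
      exact Set.subset_sdiff_singleton hX hbX), hb0i.contract_indep_iff, Set.union_singleton]
    simp [hbX]
  set Af : Finset α := hA.toFinset with hAf
  have hAfc : (Af : Set α) = A := hA.coe_toFinset
  have hmem : ∀ {a}, a ∈ Af ↔ a ∈ A := fun {a} => hA.mem_toFinset
  have hdep : ¬ LinearIndepOn F v (Af : Set α) := by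
    rw [hAfc, hind A hAE (hBA b0 hb0)]
    intro h
    have := S1_encard_le h1 h
    rw [Set.encard_insert_of_notMem (hBA b0 hb0)] at this
    have hlt : A.encard < A.encard + 1 := by
      rw [hA.encard_eq_coe_toFinset_card]
      exact_mod_cast Nat.lt_succ_self _
    exact absurd this (not_le.2 hlt)
  have hindA : ∀ a ∈ Af, LinearIndepOn F v ((Af : Set α) \ {a}) := by
    intro a ha
    rw [hAfc, hind _ (Set.sdiff_subset.trans hAE) (fun h => hBA b0 hb0 h.1)]
    exact (h2 a (hmem.1 ha) b0 hb0).indep
  obtain ⟨μ, hμ0, hμ, hker⟩ := S1_mu Af hdep hindA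
  -- the scaling factors of the elements of `B`
  have hlam : ∀ b ∈ B, b ≠ b0 →
      ∃ l : F, l ≠ 0 ∧ l • v b = ∑ a ∈ Af, P a b • μ a • v a := by
    intro b hb hbb
    have hbA : b ∉ A := hBA b hb
    refine S1_lambda Af hμ0 hμ hker (b := b) ?_ (fun a => P a b)
      (fun a ha => hP01 a (hmem.1 ha) b hb) ?_
    · rw [hAfc]
      by_contra hsp
      have hins : LinearIndepOn F v (insert b (A \ {f 0})) := by
        have := hindA (f 0) (hmem.2 (hfA 0))
        rw [hAfc] at this
        exact this.insert fun h => hsp (Submodule.span_mono (Set.image_mono Set.sdiff_subset) h)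
      rw [hind _ (Set.insert_subset (hBE hb) (Set.sdiff_subset.trans hAE)) (by
        simp only [Set.mem_insert_iff, not_or]
        exact ⟨fun h => hbb h.symm, fun h => hBA b0 hb0 h.1⟩)] at hins
      have := S1_encard_le h1 hins
      rw [Set.encard_insert_of_notMem, Set.encard_insert_of_notMem,
        Set.encard_sdiff_singleton_add_one (hfA 0)] at this
      · have hlt : A.encard < A.encard + 1 := by
          rw [hA.encard_eq_coe_toFinset_card]
          exact_mod_cast Nat.lt_succ_self _
        exact absurd this (not_le.2 hlt)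
      · exact fun h => hbA h.1
      · simp only [Set.mem_insert_iff, not_or]
        exact ⟨fun h => hbb h.symm, fun h => hBA b0 hb0 h.1⟩
    · intro a ha a' ha' haa
      rw [hAfc]
      have ha := hmem.1 ha
      have ha' := hmem.1 ha'
      rw [← hP a ha a' ha' haa b hb hbb]
      have hli : LinearIndepOn F v (A \ {a, a'}) := by
        have := hindA a (hmem.2 ha)
        rw [hAfc] at this
        exact this.mono (Set.sdiff_subset_sdiff_right (by simp))
      have hbn : b ∉ A \ {a, a'} := fun h => hbA h.1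
      rw [← (linearIndepOn_insert hbn (K := F) (f := v)).trans (and_iff_right hli),
        hind _ (Set.insert_subset (hBE hb) (Set.sdiff_subset.trans hAE)) (by
        simp only [Set.mem_insert_iff, not_or]
        exact ⟨fun h => hbb h.symm, fun h => hBA b0 hb0 h.1⟩), Set.insert_comm,
        ← S1_isBase_iff_indep hA h1]
      rw [Set.encard_insert_of_notMem, Set.encard_insert_of_notMem]
      · have e1 : A \ {a, a'} = (A \ {a}) \ {a'} := by
          ext x; simp only [Set.mem_sdiff, Set.mem_insert_iff, Set.mem_singleton_iff]; tauto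
        rw [e1, Set.encard_sdiff_singleton_add_one, Set.encard_sdiff_singleton_add_one ha]
        exact ⟨ha', fun h => haa h.symm⟩
      · exact fun h => hBA b0 hb0 h.1
      · simp only [Set.mem_insert_iff, not_or]
        exact ⟨hbb, fun h => hbA h.1⟩
  choose! l hl0 hl using hlam
  -- the vectors
  let w : α → α → F := fun e y =>
    if e ∈ A then (if y = e then 1 else 0) else if y ∈ A then P y e else 0
  let L : (α → F) →ₗ[F] (Fin n → F) :=
    ∑ a ∈ Af, (LinearMap.proj a : (α → F) →ₗ[F] F).smulRight (μ a • v a)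
  have hL : ∀ c : α → F, L c = ∑ a ∈ Af, c a • μ a • v a := by
    intro c
    simp [L, LinearMap.sum_apply]
  have hwA : ∀ e, ∀ y, y ∉ A → w e y = 0 := by
    intro e y hy
    simp only [w]
    by_cases he : e ∈ A
    · have : y ≠ e := fun h => hy (h ▸ he)
      simp [he, this]
    · simp [he, hy]
  let X : Set α := (A \ Set.range f) ∪ (Set.range g \ {b0})
  have hX : X.Finite := (hA.subset Set.sdiff_subset).union ((Set.finite_range g).subset
    Set.sdiff_subset)
  have hbX : b0 ∉ X := by
    simp only [X, Set.mem_union, not_or]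
    exact ⟨fun h => hBA b0 hb0 h.1, fun h => h.2 rfl⟩
  have hXE : X ⊆ M.E := by
    rintro x (hx | hx)
    · exact hAE hx.1
    · obtain ⟨j, rfl⟩ := hx.1
      exact hBE (hgB j)
  have hins : insert b0 X = (A \ Set.range f) ∪ Set.range g := by
    simp only [X]
    rw [← Set.union_insert, Set.insert_sdiff_singleton, Set.insert_eq_of_mem (show b0 ∈ Set.range g from ⟨0, hg0⟩)]
  let s : α → F := fun x => if x ∈ A then μ x else l x
  have hs0 : ∀ x ∈ X, s x ≠ 0 := by
    rintro x (hx | hx)
    · simp only [s, hx.1, if_true]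
      exact hμ0 x (hmem.2 hx.1)
    · obtain ⟨j, rfl⟩ := hx.1
      simp only [s, hBA _ (hgB j), if_false]
      exact hl0 _ (hgB j) hx.2
  have hLw : ∀ x ∈ X, L (w x) = s x • v x := by
    rintro x (hx | hx)
    · rw [hL]
      simp only [w, s, hx.1, if_true]
      rw [Finset.sum_eq_single x]
      · simp
      · intro a _ hax
        simp [hax]
      · intro h
        exact absurd (hmem.2 hx.1) h
    · obtain ⟨j, rfl⟩ := hx.1
      simp only [s, hBA _ (hgB j), if_false]
      rw [hl _ (hgB j) hx.2, hL]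
      refine Finset.sum_congr rfl fun a ha => ?_
      simp only [w, hBA _ (hgB j), if_false, hmem.1 ha, if_true]
  have hwb0 : ∀ y ∈ A, w b0 y = 1 := by
    intro y hy
    simp only [w, hBA b0 hb0, if_false, hy, if_true, hP0 y hy]
  have hq : LinearIndepOn F (L ∘ w) X ↔ LinearIndepOn F w (insert b0 X) := by
    refine S1_linearIndepOn_quotient L hX hbX ?_ ?_ ?_
    · intro h
      have := congrFun h (f 0)
      rw [hwb0 _ (hfA 0)] at this
      exact one_ne_zero this
    · rw [hL, ← hμ]
      refine Finset.sum_congr rfl fun a ha => ?_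
      rw [hwb0 a (hmem.1 ha), one_smul]
    · intro x hx hLx
      have hx0 : ∀ y, y ∉ A → x y = 0 := by
        intro y hy
        refine Submodule.span_induction (p := fun z _ => z y = 0) ?_ rfl ?_ ?_ hx
        · rintro _ ⟨e, _, rfl⟩
          exact hwA e y hy
        · intro z z' _ _ h h'
          simp [h, h']
        · intro c z _ h
          simp [h]
      rw [hL] at hLx
      refine Submodule.mem_span_singleton.2 ⟨x (f 0), ?_⟩
      funext y
      by_cases hy : y ∈ A
      · rw [Pi.smul_apply, hwb0 y hy, smul_eq_mul, mul_one]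
        exact hker x hLx (f 0) (hmem.2 (hfA 0)) y (hmem.2 hy)
      · rw [Pi.smul_apply, hwA b0 y hy, smul_zero, hx0 y hy]
  have hcong : LinearIndepOn F (L ∘ w) X ↔ LinearIndepOn F v X := by
    rw [← S1_linearIndepOn_smul (v := v) hX hs0]
    have : Set.EqOn (L ∘ w) (fun x => s x • v x) X := fun x hx => hLw x hx
    exact linearIndepOn_congr this
  have hfam := S1_fam_linearIndepOn_iff hA P hg hfA (fun i => hBA _ (hgB i)) w
    (fun a ha => by simp [w, ha]) (fun a ha y hy => by simp [w, ha, hy])
    (fun b hb y hy => by simp [w, hb, hy]) (fun b _ y hy => hwA b y hy)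
  rw [← hfam, ← hins, ← hq, hcong, hind X hXE hbX, hins]
  refine S1_isBase_iff_indep hA h1 ?_
  have hdis : Disjoint (A \ Set.range f) (Set.range g) := by
    rw [Set.disjoint_left]
    rintro x hx ⟨j, rfl⟩
    exact hBA _ (hgB j) hx.1
  have hfs : Set.range f ⊆ A := by
    rintro _ ⟨i, rfl⟩; exact hfA i
  rw [Set.encard_union_eq hdis, ← Set.encard_sdiff_add_encard_of_subset hfs]
  congr 1
  rw [← Set.image_univ, ← Set.image_univ, hf.encard_image, hg.encard_image]

theorem S1_det {A B : Set α} {S : α → α → ℤ} (hS : ∀ a ∈ A, ∀ b ∈ B, S a b = 1 ∨ S a b = -1)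
    {k : ℕ} {f g : Fin (k + 1) → α} (hfA : ∀ i, f i ∈ A) (hgB : ∀ i, g i ∈ B)
    (P : α → α → ℤ) (hP0 : ∀ a ∈ A, P a (g 0) = 1)
    (hP : ∀ a ∈ A, ∀ j, j ≠ 0 → S a (g 0) * S a (g j) = 1 - 2 * P a (g j)) :
    ∃ ε : ℤ, (ε = 1 ∨ ε = -1) ∧ (Matrix.of fun i j => S (f i) (g j)).det =
      ε * 2 ^ k * (Matrix.of fun i j => P (f i) (g j)).det := by
  classical
  let T : Matrix (Fin (k + 1)) (Fin (k + 1)) ℤ := Matrix.of fun l j =>
    if l = 0 then 1 else if l = j then -2 else 0
  have hT : T.det = (-2) ^ k := by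
    rw [Matrix.det_of_isUpperTriangular, Fin.prod_univ_succ]
    · simp [T, Fin.succ_ne_zero]
    · intro i j hij
      simp only [id_eq] at hij
      have h0 : i ≠ 0 := by rintro rfl; exact absurd hij (Fin.not_lt_zero _)
      simp [T, h0, hij.ne']
  have hmul : (Matrix.of fun i j => S (f i) (g j)) =
      Matrix.of fun i j => S (f i) (g 0) * ((Matrix.of fun i j => P (f i) (g j)) * T) i j := by
    ext i j
    simp only [Matrix.of_apply, Matrix.mul_apply]
    have hsum : ∑ l, P (f i) (g l) * T l j = if j = 0 then 1 else 1 - 2 * P (f i) (g j) := by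
      rw [Fin.sum_univ_succ]
      have hT0 : T 0 j = 1 := by simp [T]
      rw [hT0, hP0 _ (hfA i)]
      by_cases hj : j = 0
      · subst hj
        rw [if_pos rfl, Finset.sum_eq_zero, mul_one, add_zero]
        intro l _
        simp [T, Fin.succ_ne_zero]
      · obtain ⟨j, rfl⟩ := Fin.exists_succ_eq.2 hj
        rw [if_neg hj, Finset.sum_eq_single j]
        · simp [T, Fin.succ_ne_zero]; ring
        · intro l _ hl
          simp [T, Fin.succ_ne_zero, hl]
        · simp
    rw [hsum]
    by_cases hj : j = 0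
    · subst hj; simp
    · rw [if_neg hj, ← hP _ (hfA i) j hj, ← mul_assoc]
      rcases hS _ (hfA i) _ (hgB 0) with h | h <;> rw [h] <;> ring
  rw [hmul, Matrix.det_mul_column, Matrix.det_mul, hT]
  have hu : IsUnit (∏ i, S (f i) (g 0)) := by
    refine Finset.prod_induction _ (fun x : ℤ => IsUnit x) (fun _ _ => IsUnit.mul) isUnit_one ?_
    intro i _
    exact Int.isUnit_iff.2 (hS _ (hfA i) _ (hgB 0))
  refine ⟨(∏ i, S (f i) (g 0)) * (-1) ^ k, ?_, ?_⟩
  · refine Int.isUnit_iff.1 (hu.mul ?_)
    exact (IsUnit.neg isUnit_one).pow k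
  · have : (-2 : ℤ) ^ k = (-1) ^ k * 2 ^ k := by rw [← mul_pow]; norm_num
    rw [this]; ring

theorem typeS_of_sdata {M : Matroid α} {A B : Set α} (hfin : M.E.Finite) (hAB : A ∪ B = M.E)
    (hd : Disjoint A B) (hcon : ∀ b ∈ B, Regular (M ／ {b})) (h : SData M A B) :
    TypeS0 M A B := by
  classical
  obtain ⟨h1, h2, S, hS, h3⟩ := h
  have hA : A.Finite := hfin.subset (hAB ▸ Set.subset_union_left)
  have hBA : ∀ b ∈ B, b ∉ A := fun b hb ha => Set.disjoint_left.1 hd ha hb
  let P : α → α → α → ℤ := fun b0 a b =>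
    if b = b0 then 1 else if S a b0 * S a b = 1 then 0 else 1
  have hP0 : ∀ b0 a, P b0 a b0 = 1 := fun b0 a => by simp [P]
  have hP01 : ∀ b0 a b, P b0 a b = 0 ∨ P b0 a b = 1 := by
    intro b0 a b
    simp only [P]
    split_ifs <;> simp
  have hPS : ∀ b0 ∈ B, ∀ a ∈ A, ∀ b ∈ B, b ≠ b0 → S a b0 * S a b = 1 - 2 * P b0 a b := by
    intro b0 hb0 a ha b hb hbb
    simp only [P, hbb, if_false]
    rcases hS a ha b0 hb0 with h | h <;> rcases hS a ha b hb with h' | h' <;> simp [h, h']
  have hPd : ∀ b0 ∈ B, ∀ a ∈ A, ∀ a' ∈ A, a ≠ a' → ∀ b ∈ B, b ≠ b0 →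
      (M.IsBase (insert b (insert b0 (A \ {a, a'}))) ↔ P b0 a b ≠ P b0 a' b) := by
    intro b0 hb0 a ha a' ha' haa b hb hbb
    rw [h3 a ha a' ha' haa b hb b0 hb0 hbb]
    simp only [P, hbb, if_false]
    rcases hS a ha b0 hb0 with e1 | e1 <;> rcases hS a ha b hb with e2 | e2 <;>
      rcases hS a' ha' b0 hb0 with e3 | e3 <;> rcases hS a' ha' b hb with e4 | e4 <;>
      simp [e1, e2, e3, e4]
  -- the criterion over every field
  have hkey : ∀ (F : Type) [Field F] (k : ℕ) (f g : Fin (k + 1) → α), f.Injective →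
      g.Injective → (∀ i, f i ∈ A) → (∀ i, g i ∈ B) →
      (M.IsBase ((A \ Set.range f) ∪ Set.range g) ↔
        (((Matrix.of fun i j => P (g 0) (f i) (g j)).det : ℤ) : F) ≠ 0) := by
    intro F _ k f g hf hg hfA hgB
    rw [S1_key (F := F) hfin hAB hd h1 h2 (hgB 0) (hcon _ (hgB 0) F)
      (fun a b => ((P (g 0) a b : ℤ) : F)) (fun a _ => by simp [hP0])
      (fun a _ b _ => by rcases hP01 (g 0) a b with h | h <;> simp [h])
      (fun a ha a' ha' haa b hb hbb => by
        rw [hPd (g 0) (hgB 0) a ha a' ha' haa b hb hbb]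
        rcases hP01 (g 0) a b with h | h <;> rcases hP01 (g 0) a' b with h' | h' <;>
          simp [h, h']) hf hg hfA hgB rfl]
    have : (((Matrix.of fun i j => P (g 0) (f i) (g j)).det : ℤ) : F) =
        (Matrix.of fun i j => ((P (g 0) (f i) (g j) : ℤ) : F)).det := by
      have := (Int.castRingHom F).map_det (Matrix.of fun i j => P (g 0) (f i) (g j))
      rw [eq_intCast] at this
      rw [this]
      congr 1
    rw [this]
  -- the determinants are 0, 1, -1
  have hdP : ∀ (k : ℕ) (f g : Fin (k + 1) → α), f.Injective →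
      g.Injective → (∀ i, f i ∈ A) → (∀ i, g i ∈ B) →
      (Matrix.of fun i j => P (g 0) (f i) (g j)).det = 0 ∨
        (Matrix.of fun i j => P (g 0) (f i) (g j)).det = 1 ∨
        (Matrix.of fun i j => P (g 0) (f i) (g j)).det = -1 := by
    intro k f g hf hg hfA hgB
    by_cases h0 : (Matrix.of fun i j => P (g 0) (f i) (g j)).det = 0
    · exact Or.inl h0
    right
    have hbase : M.IsBase ((A \ Set.range f) ∪ Set.range g) := by
      rw [hkey ℚ k f g hf hg hfA hgB]
      exact_mod_cast h0
    by_contra hne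
    have hna : ((Matrix.of fun i j => P (g 0) (f i) (g j)).det).natAbs ≠ 1 := by
      intro h
      exact hne (Int.natAbs_eq_natAbs_iff.1 (by rw [h]; rfl))
    obtain ⟨p, hp, hpd⟩ := Nat.exists_prime_and_dvd hna
    have : Fact p.Prime := ⟨hp⟩
    have := (hkey (ZMod p) k f g hf hg hfA hgB).1 hbase
    exact this ((ZMod.intCast_zmod_eq_zero_iff_dvd _ _).2 (Int.natCast_dvd.2 hpd))
  have hSdet : ∀ (k : ℕ) (f g : Fin (k + 1) → α), f.Injective →
      g.Injective → (∀ i, f i ∈ A) → (∀ i, g i ∈ B) →
      ∃ ε : ℤ, (ε = 1 ∨ ε = -1) ∧ (Matrix.of fun i j => S (f i) (g j)).det =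
        ε * 2 ^ k * (Matrix.of fun i j => P (g 0) (f i) (g j)).det := by
    intro k f g hf hg hfA hgB
    refine S1_det hS hfA hgB (P (g 0)) (fun a _ => hP0 _ _) ?_
    intro a ha j hj
    exact hPS (g 0) (hgB 0) a ha (g j) (hgB j) (fun h => hj (hg h))
  have htm : TotallyMinimal A B S := by
    refine ⟨hS, ?_⟩
    intro k f g hf hg hfA hgB
    obtain ⟨ε, hε, he⟩ := hSdet k f g hf hg hfA hgB
    rw [he]
    rcases hdP k f g hf hg hfA hgB with h | h | h <;> rcases hε with h' | h' <;> simp [h, h']
  -- bases different from `A`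
  have hSB : ∀ (k : ℕ) (f g : Fin (k + 1) → α), f.Injective →
      g.Injective → (∀ i, f i ∈ A) → (∀ i, g i ∈ B) →
      (M.IsBase ((A \ Set.range f) ∪ Set.range g) ↔
        SignedBase A B S ((A \ Set.range f) ∪ Set.range g)) := by
    intro k f g hf hg hfA hgB
    rw [hkey ℚ k f g hf hg hfA hgB]
    obtain ⟨ε, hε, he⟩ := hSdet k f g hf hg hfA hgB
    have hfam := S1_fam_linearIndepOn_iff (F := ℚ) hA (fun a b => (S a b : ℚ)) hg hfA
      (fun i => hBA _ (hgB i)) (fun e : α => if e ∈ A then (Pi.single e 1 : α → ℚ)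
        else A.indicator (fun a => (S a e : ℚ)))
      (fun a ha => by simp [ha]) (fun a ha y hy => by simp [ha, hy])
      (fun b hb y hy => by simp [hb, hy]) (fun b hb y hy => by simp [hb, hy])
    have hc : (Matrix.of fun i j => (S (f i) (g j) : ℚ)).det =
        (((Matrix.of fun i j => S (f i) (g j)).det : ℤ) : ℚ) := by
      have := (Int.castRingHom ℚ).map_det (Matrix.of fun i j => S (f i) (g j))
      rw [eq_intCast] at this
      rw [this]
      congr 1
    have hiff : (((Matrix.of fun i j => P (g 0) (f i) (g j)).det : ℤ) : ℚ) ≠ 0 ↔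
        (Matrix.of fun i j => (S (f i) (g j) : ℚ)).det ≠ 0 := by
      rw [hc, he]
      push_cast
      rcases hε with h' | h' <;> simp [h']
    rw [hiff, ← hfam]
    constructor
    · intro hli
      refine ⟨?_, ?_, ?_⟩
      · rintro x (hx | ⟨j, rfl⟩)
        · exact Or.inl hx.1
        · exact Or.inr (hgB j)
      · have hdis : Disjoint (A \ Set.range f) (Set.range g) := by
          rw [Set.disjoint_left]
          rintro x hx ⟨j, rfl⟩
          exact hBA _ (hgB j) hx.1
        have hfs : Set.range f ⊆ A := by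
          rintro _ ⟨i, rfl⟩; exact hfA i
        rw [Set.encard_union_eq hdis, ← Set.encard_sdiff_add_encard_of_subset hfs]
        congr 1
        rw [← Set.image_univ, ← Set.image_univ, hf.encard_image, hg.encard_image]
      · convert hli
    · rintro ⟨_, _, h⟩
      convert h
  -- shape of the sets of size `|A|`
  have hshape : ∀ Z : Set α, Z ⊆ A ∪ B → Z.encard = A.encard → Z = A ∨
      ∃ (k : ℕ) (f g : Fin (k + 1) → α), f.Injective ∧ g.Injective ∧ (∀ i, f i ∈ A) ∧
        (∀ i, g i ∈ B) ∧ Z = (A \ Set.range f) ∪ Set.range g := by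
    intro Z hZ hZA
    have hZf : Z.Finite := by
      rw [← Set.encard_lt_top_iff, hZA]; exact hA.encard_lt_top
    have he : (A \ Z).encard = (Z \ A).encard := by
      have e1 := Set.encard_sdiff_add_encard_inter A Z
      have e2 := Set.encard_sdiff_add_encard_inter Z A
      rw [Set.inter_comm Z A] at e2
      have hfi : (A ∩ Z).encard ≠ ⊤ := (hA.subset Set.inter_subset_left).encard_lt_top.ne
      rw [hZA, ← e1] at e2
      exact (WithTop.add_right_inj hfi).1 e2.symm
    obtain ⟨n, hn⟩ : ∃ n : ℕ, (A \ Z).ncard = n := ⟨_, rfl⟩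
    have hAZ : (A \ Z).Finite := hA.subset Set.sdiff_subset
    have hZA' : (Z \ A).Finite := hZf.subset Set.sdiff_subset
    have hn' : (Z \ A).ncard = n := by rw [← hn, Set.ncard_def, Set.ncard_def, he]
    rcases Nat.eq_zero_or_pos n with h0 | hpos
    · left
      subst h0
      have e1 : A \ Z = ∅ := (Set.ncard_eq_zero hAZ).1 hn
      have e2 : Z \ A = ∅ := (Set.ncard_eq_zero hZA').1 hn'
      exact Set.Subset.antisymm (Set.sdiff_eq_empty.1 e2) (Set.sdiff_eq_empty.1 e1)
    · right
      obtain ⟨k, rfl⟩ : ∃ k, n = k + 1 := ⟨n - 1, by omega⟩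
      let _ := hAZ.fintype
      let _ := hZA'.fintype
      have c1 : Fintype.card (A \ Z : Set α) = k + 1 := by
        rw [← hn, Set.ncard_eq_toFinset_card' (A \ Z), Set.toFinset_card]
      have c2 : Fintype.card (Z \ A : Set α) = k + 1 := by
        rw [← hn', Set.ncard_eq_toFinset_card' (Z \ A), Set.toFinset_card]
      let ef := (Fintype.equivFinOfCardEq c1).symm
      let eg := (Fintype.equivFinOfCardEq c2).symm
      refine ⟨k, fun i => (ef i : α), fun i => (eg i : α),
        Subtype.val_injective.comp ef.injective, Subtype.val_injective.comp eg.injective,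
        fun i => (ef i).2.1, fun i => ?_, ?_⟩
      · rcases hZ (eg i).2.1 with h | h
        · exact absurd h (eg i).2.2
        · exact h
      · have r1 : Set.range (fun i => (ef i : α)) = A \ Z := by
          have : (fun i => (ef i : α)) = Subtype.val ∘ ef := rfl
          rw [this, Set.range_comp, ef.range_eq_univ, Set.image_univ, Subtype.range_coe]
        have r2 : Set.range (fun i => (eg i : α)) = Z \ A := by
          have : (fun i => (eg i : α)) = Subtype.val ∘ eg := rfl
          rw [this, Set.range_comp, eg.range_eq_univ, Set.image_univ, Subtype.range_coe]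
        rw [r1, r2]
        ext x
        simp only [Set.mem_union, Set.mem_sdiff]
        tauto
  have hmain : ∀ Z : Set α, Z ≠ A → (M.IsBase Z ↔ SignedBase A B S Z) := by
    intro Z hZA
    constructor
    · intro hb
      rcases hshape Z (by rw [hAB]; exact hb.subset_ground) (h1 Z hb) with h | h
      · exact absurd h hZA
      · obtain ⟨k, f, g, hf, hg, hfA, hgB, rfl⟩ := h
        exact (hSB k f g hf hg hfA hgB).1 hb
    · intro hb
      rcases hshape Z hb.1 hb.2.1 with h | h
      · exact absurd h hZA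
      · obtain ⟨k, f, g, hf, hg, hfA, hgB, rfl⟩ := h
        exact (hSB k f g hf hg hfA hgB).2 hb
  have hSA : SignedBase A B S A := by
    refine ⟨Set.subset_union_left, rfl, ?_⟩
    have hh := S1_fam_linearIndepOn_iff (F := ℚ) (m := 0) hA (fun a b => (S a b : ℚ))
      (f := fun i => i.elim0) (g := fun i => i.elim0)
      (fun i => i.elim0) (fun i => i.elim0)
      (fun i => i.elim0) (fun e : α => if e ∈ A then (Pi.single e 1 : α → ℚ)
        else A.indicator (fun a => (S a e : ℚ)))
      (fun a ha => by simp [ha]) (fun a ha y hy => by simp [ha, hy])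
      (fun b hb y hy => by simp [hb, hy]) (fun b hb y hy => by simp [hb, hy])
    have h2 := hh.2 (by simp)
    have hset : (A \ Set.range (fun i : Fin 0 => (i.elim0 : α))) ∪
        Set.range (fun i : Fin 0 => (i.elim0 : α)) = A := by
      ext x; simp
    rw [hset] at h2
    convert h2
  refine ⟨S, htm, ?_⟩
  by_cases hAb : M.IsBase A
  · left
    intro Z
    by_cases hZA : Z = A
    · subst hZA
      exact ⟨fun _ => hSA, fun _ => hAb⟩
    · exact hmain Z hZA
  · right
    intro Z
    by_cases hZA : Z = A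
    · subst hZA
      exact ⟨fun h => absurd h hAb, fun h => absurd rfl h.2⟩
    · rw [hmain Z hZA]
      exact ⟨fun h => ⟨h, hZA⟩, fun h => h.1⟩

end Pool.Agent.Helper43_EOR
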