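import Mathlib
import Pool.Agent.Helper43_EOR.C3
import Pool.Agent.Helper43_EOR.C2
import Pool.Agent.Helper43_EOR.C1
import Pool.Agent.Helper43_EOR.C0
import Pool.Agent.Helper43_EOR.CS
import Pool.Agent.Helper43_EOR.D2
import Pool.Agent.Helper43_EOR.N2
import Pool.Agent.Helper43_EOR.N1
import Pool.Agent.Helper43_EOR.S1

set_option autoImplicit false

/-! # Exactly-one-regular matroids: the types of labelled matroids -/

namespace Pool.Agent.Helper43_EOR

open Set Matroid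

variable {α : Type*}

/-! ### Assembly: from labelled matroids to types -/

theorem asm_sum_zero (x y z : Fin 3 → ZMod 2) (hx : x ≠ 0) (hy : y ≠ 0) (hz : z ≠ 0) (hxy : x ≠ y)
    (hxz : x ≠ z) (hyz : y ≠ z) (h : ¬ LinearIndependent (ZMod 2) ![x, y, z]) :
    x + y + z = 0 := by
  rw [Fintype.not_linearIndependent_iff] at h
  obtain ⟨g, hg, i, hi⟩ := h
  rw [Fin.sum_univ_three] at hg
  simp only [Matrix.cons_val_zero, Matrix.cons_val_one, Matrix.cons_val_two, Matrix.head_cons,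
    Matrix.tail_cons] at hg
  have hself : ∀ u : Fin 3 → ZMod 2, u + u = 0 := fun u => by
    funext j; exact CharTwo.add_self_eq_zero (u j)
  have two : ∀ c : ZMod 2, c = 0 ∨ c = 1 := by decide
  have eq_of : ∀ u v : Fin 3 → ZMod 2, u + v = 0 → u = v := by
    intro u v huv
    calc u = u + (v + v) := by rw [hself]; simp
      _ = (u + v) + v := by abel
      _ = v := by rw [huv]; simp
  rcases two (g 0) with h0 | h0 <;> rcases two (g 1) with h1 | h1 <;> rcases two (g 2) with h2 | h2 <;>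
    rw [h0, h1, h2] at hg <;> simp only [zero_smul, one_smul, zero_add, add_zero] at hg
  · exfalso; apply hi; fin_cases i <;> assumption
  · exact absurd hg hz
  · exact absurd hg hy
  · exact absurd (eq_of _ _ hg) hyz
  · exact absurd hg hx
  · exact absurd (eq_of _ _ hg) hxz
  · exact absurd (eq_of _ _ hg) hxy
  · exact hg

theorem typed_of_fano {M : Matroid α} {A B : Set α} (hL : Lab M A B) (hb : RepOver (ZMod 2) M)
    {X : Set α} (hX : X ⊆ M.E) (hF : IsFano (M ／ (A \ X) ＼ (B \ X)))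
    (hc : (A ∩ X).encard ≤ 3) : Typed0 M A B := by
  obtain ⟨Y, t, hC⟩ := c7_of_core hL hb hX hF
  have hAX : A \ (A \ X) = A ∩ X := by
    ext x; simp only [mem_sdiff, mem_inter_iff, not_and, not_not]
    exact ⟨fun h => ⟨h.1, h.2 h.1⟩, fun h => ⟨h.1, fun _ => h.2⟩⟩
  have hfinAX : (A ∩ X).Finite := Set.finite_of_encard_le_coe (k := 3) hc
  obtain ⟨n, hn⟩ : ∃ n : ℕ, (A ∩ X).encard = n := ⟨(A ∩ X).ncard, hfinAX.cast_ncard_eq.symm⟩
  have hn3 : n ≤ 3 := by rw [hn] at hc; exact_mod_cast hc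
  interval_cases n
  · have h0 : A ∩ X = ∅ := by simpa using hn
    have hA : A \ X = A := by
      rw [sdiff_eq_left, Set.disjoint_iff_inter_eq_empty]; exact h0
    rw [hA] at hC
    exact Or.inr (Or.inr (Or.inr (Or.inr (Or.inr (Or.inl (typeX3_of_c7 hL hC))))))
  · obtain ⟨a0, ha0⟩ := Set.encard_eq_one.1 (by simpa using hn)
    exact Or.inr (Or.inr (Or.inr (Or.inl (typeW2_of_c7 hL hC (hAX.trans ha0)))))
  · obtain ⟨a1, a2, h12, ha⟩ := Set.encard_eq_two.1 (by simpa using hn)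
    rcases typeW1X1_of_c7 hL hC h12 (hAX.trans ha) with h | h
    · exact Or.inr (Or.inr (Or.inl h))
    · exact Or.inr (Or.inr (Or.inr (Or.inr (Or.inl h))))
  · obtain ⟨a1, a2, a3, h12, h13, h23, ha⟩ := Set.encard_eq_three.1 (by simpa using hn)
    have hA := hAX.trans ha
    have m1 : a1 ∈ A \ (A \ X) := by rw [hA]; simp
    have m2 : a2 ∈ A \ (A \ X) := by rw [hA]; simp
    have m3 : a3 ∈ A \ (A \ X) := by rw [hA]; simp
    by_cases hli : LinearIndependent (ZMod 2) ![t a1, t a2, t a3]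
    · exact Or.inr (Or.inl (typeT_of_c7 hL hC hA hli))
    · have hs := asm_sum_zero (t a1) (t a2) (t a3) (hC.ne _ m1) (hC.ne _ m2) (hC.ne _ m3)
        (fun h => h12 (hC.inj m1 m2 h)) (fun h => h13 (hC.inj m1 m3 h))
        (fun h => h23 (hC.inj m2 m3 h)) hli
      exact Or.inl (typeS_of_sdata hL.fin hL.cover hL.disj hL.con
        (sdata_of_c7 hL hC h12 h13 h23 hA hs))

theorem asm_dec2 : ∀ p1 p2 : Fin 3 → ZMod 2, p1 ≠ 0 → p2 ≠ 0 → p1 ≠ p2 →
    ∃ q : Fin 3 → ZMod 2, q ≠ 0 ∧ p2 ≠ q ∧ p1 ≠ q ∧ p1 ≠ p2 + q := by decide +kernel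

theorem asm_dec3 : ∀ p1 p2 : Fin 3 → ZMod 2, p1 ≠ 0 → p2 ≠ 0 → p1 ≠ p2 →
    ∃ q : Fin 3 → ZMod 2, q ≠ 0 ∧ q ≠ p1 ∧ q ≠ p2 ∧ q ≠ p1 + p2 := by decide +kernel

theorem asm_dec0 : ∀ p : Fin 3 → ZMod 2, p ≠ 0 → ∃ q : Fin 3 → ZMod 2, q ≠ 0 ∧ p ≠ q := by
  decide +kernel

theorem asm_self (u : Fin 3 → ZMod 2) : u + u = 0 := by
  funext j; exact CharTwo.add_self_eq_zero (u j)

theorem asm_eq_of {u v : Fin 3 → ZMod 2} (huv : u + v = 0) : u = v := by
  calc u = u + (v + v) := by rw [asm_self]; simp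
    _ = (u + v) + v := by abel
    _ = v := by rw [huv]; simp

theorem asm_dec1 (p : Fin 3 → ZMod 2) (hp : p ≠ 0) : ∃ q1 q2 : Fin 3 → ZMod 2, q1 ≠ 0 ∧ q2 ≠ 0 ∧
    q1 ≠ q2 ∧ p ≠ q1 ∧ p ≠ q2 ∧ p ≠ q1 + q2 := by
  obtain ⟨q1, h1, h2⟩ := asm_dec0 p hp
  obtain ⟨q2, h3, h4, h5, h6⟩ := asm_dec3 p q1 hp h1 h2
  refine ⟨q1, q2, h1, h3, h5.symm, h2, h4.symm, ?_⟩
  intro h
  apply h6
  rw [h]
  calc q2 = q1 + q1 + q2 := by rw [asm_self]; simp
    _ = q1 + q2 + q1 := by abel

theorem typed_of_fanod {M : Matroid α} {A B : Set α} (hL : Lab M A B) (hb : RepOver (ZMod 2) M)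
    (hnoF : ∀ C D : Set α, C ⊆ M.E → D ⊆ M.E → Disjoint C D → ¬ IsFano (M ／ C ＼ D))
    {X : Set α} (hX : X ⊆ M.E) (hF : IsFano (M ／ (A \ X) ＼ (B \ X))✶)
    (hc : (A ∩ X).encard ≤ 3) : Typed0 M A B := by
  obtain ⟨v, hv, hr⟩ := c7d_of_core hL hb hnoF hX hF
  have hAX : A \ (A \ X) = A ∩ X := by
    ext x; simp only [mem_sdiff, mem_inter_iff, not_and, not_not]
    exact ⟨fun h => ⟨h.1, h.2 h.1⟩, fun h => ⟨h.1, fun _ => h.2⟩⟩
  have hXA : ∀ x ∈ X, x ∈ M.E \ (A \ X) := fun x hx => ⟨hX hx, fun h => h.2 hx⟩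
  have hs : ∀ q : Fin 3 → ZMod 2, q ≠ 0 → ∃ x ∈ X, v x = q := fun q hq => hv.surjOn hq
  have hne : ∀ x ∈ X, v x ≠ 0 := fun x hx => hv.mapsTo hx
  have hfinAX : (A ∩ X).Finite := Set.finite_of_encard_le_coe (k := 3) hc
  obtain ⟨n, hn⟩ : ∃ n : ℕ, (A ∩ X).encard = n := ⟨(A ∩ X).ncard, hfinAX.cast_ncard_eq.symm⟩
  have hn3 : n ≤ 3 := by rw [hn] at hc; exact_mod_cast hc
  interval_cases n
  · have h0 : A ∩ X = ∅ := by simpa using hn
    obtain ⟨x1, hx1, hv1⟩ := hs ![1, 0, 0] (by decide)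
    obtain ⟨x2, hx2, hv2⟩ := hs ![0, 1, 0] (by decide)
    obtain ⟨x3, hx3, hv3⟩ := hs ![1, 1, 0] (by decide)
    obtain ⟨x0, hx0, hv0⟩ := hs ![0, 0, 1] (by decide)
    obtain ⟨Y, t, hC, -⟩ := hr ![x0, x1, x2, x3]
      (by intro i; fin_cases i <;> assumption)
      (by simp [hv1, hv2, hv3]; decide) (by simp [hv1, hv2])
      (by simp [hv0, hv1]) (by simp [hv0, hv2]) (by simp [hv0, hv3])
    exact Or.inr (Or.inr (Or.inr (Or.inr (Or.inr (Or.inr (Or.inl
      (typeX4_of_c7d hL hC (hAX.trans h0))))))))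
  · obtain ⟨a0, ha0⟩ := Set.encard_eq_one.1 (by simpa using hn)
    have hA := hAX.trans ha0
    have ma : a0 ∈ A ∩ X := by rw [ha0]; simp
    obtain ⟨q1, q2, hq1, hq2, hq12, hp1, hp2, hp3⟩ := asm_dec1 (v a0) (hne _ ma.2)
    obtain ⟨x1, hx1, hv1⟩ := hs q1 hq1
    obtain ⟨x2, hx2, hv2⟩ := hs q2 hq2
    obtain ⟨x3, hx3, hv3⟩ := hs (q1 + q2) (fun h => hq12 (asm_eq_of h))
    have hr4 : ∀ i, (![a0, x1, x2, x3] : Fin 4 → α) i ∈ X := by
      intro i; fin_cases i
      exacts [ma.2, hx1, hx2, hx3]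
    obtain ⟨Y, t, hC, hrt⟩ := hr ![a0, x1, x2, x3] hr4
      (by show v x1 + v x2 + v x3 = 0; rw [hv1, hv2, hv3]; exact asm_self _)
      (by show v x1 ≠ v x2; rw [hv1, hv2]; exact hq12)
      (by show v a0 ≠ v x1; rw [hv1]; exact hp1)
      (by show v a0 ≠ v x2; rw [hv2]; exact hp2)
      (by show v a0 ≠ v x3; rw [hv3]; exact hp3)
    exact Or.inr (Or.inr (Or.inr (Or.inr (Or.inr (Or.inl
      (typeX3_of_c7d hL hC _ (fun i => hXA _ (hr4 i)) hrt hA))))))
  · obtain ⟨a1, a2, h12, ha⟩ := Set.encard_eq_two.1 (by simpa using hn)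
    have hA := hAX.trans ha
    have ma1 : a1 ∈ A ∩ X := by rw [ha]; simp
    have ma2 : a2 ∈ A ∩ X := by rw [ha]; simp
    obtain ⟨q, hq, hq2, hq1, hq12⟩ := asm_dec2 (v a1) (v a2) (hne _ ma1.2) (hne _ ma2.2)
      (fun h => h12 (hv.injOn ma1.2 ma2.2 h))
    obtain ⟨x2, hx2, hv2⟩ := hs q hq
    obtain ⟨x3, hx3, hv3⟩ := hs (v a2 + q) (fun h => hq2 (asm_eq_of h))
    have hr4 : ∀ i, (![a1, a2, x2, x3] : Fin 4 → α) i ∈ X := by
      intro i; fin_cases i
      exacts [ma1.2, ma2.2, hx2, hx3]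
    obtain ⟨Y, t, hC, hrt⟩ := hr ![a1, a2, x2, x3] hr4
      (by show v a2 + v x2 + v x3 = 0; rw [hv2, hv3]; exact asm_self _)
      (by show v a2 ≠ v x2; rw [hv2]; exact hq2)
      (by show v a1 ≠ v a2; exact (fun h => h12 (hv.injOn ma1.2 ma2.2 h)))
      (by show v a1 ≠ v x2; rw [hv2]; exact hq1)
      (by show v a1 ≠ v x3; rw [hv3]; exact hq12)
    exact Or.inr (Or.inr (Or.inr (Or.inl
      (typeW2_of_c7d hL hC _ (fun i => hXA _ (hr4 i)) hrt hA))))
  · obtain ⟨a1, a2, a3, h12, h13, h23, ha⟩ := Set.encard_eq_three.1 (by simpa using hn)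
    have hA := hAX.trans ha
    have ma1 : a1 ∈ A ∩ X := by rw [ha]; simp
    have ma2 : a2 ∈ A ∩ X := by rw [ha]; simp
    have ma3 : a3 ∈ A ∩ X := by rw [ha]; simp
    have n12 : v a1 ≠ v a2 := fun h => h12 (hv.injOn ma1.2 ma2.2 h)
    have n13 : v a1 ≠ v a3 := fun h => h13 (hv.injOn ma1.2 ma3.2 h)
    have n23 : v a2 ≠ v a3 := fun h => h23 (hv.injOn ma2.2 ma3.2 h)
    by_cases hsum : v a1 + v a2 + v a3 = 0
    · obtain ⟨q, hq, hq1, hq2, hq12⟩ := asm_dec3 (v a1) (v a2) (hne _ ma1.2) (hne _ ma2.2) n12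
      obtain ⟨x0, hx0, hv0⟩ := hs q hq
      have hr4 : ∀ i, (![x0, a1, a2, a3] : Fin 4 → α) i ∈ X := by
        intro i; fin_cases i
        exacts [hx0, ma1.2, ma2.2, ma3.2]
      obtain ⟨Y, t, hC, hrt⟩ := hr ![x0, a1, a2, a3] hr4 hsum n12
        (by show v x0 ≠ v a1; rw [hv0]; exact hq1)
        (by show v x0 ≠ v a2; rw [hv0]; exact hq2)
        (by show v x0 ≠ v a3; rw [hv0]; intro h; apply hq12; rw [h]; exact (asm_eq_of hsum).symm)
      exact Or.inr (Or.inr (Or.inr (Or.inr (Or.inl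
        (typeX1_of_c7d hL hC _ (fun i => hXA _ (hr4 i)) hrt hA)))))
    · obtain ⟨x3, hx3, hv3⟩ := hs (v a2 + v a3) (fun h => n23 (asm_eq_of h))
      have hr4 : ∀ i, (![a1, a2, a3, x3] : Fin 4 → α) i ∈ X := by
        intro i; fin_cases i
        exacts [ma1.2, ma2.2, ma3.2, hx3]
      obtain ⟨Y, t, hC, hrt⟩ := hr ![a1, a2, a3, x3] hr4
        (by show v a2 + v a3 + v x3 = 0; rw [hv3]; exact asm_self _)
        n23 n12 n13
        (by show v a1 ≠ v x3; rw [hv3]; intro h; apply hsum; rw [h]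
            have := asm_self (v a2 + v a3)
            rw [← add_assoc] at this; rw [add_assoc (v a2 + v a3)]; exact asm_self _)
      exact Or.inr (Or.inr (Or.inl
        (typeW1_of_c7d hL hC _ (fun i => hXA _ (hr4 i)) hrt hA)))

theorem asm_rank_fano {N : Matroid α} (h : IsFano N) : N.eRank = 3 ∧ N.E.encard = 7 := by
  obtain ⟨v, hv, hN⟩ := h
  have hcard : N.E.encard = 7 := by
    rw [← hv.injOn.encard_image, hv.image_eq]
    have : ({x | x ≠ 0} : Set (Fin 3 → ZMod 2)) = ↑(Finset.univ.filter fun x : Fin 3 → ZMod 2 => x ≠ 0) := by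
      ext x; simp
    rw [this, Set.encard_coe_eq_coe_finsetCard]
    have : (Finset.univ.filter fun x : Fin 3 → ZMod 2 => x ≠ 0).card = 7 := by decide +kernel
    rw [this]; rfl
  refine ⟨?_, hcard⟩
  obtain ⟨R, hR⟩ := N.exists_isBase
  have hRi := (hN R hR.subset_ground).1 hR.indep
  apply le_antisymm
  · rw [← hR.encard_eq_eRank]
    have hRf : R.Finite := (Set.finite_of_encard_eq_coe (k := 7) hcard).subset hR.subset_ground
    have : Fintype R := hRf.fintype
    have := hRi.fintype_card_le_finrank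
    rw [Module.finrank_fin_fun] at this
    rw [← hRf.cast_ncard_eq]
    rw [← Nat.card_coe_set_eq, Nat.card_eq_fintype_card]
    exact_mod_cast this
  · choose x hx hvx using fun i : Fin 3 => hv.surjOn (show (Pi.single i 1 : Fin 3 → ZMod 2) ∈ {x | x ≠ 0} from by
      simp)
    have hxi : Function.Injective x := by
      intro i j hij
      have : (Pi.single i 1 : Fin 3 → ZMod 2) = Pi.single j 1 := by rw [← hvx i, ← hvx j, hij]
      by_contra hne
      have := congrFun this i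
      simp [hne] at this
    have hI : N.Indep (range x) := by
      rw [hN _ (by rintro _ ⟨i, rfl⟩; exact hx i), linearIndepOn_range_iff hxi]
      have : v ∘ x = fun i => (Pi.single i 1 : Fin 3 → ZMod 2) := by funext i; exact hvx i
      rw [this]
      exact Pi.linearIndependent_single_one (Fin 3) (ZMod 2)
    have := hI.encard_le_eRank
    have h3 : (range x).encard = 3 := by
      rw [← Set.image_univ, hxi.encard_image, Set.encard_univ]
      simp
    rwa [h3] at this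

theorem asm_dual_minor {M : Matroid α} {C D : Set α} (h : Disjoint C D) :
    (M ／ C ＼ D)✶ = M✶ ／ D ＼ C := by
  rw [Matroid.dual_delete, Matroid.dual_contract, Matroid.contract_delete_comm _ h.symm]

theorem typed_of_u24 {M : Matroid α} {A B : Set α} (hL : Lab M A B) {X : Set α} (hX : X ⊆ M.E)
    (hU : IsU24 (M ／ (A \ X) ＼ (B \ X))) (hc : (A ∩ X).encard ≤ 2) : Typed0 M A B := by
  have hfinAX : (A ∩ X).Finite := Set.finite_of_encard_le_coe (k := 2) hc
  obtain ⟨n, hn⟩ : ∃ n : ℕ, (A ∩ X).encard = n := ⟨(A ∩ X).ncard, hfinAX.cast_ncard_eq.symm⟩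
  have hn3 : n ≤ 2 := by rw [hn] at hc; exact_mod_cast hc
  interval_cases n
  · exact Or.inr (Or.inr (Or.inr (Or.inr (Or.inr (Or.inr (Or.inr (Or.inr
      (typeU2_of_u24 hL hX hU (by simpa using hn)))))))))
  · exact Or.inr (Or.inr (Or.inr (Or.inr (Or.inr (Or.inr (Or.inr (Or.inl
      (typeU1_of_u24 hL hX hU (by simpa using hn)))))))))
  · exact Or.inl (typeS_of_sdata hL.fin hL.cover hL.disj hL.con
      (sdata_of_u24 hL hX hU (by simpa using hn)))

theorem asm_split {M : Matroid α} {A B X : Set α} (hL : Lab M A B) (hX : X ⊆ M.E) :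
    (A ∩ X).encard + (B ∩ X).encard = X.encard := by
  rw [← Set.encard_union_eq]
  · congr 1
    rw [← Set.union_inter_distrib_right, hL.cover]
    exact Set.inter_eq_right.2 hX
  · exact hL.disj.mono Set.inter_subset_left Set.inter_subset_left

theorem asm_core_E {M : Matroid α} {A B X : Set α} (hL : Lab M A B) (hX : X ⊆ M.E) :
    (M ／ (A \ X) ＼ (B \ X)).E = X := by
  rw [Matroid.delete_ground, Matroid.contract_ground, ← hL.cover]
  ext x
  simp only [mem_sdiff, mem_union]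
  constructor
  · rintro ⟨⟨h1 | h1, h2⟩, h3⟩
    · by_contra hx; exact h2 ⟨h1, hx⟩
    · by_contra hx; exact h3 ⟨h1, hx⟩
  · intro hx
    refine ⟨⟨?_, fun h => h.2 hx⟩, fun h => h.2 hx⟩
    have := hX hx
    rwa [← hL.cover] at this

theorem asm_XofCD {M : Matroid α} {A B : Set α} (hL : Lab M A B) {C D : Set α} (hC : C ⊆ A)
    (hD : D ⊆ B) : A \ (M.E \ (C ∪ D)) = C ∧ B \ (M.E \ (C ∪ D)) = D := by
  have hAE : A ⊆ M.E := by rw [← hL.cover]; exact subset_union_left
  have hBE : B ⊆ M.E := by rw [← hL.cover]; exact subset_union_right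
  constructor
  · ext x
    simp only [mem_sdiff, mem_union, not_and, not_not]
    constructor
    · rintro ⟨hx, h⟩
      rcases h (hAE hx) with h | h
      · exact h
      · exact absurd (hD h) (fun hb => (Set.disjoint_left.1 hL.disj) hx hb)
    · exact fun h => ⟨hC h, fun _ => Or.inl h⟩
  · ext x
    simp only [mem_sdiff, mem_union, not_and, not_not]
    constructor
    · rintro ⟨hx, h⟩
      rcases h (hBE hx) with h | h
      · exact absurd hx (fun hb => (Set.disjoint_left.1 hL.disj) (hC h) hb)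
      · exact h
    · exact fun h => ⟨hD h, fun _ => Or.inr h⟩

theorem asm_ranks {M : Matroid α} {A B X X' : Set α} (hL : Lab M A B) (hX : X ⊆ M.E)
    (hX' : X' ⊆ M.E) (hF : IsFano (M ／ (A \ X) ＼ (B \ X)))
    (hF' : IsFano (M ／ (A \ X') ＼ (B \ X'))✶) : (A \ X).encard + 3 = (A \ X').encard + 4 := by
  have hfinE : M.E.Finite := hL.fin
  have key : ∀ {X : Set α} (hX : X ⊆ M.E) (hN : IsCore (M ／ (A \ X) ＼ (B \ X))),
      M.eRank = (A \ X).encard + (M ／ (A \ X) ＼ (B \ X)).eRank := by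
    intro X hX hN
    obtain ⟨R, hR⟩ := (M ／ (A \ X) ＼ (B \ X)).exists_isBase
    have hEf : (M ／ (A \ X) ＼ (B \ X)).E.Finite := by
      rw [asm_core_E hL hX]; exact hfinE.subset hX
    have hb := hL.isBase hX (core_not_regular hEf hN) hR
    rw [← hb.encard_eq_eRank, ← hR.encard_eq_eRank, Set.encard_union_eq]
    have hRX := hR.subset_ground
    rw [asm_core_E hL hX] at hRX
    exact Set.disjoint_left.2 fun x hx hxR => hx.2 (hRX hxR)
  have h1 := key hX (Or.inr (Or.inl hF))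
  have h2 := key hX' (Or.inr (Or.inr hF'))
  have r1 := (asm_rank_fano hF).1
  have r2 : (M ／ (A \ X') ＼ (B \ X')).eRank = 4 := by
    obtain ⟨h3, h7⟩ := asm_rank_fano hF'
    have hadd := Matroid.eRank_add_eRank_dual (M ／ (A \ X') ＼ (B \ X'))
    rw [h3] at hadd
    rw [Matroid.dual_ground] at h7
    rw [h7] at hadd
    have h7' : (7 : ℕ∞) = 4 + 3 := by norm_num
    rw [h7'] at hadd
    exact ENat.add_left_injective_of_ne_top (n := 3) (by decide) hadd
  rw [← r1, ← r2, ← h1, ← h2]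

theorem typed_of_lab {M : Matroid α} {A B : Set α} (hL : Lab M A B) (hN : ¬ Regular M) :
    Typed0 M A B ∨ Typed0 M✶ B A := by
  have hAE : A ⊆ M.E := by rw [← hL.cover]; exact subset_union_left
  have hBE : B ⊆ M.E := by rw [← hL.cover]; exact subset_union_right
  have hLd : Lab M✶ B A := hL.dual
  by_cases hb : RepOver (ZMod 2) M
  · have hbd : RepOver (ZMod 2) M✶ := hb.dual hL.fin
    obtain ⟨X, hX, hcore⟩ := hL.core hN
    have hdm : ∀ X : Set α, (M ／ (A \ X) ＼ (B \ X))✶ = M✶ ／ (B \ X) ＼ (A \ X) := fun X =>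
      asm_dual_minor (hL.disj.mono sdiff_subset sdiff_subset)
    have hEf : ∀ {X : Set α}, X ⊆ M.E → (M ／ (A \ X) ＼ (B \ X)).E.Finite := by
      intro X hX
      rw [asm_core_E hL hX]; exact hL.fin.subset hX
    have hnoU : ¬ IsU24 (M ／ (A \ X) ＼ (B \ X)) := fun hU =>
      hU.not_repOver ((hb.contract hL.fin _).delete _)
    have h7 : ∀ {X : Set α}, X ⊆ M.E → (IsFano (M ／ (A \ X) ＼ (B \ X)) ∨
        IsFano (M ／ (A \ X) ＼ (B \ X))✶) → X.encard = 7 := by
      intro X hX h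
      rcases h with h | h
      · have := (asm_rank_fano h).2
        rwa [asm_core_E hL hX] at this
      · have := (asm_rank_fano h).2
        rwa [Matroid.dual_ground, asm_core_E hL hX] at this
    have h34 : ∀ {X : Set α}, X ⊆ M.E → X.encard = 7 → ¬ (A ∩ X).encard ≤ 3 →
        (B ∩ X).encard ≤ 3 := by
      intro X hX h7 h
      have hs := asm_split hL hX
      rw [h7] at hs
      by_contra hB
      have h4 : (4 : ℕ∞) ≤ (A ∩ X).encard := by
        have := not_le.1 h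
        exact Order.add_one_le_of_lt this
      have h4' : (4 : ℕ∞) ≤ (B ∩ X).encard := by
        have := not_le.1 hB
        exact Order.add_one_le_of_lt this
      have := add_le_add h4 h4'
      rw [hs] at this
      exact absurd this (by decide)
    by_cases c1 : ∃ X ⊆ M.E, IsFano (M ／ (A \ X) ＼ (B \ X)) ∧ (A ∩ X).encard ≤ 3
    · obtain ⟨X, hX, hF, hc⟩ := c1
      exact Or.inl (typed_of_fano hL hb hX hF hc)
    by_cases c2 : ∃ X ⊆ M.E, IsFano (M ／ (A \ X) ＼ (B \ X))✶ ∧ (B ∩ X).encard ≤ 3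
    · obtain ⟨X, hX, hF, hc⟩ := c2
      rw [hdm X] at hF
      exact Or.inr (typed_of_fano hLd hbd hX hF hc)
    push Not at c1 c2
    -- all Fano cores have at least four elements of A, all dual ones at most three
    have d1 : ∀ X ⊆ M.E, IsFano (M ／ (A \ X) ＼ (B \ X)) → (B ∩ X).encard ≤ 3 := fun X hX hF =>
      h34 hX (h7 hX (Or.inl hF)) (not_le.2 (c1 X hX hF))
    have d2 : ∀ X ⊆ M.E, IsFano (M ／ (A \ X) ＼ (B \ X))✶ → (A ∩ X).encard ≤ 3 := by
      intro X hX hF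
      by_contra h
      exact absurd (h34 hX (h7 hX (Or.inr hF)) h) (not_le.2 (c2 X hX hF))
    have noboth : ∀ X ⊆ M.E, IsFano (M ／ (A \ X) ＼ (B \ X)) → ∀ X' ⊆ M.E,
        ¬ IsFano (M ／ (A \ X') ＼ (B \ X'))✶ := by
      intro X hX hF X' hX' hF'
      have hr := asm_ranks hL hX hX' hF hF'
      have e1 : (A \ X).encard + (A ∩ X).encard = A.encard := Set.encard_sdiff_add_encard_inter A X
      have e2 : (A \ X').encard + (A ∩ X').encard = A.encard := Set.encard_sdiff_add_encard_inter A X'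
      have g1 := c1 X hX hF
      have g2 := d2 X' hX' hF'
      have hAf : A.Finite := hL.fin.subset hAE
      obtain ⟨p, hp⟩ : ∃ n : ℕ, (A \ X).encard = n :=
        ⟨_, (hAf.subset sdiff_subset).cast_ncard_eq.symm⟩
      obtain ⟨p', hp'⟩ : ∃ n : ℕ, (A \ X').encard = n :=
        ⟨_, (hAf.subset sdiff_subset).cast_ncard_eq.symm⟩
      obtain ⟨r, hr1⟩ : ∃ n : ℕ, (A ∩ X).encard = n :=
        ⟨_, (hAf.subset inter_subset_left).cast_ncard_eq.symm⟩
      obtain ⟨r', hr1'⟩ : ∃ n : ℕ, (A ∩ X').encard = n :=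
        ⟨_, (hAf.subset inter_subset_left).cast_ncard_eq.symm⟩
      rw [hp, hp'] at hr
      rw [hp, hr1] at e1
      rw [hp', hr1'] at e2
      rw [hr1] at g1
      rw [hr1'] at g2
      have e3 := e1.trans e2.symm
      norm_cast at hr e3 g1 g2
      omega
    rcases hcore with hU | hF | hF
    · exact absurd hU hnoU
    · -- no dual core: use the dual matroid
      have hF' : IsFano (M✶ ／ (B \ X) ＼ (A \ X))✶ := by
        rw [← hdm X, Matroid.dual_dual]; exact hF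
      refine Or.inr (typed_of_fanod hLd hbd ?_ hX hF' (d1 X hX hF))
      intro C D hC hD hCD hFC
      have hreg : ¬ Regular (M✶ ／ C ＼ D) := core_not_regular
        ((hL.fin.subset (by rw [Matroid.delete_ground, Matroid.contract_ground]; exact
          sdiff_subset.trans sdiff_subset))) (Or.inr (Or.inl hFC))
      obtain ⟨hCB, hDA⟩ := hLd.of_minor hC hD hCD hreg
      have hx := asm_XofCD hLd hCB hDA
      have hX0 : M.E \ (C ∪ D) ⊆ M.E := sdiff_subset
      apply noboth X hX hF (M.E \ (C ∪ D)) hX0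
      rw [hdm, show B \ (M.E \ (C ∪ D)) = C from hx.1, show A \ (M.E \ (C ∪ D)) = D from hx.2]
      exact hFC
    · refine Or.inl (typed_of_fanod hL hb ?_ hX hF (d2 X hX hF))
      intro C D hC hD hCD hFC
      have hreg : ¬ Regular (M ／ C ＼ D) := core_not_regular
        ((hL.fin.subset (by rw [Matroid.delete_ground, Matroid.contract_ground]; exact
          sdiff_subset.trans sdiff_subset))) (Or.inr (Or.inl hFC))
      obtain ⟨hCA, hDB⟩ := hL.of_minor hC hD hCD hreg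
      have hx := asm_XofCD hL hCA hDB
      apply noboth (M.E \ (C ∪ D)) sdiff_subset ?_ X hX hF
      rw [hx.1, hx.2]
      exact hFC
  · obtain ⟨C, D, hC, hD, hCD, hU⟩ := u24_minor_of_not_binary hL.fin hb
    have hreg : ¬ Regular (M ／ C ＼ D) := core_not_regular
        ((hL.fin.subset (by rw [Matroid.delete_ground, Matroid.contract_ground]; exact
          sdiff_subset.trans sdiff_subset))) (Or.inl hU)
    obtain ⟨hCA, hDB⟩ := hL.of_minor hC hD hCD hreg
    have hx := asm_XofCD hL hCA hDB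
    have hX : M.E \ (C ∪ D) ⊆ M.E := sdiff_subset
    have hU' : IsU24 (M ／ (A \ (M.E \ (C ∪ D))) ＼ (B \ (M.E \ (C ∪ D)))) := by
      rw [hx.1, hx.2]; exact hU
    by_cases hc : (A ∩ (M.E \ (C ∪ D))).encard ≤ 2
    · exact Or.inl (typed_of_u24 hL hX hU' hc)
    · have h4 : (M.E \ (C ∪ D)).encard = 4 := by
        have := hU'.1
        rwa [asm_core_E hL hX] at this
      have hs := asm_split hL hX
      rw [h4] at hs
      have hcB : (B ∩ (M.E \ (C ∪ D))).encard ≤ 2 := by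
        by_contra hB
        have h3 : (3 : ℕ∞) ≤ (A ∩ (M.E \ (C ∪ D))).encard := Order.add_one_le_of_lt (not_le.1 hc)
        have h3' : (3 : ℕ∞) ≤ (B ∩ (M.E \ (C ∪ D))).encard := Order.add_one_le_of_lt (not_le.1 hB)
        have := add_le_add h3 h3'
        rw [hs] at this
        exact absurd this (by decide)
      have hUd : IsU24 (M✶ ／ (B \ (M.E \ (C ∪ D))) ＼ (A \ (M.E \ (C ∪ D)))) := by
        rw [← asm_dual_minor (hL.disj.mono sdiff_subset sdiff_subset)]
        exact hU'.dual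
      exact Or.inr (typed_of_u24 hLd hX hUd hcB)

end Pool.Agent.Helper43_EOR
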