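import Mathlib
import Pool.Agent.Helper43_EOR.F5
import Pool.Agent.Helper344_EOR.GraphIndep

set_option autoImplicit false

namespace Pool.Agent.Helper43_EOR

open Set Matroid

variable {α : Type*}


/-
JOB G2 (graphs give regular minors). Given also `graph_indep` (proved, in
Pool/Agent/Helper344_EOR/GraphIndep.lean on origin/main).
PLAIN WORDS. regular_con_of_graph: by RepBy.contract_map with T = mkQ of span {w b}, M ／ {b} is represented over
ZMod 2 by T ∘ w. For e ∈ M.E, e ≠ b choose p e, q e from hedge. Let F be a field, u_F e = single (p e) 1 -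
single (q e) 1 ∈ F^ι. Over ZMod 2 let L : (ι → ZMod 2) → V ⧸ span {w b}, c ↦ class of Σ c p • P p. Then
L (u e) = T (w e), and by hind L is injective on the subspace {c | Σ c = 0}, which contains all u e. So on
subsets of M.E \ {b} T ∘ w and u_(ZMod 2) have the same independent sets, and by graph_indep these are the
independent sets of u_F. Finally repOver_of_repBy. regular_del_of_graph: the same with T = id,
RepBy.delete.
-/

/-- The common part of the two theorems. -/
theorem EORG2_key {V : Type*} [AddCommGroup V] [Module (ZMod 2) V] {N : Matroid α}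
    (hfin : N.E.Finite) {w : α → V} (hw : RepBy (ZMod 2) N w)
    {ι : Type*} [Fintype ι] (P : ι → V)
    (hedge : ∀ e ∈ N.E, ∃ p q : ι, w e = P p + P q)
    (hind : ∀ c : ι → ZMod 2, ∑ p, c p = 0 → ∑ p, c p • P p = 0 → c = 0) : Regular N := by
  classical
  intro F _
  have hne : N.E = ∅ ∨ Nonempty ι := by
    rcases N.E.eq_empty_or_nonempty with h | ⟨e, he⟩
    · exact Or.inl h
    · obtain ⟨p, _⟩ := hedge e he
      exact Or.inr ⟨p⟩
  rcases hne with h0 | hι
  · refine ⟨0, 0, fun I hI => ?_⟩
    have hI0 : I = ∅ := by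
      rw [h0] at hI
      exact Set.subset_eq_empty hI rfl
    rw [hI0]
    exact iff_of_true N.empty_indep (linearIndepOn_empty _ _)
  · have hpq : ∀ e, ∃ pq : ι × ι, e ∈ N.E → w e = P pq.1 + P pq.2 := by
      intro e
      by_cases he : e ∈ N.E
      · obtain ⟨p, q, h⟩ := hedge e he
        exact ⟨(p, q), fun _ => h⟩
      · exact ⟨(hι.some, hι.some), fun h => absurd h he⟩
    choose pq hpq using hpq
    set p : α → ι := fun e => (pq e).1 with hp
    set q : α → ι := fun e => (pq e).2 with hq
    refine repOver_of_repBy hfin (w := fun e => (Pi.single (p e) 1 - Pi.single (q e) 1 : ι → F)) ?_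
    intro I hI
    rw [hw I hI, graph_indep p q F (ZMod 2) I (hfin.subset hI)]
    set L : (ι → ZMod 2) →ₗ[ZMod 2] V := Fintype.linearCombination (ZMod 2) P with hL
    set u : α → ι → ZMod 2 := fun e => Pi.single (p e) 1 - Pi.single (q e) 1 with hu
    have hLu : ∀ e ∈ N.E, L (u e) = w e := by
      intro e he
      rw [hpq e he]
      have h2 : ∀ x y : V, x - y = x + y := by
        intro x y
        have h3 : y + y = 0 := by
          rw [← two_smul (ZMod 2) y, show (2 : ZMod 2) = 0 from rfl, zero_smul]
        rw [sub_eq_iff_eq_add, add_assoc, h3, add_zero]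
      rw [hu, hL, map_sub, Fintype.linearCombination_apply_single,
        Fintype.linearCombination_apply_single, one_smul, one_smul, h2]
    have hsum : ∀ c ∈ Submodule.span (ZMod 2) (u '' I), ∑ x, c x = 0 := by
      intro c hc
      induction hc using Submodule.span_induction with
      | mem t ht =>
        obtain ⟨e, _, rfl⟩ := ht
        simp [hu, Finset.sum_sub_distrib]
      | zero => simp
      | add t t' _ _ h h' => simp only [Pi.add_apply, Finset.sum_add_distrib, h, h', add_zero]
      | smul a t _ h => simp only [Pi.smul_apply, ← Finset.smul_sum, h, smul_zero]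
    have hinj : Set.InjOn L (Submodule.span (ZMod 2) (u '' I)) := by
      intro x hx y hy hxy
      have h1 := Submodule.sub_mem _ hx hy
      have h2 : L (x - y) = 0 := by rw [map_sub, hxy, sub_self]
      have h3 := hind (x - y) (hsum _ h1) (by
        rw [← h2, hL, Fintype.linearCombination_apply])
      exact sub_eq_zero.1 h3
    rw [← L.linearIndepOn_iff_of_injOn hinj]
    constructor
    · intro h
      exact h.congr fun e he => (hLu e (hI he)).symm
    · intro h
      exact h.congr fun e he => hLu e (hI he)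

theorem regular_con_of_graph {V : Type*} [AddCommGroup V] [Module (ZMod 2) V] {M : Matroid α}
    (hfin : M.E.Finite) {w : α → V} (hw : RepBy (ZMod 2) M w) {b : α} (hb : b ∈ M.E)
    {ι : Type*} [Fintype ι] (P : ι → V)
    (hedge : ∀ e ∈ M.E, e ≠ b → ∃ p q : ι, w e = P p + P q ∨ w e = P p + P q + w b)
    (hind : ∀ c : ι → ZMod 2, ∑ p, c p = 0 →
      (∑ p, c p • P p = 0 ∨ ∑ p, c p • P p = w b) → c = 0) : Regular (M ／ {b}) := by
  set S : Submodule (ZMod 2) V := Submodule.span (ZMod 2) {w b} with hS
  set T := S.mkQ with hT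
  have hTb : T (w b) = 0 := by
    rw [hT, Submodule.mkQ_apply, Submodule.Quotient.mk_eq_zero]
    exact Submodule.mem_span_singleton_self _
  have h1 : RepBy (ZMod 2) (M ／ {b} ＼ ∅) (T ∘ w) := by
    refine hw.contract_map (Set.singleton_subset_iff.2 hb) (Set.disjoint_empty _) T ?_ ?_
    · intro c hc
      rw [Set.mem_singleton_iff.1 hc]
      exact hTb
    · intro x _ hx
      rw [Set.image_singleton]
      rwa [hT, Submodule.mkQ_apply, Submodule.Quotient.mk_eq_zero] at hx
  rw [delete_empty] at h1
  refine EORG2_key (hfin.subset Set.sdiff_subset) h1 (fun p => T (P p)) ?_ ?_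
  · intro e he
    rw [contract_ground] at he
    obtain ⟨p, q, h⟩ := hedge e he.1 he.2
    refine ⟨p, q, ?_⟩
    rcases h with h | h
    · simp only [Function.comp, h, map_add]
    · simp only [Function.comp, h, map_add, hTb, add_zero]
  · intro c hc hc'
    refine hind c hc ?_
    have h2 : T (∑ p, c p • P p) = 0 := by
      rw [map_sum, ← hc']
      exact Finset.sum_congr rfl fun p _ => map_smul _ _ _
    rw [hT, Submodule.mkQ_apply, Submodule.Quotient.mk_eq_zero, hS,
      Submodule.mem_span_singleton] at h2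
    obtain ⟨r, hr⟩ := h2
    have h01 : ∀ x : ZMod 2, x = 0 ∨ x = 1 := by decide
    rcases h01 r with h | h
    · rw [h, zero_smul] at hr
      exact Or.inl hr.symm
    · rw [h, one_smul] at hr
      exact Or.inr hr.symm

theorem regular_del_of_graph {V : Type*} [AddCommGroup V] [Module (ZMod 2) V] {M : Matroid α}
    (hfin : M.E.Finite) {w : α → V} (hw : RepBy (ZMod 2) M w) {a : α}
    {ι : Type*} [Fintype ι] (P : ι → V)
    (hedge : ∀ e ∈ M.E, e ≠ a → ∃ p q : ι, w e = P p + P q)
    (hind : ∀ c : ι → ZMod 2, ∑ p, c p = 0 → ∑ p, c p • P p = 0 → c = 0) :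
    Regular (M ＼ {a}) := by
  refine EORG2_key (hfin.subset Set.sdiff_subset) (hw.delete {a}) P ?_ hind
  intro e he
  rw [delete_ground] at he
  exact hedge e he.1 he.2

/-- Chains are refined by a linear order. PLAIN WORDS: induction on |A|; or sort A by
f a = min {|W| : a ∈ W ∈ 𝒲} (and |A| + 1 if there is none) and number the elements. -/
theorem chain_order {A : Set α} (hA : A.Finite) (𝒲 : Set (Set α)) (hsub : ∀ W ∈ 𝒲, W ⊆ A)
    (hch : ∀ W ∈ 𝒲, ∀ W' ∈ 𝒲, W ⊆ W' ∨ W' ⊆ W) :
    ∃ ρ : α → ℕ, BijOn ρ A (Set.Iio A.ncard) ∧ ∀ W ∈ 𝒲, W = {a | a ∈ A ∧ ρ a < W.ncard} := by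
  classical
  obtain ⟨n, hn⟩ : ∃ n, A.ncard = n := ⟨_, rfl⟩
  induction n generalizing A 𝒲 with
  | zero =>
    have hA0 : A = ∅ := (Set.ncard_eq_zero hA).1 hn
    refine ⟨fun _ => 0, ?_, ?_⟩
    · rw [hn, hA0]
      simp
    · intro W hW
      have h1 : W = ∅ := Set.subset_eq_empty (hsub W hW) hA0
      rw [h1]
      simp
  | succ n ih =>
    -- an element outside all proper members
    have hex : ∃ a₀ ∈ A, ∀ W ∈ 𝒲, W ≠ A → a₀ ∉ W := by
      set 𝒰 : Set (Set α) := {W | W ∈ 𝒲 ∧ W ≠ A} with h𝒰
      have hfin : 𝒰.Finite := hA.finite_subsets.subset fun W hW => hsub W hW.1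
      rcases 𝒰.eq_empty_or_nonempty with h | h
      · have hAne : A.Nonempty := by
          rw [← Set.ncard_pos hA, hn]
          omega
        obtain ⟨a, ha⟩ := hAne
        refine ⟨a, ha, fun W hW hWA _ => ?_⟩
        have : W ∈ 𝒰 := ⟨hW, hWA⟩
        rw [h] at this
        exact this
      · obtain ⟨W, hW⟩ := hfin.exists_maximal h
        have hss : W ⊂ A := lt_of_le_of_ne (hsub W hW.1.1) hW.1.2
        obtain ⟨a, ha, haW⟩ := Set.exists_of_ssubset hss
        refine ⟨a, ha, fun W' hW' hWA haW' => haW ?_⟩
        rcases hch W' hW' W hW.1.1 with h1 | h1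
        · exact h1 haW'
        · exact hW.2 ⟨hW', hWA⟩ h1 haW'
    obtain ⟨a₀, ha₀, hout⟩ := hex
    have hA'n : (A \ {a₀}).ncard = n := by
      rw [Set.ncard_sdiff_singleton_of_mem ha₀, hn]
      rfl
    obtain ⟨ρ, hρ, hρW⟩ := ih (A := A \ {a₀}) (hA.subset Set.sdiff_subset)
      {W | W ∈ 𝒲 ∧ W ≠ A} (fun W hW x hx => ⟨hsub W hW.1 hx, fun h =>
        hout W hW.1 hW.2 (Set.mem_singleton_iff.1 h ▸ hx)⟩)
      (fun W hW W' hW' => hch W hW.1 W' hW'.1) hA'n
    rw [hA'n] at hρ
    refine ⟨fun a => if a = a₀ then n else ρ a, ?_, ?_⟩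
    · rw [hn]
      refine ⟨?_, ?_, ?_⟩
      · intro a ha
        by_cases h : a = a₀
        · simp [h]
        · have := hρ.mapsTo (show a ∈ A \ {a₀} from ⟨ha, h⟩)
          simp only [h, if_false, Set.mem_Iio] at this ⊢
          omega
      · intro a ha a' ha' haa
        by_cases h : a = a₀ <;> by_cases h' : a' = a₀
        · rw [h, h']
        · have := hρ.mapsTo (show a' ∈ A \ {a₀} from ⟨ha', h'⟩)
          simp only [h, h', if_true, if_false, Set.mem_Iio] at haa this
          omega
        · have := hρ.mapsTo (show a ∈ A \ {a₀} from ⟨ha, h⟩)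
          simp only [h, h', if_true, if_false, Set.mem_Iio] at haa this
          omega
        · simp only [h, h', if_false] at haa
          exact hρ.injOn ⟨ha, h⟩ ⟨ha', h'⟩ haa
      · intro m hm
        rw [Set.mem_Iio] at hm
        by_cases hmn : m = n
        · exact ⟨a₀, ha₀, by simp [hmn]⟩
        · obtain ⟨a, ha, ham⟩ := hρ.surjOn (show m ∈ Set.Iio n from by
            rw [Set.mem_Iio]; omega)
          refine ⟨a, ha.1, ?_⟩
          have : a ≠ a₀ := ha.2
          simp [this, ham]
    · intro W hW
      by_cases hWA : W = A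
      · rw [hWA, hn]
        ext a
        simp only [Set.mem_ofPred_eq]
        constructor
        · intro ha
          refine ⟨ha, ?_⟩
          by_cases h : a = a₀
          · simp [h]
          · have := hρ.mapsTo (show a ∈ A \ {a₀} from ⟨ha, h⟩)
            simp only [h, if_false, Set.mem_Iio] at this ⊢
            omega
        · exact fun h => h.1
      · have h1 := hρW W ⟨hW, hWA⟩
        have hWn : W.ncard ≤ n := by
          rw [← hA'n]
          refine Set.ncard_le_ncard ?_ (hA.subset Set.sdiff_subset)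
          intro x hx
          exact ⟨hsub W hW hx, fun h => hout W hW hWA (Set.mem_singleton_iff.1 h ▸ hx)⟩
        ext a
        have h2 : a ∈ W ↔ a ∈ A \ {a₀} ∧ ρ a < W.ncard := by
          constructor
          · intro ha
            rw [h1] at ha
            exact ha
          · intro ha
            rw [h1]
            exact ha
        rw [h2]
        simp only [Set.mem_ofPred_eq, Set.mem_sdiff, Set.mem_singleton_iff]
        constructor
        · rintro ⟨⟨h3, h4⟩, h5⟩
          exact ⟨h3, by simpa [h4] using h5⟩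
        · rintro ⟨h3, h4⟩
          by_cases h : a = a₀
          · simp only [h, if_true] at h4
            omega
          · simp only [h, if_false] at h4
            exact ⟨⟨h3, h⟩, h4⟩

end Pool.Agent.Helper43_EOR
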