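import Mathlib
import Pool.Agent.Helper43_EOR.G2

set_option autoImplicit false

namespace Pool.Agent.Helper43_EOR

open Set Matroid

variable {α : Type*}


/-
JOB GT (type T gives regular minors). U b = A \ Y b. From τ: for every b ∈ B the set U b is contained in one class
A_i = {a ∈ A | τ a = i} (if a, a' ∈ U b then τ a = τ a'), and for b, b' ∈ B with U b, U b' ⊆ A_i the sets are
nested (rows of one class are nested: if a ∈ U b \ U b', a' ∈ U b' \ U b, both in A_i, then a ∉ Y b, a ∈ Y b',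
a' ∈ Y b, a' ∉ Y b', contradicting the first alternative at b' and the second one at b ...).
con: b0 ∈ B, U b0 ⊆ A_1 (call the class of b0 the class 1, the others 2, 3; if U b0 = ∅ any class). The following sets form a
chain: U b for U b ⊆ U b0; U b0 ∪ U b for U b ⊆ A_2; U b0 ∪ A_2 ∪ U b for b with U b ⊆ A_1 and U b ⊇ U b0; A \ U b for
U b ⊆ A_3; also U b0, U b0 ∪ A_2, ∅ and A. Take ρ from chain_order for them. Vertices: all [0,n), 0 ≤ n ≤ m, where
[0,m) = A is identified with U b0 = [0,n0) (A + U b0 = Y b0 = w b0): so the vertices are [0,n), 0 ≤ n < m (and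
if m = 0 one vertex). Elements: a = [0,ρ a) + [0,ρ a + 1). Y b = A + U b = U b0 + U b (mod w b0): for the four kinds this is
[0,n) + [0,n0); [0,0) + [0,n); [0,n) + (U b0 ∪ A_2); (A \ U b) + (A \ U b0) = [0,n) + U b0 + A, which mod w b0 is [0,n) + [0,0).
Kernel: a combination of the vertices n < m with Σ c = 0 which is 0 or Y b0 = [n0,m): if n0 < m the last
element (ρ = m-1) is in none of the [0,n), n < m, so it is not Y b0, unless Y b0 = ∅, then it is 0 as well.
del: a0 ∈ A, class 1 the class of a0. Order every class A_i by chain_order for the sets U b ⊆ A_i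
(denote [0,n)_i the initial segments), and let j be the position of a0 in A_1, m_i = |A_i|. Vertices: [0,n)_1
for 0 ≤ n ≤ j; [0,n)_2 and [0,n)_3, 1 ≤ n ≤ m_i; A_3 ∪ (A_1 \ [0,n)_1) for j < n ≤ m_1 (for n = m_1 this is A_3, already
there); A. Elements: a ≠ a0: difference of consecutive vertices; Y b = A + U b: if U b = [0,n)_2, [0,n)_3 or
[0,n)_1 with n ≤ j: A + the vertex; if U b = [0,n)_1 with n > j: Y b = A_2 + (A_3 ∪ (A_1 \ [0,n)_1)).
Independence: a0 occurs only in the vertex A.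
-/

section gt

/-- characteristic vectors -/
noncomputable def gtχ (S : Set α) : (α → ZMod 2) × (Fin 0 → ZMod 2) := (S.indicator 1, 0)

theorem gtχ_apply (S : Set α) (x : α) [Decidable (x ∈ S)] : (gtχ S).1 x = if x ∈ S then 1 else 0 := by
  show S.indicator (1 : α → ZMod 2) x = _
  rw [Set.indicator_apply]
  simp only [Pi.one_apply]

theorem gt_three : ∀ i₁ : Fin 3, ∃ i₂ i₃ : Fin 3, i₁ ≠ i₂ ∧ i₁ ≠ i₃ ∧ i₂ ≠ i₃ ∧
    ∀ i, i = i₁ ∨ i = i₂ ∨ i = i₃ := by decide

theorem gtχ_add (S T : Set α) : gtχ S + gtχ T = gtχ (symmDiff S T) := by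
  classical
  refine Prod.ext ?_ (Subsingleton.elim _ _)
  funext x
  rw [Prod.fst_add, Pi.add_apply, gtχ_apply, gtχ_apply, gtχ_apply]
  by_cases h1 : x ∈ S <;> by_cases h2 : x ∈ T <;> simp [Set.mem_symmDiff, h1, h2]
  decide

theorem gtχ_empty : gtχ (∅ : Set α) = 0 := by
  refine Prod.ext ?_ (Subsingleton.elim _ _)
  funext x
  show (∅ : Set α).indicator (1 : α → ZMod 2) x = 0
  simp

theorem gt_bvec_mem {A : Set α} {Y : α → Set α} {t : α → Fin 0 → ZMod 2} {e : α} (he : e ∈ A) :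
    bvec A Y t e = gtχ {e} := by
  classical
  unfold bvec
  rw [if_pos he]
  refine Prod.ext ?_ (Subsingleton.elim _ _)
  funext x
  rw [gtχ_apply]
  show (Pi.single e 1 : α → ZMod 2) x = _
  rw [Pi.single_apply]
  simp only [Set.mem_singleton_iff]

theorem gt_bvec_notMem {A : Set α} {Y : α → Set α} {t : α → Fin 0 → ZMod 2} {e : α} (he : e ∉ A) :
    bvec A Y t e = gtχ (Y e) := by
  unfold bvec
  rw [if_neg he]
  exact Prod.ext rfl (Subsingleton.elim _ _)

theorem gt_bvec_compl {A : Set α} {Y : α → Set α} {t : α → Fin 0 → ZMod 2} {e : α} (he : e ∉ A)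
    (hY : Y e ⊆ A) : bvec A Y t e = gtχ A + gtχ (A \ Y e) := by
  rw [gt_bvec_notMem he, gtχ_add]
  congr 1
  ext x
  have := @hY x
  simp only [Set.mem_symmDiff, Set.mem_sdiff]
  tauto

/-- triangular families are independent -/
theorem gt_li {ι κ : Type*} [Fintype ι] (Q : ι → κ → ZMod 2) (x : ι → κ) (σ : ι → ℕ)
    (h1 : ∀ i, Q i (x i) = 1) (h2 : ∀ i i', i ≠ i' → Q i' (x i) ≠ 0 → σ i' < σ i)
    (c : ι → ZMod 2) (hc : ∀ i, ∑ i', c i' * Q i' (x i) = 0) : ∀ i, c i = 0 := by
  classical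
  have key : ∀ n i, σ i = n → c i = 0 := by
    intro n
    induction n using Nat.strong_induction_on with
    | _ n ih =>
      intro i hi
      have h3 := hc i
      rw [Finset.sum_eq_single i] at h3
      · rwa [h1, mul_one] at h3
      · intro i' _ hne
        by_cases hq : Q i' (x i) = 0
        · rw [hq, mul_zero]
        · rw [ih (σ i') (hi ▸ h2 i i' hne.symm hq) i' rfl, zero_mul]
      · intro h
        exact absurd (Finset.mem_univ i) h
  exact fun i => key _ i rfl

/-- vertices: the origin and the vectors of a family -/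
noncomputable def gtP {ι : Type*} (Q : ι → Set α) : Option ι → (α → ZMod 2) × (Fin 0 → ZMod 2)
  | none => 0
  | some i => gtχ (Q i)

theorem gt_sum {ι : Type*} [Fintype ι] (Q : ι → Set α) (c : Option ι → ZMod 2) (x : α) :
    (∑ p, c p • gtP Q p).1 x = ∑ i, c (some i) * (gtχ (Q i)).1 x := by
  rw [Fintype.sum_option]
  simp only [gtP, smul_zero, zero_add]
  rw [Prod.fst_sum, Finset.sum_apply]
  refine Finset.sum_congr rfl fun i _ => ?_
  rw [Prod.smul_fst, Pi.smul_apply, smul_eq_mul]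

theorem gt_hind {ι : Type*} [Fintype ι] (Q : ι → Set α) (x : ι → α) (σ : ι → ℕ)
    (h1 : ∀ i, x i ∈ Q i) (h2 : ∀ i i', i ≠ i' → x i ∈ Q i' → σ i' < σ i)
    (c : Option ι → ZMod 2) (hs : ∑ p, c p = 0) (h0 : ∑ p, c p • gtP Q p = 0) : c = 0 := by
  classical
  have key := gt_li (fun i => (gtχ (Q i)).1) x σ (fun i => by rw [gtχ_apply, if_pos (h1 i)])
    (fun i i' hne hq => h2 i i' hne (by
      by_contra h
      rw [gtχ_apply, if_neg h] at hq
      exact hq rfl)) (fun i => c (some i)) (fun i => by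
        rw [← gt_sum, h0]
        rfl)
  funext p
  cases p with
  | some i => exact key i
  | none =>
    rw [Fintype.sum_option] at hs
    simpa [key] using hs

/-- initial segments of an order -/
def gtI (A : Set α) (ρ : α → ℕ) (n : ℕ) : Set α := {a | a ∈ A ∧ ρ a < n}

theorem gtI_zero (A : Set α) (ρ : α → ℕ) : gtI A ρ 0 = ∅ := by
  ext x; simp [gtI]

theorem gtI_full {A : Set α} {ρ : α → ℕ} (hρ : BijOn ρ A (Set.Iio A.ncard)) :
    gtI A ρ A.ncard = A := by
  ext x
  exact ⟨fun h => h.1, fun h => ⟨h, hρ.mapsTo h⟩⟩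

theorem gtI_step {A : Set α} {ρ : α → ℕ} (hρ : BijOn ρ A (Set.Iio A.ncard)) {e : α} (he : e ∈ A) :
    gtχ {e} = gtχ (gtI A ρ (ρ e)) + gtχ (gtI A ρ (ρ e + 1)) := by
  rw [gtχ_add]
  congr 1
  ext x
  simp only [gtI, Set.mem_symmDiff, Set.mem_ofPred_eq, Set.mem_singleton_iff]
  constructor
  · rintro rfl
    exact Or.inr ⟨⟨he, by omega⟩, fun h => by omega⟩
  · rintro (⟨⟨h1, h2⟩, h3⟩ | ⟨⟨h1, h2⟩, h3⟩)
    · exact absurd ⟨h1, by omega⟩ h3
    · have : ρ x = ρ e := by
        by_contra hne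
        exact h3 ⟨h1, by omega⟩
      exact hρ.injOn h1 he this

/-- the graph of a path -/
theorem gt_chain_con {M : Matroid α} (hfin : M.E.Finite)
    {w : α → (α → ZMod 2) × (Fin 0 → ZMod 2)} (hw : RepBy (ZMod 2) M w) {b : α} (hb : b ∈ M.E)
    {A : Set α} {ρ : α → ℕ} (hρ : BijOn ρ A (Set.Iio A.ncard)) {n₀ : ℕ}
    (hn₀ : n₀ ≤ A.ncard) (hwb : w b = gtχ A + gtχ (gtI A ρ n₀))
    (hedge : ∀ e ∈ M.E, e ≠ b → ∃ p q, p ≤ A.ncard ∧ q ≤ A.ncard ∧
      (w e = gtχ (gtI A ρ p) + gtχ (gtI A ρ q) ∨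
        w e = gtχ (gtI A ρ p) + gtχ (gtI A ρ q) + w b)) : Regular (M ／ {b}) := by
  classical
  set m := A.ncard with hm
  have hbb : ∀ v : (α → ZMod 2) × (Fin 0 → ZMod 2), v + v = 0 := by
    intro v
    refine Prod.ext ?_ (Subsingleton.elim _ _)
    funext x
    exact CharTwo.add_self_eq_zero _
  -- the element of a given rank
  have hex : ∀ i : ℕ, ∃ a, i < m → a ∈ A ∧ ρ a = i := by
    intro i
    by_cases hi : i < m
    · obtain ⟨a, ha, hai⟩ := hρ.surjOn (show i ∈ Set.Iio m from hi)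
      exact ⟨a, fun _ => ⟨ha, hai⟩⟩
    · exact ⟨b, fun h => absurd h hi⟩
  choose el hel using hex
  -- vertices up to `k`
  have hvert : ∀ k : ℕ, ∀ n ≤ k, ∃ p : Option (Fin k),
      gtP (fun i : Fin k => gtI A ρ (i + 1)) p = gtχ (gtI A ρ n) := by
    intro k n hn
    rcases Nat.eq_zero_or_pos n with rfl | hpos
    · exact ⟨none, by rw [gtI_zero, gtχ_empty]; rfl⟩
    · refine ⟨some ⟨n - 1, by omega⟩, ?_⟩
      show gtχ (gtI A ρ (n - 1 + 1)) = _
      rw [Nat.sub_add_cancel hpos]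
  have hindk : ∀ k ≤ m, ∀ c : Option (Fin k) → ZMod 2, ∑ p, c p = 0 →
      ∑ p, c p • gtP (fun i : Fin k => gtI A ρ (i + 1)) p = 0 → c = 0 := by
    intro k hk c hs h0
    refine gt_hind _ (fun i : Fin k => el i) (fun i => k - i) (fun i => ?_) (fun i i' hne hi => ?_)
      c hs h0
    · have := hel i (by omega)
      exact ⟨this.1, by omega⟩
    · have := hel i (by omega)
      have h2 : ρ (el i) < i' + 1 := hi.2
      have h3 : (i : ℕ) ≠ i' := fun h => hne (Fin.ext h)
      have := i'.2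
      omega
  rcases eq_or_lt_of_le hn₀ with h | h
  · -- `b` is a loop
    have hwb0 : w b = 0 := by rw [hwb, h, gtI_full hρ, hbb]
    refine regular_con_of_graph hfin hw hb (gtP (fun i : Fin m => gtI A ρ (i + 1))) ?_ ?_
    · intro e he hne
      obtain ⟨p, q, hp, hq, h1⟩ := hedge e he hne
      obtain ⟨p', hp'⟩ := hvert m p hp
      obtain ⟨q', hq'⟩ := hvert m q hq
      exact ⟨p', q', by rw [hp', hq']; exact h1⟩
    · intro c hs h0
      refine hindk m le_rfl c hs ?_
      rcases h0 with h0 | h0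
      · exact h0
      · rw [h0, hwb0]
  · have hm1 : 0 < m := by omega
    refine regular_con_of_graph hfin hw hb (gtP (fun i : Fin (m - 1) => gtI A ρ (i + 1))) ?_ ?_
    · -- every vertex is a vertex of the smaller family, up to `w b`
      have hred : ∀ p ≤ m, ∃ p' : Option (Fin (m - 1)),
          gtχ (gtI A ρ p) = gtP (fun i : Fin (m - 1) => gtI A ρ (i + 1)) p' ∨
          gtχ (gtI A ρ p) = gtP (fun i : Fin (m - 1) => gtI A ρ (i + 1)) p' + w b := by
        intro p hp
        rcases eq_or_lt_of_le hp with rfl | hlt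
        · obtain ⟨p', hp'⟩ := hvert (m - 1) n₀ (by omega)
          refine ⟨p', Or.inr ?_⟩
          rw [hp', hwb, gtI_full hρ, add_left_comm, hbb, add_zero]
        · obtain ⟨p', hp'⟩ := hvert (m - 1) p (by omega)
          exact ⟨p', Or.inl hp'.symm⟩
      intro e he hne
      obtain ⟨p, q, hp, hq, h1⟩ := hedge e he hne
      obtain ⟨p', hp'⟩ := hred p hp
      obtain ⟨q', hq'⟩ := hred q hq
      refine ⟨p', q', ?_⟩
      have hcomb : ∀ u v : (α → ZMod 2) × (Fin 0 → ZMod 2), u + w b + (v + w b) = u + v := by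
        intro u v
        rw [add_add_add_comm, hbb, add_zero]
      have hcomb1 : ∀ u v : (α → ZMod 2) × (Fin 0 → ZMod 2), u + w b + v = u + v + w b := by
        intro u v
        rw [add_right_comm]
      have hcomb2 : ∀ u : (α → ZMod 2) × (Fin 0 → ZMod 2), u + w b + w b = u := by
        intro u
        rw [add_assoc, hbb, add_zero]
      rcases hp' with hp' | hp' <;> rcases hq' with hq' | hq' <;> rw [hp', hq'] at h1 <;>
        rcases h1 with h1 | h1
      · exact Or.inl h1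
      · exact Or.inr h1
      · right; rw [h1, add_assoc]
      · left; rw [h1, ← add_assoc, hcomb2]
      · right; rw [h1, hcomb1]
      · left; rw [h1, hcomb1, hcomb2]
      · left; rw [h1, hcomb]
      · right; rw [h1, hcomb]
    · intro c hs h0
      refine hindk (m - 1) (by omega) c hs ?_
      rcases h0 with h0 | h0
      · exact h0
      · exfalso
        obtain ⟨hl1, hl2⟩ := hel (m - 1) (by omega)
        have h1 := gt_sum (fun i : Fin (m - 1) => gtI A ρ (i + 1)) c (el (m - 1))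
        rw [h0, hwb, gtχ_add, gtχ_apply, if_pos, Finset.sum_eq_zero] at h1
        · exact one_ne_zero h1
        · intro i _
          rw [gtχ_apply, if_neg, mul_zero]
          intro hi
          have := hi.2
          have := i.2
          omega
        · rw [Set.mem_symmDiff]
          exact Or.inl ⟨hl1, fun hh => by have := hh.2; omega⟩

/-- consequences of type T -/
theorem gt_class {A B : Set α} {Y : α → Set α} {τ : α → Fin 3}
    (hτ : ∀ a ∈ A, ∀ a' ∈ A,
      (τ a = τ a' → (∀ b ∈ B, a ∈ Y b → a' ∈ Y b) ∨ (∀ b ∈ B, a' ∈ Y b → a ∈ Y b)) ∧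
      (τ a ≠ τ a' → ∀ b ∈ B, a ∈ Y b ∨ a' ∈ Y b)) {b : α} (hb : b ∈ B) :
    ∃ i, ∀ a ∈ A \ Y b, τ a = i := by
  by_cases h : ∃ a, a ∈ A \ Y b
  · obtain ⟨a, ha⟩ := h
    refine ⟨τ a, fun a' ha' => ?_⟩
    by_contra hne
    rcases (hτ a' ha'.1 a ha.1).2 hne b hb with h1 | h1
    · exact ha'.2 h1
    · exact ha.2 h1
  · push Not at h
    exact ⟨0, fun a ha => absurd ha (h a)⟩

theorem gt_nested {A B : Set α} {Y : α → Set α} {τ : α → Fin 3}
    (hτ : ∀ a ∈ A, ∀ a' ∈ A,
      (τ a = τ a' → (∀ b ∈ B, a ∈ Y b → a' ∈ Y b) ∨ (∀ b ∈ B, a' ∈ Y b → a ∈ Y b)) ∧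
      (τ a ≠ τ a' → ∀ b ∈ B, a ∈ Y b ∨ a' ∈ Y b)) {b b' : α} (hb : b ∈ B) (hb' : b' ∈ B)
    {i : Fin 3} (h1 : ∀ a ∈ A \ Y b, τ a = i) (h2 : ∀ a ∈ A \ Y b', τ a = i) :
    A \ Y b ⊆ A \ Y b' ∨ A \ Y b' ⊆ A \ Y b := by
  by_contra hcon
  push Not at hcon
  obtain ⟨hn1, hn2⟩ := hcon
  rw [Set.not_subset] at hn1 hn2
  obtain ⟨a, ha, ha'⟩ := hn1
  obtain ⟨c, hc, hc'⟩ := hn2
  have haY : a ∈ Y b' := by
    by_contra hh
    exact ha' ⟨ha.1, hh⟩
  have hcY : c ∈ Y b := by
    by_contra hh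
    exact hc' ⟨hc.1, hh⟩
  rcases (hτ a ha.1 c hc.1).1 ((h1 a ha).trans (h2 c hc).symm) with h | h
  · exact hc.2 (h b' hb' haY)
  · exact ha.2 (h b hb hcY)

end gt


theorem typeT_con {M : Matroid α} {A B : Set α} (hfin : M.E.Finite) (hAB : A ∪ B = M.E)
    (hd : Disjoint A B) (h : TypeT M A B) {b : α} (hb : b ∈ B) : Regular (M ／ {b}) := by
  classical
  obtain ⟨Y, t, ⟨hYA, hrep⟩, τ, hτ⟩ := h
  have hA : A.Finite := hfin.subset (hAB ▸ Set.subset_union_left)
  have hBA : ∀ {e}, e ∈ B → e ∉ A := fun he hA' => hd.le_bot ⟨hA', he⟩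
  have hw : RepBy (ZMod 2) M (bvec A Y t) := fun I hI => hrep I (hAB ▸ hI)
  obtain ⟨i₁, hi₁⟩ := gt_class hτ hb
  obtain ⟨i₂, i₃, h12, h13, h23, hcov⟩ := gt_three i₁
  set U₀ : Set α := A \ Y b with hU₀
  set A₂ : Set α := {a | a ∈ A ∧ τ a = i₂} with hA₂
  -- the four kinds
  let K1 : α → Set α → Prop := fun e W => A \ Y e ⊆ U₀ ∧ W = A \ Y e
  let K2 : α → Set α → Prop := fun e W => (∀ a ∈ A \ Y e, τ a = i₂) ∧ W = U₀ ∪ (A \ Y e)
  let K3 : α → Set α → Prop := fun e W => (∀ a ∈ A \ Y e, τ a = i₁) ∧ U₀ ⊆ A \ Y e ∧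
    W = (A \ Y e) ∪ A₂
  let K4 : α → Set α → Prop := fun e W => (∀ a ∈ A \ Y e, τ a = i₃) ∧ W = Y e
  have hkind : ∀ e ∈ B, ∃ W, K1 e W ∨ K2 e W ∨ K3 e W ∨ K4 e W := by
    intro e he
    obtain ⟨i, hi⟩ := gt_class hτ he
    rcases hcov i with rfl | rfl | rfl
    · rcases gt_nested hτ he hb hi hi₁ with h | h
      · exact ⟨_, Or.inl ⟨h, rfl⟩⟩
      · exact ⟨_, Or.inr (Or.inr (Or.inl ⟨hi, h, rfl⟩))⟩
    · exact ⟨_, Or.inr (Or.inl ⟨hi, rfl⟩)⟩
    · exact ⟨_, Or.inr (Or.inr (Or.inr ⟨hi, rfl⟩))⟩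
  have s12 : ∀ e W e' W', K1 e W → K2 e' W' → W ⊆ W' := by
    rintro e _ e' _ ⟨h1, rfl⟩ ⟨-, rfl⟩
    exact h1.trans Set.subset_union_left
  have s13 : ∀ e W e' W', K1 e W → K3 e' W' → W ⊆ W' := by
    rintro e _ e' _ ⟨h1, rfl⟩ ⟨-, h2, rfl⟩
    exact (h1.trans h2).trans Set.subset_union_left
  have s14 : ∀ e W e' W', K1 e W → K4 e' W' → W ⊆ W' := by
    rintro e _ e' _ ⟨h1, rfl⟩ ⟨h2, rfl⟩ x hx
    by_contra hcon
    exact h13 ((hi₁ x (h1 hx)).symm.trans (h2 x ⟨hx.1, hcon⟩))
  have s23 : ∀ e W e' W', K2 e W → K3 e' W' → W ⊆ W' := by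
    rintro e _ e' _ ⟨h1, rfl⟩ ⟨-, h2, rfl⟩ x hx
    rcases hx with hx | hx
    · exact Or.inl (h2 hx)
    · exact Or.inr ⟨hx.1, h1 x hx⟩
  have s24 : ∀ e W e' W', K2 e W → K4 e' W' → W ⊆ W' := by
    rintro e _ e' _ ⟨h1, rfl⟩ ⟨h2, rfl⟩ x hx
    by_contra hcon
    rcases hx with hx | hx
    · exact h13 ((hi₁ x hx).symm.trans (h2 x ⟨hx.1, hcon⟩))
    · exact h23 ((h1 x hx).symm.trans (h2 x ⟨hx.1, hcon⟩))
  have s34 : ∀ e W e' W', K3 e W → K4 e' W' → W ⊆ W' := by
    rintro e _ e' _ ⟨h1, -, rfl⟩ ⟨h2, rfl⟩ x hx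
    by_contra hcon
    rcases hx with hx | hx
    · exact h13 ((h1 x hx).symm.trans (h2 x ⟨hx.1, hcon⟩))
    · exact h23 (hx.2.symm.trans (h2 x ⟨hx.1, hcon⟩))
  obtain ⟨ρ, hρ, hseg⟩ := chain_order hA
    {W | ∃ e ∈ B, K1 e W ∨ K2 e W ∨ K3 e W ∨ K4 e W} (by
      rintro W ⟨e, he, h | h | h | h⟩
      · rw [h.2]; exact Set.sdiff_subset
      · rw [h.2]; exact Set.union_subset Set.sdiff_subset Set.sdiff_subset
      · rw [h.2.2]; exact Set.union_subset Set.sdiff_subset fun x hx => hx.1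
      · rw [h.2]; exact hYA e he) (by
      rintro W ⟨e, he, h | h | h | h⟩ W' ⟨e', he', h' | h' | h' | h'⟩
      · have := gt_nested hτ he he' (fun a ha => hi₁ a (h.1 ha)) (fun a ha => hi₁ a (h'.1 ha))
        rw [h.2, h'.2]; exact this
      · exact Or.inl (s12 _ _ _ _ h h')
      · exact Or.inl (s13 _ _ _ _ h h')
      · exact Or.inl (s14 _ _ _ _ h h')
      · exact Or.inr (s12 _ _ _ _ h' h)
      · rw [h.2, h'.2]
        exact (gt_nested hτ he he' h.1 h'.1).imp (Set.union_subset_union_right _)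
          (Set.union_subset_union_right _)
      · exact Or.inl (s23 _ _ _ _ h h')
      · exact Or.inl (s24 _ _ _ _ h h')
      · exact Or.inr (s13 _ _ _ _ h' h)
      · exact Or.inr (s23 _ _ _ _ h' h)
      · rw [h.2.2, h'.2.2]
        exact (gt_nested hτ he he' h.1 h'.1).imp (Set.union_subset_union_left _)
          (Set.union_subset_union_left _)
      · exact Or.inl (s34 _ _ _ _ h h')
      · exact Or.inr (s14 _ _ _ _ h' h)
      · exact Or.inr (s24 _ _ _ _ h' h)
      · exact Or.inr (s34 _ _ _ _ h' h)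
      · rw [h.2, h'.2]
        rcases gt_nested hτ he he' h.1 h'.1 with h1 | h1
        · right
          intro x hx
          by_contra hcon
          exact (h1 ⟨hYA e' he' hx, hcon⟩).2 hx
        · left
          intro x hx
          by_contra hcon
          exact (h1 ⟨hYA e he hx, hcon⟩).2 hx)
  have hseg' : ∀ W e, e ∈ B → (K1 e W ∨ K2 e W ∨ K3 e W ∨ K4 e W) → W = gtI A ρ W.ncard :=
    fun W e he hK => hseg W ⟨e, he, hK⟩
  have hcard : ∀ W : Set α, W ⊆ A → W.ncard ≤ A.ncard := fun W hW => Set.ncard_le_ncard hW hA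
  have hU₀s : U₀ = gtI A ρ U₀.ncard := hseg' U₀ b hb (Or.inl ⟨subset_rfl, rfl⟩)
  have hU₂s : U₀ ∪ A₂ = gtI A ρ (U₀ ∪ A₂).ncard :=
    hseg' _ b hb (Or.inr (Or.inr (Or.inl ⟨hi₁, subset_rfl, rfl⟩)))
  have hU₀A : U₀ ⊆ A := Set.sdiff_subset
  have hU₂A : U₀ ∪ A₂ ⊆ A := Set.union_subset hU₀A fun x hx => hx.1
  have hwb : bvec A Y t b = gtχ A + gtχ U₀ := gt_bvec_compl (hBA hb) (hYA b hb)
  refine gt_chain_con hfin hw (by rw [← hAB]; exact Or.inr hb) hρ (hcard U₀ hU₀A) (by rw [← hU₀s]; exact hwb) ?_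
  intro e he hne
  rw [← hAB] at he
  rcases he with he | he
  · refine ⟨ρ e, ρ e + 1, ?_, ?_, Or.inl ?_⟩
    · exact (hρ.mapsTo he).le
    · exact hρ.mapsTo he
    · rw [gt_bvec_mem he]
      exact gtI_step hρ he
  · obtain ⟨W, hW⟩ := hkind e he
    have hWs := hseg' W e he hW
    rcases hW with hW | hW | hW | hW
    · refine ⟨U₀.ncard, W.ncard, hcard _ hU₀A, hcard _ (by rw [hW.2]; exact Set.sdiff_subset),
        Or.inr ?_⟩
      rw [← hWs, ← hU₀s, gt_bvec_compl (hBA he) (hYA e he), hwb, hW.2]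
      simp only [gtχ_add]
      congr 1
      ext x
      simp only [Set.mem_symmDiff]
      tauto
    · refine ⟨0, W.ncard, Nat.zero_le _, hcard _ (by
        rw [hW.2]; exact Set.union_subset hU₀A Set.sdiff_subset), Or.inr ?_⟩
      rw [← hWs, gtI_zero, gtχ_empty, zero_add, gt_bvec_compl (hBA he) (hYA e he), hwb, hW.2]
      simp only [gtχ_add]
      congr 1
      ext x
      have hx1 : x ∈ U₀ → ¬ x ∈ A \ Y e := fun h1 h2 => h12 ((hi₁ x h1).symm.trans (hW.1 x h2))
      simp only [Set.mem_symmDiff, Set.mem_union]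
      tauto
    · refine ⟨W.ncard, (U₀ ∪ A₂).ncard, hcard _ (by
        rw [hW.2.2]; exact Set.union_subset Set.sdiff_subset fun x hx => hx.1), hcard _ hU₂A,
        Or.inr ?_⟩
      rw [← hWs, ← hU₂s, gt_bvec_compl (hBA he) (hYA e he), hwb, hW.2.2]
      simp only [gtχ_add]
      congr 1
      ext x
      have hx1 : x ∈ U₀ → ¬ x ∈ A₂ := fun h1 h2 => h12 ((hi₁ x h1).symm.trans h2.2)
      have hx2 : x ∈ A \ Y e → ¬ x ∈ A₂ := fun h1 h2 => h12 ((hW.1 x h1).symm.trans h2.2)
      simp only [Set.mem_symmDiff, Set.mem_union]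
      tauto
    · refine ⟨0, W.ncard, Nat.zero_le _, hcard _ (by rw [hW.2]; exact hYA e he), Or.inl ?_⟩
      rw [← hWs, gtI_zero, gtχ_empty, zero_add, gt_bvec_notMem (hBA he), hW.2]

theorem typeT_del {M : Matroid α} {A B : Set α} (hfin : M.E.Finite) (hAB : A ∪ B = M.E)
    (hd : Disjoint A B) (h : TypeT M A B) {a : α} (ha : a ∈ A) : Regular (M ＼ {a}) := by
  classical
  obtain ⟨Y, t, ⟨hYA, hrep⟩, τ, hτ⟩ := h
  have hA : A.Finite := hfin.subset (hAB ▸ Set.subset_union_left)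
  have hBA : ∀ {e}, e ∈ B → e ∉ A := fun he hA' => hd.le_bot ⟨hA', he⟩
  have hw : RepBy (ZMod 2) M (bvec A Y t) := fun I hI => hrep I (hAB ▸ hI)
  -- orders of the classes
  have hord : ∀ i : Fin 3, ∃ ρ : α → ℕ,
      BijOn ρ {x | x ∈ A ∧ τ x = i} (Set.Iio {x | x ∈ A ∧ τ x = i}.ncard) ∧
      ∀ e ∈ B, (∀ x ∈ A \ Y e, τ x = i) →
        A \ Y e = {x | x ∈ {x | x ∈ A ∧ τ x = i} ∧ ρ x < (A \ Y e).ncard} := by
    intro i
    obtain ⟨ρ, h1, h2⟩ := chain_order (A := {x | x ∈ A ∧ τ x = i})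
      (hA.subset fun x hx => hx.1)
      {W | ∃ e ∈ B, (∀ x ∈ A \ Y e, τ x = i) ∧ W = A \ Y e} (by
        rintro W ⟨e, he, h, rfl⟩ x hx
        exact ⟨hx.1, h x hx⟩) (by
        rintro W ⟨e, he, h, rfl⟩ W' ⟨e', he', h', rfl⟩
        exact gt_nested hτ he he' h h')
    exact ⟨ρ, h1, fun e he h => h2 _ ⟨e, he, h, rfl⟩⟩
  choose ρ hρ hseg using hord
  set r : α → ℕ := fun x => ρ (τ x) x with hr
  have hcard : ∀ i : Fin 3, {x | x ∈ A ∧ τ x = i}.ncard ≤ A.ncard := fun i =>
    Set.ncard_le_ncard (fun x hx => hx.1) hA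
  have hrlt : ∀ x ∈ A, r x < {y | y ∈ A ∧ τ y = τ x}.ncard := fun x hx =>
    (hρ (τ x)).mapsTo ⟨hx, rfl⟩
  have hrm : ∀ x ∈ A, r x < A.ncard := fun x hx => (hrlt x hx).trans_le (hcard _)
  have hrinj : ∀ x ∈ A, ∀ y ∈ A, τ x = τ y → r x = r y → x = y := by
    intro x hx y hy h1 h2
    refine (hρ (τ x)).injOn ⟨hx, rfl⟩ ⟨hy, h1.symm⟩ ?_
    simp only [hr] at h2
    rw [h2, h1]
  have hrsurj : ∀ i n, n < {x | x ∈ A ∧ τ x = i}.ncard → ∃ x ∈ A, τ x = i ∧ r x = n := by
    intro i n hn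
    obtain ⟨x, ⟨hx, hxi⟩, hxn⟩ := (hρ i).surjOn (show n ∈ Set.Iio _ from hn)
    exact ⟨x, hx, hxi, by simp only [hr]; rw [hxi]; exact hxn⟩
  -- initial segments of classes
  set I : Fin 3 → ℕ → Set α := fun i n => {x | x ∈ A ∧ τ x = i ∧ r x < n} with hI
  have hUseg : ∀ e ∈ B, ∃ i n, n ≤ {x | x ∈ A ∧ τ x = i}.ncard ∧ A \ Y e = I i n := by
    intro e he
    obtain ⟨i, hi⟩ := gt_class hτ he
    refine ⟨i, (A \ Y e).ncard, Set.ncard_le_ncard (fun x hx => ⟨hx.1, hi x hx⟩)
      (hA.subset fun x hx => hx.1), ?_⟩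
    have h1 := hseg i e he hi
    ext x
    constructor
    · intro hx
      have hx' := hx
      rw [h1] at hx'
      refine ⟨hx.1, hi x hx, ?_⟩
      simp only [hr]
      rw [hi x hx]
      exact hx'.2
    · rintro ⟨h2, h3, h4⟩
      rw [h1]
      refine ⟨⟨h2, h3⟩, ?_⟩
      simp only [hr] at h4
      rw [h3] at h4
      exact h4
  obtain ⟨i₁, hi₁⟩ : ∃ i, i = τ a := ⟨_, rfl⟩
  obtain ⟨i₂, i₃, h12, h13, h23, hcov⟩ := gt_three i₁
  set j := r a with hj
  set V : ℕ → Set α := fun n => {x | x ∈ A ∧ (τ x = i₃ ∨ (τ x = i₁ ∧ n ≤ r x))} with hV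
  have hfinA : Fintype A := hA.fintype
  let Q : A → Set α := fun x => if (x : α) = a then A else
    if τ x = i₁ ∧ j < r x then V (r x) else I (τ x) (r x + 1)
  let σ : A → ℕ := fun x => if (x : α) = a then 0 else
    if τ x = i₁ ∧ j < r x then 1 + r x else
    if τ x = i₃ then 2 + A.ncard + (A.ncard - r x) else 1 + (A.ncard - r x)
  have hQa : ∀ x : A, (x : α) = a → Q x = A := fun x hx => if_pos hx
  have hQV : ∀ x : A, (x : α) ≠ a → τ x = i₁ → j < r x → Q x = V (r x) := fun x h1 h2 h3 => by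
    show (if (x : α) = a then A else if τ x = i₁ ∧ j < r x then V (r x) else I (τ x) (r x + 1)) = _
    rw [if_neg h1, if_pos ⟨h2, h3⟩]
  have hQI : ∀ x : A, (x : α) ≠ a → ¬ (τ x = i₁ ∧ j < r x) → Q x = I (τ x) (r x + 1) :=
    fun x h1 h2 => by
      show (if (x : α) = a then A else if τ x = i₁ ∧ j < r x then V (r x) else
        I (τ x) (r x + 1)) = _
      rw [if_neg h1, if_neg h2]
  -- vertices
  have vI : ∀ i n, n ≤ {x | x ∈ A ∧ τ x = i}.ncard → (i = i₁ → n ≤ j) →
      ∃ p, gtP Q p = gtχ (I i n) := by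
    intro i n hn hij
    rcases Nat.eq_zero_or_pos n with rfl | hpos
    · refine ⟨none, ?_⟩
      have : I i 0 = ∅ := by ext x; simp [hI]
      rw [this, gtχ_empty]
      rfl
    · obtain ⟨x, hx, hxi, hxn⟩ := hrsurj i (n - 1) (by omega)
      refine ⟨some ⟨x, hx⟩, ?_⟩
      show gtχ (Q ⟨x, hx⟩) = _
      rw [hQI ⟨x, hx⟩, hxi, hxn, Nat.sub_add_cancel hpos]
      · intro hxa
        change x = a at hxa
        rw [hxa] at hxi hxn
        have := hij (hxi.symm.trans hi₁.symm)
        omega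
      · rintro ⟨h1, h2⟩
        have := hij (hxi.symm.trans h1)
        simp only at h2
        omega
  have vV : ∀ n, j < n → n ≤ {x | x ∈ A ∧ τ x = i₁}.ncard → ∃ p, gtP Q p = gtχ (V n) := by
    intro n hjn hn
    rcases eq_or_lt_of_le hn with h | h
    · obtain ⟨p, hp⟩ := vI i₃ _ le_rfl (fun h => absurd h h13.symm)
      refine ⟨p, ?_⟩
      rw [hp]
      congr 1
      ext x
      constructor
      · rintro ⟨h1, h2, -⟩
        exact ⟨h1, Or.inl h2⟩
      · rintro ⟨h1, h2 | ⟨h2, h3⟩⟩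
        · refine ⟨h1, h2, ?_⟩
          have := hrlt x h1
          rw [h2] at this
          exact this
        · have := hrlt x h1
          rw [h2] at this
          omega
    · obtain ⟨x, hx, hxi, hxn⟩ := hrsurj i₁ n h
      refine ⟨some ⟨x, hx⟩, ?_⟩
      show gtχ (Q ⟨x, hx⟩) = _
      rw [hQV ⟨x, hx⟩, hxn]
      · intro hxa
        change x = a at hxa
        rw [hxa] at hxn
        omega
      · exact hxi
      · show j < r x
        omega
  have vA : ∃ p, gtP Q p = gtχ A := ⟨some ⟨a, ha⟩, by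
    show gtχ (Q ⟨a, ha⟩) = _
    rw [hQa _ rfl]⟩
  refine regular_del_of_graph hfin hw (a := a) (gtP Q) ?_ ?_
  · intro e he hne
    rw [← hAB] at he
    rcases he with he | he
    · rw [gt_bvec_mem he]
      by_cases hc : τ e = i₁ ∧ j < r e
      · have hlt := hrlt e he
        rw [hc.1] at hlt
        obtain ⟨p, hp⟩ := vV (r e) hc.2 hlt.le
        obtain ⟨q, hq⟩ := vV (r e + 1) (by omega) hlt
        refine ⟨p, q, ?_⟩
        rw [hp, hq, gtχ_add]
        congr 1
        ext x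
        simp only [hV, Set.mem_symmDiff, Set.mem_ofPred_eq, Set.mem_singleton_iff]
        constructor
        · rintro rfl
          refine Or.inl ⟨⟨he, Or.inr ⟨hc.1, le_rfl⟩⟩, ?_⟩
          rintro ⟨-, h | h⟩
          · exact h13 (hc.1.symm.trans h)
          · omega
        · rintro (⟨⟨h1, h2⟩, h3⟩ | ⟨⟨h1, h2⟩, h3⟩)
          · rcases h2 with h2 | ⟨h2, h4⟩
            · exact absurd ⟨h1, Or.inl h2⟩ h3
            · refine hrinj x h1 e he (h2.trans hc.1.symm) ?_
              by_contra hcon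
              exact h3 ⟨h1, Or.inr ⟨h2, by omega⟩⟩
          · rcases h2 with h2 | ⟨h2, h4⟩
            · exact absurd ⟨h1, Or.inl h2⟩ h3
            · exact absurd ⟨h1, Or.inr ⟨h2, by omega⟩⟩ h3
      · have hlt := hrlt e he
        have hne' : τ e = i₁ → r e < j := by
          intro h
          rcases lt_trichotomy (r e) j with h' | h' | h'
          · exact h'
          · exact absurd (hrinj e he a ha (h.trans hi₁) h') hne
          · exact absurd ⟨h, h'⟩ hc
        obtain ⟨p, hp⟩ := vI (τ e) (r e) hlt.le (fun h => (hne' h).le)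
        obtain ⟨q, hq⟩ := vI (τ e) (r e + 1) hlt (fun h => hne' h)
        refine ⟨p, q, ?_⟩
        rw [hp, hq, gtχ_add]
        congr 1
        ext x
        simp only [hI, Set.mem_symmDiff, Set.mem_ofPred_eq, Set.mem_singleton_iff]
        constructor
        · rintro rfl
          exact Or.inr ⟨⟨he, rfl, by omega⟩, fun h => by omega⟩
        · rintro (⟨⟨h1, h2, h3⟩, h4⟩ | ⟨⟨h1, h2, h3⟩, h4⟩)
          · exact absurd ⟨h1, h2, by omega⟩ h4
          · refine hrinj x h1 e he h2 ?_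
            by_contra hcon
            exact h4 ⟨h1, h2, by omega⟩
    · rw [gt_bvec_compl (hBA he) (hYA e he)]
      obtain ⟨i, n, hn, hU⟩ := hUseg e he
      rw [hU]
      by_cases hc : i = i₁ ∧ j < n
      · obtain ⟨rfl, hjn⟩ := hc
        obtain ⟨p, hp⟩ := vI i₂ _ le_rfl (fun h => absurd h h12.symm)
        obtain ⟨q, hq⟩ := vV n hjn hn
        refine ⟨p, q, ?_⟩
        rw [hp, hq, gtχ_add, gtχ_add]
        congr 1
        ext x
        simp only [hV, hI, Set.mem_symmDiff, Set.mem_ofPred_eq]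
        by_cases hx : x ∈ A
        · rcases hcov (τ x) with h | h | h
          · have e1 : ¬ i = i₂ := h12
            have e2 : ¬ i = i₃ := h13
            simp only [hx, h, e1, e2, true_and, false_and, false_or, not_false_eq_true,
              true_or, and_true, not_lt, and_false, not_true_eq_false, or_false, not_le]
          · have e1 : ¬ i₂ = i := fun h => h12 h.symm
            have e2 : ¬ i₂ = i₃ := h23
            have h3 := hrlt x hx
            rw [h] at h3
            simp only [hx, h, e1, e2, true_and, false_and, or_false, not_false_eq_true,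
              and_true, not_true_eq_false, and_false, h3]
          · have e1 : ¬ i₃ = i := fun h => h13 h.symm
            have e2 : ¬ i₃ = i₂ := fun h => h23 h.symm
            simp only [hx, h, e1, e2, true_and, false_and, or_false, not_false_eq_true,
              and_true, not_true_eq_false, and_false, false_or]
        · simp only [hx, false_and, not_false_eq_true, and_true, or_self]
      · obtain ⟨p, hp⟩ := vA
        obtain ⟨q, hq⟩ := vI i n hn (fun h => by
          by_contra hcon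
          exact hc ⟨h, by omega⟩)
        exact ⟨p, q, by rw [hp, hq]⟩
  · intro c hs h0
    refine gt_hind Q (fun x : A => (x : α)) σ ?_ ?_ c hs h0
    · intro x
      by_cases hx : (x : α) = a
      · rw [hQa x hx]; exact x.2
      · by_cases hc : τ x = i₁ ∧ j < r x
        · rw [hQV x hx hc.1 hc.2]
          exact ⟨x.2, Or.inr ⟨hc.1, le_rfl⟩⟩
        · rw [hQI x hx hc]
          exact ⟨x.2, rfl, Nat.lt_succ_self _⟩
    · intro x y hxy hmem
      have hxy' : (x : α) ≠ y := fun h => hxy (Subtype.ext h)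
      have hxm := hrm x x.2
      have hym := hrm y y.2
      have hσ : ∀ z : A, σ z = if (z : α) = a then 0 else
        if τ z = i₁ ∧ j < r z then 1 + r z else
        if τ z = i₃ then 2 + A.ncard + (A.ncard - r z) else 1 + (A.ncard - r z) := fun z => rfl
      rw [hσ, hσ]
      by_cases hy : (y : α) = a
      · rw [if_pos hy, if_neg (fun h => hxy' (h.trans hy.symm))]
        split_ifs <;> omega
      · rw [if_neg hy]
        by_cases hc : τ y = i₁ ∧ j < r y
        · rw [hQV y hy hc.1 hc.2] at hmem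
          rw [if_pos hc]
          obtain ⟨-, h | ⟨h1, h2⟩⟩ := hmem
          · have hxa : (x : α) ≠ a := by
              intro hxa
              rw [hxa, ← hi₁] at h
              exact h13 h
            rw [if_neg hxa, if_neg (fun h' => h13 (h'.1.symm.trans h)), if_pos h]
            omega
          · have hne : r x ≠ r y := fun h' => hxy' (hrinj x x.2 y y.2 (h1.trans hc.1.symm) h')
            have hxa : (x : α) ≠ a := by
              intro hxa
              rw [hxa] at h2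
              have := hc.2
              omega
            have := hc.2
            rw [if_neg hxa, if_pos ⟨h1, by omega⟩]
            omega
        · rw [hQI y hy hc] at hmem
          rw [if_neg hc]
          obtain ⟨-, h1, h2⟩ := hmem
          have hne : r x ≠ r y := fun h' => hxy' (hrinj x x.2 y y.2 h1 h')
          have hyj : τ y = i₁ → r y < j := by
            intro h
            rcases lt_trichotomy (r y) j with h' | h' | h'
            · exact h'
            · exact absurd (hrinj y y.2 a ha (h.trans hi₁) h') hy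
            · exact absurd ⟨h, h'⟩ hc
          have hxa : (x : α) ≠ a := by
            intro hxa
            rw [hxa] at h1 h2
            have := hyj (h1.symm.trans hi₁.symm)
            omega
          have hxc : ¬ (τ x = i₁ ∧ j < r x) := by
            rintro ⟨h3, h4⟩
            have := hyj (h1.symm.trans h3)
            omega
          rw [if_neg hxa, if_neg hxc, h1]
          split_ifs <;> omega

end Pool.Agent.Helper43_EOR
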