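import Mathlib
import Pool.Agent.Helper43_EOR.G2

set_option autoImplicit false

namespace Pool.Agent.Helper43_EOR

open Set Matroid

variable {α : Type*}


section GW1

/-- indicator vector -/
noncomputable def GW1_chi (X : Set α) : α → ZMod 2 := X.indicator 1

theorem GW1_chi_mem {X : Set α} {a : α} (h : a ∈ X) : GW1_chi X a = 1 := by
  unfold GW1_chi; rw [Set.indicator_of_mem h]; rfl

theorem GW1_chi_notMem {X : Set α} {a : α} (h : a ∉ X) : GW1_chi X a = 0 := by
  unfold GW1_chi; rw [Set.indicator_of_notMem h]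

theorem GW1_two (x : ZMod 2) : x + x = 0 := CharTwo.add_self_eq_zero x

theorem GW1_two' (x : α → ZMod 2) : x + x = 0 := funext fun a => GW1_two (x a)

theorem GW1_chi_diff {X Y : Set α} (h : X ⊆ Y) : GW1_chi (Y \ X) = GW1_chi Y + GW1_chi X := by
  funext a
  rw [Pi.add_apply]
  by_cases hx : a ∈ X
  · rw [GW1_chi_mem hx, GW1_chi_mem (h hx), GW1_chi_notMem (X := Y \ X) (fun h' => h'.2 hx), GW1_two]
  · by_cases hy : a ∈ Y
    · rw [GW1_chi_notMem hx, GW1_chi_mem hy, GW1_chi_mem (X := Y \ X) ⟨hy, hx⟩, add_zero]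
    · rw [GW1_chi_notMem hx, GW1_chi_notMem hy, GW1_chi_notMem (X := Y \ X) (fun h' => hy h'.1), add_zero]

theorem GW1_chi_union {X Y : Set α} (h : Disjoint X Y) :
    GW1_chi (X ∪ Y) = GW1_chi X + GW1_chi Y := by
  funext a
  rw [Pi.add_apply]
  by_cases hx : a ∈ X
  · have hy : a ∉ Y := fun hy => Set.disjoint_left.1 h hx hy
    rw [GW1_chi_mem hx, GW1_chi_notMem hy, GW1_chi_mem (X := X ∪ Y) (Or.inl hx), add_zero]
  · by_cases hy : a ∈ Y
    · rw [GW1_chi_notMem hx, GW1_chi_mem hy, GW1_chi_mem (X := X ∪ Y) (Or.inr hy), zero_add]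
    · rw [GW1_chi_notMem hx, GW1_chi_notMem hy, GW1_chi_notMem (X := X ∪ Y), add_zero]
      rintro (h' | h')
      · exact hx h'
      · exact hy h'

/-- prefixes -/
def GW1_pre (A : Set α) (ρ : α → ℕ) (n : ℕ) : Set α := {a | a ∈ A ∧ ρ a < n}

theorem GW1_pm {A : Set α} {ρ : α → ℕ} {n : ℕ} {a : α} (ha : a ∈ A) (h : ρ a < n) :
    GW1_chi (GW1_pre A ρ n) a = 1 := GW1_chi_mem ⟨ha, h⟩

theorem GW1_pn {A : Set α} {ρ : α → ℕ} {n : ℕ} {a : α} (h : ¬ ρ a < n) :
    GW1_chi (GW1_pre A ρ n) a = 0 := GW1_chi_notMem fun h' => h h'.2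

theorem GW1_pA {A : Set α} {ρ : α → ℕ} {n : ℕ} {a : α} (h : a ∉ A) :
    GW1_chi (GW1_pre A ρ n) a = 0 := GW1_chi_notMem fun h' => h h'.1

theorem GW1_pre_zero (A : Set α) (ρ : α → ℕ) : GW1_chi (GW1_pre A ρ 0) = 0 := by
  funext a
  rw [GW1_pn (by omega)]
  rfl

theorem GW1_pre_all {A : Set α} {ρ : α → ℕ} (h : BijOn ρ A (Set.Iio A.ncard)) :
    GW1_pre A ρ A.ncard = A := by
  ext a
  exact ⟨fun h' => h'.1, fun h' => ⟨h', h.mapsTo h'⟩⟩

open Classical in
theorem GW1_single {A : Set α} {ρ : α → ℕ} (h : BijOn ρ A (Set.Iio A.ncard)) {a : α}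
    (ha : a ∈ A) : (Pi.single a 1 : α → ZMod 2) =
      GW1_chi (GW1_pre A ρ (ρ a)) + GW1_chi (GW1_pre A ρ (ρ a + 1)) := by
  funext x
  rw [Pi.add_apply]
  by_cases hx : x = a
  · subst hx
    rw [Pi.single_eq_same, GW1_pn (lt_irrefl _), GW1_pm ha (Nat.lt_succ_self _), zero_add]
  · rw [Pi.single_eq_of_ne hx]
    by_cases hxA : x ∈ A
    · have hne : ρ x ≠ ρ a := fun h' => hx (h.injOn hxA ha h')
      by_cases hlt : ρ x < ρ a
      · rw [GW1_pm hxA hlt, GW1_pm hxA (by omega), GW1_two]
      · rw [GW1_pn hlt, GW1_pn (by omega), add_zero]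
    · rw [GW1_pA hxA, GW1_pA hxA, add_zero]

/-- independence of prefixes -/
theorem GW1_ind {A : Set α} {ρ : α → ℕ} (h : BijOn ρ A (Set.Iio A.ncard)) {k : ℕ}
    (hk : k ≤ A.ncard + 1) (c : Fin k → ZMod 2) (hc : ∑ n, c n = 0)
    (hA : ∀ a ∈ A, ρ a + 1 < k → ∑ n : Fin k, c n * GW1_chi (GW1_pre A ρ n) a = 0) : c = 0 := by
  have hU : ∀ n : ℕ, ∑ i : Fin k, (if n ≤ (i : ℕ) then c i else 0) = 0 := by
    intro n
    rcases n with _ | j
    · simpa using hc
    · by_cases hj : j + 1 < k
      · obtain ⟨a, ha, haj⟩ := h.surjOn (show j ∈ Set.Iio A.ncard from by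
          rw [Set.mem_Iio]; omega)
        refine Eq.trans ?_ (hA a ha (by omega))
        refine Finset.sum_congr rfl fun i _ => ?_
        by_cases hi : j + 1 ≤ (i : ℕ)
        · rw [if_pos hi, GW1_pm ha (by omega), mul_one]
        · rw [if_neg hi, GW1_pn (by omega), mul_zero]
      · refine Finset.sum_eq_zero fun i _ => ?_
        rw [if_neg]
        have := i.2
        omega
  funext n
  have e : c n = ∑ i : Fin k, (if (n : ℕ) ≤ (i : ℕ) then c i else 0) -
      ∑ i : Fin k, (if (n : ℕ) + 1 ≤ (i : ℕ) then c i else 0) := by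
    rw [← Finset.sum_sub_distrib, Finset.sum_eq_single n]
    · rw [if_pos le_rfl, if_neg (by omega), sub_zero]
    · intro i _ hi
      have : (i : ℕ) ≠ n := fun h' => hi (Fin.ext h')
      by_cases h1 : (n : ℕ) + 1 ≤ (i : ℕ)
      · rw [if_pos h1, if_pos (by omega), sub_self]
      · rw [if_neg h1, if_neg (by omega), sub_self]
    · intro h'
      exact absurd (Finset.mem_univ _) h'
  rw [e, hU, hU, sub_zero]
  rfl

theorem GW1_fin1 (x : Fin 1 → ZMod 2) : x = 0 ∨ x = 1 := by
  have h : ∀ z : ZMod 2, z = 0 ∨ z = 1 := by decide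
  rcases h (x 0) with h | h
  · left; funext i; rw [Subsingleton.elim i 0, h]; rfl
  · right; funext i; rw [Subsingleton.elim i 0, h]; rfl

theorem GW1_Y {A : Set α} {Yb Wb : Set α} (hY : Yb ⊆ A) (h : Wb = Yb ∨ Wb = A \ Yb) :
    Wb ⊆ A ∧ (GW1_chi Yb = GW1_chi Wb ∨ GW1_chi Yb = GW1_chi Wb + GW1_chi A) := by
  rcases h with rfl | rfl
  · exact ⟨hY, Or.inl rfl⟩
  · refine ⟨Set.sdiff_subset, Or.inr ?_⟩
    rw [GW1_chi_diff hY, add_comm (GW1_chi A), add_assoc, GW1_two', add_zero]

theorem GW1_bvecA {A : Set α} {Y : α → Set α} {t : α → Fin 1 → ZMod 2} {a : α} (ha : a ∈ A) :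
    open Classical in bvec A Y t a = (Pi.single a 1, 0) := by
  unfold bvec; rw [if_pos ha]

theorem GW1_bvecB {A : Set α} {Y : α → Set α} {t : α → Fin 1 → ZMod 2} {b : α} (hb : b ∉ A) :
    bvec A Y t b = (GW1_chi (Y b), t b) := by
  unfold bvec; rw [if_neg hb]; rfl

theorem typeW1_con {M : Matroid α} {A B : Set α} (hfin : M.E.Finite) (hAB : A ∪ B = M.E)
    (hd : Disjoint A B) (h : TypeW1 M A B) {b : α} (hb : b ∈ B) : Regular (M ／ {b}) := by
  classical
  obtain ⟨Y, t, ⟨hYA, hrep⟩, ht0, W, hW, hch⟩ := h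
  have hw : RepBy (ZMod 2) M (bvec A Y t) := fun I hI => hrep I (by rw [hAB]; exact hI)
  have hAfin : A.Finite := hfin.subset (by rw [← hAB]; exact Set.subset_union_left)
  have hBA : ∀ e ∈ B, e ∉ A := fun e he h' => Set.disjoint_left.1 hd h' he
  have hbE : b ∈ M.E := by rw [← hAB]; exact Or.inr hb
  have hE : ∀ e ∈ M.E, e ∉ A → e ∈ B := fun e he hne => by
    rw [← hAB] at he
    exact he.resolve_left hne
  have hWA : ∀ e ∈ B, t e ≠ 0 → W e ⊆ A := fun e he hne => (GW1_Y (hYA e he) (hW e he hne)).1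
  have hYW : ∀ e ∈ B, t e ≠ 0 → GW1_chi (Y e) = GW1_chi (W e) ∨
      GW1_chi (Y e) = GW1_chi (W e) + GW1_chi A := fun e he hne =>
    (GW1_Y (hYA e he) (hW e he hne)).2
  have ht1 : ∀ e, t e ≠ 0 → t e = 1 := fun e he => (GW1_fin1 (t e)).resolve_left he
  by_cases hb0 : t b = 0
  · -- the vector of `b` is `(A; 0)`
    have hwb : bvec A Y t b = (GW1_chi A, 0) := by
      rw [GW1_bvecB (hBA b hb), ht0 b hb hb0, hb0]
    obtain ⟨ρ, hρ, hpre⟩ := chain_order hAfin {X | ∃ e ∈ B, t e ≠ 0 ∧ X = W e}
      (by rintro _ ⟨e, he, hne, rfl⟩; exact hWA e he hne)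
      (by rintro _ ⟨e, he, hne, rfl⟩ _ ⟨e', he', hne', rfl⟩; exact hch e he e' he' hne hne')
    set m := A.ncard with hm
    set k := max m 1 with hk
    let P : Fin k ⊕ Unit → (α → ZMod 2) × (Fin 1 → ZMod 2) :=
      Sum.elim (fun n => (GW1_chi (GW1_pre A ρ n), 0)) (fun _ => (0, 1))
    have hk1 : 0 < k := by omega
    -- a prefix is a vertex modulo `A`
    have hv : ∀ n ≤ m, ∃ p : Fin k, GW1_chi (GW1_pre A ρ n) = GW1_chi (GW1_pre A ρ p) ∨
        GW1_chi (GW1_pre A ρ n) = GW1_chi (GW1_pre A ρ p) + GW1_chi A := by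
      intro n hn
      by_cases hnk : n < k
      · exact ⟨⟨n, hnk⟩, Or.inl rfl⟩
      · have : n = m := by omega
        refine ⟨⟨0, hk1⟩, Or.inr ?_⟩
        rw [this, GW1_pre_all hρ]
        change _ = GW1_chi (GW1_pre A ρ 0) + _
        rw [GW1_pre_zero, zero_add]
    refine regular_con_of_graph hfin hw hbE P ?_ ?_
    · intro e he _
      rw [hwb]
      by_cases heA : e ∈ A
      · rw [GW1_bvecA heA]
        have hlt : ρ e < m := hρ.mapsTo heA
        obtain ⟨q, hq⟩ := hv (ρ e + 1) (by omega)
        refine ⟨Sum.inl ⟨ρ e, by omega⟩, Sum.inl q, ?_⟩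
        rcases hq with hq | hq
        · left
          rw [GW1_single hρ heA, hq]
          simp [P]
        · right
          rw [GW1_single hρ heA, hq]
          simp [P, add_assoc]
      · have heB := hE e he heA
        rw [GW1_bvecB heA]
        by_cases hte : t e = 0
        · refine ⟨Sum.inl ⟨0, hk1⟩, Sum.inl ⟨0, hk1⟩, Or.inr ?_⟩
          rw [ht0 e heB hte, hte]
          simp only [P, Sum.elim_inl, Prod.mk_add_mk, GW1_two', zero_add, add_zero]
        · rw [ht1 e hte]
          have h1 : W e = GW1_pre A ρ (W e).ncard := hpre (W e) ⟨e, heB, hte, rfl⟩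
          have h2 : (W e).ncard ≤ m := Set.ncard_le_ncard (hWA e heB hte) hAfin
          obtain ⟨p, hp⟩ := hv _ h2
          rw [← h1] at hp
          refine ⟨Sum.inl p, Sum.inr (), ?_⟩
          have hcase : GW1_chi (Y e) = GW1_chi (GW1_pre A ρ p) ∨
              GW1_chi (Y e) = GW1_chi (GW1_pre A ρ p) + GW1_chi A := by
            rcases hYW e heB hte with h3 | h3 <;> rcases hp with h4 | h4
            · left; rw [h3, h4]
            · right; rw [h3, h4]
            · right; rw [h3, h4]
            · left; rw [h3, h4, add_assoc, GW1_two', add_zero]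
          rcases hcase with h3 | h3
          · left
            rw [h3]
            simp [P]
          · right
            rw [h3]
            simp [P]
    · intro c hc hor
      rw [hwb] at hor
      rw [Fintype.sum_sum_type] at hc
      have hsum : ∑ p, c p • P p = (∑ n : Fin k, c (Sum.inl n) • GW1_chi (GW1_pre A ρ n),
          fun _ => c (Sum.inr ())) := by
        rw [Fintype.sum_sum_type]
        simp only [P, Sum.elim_inl, Sum.elim_inr, Finset.univ_unique, Finset.sum_singleton,
          PUnit.default_eq_unit]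
        refine Prod.ext ?_ ?_
        · rw [Prod.fst_add, Prod.fst_sum]
          simp
        · rw [Prod.snd_add, Prod.snd_sum]
          funext i
          simp
      rw [hsum] at hor
      have hcr : c (Sum.inr ()) = 0 := by
        rcases hor with h1 | h1
        · exact congrFun (congrArg Prod.snd h1) 0
        · exact congrFun (congrArg Prod.snd h1) 0
      have hc' : ∑ n : Fin k, c (Sum.inl n) = 0 := by
        simpa [hcr] using hc
      have hval : ∀ a : α, (∑ n : Fin k, c (Sum.inl n) • GW1_chi (GW1_pre A ρ n)) a =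
          ∑ n : Fin k, c (Sum.inl n) * GW1_chi (GW1_pre A ρ n) a := by
        intro a
        rw [Finset.sum_apply]
        rfl
      have hz : ∀ a ∈ A, ∑ n : Fin k, c (Sum.inl n) * GW1_chi (GW1_pre A ρ n) a = 0 := by
        intro a ha
        rcases hor with h1 | h1
        · have h2 := congrFun (congrArg Prod.fst h1) a
          rw [← hval]
          exact h2
        · exfalso
          have hlt : ρ a < m := hρ.mapsTo ha
          obtain ⟨a1, ha1, hρ1⟩ := hρ.surjOn (show m - 1 ∈ Set.Iio m from by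
            rw [Set.mem_Iio]; omega)
          have h2 := congrFun (congrArg Prod.fst h1) a1
          change (∑ n : Fin k, c (Sum.inl n) • GW1_chi (GW1_pre A ρ n)) a1 = GW1_chi A a1 at h2
          rw [hval, GW1_chi_mem ha1, Finset.sum_eq_zero] at h2
          · exact absurd h2 (by decide)
          · intro n _
            have := n.2
            rw [GW1_pn (by omega), mul_zero]
      have h0 := GW1_ind hρ (k := k) (by omega) (fun n => c (Sum.inl n)) hc' (fun a ha _ => hz a ha)
      funext p
      rcases p with n | u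
      · exact congrFun h0 n
      · exact hcr
  · -- the vector of `b` is `(Y b; 1)`
    have hwb : bvec A Y t b = (GW1_chi (Y b), 1) := by
      rw [GW1_bvecB (hBA b hb), ht1 b hb0]
    let Z : α → Set α := fun e => if W b ⊆ W e then W e \ W b else (A \ W b) ∪ W e
    have hZ1 : ∀ e, W b ⊆ W e → Z e = W e \ W b := fun e he => if_pos he
    have hZ2 : ∀ e, ¬ W b ⊆ W e → Z e = (A \ W b) ∪ W e := fun e he => if_neg he
    have hZA : ∀ e ∈ B, t e ≠ 0 → Z e ⊆ A := by
      intro e he hne
      by_cases h1 : W b ⊆ W e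
      · rw [hZ1 e h1]
        exact Set.sdiff_subset.trans (hWA e he hne)
      · rw [hZ2 e h1]
        exact Set.union_subset Set.sdiff_subset (hWA e he hne)
    have hchi : ∀ e ∈ B, t e ≠ 0 → GW1_chi (W e) + GW1_chi (W b) = GW1_chi (Z e) ∨
        GW1_chi (W e) + GW1_chi (W b) = GW1_chi (Z e) + GW1_chi A := by
      intro e he hne
      by_cases h1 : W b ⊆ W e
      · left
        rw [hZ1 e h1, GW1_chi_diff h1]
      · right
        have h2 : W e ⊆ W b := (hch e he b hb hne hb0).resolve_right h1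
        have h3 : Disjoint (A \ W b) (W e) := Set.disjoint_left.2 fun x hx hx' => hx.2 (h2 hx')
        rw [hZ2 e h1, GW1_chi_union h3, GW1_chi_diff (hWA b hb hb0)]
        have := GW1_two' (GW1_chi A)
        rw [add_comm (GW1_chi A) (GW1_chi (W b)), add_assoc, add_assoc, add_comm (GW1_chi (W e)),
          add_comm (GW1_chi A) (GW1_chi (W e) + _)]
        rw [add_assoc, this, add_zero, add_comm]
    obtain ⟨ρ, hρ, hpre⟩ := chain_order hAfin {X | ∃ e ∈ B, t e ≠ 0 ∧ X = Z e}
      (by rintro _ ⟨e, he, hne, rfl⟩; exact hZA e he hne)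
      (by
        rintro _ ⟨e, he, hne, rfl⟩ _ ⟨e', he', hne', rfl⟩
        by_cases h1 : W b ⊆ W e <;> by_cases h1' : W b ⊆ W e'
        · rw [hZ1 e h1, hZ1 e' h1']
          rcases hch e he e' he' hne hne' with h | h
          · exact Or.inl (Set.sdiff_subset_sdiff_left h)
          · exact Or.inr (Set.sdiff_subset_sdiff_left h)
        · left
          rw [hZ1 e h1, hZ2 e' h1']
          intro x hx
          exact Or.inl ⟨hWA e he hne hx.1, hx.2⟩
        · right
          rw [hZ2 e h1, hZ1 e' h1']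
          intro x hx
          exact Or.inl ⟨hWA e' he' hne' hx.1, hx.2⟩
        · rw [hZ2 e h1, hZ2 e' h1']
          rcases hch e he e' he' hne hne' with h | h
          · exact Or.inl (Set.union_subset_union_right _ h)
          · exact Or.inr (Set.union_subset_union_right _ h))
    set m := A.ncard with hm
    let P : Fin (m + 1) → (α → ZMod 2) × (Fin 1 → ZMod 2) :=
      fun n => (GW1_chi (GW1_pre A ρ n), 0)
    have hP0 : P ⟨0, by omega⟩ = (0, 0) := by
      change (GW1_chi (GW1_pre A ρ 0), (0 : Fin 1 → ZMod 2)) = _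
      rw [GW1_pre_zero]
    have hPm : P ⟨m, by omega⟩ = (GW1_chi A, 0) := by
      change (GW1_chi (GW1_pre A ρ m), (0 : Fin 1 → ZMod 2)) = _
      rw [GW1_pre_all hρ]
    refine regular_con_of_graph hfin hw hbE P ?_ ?_
    · intro e he _
      rw [hwb]
      by_cases heA : e ∈ A
      · rw [GW1_bvecA heA]
        have hlt : ρ e < m := hρ.mapsTo heA
        refine ⟨⟨ρ e, by omega⟩, ⟨ρ e + 1, by omega⟩, Or.inl ?_⟩
        rw [GW1_single hρ heA]
        simp [P]
      · have heB := hE e he heA
        rw [GW1_bvecB heA]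
        by_cases hte : t e = 0
        · refine ⟨⟨0, by omega⟩, ⟨m, by omega⟩, Or.inl ?_⟩
          rw [ht0 e heB hte, hte, hP0, hPm]
          simp
        · rw [ht1 e hte]
          have h1 : Z e = GW1_pre A ρ (Z e).ncard := hpre (Z e) ⟨e, heB, hte, rfl⟩
          have h2 : (Z e).ncard ≤ m := Set.ncard_le_ncard (hZA e heB hte) hAfin
          have hPz : P ⟨(Z e).ncard, by omega⟩ = (GW1_chi (Z e), 0) := by
            change (GW1_chi (GW1_pre A ρ (Z e).ncard), (0 : Fin 1 → ZMod 2)) = _
            rw [← h1]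
          -- `Y e + Y b` is `Z e` or its complement
          have hcase : GW1_chi (Y e) = GW1_chi (Z e) + GW1_chi (Y b) ∨
              GW1_chi (Y e) = GW1_chi (Z e) + GW1_chi A + GW1_chi (Y b) := by
            have two : ∀ x : α → ZMod 2, x + x = 0 := GW1_two'
            have key : ∀ x y z u v w : α → ZMod 2, (y = u ∨ y = u + w) → (z = v ∨ z = v + w) →
                (u + v = x ∨ u + v = x + w) → (y = x + z ∨ y = x + w + z) := by
              intro x y z u v w h1 h2 h3
              have hyz : y + z = x ∨ y + z = x + w := by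
                rcases h1 with h1 | h1 <;> rcases h2 with h2 | h2 <;> rcases h3 with h3 | h3
                · left; rw [h1, h2, h3]
                · right; rw [h1, h2, h3]
                · right; rw [h1, h2, ← h3]; abel
                · left
                  rw [h1, h2]
                  calc u + (v + w) = (u + v) + w := by abel
                    _ = x + (w + w) := by rw [h3]; abel
                    _ = x := by rw [two, add_zero]
                · right; rw [h1, h2, ← h3]; abel
                · left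
                  rw [h1, h2]
                  calc u + w + v = (u + v) + w := by abel
                    _ = x + (w + w) := by rw [h3]; abel
                    _ = x := by rw [two, add_zero]
                · left
                  rw [h1, h2]
                  calc u + w + (v + w) = (u + v) + (w + w) := by abel
                    _ = x := by rw [h3, two, add_zero]
                · right
                  rw [h1, h2]
                  calc u + w + (v + w) = (u + v) + (w + w) := by abel
                    _ = x + w := by rw [h3, two, add_zero]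
              rcases hyz with h | h
              · left; rw [← h, add_assoc, two, add_zero]
              · right; rw [← h, add_assoc, two, add_zero]
            exact key _ _ _ _ _ _ (hYW e heB hte) (hYW b hb hb0) (hchi e heB hte)
          rcases hcase with h3 | h3
          · refine ⟨⟨0, by omega⟩, ⟨(Z e).ncard, by omega⟩, Or.inr ?_⟩
            rw [hP0, hPz, h3]
            simp
          · refine ⟨⟨(Z e).ncard, by omega⟩, ⟨m, by omega⟩, Or.inr ?_⟩
            rw [hPm, hPz, h3]
            simp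
    · intro c hc hor
      rw [hwb] at hor
      have hsum : ∑ p, c p • P p = (∑ n : Fin (m + 1), c n • GW1_chi (GW1_pre A ρ n), 0) := by
        refine Prod.ext ?_ ?_
        · rw [Prod.fst_sum]
          rfl
        · rw [Prod.snd_sum]
          simp [P]
      rw [hsum] at hor
      have hor' : ∑ n : Fin (m + 1), c n • GW1_chi (GW1_pre A ρ n) = 0 := by
        rcases hor with h1 | h1
        · exact congrArg Prod.fst h1
        · exfalso
          have h2 : (0 : ZMod 2) = 1 := congrFun (congrArg Prod.snd h1) 0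
          exact absurd h2 (by decide)
      refine GW1_ind hρ (le_refl _) c hc (fun a _ _ => ?_)
      have h1 := congrFun hor' a
      rw [Finset.sum_apply] at h1
      exact h1

theorem typeW1_del {M : Matroid α} {A B : Set α} (hfin : M.E.Finite) (hAB : A ∪ B = M.E)
    (hd : Disjoint A B) (h : TypeW1 M A B) {a : α} (ha : a ∈ A) : Regular (M ＼ {a}) := by
  classical
  obtain ⟨Y, t, ⟨hYA, hrep⟩, ht0, W, hW, hch⟩ := h
  have hw : RepBy (ZMod 2) M (bvec A Y t) := fun I hI => hrep I (by rw [hAB]; exact hI)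
  have hAfin : A.Finite := hfin.subset (by rw [← hAB]; exact Set.subset_union_left)
  have hBA : ∀ e ∈ B, e ∉ A := fun e he h' => Set.disjoint_left.1 hd h' he
  have hE : ∀ e ∈ M.E, e ∉ A → e ∈ B := fun e he hne => by
    rw [← hAB] at he
    exact he.resolve_left hne
  have hWA : ∀ e ∈ B, t e ≠ 0 → W e ⊆ A := fun e he hne => (GW1_Y (hYA e he) (hW e he hne)).1
  have hYW : ∀ e ∈ B, t e ≠ 0 → GW1_chi (Y e) = GW1_chi (W e) ∨
      GW1_chi (Y e) = GW1_chi (W e) + GW1_chi A := fun e he hne =>
    (GW1_Y (hYA e he) (hW e he hne)).2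
  have ht1 : ∀ e, t e ≠ 0 → t e = 1 := fun e he => (GW1_fin1 (t e)).resolve_left he
  let S : Set α := {x | x ∈ A ∧ ∃ e ∈ B, t e ≠ 0 ∧ a ∈ W e ∧ x ∉ W e}
  have haS : a ∉ S := by
    rintro ⟨-, e, -, -, h1, h2⟩
    exact h2 h1
  have hS1 : ∀ e ∈ B, t e ≠ 0 → a ∈ W e → A \ W e ⊆ S := fun e he hne hae x hx =>
    ⟨hx.1, e, he, hne, hae, hx.2⟩
  have hS2 : ∀ e ∈ B, t e ≠ 0 → a ∉ W e → Disjoint S (W e) := by
    intro e he hne hae
    rw [Set.disjoint_left]
    rintro x ⟨hxA, e', he', hne', hae', hxe'⟩ hxe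
    rcases hch e he e' he' hne hne' with h | h
    · exact hxe' (h hxe)
    · exact hae (h hae')
  let Z : α → Set α := fun e => if a ∈ W e then S ∩ W e else S ∪ W e
  have hZ1 : ∀ e, a ∈ W e → Z e = S ∩ W e := fun e he => if_pos he
  have hZ2 : ∀ e, a ∉ W e → Z e = S ∪ W e := fun e he => if_neg he
  have hSA : S ⊆ A := fun x hx => hx.1
  have hZA : ∀ e ∈ B, t e ≠ 0 → Z e ⊆ A \ {a} := by
    intro e he hne x hx
    by_cases h1 : a ∈ W e
    · rw [hZ1 e h1] at hx
      exact ⟨hSA hx.1, fun h' => haS (h' ▸ hx.1)⟩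
    · rw [hZ2 e h1] at hx
      rcases hx with hx | hx
      · exact ⟨hSA hx, fun h' => haS (h' ▸ hx)⟩
      · exact ⟨hWA e he hne hx, fun h' => h1 (h' ▸ hx)⟩
  have hchi : ∀ e ∈ B, t e ≠ 0 → GW1_chi (W e) = GW1_chi (Z e) + GW1_chi S ∨
      GW1_chi (W e) = GW1_chi (Z e) + GW1_chi S + GW1_chi A := by
    intro e he hne
    by_cases h1 : a ∈ W e
    · right
      have h2 : S \ (A \ W e) = S ∩ W e := by
        ext x
        constructor
        · rintro ⟨hx, hx'⟩
          refine ⟨hx, ?_⟩
          by_contra h3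
          exact hx' ⟨hSA hx, h3⟩
        · rintro ⟨hx, hx'⟩
          exact ⟨hx, fun h3 => h3.2 hx'⟩
      rw [hZ1 e h1, ← h2, GW1_chi_diff (hS1 e he hne h1), GW1_chi_diff (hWA e he hne)]
      have e1 := GW1_two' (GW1_chi S)
      have e2 := GW1_two' (GW1_chi A)
      calc GW1_chi (W e) = GW1_chi (W e) + (GW1_chi S + GW1_chi S) + (GW1_chi A + GW1_chi A) := by
            rw [e1, e2, add_zero, add_zero]
        _ = _ := by abel
    · left
      rw [hZ2 e h1, GW1_chi_union (hS2 e he hne h1)]
      have e1 := GW1_two' (GW1_chi S)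
      calc GW1_chi (W e) = GW1_chi (W e) + (GW1_chi S + GW1_chi S) := by rw [e1, add_zero]
        _ = _ := by abel
  obtain ⟨ρ, hρ, hpre⟩ := chain_order hAfin {X | X = A \ {a} ∨ ∃ e ∈ B, t e ≠ 0 ∧ X = Z e}
    (by
      rintro _ (rfl | ⟨e, he, hne, rfl⟩)
      · exact Set.sdiff_subset
      · exact (hZA e he hne).trans Set.sdiff_subset)
    (by
      rintro _ (rfl | ⟨e, he, hne, rfl⟩) _ (rfl | ⟨e', he', hne', rfl⟩)
      · exact Or.inl subset_rfl
      · exact Or.inr (hZA e' he' hne')
      · exact Or.inl (hZA e he hne)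
      · by_cases h1 : a ∈ W e <;> by_cases h1' : a ∈ W e'
        · rw [hZ1 e h1, hZ1 e' h1']
          rcases hch e he e' he' hne hne' with h | h
          · exact Or.inl (Set.inter_subset_inter_right _ h)
          · exact Or.inr (Set.inter_subset_inter_right _ h)
        · left
          rw [hZ1 e h1, hZ2 e' h1']
          exact fun x hx => Or.inl hx.1
        · right
          rw [hZ2 e h1, hZ1 e' h1']
          exact fun x hx => Or.inl hx.1
        · rw [hZ2 e h1, hZ2 e' h1']
          rcases hch e he e' he' hne hne' with h | h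
          · exact Or.inl (Set.union_subset_union_right _ h)
          · exact Or.inr (Set.union_subset_union_right _ h))
  set m := A.ncard with hm
  have hA1 : (A \ {a}).ncard + 1 = m := Set.ncard_sdiff_singleton_add_one ha hAfin
  have hAa : A \ {a} = GW1_pre A ρ (m - 1) := by
    have h1 : A \ {a} = GW1_pre A ρ (A \ {a}).ncard := hpre _ (Or.inl rfl)
    rw [show m - 1 = (A \ {a}).ncard by omega]
    exact h1
  have hρa : ¬ ρ a < m - 1 := fun h1 => by
    have : a ∈ A \ {a} := by rw [hAa]; exact ⟨ha, h1⟩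
    exact this.2 rfl
  let P : Fin m ⊕ Bool → (α → ZMod 2) × (Fin 1 → ZMod 2) :=
    Sum.elim (fun n => (GW1_chi (GW1_pre A ρ n) + GW1_chi S, 0))
      (fun x => if x then (GW1_chi A, 1) else (0, 1))
  have hPt : P (Sum.inr true) = (GW1_chi A, 1) := rfl
  have hPf : P (Sum.inr false) = (0, 1) := rfl
  have hPn : ∀ n : Fin m, P (Sum.inl n) = (GW1_chi (GW1_pre A ρ n) + GW1_chi S, 0) := fun _ => rfl
  refine regular_del_of_graph hfin hw P ?_ ?_
  · intro e he hea
    by_cases heA : e ∈ A
    · have hlt : ρ e < m - 1 := by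
        have : e ∈ A \ {a} := ⟨heA, hea⟩
        rw [hAa] at this
        exact this.2
      refine ⟨Sum.inl ⟨ρ e, by omega⟩, Sum.inl ⟨ρ e + 1, by omega⟩, ?_⟩
      rw [GW1_bvecA heA, GW1_single hρ heA, hPn, hPn, Prod.mk_add_mk, add_zero]
      congr 1
      have e1 := GW1_two' (GW1_chi S)
      calc GW1_chi (GW1_pre A ρ (ρ e)) + GW1_chi (GW1_pre A ρ (ρ e + 1)) =
          GW1_chi (GW1_pre A ρ (ρ e)) + GW1_chi (GW1_pre A ρ (ρ e + 1)) +
            (GW1_chi S + GW1_chi S) := by rw [e1, add_zero]
        _ = _ := by abel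
    · have heB := hE e he heA
      rw [GW1_bvecB heA]
      by_cases hte : t e = 0
      · refine ⟨Sum.inr false, Sum.inr true, ?_⟩
        rw [ht0 e heB hte, hte, hPf, hPt, Prod.mk_add_mk, zero_add]
        congr 1
      · rw [ht1 e hte]
        have h1 : Z e = GW1_pre A ρ (Z e).ncard := hpre (Z e) (Or.inr ⟨e, heB, hte, rfl⟩)
        have h2 : (Z e).ncard ≤ (A \ {a}).ncard :=
          Set.ncard_le_ncard (hZA e heB hte) (hAfin.subset Set.sdiff_subset)
        have hPz : P (Sum.inl ⟨(Z e).ncard, by omega⟩) = (GW1_chi (Z e) + GW1_chi S, 0) := by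
          rw [hPn]
          change (GW1_chi (GW1_pre A ρ (Z e).ncard) + GW1_chi S, (0 : Fin 1 → ZMod 2)) = _
          rw [← h1]
        have hcase : GW1_chi (Y e) = GW1_chi (Z e) + GW1_chi S ∨
            GW1_chi (Y e) = GW1_chi (Z e) + GW1_chi S + GW1_chi A := by
          have e2 := GW1_two' (GW1_chi A)
          rcases hYW e heB hte with h3 | h3 <;> rcases hchi e heB hte with h4 | h4
          · left; rw [h3, h4]
          · right; rw [h3, h4]
          · right; rw [h3, h4]
          · left; rw [h3, h4, add_assoc, e2, add_zero]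
        rcases hcase with h3 | h3
        · refine ⟨Sum.inl ⟨(Z e).ncard, by omega⟩, Sum.inr false, ?_⟩
          rw [hPz, hPf, h3]
          simp
        · refine ⟨Sum.inl ⟨(Z e).ncard, by omega⟩, Sum.inr true, ?_⟩
          rw [hPz, hPt, h3]
          simp
  · intro c hc h0
    rw [Fintype.sum_sum_type, Fintype.sum_bool] at hc
    have hsum : ∑ p, c p • P p = ((∑ n : Fin m, c (Sum.inl n) •
        (GW1_chi (GW1_pre A ρ n) + GW1_chi S)) + c (Sum.inr true) • GW1_chi A,
        fun _ => c (Sum.inr true) + c (Sum.inr false)) := by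
      rw [Fintype.sum_sum_type, Fintype.sum_bool, hPt, hPf]
      refine Prod.ext ?_ ?_
      · simp [P, Prod.fst_sum]
      · funext i
        simp [P, Prod.snd_sum]
    rw [hsum] at h0
    have hs1 : c (Sum.inr true) + c (Sum.inr false) = 0 := congrFun (congrArg Prod.snd h0) 0
    have hval : ∀ x ∈ A, ∑ n : Fin m, c (Sum.inl n) * (GW1_chi (GW1_pre A ρ n) x + GW1_chi S x) +
        c (Sum.inr true) = 0 := by
      intro x hx
      have h1 := congrFun (congrArg Prod.fst h0) x
      change ((∑ n : Fin m, c (Sum.inl n) •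
        (GW1_chi (GW1_pre A ρ n) + GW1_chi S)) + c (Sum.inr true) • GW1_chi A) x = 0 at h1
      rw [Pi.add_apply, Finset.sum_apply, Pi.smul_apply, GW1_chi_mem hx, smul_eq_mul, mul_one] at h1
      exact h1
    have hct : c (Sum.inr true) = 0 := by
      have h1 := hval a ha
      rw [Finset.sum_eq_zero, zero_add] at h1
      · exact h1
      · intro n _
        have := n.2
        rw [GW1_pn (by omega), GW1_chi_notMem haS, add_zero, mul_zero]
    have hcf : c (Sum.inr false) = 0 := by rwa [hct, zero_add] at hs1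
    have hc' : ∑ n : Fin m, c (Sum.inl n) = 0 := by
      rwa [hct, hcf, add_zero, add_zero] at hc
    have h1 := GW1_ind hρ (k := m) (by omega) (fun n => c (Sum.inl n)) hc' (fun x hx _ => by
      have h2 := hval x hx
      rw [hct, add_zero] at h2
      simp only [mul_add, Finset.sum_add_distrib] at h2
      rw [← Finset.sum_mul, hc', zero_mul, add_zero] at h2
      exact h2)
    funext p
    rcases p with n | (_ | _)
    · exact congrFun h1 n
    · exact hcf
    · exact hct

end GW1

end Pool.Agent.Helper43_EOR
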