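import Mathlib
import Pool.Agent.Helper43_EOR.G2

set_option autoImplicit false

namespace Pool.Agent.Helper43_EOR

open Set Matroid

variable {α : Type*}


/-
JOB GW2 (type W2 gives regular minors). Take ρ from chain_order for the sets Y b with t b = 11: Y b = [0,n_b).
con, b0 with t b0 = 10 (the case 01 is symmetric; or prove both at once with f = t b0, g the other one of 10, 01),
Y b0 = ∅ or A: vertices ([0,n); 0), 0 ≤ n ≤ m, and h = (Y b0; g). Elements: a consecutive; (∅;f), (A;f): modulo w b0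
they are (∅;0) or (A;0) = [0,0) + [0,m) or loops; (∅;g), (A;g): h + [0,0) or h + [0,m); ([0,n); 11) = ([0,n) + Y b0; g) =
h + [0,n) mod w b0.
con, b0 with t b0 = 11, Y b0 = [0,n0): vertices ([0,n); 0) for 0 ≤ n ≤ n0 and ([n0,n); 10) for n0 ≤ n ≤ m. Elements: a consecutive;
(∅;10) = ([0,0);0) + ([n0,n0);10); (A;10) = ([0,n0);0) + ([n0,m);10); (∅;01) = ([0,n0);10) mod w b0 = ([0,n0);0) + ([n0,n0);10);
(A;01) = ([n0,m);10) + ([0,0);0) mod w b0; ([0,n);11) = ([0,n) + [0,n0); 0) mod w b0: for n ≤ n0 ([0,n);0) + ([0,n0);0), for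
n > n0 ([n0,n);10) + ([n0,n0);10).
del, a0 ∈ A, j = ρ a0: vertices (∅;0), (∅;10), ([0,n);01) for 0 ≤ n ≤ j, (A;11), ([0,n);11) for j < n ≤ m (n = m is (A;11)).
Elements: a ≠ a0 consecutive; (∅;10) = (∅;0)+(∅;10); (∅;01) = (∅;0) + ([0,0);01); (A;10) = (A;11) + ([0,0);01);
(A;01) = (A;11) + (∅;10); ([0,n);11) for n ≤ j: (∅;10) + ([0,n);01); for n > j: (∅;0) + ([0,n);11).
-/
/-- the indicator of an initial segment -/
noncomputable def GW2_I {α : Type*} (A : Set α) (ρ : α → ℕ) (n : ℕ) : α → ZMod 2 :=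
  ({a | a ∈ A ∧ ρ a < n} : Set α).indicator 1

theorem GW2_I_apply {α : Type*} (A : Set α) (ρ : α → ℕ) (n : ℕ) (a : α) [Decidable (a ∈ A ∧ ρ a < n)] :
    GW2_I A ρ n a = if a ∈ A ∧ ρ a < n then 1 else 0 := by
  unfold GW2_I
  by_cases h : a ∈ A ∧ ρ a < n
  · rw [if_pos h, Set.indicator_of_mem (by exact h), Pi.one_apply]
  · rw [if_neg h, Set.indicator_of_notMem (by exact h)]

theorem GW2_I_zero {α : Type*} (A : Set α) (ρ : α → ℕ) : GW2_I A ρ 0 = 0 := by
  classical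
  funext a
  rw [GW2_I_apply]
  simp

theorem GW2_I_full {α : Type*} {A : Set α} {ρ : α → ℕ} {m : ℕ} (h : BijOn ρ A (Iio m)) :
    GW2_I A ρ m = A.indicator 1 := by
  unfold GW2_I
  congr 1
  ext a
  exact ⟨fun ha => ha.1, fun ha => ⟨ha, h.mapsTo ha⟩⟩

theorem GW2_self {α : Type*} (x : α → ZMod 2) : x + x = 0 := by
  funext a
  exact CharTwo.add_self_eq_zero _

theorem GW2_bvec_A {α : Type*} {A : Set α} {ρ : α → ℕ} {m : ℕ} (h : BijOn ρ A (Iio m))
    (Y : α → Set α) {δ : ℕ} (t : α → Fin δ → ZMod 2) {a : α} (ha : a ∈ A) :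
    bvec A Y t a = (GW2_I A ρ (ρ a) + GW2_I A ρ (ρ a + 1), 0) := by
  classical
  unfold bvec
  rw [if_pos ha]
  refine Prod.ext ?_ rfl
  funext x
  simp only [Pi.add_apply, GW2_I_apply]
  by_cases hx : x = a
  · subst hx
    rw [Pi.single_eq_same, if_neg (by simp), if_pos ⟨ha, Nat.lt_succ_self _⟩, zero_add]
  · rw [Pi.single_eq_of_ne hx]
    by_cases hxA : x ∈ A
    · have hne : ρ x ≠ ρ a := fun e => hx (h.injOn hxA ha e)
      by_cases hlt : ρ x < ρ a
      · rw [if_pos ⟨hxA, hlt⟩, if_pos ⟨hxA, by omega⟩]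
        rfl
      · rw [if_neg (fun h' => hlt h'.2), if_neg (fun h' => by have := h'.2; omega), add_zero]
    · rw [if_neg (fun h' => hxA h'.1), if_neg (fun h' => hxA h'.1), add_zero]

theorem GW2_bvec_B {α : Type*} {A : Set α} (Y : α → Set α) {δ : ℕ} (t : α → Fin δ → ZMod 2) {b : α}
    (hb : b ∉ A) : bvec A Y t b = ((Y b).indicator 1, t b) := by
  unfold bvec
  rw [if_neg hb]

/-- initial segments are affinely independent -/
theorem GW2_ind {α : Type*} {A : Set α} {ρ : α → ℕ} {m : ℕ} (h : BijOn ρ A (Iio m))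
    (e : Fin (m + 1) → ZMod 2) (h0 : ∑ n, e n = 0) (h1 : ∑ n, e n • GW2_I A ρ n = 0) : e = 0 := by
  classical
  have key : ∀ j : ℕ, ∑ n : Fin (m + 1), (if j ≤ (n : ℕ) then e n else 0) = 0 := by
    intro j
    rcases Nat.eq_zero_or_pos j with hj | hj
    · subst hj
      simpa using h0
    · obtain ⟨i, rfl⟩ : ∃ i, j = i + 1 := ⟨j - 1, by omega⟩
      by_cases him : i < m
      · obtain ⟨a, ha, hai⟩ := h.surjOn (show i ∈ Iio m from him)
        have h2 := congrFun h1 a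
        rw [Finset.sum_apply, Pi.zero_apply] at h2
        refine Eq.trans (Finset.sum_congr rfl fun n _ => ?_) h2
        rw [Pi.smul_apply, GW2_I_apply, hai, smul_eq_mul]
        by_cases hn : i < (n : ℕ)
        · rw [if_pos (by omega), if_pos ⟨ha, hn⟩, mul_one]
        · rw [if_neg (by omega), if_neg (fun h' => hn h'.2), mul_zero]
      · refine Finset.sum_eq_zero fun n _ => ?_
        rw [if_neg]
        have := n.2
        omega
  funext k
  have h2 := key k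
  have h3 := key (k + 1)
  have h4 : ∑ n : Fin (m + 1), (if (k : ℕ) ≤ (n : ℕ) then e n else 0) -
      ∑ n : Fin (m + 1), (if (k : ℕ) + 1 ≤ (n : ℕ) then e n else 0) = e k := by
    rw [← Finset.sum_sub_distrib]
    rw [Finset.sum_eq_single k]
    · rw [if_pos le_rfl, if_neg (by omega), sub_zero]
    · intro n _ hn
      have hne : (n : ℕ) ≠ (k : ℕ) := fun e => hn (Fin.ext e)
      by_cases hkn : (k : ℕ) ≤ (n : ℕ)
      · rw [if_pos hkn, if_pos (by omega), sub_self]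
      · rw [if_neg hkn, if_neg (by omega), sub_self]
    · intro hk
      exact absurd (Finset.mem_univ k) hk
  rw [h2, h3, sub_zero] at h4
  exact h4.symm

/-- the vertices -/
noncomputable def GW2_P {α : Type*} (A : Set α) (ρ : α → ℕ) {m : ℕ} {κ : Type}
    (β : Fin (m + 1) → Fin 2 → ZMod 2) (s : Fin (m + 1)) (x : κ → Fin 2 → ZMod 2) :
    Fin (m + 1) ⊕ κ → (α → ZMod 2) × (Fin 2 → ZMod 2) :=
  Sum.elim (fun n => (GW2_I A ρ n, β n)) (fun k => (GW2_I A ρ s, x k))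

theorem GW2_hind {α : Type*} {A : Set α} {ρ : α → ℕ} {m : ℕ} (h : BijOn ρ A (Iio m)) {κ : Type}
    [Fintype κ] (β : Fin (m + 1) → Fin 2 → ZMod 2) (s : Fin (m + 1)) (x : κ → Fin 2 → ZMod 2)
    (hloc : ∀ (c0 : ZMod 2) (c : κ → ZMod 2), c0 + ∑ k, c k = 0 →
      c0 • β s + ∑ k, c k • x k = 0 → c0 = 0 ∧ c = 0)
    (c : Fin (m + 1) ⊕ κ → ZMod 2) (h0 : ∑ i, c i = 0)
    (h1 : ∑ i, c i • GW2_P A ρ β s x i = 0) : c = 0 := by
  classical
  rw [Fintype.sum_sum_type] at h0 h1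
  have f1 := congrArg Prod.fst h1
  have f2 := congrArg Prod.snd h1
  simp only [GW2_P, Sum.elim_inl, Sum.elim_inr, Prod.fst_add, Prod.snd_add, Prod.fst_sum,
    Prod.snd_sum, Prod.smul_fst, Prod.smul_snd, Prod.fst_zero, Prod.snd_zero] at f1 f2
  rw [← Finset.sum_smul] at f1
  set S : ZMod 2 := ∑ k, c (Sum.inr k) with hS
  have he := GW2_ind h (fun n => c (Sum.inl n) + if n = s then S else 0)
    (by rw [Finset.sum_add_distrib, Finset.sum_ite_eq' Finset.univ s, if_pos (Finset.mem_univ s)]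
        exact h0)
    (by
      simp only [add_smul, Finset.sum_add_distrib, ite_smul, zero_smul]
      rw [Finset.sum_ite_eq' Finset.univ s, if_pos (Finset.mem_univ s)]
      exact f1)
  have hn : ∀ n, n ≠ s → c (Sum.inl n) = 0 := by
    intro n hn
    have := congrFun he n
    simpa [hn] using this
  have hs : c (Sum.inl s) + S = 0 := by
    have := congrFun he s
    simpa using this
  rw [Finset.sum_eq_single s (fun n _ hns => by rw [hn n hns, zero_smul])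
    (fun h' => absurd (Finset.mem_univ s) h')] at f2
  obtain ⟨g1, g2⟩ := hloc (c (Sum.inl s)) (fun k => c (Sum.inr k)) hs f2
  funext i
  rcases i with n | k
  · by_cases hns : n = s
    · rw [hns]; exact g1
    · exact hn n hns
  · exact congrFun g2 k

theorem GW2_ne {α ι : Type*} [Fintype ι] (P : ι → (α → ZMod 2) × (Fin 2 → ZMod 2)) (i0 : Fin 2)
    (hP : ∀ i, (P i).2 i0 = 0) (v : (α → ZMod 2) × (Fin 2 → ZMod 2)) (hv : v.2 i0 ≠ 0)
    (c : ι → ZMod 2) : ∑ i, c i • P i ≠ v := by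
  intro h
  apply hv
  rw [← h, Prod.snd_sum, Finset.sum_apply]
  refine Finset.sum_eq_zero fun i _ => ?_
  rw [Prod.smul_snd, Pi.smul_apply, hP, smul_zero]

/-- what is used of type W2 -/
structure GW2_W {α : Type*} (A B : Set α) (ρ : α → ℕ) (m : ℕ)
    (w : α → (α → ZMod 2) × (Fin 2 → ZMod 2)) : Prop where
  bij : BijOn ρ A (Iio m)
  onA : ∀ a ∈ A, w a = (GW2_I A ρ (ρ a) + GW2_I A ρ (ρ a + 1), 0)
  onB : ∀ b ∈ B, (∃ n, (n = 0 ∨ n = m) ∧ (w b = (GW2_I A ρ n, ![1, 0]) ∨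
    w b = (GW2_I A ρ n, ![0, 1]))) ∨ ∃ n, n ≤ m ∧ w b = (GW2_I A ρ n, ![1, 1])

theorem GW2_val : ∀ x : Fin 2 → ZMod 2, x ≠ 0 → x = ![1, 0] ∨ x = ![0, 1] ∨ x = ![1, 1] := by
  decide

theorem GW2_get {M : Matroid α} {A B : Set α} (hfin : M.E.Finite) (hAB : A ∪ B = M.E)
    (hd : Disjoint A B) (h : TypeW2 M A B) :
    ∃ (ρ : α → ℕ) (m : ℕ) (w : α → (α → ZMod 2) × (Fin 2 → ZMod 2)),
      GW2_W A B ρ m w ∧ RepBy (ZMod 2) M w := by
  obtain ⟨Y, t, ⟨hYA, hrep⟩, h0, h1, h2⟩ := h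
  have hAfin : A.Finite := hfin.subset (by rw [← hAB]; exact subset_union_left)
  obtain ⟨ρ, hρ, hW⟩ := chain_order hAfin {W | ∃ b ∈ B, t b = ![1, 1] ∧ W = Y b}
    (by rintro W ⟨b, hb, -, rfl⟩; exact hYA b hb)
    (by rintro W ⟨b, hb, hb', rfl⟩ W' ⟨c, hc, hc', rfl⟩; exact h2 b hb c hc hb' hc')
  refine ⟨ρ, A.ncard, bvec A Y t, ⟨hρ, fun a ha => GW2_bvec_A hρ Y t ha, ?_⟩, ?_⟩
  · intro b hb
    have hbA : b ∉ A := fun hbA => hd.le_bot ⟨hbA, hb⟩
    rw [GW2_bvec_B Y t hbA]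
    have hcase : t b ≠ ![1, 1] → ∃ n, (n = 0 ∨ n = A.ncard) ∧ (Y b).indicator 1 = GW2_I A ρ n := by
      intro hne
      rcases h1 b hb hne with hY | hY
      · refine ⟨0, Or.inl rfl, ?_⟩
        rw [hY, GW2_I_zero, Set.indicator_empty]
        rfl
      · refine ⟨A.ncard, Or.inr rfl, ?_⟩
        rw [hY, GW2_I_full hρ]
    rcases GW2_val (t b) (h0 b hb) with ht | ht | ht
    · obtain ⟨n, hn, e⟩ := hcase (by rw [ht]; decide)
      exact Or.inl ⟨n, hn, Or.inl (by rw [e, ht])⟩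
    · obtain ⟨n, hn, e⟩ := hcase (by rw [ht]; decide)
      exact Or.inl ⟨n, hn, Or.inr (by rw [e, ht])⟩
    · refine Or.inr ⟨(Y b).ncard, Set.ncard_le_ncard (hYA b hb) hAfin, ?_⟩
      rw [ht]
      have := hW (Y b) ⟨b, hb, ht, rfl⟩
      unfold GW2_I
      rw [← this]
  · intro I hI
    exact hrep I (by rw [hAB]; exact hI)

/-- contraction of an element of the first kind -/
theorem GW2_con1 {M : Matroid α} {A B : Set α} (hfin : M.E.Finite) (hAB : A ∪ B = M.E)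
    {ρ : α → ℕ} {m : ℕ} {w : α → (α → ZMod 2) × (Fin 2 → ZMod 2)} (hW : GW2_W A B ρ m w)
    (hw : RepBy (ZMod 2) M w) {b : α} (hb : b ∈ B) (i0 : Fin 2) (f g : Fin 2 → ZMod 2)
    (hfg : (i0 = 0 ∧ f = ![1, 0] ∧ g = ![0, 1]) ∨ (i0 = 1 ∧ f = ![0, 1] ∧ g = ![1, 0]))
    (s : ℕ) (hs : s = 0 ∨ s = m) (hwb : w b = (GW2_I A ρ s, f)) : Regular (M ／ {b}) := by
  classical
  have hbE : b ∈ M.E := by rw [← hAB]; exact Or.inr hb
  have hsm : s < m + 1 := by rcases hs with rfl | rfl <;> omega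
  let P := GW2_P A ρ (fun _ : Fin (m + 1) => (0 : Fin 2 → ZMod 2)) ⟨s, hsm⟩ (fun _ : Unit => g)
  have hPl : ∀ n (hn : n < m + 1), P (Sum.inl ⟨n, hn⟩) = (GW2_I A ρ n, 0) := fun n hn => rfl
  have hPr : P (Sum.inr ()) = (GW2_I A ρ s, g) := rfl
  refine regular_con_of_graph hfin hw hbE P ?_ ?_
  · intro e he _
    rw [← hAB] at he
    rcases he with he | he
    · have hlt : ρ e < m := hW.bij.mapsTo he
      refine ⟨Sum.inl ⟨ρ e, by omega⟩, Sum.inl ⟨ρ e + 1, by omega⟩, Or.inl ?_⟩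
      rw [hPl, hPl, hW.onA e he, Prod.mk_add_mk, add_zero]
    · rcases hW.onB e he with ⟨n, hn, hwe⟩ | ⟨n, hn, hwe⟩
      · have hnm : n < m + 1 := by rcases hn with rfl | rfl <;> omega
        have hcase : w e = (GW2_I A ρ n, f) ∨ w e = (GW2_I A ρ n, g) := by
          rcases hfg with ⟨-, rfl, rfl⟩ | ⟨-, rfl, rfl⟩
          · exact hwe
          · exact hwe.symm
        rcases hcase with hwe | hwe
        · refine ⟨Sum.inl ⟨n, hnm⟩, Sum.inl ⟨s, hsm⟩, Or.inr ?_⟩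
          rw [hPl, hPl, hwe, hwb, Prod.mk_add_mk, Prod.mk_add_mk, add_assoc, GW2_self, add_zero,
            add_zero, zero_add]
        · by_cases hns : n = s
          · refine ⟨Sum.inr (), Sum.inl ⟨0, by omega⟩, Or.inl ?_⟩
            rw [hPl, hPr, hwe, hns, Prod.mk_add_mk, GW2_I_zero, add_zero, add_zero]
          · refine ⟨Sum.inr (), Sum.inl ⟨m, by omega⟩, Or.inl ?_⟩
            rw [hPl, hPr, hwe, Prod.mk_add_mk, add_zero]
            rcases hn with rfl | rfl <;> rcases hs with rfl | rfl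
            · exact absurd rfl hns
            · rw [GW2_self, GW2_I_zero]
            · rw [GW2_I_zero, zero_add]
            · exact absurd rfl hns
      · refine ⟨Sum.inr (), Sum.inl ⟨n, by omega⟩, Or.inr ?_⟩
        rw [hPl, hPr, hwe, hwb, Prod.mk_add_mk, Prod.mk_add_mk]
        refine Prod.ext ?_ ?_
        · show GW2_I A ρ n = GW2_I A ρ s + GW2_I A ρ n + GW2_I A ρ s
          rw [add_comm (GW2_I A ρ s) (GW2_I A ρ n), add_assoc, GW2_self, add_zero]
        · show ![1, 1] = g + 0 + f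
          rcases hfg with ⟨-, rfl, rfl⟩ | ⟨-, rfl, rfl⟩ <;> decide
  · intro c hc h
    have hloc : ∀ (c0 : ZMod 2) (c : Unit → ZMod 2), c0 + ∑ k, c k = 0 →
        c0 • (0 : Fin 2 → ZMod 2) + ∑ k, c k • g = 0 → c0 = 0 ∧ c = 0 := by
      rcases hfg with ⟨-, rfl, rfl⟩ | ⟨-, rfl, rfl⟩ <;> decide
    rcases h with h | h
    · exact GW2_hind hW.bij _ _ _ hloc c hc h
    · exfalso
      refine GW2_ne P i0 ?_ (w b) ?_ c h
      · rintro (i | i)
        · rfl
        · show g i0 = 0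
          rcases hfg with ⟨rfl, rfl, rfl⟩ | ⟨rfl, rfl, rfl⟩ <;> rfl
      · rw [hwb]
        show f i0 ≠ 0
        rcases hfg with ⟨rfl, rfl, rfl⟩ | ⟨rfl, rfl, rfl⟩ <;> decide

/-- contraction of an element of the second kind -/
theorem GW2_con2 {M : Matroid α} {A B : Set α} (hfin : M.E.Finite) (hAB : A ∪ B = M.E)
    {ρ : α → ℕ} {m : ℕ} {w : α → (α → ZMod 2) × (Fin 2 → ZMod 2)} (hW : GW2_W A B ρ m w)
    (hw : RepBy (ZMod 2) M w) {b : α} (hb : b ∈ B) (s : ℕ) (hs : s ≤ m)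
    (hwb : w b = (GW2_I A ρ s, ![1, 1])) : Regular (M ／ {b}) := by
  classical
  have hbE : b ∈ M.E := by rw [← hAB]; exact Or.inr hb
  have hsm : s < m + 1 := by omega
  let P := GW2_P A ρ (fun n : Fin (m + 1) => if (n : ℕ) ≤ s then (0 : Fin 2 → ZMod 2) else ![0, 1])
    ⟨s, hsm⟩ (fun _ : Unit => ![0, 1])
  have hPl : ∀ n (hn : n < m + 1), n ≤ s → P (Sum.inl ⟨n, hn⟩) = (GW2_I A ρ n, 0) := by
    intro n hn hns
    show (GW2_I A ρ n, if n ≤ s then (0 : Fin 2 → ZMod 2) else ![0, 1]) = _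
    rw [if_pos hns]
  -- the upper vertices
  have hPu : ∀ n, s ≤ n → n < m + 1 → ∃ i, P i = (GW2_I A ρ n, ![0, 1]) := by
    intro n hns hn
    rcases Nat.eq_or_lt_of_le hns with h | h
    · exact ⟨Sum.inr (), by rw [← h]; rfl⟩
    · refine ⟨Sum.inl ⟨n, hn⟩, ?_⟩
      show (GW2_I A ρ n, if n ≤ s then (0 : Fin 2 → ZMod 2) else ![0, 1]) = _
      rw [if_neg (by omega)]
  refine regular_con_of_graph hfin hw hbE P ?_ ?_
  · intro e he _
    rw [← hAB] at he
    rcases he with he | he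
    · have hlt : ρ e < m := hW.bij.mapsTo he
      rw [hW.onA e he]
      by_cases hes : ρ e + 1 ≤ s
      · refine ⟨Sum.inl ⟨ρ e, by omega⟩, Sum.inl ⟨ρ e + 1, by omega⟩, Or.inl ?_⟩
        rw [hPl _ _ (by omega), hPl _ _ hes, Prod.mk_add_mk, add_zero]
      · obtain ⟨i, hi⟩ := hPu (ρ e) (by omega) (by omega)
        obtain ⟨j, hj⟩ := hPu (ρ e + 1) (by omega) (by omega)
        refine ⟨i, j, Or.inl ?_⟩
        rw [hi, hj, Prod.mk_add_mk]
        refine Prod.ext rfl ?_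
        show (0 : Fin 2 → ZMod 2) = ![0, 1] + ![0, 1]
        decide
    · rcases hW.onB e he with ⟨n, hn, hwe | hwe⟩ | ⟨n, hn, hwe⟩
      · rw [hwe]
        rcases hn with rfl | rfl
        · -- (∅; 10)
          obtain ⟨i, hi⟩ := hPu s le_rfl hsm
          refine ⟨Sum.inl ⟨0, by omega⟩, i, Or.inr ?_⟩
          rw [hPl _ _ (Nat.zero_le s), hi, hwb, Prod.mk_add_mk, Prod.mk_add_mk]
          refine Prod.ext ?_ ?_
          · show GW2_I A ρ 0 = GW2_I A ρ 0 + GW2_I A ρ s + GW2_I A ρ s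
            rw [add_assoc, GW2_self, add_zero]
          · show (![1, 0] : Fin 2 → ZMod 2) = 0 + ![0, 1] + ![1, 1]
            decide
        · obtain ⟨i, hi⟩ := hPu n hs (by omega)
          refine ⟨Sum.inl ⟨s, by omega⟩, i, Or.inr ?_⟩
          rw [hPl _ _ le_rfl, hi, hwb, Prod.mk_add_mk, Prod.mk_add_mk]
          refine Prod.ext ?_ ?_
          · show GW2_I A ρ n = GW2_I A ρ s + GW2_I A ρ n + GW2_I A ρ s
            rw [add_comm (GW2_I A ρ s) (GW2_I A ρ n), add_assoc, GW2_self, add_zero]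
          · show (![1, 0] : Fin 2 → ZMod 2) = 0 + ![0, 1] + ![1, 1]
            decide
      · rw [hwe]
        rcases hn with rfl | rfl
        · -- (∅; 01)
          obtain ⟨i, hi⟩ := hPu s le_rfl hsm
          refine ⟨Sum.inl ⟨s, hsm⟩, i, Or.inl ?_⟩
          rw [hPl _ _ le_rfl, hi, Prod.mk_add_mk, GW2_self, GW2_I_zero, zero_add]
        · obtain ⟨i, hi⟩ := hPu n hs (by omega)
          refine ⟨Sum.inl ⟨0, by omega⟩, i, Or.inl ?_⟩
          rw [hPl _ _ (Nat.zero_le s), hi, Prod.mk_add_mk, GW2_I_zero, zero_add, zero_add]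
      · rw [hwe]
        by_cases hns : n ≤ s
        · refine ⟨Sum.inl ⟨n, by omega⟩, Sum.inl ⟨s, hsm⟩, Or.inr ?_⟩
          rw [hPl _ _ hns, hPl _ _ le_rfl, hwb, Prod.mk_add_mk, Prod.mk_add_mk, add_assoc, GW2_self,
            add_zero, add_zero, zero_add]
        · obtain ⟨i, hi⟩ := hPu s le_rfl hsm
          obtain ⟨j, hj⟩ := hPu n (by omega) (by omega)
          refine ⟨j, i, Or.inr ?_⟩
          rw [hi, hj, hwb, Prod.mk_add_mk, Prod.mk_add_mk, add_assoc, GW2_self, add_zero]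
          refine Prod.ext rfl ?_
          show (![1, 1] : Fin 2 → ZMod 2) = ![0, 1] + ![0, 1] + ![1, 1]
          decide
  · intro c hc h
    have hloc : ∀ (c0 : ZMod 2) (c : Unit → ZMod 2), c0 + ∑ k, c k = 0 →
        c0 • (if s ≤ s then (0 : Fin 2 → ZMod 2) else ![0, 1]) + ∑ k, c k • ![0, 1] = 0 →
        c0 = 0 ∧ c = 0 := by
      rw [if_pos le_rfl]
      decide
    rcases h with h | h
    · exact GW2_hind hW.bij _ _ _ hloc c hc h
    · exfalso
      refine GW2_ne P 0 ?_ (w b) ?_ c h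
      · rintro (i | i)
        · show (if (i : ℕ) ≤ s then (0 : Fin 2 → ZMod 2) else ![0, 1]) 0 = 0
          split_ifs <;> rfl
        · rfl
      · rw [hwb]
        show (![1, 1] : Fin 2 → ZMod 2) 0 ≠ 0
        decide

/-- deletion -/
theorem GW2_del {M : Matroid α} {A B : Set α} (hfin : M.E.Finite) (hAB : A ∪ B = M.E)
    {ρ : α → ℕ} {m : ℕ} {w : α → (α → ZMod 2) × (Fin 2 → ZMod 2)} (hW : GW2_W A B ρ m w)
    (hw : RepBy (ZMod 2) M w) {a : α} (ha : a ∈ A) : Regular (M ＼ {a}) := by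
  classical
  have hj : ρ a < m := hW.bij.mapsTo ha
  let P := GW2_P A ρ (fun n : Fin (m + 1) => if (n : ℕ) ≤ ρ a then ![0, 1] else ![1, 1])
    ⟨0, by omega⟩ (![0, ![1, 0]] : Fin 2 → Fin 2 → ZMod 2)
  have hPl : ∀ n (hn : n < m + 1), n ≤ ρ a → P (Sum.inl ⟨n, hn⟩) = (GW2_I A ρ n, ![0, 1]) := by
    intro n hn hns
    show (GW2_I A ρ n, if n ≤ ρ a then ![0, 1] else ![1, 1]) = _
    rw [if_pos hns]
  have hPu : ∀ n (hn : n < m + 1), ρ a < n → P (Sum.inl ⟨n, hn⟩) = (GW2_I A ρ n, ![1, 1]) := by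
    intro n hn hns
    show (GW2_I A ρ n, if n ≤ ρ a then ![0, 1] else ![1, 1]) = _
    rw [if_neg (by omega)]
  have hP0 : P (Sum.inr 0) = (0, 0) := by
    show (GW2_I A ρ 0, _) = _
    rw [GW2_I_zero]
    rfl
  have hP1 : P (Sum.inr 1) = (0, ![1, 0]) := by
    show (GW2_I A ρ 0, _) = _
    rw [GW2_I_zero]
    rfl
  refine regular_del_of_graph hfin hw P ?_ ?_
  · intro e he hea
    rw [← hAB] at he
    rcases he with he | he
    · have hlt : ρ e < m := hW.bij.mapsTo he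
      have hne : ρ e ≠ ρ a := fun h => hea (hW.bij.injOn he ha h)
      rw [hW.onA e he]
      refine ⟨Sum.inl ⟨ρ e, by omega⟩, Sum.inl ⟨ρ e + 1, by omega⟩, ?_⟩
      by_cases hes : ρ e < ρ a
      · rw [hPl _ _ (by omega), hPl _ _ (by omega), Prod.mk_add_mk]
        refine Prod.ext rfl ?_
        show (0 : Fin 2 → ZMod 2) = ![0, 1] + ![0, 1]
        decide
      · rw [hPu _ _ (by omega), hPu _ _ (by omega), Prod.mk_add_mk]
        refine Prod.ext rfl ?_
        show (0 : Fin 2 → ZMod 2) = ![1, 1] + ![1, 1]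
        decide
    · rcases hW.onB e he with ⟨n, hn, hwe | hwe⟩ | ⟨n, hn, hwe⟩
      · rw [hwe]
        rcases hn with rfl | rfl
        · refine ⟨Sum.inr 0, Sum.inr 1, ?_⟩
          rw [hP0, hP1, Prod.mk_add_mk, GW2_I_zero, add_zero, zero_add]
        · refine ⟨Sum.inl ⟨n, by omega⟩, Sum.inl ⟨0, by omega⟩, ?_⟩
          rw [hPu _ _ hj, hPl _ _ (Nat.zero_le _), Prod.mk_add_mk, GW2_I_zero, add_zero]
          refine Prod.ext rfl ?_
          show (![1, 0] : Fin 2 → ZMod 2) = ![1, 1] + ![0, 1]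
          decide
      · rw [hwe]
        rcases hn with rfl | rfl
        · refine ⟨Sum.inr 0, Sum.inl ⟨0, by omega⟩, ?_⟩
          rw [hP0, hPl _ _ (Nat.zero_le _), Prod.mk_add_mk, zero_add, zero_add]
        · refine ⟨Sum.inl ⟨n, by omega⟩, Sum.inr 1, ?_⟩
          rw [hPu _ _ hj, hP1, Prod.mk_add_mk, add_zero]
          refine Prod.ext rfl ?_
          show (![0, 1] : Fin 2 → ZMod 2) = ![1, 1] + ![1, 0]
          decide
      · rw [hwe]
        by_cases hns : n ≤ ρ a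
        · refine ⟨Sum.inr 1, Sum.inl ⟨n, by omega⟩, ?_⟩
          rw [hP1, hPl _ _ hns, Prod.mk_add_mk, zero_add]
          refine Prod.ext rfl ?_
          show (![1, 1] : Fin 2 → ZMod 2) = ![1, 0] + ![0, 1]
          decide
        · refine ⟨Sum.inr 0, Sum.inl ⟨n, by omega⟩, ?_⟩
          rw [hP0, hPu _ _ (by omega), Prod.mk_add_mk, zero_add, zero_add]
  · intro c hc h
    have hloc : ∀ (c0 : ZMod 2) (c : Fin 2 → ZMod 2), c0 + ∑ k, c k = 0 →
        c0 • (if 0 ≤ ρ a then ![0, 1] else ![1, 1] : Fin 2 → ZMod 2) +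
          ∑ k, c k • (![0, ![1, 0]] : Fin 2 → Fin 2 → ZMod 2) k = 0 →
        c0 = 0 ∧ c = 0 := by
      rw [if_pos (Nat.zero_le _)]
      decide
    exact GW2_hind hW.bij _ _ _ hloc c hc h

theorem typeW2_con {M : Matroid α} {A B : Set α} (hfin : M.E.Finite) (hAB : A ∪ B = M.E)
    (hd : Disjoint A B) (h : TypeW2 M A B) {b : α} (hb : b ∈ B) : Regular (M ／ {b}) := by
  obtain ⟨ρ, m, w, hW, hw⟩ := GW2_get hfin hAB hd h
  rcases hW.onB b hb with ⟨n, hn, hwb | hwb⟩ | ⟨n, hn, hwb⟩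
  · exact GW2_con1 hfin hAB hW hw hb 0 ![1, 0] ![0, 1] (Or.inl ⟨rfl, rfl, rfl⟩) n hn hwb
  · exact GW2_con1 hfin hAB hW hw hb 1 ![0, 1] ![1, 0] (Or.inr ⟨rfl, rfl, rfl⟩) n hn hwb
  · exact GW2_con2 hfin hAB hW hw hb n hn hwb

theorem typeW2_del {M : Matroid α} {A B : Set α} (hfin : M.E.Finite) (hAB : A ∪ B = M.E)
    (hd : Disjoint A B) (h : TypeW2 M A B) {a : α} (ha : a ∈ A) : Regular (M ＼ {a}) := by
  obtain ⟨ρ, m, w, hW, hw⟩ := GW2_get hfin hAB hd h
  exact GW2_del hfin hAB hW hw ha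

end Pool.Agent.Helper43_EOR
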