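import Mathlib
import Pool.Agent.Helper43_EOR.G2

set_option autoImplicit false

namespace Pool.Agent.Helper43_EOR

open Set Matroid

variable {α : Type*}


/-
JOB GX1 (type X1 gives regular minors). Number the elements of A₁, A₂, A₃ (chain_order with 𝒲 = ∅); [0,n)_i are the
initial segments, m_i = |A_i|. Elements: a ∈ A; (A₁ ∪ A₂; 0); (∅;1), (A₁ ∪ A₂;1), (A₁ ∪ A₃;1), (A₂ ∪ A₃;1).
con, b0 with t b0 = 0, w b0 = (A₁ ∪ A₂; 0): vertices ([0,n)_1;0) 0 ≤ n ≤ m_1, (A₁ ∪ [0,n)_2; 0) 0 ≤ n ≤ m_2 (the last one is ∅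
mod w b0, counted once), (A₁ ∪ [0,n)_3; 0) 0 ≤ n ≤ m_3, (∅;1). Elements: (∅;1) = (A₁ ∪ A₂;1) = (∅;0) + (∅;1);
(A₁ ∪ A₃;1) = (A₂ ∪ A₃;1) = (A₁ ∪ A₃;0) + (∅;1).
con, b0 with t b0 = 1: vertices ([0,n)_i;0), i = 1,2,3, 0 ≤ n ≤ m_i. Elements: (A_i ∪ A_j; 0) = (A_i;0) + (A_j;0);
(Y b; 1) = (Y b + Y b0; 0) mod w b0 is ∅ or some A_i ∪ A_j.
del, a0 ∈ A₃: vertices ([0,n)_1;0) 0 ≤ n ≤ m_1, (A₁ ∪ [0,n)_2; 0) 0 ≤ n ≤ m_2, (∅;1), (A₁ ∪ A₃;1), and ([0,n)' ;0) for the initial segments of a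
numbering of A₃ \ {a0}. Elements: (A₁ ∪ A₂;0) = (∅;0) + (A₁ ∪ A₂;0); (∅;1) = (∅;0) + (∅;1); (A₁ ∪ A₂;1) = (A₁ ∪ A₂;0) + (∅;1);
(A₁ ∪ A₃;1) = (∅;0) + itself; (A₂ ∪ A₃;1) = (A₁ ∪ A₂;0) + (A₁ ∪ A₃;1).
del, a0 ∈ A₁ (a0 ∈ A₂ is symmetric: exchange A₁ and A₂): vertices (∅;0), (A₁ ∪ A₂;0), ([0,n)_2;1) 0 ≤ n ≤ m_2,
(A₂ ∪ [0,n)_3;1) 0 ≤ n ≤ m_3, and ([0,n)';0) for a numbering of A₁ \ {a0}. Elements: (A₁ ∪ A₂;0), (∅;1) = (∅;0) + (∅;1),
(A₁ ∪ A₂;1) = (A₁ ∪ A₂;0) + (∅;1), (A₂ ∪ A₃;1) = (∅;0) + itself, (A₁ ∪ A₃;1) = (A₁ ∪ A₂;0) + (A₂ ∪ A₃;1).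
-/

/-- indicator of an initial segment -/
noncomputable def gx1_sg (ρ : α → ℕ) (T : Set α) (n : ℕ) : α → ZMod 2 :=
  {a | a ∈ T ∧ ρ a < n}.indicator 1

theorem gx1_sg_apply (ρ : α → ℕ) (T : Set α) (n : ℕ) (a : α) :
    gx1_sg ρ T n a = open Classical in if a ∈ T ∧ ρ a < n then 1 else 0 := by
  classical
  unfold gx1_sg
  by_cases h : a ∈ T ∧ ρ a < n
  · rw [Set.indicator_of_mem (show a ∈ {a | a ∈ T ∧ ρ a < n} from h), if_pos h]; rfl
  · rw [Set.indicator_of_notMem (show a ∉ {a | a ∈ T ∧ ρ a < n} from h), if_neg h]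

theorem gx1_sg_zero (ρ : α → ℕ) (T : Set α) : gx1_sg ρ T 0 = 0 := by
  classical
  funext a
  rw [gx1_sg_apply]
  simp

theorem gx1_sg_full {ρ : α → ℕ} {T : Set α} {k : ℕ} (h : BijOn ρ T (Set.Iio k)) :
    gx1_sg ρ T k = T.indicator 1 := by
  classical
  funext a
  rw [gx1_sg_apply, Set.indicator_apply]
  by_cases ha : a ∈ T
  · have := h.mapsTo ha
    rw [if_pos ⟨ha, this⟩, if_pos ha]; rfl
  · rw [if_neg (fun hh => ha hh.1), if_neg ha]

theorem gx1_edge {ρ : α → ℕ} {T : Set α} {k : ℕ} (h : BijOn ρ T (Set.Iio k)) {a : α} (ha : a ∈ T) :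
    open Classical in (Pi.single a 1 : α → ZMod 2) = gx1_sg ρ T (ρ a) + gx1_sg ρ T (ρ a + 1) := by
  classical
  funext x
  rw [Pi.add_apply, gx1_sg_apply, gx1_sg_apply]
  by_cases hx : x = a
  · subst hx
    rw [Pi.single_eq_same, if_neg (fun hh => lt_irrefl _ hh.2), if_pos ⟨ha, Nat.lt_succ_self _⟩,
      zero_add]
  · rw [Pi.single_eq_of_ne hx]
    by_cases hT : x ∈ T
    · have hne : ρ x ≠ ρ a := fun hh => hx (h.injOn hT ha hh)
      by_cases hlt : ρ x < ρ a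
      · rw [if_pos ⟨hT, hlt⟩, if_pos ⟨hT, by omega⟩]; decide
      · rw [if_neg (fun hh => hlt hh.2), if_neg (fun hh => by omega), add_zero]
    · rw [if_neg (fun hh => hT hh.1), if_neg (fun hh => hT hh.1), add_zero]

theorem gx1_tail {k : ℕ} (c : Fin k → ZMod 2)
    (h : ∀ j : ℕ, j < k → ∑ i : Fin k, (if j < (i : ℕ) + 1 then c i else 0) = 0) :
    ∀ i, c i = 0 := by
  have h' : ∀ j : ℕ, ∑ i : Fin k, (if j < (i : ℕ) + 1 then c i else 0) = 0 := by
    intro j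
    by_cases hj : j < k
    · exact h j hj
    · refine Finset.sum_eq_zero fun i _ => ?_
      rw [if_neg]
      have := i.2
      omega
  intro i
  have h1 := h' i
  have h2 := h' (i + 1)
  have h3 : ∑ x : Fin k, (if (i : ℕ) < (x : ℕ) + 1 then c x else 0) =
      ∑ x : Fin k, (if (i : ℕ) + 1 < (x : ℕ) + 1 then c x else 0) +
        ∑ x : Fin k, (if x = i then c x else 0) := by
    rw [← Finset.sum_add_distrib]
    refine Finset.sum_congr rfl fun x _ => ?_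
    by_cases hx : x = i
    · subst hx; simp
    · have hne : (x : ℕ) ≠ i := fun hh => hx (Fin.ext hh)
      rw [if_neg hx, add_zero]
      by_cases hlt : (i : ℕ) < x
      · rw [if_pos (by omega), if_pos (by omega)]
      · rw [if_neg (by omega), if_neg (by omega)]
  rw [h1, h2, zero_add, Finset.sum_ite_eq' Finset.univ i, if_pos (Finset.mem_univ i)] at h3
  exact h3.symm

theorem gx1_arm {ρ : α → ℕ} {T : Set α} {k k' : ℕ} (hρ : BijOn ρ T (Set.Iio k)) (hk : k' ≤ k)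
    (c : Fin k' → ZMod 2)
    (h : ∀ a ∈ T, ∑ i : Fin k', c i * gx1_sg ρ T ((i : ℕ) + 1) a = 0) : ∀ i, c i = 0 := by
  classical
  apply gx1_tail
  intro j hj
  obtain ⟨a, ha, rfl⟩ := hρ.surjOn (show j ∈ Set.Iio k from lt_of_lt_of_le hj hk)
  refine Eq.trans ?_ (h a ha)
  refine Finset.sum_congr rfl fun i _ => ?_
  rw [gx1_sg_apply]
  by_cases hlt : ρ a < (i : ℕ) + 1
  · rw [if_pos hlt, if_pos ⟨ha, hlt⟩, mul_one]
  · rw [if_neg hlt, if_neg (fun hh => hlt hh.2), mul_zero]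

theorem gx1_order {T : Set α} (hT : T.Finite) :
    ∃ ρ : α → ℕ, BijOn ρ T (Set.Iio T.ncard) := by
  obtain ⟨ρ, h, -⟩ := chain_order hT ∅ (fun W hW => absurd hW (Set.notMem_empty W))
    (fun W hW => absurd hW (Set.notMem_empty W))
  exact ⟨ρ, h⟩

theorem gx1_out {ρ : α → ℕ} {T : Set α} {n : ℕ} {a : α} (ha : a ∉ T) : gx1_sg ρ T n a = 0 := by
  classical
  rw [gx1_sg_apply, if_neg (fun hh => ha hh.1)]

theorem gx1_two (x : ZMod 2) : x = 0 ∨ x = 1 := by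
  revert x; decide

theorem gx1_self {V : Type*} [AddCommGroup V] [Module (ZMod 2) V] (v : V) : v + v = 0 := by
  have : (1 + 1 : ZMod 2) • v = 0 := by
    have h : (1 + 1 : ZMod 2) = 0 := by decide
    rw [h, zero_smul]
  rwa [add_smul, one_smul] at this

theorem gx1_c2 {V : Type*} [AddCommGroup V] [Module (ZMod 2) V] (u v w : V) :
    v + w = u + w + (u + v) := by
  have : u + w + (u + v) = (u + u) + (v + w) := by abel
  rw [this, gx1_self, zero_add]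

/-- the space of the representation -/
abbrev gx1_V (α : Type*) := (α → ZMod 2) × (Fin 1 → ZMod 2)

theorem gx1_t (x : Fin 1 → ZMod 2) (h : x ≠ 0) : x = 1 := by
  funext i
  rcases gx1_two (x i) with h1 | h1
  · exfalso
    apply h
    funext j
    rw [Subsingleton.elim j i, h1]; rfl
  · rw [h1]; rfl

theorem gx1_union {S T : Set α} (h : Disjoint S T) :
    ((S ∪ T).indicator 1 : α → ZMod 2) = S.indicator 1 + T.indicator 1 := by
  rw [Set.indicator_union_of_disjoint h]; rfl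

/-- the elements in terms of the three sets -/
theorem gx1_cases {A B : Set α} {Y : α → Set α} {t : α → Fin 1 → ZMod 2} {A₁ A₂ A₃ : Set α}
    (h12 : Disjoint A₁ A₂) (h13 : Disjoint A₁ A₃) (h23 : Disjoint A₂ A₃) (hd : Disjoint A B)
    (h0 : ∀ b ∈ B, t b = 0 → Y b = A₁ ∪ A₂)
    (h1 : ∀ b ∈ B, t b ≠ 0 → (Y b = ∅ ∨ Y b = A₁ ∪ A₂ ∨ Y b = A₁ ∪ A₃ ∨ Y b = A₂ ∪ A₃))
    {e : α} (he : e ∈ B) :
    (t e = 0 ∧ bvec A Y t e = (A₁.indicator 1 + A₂.indicator 1, 0)) ∨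
    (t e = 1 ∧ (bvec A Y t e = (0, 1) ∨ bvec A Y t e = (A₁.indicator 1 + A₂.indicator 1, 1) ∨
      bvec A Y t e = (A₁.indicator 1 + A₃.indicator 1, 1) ∨
      bvec A Y t e = (A₂.indicator 1 + A₃.indicator 1, 1))) := by
  classical
  have heA : e ∉ A := fun h => (Set.disjoint_left.mp hd h he)
  have hv : bvec A Y t e = ((Y e).indicator 1, t e) := by
    unfold bvec; rw [if_neg heA]
  by_cases ht : t e = 0
  · left
    refine ⟨ht, ?_⟩
    rw [hv, ht, h0 e he ht, gx1_union h12]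
  · right
    have ht1 := gx1_t _ ht
    refine ⟨ht1, ?_⟩
    rw [hv, ht1]
    rcases h1 e he ht with h | h | h | h
    · left; rw [h, Set.indicator_empty]; rfl
    · right; left; rw [h, gx1_union h12]
    · right; right; left; rw [h, gx1_union h13]
    · right; right; right; rw [h, gx1_union h23]

theorem gx1_vec_A {A : Set α} {Y : α → Set α} {t : α → Fin 1 → ZMod 2} {e : α} (he : e ∈ A) :
    bvec A Y t e = open Classical in (Pi.single e 1, 0) := by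
  classical
  unfold bvec; rw [if_pos he]

/-- edges from vertices, contraction version -/
theorem gx1_mk_con {V : Type*} [AddCommGroup V] [Module (ZMod 2) V] {ι : Type*} (P : ι → V)
    (z v x y : V) (hx : ∃ p, P p = x ∨ P p = x + z) (hy : ∃ p, P p = y ∨ P p = y + z)
    (hv : v = x + y ∨ v = x + y + z) : ∃ p q : ι, v = P p + P q ∨ v = P p + P q + z := by
  obtain ⟨p, hp⟩ := hx
  obtain ⟨q, hq⟩ := hy
  refine ⟨p, q, ?_⟩
  have hz := gx1_self z
  have e1 : ∀ u : V, u + z + z = u := fun u => by rw [add_assoc, hz, add_zero]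
  rcases hp with hp | hp <;> rcases hq with hq | hq <;> rcases hv with hv | hv <;> rw [hp, hq, hv]
  · left; rfl
  · right; rfl
  · right; rw [← add_assoc, e1]
  · left; rw [← add_assoc]
  · right
    have : x + z + y + z = x + y + z + z := by abel
    rw [this, e1]
  · left; abel
  · left
    have : x + z + (y + z) = x + y + z + z := by abel
    rw [this, e1]
  · right
    have : x + z + (y + z) = x + y + z + z := by abel
    rw [this, e1]


theorem gx1_rep {M : Matroid α} {A B : Set α} {Y : α → Set α} {t : α → Fin 1 → ZMod 2}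
    (hAB : A ∪ B = M.E) (hF : BinaryForm M A B Y t) : RepBy (ZMod 2) M (bvec A Y t) := by
  intro I hI
  exact hF.2 I (by rw [hAB]; exact hI)

/-- contraction of an element with `t b = 0` -/
theorem gx1_con0 {M : Matroid α} {A B : Set α} (hfin : M.E.Finite) (hAB : A ∪ B = M.E)
    (hd : Disjoint A B) {Y : α → Set α} {t : α → Fin 1 → ZMod 2} (hF : BinaryForm M A B Y t)
    {A₁ A₂ A₃ : Set α} (hA : A₁ ∪ A₂ ∪ A₃ = A) (h12 : Disjoint A₁ A₂) (h13 : Disjoint A₁ A₃)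
    (h23 : Disjoint A₂ A₃) (h0 : ∀ b ∈ B, t b = 0 → Y b = A₁ ∪ A₂)
    (h1 : ∀ b ∈ B, t b ≠ 0 → (Y b = ∅ ∨ Y b = A₁ ∪ A₂ ∨ Y b = A₁ ∪ A₃ ∨ Y b = A₂ ∪ A₃))
    {b : α} (hb : b ∈ B) (htb : t b = 0) : Regular (M ／ {b}) := by
  classical
  have hAfin : A.Finite := hfin.subset (hAB ▸ Set.subset_union_left)
  have hSA : A₁ ∪ A₂ ⊆ A := hA ▸ Set.subset_union_left
  have h3A : A₃ ⊆ A := hA ▸ Set.subset_union_right
  have hSfin : (A₁ ∪ A₂).Finite := hAfin.subset hSA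
  have h3fin : A₃.Finite := hAfin.subset h3A
  obtain ⟨ρ, hρ, hρW⟩ := chain_order hSfin {A₁} (by
    intro W hW; rw [Set.mem_singleton_iff] at hW; rw [hW]; exact Set.subset_union_left) (by
    intro W hW W' hW'
    rw [Set.mem_singleton_iff] at hW hW'
    rw [hW, hW']; exact Or.inl (Set.Subset.refl _))
  have hA1seg : gx1_sg ρ (A₁ ∪ A₂) A₁.ncard = A₁.indicator 1 := by
    have := hρW A₁ rfl
    unfold gx1_sg
    rw [← this]
  obtain ⟨ρ', hρ'⟩ := gx1_order h3fin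
  set m := (A₁ ∪ A₂).ncard with hm
  set m3 := A₃.ncard with hm3
  have hm1 : A₁.ncard ≤ m := Set.ncard_le_ncard Set.subset_union_left hSfin
  have hwb : bvec A Y t b = (A₁.indicator 1 + A₂.indicator 1, 0) := by
    rcases gx1_cases h12 h13 h23 hd h0 h1 hb with h | h
    · exact h.2
    · exfalso
      rw [htb] at h
      exact zero_ne_one (congrFun h.1 0)
  have hfull : gx1_sg ρ (A₁ ∪ A₂) m = A₁.indicator 1 + A₂.indicator 1 := by
    rw [gx1_sg_full hρ, gx1_union h12]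
  set z : gx1_V α := (A₁.indicator 1 + A₂.indicator 1, 0) with hz
  let P : Unit ⊕ (Fin (m - 1) ⊕ (Fin m3 ⊕ Unit)) → gx1_V α := fun p =>
    match p with
    | Sum.inl _ => 0
    | Sum.inr (Sum.inl i) => (gx1_sg ρ (A₁ ∪ A₂) ((i : ℕ) + 1), 0)
    | Sum.inr (Sum.inr (Sum.inl i)) => (A₁.indicator 1 + gx1_sg ρ' A₃ ((i : ℕ) + 1), 0)
    | Sum.inr (Sum.inr (Sum.inr _)) => (0, 1)
  have v0 : ∃ p, P p = 0 ∨ P p = 0 + z := ⟨Sum.inl (), Or.inl rfl⟩
  have vinf : ∃ p, P p = (0, 1) ∨ P p = (0, 1) + z :=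
    ⟨Sum.inr (Sum.inr (Sum.inr ())), Or.inl rfl⟩
  have vS : ∀ n ≤ m, ∃ p, P p = (gx1_sg ρ (A₁ ∪ A₂) n, 0) ∨
      P p = (gx1_sg ρ (A₁ ∪ A₂) n, 0) + z := by
    intro n hn
    rcases Nat.eq_zero_or_pos n with h | h
    · subst h
      refine ⟨Sum.inl (), Or.inl ?_⟩
      rw [gx1_sg_zero]; rfl
    · by_cases hnm : n = m
      · subst hnm
        refine ⟨Sum.inl (), Or.inr ?_⟩
        rw [hfull]
        exact (gx1_self z).symm
      · refine ⟨Sum.inr (Sum.inl ⟨n - 1, by omega⟩), Or.inl ?_⟩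
        have e1 : n - 1 + 1 = n := by omega
        change ((gx1_sg ρ (A₁ ∪ A₂) (n - 1 + 1), 0) : gx1_V α) = _
        rw [e1]
  have v3 : ∀ n ≤ m3, ∃ p, P p = (A₁.indicator 1 + gx1_sg ρ' A₃ n, 0) ∨
      P p = (A₁.indicator 1 + gx1_sg ρ' A₃ n, 0) + z := by
    intro n hn
    rcases Nat.eq_zero_or_pos n with h | h
    · subst h
      rw [gx1_sg_zero, add_zero, ← hA1seg]
      exact vS _ hm1
    · refine ⟨Sum.inr (Sum.inr (Sum.inl ⟨n - 1, by omega⟩)), Or.inl ?_⟩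
      have e1 : n - 1 + 1 = n := by omega
      change ((A₁.indicator 1 + gx1_sg ρ' A₃ (n - 1 + 1), 0) : gx1_V α) = _
      rw [e1]
  have hfull3 : gx1_sg ρ' A₃ m3 = A₃.indicator 1 := gx1_sg_full hρ'
  refine regular_con_of_graph hfin (gx1_rep hAB hF) (hAB ▸ Or.inr hb) P ?_ ?_
  · intro e he heb
    rw [hwb]
    rw [← hAB, ← hA] at he
    rcases he with (he | he) | he
    · -- e in S
      rw [gx1_vec_A (hSA he), gx1_edge hρ he]
      have hlt : ρ e < m := hρ.mapsTo he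
      refine gx1_mk_con P z _ (gx1_sg ρ (A₁ ∪ A₂) (ρ e), 0) (gx1_sg ρ (A₁ ∪ A₂) (ρ e + 1), 0)
        (vS _ hlt.le) (vS _ hlt) (Or.inl ?_)
      simp
    · rw [gx1_vec_A (h3A he), gx1_edge hρ' he]
      have hlt : ρ' e < m3 := hρ'.mapsTo he
      refine gx1_mk_con P z _ (A₁.indicator 1 + gx1_sg ρ' A₃ (ρ' e), 0)
        (A₁.indicator 1 + gx1_sg ρ' A₃ (ρ' e + 1), 0) (v3 _ hlt.le) (v3 _ hlt) (Or.inl ?_)
      refine Prod.ext ?_ (by simp)
      change _ = A₁.indicator 1 + gx1_sg ρ' A₃ (ρ' e) + (A₁.indicator 1 + gx1_sg ρ' A₃ (ρ' e + 1))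
      rw [← gx1_c2, add_comm]
    · rcases gx1_cases h12 h13 h23 hd h0 h1 he with ⟨-, h⟩ | ⟨-, h | h | h | h⟩
      · rw [h]
        exact gx1_mk_con P z _ 0 0 v0 v0 (Or.inr (by rw [add_zero, zero_add]))
      · rw [h]
        exact gx1_mk_con P z _ 0 (0, 1) v0 vinf (Or.inl (by rw [zero_add]))
      · rw [h]
        refine gx1_mk_con P z _ 0 (0, 1) v0 vinf (Or.inr ?_)
        rw [zero_add, hz, Prod.mk_add_mk, zero_add, add_zero]
      · rw [h]
        refine gx1_mk_con P z _ _ (0, 1) (v3 m3 le_rfl) vinf (Or.inl ?_)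
        rw [hfull3, Prod.mk_add_mk, zero_add, add_zero]
      · rw [h]
        refine gx1_mk_con P z _ _ (0, 1) (v3 m3 le_rfl) vinf (Or.inr ?_)
        refine Prod.ext ?_ (by simp [hz])
        rw [hfull3]
        change _ = A₁.indicator 1 + A₃.indicator 1 + 0 + (A₁.indicator 1 + A₂.indicator 1)
        rw [add_zero, ← gx1_c2]
  · intro c hc hs
    rw [hwb] at hs
    simp only [Fintype.sum_sum_type, Finset.univ_unique, Finset.sum_singleton] at hc hs
    -- second coordinate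
    have hs2 : c (Sum.inr (Sum.inr (Sum.inr ()))) = 0 := by
      have k1 : ∀ v : gx1_V α, (v = 0 ∨ v = z) → v.2 0 = 0 := by
        rintro v (rfl | rfl) <;> rfl
      have k2 := k1 _ hs
      simpa [P, Prod.snd_sum, Finset.sum_apply] using k2
    have hco : ∃ γ : ZMod 2, (γ = 0 ∨ γ = 1) ∧ ∀ a : α,
        (∑ i : Fin (m - 1), c (Sum.inr (Sum.inl i)) * gx1_sg ρ (A₁ ∪ A₂) ((i : ℕ) + 1) a) +
        (∑ i : Fin m3, c (Sum.inr (Sum.inr (Sum.inl i))) *
          ((A₁.indicator 1 : α → ZMod 2) a + gx1_sg ρ' A₃ ((i : ℕ) + 1) a)) =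
        γ * ((A₁ ∪ A₂).indicator 1 : α → ZMod 2) a := by
      rcases hs with hs | hs
      · refine ⟨0, Or.inl rfl, fun a => ?_⟩
        have k2 := congrFun (congrArg Prod.fst hs) a
        simpa [P, Prod.fst_sum, Finset.sum_apply, mul_add] using k2
      · refine ⟨1, Or.inr rfl, fun a => ?_⟩
        have k2 := congrFun (congrArg Prod.fst hs) a
        rw [gx1_union h12, one_mul]
        simpa [P, hz, Prod.fst_sum, Finset.sum_apply, mul_add] using k2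
    obtain ⟨γ, -, hγ⟩ := hco
    have hS3 : Disjoint (A₁ ∪ A₂) A₃ := Set.disjoint_union_left.mpr ⟨h13, h23⟩
    have c3 : ∀ i, c (Sum.inr (Sum.inr (Sum.inl i))) = 0 := by
      refine gx1_arm hρ' le_rfl (fun i => c (Sum.inr (Sum.inr (Sum.inl i)))) ?_
      intro a ha
      have k1 := hγ a
      have haS : a ∉ A₁ ∪ A₂ := fun h => Set.disjoint_left.mp hS3 h ha
      have ha1 : a ∉ A₁ := fun h => haS (Or.inl h)
      rw [Set.indicator_of_notMem haS, mul_zero, Finset.sum_eq_zero, zero_add] at k1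
      · rw [← k1]
        refine Finset.sum_congr rfl fun i _ => ?_
        rw [Set.indicator_of_notMem ha1, zero_add]
      · intro i _
        rw [gx1_out haS, mul_zero]
    have hγ2 : ∀ a ∈ A₁ ∪ A₂, ∑ i : Fin (m - 1),
        c (Sum.inr (Sum.inl i)) * gx1_sg ρ (A₁ ∪ A₂) ((i : ℕ) + 1) a = γ := by
      intro a ha
      have k1 := hγ a
      rw [Set.indicator_of_mem ha] at k1
      have k2 : ∑ i : Fin m3, c (Sum.inr (Sum.inr (Sum.inl i))) *
          ((A₁.indicator 1 : α → ZMod 2) a + gx1_sg ρ' A₃ ((i : ℕ) + 1) a) = 0 :=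
        Finset.sum_eq_zero fun i _ => by rw [c3 i, zero_mul]
      rw [k2, add_zero] at k1
      simpa using k1
    have cS : ∀ i, c (Sum.inr (Sum.inl i)) = 0 := by
      rcases Nat.eq_zero_or_pos m with h | h
      · intro i
        exact absurd i.2 (by omega)
      · have hγ0 : γ = 0 := by
          obtain ⟨a, ha, hae⟩ := hρ.surjOn (show m - 1 ∈ Set.Iio m from Nat.sub_lt h one_pos)
          rw [← hγ2 a ha]
          refine Finset.sum_eq_zero fun i _ => ?_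
          rw [gx1_sg_apply, if_neg, mul_zero]
          rintro ⟨-, h2⟩
          have := i.2
          omega
        refine gx1_arm hρ (Nat.sub_le m 1) (fun i => c (Sum.inr (Sum.inl i))) ?_
        intro a ha
        rw [← hγ0]
        exact hγ2 a ha
    have c0 : c (Sum.inl ()) = 0 := by
      rw [Finset.sum_eq_zero (fun i _ => cS i), Finset.sum_eq_zero (fun i _ => c3 i)] at hc
      simpa [hs2] using hc
    funext p
    rcases p with ⟨⟩ | (i | (i | ⟨⟩))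
    · exact c0
    · exact cS i
    · exact c3 i
    · exact hs2


/-- one of four vectors -/
def gx1_L (a b c x : α → ZMod 2) : Prop := x = 0 ∨ x = a + b ∨ x = a + c ∨ x = b + c

theorem gx1_closed (a b c x y : α → ZMod 2) (hx : gx1_L a b c x) (hy : gx1_L a b c y) :
    gx1_L a b c (x + y) := by
  unfold gx1_L at *
  have key : ∀ u v w : ZMod 2, (0 + 0 = (0 : ZMod 2)) ∧ (u + v + (u + v) = 0) ∧
      (u + w + (u + w) = 0) ∧ (v + w + (v + w) = 0) ∧ (u + v + (u + w) = v + w) ∧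
      (u + w + (u + v) = v + w) ∧ (u + v + (v + w) = u + w) ∧ (v + w + (u + v) = u + w) ∧
      (u + w + (v + w) = u + v) ∧ (v + w + (u + w) = u + v) := by decide
  rcases hx with rfl | rfl | rfl | rfl <;> rcases hy with rfl | rfl | rfl | rfl
  · left; rw [add_zero]
  · right; left; rw [zero_add]
  · right; right; left; rw [zero_add]
  · right; right; right; rw [zero_add]
  · right; left; rw [add_zero]
  · left; funext i; exact (key (a i) (b i) (c i)).2.1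
  · right; right; right; funext i; exact (key (a i) (b i) (c i)).2.2.2.2.1
  · right; right; left; funext i; exact (key (a i) (b i) (c i)).2.2.2.2.2.2.1
  · right; right; left; rw [add_zero]
  · right; right; right; funext i; exact (key (a i) (b i) (c i)).2.2.2.2.2.1
  · left; funext i; exact (key (a i) (b i) (c i)).2.2.1
  · right; left; funext i; exact (key (a i) (b i) (c i)).2.2.2.2.2.2.2.2.1
  · right; right; right; rw [add_zero]
  · right; right; left; funext i; exact (key (a i) (b i) (c i)).2.2.2.2.2.2.2.1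
  · right; left; funext i; exact (key (a i) (b i) (c i)).2.2.2.2.2.2.2.2.2
  · left; funext i; exact (key (a i) (b i) (c i)).2.2.2.1

/-- contraction of an element with `t b = 1` -/
theorem gx1_con1 {M : Matroid α} {A B : Set α} (hfin : M.E.Finite) (hAB : A ∪ B = M.E)
    (hd : Disjoint A B) {Y : α → Set α} {t : α → Fin 1 → ZMod 2} (hF : BinaryForm M A B Y t)
    {A₁ A₂ A₃ : Set α} (hA : A₁ ∪ A₂ ∪ A₃ = A) (h12 : Disjoint A₁ A₂) (h13 : Disjoint A₁ A₃)
    (h23 : Disjoint A₂ A₃) (h0 : ∀ b ∈ B, t b = 0 → Y b = A₁ ∪ A₂)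
    (h1 : ∀ b ∈ B, t b ≠ 0 → (Y b = ∅ ∨ Y b = A₁ ∪ A₂ ∨ Y b = A₁ ∪ A₃ ∨ Y b = A₂ ∪ A₃))
    {b : α} (hb : b ∈ B) (htb : t b ≠ 0) : Regular (M ／ {b}) := by
  classical
  have hAfin : A.Finite := hfin.subset (hAB ▸ Set.subset_union_left)
  have h1A : A₁ ⊆ A := hA ▸ (Set.subset_union_left.trans Set.subset_union_left)
  have h2A : A₂ ⊆ A := hA ▸ (Set.subset_union_right.trans Set.subset_union_left)
  have h3A : A₃ ⊆ A := hA ▸ Set.subset_union_right
  obtain ⟨ρ₁, hρ₁⟩ := gx1_order (hAfin.subset h1A)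
  obtain ⟨ρ₂, hρ₂⟩ := gx1_order (hAfin.subset h2A)
  obtain ⟨ρ₃, hρ₃⟩ := gx1_order (hAfin.subset h3A)
  set m1 := A₁.ncard with hm1
  set m2 := A₂.ncard with hm2
  set m3 := A₃.ncard with hm3
  have hB : ∀ e ∈ B, t e ≠ 0 → ∃ y, gx1_L (A₁.indicator 1) (A₂.indicator 1) (A₃.indicator 1) y ∧
      bvec A Y t e = (y, 1) := by
    intro e he hte
    rcases gx1_cases h12 h13 h23 hd h0 h1 he with h | ⟨-, h | h | h | h⟩
    · exact absurd h.1 hte
    · exact ⟨_, Or.inl rfl, h⟩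
    · exact ⟨_, Or.inr (Or.inl rfl), h⟩
    · exact ⟨_, Or.inr (Or.inr (Or.inl rfl)), h⟩
    · exact ⟨_, Or.inr (Or.inr (Or.inr rfl)), h⟩
  obtain ⟨yb, hyb, hwb⟩ := hB b hb htb
  set z : gx1_V α := (yb, 1) with hz
  let P : Unit ⊕ (Fin m1 ⊕ (Fin m2 ⊕ Fin m3)) → gx1_V α := fun p =>
    match p with
    | Sum.inl _ => 0
    | Sum.inr (Sum.inl i) => (gx1_sg ρ₁ A₁ ((i : ℕ) + 1), 0)
    | Sum.inr (Sum.inr (Sum.inl i)) => (gx1_sg ρ₂ A₂ ((i : ℕ) + 1), 0)
    | Sum.inr (Sum.inr (Sum.inr i)) => (gx1_sg ρ₃ A₃ ((i : ℕ) + 1), 0)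
  have v0 : ∃ p, P p = 0 ∨ P p = 0 + z := ⟨Sum.inl (), Or.inl rfl⟩
  have v1 : ∀ n ≤ m1, ∃ p, P p = (gx1_sg ρ₁ A₁ n, 0) ∨ P p = (gx1_sg ρ₁ A₁ n, 0) + z := by
    intro n hn
    rcases Nat.eq_zero_or_pos n with h | h
    · subst h
      rw [gx1_sg_zero]; exact v0
    · refine ⟨Sum.inr (Sum.inl ⟨n - 1, by omega⟩), Or.inl ?_⟩
      have e1 : n - 1 + 1 = n := by omega
      change ((gx1_sg ρ₁ A₁ (n - 1 + 1), 0) : gx1_V α) = _
      rw [e1]
  have v2 : ∀ n ≤ m2, ∃ p, P p = (gx1_sg ρ₂ A₂ n, 0) ∨ P p = (gx1_sg ρ₂ A₂ n, 0) + z := by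
    intro n hn
    rcases Nat.eq_zero_or_pos n with h | h
    · subst h
      rw [gx1_sg_zero]; exact v0
    · refine ⟨Sum.inr (Sum.inr (Sum.inl ⟨n - 1, by omega⟩)), Or.inl ?_⟩
      have e1 : n - 1 + 1 = n := by omega
      change ((gx1_sg ρ₂ A₂ (n - 1 + 1), 0) : gx1_V α) = _
      rw [e1]
  have v3 : ∀ n ≤ m3, ∃ p, P p = (gx1_sg ρ₃ A₃ n, 0) ∨ P p = (gx1_sg ρ₃ A₃ n, 0) + z := by
    intro n hn
    rcases Nat.eq_zero_or_pos n with h | h
    · subst h
      rw [gx1_sg_zero]; exact v0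
    · refine ⟨Sum.inr (Sum.inr (Sum.inr ⟨n - 1, by omega⟩)), Or.inl ?_⟩
      have e1 : n - 1 + 1 = n := by omega
      change ((gx1_sg ρ₃ A₃ (n - 1 + 1), 0) : gx1_V α) = _
      rw [e1]
  have w1 : ∃ p, P p = (A₁.indicator 1, 0) ∨ P p = (A₁.indicator 1, 0) + z := by
    have := v1 m1 le_rfl
    rwa [gx1_sg_full hρ₁] at this
  have w2 : ∃ p, P p = (A₂.indicator 1, 0) ∨ P p = (A₂.indicator 1, 0) + z := by
    have := v2 m2 le_rfl
    rwa [gx1_sg_full hρ₂] at this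
  have w3 : ∃ p, P p = (A₃.indicator 1, 0) ∨ P p = (A₃.indicator 1, 0) + z := by
    have := v3 m3 le_rfl
    rwa [gx1_sg_full hρ₃] at this
  have hL : ∀ (y : α → ZMod 2) (v : gx1_V α),
      gx1_L (A₁.indicator 1) (A₂.indicator 1) (A₃.indicator 1) y →
      (v = (y, 0) ∨ v = (y, 0) + z) → ∃ p q, v = P p + P q ∨ v = P p + P q + z := by
    intro y v hy hv
    rcases hy with rfl | rfl | rfl | rfl
    · exact gx1_mk_con P z _ 0 0 v0 v0 (by rw [add_zero]; exact hv)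
    · exact gx1_mk_con P z _ _ _ w1 w2 (by simpa using hv)
    · exact gx1_mk_con P z _ _ _ w1 w3 (by simpa using hv)
    · exact gx1_mk_con P z _ _ _ w2 w3 (by simpa using hv)
  refine regular_con_of_graph hfin (gx1_rep hAB hF) (hAB ▸ Or.inr hb) P ?_ ?_
  · intro e he heb
    rw [hwb]
    rw [← hAB, ← hA] at he
    rcases he with ((he | he) | he) | he
    · rw [gx1_vec_A (h1A he), gx1_edge hρ₁ he]
      have hlt : ρ₁ e < m1 := hρ₁.mapsTo he
      exact gx1_mk_con P z _ _ _ (v1 _ hlt.le) (v1 _ hlt) (Or.inl (by simp))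
    · rw [gx1_vec_A (h2A he), gx1_edge hρ₂ he]
      have hlt : ρ₂ e < m2 := hρ₂.mapsTo he
      exact gx1_mk_con P z _ _ _ (v2 _ hlt.le) (v2 _ hlt) (Or.inl (by simp))
    · rw [gx1_vec_A (h3A he), gx1_edge hρ₃ he]
      have hlt : ρ₃ e < m3 := hρ₃.mapsTo he
      exact gx1_mk_con P z _ _ _ (v3 _ hlt.le) (v3 _ hlt) (Or.inl (by simp))
    · by_cases hte : t e = 0
      · rcases gx1_cases h12 h13 h23 hd h0 h1 he with ⟨-, h⟩ | ⟨h, -⟩
        · rw [h]
          exact hL _ _ (Or.inr (Or.inl rfl)) (Or.inl rfl)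
        · exfalso
          rw [hte] at h
          exact zero_ne_one (congrFun h 0)
      · obtain ⟨ye, hye, hwe⟩ := hB e he hte
        rw [hwe]
        refine hL (ye + yb) _ (gx1_closed _ _ _ _ _ hye hyb) (Or.inr ?_)
        rw [hz, Prod.mk_add_mk, zero_add, add_assoc, gx1_self, add_zero]
  · intro c hc hs
    rw [hwb] at hs
    simp only [Fintype.sum_sum_type, Finset.univ_unique, Finset.sum_singleton] at hc hs
    have hs0 : c (Sum.inl default) • P (Sum.inl default) +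
        (∑ x, c (Sum.inr (Sum.inl x)) • P (Sum.inr (Sum.inl x)) +
        (∑ x, c (Sum.inr (Sum.inr (Sum.inl x))) • P (Sum.inr (Sum.inr (Sum.inl x))) +
        ∑ x, c (Sum.inr (Sum.inr (Sum.inr x))) • P (Sum.inr (Sum.inr (Sum.inr x))))) = 0 := by
      rcases hs with hs | hs
      · exact hs
      · exfalso
        have k2 := congrFun (congrArg Prod.snd hs) 0
        simp [P, hz, Prod.snd_sum, Finset.sum_apply] at k2
    have hco : ∀ a : α,
        (∑ i : Fin m1, c (Sum.inr (Sum.inl i)) * gx1_sg ρ₁ A₁ ((i : ℕ) + 1) a) +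
        ((∑ i : Fin m2, c (Sum.inr (Sum.inr (Sum.inl i))) * gx1_sg ρ₂ A₂ ((i : ℕ) + 1) a) +
        (∑ i : Fin m3, c (Sum.inr (Sum.inr (Sum.inr i))) * gx1_sg ρ₃ A₃ ((i : ℕ) + 1) a)) = 0 := by
      intro a
      have k2 := congrFun (congrArg Prod.fst hs0) a
      simpa [P, Prod.fst_sum, Finset.sum_apply] using k2
    have c1 : ∀ i, c (Sum.inr (Sum.inl i)) = 0 := by
      refine gx1_arm hρ₁ le_rfl (fun i => c (Sum.inr (Sum.inl i))) fun a ha => ?_
      have k1 := hco a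
      have ha2 : a ∉ A₂ := fun h => Set.disjoint_left.mp h12 ha h
      have ha3 : a ∉ A₃ := fun h => Set.disjoint_left.mp h13 ha h
      simpa [gx1_out ha2, gx1_out ha3] using k1
    have c2 : ∀ i, c (Sum.inr (Sum.inr (Sum.inl i))) = 0 := by
      refine gx1_arm hρ₂ le_rfl (fun i => c (Sum.inr (Sum.inr (Sum.inl i)))) fun a ha => ?_
      have k1 := hco a
      have ha1 : a ∉ A₁ := fun h => Set.disjoint_left.mp h12 h ha
      have ha3 : a ∉ A₃ := fun h => Set.disjoint_left.mp h23 ha h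
      simpa [gx1_out ha1, gx1_out ha3] using k1
    have c3 : ∀ i, c (Sum.inr (Sum.inr (Sum.inr i))) = 0 := by
      refine gx1_arm hρ₃ le_rfl (fun i => c (Sum.inr (Sum.inr (Sum.inr i)))) fun a ha => ?_
      have k1 := hco a
      have ha1 : a ∉ A₁ := fun h => Set.disjoint_left.mp h13 h ha
      have ha2 : a ∉ A₂ := fun h => Set.disjoint_left.mp h23 h ha
      simpa [gx1_out ha1, gx1_out ha2] using k1
    have c0 : c (Sum.inl ()) = 0 := by
      simpa [c1, c2, c3] using hc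
    funext p
    rcases p with ⟨⟩ | (i | (i | i))
    · exact c0
    · exact c1 i
    · exact c2 i
    · exact c3 i

theorem typeX1_con {M : Matroid α} {A B : Set α} (hfin : M.E.Finite) (hAB : A ∪ B = M.E)
    (hd : Disjoint A B) (h : TypeX1 M A B) {b : α} (hb : b ∈ B) : Regular (M ／ {b}) := by
  obtain ⟨Y, t, hF, A₁, A₂, A₃, hA, h12, h13, h23, h0, h1⟩ := h
  by_cases htb : t b = 0
  · exact gx1_con0 hfin hAB hd hF hA h12 h13 h23 h0 h1 hb htb
  · exact gx1_con1 hfin hAB hd hF hA h12 h13 h23 h0 h1 hb htb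

/-- edges from vertices, deletion version -/
theorem gx1_mk_del {V : Type*} [AddCommGroup V] {ι : Type*} (P : ι → V)
    (v x y : V) (hx : ∃ p, P p = x) (hy : ∃ p, P p = y)
    (hv : v = x + y) : ∃ p q : ι, v = P p + P q := by
  obtain ⟨p, rfl⟩ := hx
  obtain ⟨q, rfl⟩ := hy
  exact ⟨p, q, hv⟩

/-- deletion of an element of `A₃` -/
theorem gx1_del3 {M : Matroid α} {A B : Set α} (hfin : M.E.Finite) (hAB : A ∪ B = M.E)
    (hd : Disjoint A B) {Y : α → Set α} {t : α → Fin 1 → ZMod 2} (hF : BinaryForm M A B Y t)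
    {A₁ A₂ A₃ : Set α} (hA : A₁ ∪ A₂ ∪ A₃ = A) (h12 : Disjoint A₁ A₂) (h13 : Disjoint A₁ A₃)
    (h23 : Disjoint A₂ A₃) (h0 : ∀ b ∈ B, t b = 0 → Y b = A₁ ∪ A₂)
    (h1 : ∀ b ∈ B, t b ≠ 0 → (Y b = ∅ ∨ Y b = A₁ ∪ A₂ ∨ Y b = A₁ ∪ A₃ ∨ Y b = A₂ ∪ A₃))
    {a0 : α} (ha0 : a0 ∈ A₃) : Regular (M ＼ {a0}) := by
  classical
  have hAfin : A.Finite := hfin.subset (hAB ▸ Set.subset_union_left)
  have hSA : A₁ ∪ A₂ ⊆ A := hA ▸ Set.subset_union_left
  have h3A : A₃ ⊆ A := hA ▸ Set.subset_union_right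
  have hSfin : (A₁ ∪ A₂).Finite := hAfin.subset hSA
  have h3fin : A₃.Finite := hAfin.subset h3A
  have hS3 : Disjoint (A₁ ∪ A₂) A₃ := Set.disjoint_union_left.mpr ⟨h13, h23⟩
  obtain ⟨ρ, hρ⟩ := gx1_order hSfin
  obtain ⟨ρ', hρ'⟩ := gx1_order (h3fin.subset (Set.sdiff_subset (s := A₃) (t := {a0})))
  set m := (A₁ ∪ A₂).ncard with hm
  set T := A₃ \ {a0} with hT
  set m3 := T.ncard with hm3
  have hfull : gx1_sg ρ (A₁ ∪ A₂) m = A₁.indicator 1 + A₂.indicator 1 := by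
    rw [gx1_sg_full hρ, gx1_union h12]
  let P : Unit ⊕ (Fin m ⊕ (Unit ⊕ (Unit ⊕ Fin m3))) → gx1_V α := fun p =>
    match p with
    | Sum.inl _ => 0
    | Sum.inr (Sum.inl i) => (gx1_sg ρ (A₁ ∪ A₂) ((i : ℕ) + 1), 0)
    | Sum.inr (Sum.inr (Sum.inl _)) => (0, 1)
    | Sum.inr (Sum.inr (Sum.inr (Sum.inl _))) => (A₁.indicator 1 + A₃.indicator 1, 1)
    | Sum.inr (Sum.inr (Sum.inr (Sum.inr i))) => (gx1_sg ρ' T ((i : ℕ) + 1), 0)
  have v0 : ∃ p, P p = 0 := ⟨Sum.inl (), rfl⟩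
  have vr1 : ∃ p, P p = (0, 1) := ⟨Sum.inr (Sum.inr (Sum.inl ())), rfl⟩
  have vr2 : ∃ p, P p = (A₁.indicator 1 + A₃.indicator 1, 1) :=
    ⟨Sum.inr (Sum.inr (Sum.inr (Sum.inl ()))), rfl⟩
  have vS : ∀ n ≤ m, ∃ p, P p = (gx1_sg ρ (A₁ ∪ A₂) n, 0) := by
    intro n hn
    rcases Nat.eq_zero_or_pos n with h | h
    · subst h
      refine ⟨Sum.inl (), ?_⟩
      rw [gx1_sg_zero]; rfl
    · refine ⟨Sum.inr (Sum.inl ⟨n - 1, by omega⟩), ?_⟩
      have e1 : n - 1 + 1 = n := by omega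
      change ((gx1_sg ρ (A₁ ∪ A₂) (n - 1 + 1), 0) : gx1_V α) = _
      rw [e1]
  have v3 : ∀ n ≤ m3, ∃ p, P p = (gx1_sg ρ' T n, 0) := by
    intro n hn
    rcases Nat.eq_zero_or_pos n with h | h
    · subst h
      refine ⟨Sum.inl (), ?_⟩
      rw [gx1_sg_zero]; rfl
    · refine ⟨Sum.inr (Sum.inr (Sum.inr (Sum.inr ⟨n - 1, by omega⟩))), ?_⟩
      have e1 : n - 1 + 1 = n := by omega
      change ((gx1_sg ρ' T (n - 1 + 1), 0) : gx1_V α) = _
      rw [e1]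
  have wS : ∃ p, P p = (A₁.indicator 1 + A₂.indicator 1, 0) := by
    rw [← hfull]; exact vS m le_rfl
  refine regular_del_of_graph hfin (gx1_rep hAB hF) P ?_ ?_
  · intro e he hea
    rw [← hAB, ← hA] at he
    rcases he with (he | he) | he
    · rw [gx1_vec_A (hSA he), gx1_edge hρ he]
      have hlt : ρ e < m := hρ.mapsTo he
      exact gx1_mk_del P _ _ _ (vS _ hlt.le) (vS _ hlt) (by simp)
    · have heT : e ∈ T := ⟨he, hea⟩
      rw [gx1_vec_A (h3A he), gx1_edge hρ' heT]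
      have hlt : ρ' e < m3 := hρ'.mapsTo heT
      exact gx1_mk_del P _ _ _ (v3 _ hlt.le) (v3 _ hlt) (by simp)
    · rcases gx1_cases h12 h13 h23 hd h0 h1 he with ⟨-, h⟩ | ⟨-, h | h | h | h⟩
      · rw [h]
        exact gx1_mk_del P _ _ _ v0 wS (by rw [zero_add])
      · rw [h]
        exact gx1_mk_del P _ _ _ v0 vr1 (by rw [zero_add])
      · rw [h]
        exact gx1_mk_del P _ _ _ wS vr1 (by rw [Prod.mk_add_mk, add_zero, zero_add])
      · rw [h]
        exact gx1_mk_del P _ _ _ v0 vr2 (by rw [zero_add])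
      · rw [h]
        refine gx1_mk_del P _ _ _ wS vr2 ?_
        rw [Prod.mk_add_mk, zero_add, ← gx1_c2, add_comm]
  · intro c hc hs
    simp only [Fintype.sum_sum_type, Finset.univ_unique, Finset.sum_singleton] at hc hs
    have hco : ∀ a : α,
        (∑ i : Fin m, c (Sum.inr (Sum.inl i)) * gx1_sg ρ (A₁ ∪ A₂) ((i : ℕ) + 1) a) +
        (c (Sum.inr (Sum.inr (Sum.inr (Sum.inl ())))) *
          ((A₁.indicator 1 : α → ZMod 2) a + (A₃.indicator 1 : α → ZMod 2) a) +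
        (∑ i : Fin m3, c (Sum.inr (Sum.inr (Sum.inr (Sum.inr i)))) *
          gx1_sg ρ' T ((i : ℕ) + 1) a)) = 0 := by
      intro a
      have k2 := congrFun (congrArg Prod.fst hs) a
      simpa [P, Prod.fst_sum, Finset.sum_apply, mul_add] using k2
    have hs2 : c (Sum.inr (Sum.inr (Sum.inl ()))) +
        c (Sum.inr (Sum.inr (Sum.inr (Sum.inl ())))) = 0 := by
      have k2 := congrFun (congrArg Prod.snd hs) 0
      simpa [P, Prod.snd_sum, Finset.sum_apply] using k2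
    have ce2 : c (Sum.inr (Sum.inr (Sum.inr (Sum.inl ())))) = 0 := by
      have k1 := hco a0
      have n1 : a0 ∉ A₁ := fun h => Set.disjoint_left.mp h13 h ha0
      have nS : a0 ∉ A₁ ∪ A₂ := fun h => Set.disjoint_left.mp hS3 h ha0
      have nT : a0 ∉ T := fun h => h.2 rfl
      simpa [gx1_out nS, gx1_out nT, Set.indicator_of_notMem n1, Set.indicator_of_mem ha0] using k1
    have ce1 : c (Sum.inr (Sum.inr (Sum.inl ()))) = 0 := by
      rw [ce2, add_zero] at hs2; exact hs2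
    have cS : ∀ i, c (Sum.inr (Sum.inl i)) = 0 := by
      refine gx1_arm hρ le_rfl (fun i => c (Sum.inr (Sum.inl i))) fun a ha => ?_
      have k1 := hco a
      have nT : a ∉ T := fun h => Set.disjoint_left.mp hS3 ha h.1
      simpa [ce2, gx1_out nT] using k1
    have c3 : ∀ i, c (Sum.inr (Sum.inr (Sum.inr (Sum.inr i)))) = 0 := by
      refine gx1_arm hρ' le_rfl (fun i => c (Sum.inr (Sum.inr (Sum.inr (Sum.inr i))))) fun a ha => ?_
      have k1 := hco a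
      have nS : a ∉ A₁ ∪ A₂ := fun h => Set.disjoint_left.mp hS3 h ha.1
      simpa [ce2, gx1_out nS] using k1
    have c0 : c (Sum.inl ()) = 0 := by
      simpa [cS, c3, ce1, ce2] using hc
    funext p
    rcases p with ⟨⟩ | (i | (⟨⟩ | (⟨⟩ | i)))
    · exact c0
    · exact cS i
    · exact ce1
    · exact ce2
    · exact c3 i

/-- deletion of an element of `A₁` -/
theorem gx1_del1 {M : Matroid α} {A B : Set α} (hfin : M.E.Finite) (hAB : A ∪ B = M.E)
    (hd : Disjoint A B) {Y : α → Set α} {t : α → Fin 1 → ZMod 2} (hF : BinaryForm M A B Y t)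
    {A₁ A₂ A₃ : Set α} (hA : A₁ ∪ A₂ ∪ A₃ = A) (h12 : Disjoint A₁ A₂) (h13 : Disjoint A₁ A₃)
    (h23 : Disjoint A₂ A₃) (h0 : ∀ b ∈ B, t b = 0 → Y b = A₁ ∪ A₂)
    (h1 : ∀ b ∈ B, t b ≠ 0 → (Y b = ∅ ∨ Y b = A₁ ∪ A₂ ∨ Y b = A₁ ∪ A₃ ∨ Y b = A₂ ∪ A₃))
    {a0 : α} (ha0 : a0 ∈ A₁) : Regular (M ＼ {a0}) := by
  classical
  have hAfin : A.Finite := hfin.subset (hAB ▸ Set.subset_union_left)
  have h1A : A₁ ⊆ A := hA ▸ (Set.subset_union_left.trans Set.subset_union_left)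
  have h2A : A₂ ⊆ A := hA ▸ (Set.subset_union_right.trans Set.subset_union_left)
  have h3A : A₃ ⊆ A := hA ▸ Set.subset_union_right
  obtain ⟨ρ₁, hρ₁⟩ := gx1_order ((hAfin.subset h1A).subset
    (Set.sdiff_subset (s := A₁) (t := {a0})))
  obtain ⟨ρ₂, hρ₂⟩ := gx1_order (hAfin.subset h2A)
  obtain ⟨ρ₃, hρ₃⟩ := gx1_order (hAfin.subset h3A)
  set T := A₁ \ {a0} with hT
  set m1 := T.ncard with hm1
  set m2 := A₂.ncard with hm2
  set m3 := A₃.ncard with hm3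
  let P : Unit ⊕ (Unit ⊕ (Unit ⊕ (Fin m2 ⊕ (Fin m3 ⊕ Fin m1)))) → gx1_V α := fun p =>
    match p with
    | Sum.inl _ => 0
    | Sum.inr (Sum.inl _) => (A₁.indicator 1 + A₂.indicator 1, 0)
    | Sum.inr (Sum.inr (Sum.inl _)) => (0, 1)
    | Sum.inr (Sum.inr (Sum.inr (Sum.inl i))) => (gx1_sg ρ₂ A₂ ((i : ℕ) + 1), 1)
    | Sum.inr (Sum.inr (Sum.inr (Sum.inr (Sum.inl i)))) =>
        (A₂.indicator 1 + gx1_sg ρ₃ A₃ ((i : ℕ) + 1), 1)
    | Sum.inr (Sum.inr (Sum.inr (Sum.inr (Sum.inr i)))) => (gx1_sg ρ₁ T ((i : ℕ) + 1), 0)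
  have v0 : ∃ p, P p = 0 := ⟨Sum.inl (), rfl⟩
  have vq : ∃ p, P p = (A₁.indicator 1 + A₂.indicator 1, 0) := ⟨Sum.inr (Sum.inl ()), rfl⟩
  have vr1 : ∃ p, P p = (0, 1) := ⟨Sum.inr (Sum.inr (Sum.inl ())), rfl⟩
  have v1 : ∀ n ≤ m1, ∃ p, P p = (gx1_sg ρ₁ T n, 0) := by
    intro n hn
    rcases Nat.eq_zero_or_pos n with h | h
    · subst h
      refine ⟨Sum.inl (), ?_⟩
      rw [gx1_sg_zero]; rfl
    · refine ⟨Sum.inr (Sum.inr (Sum.inr (Sum.inr (Sum.inr ⟨n - 1, by omega⟩)))), ?_⟩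
      have e1 : n - 1 + 1 = n := by omega
      change ((gx1_sg ρ₁ T (n - 1 + 1), 0) : gx1_V α) = _
      rw [e1]
  have v2 : ∀ n ≤ m2, ∃ p, P p = (gx1_sg ρ₂ A₂ n, 1) := by
    intro n hn
    rcases Nat.eq_zero_or_pos n with h | h
    · subst h
      refine ⟨Sum.inr (Sum.inr (Sum.inl ())), ?_⟩
      rw [gx1_sg_zero]
    · refine ⟨Sum.inr (Sum.inr (Sum.inr (Sum.inl ⟨n - 1, by omega⟩))), ?_⟩
      have e1 : n - 1 + 1 = n := by omega
      change ((gx1_sg ρ₂ A₂ (n - 1 + 1), 1) : gx1_V α) = _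
      rw [e1]
  have v3 : ∀ n ≤ m3, ∃ p, P p = (A₂.indicator 1 + gx1_sg ρ₃ A₃ n, 1) := by
    intro n hn
    rcases Nat.eq_zero_or_pos n with h | h
    · subst h
      rw [gx1_sg_zero, add_zero, ← gx1_sg_full hρ₂]
      exact v2 m2 le_rfl
    · refine ⟨Sum.inr (Sum.inr (Sum.inr (Sum.inr (Sum.inl ⟨n - 1, by omega⟩)))), ?_⟩
      have e1 : n - 1 + 1 = n := by omega
      change ((A₂.indicator 1 + gx1_sg ρ₃ A₃ (n - 1 + 1), 1) : gx1_V α) = _
      rw [e1]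
  have w3 : ∃ p, P p = (A₂.indicator 1 + A₃.indicator 1, 1) := by
    rw [← gx1_sg_full hρ₃]; exact v3 m3 le_rfl
  refine regular_del_of_graph hfin (gx1_rep hAB hF) P ?_ ?_
  · intro e he hea
    rw [← hAB, ← hA] at he
    rcases he with ((he | he) | he) | he
    · have heT : e ∈ T := ⟨he, hea⟩
      rw [gx1_vec_A (h1A he), gx1_edge hρ₁ heT]
      have hlt : ρ₁ e < m1 := hρ₁.mapsTo heT
      exact gx1_mk_del P _ _ _ (v1 _ hlt.le) (v1 _ hlt) (by simp)
    · rw [gx1_vec_A (h2A he), gx1_edge hρ₂ he]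
      have hlt : ρ₂ e < m2 := hρ₂.mapsTo he
      refine gx1_mk_del P _ _ _ (v2 _ hlt.le) (v2 _ hlt) ?_
      rw [Prod.mk_add_mk, gx1_self]
    · rw [gx1_vec_A (h3A he), gx1_edge hρ₃ he]
      have hlt : ρ₃ e < m3 := hρ₃.mapsTo he
      refine gx1_mk_del P _ _ _ (v3 _ hlt.le) (v3 _ hlt) ?_
      rw [Prod.mk_add_mk, gx1_self, ← gx1_c2, add_comm]
    · rcases gx1_cases h12 h13 h23 hd h0 h1 he with ⟨-, h⟩ | ⟨-, h | h | h | h⟩
      · rw [h]
        exact gx1_mk_del P _ _ _ v0 vq (by rw [zero_add])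
      · rw [h]
        exact gx1_mk_del P _ _ _ v0 vr1 (by rw [zero_add])
      · rw [h]
        exact gx1_mk_del P _ _ _ vq vr1 (by rw [Prod.mk_add_mk, add_zero, zero_add])
      · rw [h]
        refine gx1_mk_del P _ _ _ vq w3 ?_
        rw [Prod.mk_add_mk, zero_add, add_assoc, ← add_assoc (A₂.indicator 1) (A₂.indicator 1),
          gx1_self, zero_add]
      · rw [h]
        exact gx1_mk_del P _ _ _ v0 w3 (by rw [zero_add])
  · intro c hc hs
    simp only [Fintype.sum_sum_type, Finset.univ_unique, Finset.sum_singleton] at hc hs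
    have hco : ∀ a : α,
        c (Sum.inr (Sum.inl ())) *
          ((A₁.indicator 1 : α → ZMod 2) a + (A₂.indicator 1 : α → ZMod 2) a) +
        ((∑ i : Fin m2, c (Sum.inr (Sum.inr (Sum.inr (Sum.inl i)))) *
          gx1_sg ρ₂ A₂ ((i : ℕ) + 1) a) +
        ((∑ i : Fin m3, c (Sum.inr (Sum.inr (Sum.inr (Sum.inr (Sum.inl i))))) *
          ((A₂.indicator 1 : α → ZMod 2) a + gx1_sg ρ₃ A₃ ((i : ℕ) + 1) a)) +
        (∑ i : Fin m1, c (Sum.inr (Sum.inr (Sum.inr (Sum.inr (Sum.inr i))))) *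
          gx1_sg ρ₁ T ((i : ℕ) + 1) a))) = 0 := by
      intro a
      have k2 := congrFun (congrArg Prod.fst hs) a
      simpa [P, Prod.fst_sum, Finset.sum_apply, mul_add] using k2
    have hs2 : c (Sum.inr (Sum.inr (Sum.inl ()))) +
        ((∑ i : Fin m2, c (Sum.inr (Sum.inr (Sum.inr (Sum.inl i))))) +
        (∑ i : Fin m3, c (Sum.inr (Sum.inr (Sum.inr (Sum.inr (Sum.inl i))))))) = 0 := by
      have k2 := congrFun (congrArg Prod.snd hs) 0
      simpa [P, Prod.snd_sum, Finset.sum_apply] using k2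
    have cq : c (Sum.inr (Sum.inl ())) = 0 := by
      have k1 := hco a0
      have n2 : a0 ∉ A₂ := fun h => Set.disjoint_left.mp h12 ha0 h
      have n3 : a0 ∉ A₃ := fun h => Set.disjoint_left.mp h13 ha0 h
      have nT : a0 ∉ T := fun h => h.2 rfl
      simpa [gx1_out n2, gx1_out n3, gx1_out nT, Set.indicator_of_notMem n2,
        Set.indicator_of_mem ha0] using k1
    have c3 : ∀ i, c (Sum.inr (Sum.inr (Sum.inr (Sum.inr (Sum.inl i))))) = 0 := by
      refine gx1_arm hρ₃ le_rfl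
        (fun i => c (Sum.inr (Sum.inr (Sum.inr (Sum.inr (Sum.inl i)))))) fun a ha => ?_
      have k1 := hco a
      have n2 : a ∉ A₂ := fun h => Set.disjoint_left.mp h23 h ha
      have nT : a ∉ T := fun h => Set.disjoint_left.mp h13 h.1 ha
      simpa [cq, gx1_out n2, gx1_out nT, Set.indicator_of_notMem n2] using k1
    have c2 : ∀ i, c (Sum.inr (Sum.inr (Sum.inr (Sum.inl i)))) = 0 := by
      refine gx1_arm hρ₂ le_rfl
        (fun i => c (Sum.inr (Sum.inr (Sum.inr (Sum.inl i))))) fun a ha => ?_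
      have k1 := hco a
      have nT : a ∉ T := fun h => Set.disjoint_left.mp h12 h.1 ha
      simpa [cq, c3, gx1_out nT] using k1
    have c1 : ∀ i, c (Sum.inr (Sum.inr (Sum.inr (Sum.inr (Sum.inr i))))) = 0 := by
      refine gx1_arm hρ₁ le_rfl
        (fun i => c (Sum.inr (Sum.inr (Sum.inr (Sum.inr (Sum.inr i)))))) fun a ha => ?_
      have k1 := hco a
      simpa [cq, c3, c2] using k1
    have cr : c (Sum.inr (Sum.inr (Sum.inl ()))) = 0 := by
      simpa [c2, c3] using hs2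
    have c0 : c (Sum.inl ()) = 0 := by
      simpa [c1, c2, c3, cq, cr] using hc
    funext p
    rcases p with ⟨⟩ | (⟨⟩ | (⟨⟩ | (i | (i | i))))
    · exact c0
    · exact cq
    · exact cr
    · exact c2 i
    · exact c3 i
    · exact c1 i

theorem typeX1_del {M : Matroid α} {A B : Set α} (hfin : M.E.Finite) (hAB : A ∪ B = M.E)
    (hd : Disjoint A B) (h : TypeX1 M A B) {a : α} (ha : a ∈ A) : Regular (M ＼ {a}) := by
  obtain ⟨Y, t, hF, A₁, A₂, A₃, hA, h12, h13, h23, h0, h1⟩ := h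
  have ha' := ha
  rw [← hA] at ha'
  rcases ha' with (ha' | ha') | ha'
  · exact gx1_del1 hfin hAB hd hF hA h12 h13 h23 h0 h1 ha'
  · refine gx1_del1 hfin hAB hd hF (A₁ := A₂) (A₂ := A₁) (A₃ := A₃) ?_ h12.symm h23 h13 ?_ ?_ ha'
    · rw [Set.union_comm A₂ A₁]; exact hA
    · intro b hb htb
      rw [Set.union_comm A₂ A₁]; exact h0 b hb htb
    · intro b hb htb
      rw [Set.union_comm A₂ A₁]
      rcases h1 b hb htb with h | h | h | h
      · exact Or.inl h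
      · exact Or.inr (Or.inl h)
      · exact Or.inr (Or.inr (Or.inr h))
      · exact Or.inr (Or.inr (Or.inl h))
  · exact gx1_del3 hfin hAB hd hF hA h12 h13 h23 h0 h1 ha'

end Pool.Agent.Helper43_EOR
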