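import Mathlib
import Pool.Agent.Helper43_EOR.G2

set_option autoImplicit false

namespace Pool.Agent.Helper43_EOR

open Set Matroid

variable {α : Type*}


/-
JOB GX3 (types X3 and X4 give regular minors). X3: elements a ∈ A; (A; τ) for τ ≠ 0, 111; (∅; 111). ρ numbers A (chain_order, 𝒲 = ∅).
con, b0 with t b0 = 111, w b0 = (∅;111): vertices ([0,n);0) 0 ≤ n ≤ m, (A;100), (∅;010). Elements modulo w b0: (A;100) = (A;011) =
(∅;0) + (A;100); (A;010) = (A;101) = (A;0) + (∅;010); (A;001) = (A;110) = (A;100) + (∅;010).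
con, b0 with t b0 = τ ≠ 111, w b0 = (A;τ): choose u ∉ {0, 111, τ, τ + 111}; vertices ([0,n);0), (∅;u), (∅;u + 111). Elements modulo w b0:
(A;u) = (A;0) + (∅;u); (A;τ+u) = (∅;u) + (∅;0); (A;u+111) = (A;0) + (∅;u+111); (A;τ+u+111) = (∅;u+111) + (∅;0); (A;τ+111) = (∅;111) =
(∅;u) + (∅;u+111).
del a0: vertices ([0,n)';0) for a numbering of A \ {a0}, (∅;111), (A;100), (A;010), (A;110). Elements: (∅;111) = (∅;0) + (∅;111); for
u = 100, 010, 110: (A;u) = (∅;0) + (A;u), (A;u+111) = (∅;111) + (A;u).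
X4: A = ∅, elements t b ∈ GF(2)^4 of odd weight, not 0111. con b0: vertices 0 and three more, by t b0 (coordinates written t0 t1 t2 t3):
t b0 = 1000: 0100, 0010, 0001; 0100: 1000, 0010, 1001; 0010: 1000, 0100, 1001; 0001: 1000, 0100, 1010;
1110: 1000, 0100, 0101; 1101: 1000, 0100, 0110; 1011: 1000, 0010, 0110.
(every vector of odd weight other than 0111 and t b0 is a sum of two of the four vertices modulo t b0; decide.)
-/
/-- vertices of the chain -/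
noncomputable def gx3_C (A : Set α) (ρ : α → ℕ) (δ : ℕ) (n : ℕ) :
    (α → ZMod 2) × (Fin δ → ZMod 2) :=
  ({a | a ∈ A ∧ ρ a < n}.indicator 1, 0)

theorem gx3_C_zero (A : Set α) (ρ : α → ℕ) (δ : ℕ) : gx3_C A ρ δ 0 = 0 := by
  unfold gx3_C
  have : {a | a ∈ A ∧ ρ a < 0} = (∅ : Set α) := by
    ext a
    simp
  rw [this, Set.indicator_empty']
  rfl

theorem gx3_C_top {A : Set α} {ρ : α → ℕ} {m : ℕ} (h : BijOn ρ A (Set.Iio m)) (δ : ℕ) :
    gx3_C A ρ δ m = (A.indicator 1, 0) := by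
  unfold gx3_C
  have : {a | a ∈ A ∧ ρ a < m} = A := by
    ext a
    exact ⟨fun h' => h'.1, fun h' => ⟨h', h.1 h'⟩⟩
  rw [this]

theorem gx3_two (x : ZMod 2) : x + x = 0 := CharTwo.add_self_eq_zero x

theorem gx3_C_edge {A : Set α} {ρ : α → ℕ} {m : ℕ} (h : BijOn ρ A (Set.Iio m)) (δ : ℕ) {a : α}
    (ha : a ∈ A) : gx3_C A ρ δ (ρ a) + gx3_C A ρ δ (ρ a + 1) =
      (open Classical in ((Pi.single a 1, 0) : (α → ZMod 2) × (Fin δ → ZMod 2))) := by
  classical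
  unfold gx3_C
  ext x
  · rw [Prod.fst_add, Pi.add_apply]
    simp only [Set.indicator_apply, Set.mem_ofPred_eq, Pi.one_apply, Pi.single_apply]
    by_cases hx : x ∈ A
    · by_cases hxa : x = a
      · subst hxa
        simp [hx]
      · have h1 : ρ x ≠ ρ a := fun hc => hxa (h.2.1 hx ha hc)
        rw [if_neg hxa]
        by_cases h2 : ρ x < ρ a
        · rw [if_pos ⟨hx, h2⟩, if_pos ⟨hx, by omega⟩]
          exact gx3_two 1
        · rw [if_neg (fun hc => h2 hc.2), if_neg (fun hc => h2 (by have := hc.2; omega)), add_zero]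
    · have hxa : x ≠ a := fun hc => hx (hc ▸ ha)
      rw [if_neg hxa, if_neg (fun hc => hx hc.1), if_neg (fun hc => hx hc.1), add_zero]
  · simp

/-- all vertices -/
noncomputable def gx3_P (A : Set α) (ρ : α → ℕ) {δ : ℕ} (m : ℕ) {κ : Type*}
    (R : κ → (α → ZMod 2) × (Fin δ → ZMod 2)) : Fin (m + 1) ⊕ κ →
      (α → ZMod 2) × (Fin δ → ZMod 2) :=
  Sum.elim (fun n => gx3_C A ρ δ n) R

theorem gx3_sum {A : Set α} {ρ : α → ℕ} {δ m : ℕ} {κ : Type*} [Fintype κ]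
    (R : κ → (α → ZMod 2) × (Fin δ → ZMod 2)) (c : Fin (m + 1) ⊕ κ → ZMod 2) :
    ∑ p, c p • gx3_P A ρ m R p =
      ∑ n, c (Sum.inl n) • gx3_C A ρ δ n + ∑ k, c (Sum.inr k) • R k := by
  rw [Fintype.sum_sum_type]
  rfl

theorem gx3_sum_snd {A : Set α} {ρ : α → ℕ} {δ m : ℕ} {κ : Type*} [Fintype κ]
    (R : κ → (α → ZMod 2) × (Fin δ → ZMod 2)) (c : Fin (m + 1) ⊕ κ → ZMod 2) (i : Fin δ) :
    (∑ p, c p • gx3_P A ρ m R p).2 i = ∑ k, c (Sum.inr k) * (R k).2 i := by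
  rw [gx3_sum, Prod.snd_add, Pi.add_apply, Prod.snd_sum, Prod.snd_sum, Finset.sum_apply,
    Finset.sum_apply]
  unfold gx3_C
  simp

theorem gx3_sum_out {A : Set α} {ρ : α → ℕ} {δ m : ℕ} {κ : Type*} [Fintype κ]
    (R : κ → (α → ZMod 2) × (Fin δ → ZMod 2)) (c : Fin (m + 1) ⊕ κ → ZMod 2) {a : α}
    (ha : a ∉ A) : (∑ p, c p • gx3_P A ρ m R p).1 a = ∑ k, c (Sum.inr k) * (R k).1 a := by
  rw [gx3_sum, Prod.fst_add, Pi.add_apply, Prod.fst_sum, Prod.fst_sum, Finset.sum_apply,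
    Finset.sum_apply]
  unfold gx3_C
  have h : ∀ n : ℕ, a ∉ {a | a ∈ A ∧ ρ a < n} := fun n hc => ha hc.1
  simp [Set.indicator_of_notMem (h _)]

/-- independence of the chain -/
theorem gx3_ind {A : Set α} {ρ : α → ℕ} {δ m : ℕ} (h : BijOn ρ A (Set.Iio m)) {κ : Type*}
    [Fintype κ] (R : κ → (α → ZMod 2) × (Fin δ → ZMod 2)) (c : Fin (m + 1) ⊕ κ → ZMod 2)
    (h0 : ∑ p, c p = 0) (hr : ∀ k, c (Sum.inr k) = 0)
    (hs : ∀ a ∈ A, (∑ p, c p • gx3_P A ρ m R p).1 a = 0) : c = 0 := by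
  classical
  have h1 : ∑ n : Fin (m + 1), c (Sum.inl n) = 0 := by
    rw [Fintype.sum_sum_type] at h0
    simpa [hr] using h0
  have h2 : ∀ j : ℕ, j ≤ m + 1 →
      ∑ n : Fin (m + 1), (if j ≤ (n : ℕ) then c (Sum.inl n) else 0) = 0 := by
    intro j hj
    rcases Nat.eq_zero_or_pos j with rfl | hj0
    · simpa using h1
    · rcases Nat.lt_or_ge m j with hmj | hmj
      · refine Finset.sum_eq_zero fun n _ => ?_
        rw [if_neg]
        have := n.2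
        omega
      · obtain ⟨a, ha, hρ⟩ := h.2.2 (show j - 1 ∈ Set.Iio m from by
          rw [Set.mem_Iio]; omega)
        have h3 := hs a ha
        rw [gx3_sum, Prod.fst_add, Pi.add_apply, Prod.fst_sum, Prod.fst_sum, Finset.sum_apply,
          Finset.sum_apply] at h3
        simp only [hr, zero_smul, Prod.fst_zero, Pi.zero_apply, Finset.sum_const_zero,
          add_zero] at h3
        refine Eq.trans (Finset.sum_congr rfl fun n _ => ?_) h3
        unfold gx3_C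
        simp only [Prod.smul_fst, Pi.smul_apply, Set.indicator_apply, Set.mem_ofPred_eq,
          Pi.one_apply, smul_eq_mul]
        by_cases hn : j ≤ (n : ℕ)
        · rw [if_pos hn, if_pos ⟨ha, by omega⟩, mul_one]
        · rw [if_neg hn, if_neg (fun hc => hn (by have := hc.2; omega)), mul_zero]
  funext p
  rcases p with n | k
  · have h3 := h2 n (by have := n.2; omega)
    have h4 := h2 (n + 1) (by have := n.2; omega)
    have h5 : ∑ k : Fin (m + 1), ((if (n : ℕ) ≤ (k : ℕ) then c (Sum.inl k) else 0) -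
        (if (n : ℕ) + 1 ≤ (k : ℕ) then c (Sum.inl k) else 0)) = c (Sum.inl n) := by
      rw [Finset.sum_eq_single n]
      · simp
      · intro k _ hk
        have hk' : (k : ℕ) ≠ n := fun hc => hk (Fin.ext hc)
        by_cases hn : (n : ℕ) ≤ (k : ℕ)
        · rw [if_pos hn, if_pos (by omega), sub_self]
        · rw [if_neg hn, if_neg (by omega), sub_self]
      · intro hn
        exact absurd (Finset.mem_univ n) hn
    rw [Finset.sum_sub_distrib, h3, h4, sub_self] at h5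
    exact h5.symm
  · exact hr k

theorem gx3_repBy {M : Matroid α} {A B : Set α} (hAB : A ∪ B = M.E) {Y : α → Set α} {δ : ℕ}
    {t : α → Fin δ → ZMod 2} (h : BinaryForm M A B Y t) : RepBy (ZMod 2) M (bvec A Y t) := by
  intro I hI
  exact h.2 I (hAB ▸ hI)

/-- a vector outside the span of two vectors -/
def gx3_u (τ : Fin 3 → ZMod 2) : Fin 3 → ZMod 2 :=
  if τ = ![1, 0, 0] ∨ τ = ![0, 1, 1] then ![0, 1, 0] else ![1, 0, 0]

theorem gx3_tabA : ∀ τ x : Fin 3 → ZMod 2, τ ≠ 0 → τ ≠ ![1, 1, 1] → x ≠ 0 →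
    x = ![1, 1, 1] ∨ (x ≠ ![1, 1, 1] ∧ (x = gx3_u τ ∨ x = gx3_u τ + ![1, 1, 1] ∨
      x = τ + gx3_u τ ∨ x = τ + (gx3_u τ + ![1, 1, 1]) ∨ x = τ ∨ x = τ + ![1, 1, 1])) := by
  decide +kernel

theorem gx3_tabB : ∀ (τ : Fin 3 → ZMod 2) (c d : ZMod 2), τ ≠ 0 → τ ≠ ![1, 1, 1] →
    (∀ i, c * gx3_u τ i + d * (gx3_u τ i + ![1, 1, 1] i) = 0) → c = 0 ∧ d = 0 := by
  decide +kernel

theorem gx3_tabC : ∀ (τ : Fin 3 → ZMod 2) (c d : ZMod 2), τ ≠ 0 → τ ≠ ![1, 1, 1] →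
    ¬ ∀ i, c * gx3_u τ i + d * (gx3_u τ i + ![1, 1, 1] i) = τ i := by
  decide +kernel

theorem gx3_tab3' : ∀ x : Fin 3 → ZMod 2, x ≠ 0 → x = ![1, 1, 1] ∨ (x ≠ ![1, 1, 1] ∧
    (x = ![1, 0, 0] ∨ x = ![0, 1, 1] ∨ x = ![0, 1, 0] ∨ x = ![1, 0, 1] ∨ x = ![0, 0, 1] ∨
      x = ![1, 1, 0])) := by
  decide +kernel

theorem gx3_bvec_in {A : Set α} {Y : α → Set α} {δ : ℕ} {t : α → Fin δ → ZMod 2} {e : α}
    (he : e ∈ A) : bvec A Y t e =
      (open Classical in ((Pi.single e 1, 0) : (α → ZMod 2) × (Fin δ → ZMod 2))) := by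
  unfold bvec
  rw [if_pos he]

theorem gx3_bvec_out {A : Set α} {Y : α → Set α} {δ : ℕ} {t : α → Fin δ → ZMod 2} {e : α}
    (he : e ∉ A) : bvec A Y t e = ((Y e).indicator 1, t e) := by
  unfold bvec
  rw [if_neg he]

theorem gx3_chi (A : Set α) : (A.indicator 1 + A.indicator 1 : α → ZMod 2) = 0 := by
  funext x
  exact gx3_two _

theorem gx3_P_zero (A : Set α) (ρ : α → ℕ) {δ : ℕ} (m : ℕ) {κ : Type*}
    (R : κ → (α → ZMod 2) × (Fin δ → ZMod 2)) : gx3_P A ρ m R (Sum.inl 0) = 0 := by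
  unfold gx3_P
  exact gx3_C_zero A ρ δ

theorem gx3_P_last {A : Set α} {ρ : α → ℕ} {δ : ℕ} {m : ℕ} (h : BijOn ρ A (Set.Iio m)) {κ : Type*}
    (R : κ → (α → ZMod 2) × (Fin δ → ZMod 2)) :
    gx3_P A ρ m R (Sum.inl (Fin.last m)) = (A.indicator 1, 0) := by
  unfold gx3_P
  exact gx3_C_top h δ

theorem gx3_P_edge {A A' : Set α} {ρ : α → ℕ} {δ : ℕ} {m : ℕ} (h : BijOn ρ A' (Set.Iio m))
    {κ : Type*} (R : κ → (α → ZMod 2) × (Fin δ → ZMod 2)) {Y : α → Set α}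
    {t : α → Fin δ → ZMod 2} {e : α} (he : e ∈ A') (he' : e ∈ A) :
    ∃ p q, bvec A Y t e = gx3_P A' ρ m R p + gx3_P A' ρ m R q := by
  have h1 : ρ e < m := h.1 he
  refine ⟨Sum.inl ⟨ρ e, by omega⟩, Sum.inl ⟨ρ e + 1, by omega⟩, ?_⟩
  rw [gx3_bvec_in he']
  exact (gx3_C_edge h δ he).symm

theorem gx3_con1 {M : Matroid α} {A B : Set α} (hfin : M.E.Finite) (hAB : A ∪ B = M.E)
    (hd : Disjoint A B) {Y : α → Set α} {t : α → Fin 3 → ZMod 2} (hbf : BinaryForm M A B Y t)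
    (h0 : ∀ b ∈ B, t b ≠ 0) (h1 : ∀ b ∈ B, t b = ![1, 1, 1] → Y b = ∅)
    (h2 : ∀ b ∈ B, t b ≠ ![1, 1, 1] → Y b = A) {b : α} (hb : b ∈ B) (htb : t b = ![1, 1, 1]) :
    Regular (M ／ {b}) := by
  have hAE : A ⊆ M.E := hAB ▸ subset_union_left
  have hBE : B ⊆ M.E := hAB ▸ subset_union_right
  obtain ⟨ρ, hρ, -⟩ := chain_order (hfin.subset hAE) ∅ (by simp) (by simp)
  have hout : ∀ e ∈ B, e ∉ A := fun e he he' => Set.disjoint_left.1 hd he' he
  have hw1 : ∀ e ∈ B, t e = ![1, 1, 1] → bvec A Y t e = (0, ![1, 1, 1]) := by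
    intro e he hte
    rw [gx3_bvec_out (hout e he), h1 e he hte, hte, Set.indicator_empty']
  have hw2 : ∀ e ∈ B, t e ≠ ![1, 1, 1] → bvec A Y t e = (A.indicator 1, t e) := by
    intro e he hte
    rw [gx3_bvec_out (hout e he), h2 e he hte]
  have hchi := gx3_chi A
  set R : Fin 2 → (α → ZMod 2) × (Fin 3 → ZMod 2) :=
    ![(A.indicator 1, ![1, 0, 0]), (0, ![0, 1, 0])] with hR
  have hR0 : gx3_P A ρ A.ncard R (Sum.inr 0) = (A.indicator 1, ![1, 0, 0]) := rfl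
  have hR1 : gx3_P A ρ A.ncard R (Sum.inr 1) = (0, ![0, 1, 0]) := rfl
  have hwb := hw1 b hb htb
  refine regular_con_of_graph hfin (gx3_repBy hAB hbf) (hBE hb) (gx3_P A ρ A.ncard R) ?_ ?_
  · intro e he hne
    rw [← hAB] at he
    rcases he with he | he
    · obtain ⟨p, q, hpq⟩ := gx3_P_edge (Y := Y) (t := t) hρ R he he
      exact ⟨p, q, Or.inl hpq⟩
    · rcases gx3_tab3' (t e) (h0 e he) with h | ⟨h, h' | h' | h' | h' | h' | h'⟩
      · refine ⟨Sum.inl 0, Sum.inl 0, Or.inr ?_⟩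
        rw [hw1 e he h, hwb, gx3_P_zero]
        simp
      · refine ⟨Sum.inl 0, Sum.inr 0, Or.inl ?_⟩
        rw [hw2 e he h, h', gx3_P_zero, hR0, zero_add]
      · refine ⟨Sum.inl 0, Sum.inr 0, Or.inr ?_⟩
        rw [hw2 e he h, h', gx3_P_zero, hR0, hwb, zero_add]
        refine Prod.ext (by simp) ?_
        show (![0, 1, 1] : Fin 3 → ZMod 2) = ![1, 0, 0] + ![1, 1, 1]
        decide
      · refine ⟨Sum.inl (Fin.last _), Sum.inr 1, Or.inl ?_⟩
        rw [hw2 e he h, h', gx3_P_last hρ, hR1]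
        refine Prod.ext (by simp) ?_
        show (![0, 1, 0] : Fin 3 → ZMod 2) = 0 + ![0, 1, 0]
        decide
      · refine ⟨Sum.inl (Fin.last _), Sum.inr 1, Or.inr ?_⟩
        rw [hw2 e he h, h', gx3_P_last hρ, hR1, hwb]
        refine Prod.ext (by simp) ?_
        show (![1, 0, 1] : Fin 3 → ZMod 2) = 0 + ![0, 1, 0] + ![1, 1, 1]
        decide
      · refine ⟨Sum.inr 0, Sum.inr 1, Or.inr ?_⟩
        rw [hw2 e he h, h', hR0, hR1, hwb]
        refine Prod.ext (by simp) ?_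
        show (![0, 0, 1] : Fin 3 → ZMod 2) = ![1, 0, 0] + ![0, 1, 0] + ![1, 1, 1]
        decide
      · refine ⟨Sum.inr 0, Sum.inr 1, Or.inl ?_⟩
        rw [hw2 e he h, h', hR0, hR1]
        refine Prod.ext (by simp) ?_
        show (![1, 1, 0] : Fin 3 → ZMod 2) = ![1, 0, 0] + ![0, 1, 0]
        decide
  · intro c hc0 hc
    have hs : ∀ i : Fin 3, (∑ p, c p • gx3_P A ρ A.ncard R p).2 i =
        c (Sum.inr 0) * ![1, 0, 0] i + c (Sum.inr 1) * ![0, 1, 0] i := by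
      intro i
      rw [gx3_sum_snd, Fin.sum_univ_two]
      rfl
    rcases hc with hc | hc
    · have k0 := hs 0
      have k1 := hs 1
      rw [hc] at k0 k1
      simp at k0 k1
      refine gx3_ind hρ R c hc0 ?_ (fun a _ => by rw [hc]; rfl)
      intro k
      fin_cases k
      · exact k0.symm
      · exact k1.symm
    · exfalso
      have k2 := hs 2
      rw [hc, hwb] at k2
      simp at k2

theorem gx3_con2 {M : Matroid α} {A B : Set α} (hfin : M.E.Finite) (hAB : A ∪ B = M.E)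
    (hd : Disjoint A B) {Y : α → Set α} {t : α → Fin 3 → ZMod 2} (hbf : BinaryForm M A B Y t)
    (h0 : ∀ b ∈ B, t b ≠ 0) (h1 : ∀ b ∈ B, t b = ![1, 1, 1] → Y b = ∅)
    (h2 : ∀ b ∈ B, t b ≠ ![1, 1, 1] → Y b = A) {b : α} (hb : b ∈ B) (htb : t b ≠ ![1, 1, 1]) :
    Regular (M ／ {b}) := by
  have hAE : A ⊆ M.E := hAB ▸ subset_union_left
  have hBE : B ⊆ M.E := hAB ▸ subset_union_right
  obtain ⟨ρ, hρ, -⟩ := chain_order (hfin.subset hAE) ∅ (by simp) (by simp)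
  have hout : ∀ e ∈ B, e ∉ A := fun e he he' => Set.disjoint_left.1 hd he' he
  have hw1 : ∀ e ∈ B, t e = ![1, 1, 1] → bvec A Y t e = (0, ![1, 1, 1]) := by
    intro e he hte
    rw [gx3_bvec_out (hout e he), h1 e he hte, hte, Set.indicator_empty']
  have hw2 : ∀ e ∈ B, t e ≠ ![1, 1, 1] → bvec A Y t e = (A.indicator 1, t e) := by
    intro e he hte
    rw [gx3_bvec_out (hout e he), h2 e he hte]
  have hchi := gx3_chi A
  have hu2 : ∀ v : Fin 3 → ZMod 2, v + v = 0 := fun v => funext fun i => gx3_two _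
  set τ : Fin 3 → ZMod 2 := t b with hτ
  set u : Fin 3 → ZMod 2 := gx3_u τ with hu
  have hτ0 : τ ≠ 0 := h0 b hb
  set R : Fin 2 → (α → ZMod 2) × (Fin 3 → ZMod 2) :=
    ![(0, u), (0, u + ![1, 1, 1])] with hR
  have hR0 : gx3_P A ρ A.ncard R (Sum.inr 0) = (0, u) := rfl
  have hR1 : gx3_P A ρ A.ncard R (Sum.inr 1) = (0, u + ![1, 1, 1]) := rfl
  have hwb : bvec A Y t b = (A.indicator 1, τ) := hw2 b hb htb
  refine regular_con_of_graph hfin (gx3_repBy hAB hbf) (hBE hb) (gx3_P A ρ A.ncard R) ?_ ?_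
  · intro e he hne
    rw [← hAB] at he
    rcases he with he | he
    · obtain ⟨p, q, hpq⟩ := gx3_P_edge (Y := Y) (t := t) hρ R he he
      exact ⟨p, q, Or.inl hpq⟩
    · rcases gx3_tabA τ (t e) hτ0 htb (h0 e he) with h | ⟨h, h' | h' | h' | h' | h' | h'⟩
      · refine ⟨Sum.inr 0, Sum.inr 1, Or.inl ?_⟩
        rw [hw1 e he h, hR0, hR1]
        refine Prod.ext (by simp) ?_
        show (![1, 1, 1] : Fin 3 → ZMod 2) = u + (u + ![1, 1, 1])
        rw [← add_assoc, hu2, zero_add]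
      · refine ⟨Sum.inl (Fin.last _), Sum.inr 0, Or.inl ?_⟩
        rw [hw2 e he h, h', gx3_P_last hρ, hR0]
        exact Prod.ext (by simp) (by simp [hu])
      · refine ⟨Sum.inl (Fin.last _), Sum.inr 1, Or.inl ?_⟩
        rw [hw2 e he h, h', gx3_P_last hρ, hR1]
        exact Prod.ext (by simp) (by simp [hu])
      · refine ⟨Sum.inr 0, Sum.inl 0, Or.inr ?_⟩
        rw [hw2 e he h, h', gx3_P_zero, hR0, hwb, add_zero]
        exact Prod.ext (by simp) (add_comm _ _)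
      · refine ⟨Sum.inr 1, Sum.inl 0, Or.inr ?_⟩
        rw [hw2 e he h, h', gx3_P_zero, hR1, hwb, add_zero]
        exact Prod.ext (by simp) (add_comm _ _)
      · refine ⟨Sum.inl 0, Sum.inl 0, Or.inr ?_⟩
        rw [hw2 e he h, h', gx3_P_zero, hwb, add_zero, zero_add]
      · refine ⟨Sum.inr 0, Sum.inr 1, Or.inr ?_⟩
        rw [hw2 e he h, h', hR0, hR1, hwb]
        refine Prod.ext (by simp) ?_
        show τ + ![1, 1, 1] = u + (u + ![1, 1, 1]) + τ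
        rw [← add_assoc u, hu2, zero_add, add_comm]
  · intro c hc0 hc
    have hs : ∀ i : Fin 3, (∑ p, c p • gx3_P A ρ A.ncard R p).2 i =
        c (Sum.inr 0) * u i + c (Sum.inr 1) * (u i + ![1, 1, 1] i) := by
      intro i
      rw [gx3_sum_snd, Fin.sum_univ_two]
      rfl
    rcases hc with hc | hc
    · obtain ⟨k0, k1⟩ := gx3_tabB τ (c (Sum.inr 0)) (c (Sum.inr 1)) hτ0 htb (fun i => by
        rw [← hu, ← hs i, hc]
        rfl)
      refine gx3_ind hρ R c hc0 ?_ (fun a _ => by rw [hc]; rfl)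
      intro k
      fin_cases k
      · exact k0
      · exact k1
    · exfalso
      refine gx3_tabC τ (c (Sum.inr 0)) (c (Sum.inr 1)) hτ0 htb (fun i => ?_)
      rw [← hu, ← hs i, hc, hwb]

/-- the vertices for type X4 -/
def gx3_Q (τ : Fin 4 → ZMod 2) : Fin 4 → Fin 4 → ZMod 2 :=
  if τ = ![1, 0, 0, 0] then ![0, ![0, 1, 0, 0], ![0, 0, 1, 0], ![0, 0, 0, 1]]
  else if τ = ![0, 1, 0, 0] then ![0, ![1, 0, 0, 0], ![0, 0, 1, 0], ![1, 0, 0, 1]]
  else if τ = ![0, 0, 1, 0] then ![0, ![1, 0, 0, 0], ![0, 1, 0, 0], ![1, 0, 0, 1]]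
  else if τ = ![0, 0, 0, 1] then ![0, ![1, 0, 0, 0], ![0, 1, 0, 0], ![1, 0, 1, 0]]
  else if τ = ![1, 1, 1, 0] then ![0, ![1, 0, 0, 0], ![0, 1, 0, 0], ![0, 1, 0, 1]]
  else if τ = ![1, 1, 0, 1] then ![0, ![1, 0, 0, 0], ![0, 1, 0, 0], ![0, 1, 1, 0]]
  else ![0, ![1, 0, 0, 0], ![0, 0, 1, 0], ![0, 1, 1, 0]]

theorem gx3_tabQ1 : ∀ τ x : Fin 4 → ZMod 2, ∑ i, τ i = 1 → τ ≠ ![0, 1, 1, 1] → ∑ i, x i = 1 →
    x ≠ ![0, 1, 1, 1] → ∃ p : Fin 4 × Fin 4, x = gx3_Q τ p.1 + gx3_Q τ p.2 ∨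
      x = gx3_Q τ p.1 + gx3_Q τ p.2 + τ := by
  decide +kernel

theorem gx3_tabQ2 : ∀ τ c : Fin 4 → ZMod 2, ∑ i, τ i = 1 → τ ≠ ![0, 1, 1, 1] → ∑ i, c i = 0 →
    ((∀ j, ∑ k, c k * gx3_Q τ k j = 0) ∨ (∀ j, ∑ k, c k * gx3_Q τ k j = τ j)) → c = 0 := by
  decide +kernel

theorem typeX3_con {M : Matroid α} {A B : Set α} (hfin : M.E.Finite) (hAB : A ∪ B = M.E)
    (hd : Disjoint A B) (h : TypeX3 M A B) {b : α} (hb : b ∈ B) : Regular (M ／ {b}) := by
  obtain ⟨Y, t, hbf, h0, h1, h2⟩ := h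
  by_cases htb : t b = ![1, 1, 1]
  · exact gx3_con1 hfin hAB hd hbf h0 h1 h2 hb htb
  · exact gx3_con2 hfin hAB hd hbf h0 h1 h2 hb htb

theorem typeX3_del {M : Matroid α} {A B : Set α} (hfin : M.E.Finite) (hAB : A ∪ B = M.E)
    (hd : Disjoint A B) (h : TypeX3 M A B) {a : α} (ha : a ∈ A) : Regular (M ＼ {a}) := by
  classical
  obtain ⟨Y, t, hbf, h0, h1, h2⟩ := h
  have hAE : A ⊆ M.E := hAB ▸ subset_union_left
  set A' : Set α := A \ {a} with hA'
  have hA'A : A' ⊆ A := sdiff_subset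
  have ha' : a ∉ A' := fun hc => hc.2 rfl
  obtain ⟨ρ, hρ, -⟩ := chain_order (hfin.subset (hA'A.trans hAE)) ∅ (by simp) (by simp)
  have hout : ∀ e ∈ B, e ∉ A := fun e he he' => Set.disjoint_left.1 hd he' he
  have hw1 : ∀ e ∈ B, t e = ![1, 1, 1] → bvec A Y t e = (0, ![1, 1, 1]) := by
    intro e he hte
    rw [gx3_bvec_out (hout e he), h1 e he hte, hte, Set.indicator_empty']
  have hw2 : ∀ e ∈ B, t e ≠ ![1, 1, 1] → bvec A Y t e = (A.indicator 1, t e) := by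
    intro e he hte
    rw [gx3_bvec_out (hout e he), h2 e he hte]
  set R : Fin 4 → (α → ZMod 2) × (Fin 3 → ZMod 2) :=
    ![(0, ![1, 1, 1]), (A.indicator 1, ![1, 0, 0]), (A.indicator 1, ![0, 1, 0]),
      (A.indicator 1, ![1, 1, 0])] with hR
  have hR0 : gx3_P A' ρ A'.ncard R (Sum.inr 0) = (0, ![1, 1, 1]) := rfl
  have hR1 : gx3_P A' ρ A'.ncard R (Sum.inr 1) = (A.indicator 1, ![1, 0, 0]) := rfl
  have hR2 : gx3_P A' ρ A'.ncard R (Sum.inr 2) = (A.indicator 1, ![0, 1, 0]) := rfl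
  have hR3 : gx3_P A' ρ A'.ncard R (Sum.inr 3) = (A.indicator 1, ![1, 1, 0]) := rfl
  refine regular_del_of_graph hfin (gx3_repBy hAB hbf) (gx3_P A' ρ A'.ncard R) ?_ ?_
  · intro e he hne
    rw [← hAB] at he
    rcases he with he | he
    · exact gx3_P_edge (Y := Y) (t := t) hρ R (show e ∈ A' from ⟨he, hne⟩) he
    · rcases gx3_tab3' (t e) (h0 e he) with h | ⟨h, h' | h' | h' | h' | h' | h'⟩
      · refine ⟨Sum.inl 0, Sum.inr 0, ?_⟩
        rw [hw1 e he h, gx3_P_zero, hR0, zero_add]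
      · refine ⟨Sum.inl 0, Sum.inr 1, ?_⟩
        rw [hw2 e he h, h', gx3_P_zero, hR1, zero_add]
      · refine ⟨Sum.inr 0, Sum.inr 1, ?_⟩
        rw [hw2 e he h, h', hR0, hR1]
        refine Prod.ext (by simp) ?_
        show (![0, 1, 1] : Fin 3 → ZMod 2) = ![1, 1, 1] + ![1, 0, 0]
        decide
      · refine ⟨Sum.inl 0, Sum.inr 2, ?_⟩
        rw [hw2 e he h, h', gx3_P_zero, hR2, zero_add]
      · refine ⟨Sum.inr 0, Sum.inr 2, ?_⟩
        rw [hw2 e he h, h', hR0, hR2]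
        refine Prod.ext (by simp) ?_
        show (![1, 0, 1] : Fin 3 → ZMod 2) = ![1, 1, 1] + ![0, 1, 0]
        decide
      · refine ⟨Sum.inr 0, Sum.inr 3, ?_⟩
        rw [hw2 e he h, h', hR0, hR3]
        refine Prod.ext (by simp) ?_
        show (![0, 0, 1] : Fin 3 → ZMod 2) = ![1, 1, 1] + ![1, 1, 0]
        decide
      · refine ⟨Sum.inl 0, Sum.inr 3, ?_⟩
        rw [hw2 e he h, h', gx3_P_zero, hR3, zero_add]
  · intro c hc0 hc
    have hs : ∀ i : Fin 3, (∑ p, c p • gx3_P A' ρ A'.ncard R p).2 i =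
        c (Sum.inr 0) * ![1, 1, 1] i + c (Sum.inr 1) * ![1, 0, 0] i +
          c (Sum.inr 2) * ![0, 1, 0] i + c (Sum.inr 3) * ![1, 1, 0] i := by
      intro i
      rw [gx3_sum_snd, Fin.sum_univ_four]
      rfl
    have k0 := hs 0
    have k1 := hs 1
    have k2 := hs 2
    have k3 := gx3_sum_out (A := A') (ρ := ρ) (m := A'.ncard) R c ha'
    rw [hc] at k0 k1 k2 k3
    have e1 : ∀ k : Fin 4, (R k).1 a = ![0, 1, 1, 1] k := by
      intro k
      fin_cases k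
      · rfl
      · show A.indicator 1 a = 1
        rw [Set.indicator_of_mem ha]
        rfl
      · show A.indicator 1 a = 1
        rw [Set.indicator_of_mem ha]
        rfl
      · show A.indicator 1 a = 1
        rw [Set.indicator_of_mem ha]
        rfl
    rw [Fin.sum_univ_four, e1, e1, e1, e1] at k3
    have key : ∀ c0 c1 c2 c3 : ZMod 2, 0 = c0 * 1 + c1 * 1 + c2 * 0 + c3 * 1 →
        0 = c0 * 1 + c1 * 0 + c2 * 1 + c3 * 1 → 0 = c0 * 1 + c1 * 0 + c2 * 0 + c3 * 0 →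
        0 = c0 * 0 + c1 * 1 + c2 * 1 + c3 * 1 → c0 = 0 ∧ c1 = 0 ∧ c2 = 0 ∧ c3 = 0 := by
      decide
    obtain ⟨j0, j1, j2, j3⟩ := key _ _ _ _ k0 k1 k2 k3
    refine gx3_ind hρ R c hc0 ?_ (fun a _ => by rw [hc]; rfl)
    intro k
    fin_cases k
    · exact j0
    · exact j1
    · exact j2
    · exact j3

theorem typeX4_con {M : Matroid α} {A B : Set α} (hfin : M.E.Finite) (hAB : A ∪ B = M.E)
    (hd : Disjoint A B) (h : TypeX4 M A B) {b : α} (hb : b ∈ B) : Regular (M ／ {b}) := by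
  obtain ⟨rfl, Y, t, hbf, ht⟩ := h
  have hBE : B ⊆ M.E := hAB ▸ subset_union_right
  have hw : ∀ e ∈ B, bvec ∅ Y t e = (0, t e) := by
    intro e he
    have h1 : Y e = ∅ := Set.subset_eq_empty (hbf.1 e he) rfl
    rw [gx3_bvec_out (Set.notMem_empty e), h1, Set.indicator_empty']
  obtain ⟨hb1, hb2⟩ := ht b hb
  refine regular_con_of_graph hfin (gx3_repBy hAB hbf) (hBE hb)
    (fun k : Fin 4 => ((0, gx3_Q (t b) k) : (α → ZMod 2) × (Fin 4 → ZMod 2))) ?_ ?_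
  · intro e he _
    rw [← hAB, Set.empty_union] at he
    obtain ⟨he1, he2⟩ := ht e he
    obtain ⟨⟨p, q⟩, hpq⟩ := gx3_tabQ1 (t b) (t e) hb1 hb2 he1 he2
    refine ⟨p, q, ?_⟩
    rw [hw e he, hw b hb]
    rcases hpq with h | h
    · left
      exact Prod.ext (by simp) h
    · right
      exact Prod.ext (by simp) h
  · intro c hc0 hc
    have hs : ∀ j, (∑ p, c p • ((0, gx3_Q (t b) p) : (α → ZMod 2) × (Fin 4 → ZMod 2))).2 j =
        ∑ k, c k * gx3_Q (t b) k j := by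
      intro j
      rw [Prod.snd_sum, Finset.sum_apply]
      rfl
    refine gx3_tabQ2 (t b) c hb1 hb2 hc0 ?_
    rcases hc with hc | hc
    · left
      intro j
      rw [← hs j, hc]
      rfl
    · right
      intro j
      rw [← hs j, hc, hw b hb]

end Pool.Agent.Helper43_EOR
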