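import Mathlib
import Pool.Agent.Helper43_EOR.F5

set_option autoImplicit false

namespace Pool.Agent.Helper43_EOR

open Set Matroid

variable {α : Type*}


/-
JOB S2 (type S gives regular contractions and is self dual).
PLAIN WORDS. First lemma: for Z = (A \ I) ∪ J, I ⊆ A, J ⊆ B finite, |I| = |J|: SignedBase A B S Z iff
det (S a b)_{a ∈ I, b ∈ J} ≠ 0.
typeS_con. Let b0 ∈ B and F a field. If A = ∅: bases of M are ∅ (first alternative; the second one is
impossible since M has a base and the only SignedBase is ∅ = A), every element of M is a loop, M ／ {b0}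
is represented by zero vectors. Let A ≠ ∅. D(a, b) = (1 - S a b0 * S a b) / 2 ∈ {0, 1}. Claim: the
classes in F^A / (F • 1) of e_a (a ∈ A) and D(·, b) (b ∈ B \ {b0}) represent M ／ {b0}. It suffices to
compare bases: A \ I ∪ K, K ⊆ B \ {b0}, |K| + 1 = |I|, is a base of M ／ {b0} iff
A \ I ∪ K ∪ {b0} is a base of M ({b0} is independent: det of the 1 × 1 matrix is ± 1, A \ {a} ∪ {b0} is a
base) iff det S(I, K ∪ {b0}) ≠ 0 (in the second alternative too, since this set is not A) iff
d = det [D(I, K) | 1] ≠ 0 in ℤ, since det S(I, K ∪ {b0}) = ± 2^|K| d (scale rows by S a b0: columns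
become 1 and 1 - 2 D). By total minimality det S(I, K ∪ {b0}) ∈ {0, ± 2^|K|}, so d ∈ {0, ± 1}, and
d ≠ 0 in ℤ iff d ≠ 0 in F iff {e_a : a ∈ A \ I} ∪ {D(·, b) : b ∈ K} ∪ {1} is independent in F^A iff the
classes are independent in the quotient. (A matroid on a finite set is determined by its bases; the
family of |A| - 1 dimensional space is spanned by the classes of e_a.)
typeS_dual. M✶ has the bases M.E \ Z. For Z = (A \ I) ∪ J: M.E \ Z = (B \ J) ∪ I, and SignedBase B A Sᵀ
(M.E \ Z) iff det Sᵀ(J, I) ≠ 0 iff det S(I, J) ≠ 0. Z ≠ A iff M.E \ Z ≠ B. Total minimality is symmetric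
under transposition. (Sᵀ b a = S a b.)
typeS_del: (M ＼ {a})✶ = M✶ ／ {a}, typeS_dual and typeS_con for M✶, Regular.dual.
-/
/-- The columns of `[I_A | R]`. -/
noncomputable def S2vec {F : Type*} [Field F] (A : Set α) (R : α → α → F) (e : α) : α → F :=
  open Classical in
  if e ∈ A then (Pi.single e 1 : α → F) else A.indicator (fun a => R a e)

theorem S2vec_of_mem {F : Type*} [Field F] {A : Set α} (R : α → α → F) {e : α} (he : e ∈ A)
    (x : α) : S2vec A R e x = open Classical in if x = e then 1 else 0 := by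
  classical
  unfold S2vec
  rw [if_pos he]
  rw [Pi.single_apply]

theorem S2vec_of_notMem {F : Type*} [Field F] {A : Set α} (R : α → α → F) {e : α} (he : e ∉ A)
    {x : α} (hx : x ∈ A) : S2vec A R e x = R x e := by
  classical
  unfold S2vec
  rw [if_neg he, Set.indicator_of_mem hx]

theorem S2vec_outside {F : Type*} [Field F] {A : Set α} (R : α → α → F) (e : α)
    {x : α} (hx : x ∉ A) : S2vec A R e x = 0 := by
  classical
  by_cases he : e ∈ A
  · rw [S2vec_of_mem R he, if_neg]
    rintro rfl
    exact hx he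
  · unfold S2vec
    rw [if_neg he, Set.indicator_of_notMem hx]

theorem S2_signedBase_iff {A B : Set α} {S : α → α → ℤ} {Z : Set α} :
    SignedBase A B S Z ↔ Z ⊆ A ∪ B ∧ Z.encard = A.encard ∧
      LinearIndepOn ℚ (S2vec A (fun a b => (S a b : ℚ))) Z := Iff.rfl

/-- The determinant criterion. -/
theorem S2_det_iff {F : Type*} [Field F] {A Z : Set α} (hA : A.Finite) (R : α → α → F) {n : ℕ}
    (f g : Fin n → α) (hg : g.Injective) (hfr : range f = A \ Z)
    (hgr : range g = Z \ A) :
    LinearIndepOn F (S2vec A R) Z ↔ (Matrix.of fun i j => R (f i) (g j)).det ≠ 0 := by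
  classical
  have hfin : (A ∩ Z).Finite := hA.subset inter_subset_left
  have : Fintype ↥(A ∩ Z) := hfin.fintype
  have hf' : ∀ i, f i ∈ A \ Z := fun i => hfr ▸ mem_range_self i
  have hg' : ∀ i, g i ∈ Z \ A := fun i => hgr ▸ mem_range_self i
  set row : ↥(A ∩ Z) ⊕ Fin n → α := Sum.elim (fun x => x.1) f with hrow
  set col : ↥(A ∩ Z) ⊕ Fin n → α := Sum.elim (fun x => x.1) g with hcol
  have hcoli : Function.Injective col := by
    rintro (⟨x, hx⟩ | i) (⟨y, hy⟩ | j) h
    · simp only [hcol, Sum.elim_inl] at h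
      subst h
      rfl
    · simp only [hcol, Sum.elim_inl, Sum.elim_inr] at h
      exact absurd hx.1 (h ▸ (hg' j).2)
    · simp only [hcol, Sum.elim_inl, Sum.elim_inr] at h
      exact absurd hy.1 (h ▸ (hg' i).2)
    · simp only [hcol, Sum.elim_inr] at h
      rw [hg h]
  have hcolr : range col = Z := by
    rw [hcol, Set.Sum.elim_range, hgr, Subtype.range_coe_subtype]
    ext x
    simp only [mem_union, mem_ofPred_eq, mem_inter_iff, mem_sdiff]
    tauto
  have hrowr : range row = A := by
    rw [hrow, Set.Sum.elim_range, hfr, Subtype.range_coe_subtype]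
    ext x
    simp only [mem_union, mem_ofPred_eq, mem_inter_iff, mem_sdiff]
    tauto
  have h1 : LinearIndepOn F (S2vec A R) Z ↔ LinearIndependent F (S2vec A R ∘ col) := by
    rw [← linearIndepOn_range_iff hcoli, hcolr]
  have hinj : Set.InjOn (LinearMap.funLeft F F row)
      (Submodule.span F (range (S2vec A R ∘ col)) : Set (α → F)) := by
    have hsupp : ∀ x ∈ Submodule.span F (range (S2vec A R ∘ col)), ∀ a, a ∉ A → x a = 0 := by
      intro x hx a ha
      induction hx using Submodule.span_induction with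
      | mem x hx =>
        obtain ⟨s, rfl⟩ := hx
        exact S2vec_outside R _ ha
      | zero => rfl
      | add x y _ _ hx hy => rw [Pi.add_apply, hx, hy, add_zero]
      | smul c x _ hx => rw [Pi.smul_apply, hx, smul_zero]
    intro x hx y hy hxy
    funext a
    by_cases ha : a ∈ A
    · rw [← hrowr] at ha
      obtain ⟨s, rfl⟩ := ha
      exact congrFun hxy s
    · rw [hsupp x hx a ha, hsupp y hy a ha]
  have h2 := (LinearMap.funLeft F F row).linearIndependent_iff_of_injOn hinj
  rw [h1, ← h2]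
  have h3 : (LinearMap.funLeft F F row) ∘ (S2vec A R ∘ col) =
      (Matrix.fromBlocks 1 (Matrix.of fun (i : ↥(A ∩ Z)) j => R i (g j)) 0
        (Matrix.of fun i j => R (f i) (g j))).col := by
    funext s t
    simp only [Function.comp_apply, LinearMap.funLeft_apply, Matrix.col_apply]
    rcases s with ⟨x, hx⟩ | j
    · rcases t with ⟨y, hy⟩ | i
      · rw [Matrix.fromBlocks_apply₁₁, Matrix.one_apply]
        simp only [hrow, hcol, Sum.elim_inl]
        rw [S2vec_of_mem R hx.1]
        simp only [Subtype.mk.injEq]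
      · rw [Matrix.fromBlocks_apply₂₁]
        simp only [hrow, hcol, Sum.elim_inl, Sum.elim_inr]
        rw [S2vec_of_mem R hx.1, if_neg]
        · rfl
        · intro h
          exact (hf' i).2 (h ▸ hx.2)
    · rcases t with ⟨y, hy⟩ | i
      · rw [Matrix.fromBlocks_apply₁₂]
        simp only [hrow, hcol, Sum.elim_inl, Sum.elim_inr]
        rw [S2vec_of_notMem R (hg' j).2 hy.1]
        rfl
      · rw [Matrix.fromBlocks_apply₂₂]
        simp only [hrow, hcol, Sum.elim_inr]
        rw [S2vec_of_notMem R (hg' j).2 (hf' i).1]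
        rfl
  rw [h3, Matrix.linearIndependent_cols_iff_isUnit, Matrix.isUnit_iff_isUnit_det,
    Matrix.det_fromBlocks_zero₂₁, Matrix.det_one, one_mul, isUnit_iff_ne_zero]

/-- Numbering of the rows and columns. -/
theorem S2_exists_index {A Z : Set α} (hA : A.Finite) (hZ : Z.encard = A.encard) :
    ∃ (n : ℕ) (f g : Fin n → α), f.Injective ∧ g.Injective ∧ range f = A \ Z ∧
      range g = Z \ A := by
  have hZf : Z.Finite := by
    rw [← Set.encard_lt_top_iff, hZ]
    exact hA.encard_lt_top
  have h1 : (A \ Z).Finite := hA.subset sdiff_subset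
  have h2 : (Z \ A).Finite := hZf.subset sdiff_subset
  have h3 : (A \ Z).ncard = (Z \ A).ncard := by
    have e1 := Set.ncard_inter_add_ncard_sdiff_eq_ncard A Z hA
    have e2 := Set.ncard_inter_add_ncard_sdiff_eq_ncard Z A hZf
    have e3 : Z.ncard = A.ncard := by
      unfold Set.ncard
      rw [hZ]
    rw [Set.inter_comm Z A] at e2
    omega
  have := h1.fintype
  have := h2.fintype
  have c1 : Fintype.card ↥(A \ Z) = (A \ Z).ncard := by
    rw [Set.ncard_eq_toFinset_card', Set.toFinset_card]
  have c2 : Fintype.card ↥(Z \ A) = (A \ Z).ncard := by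
    rw [h3, Set.ncard_eq_toFinset_card', Set.toFinset_card]
  refine ⟨(A \ Z).ncard, fun i => ((Fintype.equivFinOfCardEq c1).symm i).1,
    fun i => ((Fintype.equivFinOfCardEq c2).symm i).1, ?_, ?_, ?_, ?_⟩
  · exact Subtype.val_injective.comp (Equiv.injective _)
  · exact Subtype.val_injective.comp (Equiv.injective _)
  · ext x
    constructor
    · rintro ⟨i, rfl⟩
      exact Subtype.prop _
    · intro hx
      exact ⟨Fintype.equivFinOfCardEq c1 ⟨x, hx⟩, by simp⟩
  · ext x
    constructor
    · rintro ⟨i, rfl⟩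
      exact Subtype.prop _
    · intro hx
      exact ⟨Fintype.equivFinOfCardEq c2 ⟨x, hx⟩, by simp⟩

/-- The matrix whose columns represent the contraction. -/
noncomputable def S2W (S : α → α → ℤ) (b₀ : α) (a b : α) : ℤ :=
  open Classical in
  if b = b₀ then 1 else (1 - S a b₀ * S a b) / 2

theorem S2_det_formula {A B : Set α} {S : α → α → ℤ}
    (hS : ∀ a ∈ A, ∀ b ∈ B, S a b = 1 ∨ S a b = -1) {k : ℕ} (f g : Fin (k + 1) → α)
    (hg : g.Injective) (hfA : ∀ i, f i ∈ A) (hgB : ∀ i, g i ∈ B) (j₀ : Fin (k + 1)) :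
    (Matrix.of fun i j => S (f i) (g j)).det = (∏ i, S (f i) (g j₀)) *
      ((-2) ^ k * (Matrix.of fun i j => S2W S (g j₀) (f i) (g j)).det) := by
  classical
  have h1 : (Matrix.of fun i j => S (f i) (g j)) = Matrix.of fun i j => S (f i) (g j₀) *
      (Matrix.of fun i j => S (f i) (g j₀) * S (f i) (g j)) i j := by
    ext i j
    simp only [Matrix.of_apply]
    rcases hS (f i) (hfA i) (g j₀) (hgB j₀) with h | h <;> rw [h] <;> ring
  rw [h1, Matrix.det_mul_column]
  congr 1
  have h2 : (Matrix.of fun i j => S (f i) (g j₀) * S (f i) (g j)).det =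
      (Matrix.of fun i j => (if j = j₀ then (1 : ℤ) else -2) *
        (Matrix.of fun i j => S2W S (g j₀) (f i) (g j)) i j).det := by
    rw [← Matrix.det_transpose (Matrix.of fun i j => S (f i) (g j₀) * S (f i) (g j)),
      ← Matrix.det_transpose (Matrix.of fun i j => (if j = j₀ then (1 : ℤ) else -2) *
        (Matrix.of fun i j => S2W S (g j₀) (f i) (g j)) i j)]
    refine Matrix.det_eq_of_forall_row_eq_smul_add_const (fun j => if j = j₀ then 0 else 1) j₀
      (by simp) ?_
    intro j i
    simp only [Matrix.transpose_apply, Matrix.of_apply, if_true, one_mul]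
    unfold S2W
    by_cases hj : j = j₀
    · subst hj
      simp only [if_true]
      rcases hS (f i) (hfA i) (g j) (hgB j) with h | h <;> rw [h] <;> norm_num
    · have hne : g j ≠ g j₀ := fun h => hj (hg h)
      simp only [if_true, if_neg hj, if_neg hne]
      rcases hS (f i) (hfA i) (g j₀) (hgB j₀) with h | h <;>
        rcases hS (f i) (hfA i) (g j) (hgB j) with h' | h' <;> rw [h, h'] <;> norm_num
  rw [h2, Matrix.det_mul_row]
  congr 1
  rw [← Finset.mul_prod_erase Finset.univ _ (Finset.mem_univ j₀), if_pos rfl, one_mul,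
    Finset.prod_congr rfl (g := fun _ => (-2 : ℤ)) (fun j hj => if_neg (Finset.ne_of_mem_erase hj)),
    Finset.prod_const, Finset.card_erase_of_mem (Finset.mem_univ j₀), Finset.card_univ,
    Fintype.card_fin, Nat.add_sub_cancel]

theorem S2_prod_sign {n : ℕ} (x : Fin n → ℤ) (hx : ∀ i, x i = 1 ∨ x i = -1) :
    (∏ i, x i).natAbs = 1 := by
  rw [← Int.isUnit_iff_natAbs_eq]
  rw [IsUnit.prod_univ_iff]
  intro i
  rcases hx i with h | h <;> rw [h]
  · exact isUnit_one
  · exact isUnit_one.neg

theorem S2_det_W {A B : Set α} {S : α → α → ℤ} (h : TotallyMinimal A B S) {k : ℕ}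
    (f g : Fin (k + 1) → α) (hf : f.Injective) (hg : g.Injective) (hfA : ∀ i, f i ∈ A)
    (hgB : ∀ i, g i ∈ B) (j₀ : Fin (k + 1)) :
    ((Matrix.of fun i j => S2W S (g j₀) (f i) (g j)).det = 0 ∧
      (Matrix.of fun i j => S (f i) (g j)).det = 0) ∨
    (((Matrix.of fun i j => S2W S (g j₀) (f i) (g j)).det = 1 ∨
      (Matrix.of fun i j => S2W S (g j₀) (f i) (g j)).det = -1) ∧
      (Matrix.of fun i j => S (f i) (g j)).det ≠ 0) := by
  have h1 := S2_det_formula h.1 f g hg hfA hgB j₀
  have h2 := h.2 k f g hf hg hfA hgB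
  have h3 := S2_prod_sign (fun i => S (f i) (g j₀)) fun i => h.1 _ (hfA i) _ (hgB j₀)
  set d := (Matrix.of fun i j => S2W S (g j₀) (f i) (g j)).det
  set e := (Matrix.of fun i j => S (f i) (g j)).det
  have h4 : e.natAbs = 2 ^ k * d.natAbs := by
    rw [h1, Int.natAbs_mul, h3, one_mul, Int.natAbs_mul, Int.natAbs_pow]
    rfl
  have h5 : (0 : ℕ) < 2 ^ k := by positivity
  rcases h2 with h2 | h2 | h2
  · left
    rw [h2, Int.natAbs_zero] at h4
    refine ⟨?_, h2⟩
    have : d.natAbs = 0 := by
      rcases Nat.mul_eq_zero.1 h4.symm with h | h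
      · omega
      · exact h
    exact Int.natAbs_eq_zero.1 this
  all_goals
    right
    have h6 : e.natAbs = 2 ^ k := by
      rw [h2]
      simp [Int.natAbs_pow]
    rw [h6] at h4
    have h7 : d.natAbs = 1 := Nat.eq_of_mul_eq_mul_left h5 (by rw [← h4, mul_one])
    refine ⟨Int.natAbs_eq_iff.1 h7, ?_⟩
    intro h0
    rw [h0, Int.natAbs_zero] at h6
    omega

theorem S2_indep_iff {F : Type*} [Field F] {A B : Set α} {S : α → α → ℤ} (hA : A.Finite)
    (hd : Disjoint A B) (h : TotallyMinimal A B S) {b₀ : α} {Z : Set α} (hZ : Z ⊆ A ∪ B)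
    (hZc : Z.encard = A.encard) (hbZ : b₀ ∈ Z) (hb : b₀ ∈ B) :
    LinearIndepOn ℚ (S2vec A (fun a b => (S a b : ℚ))) Z ↔
      LinearIndepOn F (S2vec A (fun a b => (S2W S b₀ a b : F))) Z := by
  obtain ⟨n, f, g, hf, hg, hfr, hgr⟩ := S2_exists_index hA hZc
  have hfA : ∀ i, f i ∈ A := fun i => (hfr ▸ mem_range_self i : f i ∈ A \ Z).1
  have hgZ : ∀ i, g i ∈ Z \ A := fun i => hgr ▸ mem_range_self i
  have hgB : ∀ i, g i ∈ B := fun i => (hZ (hgZ i).1).resolve_left (hgZ i).2
  obtain ⟨j₀, hj₀⟩ : b₀ ∈ range g := by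
    rw [hgr]
    exact ⟨hbZ, fun hbA => Set.disjoint_left.1 hd hbA hb⟩
  rw [S2_det_iff hA _ f g hg hfr hgr, S2_det_iff hA _ f g hg hfr hgr]
  have e1 : (Matrix.of fun i j => ((S (f i) (g j) : ℤ) : ℚ)).det =
      (((Matrix.of fun i j => S (f i) (g j)).det : ℤ) : ℚ) := by
    rw [Int.cast_det]
    rfl
  have e2 : (Matrix.of fun i j => ((S2W S b₀ (f i) (g j) : ℤ) : F)).det =
      (((Matrix.of fun i j => S2W S b₀ (f i) (g j)).det : ℤ) : F) := by
    rw [Int.cast_det]
    rfl
  rw [e1, e2, Int.cast_ne_zero]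
  obtain ⟨k, rfl⟩ : ∃ k, n = k + 1 := ⟨n - 1, by have := j₀.2; omega⟩
  rw [← hj₀]
  rcases S2_det_W h f g hf hg hfA hgB j₀ with ⟨h1, h2⟩ | ⟨h1, h2⟩
  · rw [h1, h2]
    simp
  · refine ⟨fun _ => ?_, fun _ => h2⟩
    rcases h1 with h1 | h1 <;> rw [h1] <;> simp

theorem S2_span_vec {F : Type*} [Field F] {A : Set α} (hA : A.Finite) (R : α → α → F) (e : α) :
    S2vec A R e ∈ Submodule.span F (S2vec A R '' A) := by
  classical
  have h : S2vec A R e = ∑ a ∈ hA.toFinset, S2vec A R e a • S2vec A R a := by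
    funext x
    rw [Finset.sum_apply]
    by_cases hx : x ∈ A
    · rw [Finset.sum_eq_single x]
      · rw [Pi.smul_apply, S2vec_of_mem R hx, if_pos rfl, smul_eq_mul, mul_one]
      · intro a ha hax
        rw [Pi.smul_apply, S2vec_of_mem R (hA.mem_toFinset.1 ha), if_neg (Ne.symm hax), smul_zero]
      · intro h
        exact absurd (hA.mem_toFinset.2 hx) h
    · rw [S2vec_outside R e hx, Finset.sum_eq_zero]
      intro a ha
      rw [Pi.smul_apply, S2vec_outside R a hx, smul_zero]
  rw [h]
  refine Submodule.sum_mem _ fun a ha => Submodule.smul_mem _ _ (Submodule.subset_span ?_)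
  exact mem_image_of_mem _ (hA.mem_toFinset.1 ha)

theorem S2_linearIndepOn_A {F : Type*} [Field F] {A : Set α} (hA : A.Finite) (R : α → α → F) :
    LinearIndepOn F (S2vec A R) A := by
  rw [S2_det_iff (n := 0) hA R (fun i => i.elim0) (fun i => i.elim0)]
  · simp
  · intro i
    exact i.elim0
  · simp
  · simp

/-- Independent sets extend to independent sets of full size. -/
theorem S2_extend {F : Type*} [Field F] {A B : Set α} (hA : A.Finite) (hB : B.Finite)
    (R : α → α → F) {I : Set α} (hI : I ⊆ A ∪ B) (h : LinearIndepOn F (S2vec A R) I) :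
    ∃ Z ⊆ A ∪ B, I ⊆ Z ∧ Z.encard = A.encard ∧ LinearIndepOn F (S2vec A R) Z := by
  obtain ⟨Z, hZ, hIZ, hsp, hli⟩ := exists_linearIndepOn_extension h hI
  refine ⟨Z, hZ, hIZ, ?_, hli⟩
  have hZf : Z.Finite := (hA.union hB).subset hZ
  have : Fintype A := hA.fintype
  have : Fintype Z := hZf.fintype
  have h1 : Submodule.span F (S2vec A R '' Z) = Submodule.span F (S2vec A R '' A) := by
    apply le_antisymm
    · rw [Submodule.span_le]
      rintro _ ⟨e, -, rfl⟩
      exact S2_span_vec hA R e
    · rw [Submodule.span_le]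
      exact (Set.image_mono subset_union_left).trans hsp
  have h2 : Module.finrank F (Submodule.span F (S2vec A R '' Z)) = Fintype.card Z := by
    rw [Set.image_eq_range]
    exact finrank_span_eq_card hli
  have h3 : Module.finrank F (Submodule.span F (S2vec A R '' A)) = Fintype.card A := by
    rw [Set.image_eq_range]
    exact finrank_span_eq_card (S2_linearIndepOn_A hA R)
  rw [h1, h3] at h2
  rw [Set.encard_eq_coe_toFinset_card, Set.encard_eq_coe_toFinset_card, Set.toFinset_card,
    Set.toFinset_card, h2]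

/-- The bases of `M` other than `A`. -/
theorem S2_isBase_iff {M : Matroid α} {A B : Set α} {S : α → α → ℤ}
    (hB : (∀ Z, M.IsBase Z ↔ SignedBase A B S Z) ∨
      (∀ Z, M.IsBase Z ↔ SignedBase A B S Z ∧ Z ≠ A)) {Z : Set α} (hZ : Z ≠ A) :
    M.IsBase Z ↔ SignedBase A B S Z := by
  rcases hB with hB | hB
  · exact hB Z
  · rw [hB Z, and_iff_left hZ]

theorem typeS_con {M : Matroid α} {A B : Set α} (hfin : M.E.Finite) (hAB : A ∪ B = M.E)
    (hd : Disjoint A B) (h : TypeS0 M A B) {b : α} (hb : b ∈ B) : Regular (M ／ {b}) := by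
  classical
  intro F _
  obtain ⟨S, hS, hM⟩ := h
  have hAf : A.Finite := hfin.subset (hAB ▸ subset_union_left)
  have hBf : B.Finite := hfin.subset (hAB ▸ subset_union_right)
  have hbA : b ∉ A := fun hbA => Set.disjoint_left.1 hd hbA hb
  have hfin' : (M ／ {b}).E.Finite := hfin.subset sdiff_subset
  rcases A.eq_empty_or_nonempty with hA | ⟨a, ha⟩
  · -- every element is a loop
    have hind : ∀ I, M.Indep I → I = ∅ := by
      intro I hI
      obtain ⟨Z, hZ, hIZ⟩ := hI.exists_isBase_superset
      have hZ' : SignedBase A B S Z := by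
        rcases hM with hM | hM
        · exact (hM Z).1 hZ
        · exact ((hM Z).1 hZ).1
      have h2 := hZ'.2.1
      rw [hA, Set.encard_empty, Set.encard_eq_zero] at h2
      rw [h2] at hIZ
      exact Set.subset_empty_iff.1 hIZ
    refine repOver_of_repBy hfin' (w := fun _ => (0 : F)) ?_
    intro I _
    constructor
    · intro hI
      rw [hind I hI.of_contract]
      exact linearIndepOn_empty F _
    · intro hI
      have hI0 : I = ∅ := by
        by_contra hne
        obtain ⟨x, hx⟩ := Set.nonempty_iff_ne_empty.2 hne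
        exact hI.ne_zero hx rfl
      rw [hI0]
      exact (M ／ {b}).empty_indep
  · -- the main case
    set R : α → α → F := fun a b' => (S2W S b a b' : F) with hR
    have hkey : ∀ Z, Z ⊆ A ∪ B → Z.encard = A.encard → b ∈ Z →
        (M.IsBase Z ↔ LinearIndepOn F (S2vec A R) Z) := by
      intro Z hZ hZc hbZ
      have hne : Z ≠ A := fun h => hbA (h ▸ hbZ)
      rw [S2_isBase_iff hM hne, S2_signedBase_iff,
        S2_indep_iff (F := F) hAf hd hS hZ hZc hbZ hb, and_iff_right hZ, and_iff_right hZc]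
    have hkey2 : ∀ I, I ⊆ A ∪ B → b ∈ I → (M.Indep I ↔ LinearIndepOn F (S2vec A R) I) := by
      intro I hI hbI
      constructor
      · intro hMI
        obtain ⟨Z, hZ, hIZ⟩ := hMI.exists_isBase_superset
        have hne : Z ≠ A := fun h => hbA (h ▸ hIZ hbI)
        have hZ' := (S2_isBase_iff hM hne).1 hZ
        exact ((hkey Z hZ'.1 hZ'.2.1 (hIZ hbI)).1 hZ).mono hIZ
      · intro hFI
        obtain ⟨Z, hZ, hIZ, hZc, hli⟩ := S2_extend hAf hBf R hI hFI
        exact ((hkey Z hZ hZc (hIZ hbI)).2 hli).indep.subset hIZ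
    have hbvec : S2vec A R b ≠ 0 := by
      intro h0
      have h1 := congrFun h0 a
      rw [S2vec_of_notMem R hbA ha] at h1
      simp [hR, S2W] at h1
    have hbI : M.Indep {b} := by
      rw [hkey2 {b} (by rw [Set.singleton_subset_iff]; exact Or.inr hb) rfl]
      exact (linearIndepOn_singleton_iff F).2 hbvec
    refine repOver_of_repBy hfin'
      (w := Submodule.mkQ (Submodule.span F (S2vec A R '' {b})) ∘ S2vec A R) ?_
    intro I hI
    rw [contract_ground] at hI
    have hIE : I ⊆ A ∪ B := by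
      rw [hAB]
      exact hI.trans sdiff_subset
    have hbI' : Disjoint ({b} : Set α) I := by
      rw [Set.disjoint_singleton_left]
      intro hbI'
      exact (hI hbI').2 rfl
    rw [hbI.contract_indep_iff, and_iff_right hbI'.symm, Set.union_comm, hkey2 ({b} ∪ I)
      (Set.union_subset (by rw [Set.singleton_subset_iff]; exact Or.inr hb) hIE) (Or.inl rfl),
      linearIndepOn_union_iff_quotient hbI', and_iff_right]
    exact (linearIndepOn_singleton_iff F).2 hbvec

theorem typeS_dual {M : Matroid α} {A B : Set α} (hfin : M.E.Finite) (hAB : A ∪ B = M.E)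
    (hd : Disjoint A B) (h : TypeS0 M A B) : TypeS0 M✶ B A := by
  classical
  obtain ⟨S, hS, hM⟩ := h
  have hAf : A.Finite := hfin.subset (hAB ▸ subset_union_left)
  have hBf : B.Finite := hfin.subset (hAB ▸ subset_union_right)
  have key : ∀ Z, SignedBase B A (fun b a => S a b) Z ↔ Z ⊆ M.E ∧ SignedBase A B S (M.E \ Z) := by
    intro Z
    rw [S2_signedBase_iff, S2_signedBase_iff, Set.union_comm B A, hAB]
    have hcard : Z ⊆ M.E → (Z.encard = B.encard ↔ (M.E \ Z).encard = A.encard) := by
      intro hZ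
      have hZf : Z.Finite := hfin.subset hZ
      have hZf' : (M.E \ Z).Finite := hfin.subset sdiff_subset
      have e1 := Set.ncard_sdiff_add_ncard_of_subset hZ hfin
      have e2 := Set.ncard_union_eq hd hAf hBf
      rw [hAB] at e2
      rw [← hZf.cast_ncard_eq, ← hBf.cast_ncard_eq, ← hZf'.cast_ncard_eq, ← hAf.cast_ncard_eq,
        Nat.cast_inj, Nat.cast_inj]
      omega
    constructor
    · rintro ⟨h1, h2, h3⟩
      have h2' := (hcard h1).1 h2
      refine ⟨h1, sdiff_subset, h2', ?_⟩
      obtain ⟨n, f, g, hf, hg, hfr, hgr⟩ := S2_exists_index hAf h2'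
      rw [S2_det_iff hAf _ f g hg hfr hgr]
      rw [S2_det_iff hBf _ g f hf] at h3
      · rw [← Matrix.det_transpose]
        exact h3
      · rw [hgr, ← hAB]
        ext x
        have hx : x ∈ A → x ∉ B := fun hxA => Set.disjoint_left.1 hd hxA
        simp only [mem_sdiff, mem_union]
        tauto
      · rw [hfr]
        ext x
        have hx : x ∈ A → x ∉ B := fun hxA => Set.disjoint_left.1 hd hxA
        have hx2 := @h1 x
        rw [← hAB] at hx2 ⊢
        simp only [mem_sdiff, mem_union] at hx2 ⊢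
        tauto
    · rintro ⟨h1, -, h2, h3⟩
      have h2' := (hcard h1).2 h2
      refine ⟨h1, h2', ?_⟩
      obtain ⟨n, f, g, hf, hg, hfr, hgr⟩ := S2_exists_index hAf h2
      rw [S2_det_iff hAf _ f g hg hfr hgr] at h3
      rw [S2_det_iff hBf _ g f hf]
      · rw [← Matrix.det_transpose]
        exact h3
      · rw [hgr, ← hAB]
        ext x
        have hx : x ∈ A → x ∉ B := fun hxA => Set.disjoint_left.1 hd hxA
        simp only [mem_sdiff, mem_union]
        tauto
      · rw [hfr]
        ext x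
        have hx : x ∈ A → x ∉ B := fun hxA => Set.disjoint_left.1 hd hxA
        have hx2 := @h1 x
        rw [← hAB] at hx2 ⊢
        simp only [mem_sdiff, mem_union] at hx2 ⊢
        tauto
  have hBne : ∀ Z, Z ⊆ M.E → (M.E \ Z = A ↔ Z = B) := by
    intro Z hZ
    constructor
    · intro h
      rw [← Set.sdiff_sdiff_cancel_left hZ, h, ← hAB, Set.union_sdiff_cancel_left]
      exact Set.disjoint_iff.1 hd
    · rintro rfl
      rw [← hAB, Set.union_sdiff_cancel_right]
      exact Set.disjoint_iff.1 hd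
  refine ⟨fun b a => S a b, ⟨fun b hb a ha => hS.1 a ha b hb, ?_⟩, ?_⟩
  · intro k f g hf hg hfB hgA
    have := hS.2 k g f hg hf hgA hfB
    rw [← Matrix.det_transpose] at this
    exact this
  · rcases hM with hM | hM
    · left
      intro Z
      rw [dual_isBase_iff', key Z, hM, and_comm]
    · right
      intro Z
      rw [dual_isBase_iff', key Z, hM]
      constructor
      · rintro ⟨⟨h1, h2⟩, h3⟩
        exact ⟨⟨h3, h1⟩, fun h => h2 ((hBne Z h3).2 h)⟩
      · rintro ⟨⟨h3, h1⟩, h2⟩
        exact ⟨⟨h1, fun h => h2 ((hBne Z h3).1 h)⟩, h3⟩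

theorem typeS_del {M : Matroid α} {A B : Set α} (hfin : M.E.Finite) (hAB : A ∪ B = M.E)
    (hd : Disjoint A B) (h : TypeS0 M A B) {a : α} (ha : a ∈ A) : Regular (M ＼ {a}) := by
  have h1 := typeS_dual hfin hAB hd h
  have h2 : Regular (M✶ ／ {a}) := typeS_con (M := M✶) (A := B) (B := A) (by simpa using hfin)
    (by rw [Set.union_comm, hAB, dual_ground]) hd.symm h1 ha
  have h3 := h2.dual (by rw [contract_ground, dual_ground]; exact hfin.subset sdiff_subset)
  rwa [dual_contract_dual] at h3

end Pool.Agent.Helper43_EOR
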