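import Mathlib
import Pool.Agent.Helper43_EOR.F5

set_option autoImplicit false

namespace Pool.Agent.Helper43_EOR

open Set Matroid

variable {α : Type*}


/-
JOB U (types U1 and U2 have regular deletions and contractions).
PLAIN WORDS. typeU2_con: A = ∅; M ／ {b} has rank at most 1 (b is not a loop), so it is represented over
every field by the vectors 1 (nonloops) and 0 (loops) in F^1.
typeU1_con: b0 ∈ B. M ／ {b0} is represented over ℚ by: a ↦ χ_a, b ↦ (s b - s b0) χ_A. Independent
sets: I ⊆ A ∪ B \ {b0} is independent iff it contains no b with s b = s b0, at most one other b, and not (all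
of A and some b). Over any field F: a ↦ χ_a, b ↦ 0 if s b = s b0 and χ_A otherwise.
(A = ∅ is allowed, then all b are loops in the contraction.)
typeU1_del: a0 ∈ A. M ＼ {a0}: independent sets I ⊆ (A \ {a0}) ∪ B: those with at most two b, of different
classes s (the last coordinate and the coordinate a0, in which (s b) and 1: the vectors (s b, 1) of
ℚ^2 of any two different classes are independent and three are dependent; all the coordinates of χ_A are equal, so
projecting to (a0, last) loses nothing for combinations of b's, and the χ_a, a ≠ a0, are independent from these). Over any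
field F: a ↦ (χ_a, 0, 0), b ↦ (0, 1, 0), (0, 0, 1), (0, 1, 1) according to s b = 0, 1, -1.
-/

theorem jobU_indep_key {F : Type*} [Field F] {A : Set α} (hA : A.Finite) (t : α → F) (v : α → α → F)
    (hvA : ∀ e ∈ A, v e = (open Classical in Pi.single e 1))
    (hvB : ∀ e, e ∉ A → v e = A.indicator (fun _ => t e)) (I : Set α) :
    LinearIndepOn F v I ↔
      (∀ b ∈ I \ A, t b ≠ 0) ∧ (I \ A).Subsingleton ∧ ((I \ A).Nonempty → ¬ A ⊆ I) := by
  classical
  have hsum : ∀ b, b ∉ A → v b ∈ Submodule.span F (v '' A) := by
    intro b hb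
    have : v b = ∑ a ∈ hA.toFinset, t b • v a := by
      rw [hvB b hb]
      funext x
      rw [Finset.sum_apply]
      by_cases hx : x ∈ A
      · rw [Finset.sum_eq_single x]
        · rw [Pi.smul_apply, hvA x hx]
          simp [hx]
        · intro c hc hcx
          rw [Pi.smul_apply, hvA c (hA.mem_toFinset.1 hc)]
          simp [Ne.symm hcx]
        · intro h
          exact absurd (hA.mem_toFinset.2 hx) h
      · rw [Finset.sum_eq_zero]
        · simp [hx]
        · intro c hc
          have hc' := hA.mem_toFinset.1 hc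
          have : x ≠ c := fun h => hx (h ▸ hc')
          rw [Pi.smul_apply, hvA c hc']
          simp [this]
    rw [this]
    refine Submodule.sum_mem _ fun a ha => Submodule.smul_mem _ _ (Submodule.subset_span ?_)
    exact ⟨a, hA.mem_toFinset.1 ha, rfl⟩
  have hindA : LinearIndepOn F v A := by
    have h1 : LinearIndepOn F (fun e : α => (Pi.single e 1 : α → F)) A :=
      (linearIndepOn_univ_iff.2 (Pi.linearIndependent_single_one α F)).mono (Set.subset_univ _)
    exact h1.congr fun e he => (hvA e he).symm
  constructor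
  · intro h
    refine ⟨fun b hb h0 => ?_, fun b hb b' hb' => ?_, ?_⟩
    · apply h.ne_zero hb.1
      rw [hvB b hb.2, h0]
      funext x
      simp
    · by_contra hne
      have h2 : LinearIndepOn F v {b, b'} := h.mono (by
        intro x hx
        rcases hx with rfl | hx
        · exact hb.1
        · rw [Set.mem_singleton_iff.1 hx]
          exact hb'.1)
      rw [LinearIndepOn.pair_iff v hne] at h2
      have h3 := h2 (t b') (- t b) (by
        rw [hvB b hb.2, hvB b' hb'.2]
        funext x
        by_cases hx : x ∈ A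
        · simp [hx]
          ring
        · simp [hx])
      apply h.ne_zero hb.1
      rw [hvB b hb.2, neg_eq_zero.1 h3.2]
      funext x
      simp
    · rintro ⟨b, hb⟩ hAI
      have h2 : LinearIndepOn F v (insert b A) := h.mono (Set.insert_subset hb.1 hAI)
      exact (h2.notMem_span_of_insert hb.2) (hsum b hb.2)
  · rintro ⟨h1, h2, h3⟩
    rcases (I \ A).eq_empty_or_nonempty with h0 | ⟨b, hb⟩
    · exact hindA.mono (Set.sdiff_eq_empty.1 h0)
    · obtain ⟨a, haA, haI⟩ := Set.not_subset.1 (h3 ⟨b, hb⟩)
      have hI : I = insert b (I ∩ A) := by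
        ext x
        constructor
        · intro hx
          by_cases hxA : x ∈ A
          · exact Or.inr ⟨hx, hxA⟩
          · exact Or.inl (h2 ⟨hx, hxA⟩ hb)
        · rintro (rfl | hx)
          · exact hb.1
          · exact hx.1
      rw [hI]
      refine LinearIndepOn.insert (hindA.mono Set.inter_subset_right) ?_
      intro hmem
      have hle : Submodule.span F (v '' (I ∩ A)) ≤ LinearMap.ker (LinearMap.proj a : (α → F) →ₗ[F] F) := by
        rw [Submodule.span_le]
        rintro _ ⟨c, hc, rfl⟩
        have : a ≠ c := fun h => haI (h ▸ hc.1)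
        simp [hvA c hc.2, this]
      have := hle hmem
      rw [LinearMap.mem_ker, LinearMap.proj_apply, hvB b hb.2] at this
      simp only [Set.indicator_of_mem haA] at this
      exact h1 b hb this

theorem jobU_pair_key {F : Type*} [Field F] (x : α → F × F) (s : α → ℚ) (K : Set α)
    (hx : ∀ b ∈ K, ∀ b' ∈ K, s b = s b' → x b = x b')
    (hx' : ∀ b ∈ K, ∀ b' ∈ K, s b ≠ s b' → (x b).1 * (x b').2 - (x b).2 * (x b').1 ≠ 0)
    (hx0 : ∀ b ∈ K, x b ≠ 0) :
    LinearIndepOn F x K ↔ Set.InjOn s K ∧ K.encard ≤ 2 := by
  constructor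
  · intro h
    refine ⟨fun b hb b' hb' hs => h.injOn hb hb' (hx b hb b' hb' hs), ?_⟩
    have := h.encard_le_toENat_rank
    simpa [rank_prod', one_add_one_eq_two] using this
  · rintro ⟨h1, h2⟩
    rcases K.eq_empty_or_nonempty with rfl | ⟨b, hb⟩
    · exact linearIndepOn_empty _ _
    · by_cases hs : K.Subsingleton
      · rw [hs.eq_singleton_of_mem hb]
        exact LinearIndepOn.singleton (hx0 b hb)
      · rw [Set.not_subsingleton_iff] at hs
        obtain ⟨c, hc, d, hd, hcd⟩ := hs
        have hK : K = {c, d} := by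
          have hsub : ({c, d} : Set α) ⊆ K := by
            intro y hy
            rcases hy with rfl | hy
            · exact hc
            · rw [Set.mem_singleton_iff.1 hy]
              exact hd
          refine (Set.Finite.eq_of_subset_of_encard_le' (Set.finite_of_encard_le_coe (k := 2) h2) hsub ?_).symm
          rw [Set.encard_pair hcd]
          exact h2
        rw [hK, LinearIndepOn.pair_iff x hcd]
        intro p q hpq
        have hdet := hx' c hc d hd (fun h => hcd (h1 hc hd h))
        have e1 : p * (x c).1 + q * (x d).1 = 0 := by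
          have := congrArg Prod.fst hpq
          simpa using this
        have e2 : p * (x c).2 + q * (x d).2 = 0 := by
          have := congrArg Prod.snd hpq
          simpa using this
        constructor
        · have : p * ((x c).1 * (x d).2 - (x c).2 * (x d).1) = 0 := by
            linear_combination (x d).2 * e1 - (x d).1 * e2
          exact (mul_eq_zero.1 this).resolve_right hdet
        · have : q * ((x c).1 * (x d).2 - (x c).2 * (x d).1) = 0 := by
            linear_combination (x c).1 * e2 - (x c).2 * e1
          exact (mul_eq_zero.1 this).resolve_right hdet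

theorem jobU_split {F : Type*} [Field F] {V W : Type*} [AddCommGroup V] [Module F V]
    [AddCommGroup W] [Module F W] (v : α → V) (p : V →ₗ[F] W) {J K : Set α}
    (hJ : LinearIndepOn F v J) (hJ0 : ∀ j ∈ J, p (v j) = 0)
    (hK : Set.InjOn p (Submodule.span F (v '' K))) :
    LinearIndepOn F v (J ∪ K) ↔ LinearIndepOn F (p ∘ v) K := by
  constructor
  · intro h
    exact (h.mono Set.subset_union_right).map_injOn p hK
  · intro h
    refine hJ.union (h.of_comp p) ?_
    rw [Submodule.disjoint_def]
    intro x hx hx'
    have h0 : p x = 0 := by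
      have hle : Submodule.span F (v '' J) ≤ LinearMap.ker p := by
        rw [Submodule.span_le]
        rintro _ ⟨j, hj, rfl⟩
        exact hJ0 j hj
      exact hle hx
    exact hK hx' (Submodule.zero_mem _) (by rw [h0, map_zero])

theorem typeU2_con {M : Matroid α} {A B : Set α} (hfin : M.E.Finite) (hAB : A ∪ B = M.E)
    (hd : Disjoint A B) (h : TypeU2 M A) {b : α} (hb : b ∈ B) : Regular (M ／ {b}) := by
  classical
  obtain ⟨hA, hr, hl⟩ := h
  have hbE : b ∈ M.E := hAB ▸ Or.inr hb
  have hbn : M.IsNonloop b := isNonloop_of_loopless hbE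
  intro F _
  refine repOver_of_repBy (V := F) (by rw [contract_ground]; exact hfin.subset Set.sdiff_subset)
    (w := fun e => if M.Indep {b, e} then 1 else 0) ?_
  intro I hI
  rw [contract_ground] at hI
  have hbI : b ∉ I := fun h => (hI h).2 rfl
  rw [hbn.contractElem_indep_iff]
  constructor
  · rintro ⟨-, hind⟩
    have hsub : I.Subsingleton := by
      have h1 := hind.encard_le_eRank
      rw [hr, Set.encard_insert_of_notMem hbI] at h1
      rw [← Set.encard_le_one_iff_subsingleton]
      have h2 : I.encard + 1 ≤ 1 + 1 := by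
        refine h1.trans ?_
        norm_num
      exact (ENat.add_le_add_iff_right (by simp)).1 h2
    rcases hsub.eq_empty_or_singleton with rfl | ⟨e, rfl⟩
    · exact linearIndepOn_empty _ _
    · refine LinearIndepOn.singleton ?_
      rw [if_pos hind]
      exact one_ne_zero
  · intro h
    refine ⟨hbI, ?_⟩
    have hsub : I.Subsingleton := by
      rw [← Set.encard_le_one_iff_subsingleton]
      simpa using h.encard_le_toENat_rank
    rcases hsub.eq_empty_or_singleton with rfl | ⟨e, rfl⟩
    · simpa using hbn
    · have := h.ne_zero (Set.mem_singleton e)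
      by_contra hcon
      apply this
      rw [if_neg hcon]

theorem typeU1_con {M : Matroid α} {A B : Set α} (hfin : M.E.Finite) (hAB : A ∪ B = M.E)
    (hd : Disjoint A B) (h : TypeU1 M A B) {b : α} (hb : b ∈ B) : Regular (M ／ {b}) := by
  classical
  obtain ⟨s, hs, hM⟩ := h
  have hbE : b ∈ M.E := hAB ▸ Or.inr hb
  have hbA : b ∉ A := fun h => Set.disjoint_left.1 hd h hb
  have hA : A.Finite := hfin.subset (hAB ▸ Set.subset_union_left)
  rw [hAB] at hM
  have hrep : RepBy ℚ M (fun e : α => if e ∈ A then
      ((Pi.single e 1, 0) : (α → ℚ) × ℚ) else (A.indicator (fun _ => s e), 1)) := by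
    intro I hI
    rw [hM I hI]
  set w : α → (α → ℚ) × ℚ := fun e : α => if e ∈ A then
      ((Pi.single e 1, 0) : (α → ℚ) × ℚ) else (A.indicator (fun _ => s e), 1) with hw
  have hwA : ∀ e ∈ A, w e = (Pi.single e 1, 0) := fun e he => by simp [hw, he]
  have hwB : ∀ e, e ∉ A → w e = (A.indicator (fun _ => s e), 1) := fun e he => by simp [hw, he]
  -- the projection along the vector of `b`
  let T : ((α → ℚ) × ℚ) →ₗ[ℚ] (α → ℚ) :=
    LinearMap.fst ℚ (α → ℚ) ℚ - (LinearMap.snd ℚ (α → ℚ) ℚ).smulRight (A.indicator (fun _ => s b))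
  have hT : ∀ x, T x = x.1 - x.2 • (A.indicator (fun _ => s b) : α → ℚ) := fun x => rfl
  have hc := hrep.contract_map (C := {b}) (D := ∅) (Set.singleton_subset_iff.2 hbE)
    (Set.disjoint_empty _) T (by
      intro c hc
      rw [Set.mem_singleton_iff.1 hc, hT, hwB b hbA]
      simp) (by
      intro x _ hx
      rw [hT, sub_eq_zero] at hx
      rw [Set.image_singleton, Submodule.mem_span_singleton]
      refine ⟨x.2, ?_⟩
      rw [hwB b hbA]
      ext y
      · rw [hx]
        simp
      · simp)
  rw [delete_empty] at hc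
  intro F _
  refine repOver_of_repBy (V := α → F) (by rw [contract_ground]; exact hfin.subset Set.sdiff_subset)
    (w := fun e => if e ∈ A then (Pi.single e 1 : α → F) else
      A.indicator (fun _ => if s e = s b then 0 else 1)) ?_
  intro I hI
  rw [hc I hI]
  rw [jobU_indep_key hA (fun e => s e - s b) (⇑T ∘ w) (fun e he => by
      simp [Function.comp, hT, hwA e he]) (fun e he => by
      simp only [Function.comp, hT, hwB e he]
      funext y
      by_cases hy : y ∈ A
      · simp [hy]
      · simp [hy]) I,
    jobU_indep_key hA (fun e => if s e = s b then (0 : F) else 1) _ (fun e he => by simp [he])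
      (fun e he => by simp [he]) I]
  refine and_congr_left' ?_
  refine forall₂_congr fun e _ => ?_
  simp [sub_eq_zero]

theorem typeU1_del {M : Matroid α} {A B : Set α} (hfin : M.E.Finite) (hAB : A ∪ B = M.E)
    (hd : Disjoint A B) (h : TypeU1 M A B) {a : α} (ha : a ∈ A) : Regular (M ＼ {a}) := by
  classical
  obtain ⟨s, hs, hM⟩ := h
  rw [hAB] at hM
  set w : α → (α → ℚ) × ℚ := fun e : α => if e ∈ A then
      ((Pi.single e 1, 0) : (α → ℚ) × ℚ) else (A.indicator (fun _ => s e), 1) with hw
  have hwA : ∀ e ∈ A, w e = (Pi.single e 1, 0) := fun e he => by simp [hw, he]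
  have hwB : ∀ e, e ∉ A → w e = (A.indicator (fun _ => s e), 1) := fun e he => by simp [hw, he]
  intro F _
  let x : α → F × F := fun e => if s e = 0 then (0, 1) else if s e = 1 then (1, 0) else (1, 1)
  refine repOver_of_repBy (V := (α → F) × (F × F))
    (by rw [delete_ground]; exact hfin.subset Set.sdiff_subset)
    (w := fun e => if e ∈ A then (Pi.single e 1, 0) else (0, x e)) ?_
  set u : α → (α → F) × (F × F) := fun e => if e ∈ A then (Pi.single e 1, 0) else (0, x e) with hu
  have huA : ∀ e ∈ A, u e = (Pi.single e 1, 0) := fun e he => by simp [hu, he]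
  have huB : ∀ e, e ∉ A → u e = (0, x e) := fun e he => by simp [hu, he]
  intro I hI
  rw [delete_ground] at hI
  have hIE : I ⊆ M.E := hI.trans Set.sdiff_subset
  have haI : a ∉ I := fun h => (hI h).2 rfl
  rw [delete_indep_iff]
  have hdisj : Disjoint I {a} := Set.disjoint_singleton_right.2 haI
  rw [and_iff_left hdisj]
  have hM' : M.Indep I ↔ LinearIndepOn ℚ w I := hM I hIE
  rw [hM']
  have hIAB : I = (I ∩ A) ∪ (I \ A) := (Set.inter_union_sdiff I A).symm
  have hKB : ∀ e ∈ I \ A, e ∈ B := by
    intro e he
    have h1 := hIE he.1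
    rw [← hAB] at h1
    exact h1.resolve_left he.2
  -- rational side
  let p : ((α → ℚ) × ℚ) →ₗ[ℚ] ℚ × ℚ :=
    ((LinearMap.proj a).comp (LinearMap.fst ℚ (α → ℚ) ℚ)).prod (LinearMap.snd ℚ (α → ℚ) ℚ)
  have hp : ∀ y, p y = (y.1 a, y.2) := fun y => rfl
  have e1 : LinearIndepOn ℚ w ((I ∩ A) ∪ (I \ A)) ↔ LinearIndepOn ℚ (p ∘ w) (I \ A) := by
    refine jobU_split w p ?_ ?_ ?_
    · have h1 : LinearIndepOn ℚ (fun e : α => (Pi.single e 1 : α → ℚ)) (I ∩ A) :=
        (linearIndepOn_univ_iff.2 (Pi.linearIndependent_single_one α ℚ)).mono (Set.subset_univ _)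
      refine LinearIndepOn.of_comp (LinearMap.fst ℚ (α → ℚ) ℚ) (h1.congr fun e he => ?_)
      simp [hwA e he.2]
    · intro j hj
      have : a ≠ j := fun h => haI (h ▸ hj.1)
      rw [hp, hwA j hj.2]
      simp [this]
    · -- injectivity on the span
      let S : Submodule ℚ ((α → ℚ) × ℚ) := 
        LinearMap.ker (LinearMap.fst ℚ (α → ℚ) ℚ -
          ((LinearMap.proj a).comp (LinearMap.fst ℚ (α → ℚ) ℚ)).smulRight (A.indicator (fun _ => (1 : ℚ))))
      have hS : ∀ y, y ∈ S ↔ y.1 = y.1 a • (A.indicator (fun _ => (1 : ℚ)) : α → ℚ) := by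
        intro y
        rw [LinearMap.mem_ker]
        exact sub_eq_zero
      have hle : Submodule.span ℚ (w '' (I \ A)) ≤ S := by
        rw [Submodule.span_le]
        rintro _ ⟨e, he, rfl⟩
        rw [SetLike.mem_coe, hS, hwB e he.2]
        funext y
        by_cases hy : y ∈ A
        · simp [hy, ha]
        · simp [hy]
      intro y hy z hz hyz
      have hy' := (hS y).1 (hle hy)
      have hz' := (hS z).1 (hle hz)
      rw [hp, hp, Prod.mk.injEq] at hyz
      refine Prod.ext ?_ hyz.2
      rw [hy', hz', hyz.1]
  have e2 : LinearIndepOn F u ((I ∩ A) ∪ (I \ A)) ↔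
      LinearIndepOn F (LinearMap.snd F (α → F) (F × F) ∘ u) (I \ A) := by
    refine jobU_split u _ ?_ ?_ ?_
    · have h1 : LinearIndepOn F (fun e : α => (Pi.single e 1 : α → F)) (I ∩ A) :=
        (linearIndepOn_univ_iff.2 (Pi.linearIndependent_single_one α F)).mono (Set.subset_univ _)
      refine LinearIndepOn.of_comp (LinearMap.fst F (α → F) (F × F)) (h1.congr fun e he => ?_)
      simp [huA e he.2]
    · intro j hj
      rw [huA j hj.2]
      simp
    · have hle : Submodule.span F (u '' (I \ A)) ≤ LinearMap.ker (LinearMap.fst F (α → F) (F × F)) := by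
        rw [Submodule.span_le]
        rintro _ ⟨e, he, rfl⟩
        simp [huB e he.2]
      intro y hy z hz hyz
      have hy' := hle hy
      have hz' := hle hz
      rw [LinearMap.mem_ker, LinearMap.fst_apply] at hy' hz'
      refine Prod.ext (by rw [hy', hz']) hyz
  rw [← hIAB] at e1 e2
  rw [e1, e2]
  have f1 : LinearIndepOn ℚ (p ∘ w) (I \ A) ↔ Set.InjOn s (I \ A) ∧ (I \ A).encard ≤ 2 := by
    have hpw : ∀ e ∈ I \ A, (p ∘ w) e = (s e, 1) := by
      intro e he
      rw [Function.comp, hp, hwB e he.2]
      simp [ha]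
    refine jobU_pair_key _ s _ ?_ ?_ ?_
    · intro b hb b' hb' h
      rw [hpw b hb, hpw b' hb', h]
    · intro b hb b' hb' h
      rw [hpw b hb, hpw b' hb']
      simpa [sub_eq_zero] using h
    · intro b hb
      rw [hpw b hb]
      simp
  have f2 : LinearIndepOn F (LinearMap.snd F (α → F) (F × F) ∘ u) (I \ A) ↔
      Set.InjOn s (I \ A) ∧ (I \ A).encard ≤ 2 := by
    have hpw : ∀ e ∈ I \ A, (LinearMap.snd F (α → F) (F × F) ∘ u) e = x e := by
      intro e he
      rw [Function.comp, huB e he.2]
      rfl
    refine jobU_pair_key _ s _ ?_ ?_ ?_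
    · intro b hb b' hb' h
      rw [hpw b hb, hpw b' hb']
      simp only [x, h]
    · intro b hb b' hb' h
      rw [hpw b hb, hpw b' hb']
      rcases hs b (hKB b hb) with h1 | h1 | h1 <;> rcases hs b' (hKB b' hb') with h2 | h2 | h2 <;>
        simp only [h1, h2, ne_eq, not_true_eq_false] at h <;> simp [x, h1, h2] <;> norm_num
    · intro b hb
      rw [hpw b hb]
      rcases hs b (hKB b hb) with h1 | h1 | h1 <;> simp [x, h1] <;> norm_num
  rw [f1, f2]

end Pool.Agent.Helper43_EOR
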