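import Mathlib
import Pool.Agent.Helper43_EOR.AsmA
import Pool.Agent.Helper43_EOR.S2
import Pool.Agent.Helper43_EOR.U
import Pool.Agent.Helper43_EOR.GT
import Pool.Agent.Helper43_EOR.GW1
import Pool.Agent.Helper43_EOR.GW2
import Pool.Agent.Helper43_EOR.GX1
import Pool.Agent.Helper43_EOR.GX3

set_option autoImplicit false

/-! # Exactly-one-regular matroids: the classification -/

namespace Pool.Agent.Helper43_EOR

open Set Matroid

variable {α : Type*}

/-! ### Assembly: from types to labelled matroids, and the classification -/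

theorem lab_of_typed {M : Matroid α} {A B : Set α} (hfin : M.E.Finite) (hAB : A ∪ B = M.E)
    (hd : Disjoint A B) (h : Typed0 M A B) : Lab M A B := by
  refine ⟨hfin, hAB, hd, ?_, ?_⟩
  · intro a ha
    rcases h with h | h | h | h | h | h | h | h | h
    · exact typeS_del hfin hAB hd h ha
    · exact typeT_del hfin hAB hd h ha
    · exact typeW1_del hfin hAB hd h ha
    · exact typeW2_del hfin hAB hd h ha
    · exact typeX1_del hfin hAB hd h ha
    · exact typeX3_del hfin hAB hd h ha
    · rw [h.1] at ha; exact absurd ha (Set.notMem_empty a)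
    · exact typeU1_del hfin hAB hd h ha
    · rw [h.1] at ha; exact absurd ha (Set.notMem_empty a)
  · intro b hb
    rcases h with h | h | h | h | h | h | h | h | h
    · exact typeS_con hfin hAB hd h hb
    · exact typeT_con hfin hAB hd h hb
    · exact typeW1_con hfin hAB hd h hb
    · exact typeW2_con hfin hAB hd h hb
    · exact typeX1_con hfin hAB hd h hb
    · exact typeX3_con hfin hAB hd h hb
    · exact typeX4_con hfin hAB hd h hb
    · exact typeU1_con hfin hAB hd h hb
    · exact typeU2_con hfin hAB hd h hb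

theorem asm_con_fin {M : Matroid α} (hfin : M.E.Finite) (C D : Set α) : (M ／ C ＼ D).E.Finite :=
  hfin.subset (by
    rw [Matroid.delete_ground, Matroid.contract_ground]
    exact sdiff_subset.trans sdiff_subset)

/-- If `X` is a core which avoids `e ∈ A` then `M ／ {e}` is not regular. -/
theorem asm_con_not {M : Matroid α} {A B : Set α} (hfin : M.E.Finite) (hAB : A ∪ B = M.E)
    (hd : Disjoint A B) {X : Set α} (hX : X ⊆ M.E)
    (hcore : IsCore (M ／ (A \ X) ＼ (B \ X))) {e : α} (he : e ∉ X) (hA : e ∈ A) :
    ¬ Regular (M ／ {e}) := by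
  intro hreg
  apply core_not_regular (asm_con_fin hfin _ _) hcore
  have h1 : M ／ (A \ X) = M ／ {e} ／ (A \ X) := by
    rw [Matroid.contract_contract]
    congr 1
    rw [Set.union_eq_self_of_subset_left]
    exact Set.singleton_subset_iff.2 ⟨hA, he⟩
  rw [h1]
  have hf : (M ／ {e}).E.Finite := hfin.subset (by
    rw [Matroid.contract_ground]; exact sdiff_subset)
  exact (Regular.contract hf hreg _).delete _

theorem asm_del_not {M : Matroid α} {A B : Set α} (hfin : M.E.Finite) (hAB : A ∪ B = M.E)
    (hd : Disjoint A B) {X : Set α} (hX : X ⊆ M.E)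
    (hcore : IsCore (M ／ (A \ X) ＼ (B \ X))) {e : α} (he : e ∉ X) (hB : e ∈ B) :
    ¬ Regular (M ＼ {e}) := by
  intro hreg
  apply core_not_regular (asm_con_fin hfin _ _) hcore
  have hdis : Disjoint (A \ X) (B \ X) := hd.mono sdiff_subset sdiff_subset
  have h1 : M ／ (A \ X) ＼ (B \ X) = M ＼ {e} ＼ (B \ X) ／ (A \ X) := by
    rw [Matroid.delete_delete, Matroid.contract_delete_comm _ hdis]
    congr 2
    rw [Set.union_eq_self_of_subset_left]
    exact Set.singleton_subset_iff.2 ⟨hB, he⟩
  rw [h1]
  have hf : (M ＼ {e} ＼ (B \ X)).E.Finite := hfin.subset (by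
    rw [Matroid.delete_ground, Matroid.delete_ground]; exact sdiff_subset.trans sdiff_subset)
  exact Regular.contract hf (hreg.delete _) _

theorem asm_lab_fwd {M : Matroid α} {A B : Set α} (hL : Lab M A B) (hne : M.E.Nonempty)
    (hcore : ∀ e ∈ M.E, ∃ X ⊆ M.E, e ∉ X ∧ IsCore (M ／ (A \ X) ＼ (B \ X))) :
    ExactlyOneRegular M := by
  constructor
  · obtain ⟨e, he⟩ := hne
    obtain ⟨X, hX, -, hc⟩ := hcore e he
    intro hreg
    exact core_not_regular (asm_con_fin hL.fin _ _) hc ((Regular.contract hL.fin hreg _).delete _)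
  · intro e he
    obtain ⟨X, hX, heX, hc⟩ := hcore e he
    have he' := he
    rw [← hL.cover] at he'
    rcases he' with hA | hB
    · exact Or.inl ⟨hL.del e hA, asm_con_not hL.fin hL.cover hL.disj hX hc heX hA⟩
    · exact Or.inr ⟨hL.con e hB, asm_del_not hL.fin hL.cover hL.disj hX hc heX hB⟩

theorem asm_empty {M : Matroid α} (h : M.E = ∅) : Regular M := by
  intro F _
  refine ⟨0, fun _ _ => 0, ?_⟩
  intro I hI
  rw [h, Set.subset_empty_iff] at hI
  subst hI
  simp

theorem classification0 {M : Matroid α} (hfin : M.E.Finite) :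
    ExactlyOneRegular M ↔ M.E.Nonempty ∧ ∃ A B : Set α, A ∪ B = M.E ∧ Disjoint A B ∧
      (Typed0 M A B ∨ Typed0 M✶ B A) ∧
      ∀ e ∈ M.E, ∃ X ⊆ M.E, e ∉ X ∧ IsCore (M ／ (A \ X) ＼ (B \ X)) := by
  constructor
  · rintro ⟨hN, hE⟩
    refine ⟨?_, ?_⟩
    · by_contra h
      exact hN (asm_empty (Set.not_nonempty_iff_eq_empty.1 h))
    · set A : Set α := {e | e ∈ M.E ∧ Regular (M ＼ {e})} with hAdef
      set B : Set α := {e | e ∈ M.E ∧ Regular (M ／ {e})} with hBdef
      have hL : Lab M A B := by
        refine ⟨hfin, ?_, ?_, fun a ha => ha.2, fun b hb => hb.2⟩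
        · apply Set.Subset.antisymm
          · rintro x (hx | hx)
            · exact hx.1
            · exact hx.1
          · intro x hx
            rcases hE x hx with h | h
            · exact Or.inl ⟨hx, h.1⟩
            · exact Or.inr ⟨hx, h.1⟩
        · rw [Set.disjoint_left]
          rintro x ⟨hx, h1⟩ ⟨-, h2⟩
          rcases hE x hx with h | h
          · exact h.2 h2
          · exact h.2 h1
      refine ⟨A, B, hL.cover, hL.disj, typed_of_lab hL hN, ?_⟩
      intro e he
      have hcE : (M ／ {e}).E.Finite := hfin.subset (by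
        rw [Matroid.contract_ground]; exact sdiff_subset)
      have hdE : (M ＼ {e}).E.Finite := hfin.subset (by
        rw [Matroid.delete_ground]; exact sdiff_subset)
      rcases hE e he with h | h
      · -- `M ／ {e}` is not regular
        obtain ⟨C, D, hC, hD, hCD, hcore⟩ := exists_core hcE h.2
        rw [Matroid.contract_ground] at hC hD
        rw [Matroid.contract_contract] at hcore
        have hC' : {e} ∪ C ⊆ M.E := Set.union_subset (Set.singleton_subset_iff.2 he)
          (hC.trans sdiff_subset)
        have hD' : D ⊆ M.E := hD.trans sdiff_subset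
        have hCD' : Disjoint ({e} ∪ C) D := by
          rw [Set.disjoint_union_left]
          refine ⟨?_, hCD⟩
          rw [Set.disjoint_singleton_left]
          exact fun hx => (hD hx).2 rfl
        have hm := hL.of_minor hC' hD' hCD' (core_not_regular (asm_con_fin hfin _ _) hcore)
        have hx := asm_XofCD hL hm.1 hm.2
        refine ⟨M.E \ (({e} ∪ C) ∪ D), sdiff_subset, fun h => h.2 (Or.inl (Or.inl rfl)), ?_⟩
        rw [hx.1, hx.2]
        exact hcore
      · obtain ⟨C, D, hC, hD, hCD, hcore⟩ := exists_core hdE h.2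
        rw [Matroid.delete_ground] at hC hD
        have heC : Disjoint {e} C := by
          rw [Set.disjoint_singleton_left]; exact fun hx => (hC hx).2 rfl
        have h1 : M ＼ {e} ／ C ＼ D = M ／ C ＼ ({e} ∪ D) := by
          rw [← Matroid.contract_delete_comm _ heC.symm, Matroid.delete_delete]
        rw [h1] at hcore
        have hC' : C ⊆ M.E := hC.trans sdiff_subset
        have hD' : {e} ∪ D ⊆ M.E := Set.union_subset (Set.singleton_subset_iff.2 he)
          (hD.trans sdiff_subset)
        have hCD' : Disjoint C ({e} ∪ D) := by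
          rw [Set.disjoint_union_right]
          exact ⟨heC.symm, hCD⟩
        have hm := hL.of_minor hC' hD' hCD' (core_not_regular (asm_con_fin hfin _ _) hcore)
        have hx := asm_XofCD hL hm.1 hm.2
        refine ⟨M.E \ (C ∪ ({e} ∪ D)), sdiff_subset, fun h => h.2 (Or.inr (Or.inl rfl)), ?_⟩
        rw [hx.1, hx.2]
        exact hcore
  · rintro ⟨hne, A, B, hAB, hd, hT, hcore⟩
    have hL : Lab M A B := by
      rcases hT with hT | hT
      · exact lab_of_typed hfin hAB hd hT
      · have hLd : Lab M✶ B A := lab_of_typed (by exact hfin)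
          (by rw [Matroid.dual_ground, Set.union_comm]; exact hAB) hd.symm hT
        have := hLd.dual
        rwa [Matroid.dual_dual] at this
    exact asm_lab_fwd hL hne hcore

end Pool.Agent.Helper43_EOR
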