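import Mathlib

set_option autoImplicit false

namespace Pool.Agent.Helper43_EOR

open Finset




theorem TC1_schur {ι : Type*} [Fintype ι] [DecidableEq ι]
    (T : Matrix (ι ⊕ Fin 2) (ι ⊕ Fin 2) ℚ) (hA : T.toBlocks₁₁.det ≠ 0) :
    ∃ Z : Matrix (Fin 2) (Fin 2) ℚ, T.det = T.toBlocks₁₁.det * (Z 0 0 * Z 1 1 - Z 0 1 * Z 1 0) ∧
      ∀ r s : Fin 2, (T.submatrix (Sum.map id (fun _ : Unit => r)) (Sum.map id (fun _ : Unit => s))).det
        = T.toBlocks₁₁.det * Z r s := by
  classical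
  have : Invertible T.toBlocks₁₁ := Matrix.invertibleOfIsUnitDet _ (isUnit_iff_ne_zero.2 hA)
  refine ⟨T.toBlocks₂₂ - T.toBlocks₂₁ * ⅟T.toBlocks₁₁ * T.toBlocks₁₂, ?_, ?_⟩
  · conv_lhs => rw [← Matrix.fromBlocks_toBlocks T]
    rw [Matrix.det_fromBlocks₁₁, Matrix.det_fin_two]
  · intro r s
    have h : T.submatrix (Sum.map id (fun _ : Unit => r)) (Sum.map id (fun _ : Unit => s))
        = Matrix.fromBlocks T.toBlocks₁₁ (T.toBlocks₁₂.submatrix id (fun _ : Unit => s))
          (T.toBlocks₂₁.submatrix (fun _ : Unit => r) id)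
          (T.toBlocks₂₂.submatrix (fun _ : Unit => r) (fun _ : Unit => s)) := by
      ext a b
      cases a <;> cases b <;> rfl
    rw [h, Matrix.det_fromBlocks₁₁]
    congr 1
    rw [Matrix.det_unique]
    simp only [Matrix.sub_apply, Matrix.submatrix_apply, Matrix.mul_apply, id]

/-- integer version -/
theorem TC1_schur_int {ι : Type*} [Fintype ι] [DecidableEq ι]
    (T : Matrix (ι ⊕ Fin 2) (ι ⊕ Fin 2) ℤ) (hA : T.toBlocks₁₁.det ≠ 0) :
    T.det * T.toBlocks₁₁.det =
      (T.submatrix (Sum.map id (fun _ : Unit => (0 : Fin 2))) (Sum.map id (fun _ : Unit => (0 : Fin 2)))).det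
      * (T.submatrix (Sum.map id (fun _ : Unit => (1 : Fin 2))) (Sum.map id (fun _ : Unit => (1 : Fin 2)))).det
      - (T.submatrix (Sum.map id (fun _ : Unit => (0 : Fin 2))) (Sum.map id (fun _ : Unit => (1 : Fin 2)))).det
      * (T.submatrix (Sum.map id (fun _ : Unit => (1 : Fin 2))) (Sum.map id (fun _ : Unit => (0 : Fin 2)))).det
      := by
  obtain ⟨Z, h1, h2⟩ := TC1_schur (T.map (Int.cast : ℤ → ℚ)) (by
    have : (T.map (Int.cast : ℤ → ℚ)).toBlocks₁₁ = T.toBlocks₁₁.map (Int.cast : ℤ → ℚ) := rfl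
    rw [this, ← Int.cast_det]
    exact_mod_cast hA)
  have e : (T.map (Int.cast : ℤ → ℚ)).toBlocks₁₁ = T.toBlocks₁₁.map (Int.cast : ℤ → ℚ) := rfl
  have h3 : ∀ r s : Fin 2,
      (((T.submatrix (Sum.map id (fun _ : Unit => r)) (Sum.map id (fun _ : Unit => s))).det : ℤ) : ℚ)
        = ((T.toBlocks₁₁.det : ℤ) : ℚ) * Z r s := by
    intro r s
    have := h2 r s
    rw [e, ← Int.cast_det] at this
    rw [← this, Int.cast_det]
    rfl
  rw [e, ← Int.cast_det, ← Int.cast_det] at h1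
  apply Int.cast_injective (α := ℚ)
  rw [Int.cast_mul, h1, Int.cast_sub, Int.cast_mul, Int.cast_mul, h3, h3, h3, h3]
  ring

theorem TC1_gen {n : ℕ} (S : Matrix (Fin n) (Fin n) ℤ)
    (hprop : ∀ k, k + 1 < n → ∀ f g : Fin (k + 1) → Fin n, f.Injective → g.Injective →
      (S.submatrix f g).det = 0 ∨ (S.submatrix f g).det = 2 ^ k ∨ (S.submatrix f g).det = - 2 ^ k)
    {ι : Type*} [Fintype ι] [DecidableEq ι] (k : ℕ) (hk : k + 1 < n) (hι : Fintype.card ι = k + 1)
    (f g : ι → Fin n) (hf : f.Injective) (hg : g.Injective) :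
    (S.submatrix f g).det = 0 ∨ (S.submatrix f g).det = 2 ^ k ∨ (S.submatrix f g).det = - 2 ^ k := by
  let e : Fin (k + 1) ≃ ι := (Fintype.equivFinOfCardEq hι).symm
  have h := hprop k hk (f ∘ e) (g ∘ e) (hf.comp e.injective) (hg.comp e.injective)
  have h2 : (S.submatrix (f ∘ e) (g ∘ e)).det = (S.submatrix f g).det := by
    rw [← Matrix.submatrix_submatrix, Matrix.det_submatrix_equiv_self]
  rw [h2] at h
  exact h

theorem TC1_arith {D c m00 m01 m10 m11 : ℤ} {p : ℕ}
    (h : D * c = m00 * m11 - m01 * m10)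
    (hc : c = 2 ^ p ∨ c = - 2 ^ p)
    (h00 : m00 = 0 ∨ m00 = 2 ^ (p + 1) ∨ m00 = - 2 ^ (p + 1))
    (h01 : m01 = 0 ∨ m01 = 2 ^ (p + 1) ∨ m01 = - 2 ^ (p + 1))
    (h10 : m10 = 0 ∨ m10 = 2 ^ (p + 1) ∨ m10 = - 2 ^ (p + 1))
    (h11 : m11 = 0 ∨ m11 = 2 ^ (p + 1) ∨ m11 = - 2 ^ (p + 1))
    (hD : ¬ (D = 0 ∨ D = 2 ^ (p + 2) ∨ D = - 2 ^ (p + 2))) :
    (D = 2 ^ (p + 3) ∨ D = - 2 ^ (p + 3)) ∧ m00 ≠ 0 ∧ m01 ≠ 0 ∧ m10 ≠ 0 ∧ m11 ≠ 0 := by
  have key : ∀ m : ℤ, (m = 0 ∨ m = 2 ^ (p + 1) ∨ m = - 2 ^ (p + 1)) →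
      ∃ u : ℤ, (u = 0 ∨ u = 1 ∨ u = -1) ∧ m = u * 2 ^ (p + 1) := by
    rintro m (rfl | rfl | rfl)
    · exact ⟨0, by simp, by simp⟩
    · exact ⟨1, by simp, by simp⟩
    · exact ⟨-1, by simp, by simp⟩
  obtain ⟨u00, hu00, rfl⟩ := key _ h00
  obtain ⟨u01, hu01, rfl⟩ := key _ h01
  obtain ⟨u10, hu10, rfl⟩ := key _ h10
  obtain ⟨u11, hu11, rfl⟩ := key _ h11
  obtain ⟨γ, hγ, rfl⟩ : ∃ γ : ℤ, (γ = 1 ∨ γ = -1) ∧ c = γ * 2 ^ p := by
    rcases hc with rfl | rfl
    · exact ⟨1, by simp, by simp⟩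
    · exact ⟨-1, by simp, by simp⟩
  have hγ2 : γ * γ = 1 := by rcases hγ with rfl | rfl <;> norm_num
  have h2p : (2 : ℤ) ^ p ≠ 0 := by positivity
  have hDD : D = γ * (u00 * u11 - u01 * u10) * 2 ^ (p + 2) := by
    have h' : (D - γ * (u00 * u11 - u01 * u10) * 2 ^ (p + 2)) * (γ * 2 ^ p) = 0 := by
      rw [sub_mul, h]
      have : γ * (u00 * u11 - u01 * u10) * 2 ^ (p + 2) * (γ * 2 ^ p)
          = (γ * γ) * ((u00 * u11 - u01 * u10) * 2 ^ (p + 2) * 2 ^ p) := by ring
      rw [this, hγ2]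
      ring
    have hne : γ * 2 ^ p ≠ 0 := by
      rcases hγ with rfl | rfl <;> simp [h2p]
    have := (mul_eq_zero.1 h').resolve_right hne
    linarith
  have hne1 : (2 : ℤ) ^ (p + 1) ≠ 0 := by positivity
  have hp3 : (2 : ℤ) ^ (p + 3) = 2 * 2 ^ (p + 2) := by ring
  have hD0 : D ≠ 0 := fun h => hD (Or.inl h)
  have hD1 : D ≠ 2 ^ (p + 2) := fun h => hD (Or.inr (Or.inl h))
  have hD2 : D ≠ - 2 ^ (p + 2) := fun h => hD (Or.inr (Or.inr h))
  clear hD h h00 h01 h10 h11 hc key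
  rcases hγ with rfl | rfl <;> rcases hu00 with rfl | rfl | rfl <;> rcases hu01 with rfl | rfl | rfl <;>
    rcases hu10 with rfl | rfl | rfl <;> rcases hu11 with rfl | rfl | rfl <;>
    first
    | (exfalso; apply hD0; rw [hDD]; ring1)
    | (exfalso; apply hD1; rw [hDD]; ring1)
    | (exfalso; apply hD2; rw [hDD]; ring1)
    | (have hX : D = 2 ^ (p + 3) := by (rw [hDD]; ring1)
       refine ⟨Or.inl hX, ?_, ?_, ?_, ?_⟩ <;> simp)
    | (have hX : D = - 2 ^ (p + 3) := by (rw [hDD]; ring1)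
       refine ⟨Or.inr hX, ?_, ?_, ?_, ?_⟩ <;> simp)

theorem TC1_star {p : ℕ} (S : Matrix (Fin (p + 3)) (Fin (p + 3)) ℤ)
    (hprop : ∀ k, k + 1 < p + 3 → ∀ f g : Fin (k + 1) → Fin (p + 3), f.Injective → g.Injective →
      (S.submatrix f g).det = 0 ∨ (S.submatrix f g).det = 2 ^ k ∨ (S.submatrix f g).det = - 2 ^ k)
    (hviol : ¬ (S.det = 0 ∨ S.det = 2 ^ (p + 2) ∨ S.det = - 2 ^ (p + 2)))
    (F G : Fin (p + 1) ⊕ Fin 2 ≃ Fin (p + 3))
    (hc : (S.submatrix (fun a => F (Sum.inl a)) (fun a => G (Sum.inl a))).det ≠ 0) :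
    (S.det = 2 ^ (p + 3) ∨ S.det = - 2 ^ (p + 3)) ∧
    ∀ r s : Fin 2, (S.submatrix (fun a => F (Sum.map id (fun _ : Unit => r) a))
      (fun a => G (Sum.map id (fun _ : Unit => s) a))).det ≠ 0 := by
  have habs : |(S.submatrix F G).det| = |S.det| := Matrix.abs_det_submatrix_equiv_equiv F G S
  have h := TC1_schur_int (S.submatrix F G) hc
  have hcc := TC1_gen S hprop p (by omega) (by simp) (fun a : Fin (p + 1) => F (Sum.inl a))
    (fun a => G (Sum.inl a)) (F.injective.comp Sum.inl_injective) (G.injective.comp Sum.inl_injective)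
  have hcc' := hcc.resolve_left hc
  have hinj : ∀ r : Fin 2, Function.Injective (Sum.map id (fun _ : Unit => r) :
      Fin (p + 1) ⊕ Unit → Fin (p + 1) ⊕ Fin 2) := by
    intro r
    exact Function.Injective.sumMap Function.injective_id (Function.injective_of_subsingleton _)
  have hm : ∀ r s : Fin 2, _ := fun r s =>
    TC1_gen S hprop (p + 1) (by omega) (by simp)
      (fun a => F (Sum.map id (fun _ : Unit => r) a))
      (fun a => G (Sum.map id (fun _ : Unit => s) a)) (F.injective.comp (hinj r))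
      (G.injective.comp (hinj s))
  have hV : ¬ ((S.submatrix F G).det = 0 ∨ (S.submatrix F G).det = 2 ^ (p + 2) ∨
      (S.submatrix F G).det = - 2 ^ (p + 2)) := by
    intro hh
    apply hviol
    have h2 : (0 : ℤ) ≤ 2 ^ (p + 2) := by positivity
    rcases hh with hh | hh | hh
    · rw [hh, abs_zero] at habs
      left
      exact abs_eq_zero.1 habs.symm
    · rw [hh, abs_of_nonneg h2] at habs
      right
      exact (abs_eq h2).1 habs.symm
    · rw [hh, abs_neg, abs_of_nonneg h2] at habs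
      right
      exact (abs_eq h2).1 habs.symm
  obtain ⟨hd, h00, h01, h10, h11⟩ := TC1_arith h hcc' (hm 0 0) (hm 0 1) (hm 1 0) (hm 1 1) hV
  refine ⟨?_, ?_⟩
  · have h2 : (0 : ℤ) ≤ 2 ^ (p + 3) := by positivity
    rcases hd with hh | hh
    · rw [hh, abs_of_nonneg h2] at habs
      exact (abs_eq h2).1 habs.symm
    · rw [hh, abs_neg, abs_of_nonneg h2] at habs
      exact (abs_eq h2).1 habs.symm
  · intro r s
    fin_cases r <;> fin_cases s
    · exact h00
    · exact h01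
    · exact h10
    · exact h11

theorem TC1_avoid {m : ℕ} {ι : Type*} [Fintype ι] (hι : Fintype.card ι = m)
    (H : ι → Fin (m + 1)) (hH : H.Injective) (x : Fin (m + 1)) (hx : ∀ a, H a ≠ x) :
    ∃ e : ι ≃ Fin m, ∀ a, H a = x.succAbove (e a) := by
  have h : ∀ a, ∃ y, x.succAbove y = H a := fun a => Fin.exists_succAbove_eq (hx a)
  choose φ hφ using h
  have hinj : φ.Injective := by
    intro a b hab
    apply hH
    rw [← hφ a, ← hφ b, hab]
  have hbij : φ.Bijective := by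
    rw [Fintype.bijective_iff_injective_and_card]
    exact ⟨hinj, by simp [hι]⟩
  exact ⟨Equiv.ofBijective φ hbij, fun a => (hφ a).symm⟩

theorem TC1_inj {m : ℕ} (k : Fin (m + 2)) (l : Fin (m + 1)) :
    Function.Injective (Sum.elim (fun a : Fin m => k.succAbove (l.succAbove a))
      (![k, k.succAbove l] : Fin 2 → Fin (m + 2))) := by
  rintro (a | a) (b | b) hab
  · simp only [Sum.elim_inl] at hab
    rw [Fin.succAbove_right_injective (Fin.succAbove_right_injective hab)]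
  · exfalso
    fin_cases b
    · exact Fin.succAbove_ne _ _ hab
    · exact Fin.succAbove_ne _ _ (Fin.succAbove_right_injective hab)
  · exfalso
    fin_cases a
    · exact Fin.succAbove_ne _ _ hab.symm
    · exact Fin.succAbove_ne _ _ (Fin.succAbove_right_injective hab.symm)
  · fin_cases a <;> fin_cases b
    · rfl
    · exact absurd hab.symm (Fin.succAbove_ne _ _)
    · exact absurd hab (Fin.succAbove_ne _ _)
    · rfl

theorem TC1_equiv {m : ℕ} (k : Fin (m + 2)) (l : Fin (m + 1)) :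
    ∃ F : Fin m ⊕ Fin 2 ≃ Fin (m + 2), (∀ a, F (Sum.inl a) = k.succAbove (l.succAbove a)) ∧
      F (Sum.inr 0) = k ∧ F (Sum.inr 1) = k.succAbove l := by
  have hbij : Function.Bijective (Sum.elim (fun a : Fin m => k.succAbove (l.succAbove a))
      (![k, k.succAbove l] : Fin 2 → Fin (m + 2))) := by
    rw [Fintype.bijective_iff_injective_and_card]
    exact ⟨TC1_inj k l, by simp⟩
  exact ⟨Equiv.ofBijective _ hbij, fun a => rfl, rfl, rfl⟩

theorem TC1_minor {p : ℕ} (S : Matrix (Fin (p + 3)) (Fin (p + 3)) ℤ)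
    (hprop : ∀ k, k + 1 < p + 3 → ∀ f g : Fin (k + 1) → Fin (p + 3), f.Injective → g.Injective →
      (S.submatrix f g).det = 0 ∨ (S.submatrix f g).det = 2 ^ k ∨ (S.submatrix f g).det = - 2 ^ k)
    (hviol : ¬ (S.det = 0 ∨ S.det = 2 ^ (p + 2) ∨ S.det = - 2 ^ (p + 2))) :
    (S.det = 2 ^ (p + 3) ∨ S.det = - 2 ^ (p + 3)) ∧
    ∀ k i : Fin (p + 3), (S.submatrix k.succAbove i.succAbove).det ≠ 0 := by
  have main : ∀ k i : Fin (p + 3), (S.submatrix k.succAbove i.succAbove).det = 0 →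
      (S.det = 2 ^ (p + 3) ∨ S.det = - 2 ^ (p + 3)) ∧ False := by
    intro k i h0
    have hdet : S.det ≠ 0 := fun h => hviol (Or.inl h)
    rw [Matrix.det_succ_row S k] at hdet
    obtain ⟨j, -, hj⟩ := Finset.exists_ne_zero_of_sum_ne_zero hdet
    have hj1 : (S.submatrix k.succAbove j.succAbove).det ≠ 0 := right_ne_zero_of_mul hj
    have hji : i ≠ j := by
      rintro rfl
      exact hj1 h0
    obtain ⟨i', hi'⟩ := Fin.exists_succAbove_eq hji
    have hj2 := hj1
    rw [Matrix.det_succ_column _ i'] at hj2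
    obtain ⟨l', -, hl'⟩ := Finset.exists_ne_zero_of_sum_ne_zero hj2
    have hl1 := right_ne_zero_of_mul hl'
    obtain ⟨F, hF, hF0, hF1⟩ := TC1_equiv k l'
    obtain ⟨G, hG, hG0, hG1⟩ := TC1_equiv j i'
    have hs := TC1_star S hprop hviol F G (by
      have : S.submatrix (fun a => F (Sum.inl a)) (fun a => G (Sum.inl a)) =
          (S.submatrix k.succAbove j.succAbove).submatrix l'.succAbove i'.succAbove := by
        ext a b
        simp only [Matrix.submatrix_apply, hF, hG]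
      rw [this]
      exact hl1)
    refine ⟨hs.1, ?_⟩
    have hs2 := hs.2 1 0
    apply hs2
    have hinj : ∀ r : Fin 2, Function.Injective (Sum.map id (fun _ : Unit => r) :
        Fin (p + 1) ⊕ Unit → Fin (p + 1) ⊕ Fin 2) := by
      intro r
      exact Function.Injective.sumMap Function.injective_id (Function.injective_of_subsingleton _)
    obtain ⟨e1, he1⟩ := TC1_avoid (m := p + 2) (ι := Fin (p + 1) ⊕ Unit) (by simp)
      (fun a => F (Sum.map id (fun _ : Unit => 1) a)) (F.injective.comp (hinj 1)) k (by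
        rintro (a | a) hh
        · rw [← hF0] at hh
          exact absurd (F.injective hh) (by simp)
        · rw [← hF0] at hh
          exact absurd (F.injective hh) (by simp))
    obtain ⟨e2, he2⟩ := TC1_avoid (m := p + 2) (ι := Fin (p + 1) ⊕ Unit) (by simp)
      (fun a => G (Sum.map id (fun _ : Unit => 0) a)) (G.injective.comp (hinj 0)) i (by
        rintro (a | a) hh
        · rw [← hi', ← hG1] at hh
          exact absurd (G.injective hh) (by simp)
        · rw [← hi', ← hG1] at hh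
          exact absurd (G.injective hh) (by simp))
    have hfin : S.submatrix (fun a => F (Sum.map id (fun _ : Unit => 1) a))
        (fun a => G (Sum.map id (fun _ : Unit => 0) a)) =
        (S.submatrix k.succAbove i.succAbove).submatrix e1 e2 := by
      ext a b
      simp only [Matrix.submatrix_apply]
      rw [he1 a, he2 b]
    rw [hfin]
    have := Matrix.abs_det_submatrix_equiv_equiv e1 e2 (S.submatrix k.succAbove i.succAbove)
    rw [h0, abs_zero] at this
    exact abs_eq_zero.1 this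
  have all : ∀ k i : Fin (p + 3), (S.submatrix k.succAbove i.succAbove).det ≠ 0 :=
    fun k i h => (main k i h).2
  refine ⟨?_, all⟩
  -- det S ≠ 0: expand twice
  have hj1 := all 0 0
  rw [Matrix.det_succ_row _ (0 : Fin (p + 2))] at hj1
  obtain ⟨j, -, hj⟩ := Finset.exists_ne_zero_of_sum_ne_zero hj1
  have hj2 := right_ne_zero_of_mul hj
  obtain ⟨F, hF, hF0, hF1⟩ := TC1_equiv (0 : Fin (p + 3)) (0 : Fin (p + 2))
  obtain ⟨G, hG, hG0, hG1⟩ := TC1_equiv (0 : Fin (p + 3)) j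
  exact (TC1_star S hprop hviol F G (by
      have : S.submatrix (fun a => F (Sum.inl a)) (fun a => G (Sum.inl a)) =
          (S.submatrix (0 : Fin (p + 3)).succAbove (0 : Fin (p + 3)).succAbove).submatrix
            (0 : Fin (p + 2)).succAbove j.succAbove := by
        ext a b
        simp only [Matrix.submatrix_apply, hF, hG]
      rw [this]
      exact hj2)).1

theorem TC1_violator {n : ℕ} (S : Matrix (Fin n) (Fin n) ℤ) (hS : ∀ i j, S i j = 1 ∨ S i j = -1)
    (hprop : ∀ k, k + 1 < n → ∀ f g : Fin (k + 1) → Fin n, f.Injective → g.Injective →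
      (S.submatrix f g).det = 0 ∨ (S.submatrix f g).det = 2 ^ k ∨ (S.submatrix f g).det = - 2 ^ k)
    (hviol : ¬ (S.det = 0 ∨ S.det = 2 ^ (n - 1) ∨ S.det = - 2 ^ (n - 1))) :
    3 ≤ n ∧ (S.det = 2 ^ n ∨ S.det = - 2 ^ n) ∧
      ∃ Q : Matrix (Fin n) (Fin n) ℤ, (∀ i j, Q i j = 1 ∨ Q i j = -1) ∧
        S * Q = (4 : ℤ) • (1 : Matrix (Fin n) (Fin n) ℤ) ∧
        Q * S = (4 : ℤ) • (1 : Matrix (Fin n) (Fin n) ℤ) := by
  match n, S, hS, hprop, hviol with
  | 0, S, hS, hprop, hviol =>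
    exact absurd (Or.inr (Or.inl (by simp))) hviol
  | 1, S, hS, hprop, hviol =>
    exfalso
    apply hviol
    rw [Matrix.det_fin_one]
    rcases hS 0 0 with h | h <;> rw [h] <;> simp
  | 2, S, hS, hprop, hviol =>
    exfalso
    apply hviol
    rw [Matrix.det_fin_two]
    rcases hS 0 0 with h | h <;> rcases hS 0 1 with h' | h' <;> rcases hS 1 0 with h'' | h'' <;>
      rcases hS 1 1 with h''' | h''' <;> rw [h, h', h'', h'''] <;> simp
  | (p + 3), S, hS, hprop, hviol =>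
    obtain ⟨hdet, hmin⟩ := TC1_minor S hprop hviol
    refine ⟨by omega, hdet, ?_⟩
    obtain ⟨ε, hε, hdε⟩ : ∃ ε : ℤ, (ε = 1 ∨ ε = -1) ∧ S.det = ε * 2 ^ (p + 3) := by
      rcases hdet with h | h
      · exact ⟨1, by simp, by simp [h]⟩
      · exact ⟨-1, by simp, by simp [h]⟩
    have hε2 : ε * ε = 1 := by rcases hε with rfl | rfl <;> norm_num
    have hadj : ∀ i j : Fin (p + 3), ∃ q : ℤ, (q = 1 ∨ q = -1) ∧
        S.adjugate i j = q * 2 ^ (p + 1) := by
      intro i j
      have h1 := TC1_gen S hprop (p + 1) (by omega) (by simp) (j.succAbove) (i.succAbove)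
        (Fin.succAbove_right_injective) (Fin.succAbove_right_injective)
      have h2 := h1.resolve_left (hmin j i)
      rw [Matrix.adjugate_fin_succ_eq_det_submatrix]
      rcases neg_one_pow_eq_or ℤ (j + i : ℕ) with h | h <;> rcases h2 with h2 | h2 <;>
        rw [h, h2]
      · exact ⟨1, by simp, by ring⟩
      · exact ⟨-1, by simp, by ring⟩
      · exact ⟨-1, by simp, by ring⟩
      · exact ⟨1, by simp, by ring⟩
    choose q hq hq2 using hadj
    have hne : (2 : ℤ) ^ (p + 1) ≠ 0 := by positivity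
    have hQ : (2 : ℤ) ^ (p + 1) • (Matrix.of fun i j => ε * q i j) = ε • S.adjugate := by
      ext i j
      simp only [Matrix.smul_apply, Matrix.of_apply, smul_eq_mul, hq2]
      ring
    have hone : ε • S.det • (1 : Matrix (Fin (p + 3)) (Fin (p + 3)) ℤ)
        = (2 : ℤ) ^ (p + 1) • ((4 : ℤ) • (1 : Matrix (Fin (p + 3)) (Fin (p + 3)) ℤ)) := by
      rw [smul_smul, smul_smul]
      congr 1
      rw [hdε]
      linear_combination (2 : ℤ) ^ (p + 3) * hε2
    refine ⟨Matrix.of fun i j => ε * q i j, ?_, ?_, ?_⟩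
    · intro i j
      simp only [Matrix.of_apply]
      rcases hε with rfl | rfl <;> rcases hq i j with h | h <;> rw [h] <;> simp
    · apply smul_right_injective (Matrix (Fin (p + 3)) (Fin (p + 3)) ℤ) hne
      show (2 : ℤ) ^ (p + 1) • (S * _) = (2 : ℤ) ^ (p + 1) • _
      rw [← Matrix.mul_smul, hQ, Matrix.mul_smul, Matrix.mul_adjugate, hone]
    · apply smul_right_injective (Matrix (Fin (p + 3)) (Fin (p + 3)) ℤ) hne
      show (2 : ℤ) ^ (p + 1) • (_ * S) = (2 : ℤ) ^ (p + 1) • _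
      rw [← Matrix.smul_mul, hQ, Matrix.smul_mul, Matrix.adjugate_mul, hone]

end Pool.Agent.Helper43_EOR
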