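import Mathlib

set_option autoImplicit false

namespace Pool.Agent.Helper43_EOR

open Finset




/-- the pentagon adjacency on `Fin 5` -/
def TCg_P (i j : Fin 5) : Prop := j = i + 1 ∨ i = j + 1

instance TCg_Pdec (i j : Fin 5) : Decidable (TCg_P i j) := by unfold TCg_P; infer_instance

theorem TCg_P_common : ∀ i j : Fin 5, ¬ TCg_P i j → ∃ k, TCg_P i k ∧ TCg_P j k := by decide

theorem TCg_P_adj : ∀ i j : Fin 5, TCg_P i j → ∃ k l, TCg_P i k ∧ TCg_P j l ∧ ¬ TCg_P i l ∧
    ¬ TCg_P j k ∧ ¬ TCg_P k l := by decide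

/-- part (2): the kind of a vertex -/
theorem TCg_kind {V : Type*} (G : SimpleGraph V)
    (htri : ∀ a b c, G.Adj a b → G.Adj b c → ¬ G.Adj a c)
    (h2K2 : ∀ a b c d, G.Adj a b → G.Adj c d → G.Adj a c ∨ G.Adj a d ∨ G.Adj b c ∨ G.Adj b d)
    (hpos : ∀ v, ∃ w, G.Adj v w) (f : Fin 5 → V) (hf : ∀ i j, G.Adj (f i) (f j) ↔ TCg_P i j)
    (w : V) : ∃ i, ∀ j, G.Adj w (f j) ↔ TCg_P i j := by
  have hadj : ∀ j : Fin 5, G.Adj (f j) (f (j + 1)) := fun j => (hf _ _).2 (Or.inl rfl)
  have hT : ∀ (z : V) (j : Fin 5), ¬ (G.Adj z (f j) ∧ G.Adj z (f (j + 1))) := fun z j h =>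
    htri z (f j) (f (j + 1)) h.1 (hadj j) h.2
  have n2 : ∀ j : Fin 5, ¬ TCg_P j (j + 2) := by decide
  have n3 : ∀ j : Fin 5, ¬ TCg_P j (j + 3) := by decide
  have e3 : ∀ j : Fin 5, j + 2 + 1 = j + 3 := by decide
  have hQ : ∀ j : Fin 5, G.Adj w (f j) → G.Adj w (f (j + 2)) ∨ G.Adj w (f (j + 3)) := by
    intro j hj
    have h := hadj (j + 2)
    rw [e3] at h
    rcases h2K2 w (f j) (f (j + 2)) (f (j + 3)) hj h with h | h | h | h
    · exact Or.inl h
    · exact Or.inr h
    · exact absurd ((hf _ _).1 h) (n2 j)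
    · exact absurd ((hf _ _).1 h) (n3 j)
  have hex : ∃ j, G.Adj w (f j) := by
    by_contra hc
    push Not at hc
    obtain ⟨z, hz⟩ := hpos w
    have hz' : ∀ j : Fin 5, G.Adj z (f j) ∨ G.Adj z (f (j + 1)) := by
      intro j
      rcases h2K2 w z (f j) (f (j + 1)) hz (hadj j) with h | h | h | h
      · exact absurd h (hc _)
      · exact absurd h (hc _)
      · exact Or.inl h
      · exact Or.inr h
    have t0 := hT z 0
    have t1 := hT z 1
    have t2 := hT z 2
    have t3 := hT z 3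
    have t4 := hT z 4
    have o0 := hz' 0
    have o1 := hz' 1
    have o2 := hz' 2
    have o3 := hz' 3
    have o4 := hz' 4
    have a0 : (0 : Fin 5) + 1 = 1 := rfl
    have a1 : (1 : Fin 5) + 1 = 2 := rfl
    have a2 : (2 : Fin 5) + 1 = 3 := rfl
    have a3 : (3 : Fin 5) + 1 = 4 := rfl
    have a4 : (4 : Fin 5) + 1 = 0 := rfl
    rw [a0] at t0 o0
    rw [a1] at t1 o1
    rw [a2] at t2 o2
    rw [a3] at t3 o3
    rw [a4] at t4 o4
    tauto
  obtain ⟨j, hj⟩ := hex
  have hall : ∀ j k : Fin 5, k = j ∨ k = j + 1 ∨ k = j + 2 ∨ k = j + 3 ∨ k = j + 4 := by decide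
  rcases hQ j hj with h2 | h3
  · refine ⟨j + 1, ?_⟩
    intro k
    have c1 : ¬ G.Adj w (f (j + 1)) := fun h => hT w j ⟨hj, h⟩
    have c3 : ¬ G.Adj w (f (j + 3)) := fun h => hT w (j + 2) ⟨h2, by rw [e3]; exact h⟩
    have c4 : ¬ G.Adj w (f (j + 4)) := fun h => hT w (j + 4) ⟨h, by
      have : ∀ j : Fin 5, j + 4 + 1 = j := by decide
      rw [this]; exact hj⟩
    have p0 : ∀ j : Fin 5, TCg_P (j + 1) j := by decide
    have p1 : ∀ j : Fin 5, ¬ TCg_P (j + 1) (j + 1) := by decide
    have p2 : ∀ j : Fin 5, TCg_P (j + 1) (j + 2) := by decide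
    have p3 : ∀ j : Fin 5, ¬ TCg_P (j + 1) (j + 3) := by decide
    have p4 : ∀ j : Fin 5, ¬ TCg_P (j + 1) (j + 4) := by decide
    rcases hall j k with rfl | rfl | rfl | rfl | rfl
    · exact iff_of_true hj (p0 _)
    · exact iff_of_false c1 (p1 _)
    · exact iff_of_true h2 (p2 _)
    · exact iff_of_false c3 (p3 _)
    · exact iff_of_false c4 (p4 _)
  · refine ⟨j + 4, ?_⟩
    intro k
    have c1 : ¬ G.Adj w (f (j + 1)) := fun h => hT w j ⟨hj, h⟩
    have c2 : ¬ G.Adj w (f (j + 2)) := fun h => hT w (j + 2) ⟨h, by rw [e3]; exact h3⟩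
    have c4 : ¬ G.Adj w (f (j + 4)) := fun h => hT w (j + 3) ⟨h3, by
      have : ∀ j : Fin 5, j + 3 + 1 = j + 4 := by decide
      rw [this]; exact h⟩
    have p0 : ∀ j : Fin 5, TCg_P (j + 4) j := by decide
    have p1 : ∀ j : Fin 5, ¬ TCg_P (j + 4) (j + 1) := by decide
    have p2 : ∀ j : Fin 5, ¬ TCg_P (j + 4) (j + 2) := by decide
    have p3 : ∀ j : Fin 5, TCg_P (j + 4) (j + 3) := by decide
    have p4 : ∀ j : Fin 5, ¬ TCg_P (j + 4) (j + 4) := by decide
    rcases hall j k with rfl | rfl | rfl | rfl | rfl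
    · exact iff_of_true hj (p0 _)
    · exact iff_of_false c1 (p1 _)
    · exact iff_of_false c2 (p2 _)
    · exact iff_of_true h3 (p3 _)
    · exact iff_of_false c4 (p4 _)

theorem TCg_kind_adj {V : Type*} (G : SimpleGraph V)
    (htri : ∀ a b c, G.Adj a b → G.Adj b c → ¬ G.Adj a c)
    (h2K2 : ∀ a b c d, G.Adj a b → G.Adj c d → G.Adj a c ∨ G.Adj a d ∨ G.Adj b c ∨ G.Adj b d)
    (f : Fin 5 → V) (hf : ∀ i j, G.Adj (f i) (f j) ↔ TCg_P i j)
    (w z : V) (i j : Fin 5) (hw : ∀ k, G.Adj w (f k) ↔ TCg_P i k)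
    (hz : ∀ k, G.Adj z (f k) ↔ TCg_P j k) : G.Adj w z ↔ TCg_P i j := by
  constructor
  · intro h
    by_contra hc
    obtain ⟨k, h1, h2⟩ := TCg_P_common i j hc
    exact htri w z (f k) h ((hz k).2 h2) ((hw k).2 h1)
  · intro h
    obtain ⟨k, l, h1, h2, h3, h4, h5⟩ := TCg_P_adj i j h
    rcases h2K2 w (f k) z (f l) ((hw k).2 h1) ((hz l).2 h2) with h | h | h | h
    · exact h
    · exact absurd ((hw l).1 h) h3
    · exact absurd ((hz k).1 h.symm) h4
    · exact absurd ((hf _ _).1 h) h5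

theorem TCg_pentagon {V : Type*} [Fintype V] [DecidableEq V] (G : SimpleGraph V)
    [DecidableRel G.Adj] (htri : ∀ a b c, G.Adj a b → G.Adj b c → ¬ G.Adj a c)
    (h2K2 : ∀ a b c d, G.Adj a b → G.Adj c d → G.Adj a c ∨ G.Adj a d ∨ G.Adj b c ∨ G.Adj b d)
    (hpos : ∀ v, ∃ w, G.Adj v w)
    (htwin : ∀ u v, u ≠ v → G.neighborFinset u ≠ G.neighborFinset v)
    (f : Fin 5 → V) (hf : ∀ i j, G.Adj (f i) (f j) ↔ TCg_P i j) :
    Fintype.card V ≤ 5 := by
  have hsurj : Function.Surjective f := by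
    intro w
    obtain ⟨i, hi⟩ := TCg_kind G htri h2K2 hpos f hf w
    refine ⟨i, ?_⟩
    by_contra hne
    apply htwin _ _ hne
    ext z
    rw [SimpleGraph.mem_neighborFinset, SimpleGraph.mem_neighborFinset]
    obtain ⟨j, hj⟩ := TCg_kind G htri h2K2 hpos f hf z
    rw [TCg_kind_adj G htri h2K2 f hf w z i j hi hj,
      TCg_kind_adj G htri h2K2 f hf (f i) z i j (hf i) hj]
  have := Fintype.card_le_of_surjective f hsurj
  rwa [Fintype.card_fin] at this

theorem TCg_graph {V : Type*} [Fintype V] [DecidableEq V] (G : SimpleGraph V)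
    [DecidableRel G.Adj] (htri : ∀ a b c, G.Adj a b → G.Adj b c → ¬ G.Adj a c)
    (h2K2 : ∀ a b c d, G.Adj a b → G.Adj c d → G.Adj a c ∨ G.Adj a d ∨ G.Adj b c ∨ G.Adj b d)
    (heven : ∀ v, Even (G.degree v)) (hpos : ∀ v, 0 < G.degree v)
    (htwin : ∀ u v, u ≠ v → G.neighborFinset u ≠ G.neighborFinset v) :
    Fintype.card V ≤ 5 := by
  classical
  have hpos' : ∀ v, ∃ w, G.Adj v w := fun v => (G.degree_pos_iff_exists_adj v).1 (hpos v)
  by_cases hpent : ∃ f : Fin 5 → V, ∀ i j, G.Adj (f i) (f j) ↔ TCg_P i j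
  · obtain ⟨f, hf⟩ := hpent
    exact TCg_pentagon G htri h2K2 hpos' htwin f hf
  -- the chain property
  have hchain : ∀ u w x, G.Adj u x → G.Adj w x →
      G.neighborFinset u ⊆ G.neighborFinset w ∨ G.neighborFinset w ⊆ G.neighborFinset u := by
    intro u w x hu hw
    by_contra hc
    rw [not_or, Finset.not_subset, Finset.not_subset] at hc
    obtain ⟨⟨a, ha1, ha2⟩, ⟨b, hb1, hb2⟩⟩ := hc
    rw [SimpleGraph.mem_neighborFinset] at ha1 ha2 hb1 hb2
    have huw : ¬ G.Adj u w := htri u x w hu hw.symm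
    have hab : G.Adj a b := by
      rcases h2K2 u a w b ha1 hb1 with h | h | h | h
      · exact absurd h huw
      · exact absurd h hb2
      · exact absurd h.symm ha2
      · exact h
    have hax : ¬ G.Adj a x := htri a u x ha1.symm hu
    have hbx : ¬ G.Adj b x := htri b w x hb1.symm hw
    have haw : ¬ G.Adj a w := fun h => ha2 h.symm
    apply hpent
    refine ⟨![u, a, b, w, x], ?_⟩
    have hne : ∀ v, ¬ G.Adj v v := fun v => G.loopless.irrefl v
    have P : ∀ i j : Fin 5, i < j → (G.Adj (![u, a, b, w, x] i) (![u, a, b, w, x] j) ↔ TCg_P i j) := by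
      intro i j hij
      fin_cases i <;> fin_cases j <;> first
        | exact absurd hij (by decide)
        | exact iff_of_true ha1 (by decide)
        | exact iff_of_true hab (by decide)
        | exact iff_of_true hb1.symm (by decide)
        | exact iff_of_true hw (by decide)
        | exact iff_of_true hu (by decide)
        | exact iff_of_false hb2 (by decide)
        | exact iff_of_false huw (by decide)
        | exact iff_of_false haw (by decide)
        | exact iff_of_false hax (by decide)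
        | exact iff_of_false hbx (by decide)
    intro i j
    rcases lt_trichotomy i j with h | h | h
    · exact P i j h
    · subst h
      refine iff_of_false (hne _) ?_
      revert i; decide
    · rw [G.adj_comm, P j i h]
      exact or_comm
  by_contra hcard
  have hne : Nonempty V := by
    rw [← Fintype.card_pos_iff]; omega
  obtain ⟨v⟩ := hne
  -- comparing by degree
  have hcmp : ∀ u w, G.Adj u v → G.Adj w v → G.degree w ≤ G.degree u →
      G.neighborFinset w ⊆ G.neighborFinset u := by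
    intro u w hu hw hd
    rcases hchain w u v hw hu with h | h
    · exact h
    · rw [← SimpleGraph.card_neighborFinset_eq_degree, ← SimpleGraph.card_neighborFinset_eq_degree] at hd
      rw [Finset.eq_of_subset_of_card_le h hd]
  obtain ⟨u, hu, hmax⟩ := Finset.exists_max_image (G.neighborFinset v) (fun u => G.degree u)
    (by obtain ⟨w, hw⟩ := hpos' v; exact ⟨w, by rwa [SimpleGraph.mem_neighborFinset]⟩)
  rw [SimpleGraph.mem_neighborFinset] at hu
  have h2 : ((G.neighborFinset v).erase u).Nonempty := by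
    rw [← Finset.card_pos, Finset.card_erase_of_mem (by rwa [SimpleGraph.mem_neighborFinset]),
      SimpleGraph.card_neighborFinset_eq_degree]
    have := hpos v
    obtain ⟨k, hk⟩ := heven v
    omega
  obtain ⟨u2, hu2, hmax2⟩ := Finset.exists_max_image _ (fun u => G.degree u) h2
  rw [Finset.mem_erase, SimpleGraph.mem_neighborFinset] at hu2
  have hsub := hcmp u u2 hu.symm hu2.2.symm (hmax u2 (by rw [SimpleGraph.mem_neighborFinset]; exact hu2.2))
  obtain ⟨x, hx1, hx2⟩ : ∃ x ∈ G.neighborFinset u, x ∉ G.neighborFinset u2 := by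
    by_contra hc
    push Not at hc
    exact htwin u2 u hu2.1 (Finset.Subset.antisymm hsub hc)
  rw [SimpleGraph.mem_neighborFinset] at hx1 hx2
  have hx3 : ∀ y, G.Adj v y → y ≠ u → ¬ G.Adj y x := by
    intro y hy hyu hyx
    have hm := hmax2 y (by rw [Finset.mem_erase, SimpleGraph.mem_neighborFinset]; exact ⟨hyu, hy⟩)
    have := hcmp u2 y hu2.2.symm hy.symm hm (by rwa [SimpleGraph.mem_neighborFinset] : x ∈ _)
    rw [SimpleGraph.mem_neighborFinset] at this
    exact hx2 this
  have hNx : G.neighborFinset x ⊆ G.neighborFinset v := by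
    rcases hchain x v u hx1.symm hu with h | h
    · exact h
    · exfalso
      have := h (by rw [SimpleGraph.mem_neighborFinset]; exact hu2.2 : u2 ∈ _)
      rw [SimpleGraph.mem_neighborFinset] at this
      exact hx2 this.symm
  have hNx2 : G.neighborFinset x = {u} := by
    ext y
    rw [Finset.mem_singleton]
    constructor
    · intro hy
      by_contra hyu
      have h3 := hNx hy
      rw [SimpleGraph.mem_neighborFinset] at hy h3
      exact hx3 y h3 hyu hy.symm
    · rintro rfl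
      rw [SimpleGraph.mem_neighborFinset]; exact hx1.symm
  have hd : G.degree x = 1 := by
    rw [← SimpleGraph.card_neighborFinset_eq_degree, hNx2, Finset.card_singleton]
  have := heven x
  rw [hd] at this
  exact absurd this (by decide)

end Pool.Agent.Helper43_EOR
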