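import Mathlib

set_option autoImplicit false

namespace Pool.Agent.Helper43_EOR

open Finset




theorem TCh_inj {α : Type} (a b c d : α) (hab : a ≠ b) (hac : a ≠ c) (had : a ≠ d) (hbc : b ≠ c)
    (hbd : b ≠ d) (hcd : c ≠ d) : Function.Injective ![a, b, c, d] := by
  intro x y h
  fin_cases x <;> fin_cases y <;> simp_all

theorem TCh_exists {n : ℕ} (f : Fin n → ZMod 2) (h : ∑ c, f c ≠ 0) : ∃ c, f c ≠ 0 := by
  by_contra hc
  push Not at hc
  exact h (Finset.sum_eq_zero fun c _ => hc c)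

theorem TCh_sgn (σ0 σ1 σ2 σ3 : ℤ) (h0 : σ0 = 1 ∨ σ0 = -1) (h1 : σ1 = 1 ∨ σ1 = -1)
    (h2 : σ2 = 1 ∨ σ2 = -1) (h3 : σ3 = 1 ∨ σ3 = -1) (D : ℤ)
    (hD : D = 16 * (σ0 * σ1 * σ2 * σ3) ∨ D = -16 * (σ0 * σ1 * σ2 * σ3)) : D = 16 ∨ D = -16 := by
  rcases h0 with rfl | rfl <;> rcases h1 with rfl | rfl <;> rcases h2 with rfl | rfl <;>
    rcases h3 with rfl | rfl <;> rcases hD with rfl | rfl <;> norm_num

theorem TCh_det0 (σ0 σ1 σ2 σ3 : ℤ) :
    (!![σ0, σ1, σ2, σ3; σ0, -σ1, -σ2, σ3; σ0, -σ1, σ2, -σ3; σ0, σ1, -σ2, -σ3] :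
      Matrix (Fin 4) (Fin 4) ℤ).det = 16 * (σ0 * σ1 * σ2 * σ3) := by
  simp [Matrix.det_succ_row_zero, Fin.sum_univ_succ, Fin.succAbove]
  ring

theorem TCh_det1 (σ0 σ1 σ2 σ3 : ℤ) :
    (!![σ0, σ1, σ2, σ3; -σ0, σ1, σ2, -σ3; σ0, -σ1, σ2, -σ3; σ0, σ1, -σ2, -σ3] :
      Matrix (Fin 4) (Fin 4) ℤ).det = 16 * (σ0 * σ1 * σ2 * σ3) ∨
    (!![σ0, σ1, σ2, σ3; -σ0, σ1, σ2, -σ3; σ0, -σ1, σ2, -σ3; σ0, σ1, -σ2, -σ3] :
      Matrix (Fin 4) (Fin 4) ℤ).det = -16 * (σ0 * σ1 * σ2 * σ3) := by
  right
  simp [Matrix.det_succ_row_zero, Fin.sum_univ_succ, Fin.succAbove]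
  ring

theorem TCh_cast {n : ℕ} (P : Fin n → Prop) [DecidablePred P] :
    (((univ.filter P).card : ℕ) : ZMod 2) = ∑ c, (if P c then (1 : ZMod 2) else 0) := by
  rw [Finset.sum_boole]

theorem TCh_hadamard {n : ℕ} (hn : Even n) (S : Matrix (Fin n) (Fin n) ℤ)
    (hS : ∀ i j, S i j = 1 ∨ S i j = -1)
    (hrow : ∀ i j, Even (univ.filter fun c => S i c ≠ S j c).card) (p i j k : Fin n)
    (hij : Odd (univ.filter fun c => S i c ≠ S p c ∧ S j c ≠ S p c).card)
    (hik : Odd (univ.filter fun c => S i c ≠ S p c ∧ S k c ≠ S p c).card)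
    (hjk : Odd (univ.filter fun c => S j c ≠ S p c ∧ S k c ≠ S p c).card) :
    ∃ f g : Fin 4 → Fin n, f.Injective ∧ g.Injective ∧
      ((S.submatrix f g).det = 16 ∨ (S.submatrix f g).det = -16) := by
  classical
  let α : Fin n → Fin n → ZMod 2 := fun x c => if S x c ≠ S p c then 1 else 0
  have hα01 : ∀ x c, α x c = 0 ∨ α x c = 1 := by
    intro x c
    by_cases h : S x c ≠ S p c
    · right; simp only [α, if_pos h]
    · left; simp only [α, if_neg h]
  have hα0 : ∀ x c, α x c = 0 → S x c = S p c := by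
    intro x c h
    by_contra hne
    have : α x c = 1 := by simp only [α]; rw [if_pos hne]
    rw [this] at h
    exact absurd h (by decide)
  have hα1 : ∀ x c, α x c = 1 → S x c = - S p c := by
    intro x c h
    by_cases hne : S x c = S p c
    · have : α x c = 0 := by simp only [α]; rw [if_neg (not_not.2 hne)]
      rw [this] at h
      exact absurd h (by decide)
    · rcases hS x c with h1 | h1 <;> rcases hS p c with h2 | h2 <;> rw [h1, h2] at hne ⊢ <;>
        first | (exact absurd rfl hne) | norm_num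
  have e1 : ∀ x, ∑ c, α x c = 0 := by
    intro x
    have h1 := TCh_cast (fun c => S x c ≠ S p c)
    have h2 : (((univ.filter fun c => S x c ≠ S p c).card : ℕ) : ZMod 2) = 0 :=
      (ZMod.natCast_eq_zero_iff_even).2 (hrow x p)
    rw [h2] at h1
    exact h1.symm
  have e2 : ∀ x y, Odd (univ.filter fun c => S x c ≠ S p c ∧ S y c ≠ S p c).card →
      ∑ c, α x c * α y c = 1 := by
    intro x y h
    have h1 := TCh_cast (fun c => S x c ≠ S p c ∧ S y c ≠ S p c)
    have h2 : (((univ.filter fun c => S x c ≠ S p c ∧ S y c ≠ S p c).card : ℕ) : ZMod 2) = 1 :=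
      (ZMod.natCast_eq_one_iff_odd).2 h
    rw [h2] at h1
    rw [h1]
    refine Finset.sum_congr rfl fun c _ => ?_
    simp only [α]
    by_cases ha : S x c ≠ S p c <;> by_cases hb : S y c ≠ S p c <;> simp [ha, hb]
  have eij := e2 i j hij
  have eik := e2 i k hik
  have ejk := e2 j k hjk
  have e0 : ∑ _c : Fin n, (1 : ZMod 2) = 0 := by
    rw [Finset.sum_const, Finset.card_univ, Fintype.card_fin, nsmul_eq_mul, mul_one]
    exact (ZMod.natCast_eq_zero_iff_even).2 hn
  have hsq : ∀ x : Fin n, ∑ c, α x c * α x c = 0 := by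
    intro x
    rw [← e1 x]
    refine Finset.sum_congr rfl fun c _ => ?_
    rcases hα01 x c with h | h <;> rw [h] <;> decide
  have hpz : ∀ c, α p c = 0 := by
    intro c
    simp only [α]
    rw [if_neg (by simp)]
  -- distinctness
  have hip : p ≠ i := by
    rintro rfl
    have : ∑ c, α p c * α j c = 0 := Finset.sum_eq_zero fun c _ => by rw [hpz c, zero_mul]
    rw [this] at eij
    exact absurd eij (by decide)
  have hjp : p ≠ j := by
    rintro rfl
    have : ∑ c, α i c * α p c = 0 := Finset.sum_eq_zero fun c _ => by rw [hpz c, mul_zero]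
    rw [this] at eij
    exact absurd eij (by decide)
  have hkp : p ≠ k := by
    rintro rfl
    have : ∑ c, α i c * α p c = 0 := Finset.sum_eq_zero fun c _ => by rw [hpz c, mul_zero]
    rw [this] at eik
    exact absurd eik (by decide)
  have hijne : i ≠ j := by
    rintro rfl
    rw [hsq i] at eij
    exact absurd eij (by decide)
  have hikne : i ≠ k := by
    rintro rfl
    rw [hsq i] at eik
    exact absurd eik (by decide)
  have hjkne : j ≠ k := by
    rintro rfl
    rw [hsq j] at ejk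
    exact absurd ejk (by decide)
  have hf : Function.Injective ![p, i, j, k] := TCh_inj _ _ _ _ hip hjp hkp hijne hikne hjkne
  set w : ZMod 2 := ∑ c, α i c * α j c * α k c with hw
  -- parities of the eight types
  have s000 : ∑ c, (1 - α i c) * (1 - α j c) * (1 - α k c) = 1 - w := by
    have : ∀ c, (1 - α i c) * (1 - α j c) * (1 - α k c) =
        1 - α i c - α j c - α k c + α i c * α j c + α i c * α k c + α j c * α k c -
          α i c * α j c * α k c := fun c => by ring
    simp only [this, Finset.sum_sub_distrib, Finset.sum_add_distrib, e0, e1, eij, eik, ejk, ← hw]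
    generalize w = z
    revert z; decide
  have s110 : ∑ c, α i c * α j c * (1 - α k c) = 1 - w := by
    have : ∀ c, α i c * α j c * (1 - α k c) = α i c * α j c - α i c * α j c * α k c := fun c => by ring
    simp only [this, Finset.sum_sub_distrib, eij, ← hw]
  have s101 : ∑ c, α i c * (1 - α j c) * α k c = 1 - w := by
    have : ∀ c, α i c * (1 - α j c) * α k c = α i c * α k c - α i c * α j c * α k c := fun c => by ring
    simp only [this, Finset.sum_sub_distrib, eik, ← hw]
  have s011 : ∑ c, (1 - α i c) * α j c * α k c = 1 - w := by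
    have : ∀ c, (1 - α i c) * α j c * α k c = α j c * α k c - α i c * α j c * α k c := fun c => by ring
    simp only [this, Finset.sum_sub_distrib, ejk, ← hw]
  have s100 : ∑ c, α i c * (1 - α j c) * (1 - α k c) = w := by
    have : ∀ c, α i c * (1 - α j c) * (1 - α k c) =
        α i c - α i c * α j c - α i c * α k c + α i c * α j c * α k c := fun c => by ring
    simp only [this, Finset.sum_sub_distrib, Finset.sum_add_distrib, e1, eij, eik, ← hw]
    generalize w = z
    revert z; decide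
  have s010 : ∑ c, (1 - α i c) * α j c * (1 - α k c) = w := by
    have : ∀ c, (1 - α i c) * α j c * (1 - α k c) =
        α j c - α i c * α j c - α j c * α k c + α i c * α j c * α k c := fun c => by ring
    simp only [this, Finset.sum_sub_distrib, Finset.sum_add_distrib, e1, eij, ejk, ← hw]
    generalize w = z
    revert z; decide
  have s001 : ∑ c, (1 - α i c) * (1 - α j c) * α k c = w := by
    have : ∀ c, (1 - α i c) * (1 - α j c) * α k c =
        α k c - α i c * α k c - α j c * α k c + α i c * α j c * α k c := fun c => by ring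
    simp only [this, Finset.sum_sub_distrib, Finset.sum_add_distrib, e1, eik, ejk, ← hw]
    generalize w = z
    revert z; decide
  have hone : ∀ a : ZMod 2, (a ≠ 0 → a = 1) ∧ (1 - a ≠ 0 → a = 0) := by decide
  have hex : ∀ (A B C : Fin n → ZMod 2), ∑ c, A c * B c * C c ≠ 0 →
      ∃ c, A c ≠ 0 ∧ B c ≠ 0 ∧ C c ≠ 0 := by
    intro A B C h
    obtain ⟨c, hc⟩ := TCh_exists _ h
    exact ⟨c, left_ne_zero_of_mul (left_ne_zero_of_mul hc), right_ne_zero_of_mul (left_ne_zero_of_mul hc),
      right_ne_zero_of_mul hc⟩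
  have hw01 : w = 0 ∨ w = 1 := by
    generalize w = z
    revert z; decide
  rcases hw01 with hw0 | hw1
  · -- types 000, 110, 101, 011
    obtain ⟨c0, a0, b0, d0⟩ := hex _ _ _ (by rw [s000, hw0]; decide)
    obtain ⟨c1, a1, b1, d1⟩ := hex _ _ _ (by rw [s110, hw0]; decide)
    obtain ⟨c2, a2, b2, d2⟩ := hex _ _ _ (by rw [s101, hw0]; decide)
    obtain ⟨c3, a3, b3, d3⟩ := hex _ _ _ (by rw [s011, hw0]; decide)
    have a0 := (hone _).2 a0
    have b0 := (hone _).2 b0
    have d0 := (hone _).2 d0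
    have a1 := (hone _).1 a1
    have b1 := (hone _).1 b1
    have d1 := (hone _).2 d1
    have a2 := (hone _).1 a2
    have b2 := (hone _).2 b2
    have d2 := (hone _).1 d2
    have a3 := (hone _).2 a3
    have b3 := (hone _).1 b3
    have d3 := (hone _).1 d3
    have n01 : c0 ≠ c1 := by rintro rfl; rw [a0] at a1; exact absurd a1 (by decide)
    have n02 : c0 ≠ c2 := by rintro rfl; rw [a0] at a2; exact absurd a2 (by decide)
    have n03 : c0 ≠ c3 := by rintro rfl; rw [b0] at b3; exact absurd b3 (by decide)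
    have n12 : c1 ≠ c2 := by rintro rfl; rw [b1] at b2; exact absurd b2 (by decide)
    have n13 : c1 ≠ c3 := by rintro rfl; rw [a1] at a3; exact absurd a3 (by decide)
    have n23 : c2 ≠ c3 := by rintro rfl; rw [a2] at a3; exact absurd a3 (by decide)
    refine ⟨![p, i, j, k], ![c0, c1, c2, c3], hf, TCh_inj _ _ _ _ n01 n02 n03 n12 n13 n23, ?_⟩
    have hM : S.submatrix ![p, i, j, k] ![c0, c1, c2, c3] =
        !![S p c0, S p c1, S p c2, S p c3; S p c0, -S p c1, -S p c2, S p c3;
          S p c0, -S p c1, S p c2, -S p c3; S p c0, S p c1, -S p c2, -S p c3] := by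
      ext x y
      fin_cases x <;> fin_cases y <;>
        simp [hα0 i c0 a0, hα0 j c0 b0, hα0 k c0 d0, hα1 i c1 a1, hα1 j c1 b1, hα0 k c1 d1,
          hα1 i c2 a2, hα0 j c2 b2, hα1 k c2 d2, hα0 i c3 a3, hα1 j c3 b3, hα1 k c3 d3]
    rw [hM]
    exact TCh_sgn _ _ _ _ (hS p c0) (hS p c1) (hS p c2) (hS p c3) _ (Or.inl (TCh_det0 _ _ _ _))
  · -- types 100, 010, 001, 111
    obtain ⟨c0, a0, b0, d0⟩ := hex _ _ _ (by rw [s100, hw1]; decide)
    obtain ⟨c1, a1, b1, d1⟩ := hex _ _ _ (by rw [s010, hw1]; decide)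
    obtain ⟨c2, a2, b2, d2⟩ := hex _ _ _ (by rw [s001, hw1]; decide)
    obtain ⟨c3, a3, b3, d3⟩ := hex (α i) (α j) (α k) (by rw [← hw, hw1]; decide)
    have a0 := (hone _).1 a0
    have b0 := (hone _).2 b0
    have d0 := (hone _).2 d0
    have a1 := (hone _).2 a1
    have b1 := (hone _).1 b1
    have d1 := (hone _).2 d1
    have a2 := (hone _).2 a2
    have b2 := (hone _).2 b2
    have d2 := (hone _).1 d2
    have a3 := (hone _).1 a3
    have b3 := (hone _).1 b3
    have d3 := (hone _).1 d3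
    have n01 : c0 ≠ c1 := by rintro rfl; rw [a0] at a1; exact absurd a1 (by decide)
    have n02 : c0 ≠ c2 := by rintro rfl; rw [a0] at a2; exact absurd a2 (by decide)
    have n03 : c0 ≠ c3 := by rintro rfl; rw [b0] at b3; exact absurd b3 (by decide)
    have n12 : c1 ≠ c2 := by rintro rfl; rw [b1] at b2; exact absurd b2 (by decide)
    have n13 : c1 ≠ c3 := by rintro rfl; rw [a1] at a3; exact absurd a3 (by decide)
    have n23 : c2 ≠ c3 := by rintro rfl; rw [a2] at a3; exact absurd a3 (by decide)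
    refine ⟨![p, i, j, k], ![c0, c1, c2, c3], hf, TCh_inj _ _ _ _ n01 n02 n03 n12 n13 n23, ?_⟩
    have hM : S.submatrix ![p, i, j, k] ![c0, c1, c2, c3] =
        !![S p c0, S p c1, S p c2, S p c3; -S p c0, S p c1, S p c2, -S p c3;
          S p c0, -S p c1, S p c2, -S p c3; S p c0, S p c1, -S p c2, -S p c3] := by
      ext x y
      fin_cases x <;> fin_cases y <;>
        simp [hα1 i c0 a0, hα0 j c0 b0, hα0 k c0 d0, hα0 i c1 a1, hα1 j c1 b1, hα0 k c1 d1,
          hα0 i c2 a2, hα0 j c2 b2, hα1 k c2 d2, hα1 i c3 a3, hα1 j c3 b3, hα1 k c3 d3]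
    rw [hM]
    exact TCh_sgn _ _ _ _ (hS p c0) (hS p c1) (hS p c2) (hS p c3) _ (TCh_det1 _ _ _ _)

end Pool.Agent.Helper43_EOR
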