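import Mathlib

set_option autoImplicit false

namespace Pool.Agent.Helper43_EOR

open Finset




/-- 0 for 1, 1 for everything else -/
def TCp_k (x : ℤ) : ℤ := if x = 1 then 0 else 1

theorem TCp_k_eq {x : ℤ} (h : x = 1 ∨ x = -1) : x = 1 - 2 * TCp_k x := by
  rcases h with h | h <;> subst h <;> simp [TCp_k]

theorem TCp_ne {x y : ℤ} (hx : x = 1 ∨ x = -1) (hy : y = 1 ∨ y = -1) :
    (if x ≠ y then (1 : ZMod 2) else 0) = (TCp_k x : ZMod 2) + (TCp_k y : ZMod 2) := by
  rcases hx with h | h <;> rcases hy with h' | h' <;> subst h <;> subst h' <;> simp [TCp_k] <;> decide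

theorem TCp_z2 (a : ZMod 2) : 2 * a = 0 := by
  have : (2 : ZMod 2) = 0 := by decide
  rw [this, zero_mul]

theorem TCp_add (a : ZMod 2) : a + a = 0 := by
  rw [← two_mul, TCp_z2]

theorem TCp_card {n : ℕ} (P : Fin n → Prop) [DecidablePred P] :
    (((univ.filter P).card : ℕ) : ZMod 2) = ∑ c, if P c then (1 : ZMod 2) else 0 := by
  rw [Finset.card_filter]; push_cast; rfl

theorem TCp_even_iff (m : ℕ) : Even m ↔ (m : ZMod 2) = 0 := by
  rw [ZMod.natCast_eq_zero_iff, even_iff_two_dvd]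

theorem TCp_odd_cast (m : ℕ) : (if Odd m then (1 : ZMod 2) else 0) = (m : ZMod 2) := by
  by_cases h : Odd m
  · rw [if_pos h]
    obtain ⟨k, rfl⟩ := h
    push_cast
    rw [TCp_z2, zero_add]
  · rw [if_neg h]
    rw [Nat.not_odd_iff_even, TCp_even_iff] at h
    exact h.symm

/-- n even -/
theorem TCp_neven {n : ℕ} (hn : 3 ≤ n) (S Q : Matrix (Fin n) (Fin n) ℤ)
    (hS : ∀ i j, S i j = 1 ∨ S i j = -1) (hQ : ∀ i j, Q i j = 1 ∨ Q i j = -1)
    (hSQ : S * Q = (4 : ℤ) • (1 : Matrix (Fin n) (Fin n) ℤ)) : (n : ZMod 2) = 0 := by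
  have h := congrFun (congrFun hSQ ⟨0, by omega⟩) ⟨1, by omega⟩
  rw [Matrix.mul_apply] at h
  have h0 : ((4 : ℤ) • (1 : Matrix (Fin n) (Fin n) ℤ)) ⟨0, by omega⟩ ⟨1, by omega⟩ = 0 := by
    rw [Matrix.smul_apply, Matrix.one_apply_ne]
    · simp
    · intro h; simp at h
  rw [h0] at h
  have h1 : ((∑ c, S ⟨0, by omega⟩ c * Q c ⟨1, by omega⟩ : ℤ) : ZMod 2) = ((0 : ℤ) : ZMod 2) := by
    rw [h]
  push_cast at h1
  have h2 : ∀ c : Fin n, ((S ⟨0, by omega⟩ c : ℤ) : ZMod 2) * ((Q c ⟨1, by omega⟩ : ℤ) : ZMod 2) = 1 := by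
    intro c
    rcases hS ⟨0, by omega⟩ c with h | h <;> rcases hQ c ⟨1, by omega⟩ with h' | h' <;>
      rw [h, h'] <;> decide
  rw [Finset.sum_congr rfl (fun c _ => h2 c)] at h1
  simpa using h1

/-- distance in ZMod 2 form -/
theorem TCp_rowz {n : ℕ} (hn : 3 ≤ n) (S Q : Matrix (Fin n) (Fin n) ℤ)
    (hS : ∀ i j, S i j = 1 ∨ S i j = -1) (hQ : ∀ i j, Q i j = 1 ∨ Q i j = -1)
    (hSQ : S * Q = (4 : ℤ) • (1 : Matrix (Fin n) (Fin n) ℤ)) (i j : Fin n) :
    ∑ c, ((TCp_k (S i c) : ZMod 2) + (TCp_k (S j c) : ZMod 2)) = 0 := by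
  obtain ⟨l, hl1, hl2⟩ : ∃ l : Fin n, l ≠ i ∧ l ≠ j := by
    by_contra hcon
    push Not at hcon
    have hc : (Finset.univ : Finset (Fin n)) ⊆ {i, j} := by
      intro l _
      by_cases h : l = i
      · simp [h]
      · simp [hcon l h]
    have := Finset.card_le_card hc
    have h2 : ({i, j} : Finset (Fin n)).card ≤ 2 := Finset.card_le_two
    rw [Finset.card_univ, Fintype.card_fin] at this
    omega
  have e1 : ∑ c, S i c * Q c l = 0 := by
    have h := congrFun (congrFun hSQ i) l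
    rw [Matrix.mul_apply, Matrix.smul_apply, Matrix.one_apply_ne hl1.symm] at h
    simpa using h
  have e2 : ∑ c, S j c * Q c l = 0 := by
    have h := congrFun (congrFun hSQ j) l
    rw [Matrix.mul_apply, Matrix.smul_apply, Matrix.one_apply_ne hl2.symm] at h
    simpa using h
  have e3 : ∑ c, (TCp_k (S i c) - TCp_k (S j c)) * Q c l = 0 := by
    have : 2 * ∑ c, (TCp_k (S i c) - TCp_k (S j c)) * Q c l = 0 := by
      calc 2 * ∑ c, (TCp_k (S i c) - TCp_k (S j c)) * Q c l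
          = ∑ c, (S j c * Q c l - S i c * Q c l) := by
            rw [Finset.mul_sum]
            apply Finset.sum_congr rfl
            intro c _
            have h1 := TCp_k_eq (hS i c)
            have h2 := TCp_k_eq (hS j c)
            have : S j c - S i c = 2 * (TCp_k (S i c) - TCp_k (S j c)) := by linarith
            rw [← sub_mul, this]; ring
        _ = 0 := by rw [Finset.sum_sub_distrib, e1, e2, sub_zero]
    linarith
  have e4 : ((∑ c, (TCp_k (S i c) - TCp_k (S j c)) * Q c l : ℤ) : ZMod 2) = ((0 : ℤ) : ZMod 2) := by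
    rw [e3]
  push_cast at e4
  rw [← e4]
  apply Finset.sum_congr rfl
  intro c _
  have hq : ((Q c l : ℤ) : ZMod 2) = 1 := by
    rcases hQ c l with h | h <;> rw [h] <;> decide
  rw [hq, mul_one, sub_eq_add_neg, ZMod.neg_eq_self_mod_two]

theorem TCp_even {n : ℕ} (hn : 3 ≤ n) (S Q : Matrix (Fin n) (Fin n) ℤ)
    (hS : ∀ i j, S i j = 1 ∨ S i j = -1) (hQ : ∀ i j, Q i j = 1 ∨ Q i j = -1)
    (hSQ : S * Q = (4 : ℤ) • (1 : Matrix (Fin n) (Fin n) ℤ))
    (hQS : Q * S = (4 : ℤ) • (1 : Matrix (Fin n) (Fin n) ℤ)) :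
    Even n ∧ (∀ i j, Even (univ.filter fun c => S i c ≠ S j c).card) := by
  refine ⟨(TCp_even_iff n).2 (TCp_neven hn S Q hS hQ hSQ), fun i j => ?_⟩
  rw [TCp_even_iff, TCp_card]
  refine Eq.trans ?_ (TCp_rowz hn S Q hS hQ hSQ i j)
  exact Finset.sum_congr rfl fun c _ => TCp_ne (hS i c) (hS j c)

theorem TCp_colz {n : ℕ} (hn : 3 ≤ n) (S Q : Matrix (Fin n) (Fin n) ℤ)
    (hS : ∀ i j, S i j = 1 ∨ S i j = -1) (hQ : ∀ i j, Q i j = 1 ∨ Q i j = -1)
    (hQS : Q * S = (4 : ℤ) • (1 : Matrix (Fin n) (Fin n) ℤ)) (i j : Fin n) :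
    ∑ c, (TCp_k (S c i) : ZMod 2) = ∑ c, (TCp_k (S c j) : ZMod 2) := by
  have h := TCp_rowz hn S.transpose Q.transpose (fun i j => hS j i) (fun i j => hQ j i)
    (by rw [← Matrix.transpose_mul, hQS, Matrix.transpose_smul, Matrix.transpose_one]) i j
  simp only [Matrix.transpose_apply] at h
  rw [Finset.sum_add_distrib] at h
  have h2 := eq_neg_of_add_eq_zero_left h
  rwa [ZMod.neg_eq_self_mod_two] at h2

theorem TCp_inter {n : ℕ} (S : Matrix (Fin n) (Fin n) ℤ)
    (hS : ∀ i j, S i j = 1 ∨ S i j = -1) (p i j : Fin n) :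
    (((univ.filter fun c => S i c ≠ S p c ∧ S j c ≠ S p c).card : ℕ) : ZMod 2) =
      ∑ c, ((TCp_k (S i c) : ZMod 2) + (TCp_k (S p c) : ZMod 2)) *
        ((TCp_k (S j c) : ZMod 2) + (TCp_k (S p c) : ZMod 2)) := by
  rw [TCp_card]
  apply Finset.sum_congr rfl
  intro c _
  rw [← TCp_ne (hS i c) (hS p c), ← TCp_ne (hS j c) (hS p c)]
  by_cases h1 : S i c ≠ S p c <;> by_cases h2 : S j c ≠ S p c <;> simp [h1, h2]

theorem TCp_degree {n : ℕ} (hn : 3 ≤ n) (S Q : Matrix (Fin n) (Fin n) ℤ)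
    (hS : ∀ i j, S i j = 1 ∨ S i j = -1) (hQ : ∀ i j, Q i j = 1 ∨ Q i j = -1)
    (hSQ : S * Q = (4 : ℤ) • (1 : Matrix (Fin n) (Fin n) ℤ))
    (hQS : Q * S = (4 : ℤ) • (1 : Matrix (Fin n) (Fin n) ℤ)) (p j : Fin n) :
    Even (univ.filter fun i =>
      Odd (univ.filter fun c => S i c ≠ S p c ∧ S j c ≠ S p c).card).card := by
  rw [TCp_even_iff, TCp_card]
  rw [Finset.sum_congr rfl (fun i _ => TCp_odd_cast _)]
  rw [Finset.sum_congr rfl (fun i _ => TCp_inter S hS p i j)]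
  rw [Finset.sum_comm]
  have h1 : ∀ c : Fin n, ∑ i, ((TCp_k (S i c) : ZMod 2) + (TCp_k (S p c) : ZMod 2)) *
        ((TCp_k (S j c) : ZMod 2) + (TCp_k (S p c) : ZMod 2)) =
      (∑ i, (TCp_k (S i p) : ZMod 2)) * ((TCp_k (S j c) : ZMod 2) + (TCp_k (S p c) : ZMod 2)) := by
    intro c
    rw [← Finset.sum_mul, Finset.sum_add_distrib, Finset.sum_const, Finset.card_univ,
      Fintype.card_fin, nsmul_eq_mul, TCp_neven hn S Q hS hQ hSQ, zero_mul, add_zero,
      TCp_colz hn S Q hS hQ hQS c p]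
  rw [Finset.sum_congr rfl (fun c _ => h1 c), ← Finset.mul_sum,
    TCp_rowz hn S Q hS hQ hSQ j p, mul_zero]

/-- nondegeneracy -/
theorem TCp_nd {n : ℕ} (hn : 3 ≤ n) (S Q : Matrix (Fin n) (Fin n) ℤ)
    (hS : ∀ i j, S i j = 1 ∨ S i j = -1) (hQ : ∀ i j, Q i j = 1 ∨ Q i j = -1)
    (hSQ : S * Q = (4 : ℤ) • (1 : Matrix (Fin n) (Fin n) ℤ))
    (hQS : Q * S = (4 : ℤ) • (1 : Matrix (Fin n) (Fin n) ℤ)) (p : Fin n)
    (x : Fin n → ℤ) (hx : ((∑ c, x c : ℤ) : ZMod 2) = 0)
    (hxj : ∀ j, ((∑ c, (TCp_k (S j c) + TCp_k (S p c)) * x c : ℤ) : ZMod 2) = 0) (c c' : Fin n) :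
    ((x c : ℤ) : ZMod 2) = ((x c' : ℤ) : ZMod 2) := by
  obtain ⟨v, hv⟩ := (ZMod.intCast_zmod_eq_zero_iff_dvd _ 2).1 hx
  have hn2 := (ZMod.natCast_eq_zero_iff _ 2).1 (TCp_neven hn S Q hS hQ hSQ)
  obtain ⟨h, hh⟩ := hn2
  have hw : ∀ j, ∃ w : ℤ, ∑ c, S j c * (S p c * x c) = 2 * v + 4 * w := by
    intro j
    obtain ⟨u, hu⟩ := (ZMod.intCast_zmod_eq_zero_iff_dvd _ 2).1 (hxj j)
    refine ⟨- u + ∑ c, TCp_k (S j c) * TCp_k (S p c) * x c, ?_⟩
    have e : ∑ c, S j c * (S p c * x c) = ∑ c, x c - 2 * ∑ c, (TCp_k (S j c) + TCp_k (S p c)) * x c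
        + 4 * ∑ c, TCp_k (S j c) * TCp_k (S p c) * x c := by
      rw [Finset.mul_sum, Finset.mul_sum, ← Finset.sum_sub_distrib, ← Finset.sum_add_distrib]
      apply Finset.sum_congr rfl
      intro c _
      have h1 := TCp_k_eq (hS j c)
      have h2 := TCp_k_eq (hS p c)
      generalize TCp_k (S j c) = a at *
      generalize TCp_k (S p c) = b at *
      rw [h1, h2]; ring
    rw [e, hu, hv]; push_cast; ring
  choose w hw using hw
  have key : ∀ c, ∃ r : ℤ, x c = v * r + ∑ j, S p c * Q c j * w j ∧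
      (r : ZMod 2) = (h : ZMod 2) + ∑ j, (TCp_k (Q c j) : ZMod 2) := by
    intro c
    have e0 : ∑ j, S p c * Q c j = 2 * ((h : ℤ) - ∑ j, (TCp_k (S p c) + TCp_k (Q c j))
        + 2 * ∑ j, TCp_k (S p c) * TCp_k (Q c j)) := by
      have : (2 : ℤ) * (h : ℤ) = ∑ j : Fin n, (1 : ℤ) := by
        rw [Finset.sum_const, Finset.card_univ, Fintype.card_fin, nsmul_eq_mul, mul_one]
        exact_mod_cast hh.symm
      rw [mul_add, mul_sub, this, Finset.mul_sum, Finset.mul_sum, Finset.mul_sum,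
        ← Finset.sum_sub_distrib, ← Finset.sum_add_distrib]
      apply Finset.sum_congr rfl
      intro j _
      have h1 := TCp_k_eq (hQ c j)
      have h2 := TCp_k_eq (hS p c)
      generalize TCp_k (Q c j) = a at *
      generalize TCp_k (S p c) = b at *
      rw [h1, h2]; ring
    refine ⟨(h : ℤ) - ∑ j, (TCp_k (S p c) + TCp_k (Q c j))
        + 2 * ∑ j, TCp_k (S p c) * TCp_k (Q c j), ?_, ?_⟩
    · have e1 : ∑ j, Q c j * ∑ c', S j c' * (S p c' * x c') = 4 * (S p c * x c) := by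
        have e2 : ∑ j, Q c j * ∑ c', S j c' * (S p c' * x c') =
            ∑ c', (Q * S) c c' * (S p c' * x c') := by
          simp only [Matrix.mul_apply, Finset.mul_sum, Finset.sum_mul]
          rw [Finset.sum_comm]
          apply Finset.sum_congr rfl
          intro a _
          apply Finset.sum_congr rfl
          intro b _
          ring
        rw [e2, hQS]
        rw [Finset.sum_eq_single c]
        · simp
        · intro b _ hb
          simp [Matrix.one_apply_ne hb.symm]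
        · simp
      have hs : S p c * S p c = 1 := by
        rcases hS p c with h | h <;> rw [h] <;> norm_num
      have e3 : 4 * x c = 4 * (v * ((h : ℤ) - ∑ j, (TCp_k (S p c) + TCp_k (Q c j))
        + 2 * ∑ j, TCp_k (S p c) * TCp_k (Q c j)) + ∑ j, S p c * Q c j * w j) := by
        calc 4 * x c = S p c * (4 * (S p c * x c)) := by
              linear_combination (-4 * x c) * hs
          _ = S p c * ∑ j, Q c j * (2 * v + 4 * w j) := by
              rw [← e1]
              congr 1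
              exact Finset.sum_congr rfl fun j _ => by rw [hw j]
          _ = 2 * v * ∑ j, S p c * Q c j + 4 * ∑ j, S p c * Q c j * w j := by
              rw [Finset.mul_sum, Finset.mul_sum, Finset.mul_sum, ← Finset.sum_add_distrib]
              exact Finset.sum_congr rfl fun j _ => by ring
          _ = _ := by rw [e0]; ring
      linarith
    · push_cast
      rw [TCp_z2, add_zero, Finset.sum_add_distrib, Finset.sum_const, Finset.card_univ,
        Fintype.card_fin, nsmul_eq_mul, TCp_neven hn S Q hS hQ hSQ, zero_mul, zero_add,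
        sub_eq_add_neg, ZMod.neg_eq_self_mod_two]
  have hQsum : ∀ c c', ∑ j, (TCp_k (Q c j) : ZMod 2) = ∑ j, (TCp_k (Q c' j) : ZMod 2) := by
    intro c c'
    have h := TCp_rowz hn Q S hQ hS hQS c c'
    rw [Finset.sum_add_distrib] at h
    have h2 := eq_neg_of_add_eq_zero_left h
    rwa [ZMod.neg_eq_self_mod_two] at h2
  have hone : ∀ c j, (((S p c * Q c j : ℤ)) : ZMod 2) = 1 := by
    intro c j
    rcases hS p c with h | h <;> rcases hQ c j with h' | h' <;> rw [h, h'] <;> decide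
  have fin : ∀ c, ((x c : ℤ) : ZMod 2) = (v : ZMod 2) * ((h : ZMod 2) + ∑ j, (TCp_k (Q p j) : ZMod 2))
      + ∑ j, (w j : ZMod 2) := by
    intro c
    obtain ⟨r, hr1, hr2⟩ := key c
    rw [hr1, Int.cast_add, Int.cast_mul, hr2, hQsum c p, Int.cast_sum]
    congr 1
    apply Finset.sum_congr rfl
    intro j _
    rw [Int.cast_mul, hone, one_mul]
  rw [fin c, fin c']

theorem TCp_twin {n : ℕ} (hn : 3 ≤ n) (S Q : Matrix (Fin n) (Fin n) ℤ)
    (hS : ∀ i j, S i j = 1 ∨ S i j = -1) (hQ : ∀ i j, Q i j = 1 ∨ Q i j = -1)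
    (hSQ : S * Q = (4 : ℤ) • (1 : Matrix (Fin n) (Fin n) ℤ))
    (hQS : Q * S = (4 : ℤ) • (1 : Matrix (Fin n) (Fin n) ℤ)) (p i i' : Fin n) (hii : i ≠ i') :
    ∃ j, ¬ (Odd (univ.filter fun c => S i c ≠ S p c ∧ S j c ≠ S p c).card ↔
      Odd (univ.filter fun c => S i' c ≠ S p c ∧ S j c ≠ S p c).card) := by
  by_contra hcon
  push Not at hcon
  have h1 : ∀ j, (((univ.filter fun c => S i c ≠ S p c ∧ S j c ≠ S p c).card : ℕ) : ZMod 2) =
      (((univ.filter fun c => S i' c ≠ S p c ∧ S j c ≠ S p c).card : ℕ) : ZMod 2) := by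
    intro j
    rw [← TCp_odd_cast, ← TCp_odd_cast, if_congr (hcon j) rfl rfl]
  have h2 : ∀ j, ((∑ c, (TCp_k (S j c) + TCp_k (S p c)) * (TCp_k (S i c) + TCp_k (S i' c)) : ℤ) : ZMod 2) = 0 := by
    intro j
    have h := h1 j
    rw [TCp_inter S hS, TCp_inter S hS] at h
    push_cast
    have h3 : ∑ c, ((TCp_k (S j c) : ZMod 2) + (TCp_k (S p c) : ZMod 2)) *
        ((TCp_k (S i c) : ZMod 2) + (TCp_k (S i' c) : ZMod 2)) =
        ∑ c, ((TCp_k (S i c) : ZMod 2) + (TCp_k (S p c) : ZMod 2)) *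
        ((TCp_k (S j c) : ZMod 2) + (TCp_k (S p c) : ZMod 2)) +
        ∑ c, ((TCp_k (S i' c) : ZMod 2) + (TCp_k (S p c) : ZMod 2)) *
        ((TCp_k (S j c) : ZMod 2) + (TCp_k (S p c) : ZMod 2)) := by
      rw [← Finset.sum_add_distrib]
      apply Finset.sum_congr rfl
      intro c _
      have := TCp_z2 ((TCp_k (S p c) : ZMod 2) * ((TCp_k (S j c) : ZMod 2) + (TCp_k (S p c) : ZMod 2)))
      linear_combination -this
    rw [h3, h, TCp_add]
  have h3 : ((∑ c, (TCp_k (S i c) + TCp_k (S i' c)) : ℤ) : ZMod 2) = 0 := by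
    push_cast
    exact TCp_rowz hn S Q hS hQ hSQ i i'
  have h4 := TCp_nd hn S Q hS hQ hSQ hQS p (fun c => TCp_k (S i c) + TCp_k (S i' c)) h3 h2
  have h5 : (∀ c, S i c = S i' c) ∨ (∀ c, S i c = - S i' c) := by
    have h6 : ∀ c, (if S i c ≠ S i' c then (1 : ZMod 2) else 0) =
        (if S i p ≠ S i' p then (1 : ZMod 2) else 0) := by
      intro c
      rw [TCp_ne (hS i c) (hS i' c), TCp_ne (hS i p) (hS i' p)]
      have := h4 c p
      push_cast at this
      exact this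
    by_cases hp : S i p = S i' p
    · left
      intro c
      by_contra hc
      have := h6 c
      rw [if_pos hc, if_neg (by simpa using hp)] at this
      exact absurd this (by decide)
    · right
      intro c
      have := h6 c
      rw [if_pos hp] at this
      have hne : S i c ≠ S i' c := by
        by_contra hc
        rw [if_neg (by simpa using hc)] at this
        exact absurd this (by decide)
      rcases hS i c with h | h <;> rcases hS i' c with h' | h' <;> rw [h, h'] at hne ⊢ <;>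
        first | exact absurd rfl hne | norm_num
  have e1 : ∑ c, S i c * Q c i = 4 := by
    have h := congrFun (congrFun hSQ i) i
    rw [Matrix.mul_apply] at h
    simpa using h
  have e2 : ∑ c, S i' c * Q c i = 0 := by
    have h := congrFun (congrFun hSQ i') i
    rw [Matrix.mul_apply, Matrix.smul_apply, Matrix.one_apply_ne hii.symm] at h
    simpa using h
  rcases h5 with h | h
  · rw [Finset.sum_congr rfl (fun c _ => by rw [h c])] at e1
    rw [e2] at e1
    exact absurd e1 (by norm_num)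
  · have : ∑ c, S i c * Q c i = - ∑ c, S i' c * Q c i := by
      rw [← Finset.sum_neg_distrib]
      exact Finset.sum_congr rfl fun c _ => by rw [h c]; ring
    rw [this, e2] at e1
    exact absurd e1 (by norm_num)

theorem TCp_pos {n : ℕ} (hn : 3 ≤ n) (S Q : Matrix (Fin n) (Fin n) ℤ)
    (hS : ∀ i j, S i j = 1 ∨ S i j = -1) (hQ : ∀ i j, Q i j = 1 ∨ Q i j = -1)
    (hSQ : S * Q = (4 : ℤ) • (1 : Matrix (Fin n) (Fin n) ℤ))
    (hQS : Q * S = (4 : ℤ) • (1 : Matrix (Fin n) (Fin n) ℤ)) (p i : Fin n) (hip : i ≠ p) :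
    ∃ j, Odd (univ.filter fun c => S i c ≠ S p c ∧ S j c ≠ S p c).card := by
  obtain ⟨j, hj⟩ := TCp_twin hn S Q hS hQ hSQ hQS p i p hip
  refine ⟨j, ?_⟩
  by_contra hodd
  apply hj
  constructor
  · intro h; exact absurd h hodd
  · intro h
    simp at h

end Pool.Agent.Helper43_EOR
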