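import Mathlib
import Pool.Agent.Helper43_EOR.TC1
import Pool.Agent.Helper43_EOR.TCg
import Pool.Agent.Helper43_EOR.TCh
import Pool.Agent.Helper43_EOR.TCp

set_option autoImplicit false

namespace Pool.Agent.Helper43_EOR

open Finset


theorem TC3_parity {n : ℕ} (S : Matrix (Fin n) (Fin n) ℤ) (hS : ∀ i j, S i j = 1 ∨ S i j = -1)
    (p x y : Fin n) :
    (((univ.filter fun c => S x c ≠ S p c ∧ S y c ≠ S p c).card : ℕ) : ZMod 2) =
      ∑ c, ((if S x c = 1 then (1 : ZMod 2) else 0) + if S p c = 1 then 1 else 0) *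
        ((if S y c = 1 then (1 : ZMod 2) else 0) + if S p c = 1 then 1 else 0) := by
  rw [Finset.natCast_card_filter]
  refine Finset.sum_congr rfl fun c _ => ?_
  rcases hS x c with h1 | h1 <;> rcases hS y c with h2 | h2 <;> rcases hS p c with h3 | h3 <;>
    rw [h1, h2, h3] <;> norm_num <;> decide

theorem TC3_shift {n : ℕ} (S : Matrix (Fin n) (Fin n) ℤ) (hS : ∀ i j, S i j = 1 ∨ S i j = -1)
    (p a x y : Fin n) :
    (((univ.filter fun c => S x c ≠ S a c ∧ S y c ≠ S a c).card : ℕ) : ZMod 2) =
      (((univ.filter fun c => S x c ≠ S p c ∧ S y c ≠ S p c).card : ℕ) : ZMod 2) +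
      (((univ.filter fun c => S x c ≠ S p c ∧ S a c ≠ S p c).card : ℕ) : ZMod 2) +
      (((univ.filter fun c => S a c ≠ S p c ∧ S y c ≠ S p c).card : ℕ) : ZMod 2) +
      (((univ.filter fun c => S a c ≠ S p c ∧ S a c ≠ S p c).card : ℕ) : ZMod 2) := by
  rw [TC3_parity S hS, TC3_parity S hS, TC3_parity S hS, TC3_parity S hS, TC3_parity S hS,
    ← Finset.sum_add_distrib, ← Finset.sum_add_distrib, ← Finset.sum_add_distrib]
  refine Finset.sum_congr rfl fun c _ => ?_
  have key : ∀ ux uy ua up : ZMod 2, (ux + ua) * (uy + ua) =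
      (ux + up) * (uy + up) + (ux + up) * (ua + up) + (ua + up) * (uy + up) +
        (ua + up) * (ua + up) := by decide
  exact key _ _ _ _

theorem TC3_large {n : ℕ} (hn : 7 ≤ n) (S Q : Matrix (Fin n) (Fin n) ℤ)
    (hS : ∀ i j, S i j = 1 ∨ S i j = -1) (hQ : ∀ i j, Q i j = 1 ∨ Q i j = -1)
    (hSQ : S * Q = (4 : ℤ) • (1 : Matrix (Fin n) (Fin n) ℤ))
    (hQS : Q * S = (4 : ℤ) • (1 : Matrix (Fin n) (Fin n) ℤ))
    (h4 : ∀ f g : Fin 4 → Fin n, f.Injective → g.Injective →
      ¬ ((S.submatrix f g).det = 16 ∨ (S.submatrix f g).det = -16)) : False := by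
  classical
  have hn3 : 3 ≤ n := by omega
  obtain ⟨hev, hrow⟩ := TCp_even hn3 S Q hS hQ hSQ hQS
  have hpos0 : 0 < n := by omega
  obtain ⟨p⟩ : Nonempty (Fin n) := ⟨⟨0, hpos0⟩⟩
  let O : Fin n → Fin n → Fin n → Prop := fun p i j =>
    Odd (univ.filter fun c => S i c ≠ S p c ∧ S j c ≠ S p c).card
  have Oself : ∀ p i, ¬ O p i i := by
    intro p i h
    change Odd (univ.filter fun c => S i c ≠ S p c ∧ S i c ≠ S p c).card at h
    simp only [and_self] at h
    exact (Nat.not_odd_iff_even.2 (hrow i p)) h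
  have Ocomm : ∀ p i j, O p i j → O p j i := by
    intro p i j h
    change Odd (univ.filter fun c => S j c ≠ S p c ∧ S i c ≠ S p c).card
    change Odd (univ.filter fun c => S i c ≠ S p c ∧ S j c ≠ S p c).card at h
    have e : (univ.filter fun c => S j c ≠ S p c ∧ S i c ≠ S p c) =
        (univ.filter fun c => S i c ≠ S p c ∧ S j c ≠ S p c) := by
      ext c
      simp only [mem_filter, mem_univ, true_and]
      exact and_comm
    rw [e]
    exact h
  have Op : ∀ p i, ¬ O p i p := by
    intro p i h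
    change Odd (univ.filter fun c => S i c ≠ S p c ∧ S p c ≠ S p c).card at h
    simp at h
  have Oiff : ∀ p i j, O p i j ↔
      (((univ.filter fun c => S i c ≠ S p c ∧ S j c ≠ S p c).card : ℕ) : ZMod 2) = 1 := by
    intro p i j
    exact ZMod.natCast_eq_one_iff_odd.symm
  have Onot : ∀ p i j, ¬ O p i j →
      (((univ.filter fun c => S i c ≠ S p c ∧ S j c ≠ S p c).card : ℕ) : ZMod 2) = 0 := by
    intro p i j h
    exact ZMod.natCast_eq_zero_iff_even.2 (Nat.not_odd_iff_even.1 h)
  have hH : ∀ p i j k, O p i j → O p i k → O p j k → False := by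
    intro p i j k h1 h2 h3
    obtain ⟨f, g, hf, hg, h⟩ := TCh_hadamard hev S hS hrow p i j k h1 h2 h3
    exact h4 f g hf hg h
  let G : SimpleGraph {i : Fin n // i ≠ p} :=
    { Adj := fun i j => O p i.1 j.1
      symm := ⟨fun i j h => Ocomm _ _ _ h⟩
      loopless := ⟨fun i h => Oself _ _ h⟩ }
  have hadj : ∀ i j : {i : Fin n // i ≠ p}, G.Adj i j ↔ O p i.1 j.1 := fun _ _ => Iff.rfl
  have hcard := TCg_graph G ?_ ?_ ?_ ?_ ?_
  · have h1 : Fintype.card {i : Fin n // i ≠ p} = n - 1 := by
      have := Fintype.card_subtype_compl (fun i : Fin n => i = p)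
      rw [Fintype.card_subtype_eq, Fintype.card_fin] at this
      exact this
    omega
  · intro a b c hab hbc hac
    rw [hadj] at hab hbc hac
    exact hH p a.1 b.1 c.1 hab hac hbc
  · intro a b c d hab hcd
    by_contra hno
    push Not at hno
    obtain ⟨hac, had, hbc, hbd⟩ := hno
    rw [hadj] at hab hcd hac had hbc hbd
    have e1 := (Oiff _ _ _).1 hab
    have e1' := (Oiff _ _ _).1 (Ocomm _ _ _ hab)
    have e2 := (Oiff _ _ _).1 hcd
    have e3 := Onot _ _ _ hac
    have e3' := Onot _ _ _ (fun h => hac (Ocomm _ _ _ h))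
    have e4 := Onot _ _ _ had
    have e4' := Onot _ _ _ (fun h => had (Ocomm _ _ _ h))
    have e5 := Onot _ _ _ hbc
    have e6 := Onot _ _ _ hbd
    have e7 := Onot _ _ _ (Oself p a.1)
    refine hH a.1 b.1 c.1 d.1 ?_ ?_ ?_
    · rw [Oiff, TC3_shift S hS p, e5, e1', e3, e7]; decide
    · rw [Oiff, TC3_shift S hS p, e6, e1', e4, e7]; decide
    · rw [Oiff, TC3_shift S hS p, e2, e3', e4, e7]; decide
  · intro v
    have h1 := TCp_degree hn3 S Q hS hQ hSQ hQS p v.1
    have h2 : (univ.filter fun i =>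
        Odd (univ.filter fun c => S i c ≠ S p c ∧ S v.1 c ≠ S p c).card) =
        (G.neighborFinset v).map (Function.Embedding.subtype _) := by
      ext i
      simp only [mem_filter, mem_univ, true_and, Finset.mem_map, SimpleGraph.mem_neighborFinset,
        Function.Embedding.subtype_apply]
      constructor
      · intro h
        have hip : i ≠ p := by
          rintro rfl
          exact Op _ _ (Ocomm _ _ _ h)
        exact ⟨⟨i, hip⟩, Ocomm _ _ _ h, rfl⟩
      · rintro ⟨w, hw, rfl⟩
        exact Ocomm _ _ _ hw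
    rw [h2, Finset.card_map] at h1
    exact h1
  · intro v
    obtain ⟨j, hj⟩ := TCp_pos hn3 S Q hS hQ hSQ hQS p v.1 v.2
    have hjp : j ≠ p := by
      rintro rfl
      exact Op _ _ hj
    rw [← SimpleGraph.card_neighborFinset_eq_degree, Finset.card_pos]
    exact ⟨⟨j, hjp⟩, (SimpleGraph.mem_neighborFinset _ _ _).2 hj⟩
  · intro u v huv heq
    obtain ⟨j, hj⟩ := TCp_twin hn3 S Q hS hQ hSQ hQS p u.1 v.1 (fun h => huv (Subtype.ext h))
    apply hj
    by_cases hjp : j = p
    · subst hjp
      exact ⟨fun h => absurd h (Op _ _), fun h => absurd h (Op _ _)⟩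
    · have h1 : (⟨j, hjp⟩ : {i : Fin n // i ≠ p}) ∈ G.neighborFinset u ↔
          (⟨j, hjp⟩ : {i : Fin n // i ≠ p}) ∈ G.neighborFinset v := by rw [heq]
      rw [SimpleGraph.mem_neighborFinset, SimpleGraph.mem_neighborFinset] at h1
      exact h1

/-
JOB TC3 (total minimality has to be checked for orders four and six only).
PLAIN WORDS. (→): k = 3 gives det ∈ {0, ± 8}, k = 5 gives det ∈ {0, ± 32}.
(←): suppose some submatrix of order k + 1 has another determinant; take k minimal, n = k + 1, S' = S restricted to f, g; all smaller square submatrices of S' are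
submatrices of S (compose f, g with injective maps), so hprop of TC1_violator holds by minimality, hviol too. So n ≥ 3, |det S'| = 2^n and there is
Q. TCp_even: n is even. n = 4: det = ± 16, excluded; n = 6: det = ± 64, excluded. n ≥ 8: let p = 0 and let G be the graph on
{i : Fin n // i ≠ p} with i ~ j iff i ≠ j and |T_i ∩ T_j| is odd (for i = j it is even by TCp_even). A submatrix of order four of S' with determinant
± 16 would violate hprop (k = 3). So by TCh_hadamard: G has no triangle; and for edges a b, c d without edges between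
them (a, b, c, d are then different) use TCh_hadamard with p := a and rows b, c, d: mod 2, with t_x = indicator of T_x (relative to the old p), (t_b + t_a)·(t_c + t_a) =
t_b t_c + t_b t_a + t_a t_c + t_a t_a = 0 + 1 + 0 + 0 = 1, (t_b + t_a)·(t_d + t_a) = 1, (t_c + t_a)·(t_d + t_a) = t_c t_d + 0 + 0 + 0 = 1 (S x c ≠ S a c iff
t_x c + t_a c = 1). If the two edges share a vertex the conclusion of h2K2 is trivial. Degrees: TCp_degree (the vertex p does not count: T_p = ∅), TCp_pos (the j found is not p), TCp_twin. So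
n - 1 = card ≤ 5 by TCg_graph: contradiction.
-/
theorem totallyMinimal_iff {α : Type*} {A B : Set α} {S : α → α → ℤ}
    (hS : ∀ a ∈ A, ∀ b ∈ B, S a b = 1 ∨ S a b = -1) :
    (∀ (k : ℕ) (f g : Fin (k + 1) → α), f.Injective → g.Injective → (∀ i, f i ∈ A) →
      (∀ i, g i ∈ B) →
      (Matrix.of fun i j => S (f i) (g j)).det = 0 ∨
      (Matrix.of fun i j => S (f i) (g j)).det = 2 ^ k ∨
      (Matrix.of fun i j => S (f i) (g j)).det = - 2 ^ k) ↔
    ((∀ (f g : Fin 4 → α), f.Injective → g.Injective → (∀ i, f i ∈ A) → (∀ i, g i ∈ B) →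
      (Matrix.of fun i j => S (f i) (g j)).det.natAbs ≠ 16) ∧
     (∀ (f g : Fin 6 → α), f.Injective → g.Injective → (∀ i, f i ∈ A) → (∀ i, g i ∈ B) →
      (Matrix.of fun i j => S (f i) (g j)).det.natAbs ≠ 64)) := by
  constructor
  · intro h
    refine ⟨fun f g hf hg hfA hgB => ?_, fun f g hf hg hfA hgB => ?_⟩
    · rcases h 3 f g hf hg hfA hgB with h1 | h1 | h1 <;> rw [h1] <;> decide
    · rcases h 5 f g hf hg hfA hgB with h1 | h1 | h1 <;> rw [h1] <;> decide
  · rintro ⟨h4, h6⟩ k
    induction k using Nat.strong_induction_on with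
    | _ k ih =>
      intro f g hf hg hfA hgB
      by_contra hviol
      set M : Matrix (Fin (k + 1)) (Fin (k + 1)) ℤ := Matrix.of fun i j => S (f i) (g j) with hM
      have hMS : ∀ i j, M i j = 1 ∨ M i j = -1 := fun i j => hS _ (hfA i) _ (hgB j)
      have hprop : ∀ m, m + 1 < k + 1 → ∀ f' g' : Fin (m + 1) → Fin (k + 1), f'.Injective →
          g'.Injective → (M.submatrix f' g').det = 0 ∨ (M.submatrix f' g').det = 2 ^ m ∨
            (M.submatrix f' g').det = - 2 ^ m := by
        intro m hm f' g' hf' hg'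
        exact ih m (by omega) (f ∘ f') (g ∘ g') (hf.comp hf') (hg.comp hg') (fun i => hfA _)
          (fun i => hgB _)
      obtain ⟨hn3, hdet, Q, hQ, hSQ, hQS⟩ := TC1_violator M hMS hprop (by simpa using hviol)
      obtain ⟨hev, -⟩ := TCp_even hn3 M Q hMS hQ hSQ hQS
      by_cases hk3 : k = 3
      · subst hk3
        apply h4 f g hf hg hfA hgB
        change M.det.natAbs = 16
        rcases hdet with h1 | h1 <;> rw [h1] <;> decide
      by_cases hk5 : k = 5
      · subst hk5
        apply h6 f g hf hg hfA hgB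
        change M.det.natAbs = 64
        rcases hdet with h1 | h1 <;> rw [h1] <;> decide
      have hk7 : 7 ≤ k + 1 := by
        obtain ⟨r, hr⟩ := hev
        omega
      refine TC3_large hk7 M Q hMS hQ hSQ hQS ?_
      intro f' g' hf' hg' h
      have := hprop 3 (by omega) f' g' hf' hg'
      norm_num at this
      rcases h with h | h <;> rw [h] at this <;> norm_num at this

end Pool.Agent.Helper43_EOR
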