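import Mathlib
import Pool.Agent.Helper43_EOR.AsmB
import Pool.Agent.Helper43_EOR.TC3

set_option autoImplicit false

/-! # The classification with the explicit form of type S -/

namespace Pool.Agent.Helper43_EOR

open Set Matroid

variable {α : Type*}

theorem totallyMinimal_iff_flat (A B : Set α) (S : α → α → ℤ) :
    TotallyMinimal A B S ↔ FlatSigns A B S := by
  constructor
  · rintro ⟨hS, h⟩
    exact ⟨hS, (totallyMinimal_iff hS).1 h⟩
  · rintro ⟨hS, h⟩
    exact ⟨hS, (totallyMinimal_iff hS).2 h⟩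

theorem typeS_iff (M : Matroid α) (A B : Set α) : TypeS0 M A B ↔ TypeS M A B := by
  unfold TypeS0 TypeS
  simp only [totallyMinimal_iff_flat]

theorem typed_iff (M : Matroid α) (A B : Set α) : Typed0 M A B ↔ Typed M A B := by
  unfold Typed0 Typed
  rw [typeS_iff]

theorem classification {M : Matroid α} (hfin : M.E.Finite) :
    ExactlyOneRegular M ↔ M.E.Nonempty ∧ ∃ A B : Set α, A ∪ B = M.E ∧ Disjoint A B ∧
      (Typed M A B ∨ Typed M✶ B A) ∧
      ∀ e ∈ M.E, ∃ X ⊆ M.E, e ∉ X ∧ IsCore (M ／ (A \ X) ＼ (B \ X)) := by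
  rw [classification0 hfin]
  simp only [typed_iff]

end Pool.Agent.Helper43_EOR
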